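import Pool.Agent.MP_29b5d3_an.EX.Rblk2
import Pool.Agent.MP_29b5d3_an.NC.CacC
import Mathlib.Analysis.FunctionalSpaces.SobolevInequality
import Mathlib.MeasureTheory.Function.LpSpace.Complete
import Mathlib.MeasureTheory.Function.L2Space
import Mathlib.MeasureTheory.Function.ConvergenceInMeasure

-- ======== part 0: formerly Pool.Agent.MP_29b5d3_an.EX.Rgau
section MrgPart0

/-! Project EXQ: the smooth gauge at a variable scale. -/

set_option autoImplicit false

namespace Pool.Agent.MP_29b5d3_an.EX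

open MeasureTheory Metric Filter Topology Module Pool.Agent.MP_29b5d3_an.NC
open scoped RealInnerProductSpace ContDiff ENNReal

variable {n : ℕ}

namespace Rgaux

theorem al_eq (hA : AvA n) (F : V n → ℝ≥0∞) (x : V n) {r : ℝ} (hr : 0 < r) :
    ∫⁻ y in ball (0 : V n) 1, F (x + r • y) = al F x r := by
  rw [al, hA.lint F x r hr, ← mul_assoc,
    ENNReal.inv_mul_cancel (rn_ne hr) ENNReal.ofReal_ne_top, one_mul]

theorem cs {α : Type} [MeasurableSpace α] (μ : Measure α) {F : α → ℝ≥0∞} (hF : Measurable F) :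
    (∫⁻ a, F a ∂μ) ^ 2 ≤ μ Set.univ * ∫⁻ a, F a ^ 2 ∂μ := by
  have k := ENNReal.lintegral_mul_le_Lp_mul_Lq μ Real.HolderConjugate.two_two
    (f := fun _ => 1) (g := F) aemeasurable_const hF.aemeasurable
  have e : ∀ X : ℝ≥0∞, (X ^ (1 / 2 : ℝ)) ^ 2 = X := fun X => by
    rw [← ENNReal.rpow_natCast, ← ENNReal.rpow_mul]
    norm_num
  simp only [Pi.mul_apply, one_mul, one_pow, lintegral_const, ENNReal.rpow_two] at k
  calc _ ≤ (μ Set.univ ^ (1 / 2 : ℝ) * (∫⁻ a, F a ^ 2 ∂μ) ^ (1 / 2 : ℝ)) ^ 2 := by gcongr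
    _ = _ := by rw [mul_pow, e, e]

theorem al_cs (hA : AvA n) {F : V n → ℝ≥0∞} (hF : Measurable F) (x : V n) {r : ℝ} (hr : 0 < r) :
    al F x r ^ 2 ≤ ENNReal.ofReal (vb n) * al (fun z => F z ^ 2) x r := by
  rw [← al_eq hA F x hr, ← al_eq hA _ x hr]
  refine (cs _ (hF.comp (by fun_prop))).trans_eq ?_
  rw [Measure.restrict_apply_univ, vol_ball _ one_pos, one_pow, mul_one]
  rfl

section
variable {U : Type} [NormedAddCommGroup U] [NormedSpace ℝ U]

theorem int_le (hA : AvA n) {θ : V n → ℝ} {A : ℝ} (h0 : ∀ y, 1 ≤ ‖y‖ → θ y = 0)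
    (hθ : ∀ y, |θ y| ≤ A) (w : V n → U) {F : V n → ℝ≥0∞} (x : V n) {r : ℝ} (hr : 0 < r)
    (hw : ∀ y, ‖y‖ < 1 → ‖w y‖ₑ ≤ F (x + r • y)) :
    ‖∫ y, θ y • w y‖ₑ ≤ ENNReal.ofReal A * al F x r := by
  rw [← al_eq hA F x hr, ← lintegral_const_mul' _ _ ENNReal.ofReal_ne_top,
    ← lintegral_indicator measurableSet_ball]
  refine (enorm_integral_le_lintegral_enorm _).trans (lintegral_mono fun y => ?_)
  by_cases hy : ‖y‖ < 1
  · rw [Set.indicator_of_mem (mem_ball_zero_iff.2 hy), enorm_smul]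
    refine mul_le_mul' ?_ (hw y hy)
    rw [← ofReal_norm]
    exact ENNReal.ofReal_le_ofReal (hθ y)
  · rw [h0 y (not_lt.1 hy), zero_smul, enorm_zero]
    exact zero_le

theorem av_int (hA : AvA n) {θ : V n → ℝ} (hθ : Test θ 1) {g : V n → U}
    (hg : LocallyIntegrable g volume) (x : V n) {r : ℝ} (hr : 0 < r) :
    Integrable (fun y => θ y • g (x + r • y)) volume :=
  (hA.loc U g hg x r hr.ne').integrable_smul_left_of_hasCompactSupport hθ.cont hθ.supp

/-- An average differs from a multiple of a constant by at most the mean deviation. -/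
theorem av_sub [CompleteSpace U] (hA : AvA n) {θ : V n → ℝ} {A : ℝ} (hθ : Test θ 1)
    (hb : ∀ y, |θ y| ≤ A) {g g1 : V n → U} (hg : StronglyMeasurable g)
    (h1 : LocallyIntegrable g1 volume) (x : V n) {r ρ : ℝ} (hr : 0 < r) (hρ : r ≤ ρ)
    (hρ' : ρ ≤ 20 * r) (he : ∀ y, ‖y‖ < 1 → g1 (x + r • y) = g (x + r • y)) (e : U) :
    ‖av θ g1 x r - (∫ y, θ y) • e‖ₑ ^ 2 ≤
      ENNReal.ofReal (A ^ 2 * vb n * 20 ^ n) * al (fun z => ‖g z - e‖ₑ ^ 2) x ρ := by
  have A0 : 0 ≤ A := (abs_nonneg _).trans (hb 0)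
  have e0 : av θ g1 x r - (∫ y, θ y) • e = ∫ y, θ y • (g1 (x + r • y) - e) := by
    simp only [smul_sub]
    rw [integral_sub (av_int hA hθ h1 x hr) (hθ.int.smul_const _), integral_smul_const, av]
  have k := int_le hA hθ.2 hb (fun y => g1 (x + r • y) - e) (F := fun z => ‖g z - e‖ₑ) x hr
    fun y hy => by rw [he y hy]
  have k2 := al_cs hA (hg.sub stronglyMeasurable_const (g := fun _ => e)).enorm x hr
  have k3 := al_sub (fun z => ‖g z - e‖ₑ ^ 2) hr (ball_subset_ball (x := x) hρ) hρ'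
  rw [e0, ENNReal.ofReal_mul (mul_nonneg (sq_nonneg _) vb_pos.le),
    ENNReal.ofReal_mul (sq_nonneg _), ENNReal.ofReal_pow A0, mul_assoc, mul_assoc]
  refine (pow_le_pow_left' k 2).trans ?_
  rw [mul_pow]
  exact mul_le_mul_right (k2.trans (mul_le_mul_right k3 _)) _

omit [NormedSpace ℝ U] in
/-- Averaging over the constant. -/
theorem avg {g : V n → U} {a : ℝ≥0∞} {K : ℝ} (x : V n) {ρ : ℝ} (hρ : 0 < ρ)
    (h : ∀ e, a ≤ ENNReal.ofReal K * al (fun z => ‖g z - e‖ₑ ^ 2) x ρ) :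
    a ≤ ENNReal.ofReal (K / vb n) * dav g x ρ := by
  have k : al (fun _ => a) x ρ ≤
      al (fun y => ENNReal.ofReal K * al (fun z => ‖g y - g z‖ₑ ^ 2) x ρ) x ρ :=
    al_mono fun y _ => (h (g y)).trans_eq (by simp only [enorm_sub_rev (g y)])
  rw [al_const _ _ hρ, al_const_mul ENNReal.ofReal_ne_top] at k
  have v0 : ENNReal.ofReal (vb n) ≠ 0 := by simpa using vb_pos (n := n)
  rw [ENNReal.ofReal_div_of_pos vb_pos, div_eq_mul_inv, mul_right_comm, ← div_eq_mul_inv,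
    ENNReal.le_div_iff_mul_le (Or.inl v0) (Or.inl ENNReal.ofReal_ne_top)]
  exact k

omit [NormedSpace ℝ U] in
theorem loc_ind {g : V n → U} (hg : StronglyMeasurable g)
    (hL : ∫⁻ x in ball (0 : V n) 5, ‖g x‖ₑ ^ 2 < ⊤) :
    LocallyIntegrable ((ball (0 : V n) 5).indicator g) volume := by
  have ig : IntegrableOn g (ball (0 : V n) 5) volume := by
    refine ⟨hg.aestronglyMeasurable, lt_of_le_of_lt (lintegral_mono (g := fun x =>
      1 + ‖g x‖ₑ ^ 2) fun x => ?_) ?_⟩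
    · rcases le_total ‖g x‖ₑ 1 with k | k
      · exact k.trans le_self_add
      · exact (le_self_pow k two_ne_zero).trans le_add_self
    · rw [lintegral_add_left measurable_const, setLIntegral_const, one_mul]
      exact ENNReal.add_lt_top.2 ⟨measure_ball_lt_top, hL⟩
  exact (ig.integrable_indicator measurableSet_ball).locallyIntegrable

theorem int_deriv (hA : AvA n) {φ : V n → ℝ} (hφ : Test φ 1) (v : V n) (s : ℝ) :
    ∫ y, (fderiv ℝ φ y (v + s • y) + n * s * φ y) = 0 := by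
  have k := hA.deriv ℝ φ 1 (fun _ => 1) hφ (locallyIntegrable_const _) 0 v 1 s one_pos
  simp only [av, smul_eq_mul, mul_one, fderiv_fun_const, Pi.zero_apply,
    zero_apply, inv_one, one_mul] at k
  linarith

end

/-- The quadratic identity for averages of orthogonal matrices. -/
theorem quad (hA : AvA n) {θ : V n → ℝ} {A : ℝ} (hθ : Test θ 1) (hb : ∀ y, |θ y| ≤ A)
    {R : V n → Mt n} (hi : Integrable (fun y => θ y • R y) volume)
    (ho : ∀ y, ‖y‖ < 1 → Orth (R y)) (Q : Mt n) {F : V n → ℝ≥0∞} (x : V n) {r : ℝ} (hr : 0 < r)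
    (hF : ∀ y, ‖y‖ < 1 → ‖R y - Q‖ₑ ^ 2 ≤ F (x + r • y)) :
    ‖star (∫ y, θ y • R y) * Q + star Q * (∫ y, θ y • R y) -
      (∫ y, θ y) • (1 + star Q * Q)‖ₑ ≤ ENNReal.ofReal A * al F x r := by
  let L : Mt n →L[ℝ] Mt n :=
    ((ContinuousLinearMap.mul ℝ (Mt n)).flip Q).comp (starL' ℝ : Mt n ≃L[ℝ] Mt n).toContinuousLinearMap +
      ContinuousLinearMap.mul ℝ (Mt n) (star Q)
  have hL : ∀ X, L X = star X * Q + star Q * X := fun X => rfl
  have e0 : star (∫ y, θ y • R y) * Q + star Q * (∫ y, θ y • R y) -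
      (∫ y, θ y) • (1 + star Q * Q) = ∫ y, θ y • (L (R y) - (1 + star Q * Q)) := by
    simp only [smul_sub, ← map_smul]
    rw [integral_sub (L.integrable_comp hi) (hθ.int.smul_const _), integral_smul_const,
      L.integral_comp_comm hi, hL]
  rw [e0]
  refine int_le hA hθ.2 hb _ x hr fun y hy => le_trans ?_ (hF y hy)
  have e1 : L (R y) - (1 + star Q * Q) = -(star (R y - Q) * (R y - Q)) := by
    rw [hL, star_sub, ← ho y hy]
    noncomm_ring
  rw [e1, enorm_neg, ← ofReal_norm, ← ofReal_norm, ← ENNReal.ofReal_pow (norm_nonneg _)]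
  refine ENNReal.ofReal_le_ofReal ((norm_mul_le _ _).trans_eq ?_)
  rw [norm_star', sq]

/-- A smooth radius comparable with the scale. -/
theorem radius (hA : AvA n) {φ ψ : V n → ℝ} (hφ : Ker φ ψ) {D : V n → ℝ} (hD : Scale D) :
    ∃ r : V n → ℝ, ContDiff ℝ ∞ r ∧ (∀ x, ‖fderiv ℝ r x‖ ≤ 1) ∧
      ∀ x, D x ≤ 200 * r x ∧ r x ≤ D x / 10 := by
  obtain ⟨r0, r0p, hr0⟩ := hD.low
  have lD : LocallyIntegrable D volume := hD.lip.continuous.locallyIntegrable
  have ρ0 : 0 < r0 / 2 := by positivity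
  have bd : ∀ (w : V n → ℝ) (c : ℝ), (∀ y, ‖y‖ < 1 → |w y| ≤ c) → |∫ y, φ y • w y| ≤ c := by
    intro w c hw
    have k := norm_integral_le_of_norm_le (f := fun y => φ y • w y) (hφ.tφ.int.mul_const c)
      (Eventually.of_forall fun y => by
        rw [norm_smul, Real.norm_of_nonneg (hφ.φ0 y)]
        by_cases hy : ‖y‖ < 1
        · exact mul_le_mul_of_nonneg_left (hw y hy) (hφ.φ0 y)
        · rw [hφ.tφ.2 y (not_lt.1 hy), zero_mul, zero_mul])
    rwa [integral_mul_const, hφ.one, one_mul] at k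
  have near : ∀ x, |av φ D x (r0 / 2) - D x| ≤ r0 / 2 := fun x => by
    have e : av φ D x (r0 / 2) - D x = ∫ y, φ y • (D (x + (r0 / 2) • y) - D x) := by
      simp only [smul_sub]
      rw [integral_sub (av_int hA hφ.tφ lD x ρ0) (hφ.tφ.int.smul_const _), integral_smul_const,
        hφ.one, one_smul, av]
    rw [e]
    refine bd _ _ fun y hy => ?_
    have k := hD.lip.dist_le_mul (x + (r0 / 2) • y) x
    rw [Real.dist_eq, dist_self_add_left, norm_smul, Real.norm_of_nonneg ρ0.le] at k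
    simp only [NNReal.coe_one, one_mul] at k
    nlinarith
  have lip : LipschitzWith 1 fun x => av φ D x (r0 / 2) / 100 := by
    refine LipschitzWith.of_dist_le_mul fun x x' => ?_
    have e : av φ D x (r0 / 2) - av φ D x' (r0 / 2) =
        ∫ y, φ y • (D (x + (r0 / 2) • y) - D (x' + (r0 / 2) • y)) := by
      simp only [smul_sub]
      rw [integral_sub (av_int hA hφ.tφ lD x ρ0) (av_int hA hφ.tφ lD x' ρ0), av, av]
    have k := bd (fun y => D (x + (r0 / 2) • y) - D (x' + (r0 / 2) • y)) (dist x x')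
      fun y _ => by
        have k := hD.lip.dist_le_mul (x + (r0 / 2) • y) (x' + (r0 / 2) • y)
        rwa [Real.dist_eq, dist_add_right, NNReal.coe_one, one_mul] at k
    rw [Real.dist_eq, ← sub_div, abs_div, e, NNReal.coe_one, one_mul]
    rw [abs_of_pos (by norm_num : (0 : ℝ) < 100)]
    linarith [dist_nonneg (x := x) (y := x')]
  refine ⟨fun x => av φ D x (r0 / 2) / 100, ContDiff.div_const ?_ _,
    fun x => norm_fderiv_le_of_lipschitz ℝ lip, fun x => ?_⟩
  · exact (hA.smooth ℝ φ 1 D hφ.tφ lD).comp_contDiff (contDiff_id.prodMk contDiff_const)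
      fun _ => ρ0
  · have := abs_le.1 (near x)
    have := hr0 x
    constructor <;> linarith

theorem to_real {a K : ℝ} {d : ℝ≥0∞} (hd : d ≠ ⊤) (hK : 0 ≤ K)
    (h : ENNReal.ofReal a ≤ ENNReal.ofReal K * d) : a ≤ K * d.toReal := by
  rw [← ENNReal.ofReal_toReal hd, ← ENNReal.ofReal_mul hK] at h
  exact (ENNReal.ofReal_le_ofReal_iff (mul_nonneg hK ENNReal.toReal_nonneg)).1 h

end Rgaux

open Rgaux

theorem gau (h : Bas0 n) : GAU n := by
  have hA := h.ava
  obtain ⟨φ, ψ, hφ⟩ := h.ker.ker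
  obtain ⟨C0, C0p, hC0⟩ := hφ.tφ.bdd
  obtain ⟨C1, C1p, hC1⟩ := hφ.tφ.bdd_fderiv
  have vp := vb_pos (n := n)
  obtain ⟨A, A0, A1, Ap⟩ : ∃ A : ℝ, C0 ≤ A ∧ 2 * C1 + n * C0 ≤ A ∧ 0 < A :=
    ⟨C0 + (2 * C1 + n * C0), le_add_of_nonneg_right (by positivity),
      le_add_of_nonneg_left C0p.le, by positivity⟩
  obtain ⟨Kn, hKn⟩ : ∃ K : ℝ, K = A ^ 2 * vb n * 20 ^ n := ⟨_, rfl⟩
  have Knp : 0 < Kn := by rw [hKn]; positivity
  obtain ⟨K2, hK2⟩ : ∃ K : ℝ, K = (2 * 20 ^ n + 2 * Kn * vb n) / vb n := ⟨_, rfl⟩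
  have K2p : 0 < K2 := by rw [hK2]; positivity
  obtain ⟨B, B1, B2, B3⟩ : ∃ B : ℝ, 1 ≤ B ∧ 200 * A * 20 ^ n ≤ B ∧ 200 * A * K2 ≤ B :=
    ⟨1 + (200 * A * 20 ^ n + 200 * A * K2), le_add_of_nonneg_right (by positivity),
      by have : 0 < 200 * A * K2 := by positivity
         linarith,
      by have : 0 < 200 * A * 20 ^ n := by positivity
         linarith⟩
  refine ⟨B ^ 2 + Kn, by positivity, fun g D hg ho hL hD => ?_⟩
  obtain ⟨r, sr, dr, hr⟩ := radius hA hφ hD
  have rp : ∀ x, 0 < r x := fun x => by linarith [(hr x).1, hD.pos x]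
  obtain ⟨g1, hg1⟩ : ∃ g1, g1 = (ball (0 : V n) 5).indicator g := ⟨_, rfl⟩
  have l1 : LocallyIntegrable g1 volume := hg1 ▸ loc_ind hg hL
  obtain ⟨G, hG⟩ : ∃ G : V n → ℝ × Mt n, G = fun x => av φ g1 x (r x) := ⟨_, rfl⟩
  have sP : ContDiff ℝ ∞ fun x : V n => (x, r x) := contDiff_id.prodMk sr
  have sG : ContDiff ℝ ∞ G :=
    hG ▸ (hA.smooth _ φ 1 g1 hφ.tφ l1).comp_contDiff sP fun x => rp x
  have dG : Differentiable ℝ G := sG.differentiable (by simp)
  have sub : ∀ x ∈ ball (0 : V n) 4, ball x (D x / 10) ⊆ ball 0 5 := fun x hx =>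
    ball_subset_ball' (by linarith [hD.up x, mem_ball.1 hx])
  have he : ∀ x ∈ ball (0 : V n) 4, ∀ y : V n, ‖y‖ < 1 → g1 (x + r x • y) = g (x + r x • y) := by
    intro x hx y hy
    rw [hg1]
    refine Set.indicator_of_mem (sub x hx ?_) _
    rw [mem_ball, dist_self_add_left, norm_smul, Real.norm_of_nonneg (rp x).le]
    nlinarith [(hr x).2, rp x]
  have ρp : ∀ x, 0 < D x / 10 := fun x => by linarith [hD.pos x]
  have ρr : ∀ x, D x / 10 ≤ 20 * r x := fun x => by linarith [(hr x).1]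
  have fin : ∀ x ∈ ball (0 : V n) 4, dav g x (D x / 10) ≠ ⊤ := fun x hx => by
    refine ne_top_of_le_ne_top ?_ (dav_le hg 0 x (ρp x))
    refine ENNReal.mul_ne_top ENNReal.ofReal_ne_top (ENNReal.mul_ne_top
      (ENNReal.inv_ne_top.2 (rn_ne (ρp x))) (ne_top_of_le_ne_top hL.ne ?_))
    simp only [sub_zero]
    exact lintegral_mono_set (sub x hx)
  have near : ∀ x ∈ ball (0 : V n) 4, ∀ e, ‖G x - e‖ₑ ^ 2 ≤
      ENNReal.ofReal Kn * al (fun y => ‖g y - e‖ₑ ^ 2) x (D x / 10) := fun x hx e => by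
    have k := av_sub hA hφ.tφ (fun y => (hC0 y).trans A0) hg l1 x (rp x) (hr x).2 (ρr x)
      (he x hx) e
    rwa [hφ.one, one_smul, ← hKn, ← congrFun hG x] at k
  have osc : ∀ x ∈ ball (0 : V n) 4, al (fun z => ‖g z - G x‖ₑ ^ 2) x (r x) ≤
      ENNReal.ofReal K2 * dav g x (D x / 10) := fun x hx => by
    rw [hK2]
    refine avg x (ρp x) fun e => (al_mono fun z _ => enorm_sq_le (g z) (G x) e).trans ?_
    rw [al_add_right _ measurable_const, al_const _ _ (rp x), al_const_mul ENNReal.ofNat_ne_top,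
      ENNReal.ofReal_add (by positivity) (by positivity), add_mul,
      ENNReal.ofReal_mul zero_le_two, ENNReal.ofReal_mul (by positivity),
      ENNReal.ofReal_mul zero_le_two, ENNReal.ofReal_ofNat, mul_assoc 2 (ENNReal.ofReal _),
      mul_right_comm _ (ENNReal.ofReal (vb n)), mul_assoc 2 (ENNReal.ofReal _)]
    exact add_le_add (mul_le_mul_right (al_sub _ (rp x) (ball_subset_ball (hr x).2) (ρr x)) _)
      (mul_le_mul_left (mul_le_mul_right (near x hx e) _) _)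
  have qd : ∀ x ∈ ball (0 : V n) 4, ∀ (θ : V n → ℝ) (a : ℝ), Test θ 1 → (∀ y, |θ y| ≤ a) →
      ‖star (av θ g1 x (r x)).2 * (G x).2 + star (G x).2 * (av θ g1 x (r x)).2 -
        (∫ y, θ y) • (1 + star (G x).2 * (G x).2)‖ ≤ a * K2 * (dav g x (D x / 10)).toReal := by
    intro x hx θ a hθ hb
    have a0 : 0 ≤ a := (abs_nonneg _).trans (hb 0)
    have hi := av_int hA hθ l1 x (rp x)
    have k := quad hA hθ hb (R := fun y => (g1 (x + r x • y)).2) hi.snd
      (fun y hy => by rw [he x hx y hy]; exact ho _) (G x).2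
      (F := fun z => ‖g z - G x‖ₑ ^ 2) x (rp x) fun y hy => by
        rw [he x hx y hy, ← ofReal_norm, ← ofReal_norm]
        exact pow_le_pow_left' (ENNReal.ofReal_le_ofReal (norm_snd_le (g _ - G x))) 2
    have e : (av θ g1 x (r x)).2 = ∫ y, θ y • (g1 (x + r x • y)).2 := snd_integral hi
    refine to_real (fin x hx) (mul_nonneg a0 K2p.le) ?_
    rw [e, ofReal_norm, ENNReal.ofReal_mul a0, mul_assoc]
    exact k.trans (mul_le_mul_right (osc x hx) _)
  have der : ∀ x v, ∃ θ : V n → ℝ, Test θ 1 ∧ (∀ y, |θ y| ≤ A * ‖v‖) ∧ ∫ y, θ y = 0 ∧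
      fderiv ℝ G x v = -((r x)⁻¹ • av θ g1 x (r x)) := fun x v => by
    have hs : |fderiv ℝ r x v| ≤ ‖v‖ :=
      ((fderiv ℝ r x).le_opNorm v).trans (mul_le_of_le_one_left (norm_nonneg _) (dr x))
    refine ⟨fun y => fderiv ℝ φ y (v + fderiv ℝ r x v • y) + n * fderiv ℝ r x v * φ y,
      ⟨?_, fun y hy => ?_⟩, fun y => ?_, int_deriv hA hφ.tφ _ _, ?_⟩
    · exact (hφ.tφ.smooth_fderiv.clm_apply (contDiff_const.add (contDiff_id.const_smul _))).add
        (contDiff_const.mul hφ.tφ.1)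
    · beta_reduce
      rw [hφ.tφ.fderiv_zero y hy, hφ.tφ.2 y hy, mul_zero, add_zero]
      rfl
    · beta_reduce
      by_cases hy : ‖y‖ < 1
      · have k1 : ‖v + fderiv ℝ r x v • y‖ ≤ 2 * ‖v‖ := by
          refine (norm_add_le _ _).trans ?_
          rw [norm_smul, Real.norm_eq_abs]
          nlinarith [norm_nonneg y, abs_nonneg (fderiv ℝ r x v)]
        have k2 : |fderiv ℝ φ y (v + fderiv ℝ r x v • y)| ≤ C1 * (2 * ‖v‖) :=
          ((fderiv ℝ φ y).le_opNorm _).trans (mul_le_mul (hC1 y) k1 (norm_nonneg _) C1p.le)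
        have k3 : |n * fderiv ℝ r x v * φ y| ≤ n * ‖v‖ * C0 := by
          rw [abs_mul, abs_mul, Nat.abs_cast]
          exact mul_le_mul (mul_le_mul_of_nonneg_left hs n.cast_nonneg) (hC0 y) (abs_nonneg _)
            (by positivity)
        refine (abs_add_le _ _).trans ?_
        nlinarith [mul_le_mul_of_nonneg_right A1 (norm_nonneg v)]
      · rw [hφ.tφ.fderiv_zero y (not_lt.1 hy), hφ.tφ.2 y (not_lt.1 hy), mul_zero, add_zero,
          zero_apply, abs_zero]
        positivity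
    · have d1 : DifferentiableAt ℝ (fun p : V n × ℝ => av φ g1 p.1 p.2) (x, r x) :=
        ((hA.smooth _ φ 1 g1 hφ.tφ l1).contDiffAt ((isOpen_lt continuous_const
          continuous_snd).mem_nhds (rp x))).differentiableAt (by simp)
      have d2 := (hasFDerivAt_id (𝕜 := ℝ) x).prodMk
        (sr.differentiable (by simp) x).hasFDerivAt
      rw [← hA.deriv _ φ 1 g1 hφ.tφ l1 x v (r x) _ (rp x), hG]
      exact congrArg (fun T => T v) (d1.hasFDerivAt.comp x d2).fderiv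
  have ri : ∀ x, (r x)⁻¹ ≤ 200 / D x := fun x => by
    rw [inv_eq_one_div, div_le_div_iff₀ (rp x) (hD.pos x)]
    linarith [(hr x).1]
  have osq : ∀ x, (B * √(dav g x (D x / 10)).toReal) ^ 2 = B ^ 2 * (dav g x (D x / 10)).toReal :=
    fun x => by rw [mul_pow, Real.sq_sqrt ENNReal.toReal_nonneg]
  have BB : 200 * A * K2 ≤ B ^ 2 := by nlinarith
  have dle : ∀ x ∈ ball (0 : V n) 4, ‖fderiv ℝ G x‖ ≤ B * √(dav g x (D x / 10)).toReal / D x := by
    intro x hx
    have Dp := hD.pos x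
    refine ContinuousLinearMap.opNorm_le_bound _ (by positivity) fun v => ?_
    obtain ⟨θ, hθ, hb, h0, e⟩ := der x v
    have k0 := av_sub hA hθ hb hg l1 x (rp x) (hr x).2 (ρr x) (he x hx)
    simp only [h0, zero_smul, sub_zero] at k0
    have k := avg x (ρp x) k0
    rw [← ofReal_norm, ← ENNReal.ofReal_pow (norm_nonneg _), mul_right_comm,
      mul_div_cancel_right₀ _ vp.ne'] at k
    have k2 := to_real (fin x hx) (by positivity) k
    have k3 : ‖av θ g1 x (r x)‖ ≤ A * ‖v‖ * 20 ^ n * √(dav g x (D x / 10)).toReal := by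
      refine le_of_sq_le_sq (k2.trans ?_) (by positivity)
      rw [mul_pow _ (√_), Real.sq_sqrt ENNReal.toReal_nonneg, mul_pow _ ((20 : ℝ) ^ n)]
      have : (20 : ℝ) ^ n ≤ (20 ^ n) ^ 2 := le_self_pow₀ (one_le_pow₀ (by norm_num)) two_ne_zero
      gcongr
    rw [e, norm_neg, norm_smul, Real.norm_of_nonneg (inv_pos.2 (rp x)).le]
    calc _ ≤ 200 / D x * (A * ‖v‖ * 20 ^ n * √(dav g x (D x / 10)).toReal) := by
          gcongr
          exact ri x
      _ = 200 * A * 20 ^ n * √(dav g x (D x / 10)).toReal / D x * ‖v‖ := by ring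
      _ ≤ _ := by gcongr
  have f2 : ∀ x, fderiv ℝ (fun x => (G x).2) x =
      (ContinuousLinearMap.snd ℝ ℝ (Mt n)).comp (fderiv ℝ G x) :=
    fun x => (dG x).hasFDerivAt.snd.fderiv
  refine ⟨fun x => (G x).1, fun x => (G x).2, fun x => B * √(dav g x (D x / 10)).toReal,
    sG.fst, sG.snd, ?_, fun x => by positivity, fun x _ => ?_, fun x hx => ?_, fun x hx => ?_,
    fun x hx => ?_, fun x hx => ?_, fun x hx v => ?_, fun x hx e => ?_⟩
  · exact (dav_meas hg (hD.meas.div_const 10)).ennreal_toReal.sqrt.const_mul B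
  · rw [osq, ENNReal.ofReal_mul (sq_nonneg _)]
    exact mul_le_mul' (ENNReal.ofReal_le_ofReal (by linarith)) ENNReal.ofReal_toReal_le
  · refine le_trans ?_ (dle x hx)
    rw [(dG x).hasFDerivAt.fst.fderiv]
    exact ContinuousLinearMap.opNorm_le_bound _ (fderiv ℝ G x).opNorm_nonneg fun v =>
      (norm_fst_le (fderiv ℝ G x v)).trans ((fderiv ℝ G x).le_opNorm v)
  · refine le_trans ?_ (dle x hx)
    rw [f2]
    exact ContinuousLinearMap.opNorm_le_bound _ (fderiv ℝ G x).opNorm_nonneg fun v =>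
      (norm_snd_le (fderiv ℝ G x v)).trans ((fderiv ℝ G x).le_opNorm v)
  · have e : (G x).2 = ∫ y, φ y • (g1 (x + r x • y)).2 :=
      hG ▸ snd_integral (av_int hA hφ.tφ l1 x (rp x))
    rw [e, ← hφ.one]
    refine norm_integral_le_of_norm_le hφ.tφ.int (Eventually.of_forall fun y => ?_)
    rw [norm_smul, Real.norm_of_nonneg (hφ.φ0 y)]
    by_cases hy : ‖y‖ < 1
    · rw [he x hx y hy]
      exact mul_le_of_le_one_right (hφ.φ0 y) (ho _).norm_le
    · rw [hφ.tφ.2 y (not_lt.1 hy), zero_mul]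
  · have k := qd x hx φ A hφ.tφ fun y => (hC0 y).trans A0
    rw [hφ.one, one_smul, ← congrFun hG x, add_comm 1, add_sub_add_left_eq_sub] at k
    rw [osq]
    refine k.trans (mul_le_mul_of_nonneg_right ?_ ENNReal.toReal_nonneg)
    nlinarith [mul_pos Ap K2p]
  · obtain ⟨θ, hθ, hb, h0, e⟩ := der x v
    have k := qd x hx θ _ hθ hb
    have Dp := hD.pos x
    rw [h0, zero_smul, sub_zero] at k
    have e1 : fderiv ℝ (fun x => (G x).2) x v = -((r x)⁻¹ • (av θ g1 x (r x)).2) := by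
      rw [f2]
      exact congrArg Prod.snd e
    have e2 : ∀ M Q : Mt n, star (-((r x)⁻¹ • M)) * Q + star Q * -((r x)⁻¹ • M) =
        -((r x)⁻¹ • (star M * Q + star Q * M)) := fun M Q => by
      rw [star_neg, star_smul, star_trivial, neg_mul, mul_neg, smul_mul_assoc, mul_smul_comm,
        smul_add, neg_add]
    rw [e1, e2, norm_neg, norm_smul, Real.norm_of_nonneg (inv_pos.2 (rp x)).le, osq]
    calc _ ≤ 200 / D x * (A * ‖v‖ * K2 * (dav g x (D x / 10)).toReal) := by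
          gcongr
          exact ri x
      _ = 200 * A * K2 * (dav g x (D x / 10)).toReal / D x * ‖v‖ := by ring
      _ ≤ _ := by gcongr
  · exact (near x hx e).trans (mul_le_mul_left (ENNReal.ofReal_le_ofReal
      (le_add_of_nonneg_left (sq_nonneg _))) _)

end Pool.Agent.MP_29b5d3_an.EX

end MrgPart0

-- ======== part 1: formerly Pool.Agent.MP_29b5d3_an.EX.ODefs
section MrgPart1

/-! Project EXQ, obstacle package: definitions and the statements that do not mention levels. -/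

set_option autoImplicit false

namespace Pool.Agent.MP_29b5d3_an.EX

open MeasureTheory Metric Filter Topology Module
open scoped RealInnerProductSpace ContDiff ENNReal
open Pool.Agent.MP_29b5d3_an.NC

variable {n : ℕ}

/-- weak form of the inequality `Δ u ≤ f` -/
def LLe (u f : V n → ℝ) : Prop :=
  ∀ (ζ : V n → ℝ) (R : ℝ), Test ζ R → (∀ y, 0 ≤ ζ y) → ∫ x, u x * lap ζ x ≤ ∫ x, f x * ζ x

/-- weak form of the inequality `f ≤ Δ u` -/
def LGe (u f : V n → ℝ) : Prop :=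
  ∀ (ζ : V n → ℝ) (R : ℝ), Test ζ R → (∀ y, 0 ≤ ζ y) → ∫ x, f x * ζ x ≤ ∫ x, u x * lap ζ x

/-- weak form of `|Δ u| ≤ M` -/
def LB (u : V n → ℝ) (M : ℝ) : Prop := LLe u (fun _ => M) ∧ LGe u (fun _ => -M)

/-- measurable and bounded by `M` -/
def Bd (f : V n → ℝ) (M : ℝ) : Prop := Measurable f ∧ ∀ x, |f x| ≤ M

/-- the mollification of `u` at scale `r` -/
noncomputable def mol (φ u : V n → ℝ) (r : ℝ) : V n → ℝ := fun x => av φ u x r

/-- `f` on the set where `u` is positive, zero elsewhere -/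
noncomputable def onPos (u f : V n → ℝ) : V n → ℝ := Set.indicator {x | 0 < u x} f

/-- nonnegative test functions -/
def Adm (χ : V n → ℝ) : Prop := (∃ R, Test χ R) ∧ ∀ x, 0 ≤ χ x

/-- the energy of the obstacle problem -/
noncomputable def eng (f χ : V n → ℝ) : ℝ := (∫ x, ‖gradient χ x‖ ^ 2) / 2 + ∫ x, f x * χ x

/-- elementary calculus of the weak inequalities -/
structure OA1 (n : ℕ) : Prop where
  bd_loc : ∀ (f : V n → ℝ) (M : ℝ), Bd f M → LocallyIntegrable f volume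
  green : ∀ (a b : V n → ℝ) (R R' : ℝ), Test a R → Test b R' →
    ∫ x, a x * lap b x = -∫ x, ⟪gradient a x, gradient b x⟫ ∧
      ∫ x, a x * lap b x = ∫ x, lap a x * b x
  lle_congr : ∀ u u' f f' : V n → ℝ, u =ᵐ[volume] u' → LocallyIntegrable f volume →
    LocallyIntegrable f' volume → f ≤ᵐ[volume] f' → LLe u f → LLe u' f'
  lge_congr : ∀ u u' f f' : V n → ℝ, u =ᵐ[volume] u' → LocallyIntegrable f volume →
    LocallyIntegrable f' volume → f' ≤ᵐ[volume] f → LGe u f → LGe u' f'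
  sub_le : ∀ u v f g : V n → ℝ, LocallyIntegrable u volume → LocallyIntegrable v volume →
    LocallyIntegrable f volume → LocallyIntegrable g volume → LLe u f → LGe v g →
    LLe (fun x => u x - v x) (fun x => f x - g x)
  sub_ge : ∀ u v f g : V n → ℝ, LocallyIntegrable u volume → LocallyIntegrable v volume →
    LocallyIntegrable f volume → LocallyIntegrable g volume → LGe u f → LLe v g →
    LGe (fun x => u x - v x) (fun x => f x - g x)
  eq_all : ∀ u f : V n → ℝ, LocallyIntegrable u volume → LocallyIntegrable f volume →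
    LLe u f → LGe u f → ∀ (ζ : V n → ℝ) (R : ℝ), Test ζ R →
    ∫ x, u x * lap ζ x = ∫ x, f x * ζ x
  lle_av : ∀ (u f ζ : V n → ℝ) (R : ℝ), LLe u f → Test ζ R → (∀ y, 0 ≤ ζ y) →
    ∀ (x : V n) (r : ℝ), 0 < r → av (lap ζ) u x r ≤ r ^ 2 * av ζ f x r
  lge_av : ∀ (u f ζ : V n → ℝ) (R : ℝ), LGe u f → Test ζ R → (∀ y, 0 ≤ ζ y) →
    ∀ (x : V n) (r : ℝ), 0 < r → r ^ 2 * av ζ f x r ≤ av (lap ζ) u x r
  lb_av : ∀ (ζ : V n → ℝ) (R : ℝ), Test ζ R → ∃ C, 0 < C ∧ ∀ (u : V n → ℝ) (M : ℝ),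
    LocallyIntegrable u volume → LB u M → 0 ≤ M → ∀ (x : V n) (r : ℝ), 0 < r →
    |av (lap ζ) u x r| ≤ C * M * r ^ 2

/-- limits and comparison of averages -/
structure OA2 (n : ℕ) : Prop where
  lim : ∀ φ u : V n → ℝ, Test φ 1 → (∀ y, 0 ≤ φ y) → ∫ y, φ y = 1 → Continuous u →
    ∀ x, Tendsto (av φ u x) (𝓝[>] 0) (𝓝 (u x))
  leb : ∀ (U : Type) [NormedAddCommGroup U] (g : V n → U), LocallyIntegrable g volume →
    ∀ᵐ x, Tendsto (fun r => Iv (fun z => ‖g z - g x‖) x r) (𝓝[>] 0) (𝓝 0)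
  leb_av : ∀ (U : Type) [NormedAddCommGroup U] [NormedSpace ℝ U] [CompleteSpace U]
    (φ : V n → ℝ) (g : V n → U), Test φ 1 → ∫ y, φ y = 1 → LocallyIntegrable g volume →
    ∀ᵐ x, Tendsto (av φ g x) (𝓝[>] 0) (𝓝 (g x))
  av_mono : ∀ (ζ f g : V n → ℝ) (x : V n) (r : ℝ), Test ζ 1 → (∀ y, 0 ≤ ζ y) →
    LocallyIntegrable f volume → LocallyIntegrable g volume → 0 < r →
    (∀ᵐ z, z ∈ ball x r → f z ≤ g z) → av ζ f x r ≤ av ζ g x r
  av_low : ∀ (ζ g : V n → ℝ) (c : ℝ) (x : V n) (r : ℝ), Test ζ 1 → (∀ y, 0 ≤ ζ y) →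
    (∀ y, ‖y‖ ≤ 1 / 2 → c ≤ ζ y) → LocallyIntegrable g volume → (∀ z, 0 ≤ g z) → 0 < r →
    c * ((r ^ n)⁻¹ * ∫ z in ball x (r / 2), g z) ≤ av ζ g x r

structure OA (n : ℕ) : Prop extends OA1 n, OA2 n

/-- mean value inequalities, continuity, mass bound at a zero -/
structure OB1 (n : ℕ) : Prop where
  up : ∀ φ ψ : V n → ℝ, Ker φ ψ → ∃ C, 0 < C ∧ ∀ (u f : V n → ℝ) (M : ℝ) (x : V n) (s r : ℝ),
    LocallyIntegrable u volume → LocallyIntegrable f volume → LLe u f → 0 ≤ M → 0 < s → s ≤ r →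
    (∀ᵐ z, z ∈ ball x r → f z ≤ M) → av φ u x r ≤ av φ u x s + C * M * r ^ 2
  down : ∀ φ ψ : V n → ℝ, Ker φ ψ → ∃ C, 0 < C ∧ ∀ (u f : V n → ℝ) (M : ℝ) (x : V n) (s r : ℝ),
    LocallyIntegrable u volume → LocallyIntegrable f volume → LGe u f → 0 ≤ M → 0 < s → s ≤ r →
    (∀ᵐ z, z ∈ ball x r → -M ≤ f z) → av φ u x s ≤ av φ u x r + C * M * r ^ 2
  up0 : ∀ φ ψ : V n → ℝ, Ker φ ψ → ∃ C, 0 < C ∧ ∀ (u f : V n → ℝ) (M : ℝ) (x : V n) (r : ℝ),
    Continuous u → LocallyIntegrable f volume → LLe u f → 0 ≤ M → 0 < r →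
    (∀ᵐ z, z ∈ ball x r → f z ≤ M) → av φ u x r ≤ u x + C * M * r ^ 2
  down0 : ∀ φ ψ : V n → ℝ, Ker φ ψ → ∃ C, 0 < C ∧ ∀ (u f : V n → ℝ) (M : ℝ) (x : V n) (r : ℝ),
    Continuous u → LocallyIntegrable f volume → LGe u f → 0 ≤ M → 0 < r →
    (∀ᵐ z, z ∈ ball x r → -M ≤ f z) → u x ≤ av φ u x r + C * M * r ^ 2
  cont : ∀ (u₀ : V n → ℝ) (M : ℝ), LocallyIntegrable u₀ volume → LB u₀ M → 0 ≤ M →
    ∃ u : V n → ℝ, Continuous u ∧ u =ᵐ[volume] u₀
  mass : ∃ C, 0 < C ∧ ∀ (T g : V n → ℝ) (M : ℝ) (x₀ : V n) (r : ℝ), Continuous T →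
    (∀ x, 0 ≤ T x) → T x₀ = 0 → LocallyIntegrable g volume → (∀ x, 0 ≤ g x) → 0 ≤ M →
    LLe T (fun x => M - g x) → 0 < r → ∫ z in ball x₀ r, g z ≤ C * M * r ^ n

/-- maximum principle and quadratic growth at a zero -/
structure OB2 (n : ℕ) : Prop where
  maxp : ∀ w g : V n → ℝ, Continuous w → LocallyIntegrable g volume → LGe w g →
    (∀ᵐ x, 0 < w x → 0 ≤ g x) → (∀ ε, 0 < ε → ∃ R, ∀ x, R ≤ ‖x‖ → w x ≤ ε) → ∀ x, w x ≤ 0
  quad : ∃ C, 0 < C ∧ ∀ (u : V n → ℝ) (M : ℝ) (x₀ : V n), Continuous u → (∀ x, 0 ≤ u x) →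
    LB u M → 0 ≤ M → u x₀ = 0 → ∀ x, u x ≤ C * M * ‖x - x₀‖ ^ 2

structure OB (n : ℕ) : Prop extends OB1 n, OB2 n

/-- derivatives of the mollification -/
structure OC1 (n : ℕ) : Prop where
  smooth : ∀ (φ u : V n → ℝ) (r : ℝ), Test φ 1 → LocallyIntegrable u volume → 0 < r →
    ContDiff ℝ ∞ (mol φ u r)
  test : ∀ (φ u : V n → ℝ) (a r : ℝ), Test φ 1 → LocallyIntegrable u volume → 0 < r →
    (∀ x, a ≤ ‖x‖ → u x = 0) → Test (mol φ u r) (a + r)
  der : ∀ (φ u : V n → ℝ) (r : ℝ), Test φ 1 → LocallyIntegrable u volume → 0 < r →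
    ∀ x v : V n, fderiv ℝ (mol φ u r) x v = -(r⁻¹ * av (fun y => fderiv ℝ φ y v) u x r)
  lap_mol : ∀ (φ u : V n → ℝ) (a r : ℝ), Test φ 1 → LocallyIntegrable u volume → 0 < r →
    (∀ x, a ≤ ‖x‖ → u x = 0) → ∀ x, lap (mol φ u r) x = (r ^ 2)⁻¹ * av (lap φ) u x r
  grad_le : ∀ φ : V n → ℝ, Test φ 1 → ∃ C, 0 < C ∧ ∀ (u : V n → ℝ) (r : ℝ),
    LocallyIntegrable u volume → 0 < r → ∀ x,
    ‖gradient (mol φ u r) x‖ ≤ C * r⁻¹ * Iv (fun z => |u z|) x r
  hess_le : ∀ φ : V n → ℝ, Test φ 1 → ∃ C, 0 < C ∧ ∀ (u : V n → ℝ) (a r : ℝ),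
    LocallyIntegrable u volume → 0 < r → (∀ x, a ≤ ‖x‖ → u x = 0) → ∀ x,
    ‖hess (mol φ u r) x‖ ≤ C * (r ^ 2)⁻¹ * Iv (fun z => |u z|) x r

/-- limits of the derivatives of the mollification -/
structure OC2 (n : ℕ) : Prop where
  grad_lip : ∀ φ ψ : V n → ℝ, Ker φ ψ → ∃ C, 0 < C ∧ ∀ (u : V n → ℝ) (M : ℝ),
    LocallyIntegrable u volume → LB u M → 0 ≤ M → ∀ (x : V n) (s r : ℝ), 0 < s → s ≤ r →
    ‖gradient (mol φ u r) x - gradient (mol φ u s) x‖ ≤ C * M * r
  hess_l2 : ∀ (v : V n → ℝ) (R : ℝ), Test v R →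
    ∫ x, ‖hess v x‖ ^ 2 ≤ ∫ x, lap v x ^ 2
  zero : ∀ φ ψ u : V n → ℝ, ∀ a M : ℝ, Ker φ ψ → Continuous u → (∀ x, 0 ≤ u x) →
    (∀ x, a ≤ ‖x‖ → u x = 0) → LB u M → 0 ≤ M →
    (∀ x, u x = 0 → Tendsto (fun r => gradient (mol φ u r) x) (𝓝[>] 0) (𝓝 0)) ∧
      ∀ᵐ x, u x = 0 → Tendsto (fun r => hess (mol φ u r) x) (𝓝[>] 0) (𝓝 0)

structure OC (n : ℕ) : Prop extends OC1 n, OC2 n

/-- a minimising sequence of the energy and its limit -/
def OMin (n : ℕ) : Prop :=
  ∀ (f : V n → ℝ) (M : ℝ), Bd f M → (∀ x, 2 ≤ ‖x‖ → 0 ≤ f x) →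
    ∃ (χ : ℕ → V n → ℝ) (u₀ : V n → ℝ), (∀ k, Adm (χ k)) ∧
      (∀ k ξ, Adm ξ → eng f (χ k) ≤ eng f ξ + 1 / ((k : ℝ) + 1)) ∧
      Measurable u₀ ∧ (∀ x, 0 ≤ u₀ x) ∧ LocallyIntegrable u₀ volume ∧
      (∀ R : ℝ, Tendsto (fun k => ∫ x in ball (0 : V n) R, |χ k x - u₀ x|) atTop (𝓝 0)) ∧
      ∀ ε, 0 < ε → ∃ R, ∀ x : V n, R ≤ ‖x‖ → Iv u₀ x 1 ≤ ε

/-- the two variational inequalities of the limit -/
def OVar (n : ℕ) : Prop :=
  ∀ (f : V n → ℝ) (M : ℝ) (χ : ℕ → V n → ℝ) (u₀ : V n → ℝ), Bd f M → (∀ x, 2 ≤ ‖x‖ → 0 ≤ f x) →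
    (∀ k, Adm (χ k)) → (∀ k ξ, Adm ξ → eng f (χ k) ≤ eng f ξ + 1 / ((k : ℝ) + 1)) →
    Measurable u₀ → (∀ x, 0 ≤ u₀ x) → LocallyIntegrable u₀ volume →
    (∀ R : ℝ, Tendsto (fun k => ∫ x in ball (0 : V n) R, |χ k x - u₀ x|) atTop (𝓝 0)) →
    LLe u₀ f ∧ LGe u₀ (onPos u₀ f)

/-- a compactly supported supersolution -/
def OSup (n : ℕ) : Prop :=
  ∃ C, 0 < C ∧ ∀ θ : V n → ℝ, Measurable θ → (∀ x, 0 ≤ θ x ∧ θ x ≤ 1) →
    (∀ x, 2 ≤ ‖x‖ → θ x = 0) → ∃ v : V n → ℝ, Continuous v ∧ (∀ x, 0 ≤ v x) ∧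
      (∀ x, 3 ≤ ‖x‖ → v x = 0) ∧ LLe v (fun x => C * (∫ z, θ z) - θ x)

/-- the weak solution of one obstacle problem -/
def OSol (n : ℕ) : Prop :=
  ∃ C, 0 < C ∧ ∀ (θ : V n → ℝ) (t : ℝ), Measurable θ → (∀ x, 0 ≤ θ x ∧ θ x ≤ 1) →
    (∀ x, 2 ≤ ‖x‖ → θ x = 0) → 0 ≤ t → C * (∫ z, θ z) ≤ t →
    ∃ u : V n → ℝ, Continuous u ∧ (∀ x, 0 ≤ u x) ∧ (∀ x, 3 ≤ ‖x‖ → u x = 0) ∧
      LLe u (fun x => t - θ x) ∧ LLe u (onPos u fun x => t - θ x) ∧
      LGe u (onPos u fun x => t - θ x) ∧ ∀ᵐ x, u x = 0 → θ x ≤ t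

end Pool.Agent.MP_29b5d3_an.EX

end MrgPart1

-- ======== part 2: formerly Pool.Agent.MP_29b5d3_an.EX.Oc1
section MrgPart2

/-! Project EXQ, obstacle package: derivatives of the mollification. -/

set_option autoImplicit false

namespace Pool.Agent.MP_29b5d3_an.EX

open MeasureTheory Metric Filter Topology Module
open scoped RealInnerProductSpace ContDiff ENNReal
open Pool.Agent.MP_29b5d3_an.NC

variable {n : ℕ}

namespace Oc1

variable {φ u : V n → ℝ} {r : ℝ}

theorem diff (hA : AvA n) (hφ : Test φ 1) (hu : LocallyIntegrable u volume) (hr : 0 < r)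
    (x : V n) : ContDiffAt ℝ ∞ (fun p : V n × ℝ => av φ u p.1 p.2) (x, r) :=
  (hA.smooth ℝ φ 1 _ hφ hu).contDiffAt
    ((isOpen_lt continuous_const continuous_snd).mem_nhds hr)

theorem smooth (hA : AvA n) (hφ : Test φ 1) (hu : LocallyIntegrable u volume) (hr : 0 < r) :
    ContDiff ℝ ∞ (mol φ u r) :=
  contDiff_iff_contDiffAt.2 fun x => by
    have := ContDiffAt.comp (g := fun p : V n × ℝ => av φ u p.1 p.2)
      (f := fun x : V n => (x, r)) x (diff hA hφ hu hr x) (contDiffAt_id.prodMk contDiffAt_const)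
    exact this

theorem test (hA : AvA n) (hφ : Test φ 1) (hu : LocallyIntegrable u volume) (hr : 0 < r) {a : ℝ}
    (ha : ∀ x, a ≤ ‖x‖ → u x = 0) : Test (mol φ u r) (a + r) := by
  refine ⟨smooth hA hφ hu hr, fun x hx => ?_⟩
  have e : (fun y => φ y • u (x + r • y)) = fun _ => 0 := funext fun y => by
    by_cases hy : 1 ≤ ‖y‖
    · rw [hφ.2 y hy, zero_smul]
    · have h3 := norm_sub_le (x + r • y) (r • y)
      rw [add_sub_cancel_right, norm_smul, Real.norm_of_nonneg hr.le] at h3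
      rw [ha _ (by nlinarith [not_le.1 hy]), smul_zero]
  show ∫ y, φ y • u (x + r • y) = 0
  rw [e, integral_zero]

theorem der (hA : AvA n) (hφ : Test φ 1) (hu : LocallyIntegrable u volume) (hr : 0 < r)
    (x v : V n) :
    fderiv ℝ (mol φ u r) x v = -(r⁻¹ * av (fun y => fderiv ℝ φ y v) u x r) := by
  have d1 := ((diff hA hφ hu hr x).differentiableAt (by simp)).hasFDerivAt
  have d2 : HasFDerivAt (fun x : V n => (x, r)) (ContinuousLinearMap.inl ℝ (V n) ℝ) x :=
    hasFDerivAt_prodMk_left x r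
  have d4 := HasFDerivAt.comp (f := fun x : V n => (x, r)) x d1 d2
  have d3 : HasFDerivAt (mol φ u r) _ x := d4
  rw [d3.fderiv, ContinuousLinearMap.comp_apply, ContinuousLinearMap.inl_apply,
    hA.deriv ℝ φ 1 _ hφ hu x v r 0 hr]
  simp

theorem der2 (hA : AvA n) (hφ : Test φ 1) (hu : LocallyIntegrable u volume) (hr : 0 < r)
    (x a b : V n) : fderiv ℝ (fun y => fderiv ℝ (mol φ u r) y b) x a =
      (r ^ 2)⁻¹ * av (fun y => fderiv ℝ (fun z => fderiv ℝ φ z b) y a) u x r := by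
  have e : (fun y => fderiv ℝ (mol φ u r) y b) =
      fun y => -r⁻¹ * mol (fun z => fderiv ℝ φ z b) u r y :=
    funext fun y => by rw [der hA hφ hu hr, neg_mul]; rfl
  have d := (((smooth hA (hφ.der b) hu hr).differentiable (by simp) x).hasFDerivAt).const_mul (-r⁻¹)
  rw [e, d.fderiv, smul_apply, der hA (hφ.der b) hu hr, smul_eq_mul]
  ring

theorem int (hA : AvA n) (hφ : Test φ 1) (hu : LocallyIntegrable u volume) (hr : 0 < r)
    (x : V n) : Integrable (fun y => φ y • u (x + r • y)) volume :=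
  (hA.loc ℝ u hu x r hr.ne').integrable_smul_left_of_hasCompactSupport hφ.cont hφ.supp

theorem Iv0 (u : V n → ℝ) (x : V n) (r : ℝ) : 0 ≤ Iv (fun z => |u z|) x r :=
  integral_nonneg fun _ => abs_nonneg _

end Oc1

theorem oc1 (_hn : 3 ≤ n) (hA : AvA n) : OC1 n where
  smooth := fun _ _ _ hφ hu hr => Oc1.smooth hA hφ hu hr
  test := fun _ _ _ _ hφ hu hr ha => Oc1.test hA hφ hu hr ha
  der := fun _ _ _ hφ hu hr => Oc1.der hA hφ hu hr
  lap_mol := fun φ u a r hφ hu hr ha x => by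
    rw [(Oc1.test hA hφ hu hr ha).lap_eq, av]
    simp only [hφ.lap_eq, Finset.sum_smul]
    rw [integral_finsetSum _ fun i _ => Oc1.int hA ((hφ.der _).der _) hu hr x, Finset.mul_sum]
    exact Finset.sum_congr rfl fun i _ => Oc1.der2 hA hφ hu hr x _ _
  grad_le := fun φ hφ => by
    obtain ⟨C, hC, hb⟩ := hφ.bdd_fderiv
    refine ⟨C, hC, fun u r hu hr x => ?_⟩
    have h0 := Oc1.Iv0 u x r
    rw [gradient, LinearIsometryEquiv.norm_map]
    refine ContinuousLinearMap.opNorm_le_bound _ (by positivity) fun v => ?_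
    have h1 := hA.av_le ℝ _ u (C * ‖v‖) (hφ.der v) (fun y =>
      ((fderiv ℝ φ y).le_opNorm v).trans (mul_le_mul_of_nonneg_right (hb y) (norm_nonneg v)))
      hu x r hr
    rw [Oc1.der hA hφ hu hr, norm_neg, norm_mul, Real.norm_of_nonneg (inv_nonneg.2 hr.le)]
    refine (mul_le_mul_of_nonneg_left h1 (inv_nonneg.2 hr.le)).trans (le_of_eq ?_)
    simp only [Real.norm_eq_abs]
    ring
  hess_le := fun φ hφ => by
    obtain ⟨C, hC, hb⟩ := hφ.bdd_hess
    refine ⟨C, hC, fun u a r hu hr ha x => ?_⟩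
    have h0 := Oc1.Iv0 u x r
    have key : ∀ v w : V n, ⟪hess (mol φ u r) x v, w⟫ ≤
        C * (r ^ 2)⁻¹ * Iv (fun z => |u z|) x r * ‖v‖ * ‖w‖ := fun v w => by
      have h1 := hA.av_le ℝ _ u (C * ‖v‖ * ‖w‖) ((hφ.der w).der v) (fun y => by
        rw [← hφ.inner_hess]
        refine (abs_real_inner_le_norm _ _).trans (mul_le_mul_of_nonneg_right ?_ (norm_nonneg w))
        exact ((hess φ y).le_opNorm v).trans
          (mul_le_mul_of_nonneg_right (hb y) (norm_nonneg v))) hu x r hr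
      rw [(Oc1.test hA hφ hu hr ha).inner_hess, Oc1.der2 hA hφ hu hr]
      refine (mul_le_mul_of_nonneg_left ((le_abs_self _).trans h1) (by positivity)).trans
        (le_of_eq ?_)
      simp only [Real.norm_eq_abs]
      ring
    refine ContinuousLinearMap.opNorm_le_bound _ (by positivity) fun v => ?_
    have h2 := key v (hess (mol φ u r) x v)
    rw [real_inner_self_eq_norm_mul_norm] at h2
    rcases (norm_nonneg (hess (mol φ u r) x v)).eq_or_lt with h3 | h3
    · rw [← h3]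
      positivity
    · exact le_of_mul_le_mul_right h2 h3

end Pool.Agent.MP_29b5d3_an.EX

end MrgPart2

-- ======== part 3: formerly Pool.Agent.MP_29b5d3_an.EX.Rfine
section MrgPart3

/-! Project EXQ: the fine scale Korn inequality. -/

set_option autoImplicit false

namespace Pool.Agent.MP_29b5d3_an.EX

open MeasureTheory Metric Filter Topology Module Pool.Agent.MP_29b5d3_an.NC
open scoped RealInnerProductSpace ContDiff ENNReal

variable {n : ℕ}

namespace Finex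

theorem cov (κ g : V n → ℝ) (x : V n) (s : ℝ) {r : ℝ} (hr : 0 < r) :
    ∫ y, ((r ^ n)⁻¹ * κ (r⁻¹ • y)) • g (x + s • y) = av κ g x (s * r) := by
  have h := Measure.integral_comp_smul (volume : Measure (V n))
    (fun y => κ (r⁻¹ • y) • g (x + s • y)) r
  simp only [smul_smul, inv_mul_cancel₀ hr.ne', one_smul, fr] at h
  rw [av, h, abs_of_pos (by positivity), ← integral_smul]
  simp only [smul_eq_mul, mul_assoc]

theorem avneg (θ g : V n → ℝ) (x : V n) (r : ℝ) :
    av θ g x (-1 * r) = av (fun y => θ (-y)) g x r := by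
  rw [av, av, ← integral_neg_eq_self]
  simp only [neg_mul, one_mul, smul_neg, neg_smul, neg_neg]

theorem test_neg {θ : V n → ℝ} {R : ℝ} (h : Test θ R) : Test (fun y => θ (-y)) R :=
  ⟨h.1.comp contDiff_neg, fun y hy => h.2 _ (by rwa [norm_neg])⟩

theorem test_sq {u : V n → ℝ} {R : ℝ} (h : Test u R) : Test (fun y => u y ^ 2) R :=
  ⟨h.1.pow 2, fun y hy => by simp only [h.2 y hy]; norm_num⟩

theorem loc_of {u : V n → ℝ} {R : ℝ} (h : Test u R) : LocallyIntegrable u volume :=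
  h.cont.locallyIntegrable

/-- The inequality of Young for a kernel of total mass at most two. -/
theorem young (hA : AvA n) {ψ u : V n → ℝ} {R : ℝ} (hψ : Test ψ 1) (h2 : ∫ y, |ψ y| ≤ 2)
    (hu : Test u R) : ∫ x, av ψ u x 1 ^ 2 ≤ 4 * ∫ x, u x ^ 2 := by
  obtain ⟨i1, e1⟩ := hA.mass (fun y => |ψ y|) (fun x => u x ^ 2) hψ.int.abs (test_sq hu).int
  have key : ∀ x, av ψ u x 1 ^ 2 ≤ 2 * av (fun y => |ψ y|) (fun x => u x ^ 2) x 1 := fun x => by
    set m := av ψ u x 1 with hm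
    have j1 : Integrable (fun y => ψ y • u (x + (1 : ℝ) • y)) volume :=
      Oc1.int hA hψ (loc_of hu) one_pos x
    have j2 : Integrable (fun y => |ψ y| • u (x + (1 : ℝ) • y) ^ 2) volume :=
      (hA.loc ℝ _ (loc_of (test_sq hu)) x 1 one_ne_zero).integrable_smul_left_of_hasCompactSupport
        hψ.cont.abs (supp_of (R := 1) fun y hy => by simp only [hψ.2 y hy, abs_zero])
    have k : ∫ y, m * (ψ y • u (x + (1 : ℝ) • y)) ≤
        ∫ y, (|ψ y| • u (x + (1 : ℝ) • y) ^ 2 + m ^ 2 / 4 * |ψ y|) := by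
      refine integral_mono (j1.const_mul m) (j2.add (hψ.int.abs.const_mul _)) fun y => ?_
      simp only [smul_eq_mul]
      generalize u (x + (1 : ℝ) • y) = t
      rcases abs_cases (ψ y) with ⟨h, h'⟩ | ⟨h, h'⟩
      · rw [h]; nlinarith [mul_nonneg h' (sq_nonneg (t - m / 2))]
      · rw [h]; nlinarith [mul_nonneg (neg_nonneg.2 h'.le) (sq_nonneg (t + m / 2))]
    rw [integral_const_mul, integral_add j2 (hψ.int.abs.const_mul _), integral_const_mul] at k
    have k' : m * m ≤ av (fun y => |ψ y|) (fun x => u x ^ 2) x 1 + m ^ 2 / 4 * ∫ y, |ψ y| := k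
    nlinarith [mul_le_mul_of_nonneg_left h2 (show 0 ≤ m ^ 2 / 4 by positivity)]
  have h0 : 0 ≤ ∫ x, u x ^ 2 := integral_nonneg fun _ => sq_nonneg _
  refine (integral_mono_of_nonneg (Eventually.of_forall fun _ => sq_nonneg _) (i1.const_mul 2)
    (Eventually.of_forall key)).trans ?_
  rw [integral_const_mul, e1]
  nlinarith [mul_le_mul_of_nonneg_right h2 h0]

/-- The estimate for one entry, at a positive scale. -/
theorem entry (h : Bas1 n) {κ N α e : V n → ℝ} {r C : ℝ} (hκ : Test κ 1) (h0 : ∀ y, 0 ≤ κ y)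
    (h1 : ∫ y, κ y = 1) (hr : 0 < r) (hN : Test N 1)
    (eN : ∀ y, lap N y = (r ^ n)⁻¹ * κ (r⁻¹ • y) - κ y) (hα : LocallyIntegrable α volume)
    (hC : 0 ≤ C) (e0 : ∀ y ∈ ball (0 : V n) 4, 0 ≤ e y)
    (e2 : IntegrableOn (fun y => e y ^ 2) (ball 0 4) volume)
    (hK : ∀ θ, Test θ 4 → |∫ y, α y * lap θ y| ≤ C * ∫ y in ball (0 : V n) 4, e y * ‖hess θ y‖) :
    ∫ x in ball (0 : V n) 2, (av (fun y => κ (-y)) α x r - av (fun y => κ (-y)) α x 1) ^ 2 ≤
      4 * C ^ 2 * ∫ y in ball (0 : V n) 4, e y ^ 2 := by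
  have hA := h.ava
  obtain ⟨η, hη, η0, η1⟩ := exists_cut (n := n) two_pos (show (2 : ℝ) < 3 by norm_num)
  set v : V n → ℝ := fun x => av (fun y => κ (-y)) α x r - av (fun y => κ (-y)) α x 1 with hv
  have sv : ContDiff ℝ ∞ v :=
    (Oc1.smooth hA (test_neg hκ) hα hr).sub (Oc1.smooth hA (test_neg hκ) hα one_pos)
  have eK : ∀ y, (r ^ n)⁻¹ * κ (r⁻¹ • y) = lap N y + κ y := fun y => by rw [eN]; ring
  have ev' : ∀ x, ∫ y, lap N y * α (x + (-1 : ℝ) • y) = v x := fun x => by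
    have l := hA.loc ℝ α hα x (-1) (by norm_num)
    have c := cov κ α x (-1) hr
    simp only [eK, add_smul] at c
    rw [integral_add (l.integrable_smul_left_of_hasCompactSupport hN.lap.cont hN.lap.supp)
      (l.integrable_smul_left_of_hasCompactSupport hκ.cont hκ.supp), avneg] at c
    have c1 := avneg κ α x 1
    rw [mul_one] at c1
    exact eq_sub_of_add_eq (by rw [← c, ← c1]; rfl)
  have m2 : ∫ y, |lap N y| ≤ 2 := by
    have c := cov κ (fun _ => (1 : ℝ)) 0 1 hr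
    simp only [eK, av, smul_eq_mul, mul_one, h1] at c
    have i2 : Integrable (fun y => lap N y + κ y) volume := hN.lap.int.add hκ.int
    have k : ∫ y, |lap N y| ≤ ∫ y, (lap N y + κ y + κ y) :=
      integral_mono hN.lap.int.abs (i2.add hκ.int) fun y => by
        have a1 : 0 ≤ lap N y + κ y := by rw [← eK]; exact mul_nonneg (by positivity) (h0 _)
        exact abs_le.2 ⟨by linarith [h0 y], by linarith [h0 y]⟩
    rw [integral_add i2 hκ.int, c, h1] at k
    linarith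
  have hχ : Test (fun x => η x * v x) 3 :=
    ⟨hη.1.mul sv, fun y hy => by simp only [hη.2 y hy, zero_mul]⟩
  have hI : Test (fun x => η x * v x * v x) 3 :=
    ⟨hχ.1.mul sv, fun y hy => by simp only [hη.2 y hy, zero_mul]⟩
  have hΘ : Test (mol N (fun x => η x * v x) 1) 4 :=
    (Oc1.test hA hN (loc_of hχ) one_pos hχ.2).mono (by norm_num)
  have eΘ : ∀ z, lap (mol N (fun x => η x * v x) 1) z = av (lap N) (fun x => η x * v x) z 1 :=
    fun z => by
      rw [(oc1 h.hn hA).lap_mol N _ 3 1 hN (loc_of hχ) one_pos hχ.2 z]; simp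
  have sw := hA.swap α (fun p => η p.1 * v p.1 * lap N p.2) hα
    ((hχ.cont.comp continuous_fst).mul (hN.lap.cont.comp continuous_snd))
    (HasCompactSupport.intro ((isCompact_closedBall 0 3).prod (isCompact_closedBall 0 1))
      fun p hp => by
        rcases not_and_or.1 hp with a | a
        · rw [hη.2 p.1 (le_of_lt (by simpa using a)), zero_mul, zero_mul]
        · rw [hN.lap.2 p.2 (le_of_lt (by simpa using a)), mul_zero]) (-1)
  have eI : ∫ x, η x * v x * v x = ∫ z, α z * lap (mol N (fun x => η x * v x) 1) z := by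
    simp only [mul_assoc _ (lap N _), integral_const_mul, ev'] at sw
    rw [sw]
    refine integral_congr_ae (Eventually.of_forall fun z => ?_)
    simp only [eΘ, av, neg_smul, sub_neg_eq_add, smul_eq_mul, mul_comm (lap N _)]
  set Θ := mol N (fun x => η x * v x) 1
  set I := ∫ x, η x * v x * v x
  have iH : Integrable (fun x => ‖hess Θ x‖ ^ 2) volume :=
    (hΘ.smooth_hess.continuous.norm.pow 2).integrable_of_hasCompactSupport
      (supp_of (R := 4) fun y hy => by simp [hΘ.hess_zero y hy])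
  have b1 : ∫ x, ‖hess Θ x‖ ^ 2 ≤ 4 * I := by
    have iS : Integrable (fun x => hs (hess Θ x) (hess Θ x)) volume :=
      (continuous_hs.comp (hΘ.smooth_hess.continuous.prodMk
        hΘ.smooth_hess.continuous)).integrable_of_hasCompactSupport
        (supp_of (R := 4) fun y hy => by
          simp only [Function.comp, hΘ.hess_zero y hy, hs_zero_left])
    refine (integral_mono iH iS fun x => sq_le_hs _).trans ?_
    rw [h.h2a.hl2 Θ 4 hΘ]
    simp only [eΘ]
    refine (young hA hN.lap m2 hχ).trans (mul_le_mul_of_nonneg_left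
      (integral_mono (test_sq hχ).int hI.int fun x => ?_) (by norm_num))
    have := mul_nonneg (mul_nonneg (η0 x).1 (sub_nonneg.2 (η0 x).2)) (sq_nonneg (v x))
    simp only
    nlinarith
  have b2 : C * ∫ y in ball (0 : V n) 4, e y * ‖hess Θ y‖ ≤
      2 * C ^ 2 * (∫ y in ball (0 : V n) 4, e y ^ 2) + 1 / 8 * ∫ x, ‖hess Θ x‖ ^ 2 := by
    have k : ∫ y in ball (0 : V n) 4, C * (e y * ‖hess Θ y‖) ≤
        ∫ y in ball (0 : V n) 4, (2 * C ^ 2 * e y ^ 2 + 1 / 8 * ‖hess Θ y‖ ^ 2) :=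
      integral_mono_of_nonneg ((ae_restrict_iff' measurableSet_ball).2 (Eventually.of_forall
        fun y hy => mul_nonneg hC (mul_nonneg (e0 y hy) (norm_nonneg _))))
        ((e2.const_mul _).add (iH.integrableOn.const_mul _)) (Eventually.of_forall fun y => by
          simp only
          nlinarith [sq_nonneg (4 * C * e y - ‖hess Θ y‖)])
    rw [integral_const_mul, integral_add (e2.const_mul _) (iH.integrableOn.const_mul _),
      integral_const_mul, integral_const_mul] at k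
    have k2 := setIntegral_le_integral (s := ball (0 : V n) 4) iH
      (Eventually.of_forall fun _ => sq_nonneg _)
    linarith
  have b3 : I ≤ C * ∫ y in ball (0 : V n) 4, e y * ‖hess Θ y‖ :=
    eI.trans_le ((le_abs_self _).trans (hK Θ hΘ))
  have b4 : ∫ x in ball (0 : V n) 2, v x ^ 2 ≤ I := by
    rw [← setIntegral_congr_fun (f := fun x => η x * v x * v x) measurableSet_ball fun x hx => by
      simp only [η1 x (le_of_lt (by simpa using hx))]; ring]
    exact setIntegral_le_integral hI.int (Eventually.of_forall fun x => by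
      simp only [mul_assoc]; exact mul_nonneg (η0 x).1 (mul_self_nonneg _))
  linarith

/-- One entry of an operator. -/
noncomputable def ent (a b : V n) : Mt n →L[ℝ] ℝ :=
  (innerSL ℝ a).comp (ContinuousLinearMap.apply ℝ (V n) b)

theorem ent_apply (a b : V n) (M : Mt n) : ent a b M = ⟪a, M b⟫ := rfl

theorem sq_le_ent (M : Mt n) : ‖M‖ ^ 2 ≤ ∑ p : Fin n × Fin n, ent (ev p.2) (ev p.1) M ^ 2 := by
  refine (sq_le_hs M).trans_eq ?_
  rw [hs, Fintype.sum_prod_type]
  refine Finset.sum_congr rfl fun i _ => ?_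
  rw [← sum_inner_ev]
  exact Finset.sum_congr rfl fun j _ => by rw [ent_apply, real_inner_comm (ev j), sq]

theorem ent_av (hA : AvA n) {θ : V n → ℝ} {Ξ : V n → Mt n} (hθ : Test θ 1)
    (hΞ : LocallyIntegrable Ξ volume) (a b x : V n) {r : ℝ} (hr : 0 < r) :
    ent a b (av θ Ξ x r) = av θ (fun y => ent a b (Ξ y)) x r := by
  rw [av, ← (ent a b).integral_comp_comm
    ((hA.loc _ Ξ hΞ x r hr.ne').integrable_smul_left_of_hasCompactSupport hθ.cont hθ.supp)]
  simp only [map_smul, av]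

theorem cont_av (hA : AvA n) {θ : V n → ℝ} {Ξ : V n → Mt n} (hθ : Test θ 1)
    (hΞ : LocallyIntegrable Ξ volume) {r : ℝ} (hr : 0 < r) : Continuous fun x => av θ Ξ x r :=
  (hA.smooth _ θ 1 Ξ hθ hΞ).continuousOn.comp_continuous (f := fun x : V n => (x, r))
    (continuous_id.prodMk continuous_const) fun _ => hr

theorem enorm_sq {E : Type} [NormedAddCommGroup E] (a : E) :
    ‖a‖ₑ ^ 2 = ENNReal.ofReal (‖a‖ ^ 2) := by
  rw [← ofReal_norm, ENNReal.ofReal_pow (norm_nonneg _)]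

/-- The estimate on the unit scale. -/
theorem unit (h : Bas1 n) {κ : V n → ℝ} (hκ : Test κ 1) (h0 : ∀ y, 0 ≤ κ y) (h1 : ∫ y, κ y = 1)
    (hp : ∀ r : ℝ, 0 < r → r ≤ 1 →
      ∃ N : V n → ℝ, Test N 1 ∧ ∀ y, lap N y = (r ^ n)⁻¹ * κ (r⁻¹ • y) - κ y) :
    ∃ C : ℝ, 0 < C ∧ ∀ (Ξ : V n → Mt n) (e : V n → ℝ), CF Ξ → Measurable e →
      (∀ y ∈ ball (0 : V n) 4, 0 ≤ e y ∧ Dev (Ξ y) (e y)) →
      ∫⁻ y in ball (0 : V n) 2, ‖Ξ y - av (fun y => κ (-y)) Ξ y 1‖ₑ ^ 2 ≤
        ENNReal.ofReal C * ∫⁻ y in ball (0 : V n) 4, ENNReal.ofReal (e y ^ 2) := by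
  obtain ⟨C, hC, hK⟩ := h.cfs.korn
  have hA := h.ava
  have n0 : (0 : ℝ) < n := by exact_mod_cast (by have := h.hn; omega : 0 < n)
  refine ⟨n * n * (4 * C ^ 2), by positivity, fun Ξ e hΞ me he => ?_⟩
  by_cases ht : ∫⁻ y in ball (0 : V n) 4, ENNReal.ofReal (e y ^ 2) = ⊤
  · rw [ht, ENNReal.mul_top (by simpa using (by positivity : 0 < n * n * (4 * C ^ 2)))]
    exact le_top
  have nn : 0 ≤ᵐ[volume.restrict (ball (0 : V n) 4)] fun y => e y ^ 2 :=
    Eventually.of_forall fun _ => sq_nonneg _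
  have e2 : IntegrableOn (fun y => e y ^ 2) (ball 0 4) volume :=
    ⟨(me.pow_const 2).aestronglyMeasurable,
      (hasFiniteIntegral_iff_ofReal nn).2 (lt_top_iff_ne_top.2 ht)⟩
  have e1 : IntegrableOn e (ball 0 4) volume :=
    Integrable.mono' (e2.add (integrableOn_const (C := (1 : ℝ)) measure_ball_lt_top.ne))
      me.aestronglyMeasurable (Eventually.of_forall fun y => by
        simp only [Real.norm_eq_abs, Pi.add_apply]
        nlinarith [sq_abs (e y), sq_nonneg (|e y| - 1), abs_nonneg (e y)])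
  have l := h.cfs.loc Ξ hΞ
  have hκ' := test_neg hκ
  have step : ∀ r : ℝ, 0 < r → r ≤ 1 → ∫⁻ y in ball (0 : V n) 2,
      ‖av (fun y => κ (-y)) Ξ y r - av (fun y => κ (-y)) Ξ y 1‖ₑ ^ 2 ≤
      ENNReal.ofReal (n * n * (4 * C ^ 2)) *
        ∫⁻ y in ball (0 : V n) 4, ENNReal.ofReal (e y ^ 2) := fun r r0 r1 => by
    obtain ⟨N, hN, eN⟩ := hp r r0 r1
    have c := (cont_av hA hκ' l r0).sub (cont_av hA hκ' l one_pos)
    have ii : ∀ p : Fin n × Fin n, IntegrableOn (fun y => ent (ev p.2) (ev p.1)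
        (av (fun y => κ (-y)) Ξ y r - av (fun y => κ (-y)) Ξ y 1) ^ 2) (ball 0 2) volume :=
      fun p => ((((ent _ _).continuous.comp c).pow 2).continuousOn.integrableOn_compact
        (isCompact_closedBall 0 2)).mono_set ball_subset_closedBall
    simp only [enorm_sq]
    refine (lintegral_mono fun y => ENNReal.ofReal_le_ofReal (sq_le_ent _)).trans ?_
    rw [← ofReal_integral_eq_lintegral_ofReal (integrable_finsetSum _ fun p _ => ii p)
      (Eventually.of_forall fun y => Finset.sum_nonneg fun _ _ => sq_nonneg _),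
      ← ofReal_integral_eq_lintegral_ofReal e2 nn, ← ENNReal.ofReal_mul (by positivity),
      integral_finsetSum _ fun p _ => ii p]
    refine ENNReal.ofReal_le_ofReal ((Finset.sum_le_card_nsmul _ _
      (4 * C ^ 2 * ∫ y in ball (0 : V n) 4, e y ^ 2) fun p _ => ?_).trans_eq ?_)
    · simp only [map_sub, ent_av hA hκ' l _ _ _ r0, ent_av hA hκ' l _ _ _ one_pos]
      refine entry h hκ h0 h1 r0 hN eN (fun x => (l x).imp fun _ a => ⟨a.1, (ent _ _).integrable_comp a.2⟩) hC.le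
        (fun y hy => (he y hy).1) e2 fun θ hθ => ?_
      have k := hK θ 4 Ξ e hθ hΞ e1 (Eventually.of_forall fun y hy => (he y hy).2) (ev p.2) (ev p.1)
      rwa [norm_ev, norm_ev, mul_one, mul_one] at k
    · simp only [Finset.card_univ, Fintype.card_prod, Fintype.card_fin, nsmul_eq_mul, Nat.cast_mul]
      ring
  have t0 : Tendsto (fun m : ℕ => 1 / ((m : ℝ) + 1)) atTop (𝓝[>] 0) :=
    tendsto_nhdsWithin_iff.2 ⟨tendsto_one_div_add_atTop_nhds_zero_nat,
      Eventually.of_forall fun m => Set.mem_Ioi.2 Nat.one_div_pos_of_nat⟩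
  have lb := leb hA hκ' (by rw [integral_neg_eq_self, h1]) l
  calc _ = ∫⁻ y in ball (0 : V n) 2, liminf (fun m : ℕ => ‖av (fun y => κ (-y)) Ξ y
        (1 / ((m : ℝ) + 1)) - av (fun y => κ (-y)) Ξ y 1‖ₑ ^ 2) atTop := by
        refine lintegral_congr_ae (ae_restrict_of_ae (lb.mono fun y hy => ?_))
        exact (ENNReal.Tendsto.pow ((hy.comp t0).sub_const _).enorm).liminf_eq.symm
    _ ≤ _ := by
        refine (lintegral_liminf_le fun m => ?_).trans
          (liminf_le_of_frequently_le' (Frequently.of_forall fun m => step _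
            Nat.one_div_pos_of_nat ?_))
        · exact ((cont_av hA hκ' l Nat.one_div_pos_of_nat).sub
            (cont_av hA hκ' l one_pos)).enorm.measurable.pow_const 2
        · rw [div_le_one (by positivity)]
          linarith [m.cast_nonneg (α := ℝ)]

/-- The Lipschitz bound on the unit scale. -/
theorem lip (h : Bas1 n) {θ : V n → ℝ} (hθ : Test θ 1) : ∃ C : ℝ, 0 < C ∧ ∀ Ξ : V n → Mt n, CF Ξ →
    ∀ y ∈ ball (0 : V n) 2, ∀ y' ∈ ball (0 : V n) 2, ‖av θ Ξ y 1 - av θ Ξ y' 1‖ₑ ^ 2 ≤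
      ENNReal.ofReal (C * ‖y - y'‖ ^ 2) * al (fun y => ‖Ξ y‖ₑ ^ 2) 0 4 := by
  obtain ⟨L, hL, bL⟩ := hθ.bdd_fderiv
  have vp : 0 < vb n * 4 ^ n := mul_pos vb_pos (by positivity)
  refine ⟨L ^ 2 * (vb n * 4 ^ n) * 4 ^ n, by positivity, fun Ξ hΞ y hy y' hy' => ?_⟩
  have l := h.cfs.loc Ξ hΞ
  have i1 : IntegrableOn (fun w => ‖Ξ w‖) (ball 0 4) volume :=
    ((l.integrableOn_isCompact (isCompact_closedBall 0 4)).mono_set ball_subset_closedBall).norm
  have i2 : IntegrableOn (fun w => ‖Ξ w‖ ^ 2) (ball 0 4) volume :=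
    (hΞ.l2.integrableOn_isCompact (isCompact_closedBall 0 4)).mono_set ball_subset_closedBall
  have out : ∀ x ∈ ball (0 : V n) 2, ∀ w : V n, 4 ≤ ‖w‖ → θ (w - x) = 0 := fun x hx w hw =>
    hθ.2 _ (by linarith [norm_sub_norm_le w x, mem_ball_zero_iff.1 hx])
  have tr1 : ∀ x : V n, av θ Ξ x 1 = ∫ w, θ (w - x) • Ξ w := fun x => by
    rw [av, ← integral_add_left_eq_self (fun w => θ (w - x) • Ξ w) x]
    simp only [one_smul, add_sub_cancel_left]
  have it : ∀ x ∈ ball (0 : V n) 2, Integrable (fun w => θ (w - x) • Ξ w) volume := fun x hx =>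
    l.integrable_smul_left_of_hasCompactSupport (hθ.cont.comp (continuous_sub_right x))
      (supp_of (out x hx))
  have b1 : ‖av θ Ξ y 1 - av θ Ξ y' 1‖ ≤ L * ‖y - y'‖ * ∫ w in ball (0 : V n) 4, ‖Ξ w‖ := by
    rw [tr1, tr1, ← integral_sub (it y hy) (it y' hy'), ← integral_const_mul,
      ← integral_indicator measurableSet_ball]
    refine norm_integral_le_of_norm_le
      (IntegrableOn.integrable_indicator (i1.const_mul _) measurableSet_ball)
      (Eventually.of_forall fun w => ?_)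
    by_cases hw : w ∈ ball (0 : V n) 4
    · rw [Set.indicator_of_mem hw, ← sub_smul, norm_smul]
      refine mul_le_mul_of_nonneg_right ?_ (norm_nonneg _)
      have k := (convex_univ (𝕜 := ℝ) (E := V n)).norm_image_sub_le_of_norm_fderiv_le
        (f := θ) (C := L) (fun x _ => hθ.1.differentiable (by simp) x) (fun x _ => bL x)
        (Set.mem_univ (w - y')) (Set.mem_univ (w - y))
      rwa [sub_sub_sub_cancel_left, norm_sub_rev y'] at k
    · have hw' : 4 ≤ ‖w‖ := not_lt.1 fun a => hw (mem_ball_zero_iff.2 a)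
      rw [Set.indicator_of_notMem hw, out y hy w hw', out y' hy' w hw']
      simp
  set I1 := ∫ w in ball (0 : V n) 4, ‖Ξ w‖ with hI1
  set I2 := ∫ w in ball (0 : V n) 4, ‖Ξ w‖ ^ 2 with hI2
  have b2 : I1 ^ 2 ≤ vb n * 4 ^ n * I2 := by
    set m := vb n * 4 ^ n with hm
    have ic : IntegrableOn (fun _ : V n => I1 ^ 2) (ball 0 4) volume :=
      integrableOn_const measure_ball_lt_top.ne
    have k : ∫ w in ball (0 : V n) 4, 2 * m * I1 * ‖Ξ w‖ ≤
        ∫ w in ball (0 : V n) 4, (I1 ^ 2 + m ^ 2 * ‖Ξ w‖ ^ 2) :=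
      integral_mono (i1.const_mul _) (ic.add (i2.const_mul _)) fun w => by
        simp only
        nlinarith [sq_nonneg (I1 - m * ‖Ξ w‖)]
    rw [integral_const_mul, integral_add ic (i2.const_mul _), integral_const_mul,
      setIntegral_const, Measure.real, vol_ball _ (by norm_num), ENNReal.toReal_ofReal vp.le,
      smul_eq_mul, ← hI1, ← hI2] at k
    exact le_of_mul_le_mul_left (by nlinarith) vp
  have e3 : ENNReal.ofReal I2 = ENNReal.ofReal (4 ^ n) * al (fun y => ‖Ξ y‖ₑ ^ 2) 0 4 := by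
    rw [← lint_eq _ _ (by norm_num), hI2, ofReal_integral_eq_lintegral_ofReal i2
      (Eventually.of_forall fun _ => sq_nonneg _)]
    simp only [enorm_sq]
  rw [enorm_sq, mul_right_comm _ (4 ^ n : ℝ), ENNReal.ofReal_mul (by positivity), mul_assoc, ← e3,
    ← ENNReal.ofReal_mul (by positivity)]
  refine ENNReal.ofReal_le_ofReal ((pow_le_pow_left₀ (norm_nonneg _) b1 2).trans ?_)
  rw [mul_pow, mul_pow]
  nlinarith [mul_le_mul_of_nonneg_left b2 (show 0 ≤ L ^ 2 * ‖y - y'‖ ^ 2 by positivity)]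

theorem lint2 (hA : AvA n) (g : V n → ℝ≥0∞) (z : V n) {ρ R : ℝ} (hρ : 0 < ρ) (hR : 0 < R) :
    ∫⁻ y in ball z (R * ρ), g y =
      ENNReal.ofReal (ρ ^ n) * ∫⁻ y in ball (0 : V n) R, g (z + ρ • y) := by
  rw [hA.lint g z _ (mul_pos hR hρ), hA.lint _ 0 R hR, ← mul_assoc,
    ← ENNReal.ofReal_mul (by positivity), ← mul_pow, mul_comm ρ R]
  simp only [zero_add, smul_smul, mul_comm ρ R]

end Finex

open Finex in
theorem fine (h : Bas1 n) : FINE n := by
  obtain ⟨κ, hκ, h0, h1, hp⟩ := h.ker.pot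
  obtain ⟨C1, hC1, H1⟩ := unit h hκ h0 h1 hp
  obtain ⟨C2, hC2, H2⟩ := lip h (test_neg hκ)
  refine ⟨C1 + C2, by positivity, fun Ξ e z ρ hΞ me hρ he => ?_⟩
  have hΞ' := h.cfs.resc Ξ z ρ hΞ hρ.ne'
  have inb : ∀ {R : ℝ} {y : V n}, y ∈ ball z (R * ρ) → ρ⁻¹ • (y - z) ∈ ball (0 : V n) R :=
    fun {R y} hy => by
      rw [mem_ball_zero_iff, norm_smul, Real.norm_of_nonneg (inv_nonneg.2 hρ.le),
        inv_mul_lt_iff₀ hρ, mul_comm]
      exact mem_ball_iff_norm.1 hy
  have cX := cont_av h.ava (test_neg hκ) (h.cfs.loc _ hΞ') one_pos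
  have cT : Continuous fun y : V n => ρ⁻¹ • (y - z) := by fun_prop
  have mX : StronglyMeasurable fun y =>
      av (fun y => κ (-y)) (fun y => Ξ (z + ρ • y)) (ρ⁻¹ • (y - z)) 1 :=
    cX.stronglyMeasurable.comp_measurable cT.measurable
  refine ⟨_, mX, ?_, fun y hy y' hy' => ?_⟩
  · rw [lint2 h.ava _ z hρ two_pos, lint2 h.ava _ z hρ four_pos, mul_left_comm]
    refine mul_le_mul_right ?_ _
    simp only [add_sub_cancel_left, smul_smul, inv_mul_cancel₀ hρ.ne', one_smul]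
    refine (H1 _ (fun y => e (z + ρ • y)) hΞ' (me.comp (by fun_prop)) fun y hy => he _ ?_).trans
      (mul_le_mul_left (ENNReal.ofReal_le_ofReal (by linarith)) _)
    rw [mem_ball_iff_norm, add_sub_cancel_left, norm_smul, Real.norm_of_nonneg hρ.le, mul_comm]
    exact mul_lt_mul_of_pos_right (mem_ball_zero_iff.1 hy) hρ
  · refine (H2 _ hΞ' _ (inb hy) _ (inb hy')).trans (mul_le_mul' (ENNReal.ofReal_le_ofReal ?_) ?_)
    · rw [← smul_sub, sub_sub_sub_cancel_right, norm_smul,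
        Real.norm_of_nonneg (inv_nonneg.2 hρ.le), inv_mul_eq_div]
      exact mul_le_mul_of_nonneg_right (by linarith) (sq_nonneg _)
    · refine al_le_of_lint four_pos (le_of_eq ?_)
      have k := lint2 h.ava (fun y => ‖Ξ y‖ₑ ^ 2) z hρ four_pos
      rw [lint_eq _ z (by positivity), mul_pow, mul_comm (4 ^ n : ℝ),
        ENNReal.ofReal_mul (by positivity), mul_assoc] at k
      exact ((ENNReal.mul_right_inj (rn_ne hρ) ENNReal.ofReal_ne_top).1 k).symm

end Pool.Agent.MP_29b5d3_an.EX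

end MrgPart3

-- ======== part 4: formerly Pool.Agent.MP_29b5d3_an.EX.Rpsum
section MrgPart4

/-! Project EXQ: the sum of the block measures is bounded below by the slack. -/

set_option autoImplicit false

namespace Pool.Agent.MP_29b5d3_an.EX

open MeasureTheory Metric Filter Topology Module Pool.Agent.MP_29b5d3_an.NC
open scoped RealInnerProductSpace ContDiff ENNReal

variable {n : ℕ}

namespace Psumx

theorem int_of_lint {μ : Measure (V n)} {f : V n → ℝ} (hm : Measurable f) (h0 : ∀ x, 0 ≤ f x)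
    {c : ℝ} (hc : 0 ≤ c) (h : ∫⁻ x, ENNReal.ofReal (f x) ∂μ ≤ ENNReal.ofReal c) :
    Integrable f μ ∧ ∫ x, f x ∂μ ≤ c := by
  have hi : Integrable f μ := (lintegral_ofReal_ne_top_iff_integrable hm.aestronglyMeasurable
    (ae_of_all _ h0)).1 (h.trans_lt ENNReal.ofReal_lt_top).ne
  refine ⟨hi, ?_⟩
  rw [← ofReal_integral_eq_lintegral_ofReal hi (ae_of_all _ h0)] at h
  exact (ENNReal.ofReal_le_ofReal_iff hc).1 h

theorem norm_T1_sub {b : ℝ} {P : Mt n} (hP : ‖P‖ ≤ n * b) (hb : b ≤ 1) :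
    ‖T1 (1 - P)‖ ≤ (n + 1) * (n + 1) := by
  refine (norm_T1_le _).trans (mul_le_mul_of_nonneg_left ?_ (by positivity))
  have h1 := norm_sub_le (1 : Mt n) P
  have h2 := norm_one_le (n := n)
  have h3 : (n : ℝ) * b ≤ n := mul_le_of_le_one_right n.cast_nonneg hb
  linarith

theorem dist_le (hn : 3 ≤ n) {b s : ℝ} {P H : Mt n} (hb : 0 < b) (hs0 : 0 < s) (hP : ‖P‖ ≤ n * b)
    (t0 : 0 ≤ tr H) (t1 : tr H ≤ 2 * n * s) :
    s * ‖P - b • ((1 : Mt n) - s⁻¹ • H)‖ ^ 2 ≤
      (2 * (n + 1) ^ 2 * b ^ 2 + 8 * n * b ^ 2) * s + 2 * b ^ 2 * ((hs H H - tr H ^ 2 / n) / s) := by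
  have hn0 : (0 : ℝ) < n := by positivity
  have h1 : ‖P - b • ((1 : Mt n) - s⁻¹ • H)‖ ≤ (n + 1) * b + b * (s⁻¹ * ‖H‖) := by
    refine (norm_sub_le _ _).trans ?_
    have k := norm_sub_le (1 : Mt n) (s⁻¹ • H)
    rw [norm_smul, Real.norm_of_nonneg (inv_pos.2 hs0).le] at k
    rw [norm_smul, Real.norm_of_nonneg hb.le]
    have k2 := mul_le_mul_of_nonneg_left (k.trans (add_le_add norm_one_le le_rfl)) hb.le
    linarith
  have h2 : ‖P - b • ((1 : Mt n) - s⁻¹ • H)‖ ^ 2 ≤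
      2 * ((n + 1) * b) ^ 2 + 2 * (b * (s⁻¹ * ‖H‖)) ^ 2 := by
    refine (pow_le_pow_left₀ (norm_nonneg _) h1 2).trans ?_
    nlinarith [sq_nonneg ((n + 1) * b - b * (s⁻¹ * ‖H‖))]
  have h3 : tr H ^ 2 / n ≤ 4 * n * s ^ 2 := by
    rw [div_le_iff₀ hn0]
    nlinarith [pow_le_pow_left₀ t0 t1 2]
  have h4 : ‖H‖ ^ 2 / s ≤ (hs H H - tr H ^ 2 / n) / s + 4 * n * s := by
    have e : (hs H H - tr H ^ 2 / n) / s + 4 * n * s =
        (hs H H - tr H ^ 2 / n + 4 * n * s ^ 2) / s := by field_simp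
    rw [e]
    exact div_le_div_of_nonneg_right (by linarith [sq_le_hs H]) hs0.le
  have h5 : s * (2 * ((n + 1) * b) ^ 2 + 2 * (b * (s⁻¹ * ‖H‖)) ^ 2) =
      2 * (n + 1) ^ 2 * b ^ 2 * s + 2 * b ^ 2 * (‖H‖ ^ 2 / s) := by field_simp
  have h6 := mul_le_mul_of_nonneg_left h2 hs0.le
  have h7 := mul_le_mul_of_nonneg_left h4 (by positivity : 0 ≤ 2 * b ^ 2)
  linarith

theorem tr_KK (h : LV1 n) {L : Lev n} (hL : L.Ok) (b : ℝ) (x : V n) : tr (L.KK b x) = 0 := by
  rw [Lev.KK, tr_smul, tr_sum, Finset.sum_eq_zero, mul_zero]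
  intro i _
  rw [tr_smul, (h.hsym L hL i x).2, mul_zero]

theorem g_ge {L : Lev n} (hL : L.Ok) {b : ℝ} (hb : 0 < b) : 1 ≤ L.g b :=
  le_add_of_nonneg_right (mul_pos hL.δ0 hb).le

theorem bp_ge {L : Lev n} (hL : L.Ok) {b : ℝ} (hb : 0 < b) (hb' : b ≤ 1 / 2) :
    1 / 3 ≤ L.bp b := by
  rw [Lev.bp, le_div_iff₀ (zero_lt_one.trans_le (g_ge hL hb)), Lev.g]
  nlinarith [hL.δ1, hL.δ0]

theorem int_muP (h : Bas3 n) {L : Lev n} (hL : L.Ok) {b : ℝ} {P : V n → Mt n} (hb : 0 < b)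
    (hb' : b ≤ 1) (mP : StronglyMeasurable P) (hP : ∀ x, Str b (P x)) (j j' : ℕ) :
    Integrable (L.muP b P j j') volume := by
  have hD := (h.h2a.int _ _ _ (h.lv.h2Z L hL b j j')).2.2
  refine (hD.norm.const_mul (n * ((n + 1) * (n + 1)) * L.g b ^ L.N)).mono'
    (h.lv.mP L hL b P j j' mP).1.aestronglyMeasurable (ae_of_all _ fun x => ?_)
  have g1 := g_ge hL hb
  have hv : L.v b j x ≤ L.g b ^ L.N :=
    pow_le_pow_right₀ g1 (by have := h.lv.Jle L hL x; omega)
  have hv0 : 0 ≤ L.v b j x := pow_nonneg (zero_le_one.trans g1) _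
  rw [Real.norm_eq_abs, Lev.muP]
  refine (abs_hs_le _ _).trans ?_
  rw [norm_smul, Real.norm_of_nonneg hv0, mul_assoc _ (L.g b ^ L.N)]
  have k := norm_T1_sub (hP x).norm hb'
  gcongr

end Psumx

open Psumx in
theorem psum (h : Bas3 n) (h2 : B2 n) (h3 : B3 n) : PSUM n := by
  obtain ⟨C₂, c2, h2⟩ := h2
  obtain ⟨C₃, b₃, c3, b3, h3⟩ := h3
  obtain ⟨Ce, ce, he⟩ := h.pw.e2b
  obtain ⟨b₁, b1, hm⟩ := h.pw.main
  obtain ⟨Cv, b₂, -, b2, hv⟩ := h.lv.vw
  obtain ⟨Ct, ct, ht⟩ := h.dns.tot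
  have hn : (3 : ℝ) ≤ n := by exact_mod_cast h.hn
  set K : ℝ := n * ((n + 1) * (n + 1)) with hK
  have K0 : 0 < K := by positivity
  refine ⟨C₃ + C₂ + 3 * K * Ct, min (min b₁ b₂) (min b₃ (1 / 2)), by positivity, by positivity,
    fun L b P hL b0 hb mP hP => ?_⟩
  have hb1 : b ≤ b₁ := hb.trans ((min_le_left _ _).trans (min_le_left _ _))
  have hb2 : b ≤ b₂ := hb.trans ((min_le_left _ _).trans (min_le_right _ _))
  have hb3 : b ≤ b₃ := hb.trans ((min_le_right _ _).trans (min_le_left _ _))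
  have hb4 : b ≤ 1 / 2 := hb.trans ((min_le_right _ _).trans (min_le_right _ _))
  obtain ⟨k1, is, iq, k2⟩ := h2 L hL
  obtain ⟨iK, k3⟩ := h3 L b P hL b0 hb3 mP hP
  have mO : MeasurableSet (L.O 0) := (h.lv.opn L hL 0).measurableSet
  have s0 : ∀ x, 0 < L.s x := fun x => h.lv.τpos L hL _
  have δ0 := hL.δ0
  have δ1 := hL.δ1
  have τ0 := hL.τp
  have m0 := hL.m0
  have tH : ∀ x ∈ L.O 0, 0 ≤ tr (L.H x) ∧ tr (L.H x) ≤ 2 * n * L.s x := fun x hx => by
    obtain ⟨e1, e2⟩ := h.lv.trH L hL x hx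
    rw [e1]
    refine ⟨hL.θ0 x, e2.trans ?_⟩
    have := mul_le_mul_of_nonneg_right δ1 (mul_pos (by linarith : (0 : ℝ) < n) (s0 x)).le
    linarith
  set f : V n → ℝ := fun x => L.s x * (e2 (P x) + L.δ * b ^ 2 + ‖P x - L.Ps b x‖ ^ 2) with hf
  set q : V n → ℝ := fun x => (hs (L.H x) (L.H x) - tr (L.H x) ^ 2 / n) / L.s x with hq
  have f0 : ∀ x, 0 ≤ f x := fun x => by
    have := (he b _ (hP x)).1
    have := s0 x
    positivity
  have mf : Measurable f := (h.lv.ms L hL b 0 0).1.mul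
    (((h.lv.mP L hL b P 0 0 mP).2.2.2.add_const _).add
      ((mP.sub (h.lv.mM L hL b 0).2.2.1).norm.measurable.pow_const 2))
  have fi : IntegrableOn f (L.O 0) volume := by
    refine ((is.const_mul (Ce * b ^ 2 + L.δ * b ^ 2 +
      (2 * (n + 1) ^ 2 * b ^ 2 + 8 * n * b ^ 2))).add (iq.const_mul (2 * b ^ 2))).mono'
      mf.aestronglyMeasurable ((ae_restrict_iff' mO).2 (ae_of_all _ fun x hx => ?_))
    rw [Real.norm_of_nonneg (f0 x)]
    have e1 := dist_le h.hn b0 (s0 x) (hP x).norm (tH x hx).1 (tH x hx).2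
    have e2 := mul_le_mul_of_nonneg_left (he b _ (hP x)).2 (s0 x).le
    simp only [hf, hq, Pi.add_apply, Lev.Ps]
    linarith
  have eS : L.Sl b P = ENNReal.ofReal (b ^ 2) * L.kk + ENNReal.ofReal (∫ x in L.O 0, f x) := by
    rw [ofReal_integral_eq_lintegral_ofReal fi (ae_of_all _ f0)]; rfl
  have S1 : L.Sl b P ≠ ⊤ := by
    rw [eS]
    exact ENNReal.add_ne_top.2 ⟨ENNReal.mul_ne_top ENNReal.ofReal_ne_top k1, ENNReal.ofReal_ne_top⟩
  have S2 : (L.Sl b P).toReal = b ^ 2 * L.kk.toReal + ∫ x in L.O 0, f x := by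
    rw [eS, ENNReal.toReal_add (ENNReal.mul_ne_top ENNReal.ofReal_ne_top k1) ENNReal.ofReal_ne_top,
      ENNReal.toReal_mul, ENNReal.toReal_ofReal (sq_nonneg b),
      ENNReal.toReal_ofReal (integral_nonneg f0)]
  have iμ := int_muP h hL b0 (by linarith) mP hP
  refine ⟨S1, iμ, fun ι hι ι0 => ?_⟩
  obtain ⟨iw, k4⟩ := int_of_lint (μ := volume.restrict (L.O 0)) (h.lv.ms L hL b 0 0).2.2.1
    (fun x => wt_nonneg _) (by positivity) (ht L hL)
  have k5 : |∫ x in L.O 0, hs (P x) (L.KK b x)| ≤ C₃ * (L.Sl b P).toReal := by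
    have := ENNReal.toReal_mono (ENNReal.mul_ne_top ENNReal.ofReal_ne_top S1) k3
    rwa [toReal_enorm, ENNReal.toReal_mul, ENNReal.toReal_ofReal c3.le, Real.norm_eq_abs] at this
  have iS := integrable_finsetSum (Finset.range L.N) fun k _ => iμ (ι k) (ι (k + 1))
  have e0 : ∑ k ∈ Finset.range L.N, ∫ x, L.muP b P (ι k) (ι (k + 1)) x =
      ∫ x in L.O 0, ∑ k ∈ Finset.range L.N, L.muP b P (ι k) (ι (k + 1)) x := by
    rw [← integral_finsetSum _ fun k _ => iμ (ι k) (ι (k + 1))]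
    refine (setIntegral_eq_integral_of_forall_compl_eq_zero fun x hx => ?_).symm
    exact Finset.sum_eq_zero fun k _ => (h.lv.offZ L hL b P _ _ x
      fun hx' => hx (h.lv.anti L hL (Nat.zero_le _) hx')).2.2.2.1
  have i1 := fi.const_mul (1 / (2 * b))
  have i2 : Integrable (fun x => b / 2 * (n * ((n : ℝ) - 1) * (1 + L.δ) * L.s x - q x))
      (volume.restrict (L.O 0)) := ((is.const_mul _).sub iq).const_mul _
  have i3 := iw.const_mul (3 * K * L.τ0)
  have pw : ∀ x ∈ L.O 0, 1 / (2 * b) * f x +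
      b / 2 * (n * ((n : ℝ) - 1) * (1 + L.δ) * L.s x - q x) - 3 * K * L.τ0 * L.w 0 x +
      hs (P x) (L.KK b x) ≤ ∑ k ∈ Finset.range L.N, L.muP b P (ι k) (ι (k + 1)) x := by
    intro x hx
    have e1 := hm b L.δ (L.s x) (P x) (L.H x) b0 hb1 δ0 δ1 (s0 x) (hP x)
      (h.lv.Hsym L hL b 0 x).1 (tH x hx).1 (tH x hx).2
    have eK : hs (T1 (1 - P x)) (L.KK b x) = hs (P x) (L.KK b x) := by
      rw [hs_T1, hs_sub_left, hs_one_left, tr_KK h.lv.toLV1 hL]; ring
    obtain ⟨v1, v2, -⟩ := hv L hL b 0 b0 hb2 x hx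
    have v3 : L.v b 0 x ≤ L.w 0 x := (le_self_pow₀ v1 (by norm_num)).trans v2
    have e3 : hs (T1 (1 - P x)) 1 ≤ K := by
      refine (le_abs_self _).trans ((abs_hs_le _ _).trans ?_)
      have k := norm_T1_sub (hP x).norm (by linarith : b ≤ 1)
      have k' := norm_one_le (n := n)
      calc _ ≤ n * ((n + 1) * (n + 1)) * (1 : ℝ) := by gcongr
        _ = K := mul_one _
    have bp := bp_ge hL b0 hb4
    have e4 : L.τ0 * L.v b 0 x / L.bp b ≤ 3 * L.τ0 * L.w 0 x := by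
      rw [div_le_iff₀ (by linarith)]
      have a1 := mul_le_mul_of_nonneg_left v3 τ0.le
      have a2 := mul_le_mul_of_nonneg_left bp
        (mul_pos τ0 (by linarith : 0 < L.w 0 x)).le
      linarith
    have e5 : L.τ0 * L.v b 0 x / L.bp b * hs (T1 (1 - P x)) 1 ≤ 3 * K * L.τ0 * L.w 0 x := by
      have a0 : 0 ≤ L.τ0 * L.v b 0 x / L.bp b :=
        div_nonneg (mul_nonneg τ0.le (by linarith)) (by linarith)
      have a1 := mul_le_mul_of_nonneg_left e3 a0
      have a2 := mul_le_mul_of_nonneg_right e4 K0.le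
      linarith
    have e6 : 1 / (2 * b) * f x = L.s x * (e2 (P x) + ‖P x - L.Ps b x‖ ^ 2) / (2 * b) +
        b / 2 * (L.δ * L.s x) := by
      simp only [hf]; field_simp; ring
    have e7 : b / 2 * (L.δ * L.s x) ≤ b / 2 * (n * ((n : ℝ) - 1) * (L.δ * L.s x)) :=
      mul_le_mul_of_nonneg_left (le_mul_of_one_le_left (mul_pos δ0 (s0 x)).le (by nlinarith))
        (by positivity)
    simp only [Lev.muP]
    rw [← hs_sum_right, h.alg2.sumX L hL b ι b0 (by linarith) hι ι0 x hx, hs_add_right,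
      hs_sub_right, hs_smul_right, eK, e6]
    simp only [hq, Lev.Ps, Lev.bp, Lev.g] at e1 e5 ⊢
    linarith
  have i4 := i1.fun_add i2
  have i5 := i4.sub' i3
  have e8 := setIntegral_mono_on (i5.fun_add iK) iS.integrableOn mO pw
  rw [integral_add i5 iK, integral_sub i4 i3, integral_add i1 i2,
    integral_const_mul, integral_const_mul, integral_const_mul,
    integral_sub (is.const_mul _) iq, integral_const_mul] at e8
  rw [e0]
  refine le_trans ?_ e8
  have e9 : (L.Sl b P).toReal / (2 * b) =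
      b / 2 * L.kk.toReal + 1 / (2 * b) * ∫ x in L.O 0, f x := by
    rw [S2]; field_simp
  have a1 := mul_le_mul_of_nonneg_left k2 (by positivity : 0 ≤ b / 2)
  have a2 : 3 * K * L.τ0 * ∫ x in L.O 0, L.w 0 x ≤ 3 * K * Ct * L.m := by
    refine (mul_le_mul_of_nonneg_left k4 (by positivity)).trans_eq ?_
    field_simp
  have a3 : b / 2 * (C₂ * L.m) ≤ C₂ * L.m := mul_le_of_le_one_left (by positivity) (by linarith)
  have a4 : 0 ≤ (C₂ + 3 * K * Ct) * (L.Sl b P).toReal := by positivity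
  have a5 : 0 ≤ C₃ * L.m := by positivity
  have a6 := neg_le_of_abs_le k5
  rw [e9]
  linarith

end Pool.Agent.MP_29b5d3_an.EX

end MrgPart4

-- ======== part 5: formerly Pool.Agent.MP_29b5d3_an.EX.OMin
section MrgPart5

/-! Project EXQ: a minimising sequence of the obstacle energy and its limit. -/

set_option autoImplicit false

namespace Pool.Agent.MP_29b5d3_an.EX

open MeasureTheory Metric Filter Topology Module
open scoped RealInnerProductSpace ContDiff ENNReal NNReal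
open Pool.Agent.MP_29b5d3_an.NC

namespace OMin

variable {n : ℕ}

theorem hol {p : ℝ≥0∞} (hp : 1 ≤ p) (R : ℝ) : ∃ C, 0 ≤ C ∧ ∀ (x : V n) (g : V n → ℝ),
    MemLp g p volume → ∫ z in ball x R, |g z| ≤ C * (eLpNorm g p volume).toReal := by
  have h0 : 0 ≤ 1 / (1 : ℝ≥0∞).toReal - 1 / p.toReal := by
    rcases eq_or_ne p ∞ with rfl | h
    · simp
    · have : 1 ≤ p.toReal := by simpa using ENNReal.toReal_mono h hp
      have := one_div_le_one_div_of_le one_pos this
      simpa using this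
  refine ⟨(volume (ball (0 : V n) R) ^ (1 / (1 : ℝ≥0∞).toReal - 1 / p.toReal)).toReal,
    ENNReal.toReal_nonneg, fun x g hg => ?_⟩
  have h1 := eLpNorm_le_eLpNorm_mul_rpow_measure_univ (μ := volume.restrict (ball x R)) hp
    hg.1.restrict
  rw [Measure.restrict_apply_univ, Measure.addHaar_ball_center, eLpNorm_one_eq_lintegral_enorm]
    at h1
  have h2 := integral_norm_eq_lintegral_enorm (μ := volume.restrict (ball x R)) hg.1.restrict
  simp only [Real.norm_eq_abs] at h2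
  rw [h2, mul_comm, ← ENNReal.toReal_mul]
  refine ENNReal.toReal_mono (ENNReal.mul_ne_top hg.2.ne
    (ENNReal.rpow_ne_top_of_nonneg h0 measure_ball_lt_top.ne)) (h1.trans ?_)
  gcongr
  exact Measure.restrict_le_self

theorem gns (hn : 3 ≤ n) : ∃ p : ℝ≥0, 1 ≤ p ∧ ∃ C, 0 ≤ C ∧ ∀ (χ : V n → ℝ) (R : ℝ), Test χ R →
    (eLpNorm χ p volume).toReal ≤ C * √(∫ x, ‖gradient χ x‖ ^ 2) := by
  have h3 : (3 : ℝ) ≤ n := by exact_mod_cast hn
  have h0 : (0 : ℝ) ≤ 2 * n / (n - 2) := div_nonneg (by linarith) (by linarith)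
  refine ⟨NNReal.mk (2 * n / (n - 2)) h0, ?_, SNormLESNormFDerivOfEqConst ℝ (volume : Measure (V n)) 2,
    NNReal.coe_nonneg _, fun χ R h => ?_⟩
  · rw [← NNReal.coe_le_coe, NNReal.coe_mk, NNReal.coe_one, le_div_iff₀ (by linarith)]
    linarith
  have h1 := eLpNorm_le_eLpNorm_fderiv_of_eq (volume : Measure (V n)) h.c1 h.supp (p := 2)
    (p' := NNReal.mk (2 * n / (n - 2)) h0) (by norm_num) (by rw [fr]; omega) (by
      rw [fr, NNReal.coe_mk, NNReal.coe_inv, NNReal.coe_ofNat]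
      have : (n : ℝ) - 2 ≠ 0 := by linarith
      have : (n : ℝ) ≠ 0 := by linarith
      field_simp)
  have h2 : MemLp (fderiv ℝ χ) 2 volume :=
    h.smooth_fderiv.continuous.memLp_of_hasCompactSupport (supp_of h.fderiv_zero)
  have h4 := h2.eLpNorm_eq_integral_rpow_norm two_ne_zero ENNReal.ofNat_ne_top
  have h5 : ∀ x, ‖gradient χ x‖ = ‖fderiv ℝ χ x‖ := fun x => LinearIsometryEquiv.norm_map _ _
  simp only [ENNReal.toReal_ofNat, Real.rpow_two] at h4
  simp only [ENNReal.coe_ofNat, NNReal.coe_ofNat] at h1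
  rw [h4] at h1
  have h6 := ENNReal.toReal_mono (ENNReal.mul_ne_top ENNReal.coe_ne_top ENNReal.ofReal_ne_top) h1
  rw [ENNReal.toReal_mul, ENNReal.toReal_ofReal (by positivity), ENNReal.coe_toReal] at h6
  simp only [h5]
  rw [Real.sqrt_eq_rpow, one_div]
  exact h6

theorem int_grad {a : V n → ℝ} {R : ℝ} (h : Test a R) :
    Integrable (fun x => ‖gradient a x‖ ^ 2) volume :=
  (h.smooth_grad.continuous.norm.pow 2).integrable_of_hasCompactSupport
    (supp_of (R := R) fun y hy => by simp [h.grad_zero y hy])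

theorem int_f {f a : V n → ℝ} {M R : ℝ} (hf : Bd f M) (h : Test a R) :
    Integrable (fun x => f x * a x) volume :=
  h.int.bdd_mul hf.1.aestronglyMeasurable (ae_of_all _ hf.2)

theorem comb {a b : V n → ℝ} {R R' : ℝ} (ha : Test a R) (hb : Test b R') (s t : ℝ) :
    Test (fun x => s * a x + t * b x) (max R R') ∧
      ∀ x, gradient (fun x => s * a x + t * b x) x = s • gradient a x + t • gradient b x := by
  refine ⟨⟨(contDiff_const.mul ha.1).add (contDiff_const.mul hb.1), fun y hy => by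
    simp [ha.2 y ((le_max_left _ _).trans hy), hb.2 y ((le_max_right _ _).trans hy)]⟩, fun x => ?_⟩
  have h1 := (ha.1.differentiable (by simp) x).hasFDerivAt
  have h2 := (hb.1.differentiable (by simp) x).hasFDerivAt
  have h3 : HasFDerivAt (fun x => s * a x + t * b x) _ x := (h1.const_mul s).add (h2.const_mul t)
  rw [gradient, h3.fderiv, gradient, gradient]
  simp

theorem para {f a b : V n → ℝ} {M R R' : ℝ} (hf : Bd f M) (ha : Test a R) (hb : Test b R') :
    eng f (fun x => 1 / 2 * a x + 1 / 2 * b x) = (eng f a + eng f b) / 2 -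
      (∫ x, ‖gradient (fun x => 1 * a x + -1 * b x) x‖ ^ 2) / 8 := by
  obtain ⟨h1, h2⟩ := comb ha hb (1 / 2) (1 / 2)
  obtain ⟨h3, h4⟩ := comb ha hb 1 (-1)
  have e1 : ∀ x, ‖gradient (fun x => 1 / 2 * a x + 1 / 2 * b x) x‖ ^ 2 =
      1 / 2 * (‖gradient a x‖ ^ 2 + ‖gradient b x‖ ^ 2) -
        1 / 4 * ‖gradient (fun x => 1 * a x + -1 * b x) x‖ ^ 2 := fun x => by
    have := parallelogram_law_with_norm ℝ (gradient a x) (gradient b x)
    rw [h2, h4, ← smul_add, norm_smul, one_smul, neg_smul, one_smul, ← sub_eq_add_neg, mul_pow,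
      Real.norm_eq_abs, sq_abs]
    linarith
  have e2 : ∀ x, f x * (1 / 2 * a x + 1 / 2 * b x) = 1 / 2 * (f x * a x + f x * b x) :=
    fun x => by ring
  simp only [eng, e1, e2]
  have i1 : Integrable (fun x => ‖gradient a x‖ ^ 2 + ‖gradient b x‖ ^ 2) volume :=
    (int_grad ha).add (int_grad hb)
  rw [integral_sub (i1.const_mul _) ((int_grad h3).const_mul _),
    integral_const_mul, integral_const_mul, integral_const_mul,
    integral_add (int_grad ha) (int_grad hb), integral_add (int_f hf ha) (int_f hf hb)]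
  ring

theorem low {f a : V n → ℝ} {M R : ℝ} (hf : Bd f M) (h0 : ∀ x, 2 ≤ ‖x‖ → 0 ≤ f x) (ha : Test a R)
    (h1 : ∀ x, 0 ≤ a x) : -(M * ∫ x in ball (0 : V n) 2, |a x|) ≤ ∫ x, f x * a x := by
  rw [← integral_indicator measurableSet_ball, ← integral_const_mul, ← integral_neg]
  refine integral_mono ((ha.int.abs.indicator measurableSet_ball).const_mul M).neg (int_f hf ha)
    fun x => ?_
  by_cases hx : x ∈ ball (0 : V n) 2
  · simp only [Set.indicator_of_mem hx, abs_of_nonneg (h1 x)]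
    nlinarith [(abs_le.1 (hf.2 x)).1, h1 x]
  · simp only [Set.indicator_of_notMem hx, mul_zero, neg_zero]
    exact mul_nonneg (h0 x (by simpa using hx)) (h1 x)

theorem iv_eq (g : V n → ℝ) (x : V n) : Iv g x 1 = ∫ z in ball x 1, g z := by
  rw [Iv, ← (measurePreserving_add_left volume x).setIntegral_preimage_emb
    (measurableEmbedding_addLeft x) g (ball x 1)]
  simp

end OMin

open OMin

theorem omin {n : ℕ} (hn : 3 ≤ n) (h : OA n) : OMin n := by
  intro f M hf h0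
  obtain ⟨p, hp, C, hC, hg⟩ := gns hn
  have hp' : (1 : ℝ≥0∞) ≤ p := by exact_mod_cast hp
  have : Fact ((1 : ℝ≥0∞) ≤ p) := ⟨hp'⟩
  have hM : 0 ≤ M := (abs_nonneg _).trans (hf.2 0)
  have mem : ∀ {a : V n → ℝ} {R : ℝ}, Test a R → MemLp a p volume := fun h =>
    h.cont.memLp_of_hasCompactSupport h.supp
  have bdd : BddBelow (eng f '' {a | Adm a}) := by
    obtain ⟨C', hC', h2⟩ := hol (n := n) hp' 2
    refine ⟨-((M * C' * C) ^ 2 / 2), ?_⟩
    rintro _ ⟨a, ⟨⟨R, ha⟩, h1⟩, rfl⟩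
    have k0 : 0 ≤ ∫ x, ‖gradient a x‖ ^ 2 := integral_nonneg fun x => by positivity
    have k1 := low hf h0 ha h1
    have k2 := mul_le_mul_of_nonneg_left ((h2 0 a (mem ha)).trans
      (mul_le_mul_of_nonneg_left (hg a R ha) hC')) hM
    have k3 := Real.sq_sqrt k0
    rw [eng]
    nlinarith [sq_nonneg (√(∫ x, ‖gradient a x‖ ^ 2) - M * C' * C)]
  have ne : (eng f '' {a | Adm a}).Nonempty :=
    ⟨_, fun _ => 0, ⟨⟨0, contDiff_const, fun _ _ => rfl⟩, fun _ => le_rfl⟩, rfl⟩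
  have ex : ∀ k : ℕ, ∃ a, Adm a ∧ eng f a < sInf (eng f '' {a | Adm a}) + 1 / ((k : ℝ) + 1) := by
    intro k
    obtain ⟨_, ⟨a, ha, rfl⟩, h⟩ := exists_lt_of_csInf_lt ne
      (lt_add_of_pos_right _ (Nat.one_div_pos_of_nat (α := ℝ) (n := k)))
    exact ⟨a, ha, h⟩
  choose χ hχ hχ' using ex
  have hm : ∀ k ξ, Adm ξ → eng f (χ k) ≤ eng f ξ + 1 / ((k : ℝ) + 1) := fun k ξ hξ => by
    linarith [hχ' k, csInf_le bdd ⟨ξ, hξ, rfl⟩]
  choose R hR using fun k => (hχ k).1
  set F : ℕ → Lp ℝ p (volume : Measure (V n)) := fun k => (mem (hR k)).toLp (χ k) with hF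
  have hc : CauchySeq F := by
    refine cauchySeq_of_le_tendsto_0' (fun k => C * √(8 * (1 / ((k : ℝ) + 1)))) (fun k l hkl => ?_) ?_
    · obtain ⟨h1, -⟩ := comb (hR k) (hR l) (1 / 2) (1 / 2)
      obtain ⟨h3, -⟩ := comb (hR k) (hR l) 1 (-1)
      have a1 : Adm fun x => 1 / 2 * χ k x + 1 / 2 * χ l x :=
        ⟨⟨_, h1⟩, fun x => by have := (hχ k).2 x; have := (hχ l).2 x; positivity⟩
      have k1 := para hf (hR k) (hR l)
      have k2 := hm k _ a1
      have k3 := hm l _ a1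
      have k4 : 1 / ((l : ℝ) + 1) ≤ 1 / ((k : ℝ) + 1) := Nat.one_div_le_one_div hkl
      have k5 := hg _ _ h3
      have e : (fun x => 1 * χ k x + -1 * χ l x) = χ k - χ l := by
        ext x; simp [sub_eq_add_neg]
      rw [hF, Lp.dist_def, eLpNorm_congr_ae ((MemLp.coeFn_toLp _).sub (MemLp.coeFn_toLp _)), ← e]
      refine k5.trans (mul_le_mul_of_nonneg_left (Real.sqrt_le_sqrt ?_) hC)
      linarith
    · have := ((tendsto_one_div_add_atTop_nhds_zero_nat (𝕜 := ℝ)).const_mul 8).sqrt.const_mul C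
      simpa using this
  obtain ⟨g, hg'⟩ := cauchySeq_tendsto_of_complete hc
  have ht : Tendsto (fun k => (eLpNorm (χ k - ⇑g) p volume).toReal) atTop (𝓝 0) := by
    refine (tendsto_iff_dist_tendsto_zero.1 hg').congr fun k => ?_
    rw [hF, Lp.dist_def, eLpNorm_congr_ae ((MemLp.coeFn_toLp _).sub EventuallyEq.rfl)]
  have gm : Measurable fun x => max (g x) 0 :=
    (Lp.stronglyMeasurable g).measurable.max measurable_const
  have gl : LocallyIntegrable (fun x => max (g x) 0) volume :=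
    (Lp.memLp g).pos_part.locallyIntegrable hp'
  have gi : ∀ (x : V n) (r : ℝ), IntegrableOn (fun x => max (g x) 0) (ball x r) volume := fun x r =>
    (gl.integrableOn_isCompact (isCompact_closedBall x r)).mono_set ball_subset_closedBall
  have key : ∀ r : ℝ, ∃ C', 0 ≤ C' ∧ ∀ (x : V n) (k : ℕ), ∫ z in ball x r, |χ k z - max (g z) 0| ≤
      C' * (eLpNorm (χ k - ⇑g) p volume).toReal := by
    intro r
    obtain ⟨C', hC', h2⟩ := hol (n := n) hp' r
    refine ⟨C', hC', fun x k => le_trans ?_ (h2 x _ ((mem (hR k)).sub (Lp.memLp g)))⟩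
    refine integral_mono ((hR k).int.integrableOn.sub (gi x r)).abs
      ((((mem (hR k)).sub (Lp.memLp g)).locallyIntegrable hp').integrableOn_isCompact
        (isCompact_closedBall x r) |>.mono_set ball_subset_closedBall).abs fun z => ?_
    have := abs_max_sub_max_le_abs (χ k z) (g z) 0
    rwa [max_eq_left ((hχ k).2 z)] at this
  refine ⟨χ, fun x => max (g x) 0, hχ, hm, gm, fun x => le_max_right _ _, gl, fun r => ?_,
    fun ε hε => ?_⟩
  · obtain ⟨C', -, h2⟩ := key r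
    refine squeeze_zero (fun k => integral_nonneg fun z => abs_nonneg _) (h2 0) ?_
    simpa using ht.const_mul C'
  · obtain ⟨C', -, h2⟩ := key 1
    have h3 : Tendsto (fun k => C' * (eLpNorm (χ k - ⇑g) p volume).toReal) atTop (𝓝 0) := by
      simpa using ht.const_mul C'
    obtain ⟨k, hk⟩ := (h3.eventually (gt_mem_nhds hε)).exists
    refine ⟨R k + 1, fun x hx => le_trans (le_of_eq ?_) ((h2 x k).trans hk.le)⟩
    rw [iv_eq]
    refine setIntegral_congr_fun measurableSet_ball fun z hz => ?_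
    have h4 : R k ≤ ‖z‖ := by
      have := norm_sub_norm_le x z
      have := mem_ball_iff_norm'.1 hz
      linarith
    simp only [(hR k).2 z h4, zero_sub, abs_neg, abs_of_nonneg (le_max_right (g z) 0)]

end Pool.Agent.MP_29b5d3_an.EX

end MrgPart5

-- ======== part 6: formerly Pool.Agent.MP_29b5d3_an.EX.OReg
section MrgPart6

/-! Project EXQ, obstacle package: weak second derivatives of a function with bounded Laplacian. -/

set_option autoImplicit false

namespace Pool.Agent.MP_29b5d3_an.EX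

open MeasureTheory Metric Filter Topology Module
open scoped RealInnerProductSpace ContDiff ENNReal
open Pool.Agent.MP_29b5d3_an.NC

variable {n : ℕ}

namespace OReg

theorem el2 {U : Type} [NormedAddCommGroup U] {h : V n → U} (hm : MemLp h 2 volume) :
    eLpNorm h 2 volume = ENNReal.ofReal (√(∫ x, ‖h x‖ ^ 2)) := by
  rw [hm.eLpNorm_eq_integral_rpow_norm two_ne_zero ENNReal.ofNat_ne_top, Real.sqrt_eq_rpow]
  simp only [ENNReal.toReal_ofNat, Real.rpow_two, one_div]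

theorem int_bd (B : ℝ) :
    Integrable ((ball (0 : V n) 4).indicator fun _ => B) volume :=
  (integrable_indicator_iff measurableSet_ball).2 (integrableOn_const measure_ball_lt_top.ne)

theorem sq_le {U : Type} [NormedAddCommGroup U] {h : V n → U} {B : ℝ} {x : V n}
    (h1 : ‖h x‖ ≤ B) (h2 : 4 ≤ ‖x‖ → h x = 0) :
    ‖‖h x‖ ^ 2‖ ≤ (ball (0 : V n) 4).indicator (fun _ => B ^ 2) x := by
  rw [Real.norm_of_nonneg (by positivity)]
  by_cases hx : x ∈ ball (0 : V n) 4
  · rw [Set.indicator_of_mem hx]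
    exact pow_le_pow_left₀ (norm_nonneg _) h1 2
  · rw [Set.indicator_of_notMem hx, h2 (by simpa using hx)]
    simp

theorem mem2 {U : Type} [NormedAddCommGroup U] {h : V n → U} {B : ℝ}
    (hm : AEStronglyMeasurable h volume) (h1 : ∀ᵐ x, ‖h x‖ ≤ B)
    (h2 : ∀ᵐ x, 4 ≤ ‖x‖ → h x = 0) : MemLp h 2 volume := by
  refine (memLp_two_iff_integrable_sq_norm hm).2 ((int_bd (B ^ 2)).mono' (hm.norm.pow 2) ?_)
  filter_upwards [h1, h2] with x a b using sq_le a b

theorem dom {U : Type} [NormedAddCommGroup U] {h : ℕ → V n → U} {B : ℝ}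
    (hm : ∀ k, AEStronglyMeasurable (h k) volume) (h1 : ∀ k, ∀ᵐ x, ‖h k x‖ ≤ B)
    (h2 : ∀ k, ∀ᵐ x, 4 ≤ ‖x‖ → h k x = 0)
    (h3 : ∀ᵐ x, Tendsto (fun k => h k x) atTop (𝓝 0)) :
    Tendsto (fun k => eLpNorm (h k) 2 volume) atTop (𝓝 0) := by
  have e : ∀ k, eLpNorm (h k) 2 volume = ENNReal.ofReal (√(∫ x, ‖h k x‖ ^ 2)) :=
    fun k => el2 (mem2 (hm k) (h1 k) (h2 k))
  simp_rw [e]
  have t := tendsto_integral_of_dominated_convergence (μ := (volume : Measure (V n)))
    (F := fun k x => ‖h k x‖ ^ 2) (f := fun _ => (0 : ℝ)) _ (fun k => (hm k).norm.pow 2)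
    (int_bd (B ^ 2)) (fun k => by
      filter_upwards [h1 k, h2 k] with x a b using sq_le a b) (by
      filter_upwards [h3] with x hx
      simpa using hx.norm.pow 2)
  rw [integral_zero] at t
  have t2 := ENNReal.tendsto_ofReal t.sqrt
  simpa using t2

theorem test_sub {a b : V n → ℝ} {R : ℝ} (ha : Test a R) (hb : Test b R) : Test (a - b) R :=
  ⟨ha.1.sub hb.1, fun y hy => by simp [ha.2 y hy, hb.2 y hy]⟩

theorem grad_sub {a b : V n → ℝ} {R : ℝ} (ha : Test a R) (hb : Test b R) :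
    gradient (a - b) = gradient a - gradient b := by
  ext1 x
  simp only [gradient, Pi.sub_apply]
  rw [fderiv_sub (ha.1.differentiable (by simp) x) (hb.1.differentiable (by simp) x), map_sub]

theorem hess_sub {a b : V n → ℝ} {R : ℝ} (ha : Test a R) (hb : Test b R) (x : V n) :
    hess (a - b) x = hess a x - hess b x := by
  unfold hess
  rw [grad_sub ha hb, fderiv_sub (ha.smooth_grad.differentiable (by simp) x)
    (hb.smooth_grad.differentiable (by simp) x)]

theorem lap_sub {a b : V n → ℝ} {R : ℝ} (ha : Test a R) (hb : Test b R) (x : V n) :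
    lap (a - b) x = lap a x - lap b x := by
  unfold lap
  rw [hess_sub ha hb, tr_sub]

theorem mem_hess {a : V n → ℝ} (ha : Test a 4) : MemLp (hess a) 2 volume := by
  obtain ⟨C, -, hC⟩ := ha.bdd_hess
  exact mem2 ha.smooth_hess.continuous.aestronglyMeasurable (Eventually.of_forall hC)
    (Eventually.of_forall ha.hess_zero)

theorem mem_lap {a : V n → ℝ} (ha : Test a 4) : MemLp (lap a) 2 volume := by
  obtain ⟨C, -, hC⟩ := ha.lap.bdd
  exact mem2 ha.lap.cont.aestronglyMeasurable (Eventually.of_forall hC)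
    (Eventually.of_forall ha.lap.2)

theorem hess_le_lap (hc : OC n) {a b : V n → ℝ} (ha : Test a 4) (hb : Test b 4) :
    eLpNorm (hess a - hess b) 2 volume ≤ eLpNorm (lap a - lap b) 2 volume := by
  have e1 : hess a - hess b = hess (a - b) := by
    ext1 x
    rw [hess_sub ha hb, Pi.sub_apply]
  have e2 : lap a - lap b = lap (a - b) := by
    ext1 x
    rw [lap_sub ha hb, Pi.sub_apply]
  rw [e1, e2, el2 (mem_hess (test_sub ha hb)), el2 (mem_lap (test_sub ha hb))]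
  refine ENNReal.ofReal_le_ofReal (Real.sqrt_le_sqrt ?_)
  simpa only [Real.norm_eq_abs, sq_abs] using hc.hess_l2 _ 4 (test_sub ha hb)

/-- the limit of the Hessians -/
theorem hess_lim (hc : OC n) {a : ℕ → V n → ℝ} (ha : ∀ k, Test (a k) 4) {g : V n → ℝ}
    (hg : AEStronglyMeasurable g volume)
    (hl : Tendsto (fun k => eLpNorm (lap (a k) - g) 2 volume) atTop (𝓝 0)) :
    ∃ D : V n → Mt n, StronglyMeasurable D ∧ (∀ x, 4 ≤ ‖x‖ → D x = 0) ∧
      Tendsto (fun k => eLpNorm (hess (a k) - D) 2 volume) atTop (𝓝 0) ∧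
      ∃ s : ℕ → ℕ, StrictMono s ∧
        ∀ᵐ x, Tendsto (fun i => hess (a (s i)) x) atTop (𝓝 (D x)) := by
  let F : ℕ → Lp (Mt n) 2 (volume : Measure (V n)) := fun k => (mem_hess (ha k)).toLp _
  have hF : ∀ k, F k =ᵐ[volume] hess (a k) := fun k => MemLp.coeFn_toLp _
  have c : CauchySeq F := by
    rw [Lp.cauchySeq_Lp_iff_cauchySeq_eLpNorm]
    have t1 : Tendsto (fun p : ℕ × ℕ => eLpNorm (lap (a p.1) - g) 2 volume +
        eLpNorm (lap (a p.2) - g) 2 volume) atTop (𝓝 0) := by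
      rw [← prod_atTop_atTop_eq]
      simpa using (hl.comp tendsto_fst).add (hl.comp tendsto_snd)
    refine tendsto_of_tendsto_of_tendsto_of_le_of_le tendsto_const_nhds t1
      (fun _ => zero_le) fun p => ?_
    have e : eLpNorm (⇑(F p.1) - ⇑(F p.2)) 2 volume =
        eLpNorm (hess (a p.1) - hess (a p.2)) 2 volume :=
      eLpNorm_congr_ae ((hF p.1).sub (hF p.2))
    have e2 : lap (a p.1) - lap (a p.2) = (lap (a p.1) - g) - (lap (a p.2) - g) := by abel
    refine e.le.trans ((hess_le_lap hc (ha _) (ha _)).trans ?_)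
    rw [e2]
    exact eLpNorm_sub_le ((ha _).lap.cont.aestronglyMeasurable.sub hg)
      ((ha _).lap.cont.aestronglyMeasurable.sub hg) one_le_two
  obtain ⟨L, hL⟩ := cauchySeq_tendsto_of_complete c
  rw [Lp.tendsto_Lp_iff_tendsto_eLpNorm'] at hL
  have hL' : Tendsto (fun k => eLpNorm (hess (a k) - ⇑L) 2 volume) atTop (𝓝 0) :=
    hL.congr fun k => eLpNorm_congr_ae ((hF k).sub EventuallyEq.rfl)
  obtain ⟨s, hs, hs'⟩ := (tendstoInMeasure_of_tendsto_eLpNorm two_ne_zero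
    (fun k => (ha k).smooth_hess.continuous.aestronglyMeasurable)
    (Lp.aestronglyMeasurable L) hL').exists_seq_tendsto_ae
  have e : (ball (0 : V n) 4).indicator ⇑L =ᵐ[volume] ⇑L := by
    filter_upwards [hs'] with x hx
    by_cases h : x ∈ ball (0 : V n) 4
    · exact Set.indicator_of_mem h _
    · rw [Set.indicator_of_notMem h]
      have z : (fun i => hess (a (s i)) x) = fun _ => 0 :=
        funext fun i => (ha _).hess_zero x (by simpa using h)
      rw [z] at hx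
      exact tendsto_nhds_unique tendsto_const_nhds hx
  refine ⟨(ball (0 : V n) 4).indicator ⇑L, (Lp.stronglyMeasurable L).indicator measurableSet_ball,
    fun x hx => Set.indicator_of_notMem (by simpa using hx) _,
    hL'.congr fun k => eLpNorm_congr_ae (EventuallyEq.rfl.sub e.symm), s, hs, ?_⟩
  filter_upwards [hs', e] with x hx he
  rwa [he]

theorem rk_pos (k : ℕ) : (0 : ℝ) < 1 / ((k : ℝ) + 1) := by positivity

theorem rk_le (k : ℕ) : 1 / ((k : ℝ) + 1) ≤ 1 := by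
  rw [div_le_one (by positivity)]
  linarith [(Nat.cast_nonneg k : (0 : ℝ) ≤ k)]

theorem rk_lim : Tendsto (fun k : ℕ => 1 / ((k : ℝ) + 1)) atTop (𝓝[>] 0) :=
  tendsto_nhdsWithin_iff.2 ⟨tendsto_one_div_add_atTop_nhds_zero_nat,
    Eventually.of_forall rk_pos⟩

theorem av_const {φ : V n → ℝ} (h1 : ∫ y, φ y = 1) (c : ℝ) (x : V n) (r : ℝ) :
    av φ (fun _ => c) x r = c := by
  unfold av
  simp only [smul_eq_mul]
  rw [integral_mul_const, h1, one_mul]

theorem av_bd (ha : OA n) {φ ψ g : V n → ℝ} (hk : Ker φ ψ) {M : ℝ}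
    (hg : LocallyIntegrable g volume) (hM : ∀ x, |g x| ≤ M) (x : V n) {r : ℝ} (hr : 0 < r) :
    |av φ g x r| ≤ M := by
  rw [abs_le]
  constructor
  · rw [← av_const hk.one (-M) x r]
    exact ha.av_mono φ _ _ x r hk.tφ hk.φ0 (locallyIntegrable_const _) hg hr
      (Eventually.of_forall fun z _ => (abs_le.1 (hM z)).1)
  · conv_rhs => rw [← av_const hk.one M x r]
    exact ha.av_mono φ _ _ x r hk.tφ hk.φ0 hg (locallyIntegrable_const _) hr
      (Eventually.of_forall fun z _ => (abs_le.1 (hM z)).2)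

theorem sym_lim {X : ℕ → Mt n} {D : Mt n} (hX : ∀ i, Sym (X i)) (h : Tendsto X atTop (𝓝 D)) :
    Sym D := by
  intro a b
  have t : ∀ v : V n, Tendsto (fun i => X i v) atTop (𝓝 (D v)) := fun v =>
    ((ContinuousLinearMap.apply ℝ (V n) v).continuous.tendsto D).comp h
  have t1 := (t a).inner (𝕜 := ℝ) (tendsto_const_nhds (x := b))
  have t2 := (tendsto_const_nhds (x := a)).inner (𝕜 := ℝ) (t b)
  exact tendsto_nhds_unique (t1.congr fun i => hX i a b) t2

end OReg

open OReg in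
/-- a continuous nonnegative function with bounded weak Laplacian is an `L²` limit of test
functions up to second order; gradient and Hessian vanish on the zero set -/
theorem oreg_raw (hK : KerS n) (ha : OA n) (hc : OC n) (u g : V n → ℝ) (M : ℝ)
    (hu : Continuous u) (h0 : ∀ x, 0 ≤ u x) (h3 : ∀ x, 3 ≤ ‖x‖ → u x = 0) (hg : Bd g M)
    (h1 : LLe u g) (h2 : LGe u g) :
    ∃ (G : V n → V n) (D : V n → Mt n), StronglyMeasurable G ∧ StronglyMeasurable D ∧
      (∀ x, 4 ≤ ‖x‖ → G x = 0) ∧ (∀ x, 4 ≤ ‖x‖ → D x = 0) ∧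
      (∃ a : ℕ → V n → ℝ, (∀ k, Test (a k) 4) ∧
        Tendsto (fun k => eLpNorm (a k - u) 2 volume) atTop (𝓝 0) ∧
        Tendsto (fun k => eLpNorm (gradient (a k) - G) 2 volume) atTop (𝓝 0) ∧
        Tendsto (fun k => eLpNorm (hess (a k) - D) 2 volume) atTop (𝓝 0)) ∧
      (∀ x, u x = 0 → G x = 0) ∧
      ∀ᵐ x, Sym (D x) ∧ tr (D x) = g x ∧ (u x = 0 → D x = 0) := by
  obtain ⟨φ, ψ, hk⟩ := hK.ker
  have hM : 0 ≤ M := (abs_nonneg _).trans (hg.2 0)
  have lu := hu.locallyIntegrable (μ := volume)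
  have lg := ha.bd_loc g M hg
  have lb : LB u M :=
    ⟨ha.lle_congr u u g _ EventuallyEq.rfl lg (locallyIntegrable_const _)
      (Eventually.of_forall fun x => (abs_le.1 (hg.2 x)).2) h1,
    ha.lge_congr u u g _ EventuallyEq.rfl lg (locallyIntegrable_const _)
      (Eventually.of_forall fun x => (abs_le.1 (hg.2 x)).1) h2⟩
  let r : ℕ → ℝ := fun k => 1 / ((k : ℝ) + 1)
  let a : ℕ → V n → ℝ := fun k => mol φ u (r k)
  have ta : ∀ k, Test (a k) 4 := fun k =>
    (hc.test φ u 3 (r k) hk.tφ lu (rk_pos k) h3).mono (by linarith [rk_le k])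
  obtain ⟨z1, z2⟩ := hc.zero φ ψ u 3 M hk hu h0 h3 lb hM
  -- the functions
  obtain ⟨B, hB⟩ := hu.bounded_above_of_compact_support (supp_of h3)
  have t0 : Tendsto (fun k => eLpNorm (a k - u) 2 volume) atTop (𝓝 0) := by
    refine dom (B := B + B) (fun k => ((ta k).cont.sub hu).aestronglyMeasurable)
      (fun k => Eventually.of_forall fun x => (norm_sub_le _ _).trans
        (add_le_add (av_bd ha hk lu hB x (rk_pos k)) (hB x)))
      (fun k => Eventually.of_forall fun x hx => ?_) (Eventually.of_forall fun x => ?_)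
    · rw [Pi.sub_apply, (ta k).2 x hx, h3 x (by linarith), sub_zero]
    · have := ((ha.lim φ u hk.tφ hk.φ0 hk.one hu x).comp rk_lim).sub_const (u x)
      rwa [sub_self] at this
  -- the gradients
  obtain ⟨C, hC, hl⟩ := hc.grad_lip φ ψ hk
  have r0 : Tendsto r atTop (𝓝 0) := tendsto_one_div_add_atTop_nhds_zero_nat
  have rm : ∀ k l : ℕ, k ≤ l → r l ≤ r k := fun k l h =>
    one_div_le_one_div_of_le (by positivity) (by simpa using h)
  have cg : ∀ x, ∃ y, Tendsto (fun k => gradient (a k) x) atTop (𝓝 y) := fun x => by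
    refine cauchySeq_tendsto_of_complete (cauchySeq_of_le_tendsto_0' (fun k => C * M * r k)
      (fun k l h => ?_) (by simpa using r0.const_mul (C * M)))
    rw [dist_eq_norm]
    exact hl u M lu lb hM x _ _ (rk_pos l) (rm k l h)
  choose G hG using cg
  have gz : ∀ x, 4 ≤ ‖x‖ → G x = 0 := fun x hx =>
    tendsto_nhds_unique (hG x) (tendsto_const_nhds.congr fun k => ((ta k).grad_zero x hx).symm)
  have gm : StronglyMeasurable G :=
    stronglyMeasurable_of_tendsto atTop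
      (fun k => (ta k).smooth_grad.continuous.stronglyMeasurable) (tendsto_pi_nhds.2 hG)
  have gb : ∀ k x, ‖gradient (a k) x - G x‖ ≤ C * M := fun k x => by
    refine le_of_tendsto ((tendsto_const_nhds.sub (hG x)).norm) ?_
    filter_upwards [eventually_ge_atTop k] with l h
    exact (hl u M lu lb hM x _ _ (rk_pos l) (rm k l h)).trans
      (mul_le_of_le_one_right (by positivity) (rk_le k))
  have t1 : Tendsto (fun k => eLpNorm (gradient (a k) - G) 2 volume) atTop (𝓝 0) := by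
    refine dom (B := C * M) (fun k => (ta k).smooth_grad.continuous.aestronglyMeasurable.sub
      gm.aestronglyMeasurable) (fun k => Eventually.of_forall (gb k))
      (fun k => Eventually.of_forall fun x hx => ?_) (Eventually.of_forall fun x => ?_)
    · rw [Pi.sub_apply, (ta k).grad_zero x hx, gz x hx, sub_zero]
    · have := (hG x).sub_const (G x)
      rwa [sub_self] at this
  -- the Laplacians
  have el : ∀ k x, lap (a k) x = av φ g x (r k) := fun k x => by
    have p := rk_pos k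
    have e := le_antisymm (ha.lle_av u g φ 1 h1 hk.tφ hk.φ0 x _ p)
      (ha.lge_av u g φ 1 h2 hk.tφ hk.φ0 x _ p)
    rw [hc.lap_mol φ u 3 _ hk.tφ lu p h3 x, e, ← mul_assoc, inv_mul_cancel₀ (by positivity),
      one_mul]
  have tl : ∀ᵐ x, Tendsto (fun k => lap (a k) x) atTop (𝓝 (g x)) := by
    filter_upwards [ha.leb_av ℝ φ g hk.tφ hk.one lg] with x hx
    exact (hx.comp rk_lim).congr fun k => (el k x).symm
  have t2 : Tendsto (fun k => eLpNorm (lap (a k) - g) 2 volume) atTop (𝓝 0) := by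
    refine dom (B := M + M) (fun k => (ta k).lap.cont.aestronglyMeasurable.sub
      hg.1.aestronglyMeasurable) (fun k => Eventually.of_forall fun x =>
        (norm_sub_le _ _).trans (add_le_add ?_ (hg.2 x))) (fun k => ?_) ?_
    · rw [el]
      exact av_bd ha hk lg hg.2 x (rk_pos k)
    · filter_upwards [tl] with x hx h4
      have : g x = 0 := tendsto_nhds_unique hx
        (tendsto_const_nhds.congr fun k => ((ta k).lap.2 x h4).symm)
      rw [Pi.sub_apply, (ta k).lap.2 x h4, this, sub_zero]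
    · filter_upwards [tl] with x hx
      have := hx.sub_const (g x)
      rwa [sub_self] at this
  obtain ⟨D, dm, dz, t3, s, hs, hD⟩ := hess_lim hc ta hg.1.aestronglyMeasurable t2
  refine ⟨G, D, gm, dm, gz, dz, ⟨a, ta, t0, t1, t3⟩, fun x hx =>
    tendsto_nhds_unique (hG x) ((z1 x hx).comp rk_lim), ?_⟩
  filter_upwards [hD, tl, z2] with x d1 d2 d3
  refine ⟨sym_lim (fun i => (ta _).sym_hess x) d1, tendsto_nhds_unique
    ((continuous_tr.tendsto _).comp d1) (d2.comp hs.tendsto_atTop), fun hx => ?_⟩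
  exact tendsto_nhds_unique d1 (((d3 hx).comp rk_lim).comp hs.tendsto_atTop)

end Pool.Agent.MP_29b5d3_an.EX

end MrgPart6

-- ======== part 7: formerly Pool.Agent.MP_29b5d3_an.EX.OLev
section MrgPart7

/-! Project EXQ, obstacle package: the family of levels, all properties at every point. -/

set_option autoImplicit false

namespace Pool.Agent.MP_29b5d3_an.EX

open MeasureTheory Metric Filter Topology Module
open scoped RealInnerProductSpace ContDiff ENNReal
open Pool.Agent.MP_29b5d3_an.NC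

variable {n : ℕ}

/-- unfolded form of the second order approximation by test functions -/
def RawH (u : V n → ℝ) (G : V n → V n) (D : V n → Mt n) : Prop :=
  StronglyMeasurable G ∧ StronglyMeasurable D ∧
    (∀ x, 4 ≤ ‖x‖ → G x = 0) ∧ (∀ x, 4 ≤ ‖x‖ → D x = 0) ∧
    ∃ a : ℕ → V n → ℝ, (∀ k, Test (a k) 4) ∧
      Tendsto (fun k => eLpNorm (a k - u) 2 volume) atTop (𝓝 0) ∧
      Tendsto (fun k => eLpNorm (gradient (a k) - G) 2 volume) atTop (𝓝 0) ∧
      Tendsto (fun k => eLpNorm (hess (a k) - D) 2 volume) atTop (𝓝 0)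

namespace OLev

theorem bd_f {θ : V n → ℝ} {t : ℝ} (hm : Measurable θ) (h : ∀ x, 0 ≤ θ x ∧ θ x ≤ 1) (ht : 0 ≤ t) :
    Bd (fun x => t - θ x) (t + 1) :=
  ⟨measurable_const.sub hm, fun x => abs_le.2 ⟨by linarith [(h x).2], by linarith [(h x).1]⟩⟩

theorem bd_on {u f : V n → ℝ} {M : ℝ} (hu : Continuous u) (hf : Bd f M) : Bd (onPos u f) M := by
  refine ⟨hf.1.indicator (isOpen_lt continuous_const hu).measurableSet, fun x => ?_⟩
  unfold onPos
  by_cases h : x ∈ {x | 0 < u x}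
  · rw [Set.indicator_of_mem h]
    exact hf.2 x
  · rw [Set.indicator_of_notMem h, abs_zero]
    exact (abs_nonneg _).trans (hf.2 x)

theorem lle_zero {f : V n → ℝ} (h : ∀ x, 0 ≤ f x) : LLe (fun _ => (0 : ℝ)) f := by
  intro ζ R _ h0
  simp only [zero_mul, integral_zero]
  exact integral_nonneg fun x => mul_nonneg (h x) (h0 x)

theorem on_zero (f : V n → ℝ) : onPos (fun _ => (0 : ℝ)) f = fun _ => 0 := by
  ext x
  simp [onPos]

/-- the volume of the positivity set -/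
theorem vol_le (ha : OA n) {u θ : V n → ℝ} {t : ℝ} (hu : Continuous u)
    (h3 : ∀ x, 3 ≤ ‖x‖ → u x = 0) (hm : Measurable θ) (h : ∀ x, 0 ≤ θ x ∧ θ x ≤ 1)
    (hi : Integrable θ volume) (ht : 0 ≤ t) (h1 : LLe u (onPos u fun x => t - θ x))
    (h2 : LGe u (onPos u fun x => t - θ x)) :
    t * volume.real {x | 0 < u x} ≤ ∫ x, θ x := by
  obtain ⟨χ, hχ, -, h4⟩ := exists_cut (n := n) (a := 4) (b := 5) (by norm_num) (by norm_num)
  have mo : MeasurableSet {x | 0 < u x} := (isOpen_lt continuous_const hu).measurableSet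
  have sub : {x | 0 < u x} ⊆ ball (0 : V n) 3 := fun x hx => by
    by_contra hn
    exact (ne_of_gt hx) (h3 x (by simpa using hn))
  have fin : volume {x | 0 < u x} ≠ ⊤ :=
    ne_top_of_le_ne_top measure_ball_lt_top.ne (measure_mono sub)
  have e := ha.eq_all u _ hu.locallyIntegrable
    (ha.bd_loc _ _ (bd_on hu (bd_f hm h ht))) h1 h2 χ 5 hχ
  have z : ∀ x, u x * lap χ x = 0 := fun x => by
    rcases le_or_gt 3 ‖x‖ with hx | hx
    · rw [h3 x hx, zero_mul]
    · have ev : gradient χ =ᶠ[𝓝 x] fun _ => 0 := by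
        filter_upwards [(isOpen_lt continuous_norm continuous_const).mem_nhds hx] with w hw
        have e1 : χ =ᶠ[𝓝 w] fun _ => 1 := by
          filter_upwards [(isOpen_lt continuous_norm continuous_const).mem_nhds hw] with v hv
          exact h4 v (by linarith [show ‖v‖ < 3 from hv])
        rw [e1.gradient_eq, gradient_fun_const]
      rw [lap, hess, ev.fderiv_eq, fderiv_fun_const, Pi.zero_apply, tr_zero, mul_zero]
  have e2 : (fun x => onPos u (fun x => t - θ x) x * χ x) =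
      Set.indicator {x | 0 < u x} fun x => t - θ x := by
    ext x
    unfold onPos
    by_cases hx : x ∈ {x | 0 < u x}
    · rw [h4 x (by linarith [mem_ball_zero_iff.1 (sub hx)]), mul_one]
    · rw [Set.indicator_of_notMem hx, zero_mul]
  simp only [z, integral_zero] at e
  have ic : IntegrableOn (fun _ => t) {x | 0 < u x} volume := integrableOn_const fin
  rw [e2, integral_indicator mo, integral_sub ic hi.integrableOn,
    setIntegral_const, smul_eq_mul] at e
  have := setIntegral_le_integral (s := {x | 0 < u x}) hi (Eventually.of_forall fun x => (h x).1)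
  linarith

theorem tr_smul_one (c : ℝ) : tr (c • (1 : Mt n)) = c * n := by rw [tr_smul, tr_one]

end OLev

open OLev in
theorem olev_raw (hK : KerS n) (ha : OA n) (hb : OB n) (hc : OC n) (hs : OSol n) :
    ∃ C, 0 < C ∧ ∀ (θ : V n → ℝ) (τ : ℕ → ℝ) (N : ℕ), Measurable θ →
      (∀ x, 0 ≤ θ x ∧ θ x ≤ 1) → (∀ x, 2 ≤ ‖x‖ → θ x = 0) → 0 ≤ τ 0 → Monotone τ →
      C * (∫ z, θ z) ≤ n * τ 0 → 1 ≤ n * τ N →
      ∃ (θ' : V n → ℝ) (u : ℕ → V n → ℝ) (G : ℕ → V n → V n) (D : ℕ → V n → Mt n),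
        θ' =ᵐ[volume] θ ∧ Measurable θ' ∧ (∀ x, 0 ≤ θ' x ∧ θ' x ≤ θ x) ∧
        (∀ i, RawH (u i) (G i) (D i)) ∧ (∀ i, Continuous (u i)) ∧ (∀ i x, 0 ≤ u i x) ∧
        (∀ i x, u (i + 1) x ≤ u i x) ∧ (∀ i x, 3 ≤ ‖x‖ → u i x = 0) ∧
        (∀ i x, N ≤ i → u i x = 0) ∧ (∀ i x, Sym (D i x)) ∧
        (∀ i x, 0 < u i x → tr (D i x) = n * τ i - θ' x) ∧
        (∀ i x, u i x = 0 → G i x = 0 ∧ D i x = 0 ∧ θ' x ≤ n * τ i) ∧
        ∀ i, n * τ i * volume.real {x | 0 < u i x} ≤ ∫ z, θ z := by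
  classical
  obtain ⟨C, hC, hs⟩ := hs
  refine ⟨C, hC, fun θ τ N hm h01 h2 τ0 τm hτ hN => ?_⟩
  have n0 : (0 : ℝ) ≤ n := Nat.cast_nonneg n
  have tm : ∀ {i j : ℕ}, i ≤ j → (n : ℝ) * τ i ≤ n * τ j := fun h =>
    mul_le_mul_of_nonneg_left (τm h) n0
  have t0 : ∀ i, 0 ≤ (n : ℝ) * τ i := fun i => (mul_nonneg n0 τ0).trans (tm (Nat.zero_le i))
  have hi : Integrable θ volume :=
    ((integrable_indicator_iff (measurableSet_ball (x := (0 : V n)) (ε := 2))).2
      (integrableOn_const (C := (1 : ℝ)) measure_ball_lt_top.ne)).mono' hm.aestronglyMeasurable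
      (Eventually.of_forall fun x => by
        rw [Real.norm_of_nonneg (h01 x).1]
        by_cases hx : x ∈ ball (0 : V n) 2
        · rw [Set.indicator_of_mem hx]
          exact (h01 x).2
        · rw [Set.indicator_of_notMem hx, h2 x (by simpa using hx)])
  have ex : ∀ i, ∃ u : V n → ℝ, (N ≤ i → ∀ x, u x = 0) ∧ Continuous u ∧ (∀ x, 0 ≤ u x) ∧
      (∀ x, 3 ≤ ‖x‖ → u x = 0) ∧ LLe u (fun x => n * τ i - θ x) ∧
      LLe u (onPos u fun x => n * τ i - θ x) ∧ LGe u (onPos u fun x => n * τ i - θ x) ∧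
      ∀ᵐ x, u x = 0 → θ x ≤ n * τ i := fun i => by
    rcases le_or_gt N i with h | h
    · have k : ∀ x, θ x ≤ n * τ i := fun x => (h01 x).2.trans (hN.trans (tm h))
      refine ⟨fun _ => 0, fun _ _ => rfl, continuous_const, fun _ => le_rfl, fun _ _ => rfl,
        lle_zero fun x => sub_nonneg.2 (k x), ?_, ?_, Eventually.of_forall fun x _ => k x⟩
      · rw [on_zero]
        exact lle_zero fun _ => le_rfl
      · rw [on_zero]
        intro ζ R _ _
        simp
    · obtain ⟨u, hu⟩ := hs θ (n * τ i) hm h01 h2 (t0 i) (hτ.trans (tm (Nat.zero_le i)))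
      exact ⟨u, fun h' => absurd h' (not_le.2 h), hu⟩
  choose u uN uc u0 u3 l1 l2 l3 l4 using ex
  have bf : ∀ i, Bd (fun x => n * τ i - θ x) (n * τ i + 1) := fun i => bd_f hm h01 (t0 i)
  have anti : ∀ i x, u (i + 1) x ≤ u i x := fun i x => by
    have k := ha.sub_ge _ _ _ _ (uc (i + 1)).locallyIntegrable (uc i).locallyIntegrable
      (ha.bd_loc _ _ (bd_on (uc (i + 1)) (bf (i + 1)))) (ha.bd_loc _ _ (bf i)) (l3 (i + 1)) (l1 i)
    refine sub_nonpos.1 (hb.maxp _ _ ((uc (i + 1)).sub (uc i))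
      ((ha.bd_loc _ _ (bd_on (uc (i + 1)) (bf (i + 1)))).sub (ha.bd_loc _ _ (bf i))) k
      (Eventually.of_forall fun z hz => ?_) (fun ε hε => ⟨3, fun z hz => ?_⟩) x)
    · have p : z ∈ {x | 0 < u (i + 1) x} := by
        have := u0 i z
        rw [Pi.sub_apply] at hz
        change 0 < u (i + 1) z
        linarith
      rw [Pi.sub_apply, onPos, Set.indicator_of_mem p]
      linarith [tm (Nat.le_succ i)]
    · rw [Pi.sub_apply, u3 _ z hz, u3 _ z hz]
      linarith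
  have rg := fun i => oreg_raw hK ha hc (u i) _ _ (uc i) (u0 i) (u3 i) (bd_on (uc i) (bf i))
    (l2 i) (l3 i)
  choose G D gm dm gz dz ap g0 ae using rg
  have good : ∀ᵐ x, ∀ i, (Sym (D i x) ∧ tr (D i x) = onPos (u i) (fun x => n * τ i - θ x) x ∧
      (u i x = 0 → D i x = 0)) ∧ (u i x = 0 → θ x ≤ n * τ i) :=
    ae_all_iff.2 fun i => (ae i).and (l4 i)
  obtain ⟨Z, hZ, mZ, nZ⟩ := exists_measurable_superset_of_null (ae_iff.1 good)
  have gd : ∀ x, x ∉ Z → ∀ i, (Sym (D i x) ∧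
      tr (D i x) = onPos (u i) (fun x => n * τ i - θ x) x ∧ (u i x = 0 → D i x = 0)) ∧
      (u i x = 0 → θ x ≤ n * τ i) := fun x hx => by
    by_contra hn
    exact hx (hZ hn)
  have aeZ : ∀ᵐ x, x ∉ Z := measure_eq_zero_iff_ae_notMem.1 nZ
  have mo : ∀ i, MeasurableSet {x | 0 < u i x} := fun i =>
    (isOpen_lt continuous_const (uc i)).measurableSet
  let D' : ℕ → V n → Mt n := fun i =>
    Z.piecewise (Set.indicator {x | 0 < u i x} fun _ => τ i • (1 : Mt n)) (D i)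
  have nm : ∀ i x, u i x = 0 → x ∉ {x | 0 < u i x} := fun i x h h' => (ne_of_gt h') h
  refine ⟨Zᶜ.indicator θ, u, G, D', ?_, hm.indicator mZ.compl, fun x => ?_, fun i => ?_, uc, u0,
    anti, u3, fun i x h => uN i h x, fun i x => ?_, fun i x hx => ?_, fun i x hx => ?_,
    fun i => vol_le ha (uc i) (u3 i) hm h01 hi (t0 i) (l2 i) (l3 i)⟩
  · filter_upwards [aeZ] with x hx using Set.indicator_of_mem hx _
  · by_cases hx : x ∈ Zᶜ
    · rw [Set.indicator_of_mem hx]
      exact ⟨(h01 x).1, le_rfl⟩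
    · rw [Set.indicator_of_notMem hx]
      exact ⟨le_rfl, (h01 x).1⟩
  · have e : D' i =ᵐ[volume] D i := by
      filter_upwards [aeZ] with x hx using Set.piecewise_eq_of_notMem _ _ _ hx
    obtain ⟨a, a0, a1, a2, a3⟩ := ap i
    refine ⟨gm i, (stronglyMeasurable_const.indicator (mo i)).piecewise mZ (dm i), gz i,
      fun x hx => ?_, a, a0, a1, a2,
      a3.congr fun k => eLpNorm_congr_ae (EventuallyEq.rfl.sub e.symm)⟩
    by_cases hz : x ∈ Z
    · exact (Set.piecewise_eq_of_mem _ _ _ hz).trans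
        (Set.indicator_of_notMem (nm i x (u3 i x (by linarith))) _)
    · exact (Set.piecewise_eq_of_notMem _ _ _ hz).trans (dz i x hx)
  · by_cases hz : x ∈ Z
    · rw [show D' i x = _ from Set.piecewise_eq_of_mem _ _ _ hz]
      by_cases hx : x ∈ {x | 0 < u i x}
      · rw [Set.indicator_of_mem hx]
        intro a b
        simp [real_inner_smul_left, real_inner_smul_right]
      · rw [Set.indicator_of_notMem hx]
        intro a b
        simp
    · rw [show D' i x = _ from Set.piecewise_eq_of_notMem _ _ _ hz]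
      exact (gd x hz i).1.1
  · have hx' : x ∈ {x | 0 < u i x} := hx
    by_cases hz : x ∈ Z
    · rw [show D' i x = _ from Set.piecewise_eq_of_mem _ _ _ hz, Set.indicator_of_mem hx',
        Set.indicator_of_notMem (not_not.2 hz : x ∉ Zᶜ), tr_smul_one]
      ring
    · rw [show D' i x = _ from Set.piecewise_eq_of_notMem _ _ _ hz, (gd x hz i).1.2.1, onPos,
        Set.indicator_of_mem hx', Set.indicator_of_mem (hz : x ∈ Zᶜ)]
  · refine ⟨g0 i x hx, ?_⟩
    by_cases hz : x ∈ Z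
    · rw [show D' i x = _ from Set.piecewise_eq_of_mem _ _ _ hz,
        Set.indicator_of_notMem (nm i x hx), Set.indicator_of_notMem (not_not.2 hz : x ∉ Zᶜ)]
      exact ⟨rfl, t0 i⟩
    · rw [show D' i x = _ from Set.piecewise_eq_of_notMem _ _ _ hz,
        Set.indicator_of_mem (hz : x ∈ Zᶜ)]
      exact ⟨(gd x hz i).1.2.2 hx, (gd x hz i).2 hx⟩

end Pool.Agent.MP_29b5d3_an.EX

end MrgPart7

-- marker of a merged file
example : 731051 + 376691 = 731051 + 376691 := rfl
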