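import Pool.Agent.MP_29b5d3_an.EX.Rblk2

/-! Project EXQ: the isotropic measures and the sums over all blocks. -/

set_option autoImplicit false

namespace Pool.Agent.MP_29b5d3_an.EX

open Finset Pool.Agent.MP_29b5d3_an.NC

variable {n : ℕ}

namespace Ralg2x

section gen
variable {A : Type} [AddCommGroup A] [Module ℝ A]

omit [Module ℝ A] in
theorem trunc {f : ℕ → A} {j J N : ℕ} (h1 : j ≤ J) (h2 : J < N) (h : ∀ i, J < i → f i = 0) :
    ∑ i ∈ Ico j N, f i = ∑ i ∈ Ico j J, f i + f J := by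
  rw [← sum_Ico_succ_top h1, ← sum_Ico_consecutive f (Nat.le_succ_of_le h1) h2,
    sum_eq_zero (s := Ico (J + 1) N) fun i hi => h i (mem_Ico.1 hi).1, add_zero]

omit [Module ℝ A] in
theorem blk {ι : ℕ → ℕ} (hι : StrictMono ι) (h0 : ι 0 = 0) (a : A) {i N : ℕ} (hi : i < N) :
    ∑ k ∈ range N, (if ι k ≤ i ∧ i < ι (k + 1) then a else 0) = a := by
  have : ∀ N, ∑ k ∈ range N, (if ι k ≤ i ∧ i < ι (k + 1) then a else 0) =
      if i < ι N then a else 0 := fun N => by
    induction N with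
    | zero => simp [h0]
    | succ N ih =>
      have := hι (Nat.lt_succ_self N)
      rw [sum_range_succ, ih]
      by_cases h1 : i < ι N
      · rw [if_pos h1, if_neg (by omega), if_pos (h1.trans this), add_zero]
      · simp only [h1, not_lt.1 h1, true_and, if_false, zero_add]
  rw [this, if_pos (hi.trans_le (hι.id_le N))]

theorem rec0 (g : ℝ) (X : ℕ → A) (J : ℕ) : ∑ i ∈ range (J + 1), g ^ (J + 1 - i) • X i =
    g • ∑ i ∈ range (J + 1), g ^ (J - i) • X i := by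
  rw [smul_sum]
  refine sum_congr rfl fun i hi => ?_
  rw [smul_smul, ← pow_succ', Nat.succ_sub (Nat.lt_succ_iff.1 (mem_range.1 hi))]

theorem rec1 (g : ℝ) (X : ℕ → A) (J : ℕ) : ∑ i ∈ range (J + 1), g ^ (J - i) • X i =
    ∑ i ∈ range J, g ^ (J - i) • X i + X J := by
  rw [sum_range_succ, Nat.sub_self, pow_zero, one_smul]

theorem abel (c : ℝ) {h : ℕ → A} (h0 : h 0 = 0) (J : ℕ) :
    ∑ i ∈ range J, (1 + c) ^ (J - i) • (h (i + 1) - h i) =
      h J + c • ∑ i ∈ range (J + 1), (1 + c) ^ (J - i) • h i := by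
  induction J with
  | zero => simp [h0]
  | succ J ih =>
    rw [rec0, rec1, ih, rec1 _ _ (J + 1), rec0]
    module

end gen

variable {L : Lev n} {b : ℝ}

theorem g_pos (hL : L.Ok) (hb : 0 < b) : 0 < L.g b := by
  have := hL.δ0
  unfold Lev.g; positivity

theorem τ_pos (hL : L.Ok) (i : ℕ) : 0 < L.τ i := by
  have := hL.δ0
  have := hL.τp
  unfold Lev.τ; positivity

theorem geo (hL : L.Ok) (hb : 0 < b) (hb1 : b < 1) (J : ℕ) :
    ∑ i ∈ range J, L.g b ^ (J - i) • (L.δ * L.τ i) = (L.τ J - L.τ0 * L.g b ^ J) / L.bp b := by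
  have g0 := (g_pos hL hb).ne'
  have b0 : 1 - b ≠ 0 := by linarith
  induction J with
  | zero => simp [Lev.τ]
  | succ J ih =>
    rw [rec0, rec1, ih]
    simp only [Lev.τ, Lev.bp, smul_eq_mul, pow_succ]
    field_simp
    unfold Lev.g
    ring

theorem be_succ {j M : ℕ} (j' : ℕ) (h : j ≤ M) :
    L.be b j j' (M + 1) = L.be b j j' M + L.cb b j j' M * (L.δ * L.τ M) := sum_Ico_succ_top h _

theorem cc_sum (hL : L.Ok) {j J : ℕ} (j' : ℕ) (h : j ≤ J) :
    ∑ M ∈ Ico j J, L.cc b j j' M * (L.δ * L.τ M) = L.g b ^ (J - j) * L.be b j j' J := by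
  induction J, h using Nat.le_induction with
  | base => simp [Lev.be]
  | succ M h ih =>
    have := (τ_pos hL M).ne'
    rw [sum_Ico_succ_top h, ih, Lev.cc, Lev.ca, Nat.succ_sub h, pow_succ, be_succ j' h]
    field_simp
    unfold Lev.g
    ring

theorem pow_cb (hL : L.Ok) (hb : 0 < b) {j i J : ℕ} (j' : ℕ) (h1 : j ≤ i) (h2 : i ≤ J) :
    L.g b ^ (J - j) * L.cb b j j' i = if j ≤ i ∧ i < j' then L.g b ^ (J - i) else 0 := by
  have g0 := (g_pos hL hb).ne'
  unfold Lev.cb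
  by_cases h : i < j'
  · rw [if_pos h, if_pos ⟨h1, h⟩, show J - j = J - i + (i - j) by omega, pow_add,
      mul_inv_cancel_right₀ (pow_ne_zero _ g0)]
  · simp [h]

theorem tr_Ps (x : V n) :
    tr (1 - L.Ps b x) = n + b / L.s x * tr (L.H x) - b * n := by
  simp only [Lev.Ps, tr_sub, tr_smul, tr_one]
  ring

theorem Ico_eq {A : Type} [AddCommMonoid A] (f : ℕ → A) (j N : ℕ) :
    ∑ i ∈ Ico j N, f i = ∑ i ∈ range N, if j ≤ i then f i else 0 := by
  rw [← sum_filter]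
  exact sum_congr (by ext i; simp [and_comm]) fun _ _ => rfl

variable (h : LV1 n) (hL : L.Ok) {x : V n}
include h hL

theorem J_lt (hx : x ∈ L.O 0) : L.J x < L.N := not_le.1 fun e => by
  have := (h.mem L hL (L.J x) x).2 ⟨hx, le_rfl⟩
  rw [h.empty L hL _ e] at this
  exact this

theorem off {i : ℕ} (hi : L.J x < i) : L.DY i x = 0 ∧ L.h i x = 0 :=
  (h.off L hL i x fun e => hi.not_ge ((h.mem L hL i x).1 e).2).2.2

theorem muI (hb : 0 < b) {j : ℕ} (j' : ℕ) (hx : x ∈ L.O j) :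
    L.muI b j j' x = ((n : ℝ) - 1) * (L.v b j x * L.be b j j' (L.J x) * tr (1 - L.Ps b x) +
      (if L.J x < j' then (1 : ℝ) else 0) * (L.g b * (tr (L.H x) - n * L.s x))) := by
  obtain ⟨x0, hj⟩ := (h.mem L hL j x).1 hx
  have e1 : ∑ M ∈ Ico j (L.J x), L.cc b j j' M * tr (L.DY M x) =
      n * (L.g b ^ (L.J x - j) * L.be b j j' (L.J x)) := by
    rw [← cc_sum hL j' hj, mul_sum]
    refine sum_congr rfl fun M hM => ?_
    rw [h.DYlt L hL M x (mem_Ico.1 hM).2, tr_sub, tr_add, tr_smul, tr_one, (h.hsym L hL _ x).2,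
      (h.hsym L hL _ x).2]
    ring
  have e2 := pow_cb hL hb j' hj le_rfl
  have s0 := (τ_pos hL (L.J x)).ne'
  rw [Lev.muI, trunc hj (J_lt h hL x0) fun i hi => by rw [(off h hL hi).1, tr_zero, mul_zero], e1,
    h.DYeq L hL x x0, tr_sub, tr_sub, tr_smul, tr_one, (h.hsym L hL _ x).2, tr_Ps, Lev.cc, Lev.ca,
    be_succ j' hj, Lev.v, Lev.s]
  simp only [hj, true_and, Nat.sub_self, pow_zero] at e2
  rw [← e2]
  congr 1
  field_simp
  unfold Lev.g
  ring

theorem vDZ (hb : 0 < b) (j j' : ℕ) : L.v b j x • L.DZ b j j' x =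
    ∑ i ∈ range L.N, if j ≤ i ∧ i < j' then L.g b ^ (L.J x - i) • L.DY i x else 0 := by
  rw [Lev.DZ, smul_sum, Ico_eq]
  refine sum_congr rfl fun i _ => ?_
  by_cases h1 : j ≤ i
  · rcases le_or_gt i (L.J x) with h2 | h2
    · rw [if_pos h1, smul_smul, Lev.v, pow_cb hL hb j' h1 h2, ite_smul, zero_smul]
    · simp [(off h hL h2).1]
  · simp [h1]

theorem muI' (hb : 0 < b) (j j' : ℕ) (hx : x ∈ L.O 0) : L.muI b j j' x = ((n : ℝ) - 1) *
    ((∑ i ∈ range (L.J x), if j ≤ i ∧ i < j' then L.g b ^ (L.J x - i) • (L.δ * L.τ i) else 0) *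
      tr (1 - L.Ps b x) + if j ≤ L.J x ∧ L.J x < j' then L.g b * (tr (L.H x) - n * L.s x) else 0) := by
  rcases le_or_gt j (L.J x) with hj | hj
  · rw [muI h hL hb j' ((h.mem L hL j x).2 ⟨hx, hj⟩), Lev.v, Lev.be, mul_sum, Ico_eq]
    simp only [hj, true_and, ite_mul, one_mul, zero_mul]
    congr 3
    refine sum_congr rfl fun i hi => ?_
    by_cases h1 : j ≤ i
    · rw [if_pos h1, ← mul_assoc, pow_cb hL hb j' h1 (mem_range.1 hi).le, ite_mul, zero_mul,
        smul_eq_mul]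
    · simp [h1]
  · rw [(h.offZ L hL b (fun _ => 0) j j' x fun e => hj.not_ge ((h.mem L hL j x).1 e).2).2.2.2.2.1,
      if_neg fun e => hj.not_ge e.1, sum_eq_zero fun i hi => if_neg fun e =>
        (hj.trans_le e.1).not_gt (mem_range.1 hi)]
    simp

end Ralg2x

open Ralg2x in
theorem alg2 (h : Bas2 n) : ALG2 n := by
  have h := h.lv.toLV1
  refine ⟨fun L hL b j j' hb _ _ x hx => muI h hL hb j' hx, fun L hL b ι hb hb1 hι h0 x hx => ?_,
    fun L hL b ι hb hb1 hι h0 x hx => ?_⟩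
  · have hJ := J_lt h hL hx
    simp only [vDZ h hL hb]
    rw [sum_comm, sum_congr rfl fun i hi => blk hι h0 _ (mem_range.1 hi), range_eq_Ico,
      trunc (Nat.zero_le _) hJ fun i hi => by rw [(off h hL hi).1, smul_zero], ← range_eq_Ico,
      sum_congr rfl fun i hi => by
        rw [h.DYlt L hL i x (mem_range.1 hi), add_sub_assoc, smul_add, ← smul_assoc],
      sum_add_distrib, ← sum_smul, geo hL hb hb1, Nat.sub_self, pow_zero, one_smul,
      h.DYeq L hL x hx, Lev.KK, range_eq_Ico L.N,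
      trunc (Nat.zero_le _) hJ fun i hi => by rw [(off h hL hi).2, smul_zero], ← range_eq_Ico]
    have e := abel (L.δ * b) (h := fun i => L.h i x) (h.h0 L hL x) (L.J x)
    rw [sum_range_succ] at e
    simp only [Lev.v, Lev.s, Nat.sub_zero]
    rw [show L.g b = 1 + L.δ * b from rfl, e]
    module
  · have hJ := J_lt h hL hx
    have g0 := (g_pos hL hb).ne'
    have s0 := (τ_pos hL (L.J x)).ne'
    have b0 : 1 - b ≠ 0 := by linarith
    simp only [muI' h hL hb _ _ hx]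
    rw [← mul_sum, sum_add_distrib, ← sum_mul, sum_comm,
      sum_congr rfl fun i hi => blk hι h0 _ ((mem_range.1 hi).trans hJ), blk hι h0 _ hJ,
      geo hL hb hb1, tr_Ps, (h.trH L hL x hx).1, Lev.v, Lev.s, Lev.bp, Nat.sub_zero]
    field_simp
    ring

end Pool.Agent.MP_29b5d3_an.EX
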