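import Pool.Agent.MP_29b5d3_an.EX.Rblk2

/-! Project EXQ: the slack inequality of the obstacle family. -/

set_option autoImplicit false

namespace Pool.Agent.MP_29b5d3_an.EX

open MeasureTheory Metric Filter Topology Module Pool.Agent.MP_29b5d3_an.NC
open scoped RealInnerProductSpace ContDiff ENNReal

variable {n : ℕ}

namespace B2x

theorem tau_succ (L : Lev n) (i : ℕ) : L.τ (i + 1) = L.τ i * (1 + L.δ) := by
  rw [Lev.τ, Lev.τ, pow_succ, mul_assoc]

theorem tau_zero (L : Lev n) : L.τ 0 = L.τ0 := by rw [Lev.τ, pow_zero, mul_one]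

/-- the weights telescope -/
theorem tele {τ G : ℕ → ℝ} {δ c E : ℝ} {J : ℕ} (hδ : 0 < δ) (h0 : ∀ i, 0 < τ i)
    (hs : ∀ i, τ (i + 1) = τ i * (1 + δ)) (h1 : ∀ j ≤ J, G j ≤ c * τ j ^ 2)
    (h2 : ∀ j, J < j → G j = E) {N : ℕ} (hN : J < N) :
    ∑ j ∈ Finset.range N, δ / τ j * G j + (1 + δ) / τ N * E ≤
      c * (τ J * (1 + δ) - τ 0) + E / τ J := by
  have k1 : ∀ M, M ≤ J + 1 → ∑ j ∈ Finset.range M, δ / τ j * G j ≤ c * (τ M - τ 0) := by
    intro M
    induction M with
    | zero => intro _; simp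
    | succ M ih =>
      intro hM
      have a1 := ih (by omega)
      have a2 : δ / τ M * G M ≤ δ / τ M * (c * τ M ^ 2) :=
        mul_le_mul_of_nonneg_left (h1 M (by omega)) (div_pos hδ (h0 M)).le
      have a3 : δ / τ M * (c * τ M ^ 2) = c * (δ * τ M) := by
        have := (h0 M).ne'
        field_simp
      rw [Finset.sum_range_succ, hs]
      linarith
  have k2 : ∀ i, (1 + δ) / τ (i + 1) = 1 / τ i := fun i => by
    have := (h0 i).ne'
    rw [hs]
    field_simp
  induction N, hN using Nat.le_induction with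
  | base =>
    have := k1 (J + 1) le_rfl
    rw [Nat.succ_eq_add_one, k2, ← hs, one_div_mul_eq_div]
    linarith
  | succ N hN ih =>
    rw [Finset.sum_range_succ, k2, h2 N hN]
    have : δ / τ N * E + 1 / τ N * E = (1 + δ) / τ N * E := by ring
    linarith

/-- the null Lagrangian of a difference of two levels -/
noncomputable def nl (L : Lev n) (j : ℕ) (x : V n) : ℝ :=
  hs (T1 (L.D j x - L.D 0 x)) (L.D j x - L.D 0 x)

theorem null_add (X : Mt n) (c : ℝ) : hs (T1 (X + c • 1)) (X + c • 1) =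
    (tr X + c * n) ^ 2 - (hs X X + 2 * c * tr X + c ^ 2 * n) := by
  rw [hs_T1]
  simp only [tr_add, tr_smul, tr_one, hs_add_left, hs_add_right, hs_smul_left,
    hs_smul_right, hs_one_left, hs_one_right]
  ring

theorem nl_int (h : Bas2 n) {L : Lev n} (hL : L.Ok) (j : ℕ) :
    Integrable (nl L j) volume ∧ ∫ x, nl L j x = 0 :=
  have k := h.h2a.sub _ _ _ _ _ _ (hL.h2 j) (hL.h2 0)
  h.h2b.null _ _ _ _ (h.h2a.cf _ _ _ k) k

theorem nl_off (h : Bas2 n) {L : Lev n} (hL : L.Ok) (j : ℕ) {x : V n} (hx : x ∉ L.O 0) :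
    nl L j x = 0 := by
  have hj : x ∉ L.O j := fun e => hx (h.lv.anti L hL (Nat.zero_le j) e)
  rw [nl, (hL.off j x hj).2.1, (hL.off 0 x hx).2.1, sub_zero, hs_zero_right]

theorem scalar {m w t s q A : ℝ} (hm : 3 ≤ m) (w0 : 0 ≤ w) (w1 : w ≤ m * (q * s)) (t0 : 0 < t)
    (ts : t ≤ s) (q2 : q ≤ 2) :
    (A - w ^ 2 / m) / s + ((w + -t * m) ^ 2 - (A + 2 * -t * w + (-t) ^ 2 * m)) / s ≤
      m * (m - 1) * t + 2 * m * w := by
  have s0 : 0 < s := t0.trans_le ts
  have m0 : 0 < m := by linarith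
  rw [← add_div, div_le_iff₀ s0]
  have a1 : 0 ≤ w ^ 2 / m := by positivity
  have a2 : w ^ 2 ≤ 2 * m * w * s := by
    have : m * (q * s) ≤ m * (2 * s) := by gcongr
    nlinarith
  have a3 : m * (m - 1) * t * t ≤ m * (m - 1) * t * s :=
    mul_le_mul_of_nonneg_left ts (mul_nonneg (mul_nonneg m0.le (by linarith)) t0.le)
  have a4 : 0 ≤ (m - 1) * (t * w) := mul_nonneg (by linarith) (by positivity)
  nlinarith

/-- the pointwise inequality -/
theorem point (h : Bas2 n) {L : Lev n} (hL : L.Ok) {x : V n} (hx : x ∈ L.O 0) :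
    (hs (L.H x) (L.H x) - tr (L.H x) ^ 2 / n) / L.s x +
        ∑ j ∈ Finset.range L.N, L.δ / L.τ j * ‖L.h j x‖ ^ 2 +
        (∑ j ∈ Finset.range L.N, L.δ / L.τ j * nl L j x + (1 + L.δ) / L.τ L.N * nl L L.N x) ≤
      n * ((n : ℝ) - 1) * (1 + L.δ) * L.s x + 2 * n * L.θ x := by
  have hn : (3 : ℝ) ≤ n := by exact_mod_cast h.hn
  have tp := h.lv.τpos L hL
  have hN : L.J x < L.N := by
    have a1 := h.lv.Jle L hL x
    have a2 : L.N ≠ 0 := fun e => by
      rw [h.lv.empty L hL 0 e.le] at hx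
      exact hx
    omega
  have hout : ∀ j, L.J x < j → x ∉ L.O j := fun j hj e =>
    absurd ((h.lv.mem L hL j x).1 e).2 (by omega)
  have hE : ∀ j, L.J x < j → nl L j x = (tr (L.H x) + -L.τ0 * n) ^ 2 -
      (hs (L.H x) (L.H x) + 2 * -L.τ0 * tr (L.H x) + (-L.τ0) ^ 2 * n) := fun j hj => by
    have e : L.D j x - L.D 0 x = L.H x + (-L.τ0) • (1 : Mt n) := by
      rw [(hL.off j x (hout j hj)).2.1, Lev.H]
      module
    rw [nl, e, null_add]
  have k := tele (τ := L.τ) (G := fun j => ‖L.h j x‖ ^ 2 + nl L j x) (c := n * ((n : ℝ) - 1))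
    (J := L.J x) hL.δ0 tp (tau_succ L) (fun j hj => ?_)
    (fun j hj => by
      rw [(h.lv.off L hL j x (hout j hj)).2.2.2, norm_zero, hE j hj, sq, zero_mul, zero_add]) hN
  · obtain ⟨e1, e2⟩ := h.lv.trH L hL x hx
    have t1 : L.τ0 ≤ L.s x := by
      rw [← tau_zero]
      exact h.lv.τmono L hL (Nat.zero_le _)
    have k2 := scalar (A := hs (L.H x) (L.H x)) hn (hL.θ0 x) e2 hL.τp t1
      (by linarith [hL.δ1])
    simp only [mul_add, Finset.sum_add_distrib] at k
    rw [← hE _ hN, tau_zero] at k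
    rw [← e1, ← hE _ hN] at k2
    rw [← e1]
    have : L.τ (L.J x) = L.s x := rfl
    rw [this] at k
    have k3 : (hs (L.H x) (L.H x) - tr (L.H x) ^ 2 / n) / L.s x + nl L L.N x / L.s x ≤
      n * ((n : ℝ) - 1) * L.τ0 + 2 * n * tr (L.H x) := k2
    nlinarith
  · have hj' : x ∈ L.O j := (h.lv.mem L hL j x).2 ⟨hx, hj⟩
    have e : L.D j x - L.D 0 x = L.h j x + (L.τ j - L.τ0) • (1 : Mt n) := by
      rw [Lev.h, Set.indicator_of_mem hj', Lev.H]
      module
    have t1 : L.τ0 ≤ L.τ j := by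
      rw [← tau_zero]
      exact h.lv.τmono L hL (Nat.zero_le _)
    have t2 : (L.τ j - L.τ0) ^ 2 ≤ L.τ j ^ 2 := by nlinarith [hL.τp]
    have t3 := mul_le_mul_of_nonneg_left t2
      (mul_nonneg (by linarith : (0 : ℝ) ≤ n) (by linarith : (0 : ℝ) ≤ n - 1))
    change ‖L.h j x‖ ^ 2 + nl L j x ≤ _
    rw [nl, e, null_add, (h.lv.hsym L hL j x).2]
    nlinarith [sq_le_hs (L.h j x)]

theorem int_sq {F : V n → Mt n} {μ : Measure (V n)} (hF : MemLp F 2 μ) :
    Integrable (fun x => ‖F x‖ ^ 2) μ := MemLp.integrable_norm_pow (p := 2) hF two_ne_zero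

theorem kk_eq (h : Bas2 n) {L : Lev n} (hL : L.Ok) :
    L.kk = ENNReal.ofReal (∑ j ∈ Finset.range L.N, L.δ / L.τ j * ∫ x, ‖L.h j x‖ ^ 2) := by
  have w0 : ∀ j, 0 ≤ L.δ / L.τ j := fun j => (div_pos hL.δ0 (h.lv.τpos L hL j)).le
  rw [Lev.kk, ENNReal.ofReal_sum_of_nonneg fun j _ =>
    mul_nonneg (w0 j) (integral_nonneg fun _ => sq_nonneg _)]
  refine Finset.sum_congr rfl fun j _ => ?_
  rw [ENNReal.ofReal_mul (w0 j), ofReal_integral_eq_lintegral_ofReal (int_sq (h.lv.hlp L hL j))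
    (Eventually.of_forall fun _ => sq_nonneg _)]
  simp only [ENNReal.ofReal_pow (norm_nonneg _), ofReal_norm]

end B2x

open B2x in
theorem b2 (h : Bas2 n) : B2 n := by
  have hn : (3 : ℝ) ≤ n := by exact_mod_cast h.hn
  refine ⟨2 * n, by linarith, fun L hL => ?_⟩
  have mO : MeasurableSet (L.O 0) := (h.lv.opn L hL 0).measurableSet
  have fO : volume (L.O 0) < ⊤ := (hL.vol 0).trans_lt ENNReal.ofReal_lt_top
  have : IsFiniteMeasure (volume.restrict (L.O 0)) := ⟨by rwa [Measure.restrict_apply_univ]⟩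
  have tp := h.lv.τpos L hL
  have ms : Measurable L.s := (h.lv.ms L hL 0 0 0).1
  have mH : StronglyMeasurable L.H := (h.lv.mM L hL 0 0).1
  have t1 : ∀ x, L.τ0 ≤ L.s x := fun x => by
    rw [← tau_zero]
    exact h.lv.τmono L hL (Nat.zero_le _)
  have i1 : IntegrableOn L.s (L.O 0) volume :=
    (integrable_const (L.τ (L.N - 1))).mono' ms.aestronglyMeasurable
      (Eventually.of_forall fun x => by
        rw [Real.norm_of_nonneg (hL.τp.trans_le (t1 x)).le]
        exact h.lv.τmono L hL (h.lv.Jle L hL x))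
  have lH : MemLp L.H 2 (volume.restrict (L.O 0)) :=
    (memLp_const _).sub ((h.h2a.lp _ _ _ (hL.h2 0)).2.2.restrict _)
  have i2 : IntegrableOn (fun x => (hs (L.H x) (L.H x) - tr (L.H x) ^ 2 / n) / L.s x) (L.O 0)
      volume := by
    have m1 : Measurable fun x => hs (L.H x) (L.H x) :=
      (continuous_hs.comp_stronglyMeasurable (mH.prodMk mH)).measurable
    have m2 : Measurable fun x => tr (L.H x) :=
      (continuous_tr.comp_stronglyMeasurable mH).measurable
    refine ((int_sq lH).const_mul (2 * n / L.τ0)).mono'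
      ((m1.sub ((m2.pow_const 2).div_const _)).div ms).aestronglyMeasurable
      (Eventually.of_forall fun x => ?_)
    have a1 := abs_hs_le (L.H x) (L.H x)
    have a2 : tr (L.H x) ^ 2 / n ≤ n * ‖L.H x‖ ^ 2 := by
      rw [div_le_iff₀ (by linarith), ← sq_abs]
      have := pow_le_pow_left₀ (abs_nonneg _) (abs_tr_le (L.H x)) 2
      nlinarith
    have a3 : 0 ≤ tr (L.H x) ^ 2 / n := by positivity
    have a4 : |hs (L.H x) (L.H x) - tr (L.H x) ^ 2 / n| ≤ 2 * n * ‖L.H x‖ ^ 2 := by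
      have := abs_le.1 a1
      rw [abs_le]
      constructor <;> nlinarith
    have s0 : 0 < L.s x := tp _
    rw [Real.norm_eq_abs, abs_div, abs_of_pos s0, div_mul_eq_mul_div]
    exact div_le_div₀ (by positivity) a4 hL.τp (t1 x)
  have iθ : Integrable L.θ volume := by
    refine (integrableOn_iff_integrable_of_support_subset (s := ball (0 : V n) 3)
      fun x hx => ?_).1 ?_
    · by_contra hb
      exact hx (hL.θs x (by simpa using hb))
    · exact Measure.integrableOn_of_bounded (M := 1) measure_ball_lt_top.ne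
        hL.mθ.aestronglyMeasurable (Eventually.of_forall fun x => by
          rw [Real.norm_of_nonneg (hL.θ0 x)]
          exact hL.θ1 x)
  have ih : ∀ j, Integrable (fun x => ‖L.h j x‖ ^ 2) volume := fun j => int_sq (h.lv.hlp L hL j)
  have i3 : Integrable (fun x => ∑ j ∈ Finset.range L.N, L.δ / L.τ j * ‖L.h j x‖ ^ 2) volume :=
    integrable_finsetSum _ fun j _ => (ih j).const_mul _
  have i4 : Integrable (fun x => ∑ j ∈ Finset.range L.N, L.δ / L.τ j * nl L j x) volume :=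
    integrable_finsetSum _ fun j _ => (nl_int h hL j).1.const_mul _
  have i5 : Integrable (fun x => (1 + L.δ) / L.τ L.N * nl L L.N x) volume :=
    (nl_int h hL _).1.const_mul _
  have z1 : ∀ j, ∫ x in L.O 0, nl L j x = 0 := fun j => by
    rw [setIntegral_eq_integral_of_forall_compl_eq_zero fun x hx => nl_off h hL j hx]
    exact (nl_int h hL j).2
  have z2 : ∀ j, ∫ x in L.O 0, ‖L.h j x‖ ^ 2 = ∫ x, ‖L.h j x‖ ^ 2 := fun j =>
    setIntegral_eq_integral_of_forall_compl_eq_zero fun x hx => by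
      rw [(h.lv.off L hL j x fun e => hx (h.lv.anti L hL (Nat.zero_le j) e)).2.2.2, norm_zero,
        sq, zero_mul]
  have z3 : ∫ x in L.O 0, L.θ x ≤ L.m :=
    (setIntegral_le_integral iθ (Eventually.of_forall hL.θ0)).trans hL.mass
  have k := setIntegral_mono_on ((i2.add i3.integrableOn).add (i4.add i5).integrableOn)
    ((i1.const_mul (n * ((n : ℝ) - 1) * (1 + L.δ))).add (iθ.integrableOn.const_mul (2 * n))) mO
    fun x hx => point h hL hx
  rw [integral_add' (i2.add i3.integrableOn) (i4.add i5).integrableOn,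
    integral_add' i2 i3.integrableOn, integral_add' i4.integrableOn i5.integrableOn,
    integral_add' (i1.const_mul _) (iθ.integrableOn.const_mul _),
    integral_finsetSum _ fun j _ => ((ih j).const_mul _).integrableOn,
    integral_finsetSum _ fun j _ => ((nl_int h hL j).1.const_mul _).integrableOn] at k
  simp only [integral_const_mul, z1, z2, mul_zero, Finset.sum_const_zero, add_zero] at k
  refine ⟨by rw [kk_eq h hL]; exact ENNReal.ofReal_ne_top, i1, i2, ?_⟩
  rw [kk_eq h hL, ENNReal.toReal_ofReal (Finset.sum_nonneg fun j _ =>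
    mul_nonneg (div_pos hL.δ0 (tp j)).le (integral_nonneg fun _ => sq_nonneg _))]
  have := mul_le_mul_of_nonneg_left z3 (by linarith : (0 : ℝ) ≤ 2 * n)
  linarith

end Pool.Agent.MP_29b5d3_an.EX
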