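import Pool.Agent.MP_29b5d3_an.EX.Rblk2

/-! Project EXQ: the pairing of the strain with the traceless remainder. -/

set_option autoImplicit false

namespace Pool.Agent.MP_29b5d3_an.EX

open MeasureTheory Metric Filter Topology Module Pool.Agent.MP_29b5d3_an.NC
open scoped RealInnerProductSpace ContDiff ENNReal

variable {n : ℕ}

namespace Rb3x

theorem am1 {b G p y τ W : ℝ} (hτ : 0 < τ) (hW : 1 ≤ W) (hG : G ^ 2 ≤ W) :
    b * G * p * y ≤ W⁻¹ * (τ * W ^ 4 * p ^ 2) + b ^ 2 * (y ^ 2 / τ) := by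
  have W0 : 0 < W := by linarith
  have a1 : b * G * p * y ≤ G ^ 2 * τ * p ^ 2 + b ^ 2 * (y ^ 2 / τ) := by
    have e : b ^ 2 * (y ^ 2 / τ) = τ * (b * y / τ) ^ 2 := by field_simp
    have e' : b * G * p * y = τ * ((G * p) * (b * y / τ)) := by field_simp
    rw [e, e']
    nlinarith [mul_nonneg hτ.le (sq_nonneg (G * p - b * y / τ)),
      mul_nonneg hτ.le (sq_nonneg (G * p)), mul_nonneg hτ.le (sq_nonneg (b * y / τ))]
  have a2 : W⁻¹ * (τ * W ^ 4 * p ^ 2) = W ^ 3 * τ * p ^ 2 := by field_simp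
  have a3 : G ^ 2 ≤ W ^ 3 := hG.trans (le_self_pow₀ hW (by norm_num))
  have a4 : G ^ 2 * τ * p ^ 2 ≤ W ^ 3 * τ * p ^ 2 := by gcongr
  linarith

theorem am2 {G y y' τ W : ℝ} (hτ : 0 < τ) (hW : 1 ≤ W) (hG : G ≤ W) (hy : 0 ≤ y) (hy' : 0 ≤ y') :
    y * (G / (τ * W ^ 4) * y') ≤ W⁻¹ * (y ^ 2 / τ + y' ^ 2 / (τ * W ^ 4)) := by
  have W0 : 0 < W := by linarith
  have a1 : y * (G / (τ * W ^ 4) * y') ≤ y * (W / (τ * W ^ 4) * y') := by gcongr
  refine a1.trans ?_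
  have e1 : y * (W / (τ * W ^ 4) * y') = (W ^ 2 * y * y') / (τ * W ^ 5) := by field_simp
  have e2 : W⁻¹ * (y ^ 2 / τ + y' ^ 2 / (τ * W ^ 4)) =
      ((W ^ 2 * y) ^ 2 + y' ^ 2) / (τ * W ^ 5) := by field_simp
  rw [e1, e2]
  gcongr
  nlinarith [sq_nonneg (W ^ 2 * y - y'), sq_nonneg (W ^ 2 * y), sq_nonneg y']

/-- the kernel of the Schur test -/
noncomputable def kr (δ : ℝ) (i m : ℕ) : ℝ :=
  if i ≤ m then (wt ((1 + δ) ^ (m - i)))⁻¹ else 0

theorem kr_nonneg (δ : ℝ) (i m : ℕ) : 0 ≤ kr δ i m := by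
  unfold kr
  split_ifs
  exacts [inv_nonneg.2 (wt_nonneg _), le_rfl]

theorem kr_row (δ : ℝ) (i N : ℕ) :
    ∑ m ∈ Finset.range N, kr δ i m = ∑ m ∈ Finset.Ico i N, (wt ((1 + δ) ^ (m - i)))⁻¹ := by
  simp only [kr]
  rw [← Finset.sum_filter]
  refine Finset.sum_congr (Finset.ext fun m => ?_) fun _ _ => rfl
  simp [and_comm]

theorem kr_col (δ : ℝ) (m N : ℕ) :
    ∑ i ∈ Finset.range N, kr δ i m ≤
      ∑ i ∈ Finset.range (m + 1), (wt ((1 + δ) ^ (m - i)))⁻¹ := by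
  simp only [kr]
  rw [← Finset.sum_filter]
  refine Finset.sum_le_sum_of_subset_of_nonneg (fun i hi => ?_) fun _ _ _ =>
    inv_nonneg.2 (wt_nonneg _)
  exact Finset.mem_range.2 (Nat.lt_succ_of_le (Finset.mem_filter.1 hi).2)

theorem schur {δ C : ℝ} {N : ℕ} {k : ℕ → ℕ → ℝ} {Y : ℕ → ℝ} (hY : ∀ i, 0 ≤ Y i)
    (h1 : ∀ i, δ * ∑ m ∈ Finset.range N, k i m ≤ C)
    (h2 : ∀ m, δ * ∑ i ∈ Finset.range N, k i m ≤ C) :
    ∑ i ∈ Finset.range N, δ * ∑ m ∈ Finset.range N, k i m * (Y i + Y m) ≤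
      2 * C * ∑ i ∈ Finset.range N, Y i := by
  have a1 : ∑ i ∈ Finset.range N, δ * ∑ m ∈ Finset.range N, k i m * Y i ≤
      C * ∑ i ∈ Finset.range N, Y i := by
    rw [Finset.mul_sum]
    refine Finset.sum_le_sum fun i _ => ?_
    rw [← Finset.sum_mul, ← mul_assoc]
    exact mul_le_mul_of_nonneg_right (h1 i) (hY i)
  have a2 : ∑ i ∈ Finset.range N, δ * ∑ m ∈ Finset.range N, k i m * Y m ≤
      C * ∑ i ∈ Finset.range N, Y i := by
    rw [← Finset.mul_sum, Finset.sum_comm, Finset.mul_sum, Finset.mul_sum]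
    refine Finset.sum_le_sum fun m _ => ?_
    rw [← Finset.sum_mul, ← mul_assoc]
    exact mul_le_mul_of_nonneg_right (h2 m) (hY m)
  simp only [mul_add, Finset.sum_add_distrib]
  linarith

/-- the Hessian of the model potential without the identity -/
noncomputable def Dp (L : Lev n) (b : ℝ) (j : ℕ) (x : V n) : Mt n :=
  ∑ i ∈ Finset.Ico j L.N, L.ca b j i • L.DY i x

theorem null3 (h : Bas3 n) {L : Lev n} (hL : L.Ok) (b : ℝ) (j : ℕ) :
    Integrable (fun x => hs (L.h j x) (Dp L b j x)) volume ∧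
      ∫ x, hs (L.h j x) (Dp L b j x) = 0 := by
  have hψ := h.h2a.sum (Finset.Ico j L.N) (L.ca b j) L.Y L.GY L.DY fun i _ => h.lv.h2Y L hL i
  have hT := h.h2a.sub _ _ _ _ _ _ (hL.h2 j) (hL.h2 0)
  obtain ⟨i1, z1⟩ := h.h2b.null _ _ _ _ (h.cfs.const 1) hψ
  obtain ⟨i2, z2⟩ := h.h2b.null _ _ _ _ (h.h2a.cf _ _ _ hψ) hT
  have e : ∀ x, hs (L.h j x) (Dp L b j x) =
      (L.τ j - L.τ0) * hs (T1 (1 : Mt n)) (Dp L b j x) -
        hs (T1 (Dp L b j x)) (L.D j x - L.D 0 x) := by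
    intro x
    by_cases hx : x ∈ L.O j
    · have e1 : L.D j x - L.D 0 x = (L.τ j - L.τ0) • (1 : Mt n) + L.h j x := by
        simp only [Lev.h, Set.indicator_of_mem hx, Lev.H]
        module
      rw [e1, hs_add_right, hs_smul_right, hs_T1 (Dp L b j x) (L.h j x), (h.lv.hsym L hL j x).2,
        hs_T1_comm (Dp L b j x) 1, hs_comm (Dp L b j x)]
      ring
    · have e1 : Dp L b j x = 0 := by
        have := (h.lv.offZ L hL b (fun _ => 0) j j x hx).2.2.2.2.2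
        exact add_eq_left.1 this
      rw [e1, T1_zero, hs_zero_right, hs_zero_right, hs_zero_left]
      ring
  simp only [e]
  simp only [Dp]
  refine ⟨(i1.const_mul _).sub i2, ?_⟩
  rw [integral_sub (i1.const_mul _) i2, integral_const_mul, z1, z2]
  ring

theorem split (h : Bas3 n) {L : Lev n} (hL : L.Ok) (b : ℝ) (P : Mt n) (x : V n) :
    hs P (L.KK b x) + b * L.δ * ∑ i ∈ Finset.range L.N, hs (L.h i x) (Dp L b i x) =
      L.δ * ∑ i ∈ Finset.range L.N,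
        (b * L.v b i x * hs (P - L.Ps b x) (L.h i x) + b * hs (L.h i x) (L.hh b i x)) := by
  rw [Lev.KK, hs_smul_right, hs_sum_right, ← mul_add, ← Finset.sum_add_distrib, mul_comm b,
    mul_assoc, Finset.mul_sum]
  congr 1
  refine Finset.sum_congr rfl fun i _ => ?_
  have e : L.hh b i x = 1 + Dp L b i x - L.v b i x • ((1 : Mt n) - L.Ps b x) := rfl
  rw [e, hs_smul_right, hs_sub_left, hs_sub_right, hs_add_right, hs_smul_right, hs_sub_right,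
    hs_one_right, (h.lv.hsym L hL i x).2, hs_comm (L.h i x) (L.Ps b x)]
  ring

theorem gw {δ b : ℝ} {t : ℕ} (hδ : 0 < δ) (hb : 0 < b)
    (h4 : ((1 + δ * b) ^ t) ^ 4 ≤ wt ((1 + δ) ^ t)) :
    1 ≤ wt ((1 + δ) ^ t) ∧ wt ((1 + δ) ^ t) ^ 4 = (1 + δ) ^ t ∧
      ((1 + δ * b) ^ t) ^ 2 ≤ wt ((1 + δ) ^ t) ∧ (1 + δ * b) ^ t ≤ wt ((1 + δ) ^ t) := by
  have g1 : 1 ≤ (1 + δ * b) ^ t := one_le_pow₀ (by nlinarith)
  exact ⟨one_le_wt (one_le_pow₀ (by linarith)), wt_pow4 (by positivity),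
    (pow_le_pow_right₀ g1 (by norm_num)).trans h4, (le_self_pow₀ g1 (by norm_num)).trans h4⟩

theorem term (h : Bas3 n) {L : Lev n} (hL : L.Ok) {b : ℝ} (hb : 0 < b) (hb1 : b < 1)
    (h4 : ∀ t : ℕ, ((1 + L.δ * b) ^ t) ^ 4 ≤ wt ((1 + L.δ) ^ t)) (P' : Mt n) {x : V n}
    (hx : x ∈ L.O 0) (i : ℕ) :
    |b * L.v b i x * hs P' (L.h i x) + b * hs (L.h i x) (L.hh b i x)| ≤
      n * (kr L.δ i (L.J x) * (L.s x * ‖P'‖ ^ 2) + 2 * b ^ 2 * (‖L.h i x‖ ^ 2 / L.τ i) +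
        b ^ 2 * (L.δ * ∑ m ∈ Finset.range L.N,
          kr L.δ i m * (‖L.h i x‖ ^ 2 / L.τ i + ‖L.h m x‖ ^ 2 / L.τ m))) := by
  have τp := h.lv.τpos L hL
  have δ0 := hL.δ0
  have s0 : 0 < L.s x := τp _
  have S0 : 0 ≤ ∑ m ∈ Finset.range L.N,
      kr L.δ i m * (‖L.h i x‖ ^ 2 / L.τ i + ‖L.h m x‖ ^ 2 / L.τ m) :=
    Finset.sum_nonneg fun m _ => mul_nonneg (kr_nonneg _ _ _)
      (add_nonneg (div_nonneg (sq_nonneg _) (τp _).le) (div_nonneg (sq_nonneg _) (τp _).le))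
  by_cases hi : x ∈ L.O i
  swap
  · rw [(h.lv.off L hL i x hi).2.2.2, hs_zero_right, hs_zero_left] at *
    have := kr_nonneg L.δ i (L.J x)
    have := τp i
    simp only [mul_zero, add_zero, abs_zero]
    positivity
  have hiJ : i ≤ L.J x := ((h.lv.mem L hL i x).1 hi).2
  have τe : ∀ m, i ≤ m → L.τ m = L.τ i * wt ((1 + L.δ) ^ (m - i)) ^ 4 := fun m hm => by
    rw [(gw δ0 hb (h4 (m - i))).2.1, ← h.lv.τdiv L hL m i hm, mul_div_cancel₀ _ (τp i).ne']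
  have v0 : 0 ≤ L.v b i x := by unfold Lev.v Lev.g; positivity
  have a1 : b * L.v b i x * ‖P'‖ * ‖L.h i x‖ ≤
      kr L.δ i (L.J x) * (L.s x * ‖P'‖ ^ 2) + b ^ 2 * (‖L.h i x‖ ^ 2 / L.τ i) := by
    obtain ⟨w1, -, w2, -⟩ := gw δ0 hb (h4 (L.J x - i))
    rw [kr, if_pos hiJ, Lev.s, τe _ hiJ]
    exact am1 (τp i) w1 w2
  have hN : L.J x < L.N := by
    have := h.lv.Jle L hL x
    have : 0 < L.N := Nat.pos_of_ne_zero fun e => by
      rw [h.lv.empty L hL 0 e.le] at hx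
      exact hx
    omega
  have g1 : 1 ≤ L.g b := by unfold Lev.g; nlinarith
  have bp0 : 0 ≤ L.bp b := div_nonneg (by linarith) (by linarith)
  have bp1 : L.bp b ≤ 1 := (div_le_one (by linarith)).2 (by linarith)
  have a2 : ‖L.hh b i x‖ ≤ b / L.τ i * ‖L.h i x‖ +
      b * L.δ * ∑ m ∈ Finset.Ioc i (L.J x), L.g b ^ (m - i) / L.τ m * ‖L.h m x‖ := by
    rw [h.alg1.hh L hL b i hb hb1 x hi]
    refine (norm_add_le _ _).trans (add_le_add ?_ ?_)
    · rw [norm_smul, norm_neg, Real.norm_of_nonneg (div_nonneg hb.le (τp i).le)]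
    · rw [norm_smul, Real.norm_of_nonneg (by positivity)]
      refine mul_le_mul (by nlinarith [mul_pos hb δ0]) ((norm_sum_le _ _).trans
        (Finset.sum_le_sum fun m _ => ?_)) (norm_nonneg _) (by positivity)
      rw [norm_smul, Real.norm_of_nonneg (div_nonneg (by positivity) (τp m).le)]
  have a3 : ‖L.h i x‖ * ∑ m ∈ Finset.Ioc i (L.J x), L.g b ^ (m - i) / L.τ m * ‖L.h m x‖ ≤
      ∑ m ∈ Finset.range L.N,
        kr L.δ i m * (‖L.h i x‖ ^ 2 / L.τ i + ‖L.h m x‖ ^ 2 / L.τ m) := by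
    rw [Finset.mul_sum]
    refine le_trans (Finset.sum_le_sum fun m hm => ?_)
      (Finset.sum_le_sum_of_subset_of_nonneg (s := Finset.Ioc i (L.J x)) (fun m hm => ?_)
        fun m _ _ => mul_nonneg (kr_nonneg _ _ _) (add_nonneg
          (div_nonneg (sq_nonneg _) (τp _).le) (div_nonneg (sq_nonneg _) (τp _).le)))
    · have him : i ≤ m := (Finset.mem_Ioc.1 hm).1.le
      obtain ⟨w1, -, -, w2⟩ := gw δ0 hb (h4 (m - i))
      rw [kr, if_pos him, τe _ him]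
      exact am2 (τp i) w1 w2 (norm_nonneg _) (norm_nonneg _)
    · exact Finset.mem_range.2 ((Finset.mem_Ioc.1 hm).2.trans_lt hN)
  have a4 : b * (‖L.h i x‖ * ‖L.hh b i x‖) ≤ b ^ 2 * (‖L.h i x‖ ^ 2 / L.τ i) +
      b ^ 2 * (L.δ * ∑ m ∈ Finset.range L.N,
        kr L.δ i m * (‖L.h i x‖ ^ 2 / L.τ i + ‖L.h m x‖ ^ 2 / L.τ m)) := by
    calc b * (‖L.h i x‖ * ‖L.hh b i x‖) ≤ b * (‖L.h i x‖ * (b / L.τ i * ‖L.h i x‖ + b * L.δ *
          ∑ m ∈ Finset.Ioc i (L.J x), L.g b ^ (m - i) / L.τ m * ‖L.h m x‖)) := by gcongr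
      _ = b ^ 2 * (‖L.h i x‖ ^ 2 / L.τ i) + b ^ 2 * (L.δ * (‖L.h i x‖ *
          ∑ m ∈ Finset.Ioc i (L.J x), L.g b ^ (m - i) / L.τ m * ‖L.h m x‖)) := by ring
      _ ≤ _ := by gcongr
  have a5 : |b * L.v b i x * hs P' (L.h i x)| ≤ n * (b * L.v b i x * ‖P'‖ * ‖L.h i x‖) := by
    rw [abs_mul, abs_of_nonneg (mul_nonneg hb.le v0)]
    exact (mul_le_mul_of_nonneg_left (abs_hs_le _ _) (mul_nonneg hb.le v0)).trans_eq (by ring)
  have a6 : |b * hs (L.h i x) (L.hh b i x)| ≤ n * (b * (‖L.h i x‖ * ‖L.hh b i x‖)) := by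
    rw [abs_mul, abs_of_nonneg hb.le]
    exact (mul_le_mul_of_nonneg_left (abs_hs_le _ _) hb.le).trans_eq (by ring)
  have n0 : (0 : ℝ) ≤ n := n.cast_nonneg
  have a7 := mul_le_mul_of_nonneg_left a1 n0
  have a8 := mul_le_mul_of_nonneg_left a4 n0
  refine (abs_add_le _ _).trans ?_
  nlinarith

theorem point (h : Bas3 n) {L : Lev n} (hL : L.Ok) {b C : ℝ} (hb : 0 < b) (hb1 : b < 1)
    (hC : 0 < C) (h4 : ∀ t : ℕ, ((1 + L.δ * b) ^ t) ^ 4 ≤ wt ((1 + L.δ) ^ t))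
    (h1 : ∀ i, L.δ * ∑ m ∈ Finset.range L.N, kr L.δ i m ≤ C)
    (h2 : ∀ m, L.δ * ∑ i ∈ Finset.range L.N, kr L.δ i m ≤ C) (P : Mt n) {x : V n}
    (hx : x ∈ L.O 0) :
    |hs P (L.KK b x) + b * L.δ * ∑ i ∈ Finset.range L.N, hs (L.h i x) (Dp L b i x)| ≤
      n * (2 + 2 * C) * (b ^ 2 * ∑ i ∈ Finset.range L.N, L.δ / L.τ i * ‖L.h i x‖ ^ 2 +
        L.s x * ‖P - L.Ps b x‖ ^ 2) := by
  have τp := h.lv.τpos L hL
  have δ0 := hL.δ0
  have s0 : 0 < L.s x := τp _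
  have Y0 : ∀ i, 0 ≤ ‖L.h i x‖ ^ 2 / L.τ i := fun i => div_nonneg (sq_nonneg _) (τp i).le
  have e : ∑ i ∈ Finset.range L.N, L.δ / L.τ i * ‖L.h i x‖ ^ 2 =
      L.δ * ∑ i ∈ Finset.range L.N, ‖L.h i x‖ ^ 2 / L.τ i := by
    rw [Finset.mul_sum]
    exact Finset.sum_congr rfl fun i _ => by ring
  have a1 := schur (Y := fun i => ‖L.h i x‖ ^ 2 / L.τ i) Y0 h1 h2
  have a2 := (Finset.abs_sum_le_sum_abs _ _).trans (Finset.sum_le_sum
    fun i (_ : i ∈ Finset.range L.N) => term h hL hb hb1 h4 (P - L.Ps b x) hx i)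
  rw [split h hL, abs_mul, abs_of_pos δ0, e]
  refine (mul_le_mul_of_nonneg_left a2 δ0.le).trans ?_
  rw [← Finset.mul_sum, Finset.sum_add_distrib, Finset.sum_add_distrib, ← Finset.sum_mul,
    ← Finset.mul_sum, ← Finset.mul_sum]
  have a3 := h2 (L.J x)
  have S0 : 0 ≤ ∑ i ∈ Finset.range L.N, ‖L.h i x‖ ^ 2 / L.τ i := Finset.sum_nonneg fun i _ => Y0 i
  set S := ∑ i ∈ Finset.range L.N, ‖L.h i x‖ ^ 2 / L.τ i
  set A := L.s x * ‖P - L.Ps b x‖ ^ 2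
  have A0 : 0 ≤ A := by positivity
  set T := ∑ i ∈ Finset.range L.N, L.δ * ∑ m ∈ Finset.range L.N,
    kr L.δ i m * (‖L.h i x‖ ^ 2 / L.τ i + ‖L.h m x‖ ^ 2 / L.τ m)
  set K := ∑ i ∈ Finset.range L.N, kr L.δ i (L.J x)
  have b1 : L.δ * K * A ≤ (2 + 2 * C) * A := mul_le_mul_of_nonneg_right (by linarith) A0
  have b2 : L.δ * b ^ 2 * T ≤ L.δ * b ^ 2 * (2 * C * S) :=
    mul_le_mul_of_nonneg_left a1 (by positivity)
  have n0 : (0 : ℝ) ≤ n := n.cast_nonneg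
  calc L.δ * (n * (K * A + 2 * b ^ 2 * S + b ^ 2 * T))
      = n * (L.δ * K * A + 2 * b ^ 2 * (L.δ * S) + L.δ * b ^ 2 * T) := by ring
    _ ≤ n * ((2 + 2 * C) * A + 2 * b ^ 2 * (L.δ * S) + L.δ * b ^ 2 * (2 * C * S)) := by gcongr
    _ = _ := by ring

theorem intF (h : Bas3 n) {L : Lev n} (hL : L.Ok) {b : ℝ} (hb : 0 < b) {P : V n → Mt n}
    (mP : StronglyMeasurable P) (hP : ∀ x, Str b (P x)) :
    IntegrableOn (fun x => hs (P x) (L.KK b x)) (L.O 0) volume := by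
  have δ0 := hL.δ0
  have g1 : 1 ≤ L.g b := by unfold Lev.g; nlinarith
  haveI : IsFiniteMeasure ((volume : Measure (V n)).restrict (L.O 0)) :=
    isFiniteMeasure_restrict.2 ((measure_mono hL.supp).trans_lt measure_ball_lt_top).ne
  have ih : ∀ i, Integrable (fun x => ‖L.h i x‖) ((volume : Measure (V n)).restrict (L.O 0)) :=
    fun i => (((h.lv.hlp L hL i).restrict (L.O 0)).integrable one_le_two).norm
  refine Integrable.mono' (((integrable_finsetSum (Finset.range L.N) fun i _ => ih i).const_mul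
    (L.g b ^ L.N)).const_mul (n * (n * b) * (b * L.δ)))
    (continuous_hs.comp_stronglyMeasurable
      (mP.prodMk (h.lv.mM L hL b 0).2.2.2.2.2)).aestronglyMeasurable (ae_of_all _ fun x => ?_)
  have a1 : ‖L.KK b x‖ ≤ b * L.δ * (L.g b ^ L.N * ∑ i ∈ Finset.range L.N, ‖L.h i x‖) := by
    rw [Lev.KK, norm_smul, Real.norm_of_nonneg (by positivity), Finset.mul_sum]
    refine mul_le_mul_of_nonneg_left ((norm_sum_le _ _).trans (Finset.sum_le_sum fun i _ => ?_))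
      (by positivity)
    rw [norm_smul, Lev.v, Real.norm_of_nonneg (by positivity)]
    have := h.lv.Jle L hL x
    exact mul_le_mul_of_nonneg_right (pow_le_pow_right₀ g1 (by omega)) (norm_nonneg _)
  rw [Real.norm_eq_abs]
  calc |hs (P x) (L.KK b x)| ≤ n * ‖P x‖ * ‖L.KK b x‖ := abs_hs_le _ _
    _ ≤ n * (n * b) * (b * L.δ * (L.g b ^ L.N * ∑ i ∈ Finset.range L.N, ‖L.h i x‖)) := by
      have := (hP x).norm
      gcongr
    _ = _ := by ring

end Rb3x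

open Rb3x in
theorem b3 (h : Bas3 n) : B3 n := by
  obtain ⟨C₁, b₀, -, hb₀, hpow⟩ := h.num.pow
  obtain ⟨C, hC, hgeo⟩ := h.num.geo
  obtain ⟨C₂, -, he2⟩ := h.pw.e2b
  have n0 : (0 : ℝ) < n := by have := h.hn; positivity
  refine ⟨n * (2 + 2 * C), min b₀ (1 / 2), by positivity, by positivity,
    fun L b P hL hb hb' mP hP => ⟨intF h hL hb mP hP, ?_⟩⟩
  have τp := h.lv.τpos L hL
  have δ0 := hL.δ0
  have hb1 : b < 1 := (hb'.trans (min_le_right _ _)).trans_lt (by norm_num)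
  have h4 : ∀ t : ℕ, ((1 + L.δ * b) ^ t) ^ 4 ≤ wt ((1 + L.δ) ^ t) := fun t =>
    (hpow L.δ b t δ0 hL.δ1 hb (hb'.trans (min_le_left _ _))).1
  have h1 : ∀ i, L.δ * ∑ m ∈ Finset.range L.N, kr L.δ i m ≤ C := fun i => by
    rw [kr_row]; exact (hgeo L.δ i L.N δ0 hL.δ1).1
  have h2 : ∀ m, L.δ * ∑ i ∈ Finset.range L.N, kr L.δ i m ≤ C := fun m =>
    (mul_le_mul_of_nonneg_left (kr_col _ _ _) δ0.le).trans (hgeo L.δ 0 m δ0 hL.δ1).2
  have i3 : Integrable (fun x => b * L.δ * ∑ i ∈ Finset.range L.N, hs (L.h i x) (Dp L b i x))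
      volume := (integrable_finsetSum _ fun i _ => (null3 h hL b i).1).const_mul _
  have z3 : ∫ x in L.O 0, b * L.δ * ∑ i ∈ Finset.range L.N, hs (L.h i x) (Dp L b i x) = 0 := by
    rw [setIntegral_eq_integral_of_forall_compl_eq_zero, integral_const_mul,
      integral_finsetSum _ fun i _ => (null3 h hL b i).1,
      Finset.sum_eq_zero fun i _ => (null3 h hL b i).2, mul_zero]
    intro x hx
    rw [Finset.sum_eq_zero fun i _ => ?_, mul_zero]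
    rw [(h.lv.off L hL i x fun k => hx (h.lv.anti L hL (Nat.zero_le i) k)).2.2.2, hs_zero_left]
  have e : ∫ x in L.O 0, hs (P x) (L.KK b x) = ∫ x in L.O 0, (hs (P x) (L.KK b x) +
      b * L.δ * ∑ i ∈ Finset.range L.N, hs (L.h i x) (Dp L b i x)) := by
    rw [integral_add (intF h hL hb mP hP) i3.integrableOn, z3, add_zero]
  have mh : ∀ i, Measurable fun x => ENNReal.ofReal (L.δ / L.τ i) * ‖L.h i x‖ₑ ^ 2 := fun i =>
    (((h.lv.mM L hL b i).2.1.enorm).pow_const 2).const_mul _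
  rw [e]
  refine (enorm_integral_le_lintegral_enorm _).trans ?_
  calc ∫⁻ x in L.O 0, ‖hs (P x) (L.KK b x) +
        b * L.δ * ∑ i ∈ Finset.range L.N, hs (L.h i x) (Dp L b i x)‖ₑ
      ≤ ∫⁻ x in L.O 0, ENNReal.ofReal (n * (2 + 2 * C)) * (ENNReal.ofReal (b ^ 2) *
          ∑ i ∈ Finset.range L.N, ENNReal.ofReal (L.δ / L.τ i) * ‖L.h i x‖ₑ ^ 2 +
          ENNReal.ofReal (L.s x * (e2 (P x) + L.δ * b ^ 2 + ‖P x - L.Ps b x‖ ^ 2))) := by
        refine setLIntegral_mono' (h.lv.opn L hL 0).measurableSet fun x hx => ?_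
        have s0 : 0 < L.s x := τp _
        have e0 := (he2 b (P x) (hP x)).1
        have y0 : ∀ i ∈ Finset.range L.N, 0 ≤ L.δ / L.τ i * ‖L.h i x‖ ^ 2 := fun i _ =>
          mul_nonneg (div_nonneg δ0.le (τp i).le) (sq_nonneg _)
        have e1 : ∑ i ∈ Finset.range L.N, ENNReal.ofReal (L.δ / L.τ i) * ‖L.h i x‖ₑ ^ 2 =
            ENNReal.ofReal (∑ i ∈ Finset.range L.N, L.δ / L.τ i * ‖L.h i x‖ ^ 2) := by
          rw [ENNReal.ofReal_sum_of_nonneg y0]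
          refine Finset.sum_congr rfl fun i _ => ?_
          rw [ENNReal.ofReal_mul (div_nonneg δ0.le (τp i).le), ENNReal.ofReal_pow (norm_nonneg _),
            ofReal_norm]
        rw [e1, ← ENNReal.ofReal_mul (sq_nonneg b), ← ENNReal.ofReal_add
          (mul_nonneg (sq_nonneg b) (Finset.sum_nonneg y0)) (by positivity),
          ← ENNReal.ofReal_mul (by positivity), Real.enorm_eq_ofReal_abs]
        refine ENNReal.ofReal_le_ofReal ((point h hL hb hb1 hC h4 h1 h2 (P x) hx).trans ?_)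
        have : 0 ≤ e2 (P x) + L.δ * b ^ 2 := by positivity
        gcongr
        linarith
    _ ≤ _ := by
        rw [lintegral_const_mul' _ _ ENNReal.ofReal_ne_top,
          lintegral_add_left ((Finset.measurable_sum _ fun i _ => mh i).const_mul _),
          lintegral_const_mul' _ _ ENNReal.ofReal_ne_top, lintegral_finsetSum _ fun i _ => mh i,
          Lev.Sl, Lev.kk]
        gcongr with i _
        rw [lintegral_const_mul' _ _ ENNReal.ofReal_ne_top]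
        gcongr
        exact Measure.restrict_le_self

end Pool.Agent.MP_29b5d3_an.EX
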