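import Pool.Agent.MP_29b5d3_an.EX.Rblk2

/-! Project EXQ: the inequality of one block for a given gauge. -/

set_option autoImplicit false

namespace Pool.Agent.MP_29b5d3_an.EX

open MeasureTheory Metric Filter Topology Module Pool.Agent.MP_29b5d3_an.NC
open scoped RealInnerProductSpace ContDiff ENNReal

variable {n : ℕ}

namespace BLKx

/-- the gauge field -/
noncomputable def Gam (k : ℝ) (c : V n → ℝ) (Q : V n → Mt n) (x : V n) : Mt n :=
  (k * Real.exp (-c x)) • star (Q x)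

theorem Gam_smooth (k : ℝ) {c : V n → ℝ} {Q : V n → Mt n} (hc : ContDiff ℝ ∞ c)
    (hQ : ContDiff ℝ ∞ Q) : ContDiff ℝ ∞ (Gam k c Q) :=
  (contDiff_const.mul hc.neg.exp).smul ((starL' ℝ (A := Mt n)).contDiff.comp hQ)

theorem Gam_fderiv (k : ℝ) {c : V n → ℝ} {Q : V n → Mt n} (hc : ContDiff ℝ ∞ c)
    (hQ : ContDiff ℝ ∞ Q) (x y : V n) : fderiv ℝ (Gam k c Q) x y =
      (k * Real.exp (-c x)) • (star (fderiv ℝ Q x y) - fderiv ℝ c x y • star (Q x)) := by
  have d1 := ((hc.differentiable (by simp) x).hasFDerivAt.neg.exp).const_mul k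
  have d2 := (starL' ℝ (A := Mt n)).hasFDerivAt.comp x (hQ.differentiable (by simp) x).hasFDerivAt
  have d3 : HasFDerivAt (Gam k c Q) _ x := d1.smul d2
  rw [d3.fderiv]
  simp only [add_apply, smul_apply,
    ContinuousLinearMap.smulRight_apply, ContinuousLinearMap.comp_apply,
    neg_apply, ContinuousLinearEquiv.coe_coe, starL'_apply,
    smul_eq_mul, Pi.neg_apply]
  module

theorem enorm_int_le {e F G : V n → ℝ} {U : Set (V n)} (hU : MeasurableSet U) {C σ : ℝ}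
    (hC : 0 ≤ C) (hσ : 0 ≤ σ) (mG : Measurable G) (F0 : ∀ x, 0 ≤ F x) (G0 : ∀ x, 0 ≤ G x)
    (h0 : ∀ x ∉ U, e x = 0) (h : ∀ᵐ x, x ∈ U → |e x| ≤ C * (σ * F x + G x)) :
    ‖∫ x, e x‖ₑ ≤ ENNReal.ofReal C * (ENNReal.ofReal σ * (∫⁻ x in U, ENNReal.ofReal (F x)) +
      ∫⁻ x in U, ENNReal.ofReal (G x)) := by
  rw [← lintegral_const_mul' _ _ ENNReal.ofReal_ne_top,
    ← lintegral_add_right _ mG.ennreal_ofReal, ← lintegral_const_mul' _ _ ENNReal.ofReal_ne_top,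
    ← lintegral_indicator hU]
  refine (enorm_integral_le_lintegral_enorm _).trans (lintegral_mono_ae (h.mono fun x hx => ?_))
  by_cases hU : x ∈ U
  · rw [Set.indicator_of_mem hU, ← ENNReal.ofReal_mul hσ,
      ← ENNReal.ofReal_add (mul_nonneg hσ (F0 x)) (G0 x), ← ENNReal.ofReal_mul hC,
      Real.enorm_eq_ofReal_abs]
    exact ENNReal.ofReal_le_ofReal (hx hU)
  · simp [h0 x hU]

theorem four (x y z w : ℝ) :
    ENNReal.ofReal (x + y + z + w) ≤ ‖x‖ₑ + ‖y‖ₑ + ‖z‖ₑ + ‖w‖ₑ := by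
  refine (Real.ofReal_le_enorm _).trans ((enorm_add_le _ _).trans ?_)
  gcongr
  refine (enorm_add_le _ _).trans ?_
  gcongr
  exact enorm_add_le _ _

end BLKx

open BLKx in
theorem blk (h : Bas3 n) (h1 : E1 n) (h2 : E2 n) (h3 : E3 n) (h4 : E4 n) (hz : ZG n)
    (hr : ROT n) : BLK n := by
  obtain ⟨c₀, c0, hz⟩ := hz
  refine ⟨c₀, c0, fun Λ Λ0 => ?_⟩
  obtain ⟨CZ, CZ0, hz⟩ := hz Λ Λ0
  obtain ⟨CX, CX0, hX⟩ := h.alg1.X Λ Λ0
  obtain ⟨CB, CB0, hB⟩ := h.alg1.part Λ Λ0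
  obtain ⟨CR, CR0, hr⟩ := hr
  obtain ⟨C1, b1, C10, b10, h1⟩ := h1 (CX + CB + Λ) (by positivity)
  obtain ⟨C2, b2, C20, b20, h2⟩ := h2 CZ CZ0
  obtain ⟨C3, b3, C30, b30, h3⟩ := h3 Λ Λ0
  obtain ⟨C4, b4, C40, b40, h4⟩ := h4 Λ CR Λ0 CR0
  obtain ⟨C5, b5, -, b50, h5⟩ := h.lv.vw
  obtain ⟨C6, -, h6⟩ := h.pw.e2b
  refine ⟨C1 + C2 + C3 + C4, min (min (min b1 b2) (min b3 b4)) (min b5 (1 / 2)), by positivity,
    by positivity, fun L b Cg A R P Q a D c o j j' Ω hL b0 hb hP hj hτ hD hn hG hY iP iI => ?_⟩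
  simp only [le_min_iff] at hb
  obtain ⟨⟨⟨l1, l2⟩, l3, l4⟩, l5, l6⟩ := hb
  have b1' : b < 1 := by linarith
  have τ0 := h.lv.τpos L hL
  have δ0 := hL.δ0
  have g0 : 0 < L.g b := by unfold Lev.g; positivity
  have sub : ∀ x ∈ L.O j, x ∈ L.O 0 := fun x hx => h.lv.anti L hL (Nat.zero_le j) hx
  have in4 : ∀ x ∈ L.O j, x ∈ ball (0 : V n) 4 := fun x hx =>
    ball_subset_ball (by norm_num) (hL.supp (sub x hx))
  have oD : ∀ x, 0 ≤ o x / D x := fun x => div_nonneg (hG.o0 x) (hD.pos x).le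
  obtain ⟨β, hβ, kβ⟩ := hr Q hG.sQ
  obtain ⟨i1, i2, e12⟩ := h.h2b.gauge _ A _ _ _ (Gam_smooth (L.g b ^ j)⁻¹ hG.sc hG.sQ) hP.cf
    (h.lv.h2Z L hL b j j')
  obtain ⟨i3, i4, k3⟩ := h3 L b P j j' D o c Ω hL b0 l3 hP.mP hP.str hj hτ hD.meas hG.mo hY hG.sc
    hG.dc
  obtain ⟨i5, k4⟩ := h4 L b P j j' D o β _ Ω hL b0 l4 hP.mP hP.str hj hτ hD.meas hG.mo hY hβ
    fun x hx => ⟨(kβ x).2.trans (by
      have := hG.Q1 x hx
      have := hG.dQ x hx
      calc _ ≤ CR * 1 * (o x / D x) := by gcongr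
        _ = _ := by ring), (kβ x).1.trans (by
      have := hG.dQ x hx
      gcongr)⟩
  have mO := (h.lv.opn L hL j).measurableSet
  have mr := (h.lv.mP L hL b P j j' hP.mP).2.2.1
  have s0 : ∀ x, 0 < L.s x := fun x => τ0 _
  have HH0 : ∀ x, 0 ≤ L.HH j j' x := fun x => by unfold Lev.HH; positivity
  have ex0 : ∀ x, 0 ≤ L.s x * (e2 (P x) + L.δ * b ^ 2 + ‖P x - L.Ps b x‖ ^ 2) := fun x => by
    have := (h6 b _ (hP.str x)).1
    have := s0 x
    positivity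
  have ze0 : ∀ x, 0 ≤ L.ze b P j x := fun x => by unfold Lev.ze; positivity
  have rz : ∀ x, L.τ j * L.ze b P j x ≤ L.rest b P j j' x := fun x => by
    have := τ0 j
    have k : 0 ≤ b ^ 2 * L.HH j j' x / L.τ j := by have := HH0 x; positivity
    have := ex0 x
    unfold Lev.rest
    split_ifs <;> linarith
  have r0 : ∀ x, 0 ≤ L.rest b P j j' x := fun x => (mul_nonneg (τ0 j).le (ze0 x)).trans (rz x)
  have od0 : ∀ x, 0 ≤ od b (L.w j x) ‖L.gg b a R x - (c x, Q x)‖ (o x) := fun x =>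
    od_nonneg _ _ _ (wt_nonneg _)
  have ta : ∀ x, |L.ap b a x - c x| ≤ ‖L.gg b a R x - (c x, Q x)‖ := fun x =>
    norm_fst_le (L.gg b a R x - (c x, Q x))
  have tR : ∀ x, ‖R x - Q x‖ ≤ ‖L.gg b a R x - (c x, Q x)‖ := fun x =>
    norm_snd_le (L.gg b a R x - (c x, Q x))
  have eA : ∀ x ∈ L.O j, ((L.g b ^ j)⁻¹ * Real.exp (-c x)) • A x =
      (L.v b j x * Real.exp (L.ap b a x - c x)) • (R x * (1 - P x)) := fun x hx => by
    have hJ := ((h.lv.mem L hL j x).1 hx).2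
    rw [hP.eq x (ball_subset_ball (by norm_num) (in4 x hx)), smul_smul]
    congr 1
    rw [Lev.v, Lev.ap, pow_sub₀ _ g0.ne' hJ, sub_right_comm, Real.exp_sub (a x - c x),
      Real.exp_nat_mul, Real.exp_log g0, Real.exp_sub, Real.exp_neg]
    field_simp
  have k1 := enorm_int_le (e := fun x => L.muP b P j j' x + L.ap b a x * L.muI b j j' x -
      c x * L.muI b j j' x - hs (T1 (Gam (L.g b ^ j)⁻¹ c Q x * A x)) (L.DZ b j j' x)) mO C10.le
    (τ0 j).le mr od0 r0 (fun x hx => by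
      obtain ⟨-, -, z3, z4, z5, -⟩ := h.lv.offZ L hL b P j j' x hx
      simp only [z3, z4, z5, hs_zero_right, mul_zero, add_zero, sub_zero])
    (Eventually.of_forall fun x hx => by
      have hJ := ((h.lv.mem L hL j x).1 hx).2
      obtain ⟨K, K1, K2, K3, K4⟩ := hX L hL b j j' b0 b1' hj hτ x hx
      obtain ⟨B1, B2, -⟩ := hB L hL b j j' (L.J x) b0 b1' hj hτ hJ
      obtain ⟨v1, v2, -⟩ := h5 L hL b j b0 l5 x hx
      obtain ⟨t1, t2⟩ := h.lv.trH L hL x (sub x hx)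
      have σ0 := τ0 j
      have k := h1 b L.δ (L.τ j) (L.s x) (L.v b j x) (L.w j x) (L.v b j x * L.be b j j' (L.J x))
        (if L.J x < j' then 1 else 0) (L.HH j j' x) (L.ap b a x - c x) _ (o x) (Q x) (R x) (P x)
        (L.H x) K b0 l1 δ0 hL.δ1 σ0 (s0 x) v1 v2 (by positivity)
        (by rw [mul_comm]; gcongr; exact B2.trans (by gcongr; linarith))
        (by
          split_ifs with c1
          · exact Or.inr ⟨rfl, (h.lv.τmono L hL c1.le).trans (hτ.trans (by gcongr; linarith))⟩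
          · exact Or.inl rfl)
        (HH0 x) (hP.orth x) (hP.str x) (h.lv.Hsym L hL b j x).1 (t1 ▸ hL.θ0 x)
        (by
          rw [t1]
          refine t2.trans ?_
          have := hL.δ1
          have := s0 x
          have : (0 : ℝ) ≤ n := n.cast_nonneg
          nlinarith [mul_nonneg this (s0 x).le])
        K1 K2 (K3.trans (by have := HH0 x; gcongr; linarith)) (hG.Q1 x (in4 x hx))
        (hG.QQ x (in4 x hx)) (ta x) (tR x)
      have e1 : hs (T1 (Gam (L.g b ^ j)⁻¹ c Q x * A x)) (L.DZ b j j' x) =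
          hs (T1 (Real.exp (L.ap b a x - c x) • (star (Q x) * (R x * (1 - P x)))))
            (L.v b j x • L.DZ b j j' x) := by
        rw [Gam, smul_mul_assoc, ← mul_smul_comm, eA x hx, mul_smul_comm, mul_smul, T1_smul,
          hs_smul_left, hs_smul_right]
      rw [← K4, ← e1] at k
      rw [abs_sub_comm, h.alg2.muI L hL b j j' b0 b1' hj x hx]
      refine le_of_eq_of_le (congrArg abs ?_) (k.trans ?_)
      · unfold Lev.muP Lev.Ps Lev.g
        ring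
      · refine mul_le_mul_of_nonneg_left ?_ C10.le
        have : 0 ≤ L.τ j * (L.τ j * ‖L.hh b j x‖ ^ 2) := by positivity
        unfold Lev.rest Lev.ze Lev.Ps
        split_ifs <;> nlinarith)
  have k2 := enorm_int_le (e := fun x => gz (fderiv ℝ (Gam (L.g b ^ j)⁻¹ c Q) x) (A x)
      (L.GZ b j j' x) - fderiv ℝ c x (T1 (L.DP b j x) (L.GZ b j j' x)) -
      ⟪rot (Q x) (fderiv ℝ Q x), L.DP b j x (L.GZ b j j' x)⟫) mO C20.le
    (τ0 j).le mr od0 r0 (fun x hx => by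
      obtain ⟨-, z2, -⟩ := h.lv.offZ L hL b P j j' x hx
      simp [z2, gz, tr_zero])
    (by
      filter_upwards [hz L b j j' D hL b0 hj hτ hD.pos hn] with x hZ hx
      obtain ⟨v1, v2, -⟩ := h5 L hL b j b0 l5 x hx
      obtain ⟨-, y2, -, -, y5⟩ := h.lv.Hsym L hL b j x
      have x4 := in4 x hx
      have k := h2 b (L.τ j) (L.v b j x) (L.w j x) _ (L.ap b a x - c x) _ (o x) (D x) (Q x) (R x)
        (P x) (L.Ps b x) (L.hh b j x) (A x) (L.GZ b j j' x) (fderiv ℝ c x) (fderiv ℝ Q x) _ b0 l2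
        (τ0 j) v1 v2 (hG.o0 x) (hD.pos x) (hP.orth x) (hP.str x).norm y2 y5 (eA x hx)
        (Gam_fderiv (L.g b ^ j)⁻¹ hG.sc hG.sQ x) (hG.Q1 x x4) (hG.QQ x x4) (hG.dc x x4)
        (hG.dQ x x4) (hG.dQQ x x4) (ta x) (tR x) hZ
      rw [show L.v b j x • (1 - L.Ps b x) + L.hh b j x = L.DP b j x by
        rw [Lev.hh, add_sub_cancel]] at k
      refine k.trans ?_
      gcongr
      exact rz x)
  have iA : Integrable fun x => L.muP b P j j' x + L.ap b a x * L.muI b j j' x := iP.add iI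
  have iB : Integrable fun x => L.muP b P j j' x + L.ap b a x * L.muI b j j' x -
    c x * L.muI b j j' x := iA.sub i4
  have iC : Integrable fun x => gz (fderiv ℝ (Gam (L.g b ^ j)⁻¹ c Q) x) (A x)
    (L.GZ b j j' x) - fderiv ℝ c x (T1 (L.DP b j x) (L.GZ b j j' x)) := i2.sub i3
  rw [integral_sub iB i1, integral_sub iA i4, integral_add iP iI] at k1
  rw [integral_sub iC i5, integral_sub i2 i3, ← e12] at k2
  refine le_of_eq_of_le (congrArg ENNReal.ofReal (by ring)) ((four _ _ _ _).trans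
    ((add_le_add (add_le_add (add_le_add k1 k2) k3) k4).trans ?_))
  rw [ENNReal.ofReal_add (by positivity) C40.le, ENNReal.ofReal_add (by positivity) C30.le,
    ENNReal.ofReal_add C10.le C20.le, add_mul, add_mul, add_mul]
  unfold Lev.Rest
  gcongr
  exacts [le_self_add, le_self_add, le_add_self, le_add_self]

end Pool.Agent.MP_29b5d3_an.EX
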