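import Pool.Agent.MP_29b5d3_an.NC.CacC
import Mathlib.MeasureTheory.Covering.DensityTheorem
import Mathlib.MeasureTheory.Function.L2Space

-- ======== part 0: formerly Pool.Agent.MP_29b5d3_an.EX.Defs
section MrgPart0

/-! Project EXQ (exact exponent near the conformal case): definitions. -/

set_option autoImplicit false

namespace Pool.Agent.MP_29b5d3_an.EX

open MeasureTheory Metric Filter Topology Module Pool.Agent.MP_29b5d3_an.NC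
open scoped RealInnerProductSpace ContDiff ENNReal

variable {n : ℕ}

/-! ### shortcuts that let the ring lemmas rewrite in `Mt n` -/

instance : IsTopologicalAddGroup (V n) := inferInstance
instance : ContinuousAdd (V n) := inferInstance
instance : ContinuousConstSMul ℝ (V n) := inferInstance
instance : ContinuousSMul ℝ (V n) := inferInstance
instance : CompleteSpace (V n) := inferInstance
instance : CStarRing (Mt n) := inferInstance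
instance : NormedStarGroup (Mt n) := inferInstance
instance : StarModule ℝ (Mt n) := inferInstance
instance : ContinuousStar (Mt n) := inferInstance

/-! ### operators -/

noncomputable def T1 (X : Mt n) : Mt n := tr X • (1 : Mt n) - X

noncomputable def e2 (P : Mt n) : ℝ := (tr P ^ 2 - hs P P) / 2

def Orth (R : Mt n) : Prop := star R * R = 1

/-- admissible strain -/
structure Str (b : ℝ) (P : Mt n) : Prop where
  sym : star P = P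
  pos : ∀ v, 0 ≤ ⟪P v, v⟫
  norm : ‖P‖ ≤ n * b
  det : 1 - n * b ≤ ((1 : Mt n) - P).det

/-- the integrand on the right of the gauge identity -/
noncomputable def gz (Γ' : V n →L[ℝ] Mt n) (A : Mt n) (G : V n) : ℝ :=
  ∑ i, ⟪ev i, Γ' (ev i) (A G)⟫ - tr (Γ' G * A)

/-- the skew part of the connection of a frame, contracted -/
noncomputable def rot (Q : Mt n) (Q' : V n →L[ℝ] Mt n) : V n :=
  (1 / 2 : ℝ) • ∑ i, (star Q * Q' (ev i) - star (Q' (ev i)) * Q) (ev i)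

/-- the weight -/
noncomputable def wt (x : ℝ) : ℝ := √(√x)

noncomputable def Psi (b t : ℝ) : ℝ := t ^ 2 * Real.exp (4 * t) * (1 + t ^ 4 / b ^ 4)

/-- the density of the oscillation errors -/
noncomputable def od (b w t o : ℝ) : ℝ :=
  (t ^ 2 + o ^ 2) * (w + Real.exp (4 * t) * (1 + (t ^ 4 + o ^ 4) / b ^ 4))

/-! ### function classes -/

/-- curl free fields of class `L^2_loc` -/
structure CF (A : V n → Mt n) : Prop where
  meas : StronglyMeasurable A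
  l2 : LocallyIntegrable (fun x => ‖A x‖ ^ 2) volume
  curl : ∀ (θ : V n → ℝ) (R : ℝ), Test θ R → ∀ u v : V n,
    ∫ y, fderiv ℝ θ y u • A y v = ∫ y, fderiv ℝ θ y v • A y u

/-- limits of test functions in the second order Sobolev norm -/
structure H2 (u : V n → ℝ) (G : V n → V n) (D : V n → Mt n) : Prop where
  mu : StronglyMeasurable u
  mG : StronglyMeasurable G
  mD : StronglyMeasurable D
  out : ∀ x, 4 ≤ ‖x‖ → u x = 0 ∧ G x = 0 ∧ D x = 0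
  apx : ∃ φ : ℕ → V n → ℝ, (∀ m, Test (φ m) 4) ∧
    Tendsto (fun m => eLpNorm (fun x => φ m x - u x) 2 volume) atTop (𝓝 0) ∧
    Tendsto (fun m => eLpNorm (fun x => gradient (φ m) x - G x) 2 volume) atTop (𝓝 0) ∧
    Tendsto (fun m => eLpNorm (fun x => hess (φ m) x - D x) 2 volume) atTop (𝓝 0)

/-- polar data of a field -/
structure Pol (b : ℝ) (A : V n → Mt n) (a : V n → ℝ) (R P : V n → Mt n) : Prop where
  cf : CF A
  ma : Measurable a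
  mR : StronglyMeasurable R
  mP : StronglyMeasurable P
  orth : ∀ x, Orth (R x)
  str : ∀ x, Str b (P x)
  eq : ∀ x ∈ ball (0 : V n) 10, A x = Real.exp (a x) • (R x * (1 - P x))

/-- `β` is minus the divergence of `ξ` -/
def Dv (ξ : V n → V n) (β : V n → ℝ) : Prop :=
  Continuous ξ ∧ Continuous β ∧
    ∀ F : V n → ℝ, Test F 4 → ∫ x, ⟪ξ x, gradient F x⟫ = ∫ x, β x * F x

/-! ### averages -/

/-- scaled lower integral over a ball -/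
noncomputable def al (F : V n → ℝ≥0∞) (z : V n) (r : ℝ) : ℝ≥0∞ :=
  (ENNReal.ofReal (r ^ n))⁻¹ * ∫⁻ y in ball z r, F y

section
variable {E : Type} [NormedAddCommGroup E]

/-- double average of the squared oscillation -/
noncomputable def dav (g : V n → E) (z : V n) (r : ℝ) : ℝ≥0∞ :=
  al (fun y => al (fun y' => ‖g y - g y'‖ₑ ^ 2) z r) z r

/-- weighted double average -/
noncomputable def wav (w : V n → ℝ) (g : V n → E) (z : V n) (r : ℝ) : ℝ≥0∞ :=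
  al (fun y => ENNReal.ofReal (w y) * al (fun y' => ‖g y - g y'‖ₑ ^ 2) z (2 * r)) z r

/-- total oscillation at the scale `D` -/
noncomputable def OO (g : V n → E) (w D : V n → ℝ) : ℝ≥0∞ :=
  ∫⁻ z in ball (0 : V n) 4, (dav g z (D z / 2) + wav w g z (D z / 4))

/-- on every ball the function is close to a constant outside a small part -/
def BM (α β : ℝ) (g : V n → E) : Prop :=
  ∀ x ∈ ball (0 : V n) 10, ∀ r, 0 < r → r ≤ 10 →
    ∃ c : E, volume {y ∈ ball x r | β < ‖g y - c‖} ≤ ENNReal.ofReal (α * r ^ n)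

end

noncomputable def al0 (n : ℕ) : ℝ := (volume : Measure (V n)).real (ball 0 1) / (2 * 20 ^ n)

/-- a smooth gauge at the scale `D` -/
structure Gau (g : V n → ℝ × Mt n) (D : V n → ℝ) (C : ℝ) (c : V n → ℝ) (Q : V n → Mt n)
    (o : V n → ℝ) : Prop where
  sc : ContDiff ℝ ∞ c
  sQ : ContDiff ℝ ∞ Q
  mo : Measurable o
  o0 : ∀ x, 0 ≤ o x
  ole : ∀ x ∈ ball (0 : V n) 4, ENNReal.ofReal (o x ^ 2) ≤ ENNReal.ofReal C * dav g x (D x / 10)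
  dc : ∀ x ∈ ball (0 : V n) 4, ‖fderiv ℝ c x‖ ≤ o x / D x
  dQ : ∀ x ∈ ball (0 : V n) 4, ‖fderiv ℝ Q x‖ ≤ o x / D x
  Q1 : ∀ x ∈ ball (0 : V n) 4, ‖Q x‖ ≤ 1
  QQ : ∀ x ∈ ball (0 : V n) 4, ‖star (Q x) * Q x - 1‖ ≤ o x ^ 2
  dQQ : ∀ x ∈ ball (0 : V n) 4, ∀ v,
    ‖star (fderiv ℝ Q x v) * Q x + star (Q x) * fderiv ℝ Q x v‖ ≤ o x ^ 2 / D x * ‖v‖
  near : ∀ x ∈ ball (0 : V n) 4, ∀ e : ℝ × Mt n,
    ‖(c x, Q x) - e‖ₑ ^ 2 ≤ ENNReal.ofReal C * al (fun y => ‖g y - e‖ₑ ^ 2) x (D x / 10)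

/-- an admissible scale function -/
structure Scale (D : V n → ℝ) : Prop where
  lip : LipschitzWith 1 D
  low : ∃ r₀, 0 < r₀ ∧ ∀ x, r₀ ≤ D x
  up : ∀ x, D x ≤ 4

/-! ### the family of obstacle problems -/

structure Lev (n : ℕ) where
  θ : V n → ℝ
  δ : ℝ
  τ0 : ℝ
  m : ℝ
  N : ℕ
  u : ℕ → V n → ℝ
  G : ℕ → V n → V n
  D : ℕ → V n → Mt n
  J : V n → ℕ

namespace Lev

variable (L : Lev n)

noncomputable def τ (i : ℕ) : ℝ := L.τ0 * (1 + L.δ) ^ i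

def O (i : ℕ) : Set (V n) := {x | 0 < L.u i x}

structure Ok : Prop where
  δ0 : 0 < L.δ
  δ1 : L.δ ≤ 1
  τp : 0 < L.τ0
  m0 : 0 ≤ L.m
  mθ : Measurable L.θ
  θ0 : ∀ x, 0 ≤ L.θ x
  θ1 : ∀ x, L.θ x ≤ 1
  θs : ∀ x, 3 ≤ ‖x‖ → L.θ x = 0
  mass : ∫ x, L.θ x ≤ L.m
  h2 : ∀ i, H2 (L.u i) (L.G i) (L.D i)
  cont : ∀ i, Continuous (L.u i)
  u0 : ∀ i x, 0 ≤ L.u i x
  anti : ∀ i j x, i ≤ j → L.u j x ≤ L.u i x
  supp : L.O 0 ⊆ ball 0 3
  top : ∀ i x, L.N ≤ i → L.u i x = 0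
  sym : ∀ i x, star (L.D i x) = L.D i x
  on : ∀ i, ∀ x ∈ L.O i, tr (L.D i x) = n * L.τ i - L.θ x
  off : ∀ i, ∀ x ∉ L.O i, L.G i x = 0 ∧ L.D i x = 0 ∧ L.θ x ≤ n * L.τ i
  vol : ∀ i, volume (L.O i) ≤ ENNReal.ofReal (L.m / (n * L.τ i))
  mJ : Measurable L.J
  hJ : ∀ i x, 1 ≤ i → (x ∈ L.O i ↔ i ≤ L.J x)

/-- the exit level -/
noncomputable def s (x : V n) : ℝ := L.τ (L.J x)

noncomputable def H (x : V n) : Mt n := L.τ0 • (1 : Mt n) - L.D 0 x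

noncomputable def h (i : ℕ) : V n → Mt n :=
  (L.O i).indicator fun x => L.H x + L.D i x - L.τ i • (1 : Mt n)

noncomputable def Y (i : ℕ) (x : V n) : ℝ := L.u (i + 1) x - L.u i x

noncomputable def GY (i : ℕ) (x : V n) : V n := L.G (i + 1) x - L.G i x

noncomputable def DY (i : ℕ) (x : V n) : Mt n := L.D (i + 1) x - L.D i x

noncomputable def g (b : ℝ) : ℝ := 1 + L.δ * b

noncomputable def bp (b : ℝ) : ℝ := (1 - b) / L.g b

/-- the strain of the model -/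
noncomputable def Ps (b : ℝ) (x : V n) : Mt n := b • ((1 : Mt n) - (L.s x)⁻¹ • L.H x)

noncomputable def ca (b : ℝ) (j i : ℕ) : ℝ := b * L.g b ^ (i - j) / L.τ i

noncomputable def cb (b : ℝ) (j j' i : ℕ) : ℝ := if i < j' then (L.g b ^ (i - j))⁻¹ else 0

noncomputable def be (b : ℝ) (j j' M : ℕ) : ℝ :=
  ∑ i ∈ Finset.Ico j M, L.cb b j j' i * (L.δ * L.τ i)

noncomputable def cc (b : ℝ) (j j' M : ℕ) : ℝ :=
  L.cb b j j' M * L.g b ^ (M - j) + L.ca b j M * L.be b j j' (M + 1)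

noncomputable def v (b : ℝ) (j : ℕ) (x : V n) : ℝ := L.g b ^ (L.J x - j)

/-- the Hessian of the model potential -/
noncomputable def DP (b : ℝ) (j : ℕ) (x : V n) : Mt n :=
  1 + ∑ i ∈ Finset.Ico j L.N, L.ca b j i • L.DY i x

noncomputable def hh (b : ℝ) (j : ℕ) (x : V n) : Mt n :=
  L.DP b j x - L.v b j x • ((1 : Mt n) - L.Ps b x)

noncomputable def Z (b : ℝ) (j j' : ℕ) (x : V n) : ℝ :=
  ∑ i ∈ Finset.Ico j L.N, L.cb b j j' i * L.Y i x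

noncomputable def GZ (b : ℝ) (j j' : ℕ) (x : V n) : V n :=
  ∑ i ∈ Finset.Ico j L.N, L.cb b j j' i • L.GY i x

noncomputable def DZ (b : ℝ) (j j' : ℕ) (x : V n) : Mt n :=
  ∑ i ∈ Finset.Ico j L.N, L.cb b j j' i • L.DY i x

noncomputable def muP (b : ℝ) (P : V n → Mt n) (j j' : ℕ) (x : V n) : ℝ :=
  hs (T1 (1 - P x)) (L.v b j x • L.DZ b j j' x)

noncomputable def muI (b : ℝ) (j j' : ℕ) (x : V n) : ℝ :=
  ((n : ℝ) - 1) * ∑ M ∈ Finset.Ico j L.N, L.cc b j j' M * tr (L.DY M x)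

noncomputable def HH (j j' : ℕ) (x : V n) : ℝ :=
  ‖L.h j x‖ ^ 2 + ‖L.h j' x‖ ^ 2 + L.δ * ∑ i ∈ Finset.Ico j j', ‖L.h i x‖ ^ 2

noncomputable def KK (b : ℝ) (x : V n) : Mt n :=
  (b * L.δ) • ∑ i ∈ Finset.range L.N, L.v b i x • L.h i x

noncomputable def kk : ℝ≥0∞ :=
  ∑ j ∈ Finset.range L.N, ENNReal.ofReal (L.δ / L.τ j) * ∫⁻ x, ‖L.h j x‖ₑ ^ 2

/-- the normalised logarithm of the conformal factor -/
noncomputable def ap (b : ℝ) (a : V n → ℝ) (x : V n) : ℝ := a x - L.J x * Real.log (L.g b)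

noncomputable def gg (b : ℝ) (a : V n → ℝ) (R : V n → Mt n) (x : V n) : ℝ × Mt n :=
  (L.ap b a x, R x)

noncomputable def w (j : ℕ) (x : V n) : ℝ := wt (L.s x / L.τ j)

/-- the source of the oscillation estimate -/
noncomputable def ze (b : ℝ) (P : V n → Mt n) (j : ℕ) (x : V n) : ℝ :=
  L.v b j x ^ 2 * ‖P x - L.Ps b x‖ ^ 2 + ‖L.hh b j x‖ ^ 2

/-- the density of the errors of one block that are not oscillations -/
noncomputable def rest (b : ℝ) (P : V n → Mt n) (j j' : ℕ) (x : V n) : ℝ :=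
  L.τ j * L.ze b P j x + b ^ 2 * L.HH j j' x / L.τ j +
    if L.J x < j' then L.s x * (e2 (P x) + L.δ * b ^ 2 + ‖P x - L.Ps b x‖ ^ 2) else 0

noncomputable def Rest (b : ℝ) (P : V n → Mt n) (j j' : ℕ) : ℝ≥0∞ :=
  ∫⁻ x in L.O j, ENNReal.ofReal (L.rest b P j j' x)

/-- the slack, times `2 b` -/
noncomputable def Sl (b : ℝ) (P : V n → Mt n) : ℝ≥0∞ :=
  ENNReal.ofReal (b ^ 2) * L.kk +
    ∫⁻ x in L.O 0, ENNReal.ofReal (L.s x * (e2 (P x) + L.δ * b ^ 2 + ‖P x - L.Ps b x‖ ^ 2))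

/-- the levels from `j` on have small density at all scales above `D` -/
def Dn (j : ℕ) (D : V n → ℝ) (c : ℝ) : Prop :=
  ∀ z, ∃ x₀, dist x₀ z ≤ D z ∧ ∀ i r, j ≤ i → D z ≤ r →
    volume (L.O i ∩ ball x₀ r) ≤ ENNReal.ofReal (c * (L.τ j / L.τ i) * r ^ n)

/-- weighted energy bounds for the single level pieces -/
def YW (j : ℕ) (D o : V n → ℝ) (Ω : ℝ≥0∞) : Prop :=
  ∀ M, j ≤ M →
    ∫⁻ x, ENNReal.ofReal ((o x / D x) ^ 2 * ‖L.GY M x‖ ^ 2) ≤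
      ENNReal.ofReal (L.δ ^ 2 * L.τ M * L.τ j) * Ω ∧
    ∫⁻ x, ENNReal.ofReal ((o x / D x) ^ 2 * |L.Y M x|) ≤ ENNReal.ofReal (L.δ * L.τ j) * Ω

/-- a sequence of block ends -/
structure Blk (ι : ℕ → ℕ) (Λ : ℝ) : Prop where
  zero : ι 0 = 0
  mono : StrictMono ι
  low : ∀ k, Λ * L.τ (ι k) ≤ L.τ (ι (k + 1))
  up : ∀ k, L.τ (ι (k + 1)) ≤ 4 * Λ ^ 2 * L.τ (ι k)
  ends : ∑ k ∈ Finset.range L.N, ENNReal.ofReal (1 / L.τ (ι k)) * ∫⁻ x, ‖L.h (ι k) x‖ₑ ^ 2 ≤ L.kk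

end Lev

/-! ### nested families -/

structure Nest (O : ℕ → Set (V n)) (σ : ℕ → ℝ) (s : V n → ℝ) (Λ C : ℝ) : Prop where
  opn : ∀ k, IsOpen (O k)
  anti : Antitone O
  sub : O 0 ⊆ ball 0 3
  pos : ∀ k, 0 < σ k
  low : ∀ k, Λ * σ k ≤ σ (k + 1)
  up : ∀ k, σ (k + 1) ≤ 4 * Λ ^ 2 * σ k
  ms : Measurable s
  s0 : ∀ x, 0 < s x
  sle : ∀ k, ∀ x ∉ O k, s x ≤ σ k
  den : ∀ k, ∀ x ∉ O k, ∀ r, 0 < r →
    volume (O (k + 1) ∩ ball x r) ≤ ENNReal.ofReal (C * (σ k / σ (k + 1)) * r ^ n)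
  avg : ∀ k, ∀ x ∉ O k, ∀ r, 0 < r →
    al (fun y => ENNReal.ofReal (wt (s y / σ k))) x r ≤ ENNReal.ofReal C

section
variable {E : Type} [NormedAddCommGroup E]

noncomputable def NN (O : ℕ → Set (V n)) (σ : ℕ → ℝ) (g : V n → E) (k : ℕ) : ℝ≥0∞ :=
  ENNReal.ofReal (σ k) * ∫⁻ z in O k, dav g z (infDist z (O k)ᶜ / 2)

noncomputable def TT (O : ℕ → Set (V n)) (σ : ℕ → ℝ) (s : V n → ℝ) (g : V n → E) (k : ℕ) : ℝ≥0∞ :=
  ENNReal.ofReal (σ k) * ∫⁻ z in O k, wav (fun y => wt (s y / σ k)) g z (infDist z (O k)ᶜ / 4)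

/-- around every value the function is, on `U`, a curl free field up to the error `e` -/
def Lin (g : V n → E) (U : Set (V n)) (w ζ : V n → ℝ) (b C : ℝ) : Prop :=
  ∀ y₀, ∃ (Ξ : V n → Mt n) (e : V n → ℝ), CF Ξ ∧ Measurable e ∧ ∀ y ∈ U,
    0 ≤ e y ∧ Dev (Ξ y) (e y) ∧ ‖Ξ y‖ ≤ C * ‖g y - g y₀‖ + e y ∧
    (∀ y' ∈ U, ‖g y - g y'‖ ≤ C * ‖Ξ y - Ξ y'‖ + e y + e y') ∧
    e y ^ 2 ≤ C * b ^ 2 * (w y * ‖g y - g y₀‖ ^ 2 + Psi b ‖g y - g y₀‖) + C * ζ y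

end

end Pool.Agent.MP_29b5d3_an.EX

end MrgPart0

-- ======== part 1: formerly Pool.Agent.MP_29b5d3_an.EX.Spec
section MrgPart1

/-! Project EXQ: the statements of the modules. Throughout `3 ≤ n`. -/

set_option autoImplicit false

namespace Pool.Agent.MP_29b5d3_an.EX

open MeasureTheory Metric Filter Topology Module Pool.Agent.MP_29b5d3_an.NC
open scoped RealInnerProductSpace ContDiff ENNReal

/-! ### calculus -/

/-- the second Korn identity for curl free fields -/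
def KORN (n : ℕ) : Prop :=
  ∃ C : ℝ, 0 < C ∧ ∀ (θ : V n → ℝ) (R : ℝ) (F : V n → Mt n) (g : V n → ℝ),
    Test θ R → CF F → IntegrableOn g (ball 0 R) volume →
    (∀ᵐ y, y ∈ ball (0 : V n) R → Dev (F y) (g y)) → ∀ a b : V n,
      |∫ y, ⟪a, F y b⟫ * lap θ y| ≤ C * ‖a‖ * ‖b‖ * ∫ y in ball (0 : V n) R, g y * ‖hess θ y‖

/-- curl free fields -/
structure CFS (n : ℕ) : Prop where
  ofW : ∀ (f : V n → V n) (F : V n → Mt n), W f F → CF F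
  const : ∀ M : Mt n, CF fun _ : V n => M
  add : ∀ A B : V n → Mt n, CF A → CF B → CF fun x => A x + B x
  sub : ∀ A B : V n → Mt n, CF A → CF B → CF fun x => A x - B x
  smul : ∀ (c : ℝ) (A : V n → Mt n), CF A → CF fun x => c • A x
  mul : ∀ (M : Mt n) (A : V n → Mt n), CF A → CF fun x => M * A x
  congr : ∀ A B : V n → Mt n, CF A → StronglyMeasurable B → A =ᵐ[volume] B → CF B
  loc : ∀ A : V n → Mt n, CF A → LocallyIntegrable A volume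
  resc : ∀ (A : V n → Mt n) (z : V n) (r : ℝ), CF A → r ≠ 0 → CF fun y => A (z + r • y)
  korn : KORN n

/-- the class `H2`: linear structure -/
structure H2L (n : ℕ) : Prop where
  test : ∀ φ : V n → ℝ, Test φ 4 → H2 φ (gradient φ) (hess φ)
  sub : ∀ (u u' : V n → ℝ) (G G' : V n → V n) (D D' : V n → Mt n), H2 u G D → H2 u' G' D' →
    H2 (fun x => u x - u' x) (fun x => G x - G' x) fun x => D x - D' x
  smul : ∀ (c : ℝ) (u : V n → ℝ) (G : V n → V n) (D : V n → Mt n), H2 u G D →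
    H2 (fun x => c * u x) (fun x => c • G x) fun x => c • D x
  sum : ∀ (s : Finset ℕ) (c : ℕ → ℝ) (u : ℕ → V n → ℝ) (G : ℕ → V n → V n) (D : ℕ → V n → Mt n),
    (∀ i ∈ s, H2 (u i) (G i) (D i)) →
    H2 (fun x => ∑ i ∈ s, c i * u i x) (fun x => ∑ i ∈ s, c i • G i x) fun x => ∑ i ∈ s, c i • D i x
  congr : ∀ (u u' : V n → ℝ) (G G' : V n → V n) (D D' : V n → Mt n), H2 u G D →
    StronglyMeasurable u' → StronglyMeasurable G' → StronglyMeasurable D' →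
    (∀ x, 4 ≤ ‖x‖ → u' x = 0 ∧ G' x = 0 ∧ D' x = 0) →
    u =ᵐ[volume] u' → G =ᵐ[volume] G' → D =ᵐ[volume] D' → H2 u' G' D'
  lp : ∀ (u : V n → ℝ) (G : V n → V n) (D : V n → Mt n), H2 u G D →
    MemLp u 2 volume ∧ MemLp G 2 volume ∧ MemLp D 2 volume
  int : ∀ (u : V n → ℝ) (G : V n → V n) (D : V n → Mt n), H2 u G D →
    Integrable u volume ∧ Integrable G volume ∧ Integrable D volume

/-- the class `H2`: weak derivatives -/
structure H2W (n : ℕ) : Prop where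
  weak : ∀ (u : V n → ℝ) (G : V n → V n) (D : V n → Mt n), H2 u G D →
    ∀ (ψ : V n → ℝ) (R : ℝ), Test ψ R → ∀ v, ∫ x, u x * fderiv ℝ ψ x v = -∫ x, ⟪G x, v⟫ * ψ x
  lapw : ∀ (u : V n → ℝ) (G : V n → V n) (D : V n → Mt n), H2 u G D →
    ∀ (ψ : V n → ℝ) (R : ℝ), Test ψ R → ∫ x, u x * lap ψ x = ∫ x, tr (D x) * ψ x
  cf : ∀ (u : V n → ℝ) (G : V n → V n) (D : V n → Mt n), H2 u G D → CF D
  hl2 : ∀ (v : V n → ℝ) (R : ℝ), Test v R → ∫ x, hs (hess v x) (hess v x) = ∫ x, lap v x ^ 2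

structure H2A (n : ℕ) : Prop extends H2L n, H2W n

/-- the gauge identity -/
structure H2B (n : ℕ) : Prop where
  gauge : ∀ (Γ A : V n → Mt n) (u : V n → ℝ) (G : V n → V n) (D : V n → Mt n),
    ContDiff ℝ ∞ Γ → CF A → H2 u G D →
    Integrable (fun x => hs (T1 (Γ x * A x)) (D x)) volume ∧
    Integrable (fun x => gz (fderiv ℝ Γ x) (A x) (G x)) volume ∧
    ∫ x, hs (T1 (Γ x * A x)) (D x) = ∫ x, gz (fderiv ℝ Γ x) (A x) (G x)
  null : ∀ (A : V n → Mt n) (u : V n → ℝ) (G : V n → V n) (D : V n → Mt n), CF A → H2 u G D →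
    Integrable (fun x => hs (T1 (A x)) (D x)) volume ∧ ∫ x, hs (T1 (A x)) (D x) = 0
  scal : ∀ (c : V n → ℝ) (A : V n → Mt n) (u : V n → ℝ) (G : V n → V n) (D : V n → Mt n),
    ContDiff ℝ ∞ c → CF A → H2 u G D →
    Integrable (fun x => c x * hs (T1 (A x)) (D x)) volume ∧
    Integrable (fun x => fderiv ℝ c x (T1 (A x) (G x))) volume ∧
    ∫ x, fderiv ℝ c x (T1 (A x) (G x)) = -∫ x, c x * hs (T1 (A x)) (D x)

/-- products of two functions of class `H2` -/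
structure H2C (n : ℕ) : Prop where
  dv1 : ∀ (ξ : V n → V n) (β u : V n → ℝ) (G : V n → V n) (D : V n → Mt n), Dv ξ β → H2 u G D →
    Integrable (fun x => ⟪ξ x, G x⟫) volume ∧ Integrable (fun x => β x * u x) volume ∧
    ∫ x, ⟪ξ x, G x⟫ = ∫ x, β x * u x
  dv2 : ∀ (ξ : V n → V n) (β u u' : V n → ℝ) (G G' : V n → V n) (D D' : V n → Mt n), Dv ξ β →
    H2 u G D → H2 u' G' D' →
    Integrable (fun x => ⟪ξ x, D x (G' x)⟫) volume ∧
    Integrable (fun x => β x * ⟪G x, G' x⟫) volume ∧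
    (∫ x, ⟪ξ x, D x (G' x)⟫) + ∫ x, ⟪ξ x, D' x (G x)⟫ = ∫ x, β x * ⟪G x, G' x⟫
  cacc : ∀ (u η : V n → ℝ) (R : ℝ) (G : V n → V n) (D : V n → Mt n), H2 u G D → Test η R →
    ∫ x, η x ^ 2 * ‖G x‖ ^ 2 ≤
      -2 * (∫ x, η x ^ 2 * (u x * tr (D x))) + 4 * ∫ x, u x ^ 2 * ‖gradient η x‖ ^ 2

/-- Fubini at a Whitney scale -/
structure WF (n : ℕ) : Prop where
  low : ∀ c : ℝ, 0 < c → c ≤ 1 / 2 → ∃ C : ℝ, 0 < C ∧ ∀ (D : V n → ℝ) (F : V n → ℝ≥0∞),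
    LipschitzWith 1 D → Measurable F →
    ∫⁻ x in {x | 0 < D x}, F x ≤ ENNReal.ofReal C * ∫⁻ z in {z | 0 < D z}, al F z (c * D z)
  up : ∀ c : ℝ, 0 < c → c ≤ 1 / 2 → ∃ C : ℝ, 0 < C ∧ ∀ (D : V n → ℝ) (F : V n → ℝ≥0∞),
    LipschitzWith 1 D → Measurable F →
    ∫⁻ z in {z | 0 < D z}, al F z (c * D z) ≤ ENNReal.ofReal C * ∫⁻ x in {x | 0 < D x}, F x
  center : ∃ C : ℝ, 0 < C ∧ ∀ (E : Type) [NormedAddCommGroup E] (g : V n → E) (w : V n → ℝ)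
    (z : V n) (r : ℝ), StronglyMeasurable g → Measurable w → 0 < r → ∃ y₀,
      al (fun y => ‖g y - g y₀‖ₑ ^ 2) z (2 * r) ≤ ENNReal.ofReal C * dav g z (2 * r) ∧
      al (fun y => ENNReal.ofReal (w y) * ‖g y - g y₀‖ₑ ^ 2) z r ≤ ENNReal.ofReal C * wav w g z r

/-- the tail estimate of John and Nirenberg -/
def JN1 (n : ℕ) : Prop :=
  ∀ (E : Type) [NormedAddCommGroup E] (g : V n → E) (β t r : ℝ) (z : V n) (c : E),
    StronglyMeasurable g → 0 ≤ β → BM (al0 n) β g → 0 < r → ‖z‖ + 2 * r ≤ 10 →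
    volume {y ∈ ball z (2 * r) | t < ‖g y - c‖} ≤ ENNReal.ofReal (al0 n * (2 * r) ^ n) →
    ∀ j : ℕ, volume {y ∈ ball z r | t + 2 * j * β < ‖g y - c‖} ≤
      2⁻¹ ^ j * volume {y ∈ ball z (2 * r) | t < ‖g y - c‖}

/-- moments -/
structure JN2 (n : ℕ) : Prop where
  cen : ∀ Cβ : ℝ, 0 < Cβ → ∃ C : ℝ, 0 < C ∧ ∀ (E : Type) [NormedAddCommGroup E] (g : V n → E)
    (b r : ℝ) (z : V n) (c : E), StronglyMeasurable g → 0 < b → BM (al0 n) (Cβ * b) g → 0 < r →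
    ‖z‖ + 2 * r ≤ 10 →
    volume {y ∈ ball z (2 * r) | Cβ * b < ‖g y - c‖} ≤ ENNReal.ofReal (al0 n * (2 * r) ^ n) →
    al (fun y => ‖g y - c‖ₑ ^ 2) z r ≤ ENNReal.ofReal (C * b ^ 2)
  dav : ∀ Cβ : ℝ, 0 < Cβ → ∃ C : ℝ, 0 < C ∧ ∀ (E : Type) [NormedAddCommGroup E] (g : V n → E)
    (b r : ℝ) (z : V n), StronglyMeasurable g → 0 < b → BM (al0 n) (Cβ * b) g → 0 < r →
    ‖z‖ + 2 * r ≤ 10 → dav g z r ≤ ENNReal.ofReal (C * b ^ 2)
  psi : ∀ Cβ C₁ : ℝ, 0 < Cβ → 0 < C₁ → ∃ C b₀ : ℝ, 0 < C ∧ 0 < b₀ ∧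
    ∀ (E : Type) [NormedAddCommGroup E] (g : V n → E) (b r : ℝ) (z : V n) (c : E),
    StronglyMeasurable g → 0 < b → b ≤ b₀ → BM (al0 n) (Cβ * b) g → 0 < r → ‖z‖ + 2 * r ≤ 10 →
    al (fun y => ‖g y - c‖ₑ ^ 2) z (2 * r) ≤ ENNReal.ofReal (C₁ * b ^ 2) →
    al (fun y => ENNReal.ofReal (Psi b ‖g y - c‖)) z r ≤
      ENNReal.ofReal C * al (fun y => ‖g y - c‖ₑ ^ 2) z (2 * r)

/-- layer cake -/
def LAY (n : ℕ) : Prop :=
  ∃ C : ℝ, 0 < C ∧ ∀ (f : V n → ℝ) (S : Set (V n)) (c : ℝ), Measurable f → MeasurableSet S →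
    0 ≤ c → (∀ l : ℝ, 1 ≤ l → volume {y ∈ S | l < f y} ≤ ENNReal.ofReal (c / l)) →
    ∫⁻ y in S, ENNReal.ofReal √(f y) ≤ volume S + ENNReal.ofReal (C * c)

/-- continuity of translations -/
def L0 (n : ℕ) : Prop :=
  ∀ (E : Type) [NormedAddCommGroup E] [NormedSpace ℝ E] (g : V n → E), StronglyMeasurable g →
    ∫⁻ x in ball (0 : V n) 5, ‖g x‖ₑ ^ 2 < ⊤ →
    Tendsto (fun r : ℝ => ∫⁻ z in ball (0 : V n) 4, dav g z r) (𝓝[>] 0) (𝓝 0)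

/-- numbers -/
structure NUM : Prop where
  pow : ∃ C b₀ : ℝ, 0 < C ∧ 0 < b₀ ∧ ∀ (δ b : ℝ) (t : ℕ), 0 < δ → δ ≤ 1 → 0 < b → b ≤ b₀ →
    ((1 + δ * b) ^ t) ^ 4 ≤ wt ((1 + δ) ^ t) ∧
    ((1 + δ * b) ^ t - 1) ^ 4 ≤ C * b ^ 4 * wt ((1 + δ) ^ t)
  log : ∀ δ b : ℝ, 0 < δ → 0 ≤ b → Real.log (1 + δ * b) ≤ (1 + δ) * b * Real.log (1 + δ)
  geo : ∃ C : ℝ, 0 < C ∧ ∀ (δ : ℝ) (j N : ℕ), 0 < δ → δ ≤ 1 →
    δ * ∑ i ∈ Finset.Ico j N, (wt ((1 + δ) ^ (i - j)))⁻¹ ≤ C ∧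
    δ * ∑ i ∈ Finset.range (N + 1), (wt ((1 + δ) ^ (N - i)))⁻¹ ≤ C

/-! ### the obstacle package -/

def OBS (n : ℕ) : Prop :=
  ∃ (κ : V n → ℝ) (C : ℝ), Test κ 1 ∧ (∀ y, 0 ≤ κ y) ∧ ∫ y, κ y = 1 ∧ 0 < C ∧
    ∀ (E : Set (V n)) (r δ τ0 : ℝ), MeasurableSet E → E ⊆ ball 0 1 → 0 < r → r ≤ 1 → 0 < δ →
    δ ≤ 1 → 0 < τ0 → C * volume.real E ≤ τ0 →
    ∃ L : Lev n, L.Ok ∧ L.δ = δ ∧ L.τ0 = τ0 ∧ L.m = volume.real E ∧
      (L.θ =ᵐ[volume] fun x => av κ (E.indicator fun _ => (1 : ℝ)) x r) ∧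
      (1 ≤ L.N → n * L.τ (L.N - 1) ≤ 1)

/-- quadratic growth at zeros -/
def QG (n : ℕ) : Prop :=
  ∃ C : ℝ, 0 < C ∧ ∀ (u : V n → ℝ) (G : V n → V n) (D : V n → Mt n) (M : ℝ), H2 u G D →
    Continuous u → (∀ x, 0 ≤ u x) → (∀ x, |tr (D x)| ≤ M) →
    (∀ x x₀, u x₀ = 0 → u x ≤ C * M * ‖x - x₀‖ ^ 2) ∧
    ∀ᵐ x, ∀ x₀, u x₀ = 0 → ‖G x‖ ≤ C * M * ‖x - x₀‖

/-- the density lemma -/
def DEN (n : ℕ) : Prop :=
  ∃ C : ℝ, 0 < C ∧ ∀ L : Lev n, L.Ok → ∀ (j i : ℕ) (x : V n) (r : ℝ), j ≤ i → x ∉ L.O j → 0 < r →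
    volume (L.O i ∩ ball x r) ≤ ENNReal.ofReal (C * (L.τ j / L.τ i) * r ^ n)

/-- single level pieces -/
def YS (n : ℕ) : Prop :=
  ∃ c₀ C : ℝ, 0 < c₀ ∧ 0 < C ∧ ∀ (L : Lev n) (j : ℕ) (D : V n → ℝ), L.Ok → (∀ z, 0 < D z) →
    L.Dn j D c₀ → ∀ (M : ℕ) (z : V n), j ≤ M →
    al (fun y => ENNReal.ofReal (‖L.GY M y‖ ^ 2)) z (D z / 2) ≤
      ENNReal.ofReal (C * (L.δ ^ 2 * L.τ M * L.τ j) * D z ^ 2) ∧
    al (fun y => ENNReal.ofReal |L.Y M y|) z (D z / 2) ≤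
      ENNReal.ofReal (C * (L.δ * L.τ j) * D z ^ 2)

/-! ### algebra of the levels -/

/-- basic facts, pointwise -/
structure LV1 (n : ℕ) : Prop where
  τpos : ∀ L : Lev n, L.Ok → ∀ i, 0 < L.τ i
  τmono : ∀ L : Lev n, L.Ok → Monotone L.τ
  τdiv : ∀ L : Lev n, L.Ok → ∀ i j, j ≤ i → L.τ i / L.τ j = (1 + L.δ) ^ (i - j)
  opn : ∀ L : Lev n, L.Ok → ∀ i, IsOpen (L.O i)
  anti : ∀ L : Lev n, L.Ok → Antitone L.O
  empty : ∀ L : Lev n, L.Ok → ∀ i, L.N ≤ i → L.O i = ∅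
  Jle : ∀ L : Lev n, L.Ok → ∀ x, L.J x ≤ L.N - 1
  J0 : ∀ L : Lev n, L.Ok → ∀ x ∉ L.O 0, L.J x = 0
  mem : ∀ L : Lev n, L.Ok → ∀ i x, x ∈ L.O i ↔ x ∈ L.O 0 ∧ i ≤ L.J x
  trH : ∀ L : Lev n, L.Ok → ∀ x ∈ L.O 0, tr (L.H x) = L.θ x ∧ L.θ x ≤ n * ((1 + L.δ) * L.s x)
  Hsym : ∀ L : Lev n, L.Ok → ∀ (b : ℝ) (j : ℕ) (x : V n), star (L.H x) = L.H x ∧
    star (L.Ps b x) = L.Ps b x ∧ star (L.DY j x) = L.DY j x ∧ star (L.DP b j x) = L.DP b j x ∧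
    star (L.hh b j x) = L.hh b j x
  hsym : ∀ L : Lev n, L.Ok → ∀ i x, star (L.h i x) = L.h i x ∧ tr (L.h i x) = 0
  h0 : ∀ L : Lev n, L.Ok → ∀ x, L.h 0 x = 0
  DYlt : ∀ L : Lev n, L.Ok → ∀ i x, i < L.J x →
    L.DY i x = (L.δ * L.τ i) • (1 : Mt n) + L.h (i + 1) x - L.h i x
  DYeq : ∀ L : Lev n, L.Ok → ∀ x ∈ L.O 0,
    L.DY (L.J x) x = L.H x - L.s x • (1 : Mt n) - L.h (L.J x) x
  off : ∀ L : Lev n, L.Ok → ∀ i, ∀ x ∉ L.O i,
    L.Y i x = 0 ∧ L.GY i x = 0 ∧ L.DY i x = 0 ∧ L.h i x = 0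
  offZ : ∀ L : Lev n, L.Ok → ∀ (b : ℝ) (P : V n → Mt n) (j j' : ℕ), ∀ x ∉ L.O j,
    L.Z b j j' x = 0 ∧ L.GZ b j j' x = 0 ∧ L.DZ b j j' x = 0 ∧ L.muP b P j j' x = 0 ∧
    L.muI b j j' x = 0 ∧ L.DP b j x = 1
  vw : ∃ C b₀ : ℝ, 0 < C ∧ 0 < b₀ ∧ ∀ L : Lev n, L.Ok → ∀ (b : ℝ) (j : ℕ), 0 < b → b ≤ b₀ →
    ∀ x ∈ L.O j, 1 ≤ L.v b j x ∧ L.v b j x ^ 4 ≤ L.w j x ∧
      (L.v b j x - 1) ^ 4 ≤ C * b ^ 4 * L.w j x

/-- basic facts, function classes -/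
structure LV2 (n : ℕ) : Prop where
  h2Y : ∀ L : Lev n, L.Ok → ∀ i, H2 (L.Y i) (L.GY i) (L.DY i)
  h2Z : ∀ L : Lev n, L.Ok → ∀ (b : ℝ) (j j' : ℕ), H2 (L.Z b j j') (L.GZ b j j') (L.DZ b j j')
  cfP : ∀ L : Lev n, L.Ok → ∀ (b : ℝ) (j : ℕ), CF (L.DP b j)
  hlp : ∀ L : Lev n, L.Ok → ∀ i, MemLp (L.h i) 2 volume
  ms : ∀ L : Lev n, L.Ok → ∀ (b : ℝ) (j j' : ℕ), Measurable L.s ∧ Measurable (L.v b j) ∧
    Measurable (L.w j) ∧ Measurable (L.muI b j j') ∧ Measurable (L.HH j j')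
  mM : ∀ L : Lev n, L.Ok → ∀ (b : ℝ) (j : ℕ), StronglyMeasurable L.H ∧ StronglyMeasurable (L.h j) ∧
    StronglyMeasurable (L.Ps b) ∧ StronglyMeasurable (L.DP b j) ∧ StronglyMeasurable (L.hh b j) ∧
    StronglyMeasurable (L.KK b)
  mP : ∀ L : Lev n, L.Ok → ∀ (b : ℝ) (P : V n → Mt n) (j j' : ℕ), StronglyMeasurable P →
    Measurable (L.muP b P j j') ∧ Measurable (L.ze b P j) ∧ Measurable (L.rest b P j j') ∧
    Measurable fun x => e2 (P x)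
  mg : ∀ L : Lev n, L.Ok → ∀ (b : ℝ) (a : V n → ℝ) (R : V n → Mt n), Measurable a →
    StronglyMeasurable R → Measurable (L.ap b a) ∧ StronglyMeasurable (L.gg b a R)

structure LV (n : ℕ) : Prop extends LV1 n, LV2 n

/-- the model and the sums inside one block -/
structure ALG1 (n : ℕ) : Prop where
  hh : ∀ L : Lev n, L.Ok → ∀ (b : ℝ) (j : ℕ), 0 < b → b < 1 → ∀ x ∈ L.O j,
    L.hh b j x = -(b / L.τ j) • L.h j x +
      (b * L.bp b * L.δ) • ∑ i ∈ Finset.Ioc j (L.J x), (L.g b ^ (i - j) / L.τ i) • L.h i x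
  part : ∀ Λ : ℝ, 0 < Λ → ∃ C : ℝ, 0 < C ∧ ∀ L : Lev n, L.Ok → ∀ (b : ℝ) (j j' M : ℕ), 0 < b →
    b < 1 → j < j' → L.τ j' ≤ Λ * L.τ j → j ≤ M →
    0 ≤ L.be b j j' M ∧ L.be b j j' M ≤ C * L.τ j ∧ L.δ * ((j' - j : ℕ) : ℝ) ≤ C ∧
    (M ≤ j' → L.g b ^ (M - j) ≤ C) ∧ ∀ x ∈ L.O M,
      (M < j' → ‖∑ i ∈ Finset.Ico j M, L.ca b j i • L.DY i x -
          (L.g b ^ (M - j) - 1) • (1 : Mt n)‖ ^ 2 ≤
        C * b ^ 2 * (L.HH j j' x + ‖L.h M x‖ ^ 2) / L.τ j ^ 2) ∧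
      ‖∑ i ∈ Finset.Ico j M, L.cb b j j' i • L.DY i x - L.be b j j' M • (1 : Mt n)‖ ^ 2 ≤
        C * (L.HH j j' x + if M < j' then ‖L.h M x‖ ^ 2 else 0)
  X : ∀ Λ : ℝ, 0 < Λ → ∃ C : ℝ, 0 < C ∧ ∀ L : Lev n, L.Ok → ∀ (b : ℝ) (j j' : ℕ), 0 < b → b < 1 →
    j < j' → L.τ j' ≤ Λ * L.τ j → ∀ x ∈ L.O j, ∃ K : Mt n, star K = K ∧ tr K = 0 ∧
      ‖K‖ ^ 2 ≤ C * L.v b j x ^ 2 * L.HH j j' x ∧
      L.v b j x • L.DZ b j j' x = (L.v b j x * L.be b j j' (L.J x)) • (1 : Mt n) + K +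
        (if L.J x < j' then (1 : ℝ) else 0) • (L.H x - L.s x • (1 : Mt n))

/-- the isotropic measures and the sums over all blocks -/
structure ALG2 (n : ℕ) : Prop where
  muI : ∀ L : Lev n, L.Ok → ∀ (b : ℝ) (j j' : ℕ), 0 < b → b < 1 → j < j' → ∀ x ∈ L.O j,
    L.muI b j j' x = ((n : ℝ) - 1) * (L.v b j x * L.be b j j' (L.J x) * tr (1 - L.Ps b x) +
      (if L.J x < j' then (1 : ℝ) else 0) * (L.g b * (tr (L.H x) - n * L.s x)))
  sumX : ∀ L : Lev n, L.Ok → ∀ (b : ℝ) (ι : ℕ → ℕ), 0 < b → b < 1 → StrictMono ι → ι 0 = 0 →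
    ∀ x ∈ L.O 0, ∑ k ∈ Finset.range L.N, L.v b (ι k) x • L.DZ b (ι k) (ι (k + 1)) x =
      L.H x + ((1 / L.bp b - 1) * L.s x) • (1 : Mt n) -
        (L.τ0 * L.v b 0 x / L.bp b) • (1 : Mt n) + L.KK b x
  sumI : ∀ L : Lev n, L.Ok → ∀ (b : ℝ) (ι : ℕ → ℕ), 0 < b → b < 1 → StrictMono ι → ι 0 = 0 →
    ∀ x ∈ L.O 0, ∑ k ∈ Finset.range L.N, L.muI b (ι k) (ι (k + 1)) x =
      ((n : ℝ) - 1) / L.bp b * (L.θ x - L.τ0 * L.v b 0 x * tr (1 - L.Ps b x))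

/-! ### pointwise inequalities -/

structure PW (n : ℕ) : Prop where
  e2b : ∃ C : ℝ, 0 < C ∧ ∀ (b : ℝ) (P : Mt n), Str b P → 0 ≤ e2 P ∧ e2 P ≤ C * b ^ 2
  main : ∃ b₀ : ℝ, 0 < b₀ ∧ ∀ (b δ s : ℝ) (P H : Mt n), 0 < b → b ≤ b₀ → 0 < δ → δ ≤ 1 → 0 < s →
    Str b P → star H = H → 0 ≤ tr H → tr H ≤ 2 * n * s →
    b / 2 * (n * ((n : ℝ) - 1) * (1 + 2 * δ) * s - (hs H H - tr H ^ 2 / n) / s) +
        s * (e2 P + ‖P - b • ((1 : Mt n) - s⁻¹ • H)‖ ^ 2) / (2 * b) ≤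
      hs (T1 (1 - P)) (H + ((1 / ((1 - b) / (1 + δ * b)) - 1) * s) • (1 : Mt n))

/-- the left side of the gauge identity -/
def E1 (n : ℕ) : Prop :=
  ∀ C₁ : ℝ, 0 < C₁ → ∃ C b₀ : ℝ, 0 < C ∧ 0 < b₀ ∧
    ∀ (b δ σ s v w α χ η a t o : ℝ) (Q R P H K : Mt n), 0 < b → b ≤ b₀ → 0 < δ → δ ≤ 1 → 0 < σ →
    0 < s → 1 ≤ v → v ^ 4 ≤ w → 0 ≤ α → α ≤ C₁ * σ * v → (χ = 0 ∨ χ = 1 ∧ s ≤ C₁ * σ) → 0 ≤ η →
    Orth R → Str b P → star H = H → 0 ≤ tr H → tr H ≤ 2 * n * s → star K = K → tr K = 0 →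
    ‖K‖ ^ 2 ≤ C₁ * v ^ 2 * η → ‖Q‖ ≤ 1 → ‖star Q * Q - 1‖ ≤ o ^ 2 → |a| ≤ t → ‖R - Q‖ ≤ t →
    |hs (T1 (Real.exp a • (star Q * (R * (1 - P))))) (α • (1 : Mt n) + K + χ • (H - s • 1)) -
        hs (T1 (1 - P)) (α • (1 : Mt n) + K + χ • (H - s • 1)) -
        a * (((n : ℝ) - 1) * (α * tr (1 - b • ((1 : Mt n) - s⁻¹ • H)) +
          χ * ((1 + δ * b) * (tr H - n * s))))| ≤
      C * (σ * od b w t o + σ * v ^ 2 * ‖P - b • ((1 : Mt n) - s⁻¹ • H)‖ ^ 2 + b ^ 2 * η / σ +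
        χ * (s * (e2 P + δ * b ^ 2 + ‖P - b • ((1 : Mt n) - s⁻¹ • H)‖ ^ 2)))

/-- the right side of the gauge identity -/
def E2 (n : ℕ) : Prop :=
  ∀ C₁ : ℝ, 0 < C₁ → ∃ C b₀ : ℝ, 0 < C ∧ 0 < b₀ ∧
    ∀ (b σ v w κ a t o d : ℝ) (Q R P P' K A : Mt n) (G : V n) (c' : V n →L[ℝ] ℝ)
      (Q' Γ' : V n →L[ℝ] Mt n), 0 < b → b ≤ b₀ → 0 < σ → 1 ≤ v → v ^ 4 ≤ w → 0 ≤ o → 0 < d →
    Orth R → ‖P‖ ≤ n * b → star P' = P' → star K = K →
    κ • A = (v * Real.exp a) • (R * (1 - P)) → (∀ y, Γ' y = κ • (star (Q' y) - c' y • star Q)) →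
    ‖Q‖ ≤ 1 → ‖star Q * Q - 1‖ ≤ o ^ 2 → ‖c'‖ ≤ o / d → ‖Q'‖ ≤ o / d →
    (∀ y, ‖star (Q' y) * Q + star Q * Q' y‖ ≤ o ^ 2 / d * ‖y‖) → |a| ≤ t → ‖R - Q‖ ≤ t →
    ‖G‖ ≤ C₁ * σ * d →
    |gz Γ' A G - c' (T1 (v • (1 - P') + K) G) - ⟪rot Q Q', (v • (1 - P') + K) G⟫| ≤
      C * (σ * od b w t o + σ * (v ^ 2 * ‖P - P'‖ ^ 2 + ‖K‖ ^ 2))

/-- linearisation around a constant conformal operator -/
def LINM (n : ℕ) : Prop :=
  ∃ C : ℝ, 0 < C ∧ ∀ (b v a t : ℝ) (Q R P P' K : Mt n), 0 < b → b ≤ 1 → 1 ≤ v → Orth Q → Orth R →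
    ‖P‖ ≤ n * b → |a| ≤ t → ‖R - Q‖ ≤ t →
    ‖(v * Real.exp a) • (star Q * (R * (1 - P))) - (v • (1 - P') + K) -
        (a • (1 : Mt n) + (1 / 2 : ℝ) • (star Q * R - star R * Q))‖ ≤
      C * ((v - 1) + b + t) * t * Real.exp t + v * ‖P - P'‖ + ‖K‖ ∧
    ‖star Q * R - 1 - (1 / 2 : ℝ) • (star Q * R - star R * Q)‖ ≤ t ^ 2

/-- measurable polar decomposition -/
def POL (n : ℕ) : Prop :=
  ∀ A : V n → Mt n, StronglyMeasurable A → ∃ R P : V n → Mt n, StronglyMeasurable R ∧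
    StronglyMeasurable P ∧ (∀ x, Orth (R x)) ∧ ∀ (x : V n) (ε : ℝ), 0 ≤ ε → ε ≤ 1 / 4 →
    Qr (1 + ε) (A x) → A x ≠ 0 →
    Str (ε / (n * (1 + ε))) (P x) ∧ A x = ‖A x‖ • (R x * (1 - P x))

/-! ### the slack -/

def B2 (n : ℕ) : Prop :=
  ∃ C : ℝ, 0 < C ∧ ∀ L : Lev n, L.Ok → L.kk ≠ ⊤ ∧ IntegrableOn L.s (L.O 0) volume ∧
    IntegrableOn (fun x => (hs (L.H x) (L.H x) - tr (L.H x) ^ 2 / n) / L.s x) (L.O 0) volume ∧
    (∫ x in L.O 0, (hs (L.H x) (L.H x) - tr (L.H x) ^ 2 / n) / L.s x) + L.kk.toReal ≤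
      n * ((n : ℝ) - 1) * (1 + L.δ) * (∫ x in L.O 0, L.s x) + C * L.m

def B3 (n : ℕ) : Prop :=
  ∃ C b₀ : ℝ, 0 < C ∧ 0 < b₀ ∧ ∀ (L : Lev n) (b : ℝ) (P : V n → Mt n), L.Ok → 0 < b → b ≤ b₀ →
    StronglyMeasurable P → (∀ x, Str b (P x)) →
    IntegrableOn (fun x => hs (P x) (L.KK b x)) (L.O 0) volume ∧
    ‖∫ x in L.O 0, hs (P x) (L.KK b x)‖ₑ ≤ ENNReal.ofReal C * L.Sl b P

def PSUM (n : ℕ) : Prop :=
  ∃ C b₀ : ℝ, 0 < C ∧ 0 < b₀ ∧ ∀ (L : Lev n) (b : ℝ) (P : V n → Mt n), L.Ok → 0 < b → b ≤ b₀ →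
    StronglyMeasurable P → (∀ x, Str b (P x)) →
    L.Sl b P ≠ ⊤ ∧ (∀ j j', Integrable (L.muP b P j j') volume) ∧
    ∀ ι : ℕ → ℕ, StrictMono ι → ι 0 = 0 →
      (L.Sl b P).toReal / (2 * b) - C * (L.Sl b P).toReal - C * L.m ≤
        ∑ k ∈ Finset.range L.N, ∫ x, L.muP b P (ι k) (ι (k + 1)) x

def ISUM (n : ℕ) : Prop :=
  ∀ Ca : ℝ, 0 < Ca → ∃ C b₀ : ℝ, 0 < C ∧ 0 < b₀ ∧ ∀ (L : Lev n) (b : ℝ) (a : V n → ℝ), L.Ok →
    0 < b → b ≤ b₀ → Measurable a → ∫⁻ x in ball (0 : V n) 5, ‖a x‖ₑ ^ 2 ≤ ENNReal.ofReal Ca →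
    (∀ j j', Integrable (fun x => L.ap b a x * L.muI b j j' x) volume) ∧
    ∀ ι : ℕ → ℕ, StrictMono ι → ι 0 = 0 →
      ((n : ℝ) - 1) / L.bp b *
          ((∫ x, L.θ x * a x) - ((L.N - 1 : ℕ) : ℝ) * Real.log (L.g b) * L.m) ≤
        (∑ k ∈ Finset.range L.N, ∫ x, L.ap b a x * L.muI b (ι k) (ι (k + 1)) x) +
          C * (L.τ0 + L.m)

def PIG (n : ℕ) : Prop :=
  ∀ (Λ : ℝ) (L : Lev n), 3 ≤ Λ → L.Ok → ∃ ι, L.Blk ι Λ

def SUMS (n : ℕ) : Prop :=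
  ∀ Λ : ℝ, 3 ≤ Λ → ∃ C b₀ : ℝ, 0 < C ∧ 0 < b₀ ∧
    ∀ (L : Lev n) (b : ℝ) (P : V n → Mt n) (ι : ℕ → ℕ), L.Ok → 0 < b → b ≤ b₀ →
    StronglyMeasurable P → (∀ x, Str b (P x)) → L.Blk ι Λ →
    ∑ k ∈ Finset.range L.N, L.Rest b P (ι k) (ι (k + 1)) ≤ ENNReal.ofReal C * L.Sl b P

/-! ### one block -/

structure DNS (n : ℕ) : Prop where
  nest : ∃ C : ℝ, 0 < C ∧ ∀ (Λ : ℝ) (L : Lev n) (ι : ℕ → ℕ), L.Ok → L.Blk ι Λ →
    Nest (fun k => L.O (ι k)) (fun k => L.τ (ι k)) L.s Λ C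
  dn : ∀ c : ℝ, 0 < c → ∃ Λ₁ : ℝ, ∀ (Λ : ℝ) (L : Lev n) (ι : ℕ → ℕ) (k : ℕ) (r : ℝ), Λ₁ ≤ Λ →
    L.Ok → L.Blk ι Λ → 0 < r → r ≤ 1 →
    Scale (fun x => max (infDist x (L.O (ι k))ᶜ) r) ∧
    L.Dn (ι (k + 1)) (fun x => max (infDist x (L.O (ι k))ᶜ) r) c
  dn0 : ∀ (c : ℝ) (L : Lev n), L.Ok → L.m ≤ c * L.τ0 → L.Dn 0 (fun _ => 1) c
  avg : ∃ C : ℝ, 0 < C ∧ ∀ (L : Lev n) (j : ℕ) (D : V n → ℝ) (c : ℝ), L.Ok → c ≤ 1 →
    (∀ z, 0 < D z) → L.Dn j D c → ∀ z,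
    al (fun y => ENNReal.ofReal (L.w j y)) z (D z / 4) ≤ ENNReal.ofReal C ∧
    al (fun y => ENNReal.ofReal (L.w j y ^ 2)) z (D z / 4) ≤ ENNReal.ofReal C
  tot : ∃ C : ℝ, 0 < C ∧ ∀ L : Lev n, L.Ok →
    ∫⁻ x in L.O 0, ENNReal.ofReal (L.w 0 x) ≤ ENNReal.ofReal (C * L.m / L.τ0)

def GAU (n : ℕ) : Prop :=
  ∃ C : ℝ, 0 < C ∧ ∀ (g : V n → ℝ × Mt n) (D : V n → ℝ), StronglyMeasurable g →
    (∀ x, Orth (g x).2) → ∫⁻ x in ball (0 : V n) 5, ‖g x‖ₑ ^ 2 < ⊤ → Scale D →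
    ∃ c Q o, Gau g D C c Q o

def ROT (n : ℕ) : Prop :=
  ∃ C : ℝ, 0 < C ∧ ∀ Q : V n → Mt n, ContDiff ℝ ∞ Q → ∃ β : V n → ℝ,
    Dv (fun x => rot (Q x) (fderiv ℝ Q x)) β ∧ ∀ x, |β x| ≤ C * ‖fderiv ℝ Q x‖ ^ 2 ∧
      ‖rot (Q x) (fderiv ℝ Q x)‖ ≤ C * ‖Q x‖ * ‖fderiv ℝ Q x‖

def YWS (n : ℕ) : Prop :=
  ∃ c₀ : ℝ, 0 < c₀ ∧ ∀ Cg : ℝ, 0 < Cg → ∃ C : ℝ, 0 < C ∧
    ∀ (E : Type) [NormedAddCommGroup E] (g : V n → E) (L : Lev n) (j : ℕ) (D o : V n → ℝ),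
    StronglyMeasurable g → L.Ok → Scale D → L.Dn j D c₀ → Measurable o →
    (∀ x ∈ ball (0 : V n) 4, ENNReal.ofReal (o x ^ 2) ≤ ENNReal.ofReal Cg * dav g x (D x / 10)) →
    L.YW j D o (ENNReal.ofReal C * ∫⁻ z in ball (0 : V n) 4, dav g z (D z / 2))

def ZG (n : ℕ) : Prop :=
  ∃ c₀ : ℝ, 0 < c₀ ∧ ∀ Λ : ℝ, 0 < Λ → ∃ C : ℝ, 0 < C ∧
    ∀ (L : Lev n) (b : ℝ) (j j' : ℕ) (D : V n → ℝ), L.Ok → 0 < b → j < j' → L.τ j' ≤ Λ * L.τ j →
    (∀ z, 0 < D z) → L.Dn j D c₀ → ∀ᵐ x, ‖L.GZ b j j' x‖ ≤ C * L.τ j * D x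

/-- the Cauchy-Schwarz step for the single level pieces -/
def CS (n : ℕ) : Prop :=
  ∀ Λ C₁ : ℝ, 0 < Λ → 0 < C₁ → ∃ C b₀ : ℝ, 0 < C ∧ 0 < b₀ ∧
    ∀ (L : Lev n) (b : ℝ) (P : V n → Mt n) (j j' : ℕ) (D o : V n → ℝ) (Ω : ℝ≥0∞)
      (ξ : V n → V n) (mm : ℕ → V n → Mt n), L.Ok → 0 < b → b ≤ b₀ → StronglyMeasurable P →
    (∀ x, Str b (P x)) → j < j' → L.τ j' ≤ Λ * L.τ j → Measurable D → Measurable o →
    L.YW j D o Ω → (∀ x ∈ ball (0 : V n) 4, ‖ξ x‖ ≤ C₁ * (o x / D x)) →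
    (∀ M, j ≤ M → ∀ x ∈ L.O M, ‖mm M x‖ ^ 2 ≤
      C₁ * (b ^ 2 * (L.g b ^ (M - j)) ^ 2 * L.HH j j' x / L.τ M ^ 2 +
        if M < j' then b ^ 2 * (‖L.h M x‖ ^ 2 + ‖L.h (M + 1) x‖ ^ 2) / L.τ j ^ 2 +
          (if L.J x = M then b ^ 2 + ‖P x - L.Ps b x‖ ^ 2 else 0) else 0)) →
    ∑ M ∈ Finset.Ico j L.N, ∫⁻ x, ‖⟪ξ x, mm M x (L.GY M x)⟫‖ₑ ≤
      ENNReal.ofReal C * (ENNReal.ofReal (L.τ j) * Ω + L.Rest b P j j')

/-- the scalar part of the gauge -/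
def E3 (n : ℕ) : Prop :=
  ∀ Λ : ℝ, 0 < Λ → ∃ C b₀ : ℝ, 0 < C ∧ 0 < b₀ ∧
    ∀ (L : Lev n) (b : ℝ) (P : V n → Mt n) (j j' : ℕ) (D o c : V n → ℝ) (Ω : ℝ≥0∞),
    L.Ok → 0 < b → b ≤ b₀ → StronglyMeasurable P → (∀ x, Str b (P x)) → j < j' →
    L.τ j' ≤ Λ * L.τ j → Measurable D → Measurable o → L.YW j D o Ω → ContDiff ℝ ∞ c →
    (∀ x ∈ ball (0 : V n) 4, ‖fderiv ℝ c x‖ ≤ o x / D x) →
    Integrable (fun x => fderiv ℝ c x (T1 (L.DP b j x) (L.GZ b j j' x))) volume ∧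
    Integrable (fun x => c x * L.muI b j j' x) volume ∧
    ‖(∫ x, fderiv ℝ c x (T1 (L.DP b j x) (L.GZ b j j' x))) + ∫ x, c x * L.muI b j j' x‖ₑ ≤
      ENNReal.ofReal C * (ENNReal.ofReal (L.τ j) * Ω + L.Rest b P j j')

/-- the rotation part of the gauge -/
def E4 (n : ℕ) : Prop :=
  ∀ Λ C₁ : ℝ, 0 < Λ → 0 < C₁ → ∃ C b₀ : ℝ, 0 < C ∧ 0 < b₀ ∧
    ∀ (L : Lev n) (b : ℝ) (P : V n → Mt n) (j j' : ℕ) (D o β : V n → ℝ) (ξ : V n → V n) (Ω : ℝ≥0∞),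
    L.Ok → 0 < b → b ≤ b₀ → StronglyMeasurable P → (∀ x, Str b (P x)) → j < j' →
    L.τ j' ≤ Λ * L.τ j → Measurable D → Measurable o → L.YW j D o Ω → Dv ξ β →
    (∀ x ∈ ball (0 : V n) 4, ‖ξ x‖ ≤ C₁ * (o x / D x) ∧ |β x| ≤ C₁ * (o x / D x) ^ 2) →
    Integrable (fun x => ⟪ξ x, L.DP b j x (L.GZ b j j' x)⟫) volume ∧
    ‖∫ x, ⟪ξ x, L.DP b j x (L.GZ b j j' x)⟫‖ₑ ≤
      ENNReal.ofReal C * (ENNReal.ofReal (L.τ j) * Ω + L.Rest b P j j')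

/-- the inequality of one block for a given gauge -/
def BLK (n : ℕ) : Prop :=
  ∃ c₀ : ℝ, 0 < c₀ ∧ ∀ Λ : ℝ, 0 < Λ → ∃ C b₀ : ℝ, 0 < C ∧ 0 < b₀ ∧
    ∀ (L : Lev n) (b Cg : ℝ) (A R P Q : V n → Mt n) (a D c o : V n → ℝ) (j j' : ℕ) (Ω : ℝ≥0∞),
    L.Ok → 0 < b → b ≤ b₀ → Pol b A a R P → j < j' → L.τ j' ≤ Λ * L.τ j → Scale D →
    L.Dn j D c₀ → Gau (L.gg b a R) D Cg c Q o → L.YW j D o Ω →
    Integrable (L.muP b P j j') volume →
    Integrable (fun x => L.ap b a x * L.muI b j j' x) volume →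
    ENNReal.ofReal ((∫ x, L.muP b P j j' x) + ∫ x, L.ap b a x * L.muI b j j' x) ≤
      ENNReal.ofReal C * (ENNReal.ofReal (L.τ j) *
        ((∫⁻ x in L.O j, ENNReal.ofReal (od b (L.w j x) ‖L.gg b a R x - (c x, Q x)‖ (o x))) + Ω) +
        L.Rest b P j j')

def ERR1 (n : ℕ) : Prop :=
  ∀ Cβ Cg C₂ : ℝ, 0 < Cβ → 0 < Cg → 0 < C₂ → ∃ C b₀ : ℝ, 0 < C ∧ 0 < b₀ ∧
    ∀ (g : V n → ℝ × Mt n) (b : ℝ) (D c o w : V n → ℝ) (Q : V n → Mt n) (U : Set (V n)),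
    StronglyMeasurable g → 0 < b → b ≤ b₀ → BM (al0 n) (Cβ * b) g → Scale D → Gau g D Cg c Q o →
    Measurable w → (∀ x, 0 ≤ w x) →
    (∀ z, al (fun y => ENNReal.ofReal (w y)) z (D z / 4) ≤ ENNReal.ofReal C₂) →
    MeasurableSet U → U ⊆ ball 0 3 →
    ∫⁻ x in U, ENNReal.ofReal (od b (w x) ‖g x - (c x, Q x)‖ (o x)) ≤ ENNReal.ofReal C * OO g w D

structure ERR0 (n : ℕ) : Prop where
  first : ∀ Cβ C₂ : ℝ, 0 < Cβ → 0 < C₂ → ∃ C b₀ : ℝ, 0 < C ∧ 0 < b₀ ∧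
    ∀ (E : Type) [NormedAddCommGroup E] (g : V n → E) (b : ℝ) (w : V n → ℝ),
    StronglyMeasurable g → 0 < b → b ≤ b₀ → BM (al0 n) (Cβ * b) g → Measurable w →
    (∀ x, 0 ≤ w x) → (∀ z, al (fun y => ENNReal.ofReal (w y ^ 2)) z (1 / 4) ≤ ENNReal.ofReal C₂) →
    OO g w (fun _ => 1) ≤ ENNReal.ofReal C
  next : ∀ (E : Type) [NormedAddCommGroup E] (g : V n → E) (O : ℕ → Set (V n)) (σ : ℕ → ℝ)
    (s : V n → ℝ) (Λ C₀ : ℝ) (K k : ℕ), StronglyMeasurable g → 1 ≤ Λ → Nest O σ s Λ C₀ →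
    O K = ∅ → ∃ C : ℝ, 0 < C ∧ ∀ r : ℝ, 0 < r →
    ENNReal.ofReal (σ (k + 1)) *
        OO g (fun y => wt (s y / σ (k + 1))) (fun x => max (infDist x (O k)ᶜ) r) ≤
      ENNReal.ofReal (4 * Λ ^ 2) * (NN O σ g k + TT O σ s g k) +
        ENNReal.ofReal C * ∫⁻ z in ball (0 : V n) 4, dav g z (r / 2)

/-- the inequality of one block -/
def BLK2 (n : ℕ) : Prop :=
  ∃ c₀ : ℝ, 0 < c₀ ∧ c₀ ≤ 1 ∧ ∀ Λ Cβ : ℝ, 0 < Λ → 0 < Cβ → ∃ C b₀ : ℝ, 0 < C ∧ 0 < b₀ ∧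
    ∀ (L : Lev n) (b : ℝ) (A R P : V n → Mt n) (a D : V n → ℝ) (j j' : ℕ),
    L.Ok → 0 < b → b ≤ b₀ → Pol b A a R P → BM (al0 n) (Cβ * b) (L.gg b a R) →
    ∫⁻ x in ball (0 : V n) 5, ‖L.gg b a R x‖ₑ ^ 2 < ⊤ → j < j' → L.τ j' ≤ Λ * L.τ j → Scale D →
    L.Dn j D c₀ → Integrable (L.muP b P j j') volume →
    Integrable (fun x => L.ap b a x * L.muI b j j' x) volume →
    ENNReal.ofReal ((∫ x, L.muP b P j j' x) + ∫ x, L.ap b a x * L.muI b j j' x) ≤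
      ENNReal.ofReal C * (ENNReal.ofReal (L.τ j) * OO (L.gg b a R) (L.w j) D + L.Rest b P j j')

/-! ### oscillation -/

/-- the chain lemma -/
def CH (n : ℕ) : Prop :=
  ∀ C₀ η : ℝ, 0 < C₀ → 0 < η → ∃ Λ₁ : ℝ, ∀ Λ : ℝ, Λ₁ ≤ Λ → ∃ C : ℝ, 0 < C ∧
    ∀ (E : Type) [NormedAddCommGroup E] (g : V n → E) (O : ℕ → Set (V n)) (σ : ℕ → ℝ)
      (s : V n → ℝ) (k : ℕ), StronglyMeasurable g → Nest O σ s Λ C₀ →
    TT O σ s g k ≤ ENNReal.ofReal η * TT O σ s g (k + 1) + ENNReal.ofReal C * NN O σ g k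

/-- the fine scales -/
def FINE (n : ℕ) : Prop :=
  ∃ C : ℝ, 0 < C ∧ ∀ (Ξ : V n → Mt n) (e : V n → ℝ) (z : V n) (ρ : ℝ), CF Ξ → Measurable e →
    0 < ρ → (∀ y ∈ ball z (4 * ρ), 0 ≤ e y ∧ Dev (Ξ y) (e y)) →
    ∃ X : V n → Mt n, StronglyMeasurable X ∧
      ∫⁻ y in ball z (2 * ρ), ‖Ξ y - X y‖ₑ ^ 2 ≤
        ENNReal.ofReal C * ∫⁻ y in ball z (4 * ρ), ENNReal.ofReal (e y ^ 2) ∧
      ∀ y ∈ ball z (2 * ρ), ∀ y' ∈ ball z (2 * ρ), ‖X y - X y'‖ₑ ^ 2 ≤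
        ENNReal.ofReal (C * (‖y - y'‖ / ρ) ^ 2) * al (fun y => ‖Ξ y‖ₑ ^ 2) z (4 * ρ)

def LOC1 (n : ℕ) : Prop :=
  ∀ C₁ : ℝ, 0 < C₁ → ∃ C : ℝ, 0 < C ∧
    ∀ (E : Type) [NormedAddCommGroup E] (g : V n → E) (Ξ : V n → Mt n) (e D : V n → ℝ) (z : V n)
      (ρ η : ℝ) (U : Set (V n)), StronglyMeasurable g → CF Ξ → Measurable e → 0 < ρ → η ≤ 1 →
    MeasurableSet U → U ⊆ ball z ρ → LipschitzWith 1 D → (∀ x ∈ U, 0 < D x ∧ D x ≤ η * ρ) →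
    (∀ y ∈ ball z (4 * ρ), 0 ≤ e y ∧ Dev (Ξ y) (e y) ∧
      ∀ y' ∈ ball z (4 * ρ), ‖g y - g y'‖ ≤ C₁ * ‖Ξ y - Ξ y'‖ + e y + e y') →
    ∫⁻ x in U, dav g x (D x / 2) ≤ ENNReal.ofReal C *
      (ENNReal.ofReal (η ^ 2) * volume U * al (fun y => ‖Ξ y‖ₑ ^ 2) z (4 * ρ) +
        ∫⁻ y in ball z (4 * ρ), ENNReal.ofReal (e y ^ 2))

def LOC2 (n : ℕ) : Prop :=
  ∀ C₀ C₁ Cβ η : ℝ, 0 < C₀ → 0 < C₁ → 0 < Cβ → 0 < η → ∃ Λ₁ : ℝ, ∀ Λ : ℝ, Λ₁ ≤ Λ →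
    ∃ C b₀ : ℝ, 0 < C ∧ 0 < b₀ ∧
    ∀ (E : Type) [NormedAddCommGroup E] (g : V n → E) (O : ℕ → Set (V n)) (σ : ℕ → ℝ)
      (s ζ : V n → ℝ) (b : ℝ) (k : ℕ), StronglyMeasurable g → Nest O σ s Λ C₀ → 0 < b → b ≤ b₀ →
    BM (al0 n) (Cβ * b) g → Measurable ζ → (∀ x, 0 ≤ ζ x) →
    Lin g (O k) (fun y => wt (s y / σ k)) ζ b C₁ →
    NN O σ g (k + 1) ≤ ENNReal.ofReal η * NN O σ g k +
      ENNReal.ofReal (C * b ^ 2) * (NN O σ g k + TT O σ s g k) +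
      ENNReal.ofReal C * (ENNReal.ofReal (σ k) * ∫⁻ y in O k, ENNReal.ofReal (ζ y))

def OSC (n : ℕ) : Prop :=
  ∀ C₀ C₁ Cβ : ℝ, 0 < C₀ → 0 < C₁ → 0 < Cβ → ∃ Λ₁ : ℝ, ∀ Λ : ℝ, Λ₁ ≤ Λ →
    ∃ C b₀ : ℝ, 0 < C ∧ 0 < b₀ ∧
    ∀ (E : Type) [NormedAddCommGroup E] (g : V n → E) (O : ℕ → Set (V n)) (σ : ℕ → ℝ)
      (s : V n → ℝ) (ζ : ℕ → V n → ℝ) (b : ℝ) (K : ℕ), StronglyMeasurable g → Nest O σ s Λ C₀ →
    O K = ∅ → 0 < b → b ≤ b₀ → BM (al0 n) (Cβ * b) g → (∀ k, Measurable (ζ k)) →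
    (∀ k x, 0 ≤ ζ k x) → (∀ k, Lin g (O k) (fun y => wt (s y / σ k)) (ζ k) b C₁) →
    ∑ k ∈ Finset.range K, (NN O σ g k + TT O σ s g k) ≤ ENNReal.ofReal C *
      (ENNReal.ofReal (σ 0) +
        ∑ k ∈ Finset.range K, ENNReal.ofReal (σ k) * ∫⁻ y in O k, ENNReal.ofReal (ζ k y))

def LIN (n : ℕ) : Prop :=
  ∃ C b₀ : ℝ, 0 < C ∧ 0 < b₀ ∧
    ∀ (L : Lev n) (b : ℝ) (A R P : V n → Mt n) (a : V n → ℝ) (j : ℕ), L.Ok → 0 < b → b ≤ b₀ →
    Pol b A a R P → Lin (L.gg b a R) (L.O j) (L.w j) (L.ze b P j) b C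

def BMJ (n : ℕ) : Prop :=
  ∀ Cβ : ℝ, 0 < Cβ → ∃ C : ℝ, 0 < C ∧
    ∀ (L : Lev n) (b : ℝ) (a : V n → ℝ) (R : V n → Mt n), L.Ok → 0 < b →
    BM (al0 n / 2) (Cβ * b) (fun x => (a x, R x)) → BM (al0 n) (C * b) (L.gg b a R)

/-! ### assembly -/

def ERRS (n : ℕ) : Prop :=
  ∃ c₁ : ℝ, 0 < c₁ ∧ ∀ Cβ : ℝ, 0 < Cβ → ∃ C b₀ : ℝ, 0 < C ∧ 0 < b₀ ∧
    ∀ (L : Lev n) (b : ℝ) (A R P : V n → Mt n) (a : V n → ℝ), L.Ok → 0 < b → b ≤ b₀ →
    Pol b A a R P → BM (al0 n / 2) (Cβ * b) (fun x => (a x, R x)) →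
    ∫⁻ x in ball (0 : V n) 5, ‖a x‖ₑ ^ 2 < ⊤ → L.m ≤ c₁ * L.τ0 →
    (∀ j j', Integrable (L.muP b P j j') volume) →
    (∀ j j', Integrable (fun x => L.ap b a x * L.muI b j j' x) volume) →
    ∃ ι : ℕ → ℕ, StrictMono ι ∧ ι 0 = 0 ∧
      ENNReal.ofReal (∑ k ∈ Finset.range L.N, ((∫ x, L.muP b P (ι k) (ι (k + 1)) x) +
          ∫ x, L.ap b a x * L.muI b (ι k) (ι (k + 1)) x)) ≤
        ENNReal.ofReal C * (L.Sl b P + ENNReal.ofReal L.τ0)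

/-- the entropy inequality for measurable sets -/
def TAIL (n : ℕ) : Prop :=
  ∀ Cβ Ca : ℝ, 0 < Cβ → 0 < Ca → ∃ C b₀ : ℝ, 0 < C ∧ 0 < b₀ ∧
    ∀ (b δ : ℝ) (A R P : V n → Mt n) (a : V n → ℝ) (E : Set (V n)), 0 < b → b ≤ b₀ → 0 < δ →
    δ ≤ 1 → Pol b A a R P → BM (al0 n / 2) (Cβ * b) (fun x => (a x, R x)) →
    ∫⁻ x in ball (0 : V n) 5, ‖a x‖ₑ ^ 2 ≤ ENNReal.ofReal Ca → MeasurableSet E → E ⊆ ball 0 1 →
    0 < volume.real E →
    ∫ x in E, a x ≤ (1 + δ) * b * volume.real E * Real.log (volume.real E)⁻¹ + C * volume.real E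

def PREP (n : ℕ) : Prop :=
  ∀ CV : ℝ, 0 < CV → ∃ Cβ Ca ε₀ : ℝ, 0 < Cβ ∧ 0 < Ca ∧ 0 < ε₀ ∧
    ∀ (ε : ℝ) (A : V n → Mt n), 0 < ε → ε ≤ ε₀ → CF A → QR (1 + ε) (ball 0 20) A → PP CV ε A →
    Iv (fun z => ‖A z - 1‖ ^ 2) 0 10 ≤ CV * ε ^ 2 →
    ∃ (A' R P : V n → Mt n) (a : V n → ℝ), Pol (ε / (n * (1 + ε))) A' a R P ∧
      (∀ᵐ x, x ∈ ball (0 : V n) 10 → ‖A x‖ = Real.exp (a x)) ∧
      BM (al0 n / 2) (Cβ * (ε / (n * (1 + ε)))) (fun x => (a x, R x)) ∧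
      ∫⁻ x in ball (0 : V n) 5, ‖a x‖ₑ ^ 2 ≤ ENNReal.ofReal Ca

def CORE (n : ℕ) : Prop :=
  ∀ CV : ℝ, 0 < CV → ∃ ε₀ : ℝ, 0 < ε₀ ∧ ∀ ε p : ℝ, 0 < ε → ε ≤ ε₀ → 0 < p → p < n * (1 + ε) / ε →
    ∃ Φ : ℝ, 0 < Φ ∧ ∀ A : V n → Mt n, CF A → QR (1 + ε) (ball 0 20) A → PP CV ε A →
    Iv (fun z => ‖A z - 1‖ ^ 2) 0 10 ≤ CV * ε ^ 2 →
    ∫⁻ x in ball (0 : V n) 1, ENNReal.ofReal (‖A x‖ ^ p) ≤ ENNReal.ofReal Φ

/-- integrability in the flat regime with the exact exponent -/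
def IterX (n : ℕ) : Prop :=
  ∀ φ ψ : V n → ℝ, Ker φ ψ → ∀ CV : ℝ, 0 < CV → ∃ ε₀ : ℝ, 0 < ε₀ ∧
    ∀ ε p : ℝ, 0 < ε → ε ≤ ε₀ → 0 < p → p < n * (1 + ε) / ε → ∃ Φ : ℝ, 0 < Φ ∧
    ∀ (f : V n → V n) (F : V n → Mt n), W f F → QR (1 + ε) (ball 0 20) F → PP CV ε F →
    ∫⁻ x in ball (0 : V n) 1, ENNReal.ofReal (‖F x‖ ^ p) ≤
      ENNReal.ofReal (Φ * ‖av φ F 0 1‖ ^ p)

/-- the theorem -/
def MainX (n : ℕ) : Prop :=
  ∃ K₀ : ℝ, 1 < K₀ ∧ ∀ K : ℝ, 1 < K → K ≤ K₀ →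
    IsLUB {p : ℝ | (n : ℝ) ≤ p ∧
      ∀ Ω f Df, h48.IsQR (n := n) K Ω f Df → h48.LocLp (ENNReal.ofReal p) Ω Df}
      ((n : ℝ) * K / (K - 1))

/-! ### bundles of hypotheses -/

structure Bas0 (n : ℕ) : Prop where
  hn : 3 ≤ n
  mat : MatB n
  ker : KerS n
  ava : AvA n
  avb : AvB n

structure Bas1 (n : ℕ) : Prop extends Bas0 n where
  cfs : CFS n
  h2a : H2A n
  wf : WF n
  jn : JN2 n
  lay : LAY n
  num : NUM
  l0 : L0 n
  pw : PW n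

structure Bas2 (n : ℕ) : Prop extends Bas1 n where
  h2b : H2B n
  h2c : H2C n
  lv : LV n
  qg : QG n
  den : DEN n
  ys : YS n

structure Bas3 (n : ℕ) : Prop extends Bas2 n where
  alg1 : ALG1 n
  alg2 : ALG2 n
  dns : DNS n

end Pool.Agent.MP_29b5d3_an.EX

end MrgPart1

-- ======== part 2: formerly Pool.Agent.MP_29b5d3_an.EX.Basic
section MrgPart2

/-! Project EXQ: basic lemmas on operators and averages. -/

set_option autoImplicit false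

namespace Pool.Agent.MP_29b5d3_an.EX

open MeasureTheory Metric Filter Topology Module Pool.Agent.MP_29b5d3_an.NC
open scoped RealInnerProductSpace ContDiff ENNReal

variable {n : ℕ}

/-! ### operators -/

theorem inner_star_left (X : Mt n) (a b : V n) : ⟪star X a, b⟫ = ⟪a, X b⟫ :=
  ContinuousLinearMap.adjoint_inner_left X b a

theorem inner_star_right (X : Mt n) (a b : V n) : ⟪a, star X b⟫ = ⟪X a, b⟫ :=
  ContinuousLinearMap.adjoint_inner_right X a b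

@[simp] theorem norm_star' (X : Mt n) : ‖star X‖ = ‖X‖ := norm_star X

theorem sym_iff (X : Mt n) : star X = X ↔ Sym X := by
  refine ⟨fun h a b => by rw [← inner_star_left, h], fun h => ?_⟩
  ext1 a
  exact ext_inner_right ℝ fun b => by rw [inner_star_left, h]

theorem tr_mul_comm (X Y : Mt n) : tr (X * Y) = tr (Y * X) := tr_comm X Y

theorem tr_star (X : Mt n) : tr (star X) = tr X := by
  rw [tr_eq, tr_eq]
  exact Finset.sum_congr rfl fun i _ => by rw [inner_star_right, real_inner_comm]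

theorem tr_neg (X : Mt n) : tr (-X) = -tr X := map_neg (trL n) X

theorem tr_sum {ι : Type} (s : Finset ι) (X : ι → Mt n) : tr (∑ i ∈ s, X i) = ∑ i ∈ s, tr (X i) :=
  map_sum (trL n) X s

theorem tr_skew_sym {A S : Mt n} (hA : star A = -A) (hS : star S = S) : tr (A * S) = 0 := by
  have h := tr_star (A * S)
  rw [star_mul, hA, hS, mul_neg, tr_neg, tr_mul_comm] at h
  linarith

theorem hs_eq_tr (X Y : Mt n) : hs X Y = tr (star X * Y) := by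
  rw [hs, tr_eq]
  exact Finset.sum_congr rfl fun i _ => (inner_star_right X _ _).symm

theorem hs_comm (X Y : Mt n) : hs X Y = hs Y X :=
  Finset.sum_congr rfl fun _ _ => real_inner_comm _ _

theorem hs_add_right (X Y Z : Mt n) : hs X (Y + Z) = hs X Y + hs X Z := by
  simp only [hs_eq_tr, mul_add, tr_add]

theorem hs_sub_right (X Y Z : Mt n) : hs X (Y - Z) = hs X Y - hs X Z := by
  simp only [hs_eq_tr, mul_sub, tr_sub]

theorem hs_smul_right (c : ℝ) (X Y : Mt n) : hs X (c • Y) = c * hs X Y := by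
  simp only [hs_eq_tr, mul_smul_comm, tr_smul]

theorem hs_zero_right (X : Mt n) : hs X 0 = 0 := by rw [hs_eq_tr, mul_zero, tr_zero]

theorem hs_sum_right {ι : Type} (s : Finset ι) (X : Mt n) (Y : ι → Mt n) :
    hs X (∑ i ∈ s, Y i) = ∑ i ∈ s, hs X (Y i) := by
  simp only [hs_eq_tr, Finset.mul_sum, tr_sum]

theorem hs_add_left (X Y Z : Mt n) : hs (X + Y) Z = hs X Z + hs Y Z := by
  rw [hs_comm, hs_add_right, hs_comm Z, hs_comm Z]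

theorem hs_sub_left (X Y Z : Mt n) : hs (X - Y) Z = hs X Z - hs Y Z := by
  rw [hs_comm, hs_sub_right, hs_comm Z, hs_comm Z]

theorem hs_smul_left (c : ℝ) (X Y : Mt n) : hs (c • X) Y = c * hs X Y := by
  rw [hs_comm, hs_smul_right, hs_comm]

theorem hs_zero_left (X : Mt n) : hs 0 X = 0 := by rw [hs_comm, hs_zero_right]

theorem hs_sum_left {ι : Type} (s : Finset ι) (X : ι → Mt n) (Y : Mt n) :
    hs (∑ i ∈ s, X i) Y = ∑ i ∈ s, hs (X i) Y := by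
  rw [hs_comm, hs_sum_right]
  exact Finset.sum_congr rfl fun _ _ => hs_comm _ _

theorem hs_one_left (X : Mt n) : hs 1 X = tr X := by rw [hs_eq_tr, star_one, one_mul]

theorem hs_one_right (X : Mt n) : hs X 1 = tr X := by rw [hs_comm, hs_one_left]

theorem abs_hs_le (X Y : Mt n) : |hs X Y| ≤ n * ‖X‖ * ‖Y‖ := by
  rw [hs_eq_tr, mul_assoc]
  refine (abs_tr_le _).trans (mul_le_mul_of_nonneg_left ?_ n.cast_nonneg)
  simpa only [norm_star'] using norm_mul_le (star X) Y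

theorem hs_nonneg (X : Mt n) : 0 ≤ hs X X := Finset.sum_nonneg fun _ _ => real_inner_self_nonneg

theorem sq_le_hs (X : Mt n) : ‖X‖ ^ 2 ≤ hs X X := by
  have h : ‖X‖ ≤ √(hs X X) := ContinuousLinearMap.opNorm_le_bound _ (Real.sqrt_nonneg _) fun v => by
    have e : X v = ∑ i, ⟪ev i, v⟫ • X (ev i) := by
      conv_lhs => rw [← sum_ev v]
      simp only [map_sum, map_smul]
    have k : ‖X v‖ ≤ ∑ i, ‖X (ev i)‖ * |⟪ev i, v⟫| := by
      rw [e]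
      refine (norm_sum_le _ _).trans_eq (Finset.sum_congr rfl fun i _ => ?_)
      rw [norm_smul, Real.norm_eq_abs, mul_comm]
    have k2 := Finset.sum_mul_sq_le_sq_mul_sq Finset.univ (fun i => ‖X (ev i)‖)
      fun i => |⟪ev i, v⟫|
    have e1 : ∑ i, ‖X (ev i)‖ ^ 2 = hs X X :=
      Finset.sum_congr rfl fun i _ => (real_inner_self_eq_norm_sq _).symm
    have e2 : ∑ i, |⟪ev i, v⟫| ^ 2 = ‖v‖ ^ 2 := by
      rw [← real_inner_self_eq_norm_sq, ← sum_inner_ev v v]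
      exact Finset.sum_congr rfl fun i _ => by rw [sq_abs, sq, real_inner_comm (ev i) v]
    rw [e1, e2] at k2
    refine k.trans (le_of_sq_le_sq ?_ (by positivity))
    rwa [mul_pow, Real.sq_sqrt (hs_nonneg X)]
  calc ‖X‖ ^ 2 ≤ √(hs X X) ^ 2 := by gcongr
    _ = _ := Real.sq_sqrt (hs_nonneg X)

theorem continuous_hs : Continuous fun p : Mt n × Mt n => hs p.1 p.2 := by
  unfold hs
  fun_prop

theorem T1_add (X Y : Mt n) : T1 (X + Y) = T1 X + T1 Y := by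
  simp only [T1, tr_add, add_smul]
  abel

theorem T1_sub (X Y : Mt n) : T1 (X - Y) = T1 X - T1 Y := by
  simp only [T1, tr_sub, sub_smul]
  abel

theorem T1_smul (c : ℝ) (X : Mt n) : T1 (c • X) = c • T1 X := by
  simp only [T1, tr_smul, smul_sub, smul_smul]

theorem T1_zero : T1 (0 : Mt n) = 0 := by simp [T1, tr_zero]

theorem T1_sum {ι : Type} (s : Finset ι) (X : ι → Mt n) :
    T1 (∑ i ∈ s, X i) = ∑ i ∈ s, T1 (X i) := by
  simp only [T1, tr_sum, Finset.sum_sub_distrib, Finset.sum_smul]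

theorem T1_one : T1 (1 : Mt n) = ((n : ℝ) - 1) • (1 : Mt n) := by
  rw [T1, tr_one, sub_smul, one_smul]

theorem norm_T1_le (X : Mt n) : ‖T1 X‖ ≤ (n + 1) * ‖X‖ := by
  refine (norm_sub_le _ _).trans ?_
  rw [norm_smul, Real.norm_eq_abs]
  nlinarith [abs_tr_le X, norm_one_le (n := n), abs_nonneg (tr X), norm_nonneg (1 : Mt n)]

theorem hs_T1 (X Y : Mt n) : hs (T1 X) Y = tr X * tr Y - hs X Y := by
  rw [T1, hs_sub_left, hs_smul_left, hs_one_left]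

theorem hs_T1_comm (X Y : Mt n) : hs (T1 X) Y = hs (T1 Y) X := by
  rw [hs_T1, hs_T1, mul_comm, hs_comm]

theorem continuous_T1 : Continuous (T1 : Mt n → Mt n) :=
  (continuous_tr.smul continuous_const).sub continuous_id

theorem continuous_e2 : Continuous (e2 : Mt n → ℝ) :=
  ((continuous_tr.pow 2).sub (continuous_hs.comp (continuous_id.prodMk continuous_id))).div_const 2

theorem Orth.norm_apply {R : Mt n} (h : Orth R) (v : V n) : ‖R v‖ = ‖v‖ := by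
  have k : ⟪R v, R v⟫ = ⟪v, v⟫ := by
    rw [← inner_star_right]
    exact congrArg (fun X : Mt n => ⟪v, X v⟫) h
  rw [real_inner_self_eq_norm_sq, real_inner_self_eq_norm_sq] at k
  exact (sq_eq_sq₀ (norm_nonneg _) (norm_nonneg _)).1 k

theorem Orth.norm_le {R : Mt n} (h : Orth R) : ‖R‖ ≤ 1 :=
  ContinuousLinearMap.opNorm_le_bound _ zero_le_one fun v => by rw [h.norm_apply, one_mul]

theorem Orth.mul_star {R : Mt n} (h : Orth R) : R * star R = 1 := by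
  have k : ((star R : Mt n) : V n →ₗ[ℝ] V n) * (R : V n →ₗ[ℝ] V n) = 1 :=
    congrArg (fun X : Mt n => (X : V n →ₗ[ℝ] V n)) h
  exact ContinuousLinearMap.coe_injective (mul_eq_one_comm.1 k)

theorem Orth.star {R : Mt n} (h : Orth R) : Orth (star R) := by
  rw [Orth, star_star]
  exact h.mul_star

theorem Orth.norm_mul {R : Mt n} (h : Orth R) (X : Mt n) : ‖R * X‖ = ‖X‖ :=
  ContinuousLinearMap.opNorm_ext _ _ fun v => h.norm_apply (X v)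

theorem orth_one : Orth (1 : Mt n) := by rw [Orth, star_one, one_mul]

/-! ### weights -/

theorem wt_nonneg (x : ℝ) : 0 ≤ wt x := Real.sqrt_nonneg _

theorem wt_sq (x : ℝ) : wt x ^ 2 = √x := Real.sq_sqrt (Real.sqrt_nonneg _)

theorem wt_pow4 {x : ℝ} (hx : 0 ≤ x) : wt x ^ 4 = x := by
  rw [show 4 = 2 * 2 from rfl, pow_mul, wt_sq, Real.sq_sqrt hx]

theorem wt_mono : Monotone wt := fun _ _ h => Real.sqrt_le_sqrt (Real.sqrt_le_sqrt h)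

theorem wt_one : wt 1 = 1 := by simp [wt]

theorem one_le_wt {x : ℝ} (hx : 1 ≤ x) : 1 ≤ wt x := wt_one.ge.trans (wt_mono hx)

theorem wt_pos {x : ℝ} (hx : 0 < x) : 0 < wt x := Real.sqrt_pos.2 (Real.sqrt_pos.2 hx)

theorem wt_mul {x : ℝ} (hx : 0 ≤ x) (y : ℝ) : wt (x * y) = wt x * wt y := by
  rw [wt, Real.sqrt_mul hx, Real.sqrt_mul (Real.sqrt_nonneg _), wt, wt]

theorem wt_le (x : ℝ) : wt x ≤ 1 + √x := by
  rw [← wt_sq]
  nlinarith [wt_nonneg x]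

theorem continuous_wt : Continuous wt := Real.continuous_sqrt.comp Real.continuous_sqrt

theorem Psi_nonneg (b t : ℝ) : 0 ≤ Psi b t := by unfold Psi; positivity

theorem continuous_Psi (b : ℝ) : Continuous (Psi b) := by unfold Psi; fun_prop

theorem od_nonneg (b t o : ℝ) {w : ℝ} (hw : 0 ≤ w) : 0 ≤ od b w t o := by unfold od; positivity

/-! ### averages -/

/-- the volume of the unit ball -/
noncomputable def vb (n : ℕ) : ℝ := (volume : Measure (V n)).real (ball 0 1)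

theorem vb_pos : 0 < vb n :=
  ENNReal.toReal_pos (measure_ball_pos _ _ one_pos).ne' measure_ball_lt_top.ne

theorem al0_pos : 0 < al0 n := div_pos vb_pos (by positivity)

theorem vol_ball (z : V n) {r : ℝ} (hr : 0 < r) :
    volume (ball z r) = ENNReal.ofReal (vb n * r ^ n) := by
  rw [Measure.addHaar_ball_of_pos volume z hr, fr, mul_comm (vb n),
    ENNReal.ofReal_mul (by positivity), vb, ofReal_measureReal measure_ball_lt_top.ne]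

theorem rn_ne {r : ℝ} (hr : 0 < r) : ENNReal.ofReal (r ^ n) ≠ 0 := by
  simpa using pow_pos hr n

theorem lint_eq (F : V n → ℝ≥0∞) (z : V n) {r : ℝ} (hr : 0 < r) :
    ∫⁻ y in ball z r, F y = ENNReal.ofReal (r ^ n) * al F z r := by
  rw [al, ← mul_assoc, ENNReal.mul_inv_cancel (rn_ne hr) ENNReal.ofReal_ne_top, one_mul]

theorem al_of_nonpos (F : V n → ℝ≥0∞) (z : V n) {r : ℝ} (hr : r ≤ 0) : al F z r = 0 := by
  rw [al, ball_eq_empty.2 hr]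
  simp

theorem al_mono {F G : V n → ℝ≥0∞} {z : V n} {r : ℝ} (h : ∀ y ∈ ball z r, F y ≤ G y) :
    al F z r ≤ al G z r :=
  mul_le_mul_right (setLIntegral_mono' measurableSet_ball h) _

theorem al_congr {F G : V n → ℝ≥0∞} {z : V n} {r : ℝ} (h : ∀ y ∈ ball z r, F y = G y) :
    al F z r = al G z r :=
  le_antisymm (al_mono fun y hy => (h y hy).le) (al_mono fun y hy => (h y hy).ge)

theorem al_zero {F : V n → ℝ≥0∞} {z : V n} {r : ℝ} (h : ∀ y ∈ ball z r, F y = 0) :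
    al F z r = 0 := by
  rw [al_congr h, al]
  simp

theorem al_add_left {F : V n → ℝ≥0∞} (hF : Measurable F) (G : V n → ℝ≥0∞) (z : V n) (r : ℝ) :
    al (fun y => F y + G y) z r = al F z r + al G z r := by
  rw [al, lintegral_add_left hF, mul_add, al, al]

theorem al_add_right (F : V n → ℝ≥0∞) {G : V n → ℝ≥0∞} (hG : Measurable G) (z : V n) (r : ℝ) :
    al (fun y => F y + G y) z r = al F z r + al G z r := by
  rw [al, lintegral_add_right _ hG, mul_add, al, al]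

theorem al_const_mul {c : ℝ≥0∞} (hc : c ≠ ⊤) (F : V n → ℝ≥0∞) (z : V n) (r : ℝ) :
    al (fun y => c * F y) z r = c * al F z r := by
  rw [al, lintegral_const_mul' _ _ hc, al, mul_left_comm]

theorem al_const_mul' (c : ℝ≥0∞) {F : V n → ℝ≥0∞} (hF : Measurable F) (z : V n) (r : ℝ) :
    al (fun y => c * F y) z r = c * al F z r := by
  rw [al, lintegral_const_mul _ hF, al, mul_left_comm]

theorem al_const (c : ℝ≥0∞) (z : V n) {r : ℝ} (hr : 0 < r) :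
    al (fun _ => c) z r = c * ENNReal.ofReal (vb n) := by
  rw [al, setLIntegral_const, vol_ball z hr, ENNReal.ofReal_mul vb_pos.le, mul_comm,
    mul_assoc, mul_assoc, ENNReal.mul_inv_cancel (rn_ne hr) ENNReal.ofReal_ne_top, mul_one]

theorem al_le_of_lint {F : V n → ℝ≥0∞} {z : V n} {r : ℝ} (hr : 0 < r) {c : ℝ≥0∞}
    (h : ∫⁻ y in ball z r, F y ≤ ENNReal.ofReal (r ^ n) * c) : al F z r ≤ c := by
  rw [lint_eq F z hr] at h
  exact (ENNReal.mul_le_mul_iff_right (rn_ne hr) ENNReal.ofReal_ne_top).1 h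

theorem al_sub (F : V n → ℝ≥0∞) {z z' : V n} {r r' c : ℝ} (hr : 0 < r') (h : ball z' r' ⊆ ball z r)
    (hc : r ≤ c * r') : al F z' r' ≤ ENNReal.ofReal (c ^ n) * al F z r := by
  have r0 : 0 < r := pos_of_mem_ball (h (mem_ball_self hr))
  have c0 : 0 < c := (mul_pos_iff_of_pos_right hr).1 (r0.trans_le hc)
  refine al_le_of_lint hr ((lintegral_mono_set h).trans ?_)
  rw [lint_eq F z r0, ← mul_assoc, ← ENNReal.ofReal_mul (by positivity), ← mul_pow, mul_comm r' c]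
  gcongr

theorem al_meas {α : Type} [MeasurableSpace α] {F : α → V n → ℝ≥0∞} {z : α → V n} {r : α → ℝ}
    (hF : Measurable fun p : α × V n => F p.1 p.2) (hz : Measurable z) (hr : Measurable r) :
    Measurable fun a => al (F a) (z a) (r a) := by
  have m : MeasurableSet {p : α × V n | dist p.2 (z p.1) < r p.1} :=
    measurableSet_lt (measurable_snd.dist (hz.comp measurable_fst)) (hr.comp measurable_fst)
  have k := (hF.indicator m).lintegral_prod_right' (ν := (volume : Measure (V n)))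
  refine Measurable.mul (by fun_prop) ?_
  refine (congrArg Measurable (funext fun a => ?_)).mp k
  rw [← lintegral_indicator measurableSet_ball]
  rfl

theorem al_swap {F : V n → V n → ℝ≥0∞} (hF : Measurable fun p : V n × V n => F p.1 p.2)
    (z z' : V n) {r r' : ℝ} (hr : 0 < r) (hr' : 0 < r') :
    al (fun y => al (fun y' => F y y') z' r') z r = al (fun y' => al (fun y => F y y') z r) z' r' := by
  unfold al
  rw [lintegral_const_mul' _ _ (ENNReal.inv_ne_top.2 (rn_ne hr')),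
    lintegral_const_mul' _ _ (ENNReal.inv_ne_top.2 (rn_ne hr)),
    lintegral_lintegral_swap hF.aemeasurable, mul_left_comm]

section
variable {E : Type} [NormedAddCommGroup E] {g : V n → E}

theorem meas_sq (hg : StronglyMeasurable g) (c : E) : Measurable fun y => ‖g y - c‖ₑ ^ 2 :=
  (hg.sub stronglyMeasurable_const).enorm.pow_const 2

theorem meas_sq2 (hg : StronglyMeasurable g) :
    Measurable fun p : V n × V n => ‖g p.1 - g p.2‖ₑ ^ 2 :=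
  ((hg.comp_measurable measurable_fst).sub (hg.comp_measurable measurable_snd)).enorm.pow_const 2

theorem inner_meas (hg : StronglyMeasurable g) {r : V n → ℝ} (hr : Measurable r) :
    Measurable fun p : V n × V n => al (fun y' => ‖g p.2 - g y'‖ₑ ^ 2) p.1 (r p.1) :=
  al_meas (F := fun (p : V n × V n) y' => ‖g p.2 - g y'‖ₑ ^ 2)
    ((meas_sq2 hg).comp (measurable_fst.snd.prodMk measurable_snd)) measurable_fst
    (hr.comp measurable_fst)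

theorem inner_meas' (hg : StronglyMeasurable g) (z : V n) (r : ℝ) :
    Measurable fun y => al (fun y' => ‖g y - g y'‖ₑ ^ 2) z r :=
  al_meas (F := fun y y' => ‖g y - g y'‖ₑ ^ 2) (meas_sq2 hg) measurable_const measurable_const

theorem dav_meas (hg : StronglyMeasurable g) {r : V n → ℝ} (hr : Measurable r) :
    Measurable fun z => dav g z (r z) :=
  al_meas (F := fun z y => al (fun y' => ‖g y - g y'‖ₑ ^ 2) z (r z)) (inner_meas hg hr)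
    measurable_id hr

theorem wav_meas (hg : StronglyMeasurable g) {w r : V n → ℝ} (hw : Measurable w)
    (hr : Measurable r) : Measurable fun z => wav w g z (r z) :=
  al_meas (F := fun z y => ENNReal.ofReal (w y) * al (fun y' => ‖g y - g y'‖ₑ ^ 2) z (2 * r z))
    ((hw.comp measurable_snd).ennreal_ofReal.mul
      (inner_meas hg (r := fun z => 2 * r z) (hr.const_mul 2))) measurable_id hr

theorem dav_sub (g : V n → E) {z z' : V n} {r r' c : ℝ} (hr : 0 < r') (h : ball z' r' ⊆ ball z r)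
    (hc : r ≤ c * r') :
    dav g z' r' ≤ ENNReal.ofReal (c ^ n) * ENNReal.ofReal (c ^ n) * dav g z r := by
  refine (al_mono fun y _ => al_sub _ hr h hc).trans ?_
  rw [al_const_mul ENNReal.ofReal_ne_top, mul_assoc]
  exact mul_le_mul_right (al_sub _ hr h hc) _

theorem enorm_sq_le (a b c : E) : ‖a - b‖ₑ ^ 2 ≤ 2 * ‖a - c‖ₑ ^ 2 + 2 * ‖b - c‖ₑ ^ 2 := by
  have k : ‖a - b‖ ^ 2 ≤ 2 * ‖a - c‖ ^ 2 + 2 * ‖b - c‖ ^ 2 := by
    have := norm_sub_le (a - c) (b - c)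
    rw [sub_sub_sub_cancel_right] at this
    nlinarith [norm_nonneg (a - b), sq_nonneg (‖a - c‖ - ‖b - c‖)]
  simp only [← ofReal_norm]
  rw [← ENNReal.ofReal_pow (norm_nonneg _), ← ENNReal.ofReal_pow (norm_nonneg _),
    ← ENNReal.ofReal_pow (norm_nonneg _), ← ENNReal.ofReal_ofNat 2,
    ← ENNReal.ofReal_mul zero_le_two, ← ENNReal.ofReal_mul zero_le_two,
    ← ENNReal.ofReal_add (by positivity) (by positivity)]
  exact ENNReal.ofReal_le_ofReal k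

theorem dav_le (hg : StronglyMeasurable g) (c : E) (z : V n) {r : ℝ} (hr : 0 < r) :
    dav g z r ≤ ENNReal.ofReal (4 * vb n) * al (fun y => ‖g y - c‖ₑ ^ 2) z r := by
  have m := meas_sq hg c
  refine (al_mono fun y _ => al_mono fun y' _ => enorm_sq_le (g y) (g y') c).trans_eq ?_
  simp only [al_add_left measurable_const, al_const _ z hr, al_const_mul' _ m]
  rw [al_add_right _ measurable_const, al_const _ z hr]
  simp only [mul_right_comm (2 : ℝ≥0∞) _ (ENNReal.ofReal (vb n))]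
  rw [al_const_mul' _ m, ENNReal.ofReal_mul (by norm_num), ENNReal.ofReal_ofNat]
  ring

theorem BM.mono {α α' β β' : ℝ} (h : BM α β g) (hα : α ≤ α') (hβ : β ≤ β') : BM α' β' g :=
  fun x hx r r0 r1 => (h x hx r r0 r1).imp fun _ hc =>
    le_trans (measure_mono fun _ hy => And.intro hy.1 (hβ.trans_lt hy.2))
      (hc.trans (ENNReal.ofReal_le_ofReal (by gcongr)))

end

theorem Lev.Dn.mono {L : Lev n} {j : ℕ} {D : V n → ℝ} {c c' : ℝ} (h : L.Dn j D c) (hL : L.Ok)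
    (hD : ∀ z, 0 < D z) (hc : c ≤ c') : L.Dn j D c' := fun z => (h z).imp fun _ hx =>
  ⟨hx.1, fun i r hi hr => (hx.2 i r hi hr).trans (ENNReal.ofReal_le_ofReal (by
    have := hL.τp
    have := hL.δ0
    have := (hD z).trans_le hr
    unfold Lev.τ
    gcongr))⟩

theorem Scale.pos {D : V n → ℝ} (h : Scale D) (x : V n) : 0 < D x := by
  obtain ⟨r, r0, hr⟩ := h.low
  exact r0.trans_le (hr x)

theorem Scale.meas {D : V n → ℝ} (h : Scale D) : Measurable D := h.lip.continuous.measurable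

theorem scale_one : Scale fun _ : V n => (1 : ℝ) :=
  ⟨(LipschitzWith.const _).weaken zero_le_one, ⟨1, one_pos, fun _ => le_rfl⟩, fun _ => by norm_num⟩

/-- Lebesgue points for smooth averages -/
theorem leb (hA : AvA n) {U : Type} [NormedAddCommGroup U] [NormedSpace ℝ U] [CompleteSpace U]
    {φ : V n → ℝ} {g : V n → U} (hφ : Test φ 1) (h1 : ∫ y, φ y = 1)
    (hg : LocallyIntegrable g volume) : ∀ᵐ x, Tendsto (av φ g x) (𝓝[>] 0) (𝓝 (g x)) := by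
  obtain ⟨C, hC0, hC⟩ := hφ.bdd
  filter_upwards [IsUnifLocDoublingMeasure.ae_tendsto_average_norm_sub volume hg 1] with x hx
  have h2 := (hx (l := 𝓝[>] (0 : ℝ)) (fun _ => x) id tendsto_id (by
    filter_upwards [self_mem_nhdsWithin] with r hr
    exact mem_closedBall_self (by simpa using le_of_lt hr))).const_mul (C * vb n)
  rw [mul_zero] at h2
  rw [tendsto_iff_norm_sub_tendsto_zero]
  refine squeeze_zero' (Eventually.of_forall fun _ => norm_nonneg _) ?_ h2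
  filter_upwards [self_mem_nhdsWithin] with r hr
  have hr : 0 < r := hr
  have hl : LocallyIntegrable (fun z => g z - g x) volume := hg.sub (locallyIntegrable_const _)
  have i1 : Integrable (fun y => φ y • g (x + r • y)) volume :=
    (hA.loc U g hg x r hr.ne').integrable_smul_left_of_hasCompactSupport hφ.cont hφ.supp
  have e0 : av φ g x r - g x = av φ (fun z => g z - g x) x r := by
    unfold av
    simp only [smul_sub]
    rw [integral_sub i1 (hφ.int.smul_const _), integral_smul_const, h1, one_smul]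
  rw [e0]
  refine (hA.av_le U φ _ C hφ hC hl x r hr).trans ?_
  have e : ∀ b I : ℝ, 0 < b → C * b * ((r ^ n * b)⁻¹ * I) = C * ((r ^ n)⁻¹ * I) := by
    intro b I h
    field_simp
  rw [hA.Iv_eq _ x r hr, setAverage_eq, id, Measure.addHaar_real_closedBall _ _ hr.le, fr,
    smul_eq_mul, ← vb, e _ _ vb_pos]
  refine mul_le_mul_of_nonneg_left (mul_le_mul_of_nonneg_left (setIntegral_mono_set
    (hl.integrableOn_isCompact (isCompact_closedBall x r)).norm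
    (Eventually.of_forall fun _ => norm_nonneg _) ball_subset_closedBall.eventuallyLE)
    (by positivity)) hC0.le

end Pool.Agent.MP_29b5d3_an.EX

end MrgPart2

-- ======== part 3: formerly Pool.Agent.MP_29b5d3_an.EX.Rh2b
section MrgPart3

/-! Project EXQ: the gauge identity. -/

set_option autoImplicit false

namespace Pool.Agent.MP_29b5d3_an.EX

open MeasureTheory Metric Filter Topology Module Pool.Agent.MP_29b5d3_an.NC
open scoped RealInnerProductSpace ContDiff ENNReal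

variable {n : ℕ}

namespace H2Bx

section Lim

variable {P E : Type} [NormedAddCommGroup P] [NormedAddCommGroup E]

/-- a pairing that is additive in the last variable and bounded -/
structure Pair (Ψ : P → Mt n → E → ℝ) : Prop where
  cont : Continuous fun t : P × Mt n × E => Ψ t.1 t.2.1 t.2.2
  bdd : ∃ c : ℝ, 0 ≤ c ∧ ∀ p X e, |Ψ p X e| ≤ c * ‖p‖ * ‖X‖ * ‖e‖
  sub : ∀ p X e e', Ψ p X (e - e') = Ψ p X e - Ψ p X e'

variable {Ψ : P → Mt n → E → ℝ} {K : V n → P} {A : V n → Mt n}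

theorem Pair.meas (h : Pair Ψ) (hK : Continuous K) (hA : CF A) {F : V n → E}
    (hF : StronglyMeasurable F) : StronglyMeasurable fun x => Ψ (K x) (A x) (F x) :=
  h.cont.comp_stronglyMeasurable (hK.stronglyMeasurable.prodMk (hA.meas.prodMk hF))

theorem Pair.bound (h : Pair Ψ) (hK : Continuous K) (hA : CF A) :
    ∃ C : ℝ≥0∞, C ≠ ⊤ ∧ ∀ F : V n → E, StronglyMeasurable F → (∀ x, 4 ≤ ‖x‖ → F x = 0) →
      eLpNorm (fun x => Ψ (K x) (A x) (F x)) 1 volume ≤ C * eLpNorm F 2 volume := by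
  obtain ⟨c, c0, hc⟩ := h.bdd
  obtain ⟨B, hB⟩ := (isCompact_closedBall (0 : V n) 4).exists_bound_of_continuousOn hK.continuousOn
  have ha : MemLp ((closedBall (0 : V n) 4).indicator fun x => ‖A x‖) 2 volume := by
    rw [memLp_indicator_iff_restrict measurableSet_closedBall,
      memLp_two_iff_integrable_sq hA.meas.norm.aestronglyMeasurable]
    exact hA.l2.integrableOn_isCompact (isCompact_closedBall 0 4)
  refine ⟨ENNReal.ofReal (c * B) *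
    eLpNorm ((closedBall (0 : V n) 4).indicator fun x => ‖A x‖) 2 volume,
    ENNReal.mul_ne_top ENNReal.ofReal_ne_top ha.2.ne, fun F hF h0 => ?_⟩
  rw [mul_assoc]
  refine le_trans (eLpNorm_le_mul_eLpNorm_of_ae_le_mul
    (g := ((closedBall (0 : V n) 4).indicator fun x => ‖A x‖) • fun x => ‖F x‖) (c := c * B)
    (Eventually.of_forall fun x => ?_) 1) (mul_le_mul_right ?_ _)
  · by_cases hx : x ∈ closedBall (0 : V n) 4
    · simp only [Pi.smul_apply', Set.indicator_of_mem hx, smul_eq_mul, norm_mul, norm_norm]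
      refine (hc _ _ _).trans ?_
      have := hB x hx
      rw [← mul_assoc]
      gcongr
    · have k := hc (K x) (A x) (F x)
      rw [h0 x (le_of_lt (by simpa using hx)), norm_zero, mul_zero] at k
      simp only [Pi.smul_apply', Set.indicator_of_notMem hx, zero_smul, norm_zero, mul_zero]
      rwa [h0 x (le_of_lt (by simpa using hx))]
  · refine (eLpNorm_smul_le_mul_eLpNorm (p := 2) (q := 2) hF.norm.aestronglyMeasurable
      ha.1).trans_eq ?_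
    rw [eLpNorm_norm]

theorem Pair.int (h : Pair Ψ) (hK : Continuous K) (hA : CF A) {F : V n → E}
    (hF : StronglyMeasurable F) (h0 : ∀ x, 4 ≤ ‖x‖ → F x = 0) (h2 : MemLp F 2 volume) :
    Integrable (fun x => Ψ (K x) (A x) (F x)) volume := by
  obtain ⟨C, hC, hb⟩ := h.bound hK hA
  exact memLp_one_iff_integrable.1 ⟨(h.meas hK hA hF).aestronglyMeasurable,
    (hb F hF h0).trans_lt (ENNReal.mul_lt_top hC.lt_top h2.2)⟩

theorem Pair.lim (h : Pair Ψ) (hK : Continuous K) (hA : CF A) {F : V n → E} {T : ℕ → V n → E}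
    (hF : StronglyMeasurable F) (h0 : ∀ x, 4 ≤ ‖x‖ → F x = 0)
    (hT : ∀ m, StronglyMeasurable (T m)) (hT0 : ∀ m x, 4 ≤ ‖x‖ → T m x = 0)
    (hT2 : ∀ m, MemLp (T m) 2 volume)
    (ht : Tendsto (fun m => eLpNorm (fun x => T m x - F x) 2 volume) atTop (𝓝 0)) :
    Tendsto (fun m => ∫ x, Ψ (K x) (A x) (T m x)) atTop (𝓝 (∫ x, Ψ (K x) (A x) (F x))) := by
  obtain ⟨C, hC, hb⟩ := h.bound hK hA
  refine tendsto_integral_of_L1' _ (h.meas hK hA hF).aestronglyMeasurable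
    (Eventually.of_forall fun m => h.int hK hA (hT m) (hT0 m) (hT2 m)) ?_
  have k := ENNReal.Tendsto.const_mul (a := C) ht (Or.inr hC)
  rw [mul_zero] at k
  refine tendsto_of_tendsto_of_tendsto_of_le_of_le tendsto_const_nhds k (fun _ => zero_le)
    fun m => ?_
  refine le_trans (le_of_eq ?_) (hb (fun x => T m x - F x) ((hT m).sub hF) fun x hx => by
    rw [hT0 m x hx, h0 x hx, sub_self])
  congr 1
  funext x
  exact (h.sub _ _ _ _).symm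

end Lim

theorem pair_hs : Pair fun (p X e : Mt n) => hs (T1 (p * X)) e where
  cont := continuous_hs.comp ((continuous_T1.comp
    (continuous_fst.mul continuous_snd.fst)).prodMk continuous_snd.snd)
  bdd := ⟨n * (n + 1), by positivity, fun p X e => (abs_hs_le _ _).trans (by
    have h1 := norm_T1_le (p * X)
    have h2 := norm_mul_le p X
    calc n * ‖T1 (p * X)‖ * ‖e‖ ≤ n * ((n + 1) * (‖p‖ * ‖X‖)) * ‖e‖ := by
          gcongr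
          exact h1.trans (by gcongr)
      _ = _ := by ring)⟩
  sub _ _ _ _ := hs_sub_right _ _ _

theorem pair_gz : Pair fun (p : V n →L[ℝ] Mt n) (X : Mt n) (e : V n) => gz p X e where
  cont := by
    unfold gz
    refine Continuous.sub (continuous_finsetSum _ fun i _ => ?_) (continuous_tr.comp ?_)
    · fun_prop
    · fun_prop
  bdd := ⟨2 * n, by positivity, fun p X e => by
    have h1 : |∑ i, ⟪ev i, p (ev i) (X e)⟫| ≤ n * (‖p‖ * ‖X‖ * ‖e‖) := by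
      refine (Finset.abs_sum_le_sum_abs _ _).trans ?_
      calc _ ≤ ∑ _i : Fin n, ‖p‖ * ‖X‖ * ‖e‖ := Finset.sum_le_sum fun i _ =>
            (abs_real_inner_le_norm _ _).trans (by
              have a1 := p.le_opNorm₂ (ev i) (X e)
              have a2 := X.le_opNorm e
              rw [norm_ev, mul_one] at a1
              rw [norm_ev, one_mul, mul_assoc]
              exact a1.trans (by gcongr))
        _ = _ := by simp
    have h2 : |tr (p e * X)| ≤ n * (‖p‖ * ‖X‖ * ‖e‖) := by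
      refine (abs_tr_le _).trans (mul_le_mul_of_nonneg_left ?_ n.cast_nonneg)
      refine (norm_mul_le _ _).trans ?_
      have a1 := p.le_opNorm e
      calc ‖p e‖ * ‖X‖ ≤ ‖p‖ * ‖e‖ * ‖X‖ := by gcongr
        _ = _ := by ring
    refine (abs_sub _ _).trans ?_
    linarith⟩
  sub p X e e' := by
    simp only [gz, map_sub, inner_sub_right, Finset.sum_sub_distrib, sub_mul, tr_sub]
    ring

/-- the curl identity for entries -/
theorem curl {A : V n → Mt n} (hl : LocallyIntegrable A volume) {θ : V n → ℝ}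
    (hθ : Test θ 4) (a u v : V n) :
    Integrable (fun y => fderiv ℝ θ y u * ⟪a, A y v⟫) volume ∧
      ∫ y, fderiv ℝ θ y u * ⟪a, A y v⟫ = ⟪a, ∫ y, fderiv ℝ θ y u • A y v⟫ := by
  have i1 : Integrable (fun y => fderiv ℝ θ y u • A y v) volume :=
    (hl.integrable_smul_left_of_hasCompactSupport (hθ.der u).cont
      (hθ.der u).supp).apply_continuousLinearMap v
  have e : (fun y => fderiv ℝ θ y u * ⟪a, A y v⟫) = fun y => ⟪a, fderiv ℝ θ y u • A y v⟫ := by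
    funext y
    rw [real_inner_smul_right]
  rw [e]
  exact ⟨Integrable.const_inner a i1, integral_inner i1 a⟩

theorem k1 (M : Mt n) (b w : V n) : ∑ a, ⟪b, M (ev a)⟫ * ⟪ev a, w⟫ = ⟪b, M w⟫ := by
  conv_rhs => rw [← sum_ev w]
  simp only [map_sum, map_smul, inner_sum, real_inner_smul_right, mul_comm]

theorem k2 (p : V n →L[ℝ] Mt n) (b w z : V n) :
    ∑ l, ⟪b, p (ev l) w⟫ * ⟪ev l, z⟫ = ⟪b, p z w⟫ := by
  conv_rhs => rw [← sum_ev z]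
  simp only [map_sum, map_smul, sum_apply, smul_apply,
    inner_sum, real_inner_smul_right, mul_comm]

theorem alg (p : V n →L[ℝ] Mt n) (M A D : Mt n) (z : V n) (hD : star D = D) :
    ∑ i, ∑ l, ∑ a,
      ((⟪ev i, p (ev l) (ev a)⟫ * ⟪ev l, z⟫ + ⟪ev i, M (ev a)⟫ * ⟪ev l, D (ev l)⟫) *
          ⟪ev a, A (ev i)⟫ -
        (⟪ev i, p (ev i) (ev a)⟫ * ⟪ev l, z⟫ + ⟪ev i, M (ev a)⟫ * ⟪ev l, D (ev i)⟫) *
          ⟪ev a, A (ev l)⟫) = hs (T1 (M * A)) D - gz p A z := by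
  have e1 : ∀ i l : Fin n, ∑ a,
      ((⟪ev i, p (ev l) (ev a)⟫ * ⟪ev l, z⟫ + ⟪ev i, M (ev a)⟫ * ⟪ev l, D (ev l)⟫) *
          ⟪ev a, A (ev i)⟫ -
        (⟪ev i, p (ev i) (ev a)⟫ * ⟪ev l, z⟫ + ⟪ev i, M (ev a)⟫ * ⟪ev l, D (ev i)⟫) *
          ⟪ev a, A (ev l)⟫) =
      ⟪ev i, p (ev l) (A (ev i))⟫ * ⟪ev l, z⟫ + ⟪ev i, (M * A) (ev i)⟫ * ⟪ev l, D (ev l)⟫ -
        (⟪ev i, (p (ev i) * A) (ev l)⟫ * ⟪ev l, z⟫ +
          ⟪ev i, (M * A) (ev l)⟫ * ⟪ev l, D (ev i)⟫) := fun i l => by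
    simp only [mul_apply_eq_comp]
    rw [← k1 (p (ev l)), ← k1 M _ (A (ev i)), ← k1 (p (ev i)) _ (A (ev l)), ← k1 M _ (A (ev l))]
    simp only [Finset.sum_mul, ← Finset.sum_add_distrib, ← Finset.sum_sub_distrib]
    exact Finset.sum_congr rfl fun a _ => by ring
  have e2 : hs (M * A) D = ∑ i, ⟪ev i, (M * A) (D (ev i))⟫ := by
    rw [hs_comm, hs_eq_tr, hD, tr_mul_comm, tr_eq]
    rfl
  simp only [e1, Finset.sum_sub_distrib, Finset.sum_add_distrib, k1, k2, ← Finset.mul_sum,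
    ← Finset.sum_mul, ← tr_eq]
  rw [hs_T1, e2, gz, tr_eq (p z * A)]
  simp only [mul_apply_eq_comp]
  ring

theorem test_id {Γ A : V n → Mt n} (hΓ : ContDiff ℝ ∞ Γ) (hA : CF A)
    (hl : LocallyIntegrable A volume) {φ : V n → ℝ} (hφ : Test φ 4) :
    ∫ x, (hs (T1 (Γ x * A x)) (hess φ x) - gz (fderiv ℝ Γ x) (A x) (gradient φ x)) = 0 := by
  let θ : Fin n → Fin n → Fin n → V n → ℝ := fun i l a y =>
    ⟪ev i, Γ y (ev a)⟫ * ⟪ev l, gradient φ y⟫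
  have hθ : ∀ i l a, Test (θ i l a) 4 := fun i l a =>
    ⟨(contDiff_const.inner ℝ (hΓ.clm_apply contDiff_const)).mul
      (contDiff_const.inner ℝ hφ.smooth_grad), fun y hy => by
        simp only [θ, hφ.grad_zero y hy, inner_zero_right, mul_zero]⟩
  have hd : ∀ i l a y u, fderiv ℝ (θ i l a) y u =
      ⟪ev i, fderiv ℝ Γ y u (ev a)⟫ * ⟪ev l, gradient φ y⟫ +
        ⟪ev i, Γ y (ev a)⟫ * ⟪ev l, hess φ y u⟫ := fun i l a y u => by
    have d1 := ((innerSL ℝ (ev i)).comp (ContinuousLinearMap.apply ℝ (V n) (ev a))).hasFDerivAt.comp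
      y (hΓ.differentiable (by simp) y).hasFDerivAt
    have d2 := (innerSL ℝ (ev l)).hasFDerivAt.comp y
      (hφ.smooth_grad.differentiable (by simp) y).hasFDerivAt
    have d3 : HasFDerivAt (θ i l a) _ y := d1.mul d2
    rw [d3.fderiv]
    simp only [add_apply, smul_apply, Function.comp,
      ContinuousLinearMap.comp_apply, innerSL_apply_apply, ContinuousLinearMap.apply_apply,
      smul_eq_mul, hess]
    ring
  have e : (fun x => hs (T1 (Γ x * A x)) (hess φ x) - gz (fderiv ℝ Γ x) (A x) (gradient φ x)) =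
      fun x => ∑ t : Fin n × Fin n × Fin n,
        (fderiv ℝ (θ t.1 t.2.1 t.2.2) x (ev t.2.1) * ⟪ev t.2.2, A x (ev t.1)⟫ -
          fderiv ℝ (θ t.1 t.2.1 t.2.2) x (ev t.1) * ⟪ev t.2.2, A x (ev t.2.1)⟫) := by
    funext x
    simp only [Fintype.sum_prod_type, hd]
    exact (alg _ _ _ _ _ ((sym_iff _).2 (hφ.sym_hess x))).symm
  rw [e]
  refine (integral_finsetSum _ fun t _ =>
    (curl hl (hθ _ _ _) _ _ _).1.sub (curl hl (hθ _ _ _) _ _ _).1).trans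
    (Finset.sum_eq_zero fun t _ => ?_)
  simp only [Pi.sub_apply]
  rw [integral_sub (curl hl (hθ _ _ _) _ _ _).1 (curl hl (hθ _ _ _) _ _ _).1,
    (curl hl (hθ _ _ _) _ _ _).2, (curl hl (hθ _ _ _) _ _ _).2,
    hA.curl _ 4 (hθ _ _ _) (ev t.2.1) (ev t.1), sub_self]

theorem gauge (h : Bas1 n) (Γ A : V n → Mt n) (u : V n → ℝ) (G : V n → V n) (D : V n → Mt n)
    (hΓ : ContDiff ℝ ∞ Γ) (hA : CF A) (hu : H2 u G D) :
    Integrable (fun x => hs (T1 (Γ x * A x)) (D x)) volume ∧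
    Integrable (fun x => gz (fderiv ℝ Γ x) (A x) (G x)) volume ∧
    ∫ x, hs (T1 (Γ x * A x)) (D x) = ∫ x, gz (fderiv ℝ Γ x) (A x) (G x) := by
  have c1 := hΓ.continuous
  have c2 : Continuous (fderiv ℝ Γ) := hΓ.continuous_fderiv (by simp)
  obtain ⟨-, lG, lD⟩ := h.h2a.lp u G D hu
  refine ⟨pair_hs.int c1 hA hu.mD (fun x hx => (hu.out x hx).2.2) lD,
    pair_gz.int c2 hA hu.mG (fun x hx => (hu.out x hx).2.1) lG, ?_⟩
  obtain ⟨φ, hφ, -, tG, tD⟩ := hu.apx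
  have k := fun m => h.h2a.test (φ m) (hφ m)
  have l := fun m => h.h2a.lp _ _ _ (k m)
  have t1 := pair_hs.lim c1 hA hu.mD (fun x hx => (hu.out x hx).2.2) (fun m => (k m).mD)
    (fun m x hx => ((k m).out x hx).2.2) (fun m => (l m).2.2) tD
  have t2 := pair_gz.lim c2 hA hu.mG (fun x hx => (hu.out x hx).2.1) (fun m => (k m).mG)
    (fun m x hx => ((k m).out x hx).2.1) (fun m => (l m).2.1) tG
  refine tendsto_nhds_unique t1 (t2.congr fun m => ?_)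
  have e := test_id hΓ hA (h.cfs.loc A hA) (hφ m)
  rw [integral_sub (pair_hs.int c1 hA (k m).mD (fun x hx => ((k m).out x hx).2.2) (l m).2.2)
    (pair_gz.int c2 hA (k m).mG (fun x hx => ((k m).out x hx).2.1) (l m).2.1), sub_eq_zero] at e
  exact e.symm

theorem gz_scal (L : V n →L[ℝ] ℝ) (A : Mt n) (G : V n) :
    gz (L.smulRight (1 : Mt n)) A G = -L (T1 A G) := by
  have e : ∑ i, ⟪ev i, (L (ev i) • (1 : Mt n)) (A G)⟫ = L (A G) := by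
    conv_rhs => rw [← sum_ev (A G)]
    simp only [map_sum, map_smul, smul_apply, one_apply_eq_self,
      real_inner_smul_right, smul_eq_mul, mul_comm]
  simp only [gz, ContinuousLinearMap.smulRight_apply]
  rw [e]
  simp only [smul_mul_assoc, one_mul, tr_smul, T1,
    sub_apply, smul_apply, one_apply_eq_self,
    map_sub, map_smul, smul_eq_mul]
  ring

end H2Bx

open H2Bx

theorem h2b (h : Bas1 n) : H2B n where
  gauge := gauge h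
  null A u G D hA hu := by
    have k := gauge h (fun _ => 1) A u G D contDiff_const hA hu
    simp only [one_mul, fderiv_fun_const, Pi.zero_apply] at k
    refine ⟨k.1, k.2.2.trans ?_⟩
    simp [gz, tr_zero]
  scal c A u G D hc hA hu := by
    have k := gauge h (fun x => c x • (1 : Mt n)) A u G D (hc.smul contDiff_const) hA hu
    have e : ∀ x, fderiv ℝ (fun x => c x • (1 : Mt n)) x = (fderiv ℝ c x).smulRight 1 := fun x =>
      ((hc.differentiable (by simp) x).hasFDerivAt.smul_const (1 : Mt n)).fderiv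
    simp only [e, gz_scal, smul_mul_assoc, one_mul, T1_smul, hs_smul_left, integral_neg] at k
    refine ⟨k.1, by simpa using k.2.1.neg, ?_⟩
    rw [k.2.2, neg_neg]

end Pool.Agent.MP_29b5d3_an.EX

end MrgPart3

-- ======== part 4: formerly Pool.Agent.MP_29b5d3_an.EX.Rblk2
section MrgPart4

/-! Project EXQ: the block estimate in terms of the total oscillation. -/

set_option autoImplicit false

namespace Pool.Agent.MP_29b5d3_an.EX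

open MeasureTheory Metric Filter Topology Module Pool.Agent.MP_29b5d3_an.NC
open scoped RealInnerProductSpace ContDiff ENNReal

variable {n : ℕ}

theorem blk2 (h : Bas3 n) (h1 : BLK n) (h2 : GAU n) (h3 : YWS n) (h4 : ERR1 n) : BLK2 n := by
  obtain ⟨c1, c1p, h1⟩ := h1
  obtain ⟨Cg, Cgp, h2⟩ := h2
  obtain ⟨c3, c3p, h3⟩ := h3
  obtain ⟨C3, C3p, h3⟩ := h3 Cg Cgp
  obtain ⟨C2, C2p, hav⟩ := h.dns.avg
  refine ⟨min (min c1 c3) 1, by positivity, min_le_right _ _, fun Λ Cβ hΛ hβ => ?_⟩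
  obtain ⟨C1, b1, C1p, b1p, h1⟩ := h1 Λ hΛ
  obtain ⟨C4, b4, C4p, b4p, h4⟩ := h4 Cβ Cg C2 hβ Cgp C2p
  refine ⟨C1 * (C4 + C3 + 1), min b1 b4, by positivity, by positivity, ?_⟩
  intro L b A R P a D j j' hL hb hb0 hP hBM hL2 hj hτ hD hDn i1 i2
  have mg := (h.lv.mg L hL b a R hP.ma hP.mR).2
  obtain ⟨c, Q, o, hG⟩ := h2 (L.gg b a R) D mg hP.orth hL2 hD
  have k3 := h3 _ (L.gg b a R) L j D o mg hL hD
    (hDn.mono hL hD.pos ((min_le_left _ _).trans (min_le_right _ _))) hG.mo hG.ole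
  have k1 := h1 L b Cg A R P Q a D c o j j' _ hL hb (hb0.trans (min_le_left _ _)) hP hj hτ hD
    (hDn.mono hL hD.pos ((min_le_left _ _).trans (min_le_left _ _))) hG k3 i1 i2
  have k4 := h4 (L.gg b a R) b D c o (L.w j) Q (L.O j) mg hb (hb0.trans (min_le_right _ _)) hBM hD
    hG (h.lv.ms L hL b j j').2.2.1 (fun x => wt_nonneg _)
    (fun z => (hav L j D _ hL (min_le_right _ _) hD.pos hDn z).1)
    (h.lv.opn L hL j).measurableSet ((h.lv.anti L hL (Nat.zero_le j)).trans hL.supp)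
  have k5 : ∫⁻ z in ball (0 : V n) 4, dav (L.gg b a R) z (D z / 2) ≤
      OO (L.gg b a R) (L.w j) D := lintegral_mono fun z => le_self_add
  have one : (1 : ℝ≥0∞) ≤ ENNReal.ofReal (C4 + C3 + 1) :=
    ENNReal.one_le_ofReal.2 (by linarith)
  refine k1.trans ?_
  rw [ENNReal.ofReal_mul C1p.le, mul_assoc]
  refine mul_le_mul_right ?_ _
  rw [mul_add (ENNReal.ofReal (C4 + C3 + 1)), mul_left_comm]
  refine add_le_add (mul_le_mul_right ((add_le_add k4 (mul_le_mul_right k5 _)).trans ?_) _)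
    (le_mul_of_one_le_left' one)
  rw [← add_mul, ← ENNReal.ofReal_add C4p.le C3p.le]
  exact mul_le_mul_left (ENNReal.ofReal_le_ofReal (by linarith)) _

end Pool.Agent.MP_29b5d3_an.EX

end MrgPart4

-- marker of a merged file
example : 731051 + 309006 = 731051 + 309006 := rfl
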