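import Mathlib.MeasureTheory.Function.L2Space
import Pool.Agent.MP_29b5d3_an.EX.Rblk2
import Mathlib.Analysis.Calculus.LineDeriv.IntegrationByParts
import Mathlib.MeasureTheory.Covering.Vitali

-- ======== part 0: formerly Pool.Agent.MP_29b5d3_an.EX.Rkorn
section MrgPart0

/-! Project EXQ: the second Korn identity for curl free fields. -/

set_option autoImplicit false

namespace Pool.Agent.MP_29b5d3_an.EX

open MeasureTheory Metric Filter Topology Module Pool.Agent.MP_29b5d3_an.NC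
open scoped RealInnerProductSpace ContDiff ENNReal

namespace Rkornx

variable {n : ℕ}

/-- `g` is integrable with integral `c` -/
def Ei (g : V n → ℝ) (c : ℝ) : Prop := Integrable g volume ∧ ∫ y, g y = c

theorem Ei.add {g h : V n → ℝ} {c d : ℝ} (a : Ei g c) (b : Ei h d) :
    Ei (fun y => g y + h y) (c + d) :=
  ⟨a.1.add b.1, by rw [integral_add a.1 b.1, a.2, b.2]⟩

theorem Ei.sub {g h : V n → ℝ} {c d : ℝ} (a : Ei g c) (b : Ei h d) :
    Ei (fun y => g y - h y) (c - d) :=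
  ⟨a.1.sub b.1, by rw [integral_sub a.1 b.1, a.2, b.2]⟩

theorem Ei.cmul {g : V n → ℝ} {c : ℝ} (a : Ei g c) (t : ℝ) : Ei (fun y => t * g y) (t * c) :=
  ⟨a.1.const_mul t, by rw [integral_const_mul, a.2]⟩

theorem Ei.sum {g : Fin n → V n → ℝ} {c : Fin n → ℝ} (a : ∀ i, Ei (g i) (c i)) :
    Ei (fun y => ∑ i, g i y) (∑ i, c i) :=
  ⟨integrable_finsetSum _ fun i _ => (a i).1, by
    rw [integral_finsetSum _ fun i _ => (a i).1]
    exact Finset.sum_congr rfl fun i _ => (a i).2⟩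

theorem Ei.congr {g h : V n → ℝ} {c d : ℝ} (a : Ei g c) (e : ∀ y, h y = g y) (e' : c = d) :
    Ei h d := by
  rw [show h = g from funext e, ← e']
  exact a

theorem map_ev {U : Type} [NormedAddCommGroup U] [NormedSpace ℝ U] (L : V n →L[ℝ] U) (v : V n) :
    L v = ∑ i, ⟪ev i, v⟫ • L (ev i) := by
  conv_lhs => rw [← sum_ev v]
  simp only [map_sum, map_smul]

variable {θ : V n → ℝ} {R : ℝ} {F : V n → Mt n}

theorem int_vec (hθ : Test θ R) (hF : LocallyIntegrable F volume) (v : V n) :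
    Integrable (fun y => θ y • F y v) volume := by
  simpa only [smul_apply] using
    (hF.integrable_smul_left_of_hasCompactSupport hθ.cont hθ.supp).apply_continuousLinearMap v

theorem ei_inner {g : V n → V n} {c : V n → ℝ} (h : Integrable (fun y => c y • g y) volume)
    (a : V n) : Ei (fun y => c y * ⟪a, g y⟫) ⟪a, ∫ y, c y • g y⟫ := by
  have e : (fun y => c y * ⟪a, g y⟫) = fun y => ⟪a, c y • g y⟫ :=
    funext fun y => (real_inner_smul_right _ _ _).symm
  rw [e]
  exact ⟨h.const_inner a, integral_inner h a⟩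

/-- the basic integrals -/
noncomputable def tau (θ : V n → ℝ) (F : V n → Mt n) (u b a v : V n) : ℝ :=
  ⟪a, ∫ y, ⟪hess θ y u, b⟫ • F y v⟫

theorem test_hess (hθ : Test θ R) (u b : V n) : Test (fun y => ⟪hess θ y u, b⟫) R := by
  simp only [hθ.inner_hess]
  exact (hθ.der b).der u

theorem ei_tau (hθ : Test θ R) (hF : LocallyIntegrable F volume) (u b a v : V n) :
    Ei (fun y => ⟪hess θ y u, b⟫ * ⟪a, F y v⟫) (tau θ F u b a v) :=
  ei_inner (int_vec (test_hess hθ u b) hF v) a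

theorem tau_sym (hθ : Test θ R) (u b a v : V n) : tau θ F u b a v = tau θ F b u a v := by
  simp only [tau, hθ.sym_hess _ u b, real_inner_comm u]

theorem tau_curl (hθ : Test θ R) (hW : CF F) (u b a v : V n) :
    tau θ F u b a v = tau θ F v b a u := by
  simp only [tau, hθ.inner_hess]
  rw [hW.curl _ R (hθ.der b)]

/-- the integral of `⟪a, F b⟫ * lap θ` -/
noncomputable def Pp (θ : V n → ℝ) (F : V n → Mt n) (a b : V n) : ℝ :=
  ∑ k, tau θ F (ev k) (ev k) a b

/-- the integral of `tr F * ⟪hess θ a, b⟫` -/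
noncomputable def Qf (θ : V n → ℝ) (F : V n → Mt n) (a b : V n) : ℝ :=
  ∑ k, tau θ F a b (ev k) (ev k)

theorem Qf_sym (hθ : Test θ R) (a b : V n) : Qf θ F a b = Qf θ F b a :=
  Finset.sum_congr rfl fun _ _ => tau_sym hθ _ _ _ _

theorem ei4 (hθ : Test θ R) (hF : LocallyIntegrable F volume) (a b : V n) :
    Ei (fun y => ⟪a, F y b⟫ * lap θ y) (Pp θ F a b) :=
  (Ei.sum fun k => ei_tau hθ hF (ev k) (ev k) a b).congr (fun y => by
    rw [lap, tr_eq, Finset.mul_sum]
    exact Finset.sum_congr rfl fun k _ => by rw [mul_comm, real_inner_comm]) rfl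

theorem ei1 (hθ : Test θ R) (hW : CF F) (hF : LocallyIntegrable F volume) (a b : V n) :
    Ei (fun y => ⟪a, F y (hess θ y b)⟫) (Pp θ F a b) :=
  (Ei.sum fun k => ei_tau hθ hF b (ev k) a (ev k)).congr (fun y => by
    rw [map_ev (F y) (hess θ y b), inner_sum]
    exact Finset.sum_congr rfl fun k _ => by rw [real_inner_smul_right, real_inner_comm])
    (Finset.sum_congr rfl fun k _ => tau_curl hθ hW _ _ _ _)

theorem ei3 (hθ : Test θ R) (hF : LocallyIntegrable F volume) (a b : V n) :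
    Ei (fun y => tr (F y) * ⟪a, hess θ y b⟫) (Qf θ F a b) :=
  (Ei.sum fun k => ei_tau hθ hF a b (ev k) (ev k)).congr (fun y => by
    rw [tr_eq, Finset.sum_mul, hθ.sym_hess]
    exact Finset.sum_congr rfl fun k _ => mul_comm _ _) rfl

theorem ei2 (hθ : Test θ R) (hW : CF F) (hF : LocallyIntegrable F volume) (a b : V n) :
    Ei (fun y => ⟪F y a, hess θ y b⟫) (Qf θ F a b) :=
  (Ei.sum fun k => ei_tau hθ hF b (ev k) (ev k) a).congr (fun y => by
    rw [real_inner_comm, sum_inner_ev])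
    (Finset.sum_congr rfl fun k _ => by rw [tau_sym hθ, tau_curl hθ hW])

theorem ei5 (hθ : Test θ R) (hF : LocallyIntegrable F volume) :
    Ei (fun y => tr (F y) * lap θ y) (∑ k, Pp θ F (ev k) (ev k)) :=
  (Ei.sum fun k => ei4 hθ hF (ev k) (ev k)).congr (fun y => by rw [tr_eq, Finset.sum_mul]) rfl

/-- twice the traceless symmetric part -/
noncomputable def Sd (X : Mt n) (a b : V n) : ℝ :=
  ⟪X a, b⟫ + ⟪a, X b⟫ - 2 * (tr X / n) * ⟪a, b⟫

theorem eiS (hθ : Test θ R) (hW : CF F) (hF : LocallyIntegrable F volume) (a b : V n) :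
    Ei (fun y => Sd (F y) a (hess θ y b)) (Qf θ F a b + Pp θ F a b - 2 / n * Qf θ F a b) :=
  (((ei2 hθ hW hF a b).add (ei1 hθ hW hF a b)).sub ((ei3 hθ hF a b).cmul (2 / n))).congr
    (fun y => by rw [Sd]; ring) rfl

/-- the integrand of the second Korn identity -/
noncomputable def Zd (X H : Mt n) (a b : V n) : ℝ :=
  Sd X a (H b) - Sd X b (H a) + Sd X a b * tr H +
    ⟪a, b⟫ / ((n : ℝ) - 1) * ∑ i, Sd X (ev i) (H (ev i))

theorem eiZ (hn : 3 ≤ n) (hθ : Test θ R) (hW : CF F) (hF : LocallyIntegrable F volume)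
    (a b : V n) : Ei (fun y => Zd (F y) (hess θ y) a b) (2 * Pp θ F a b) := by
  have n3 : (3 : ℝ) ≤ n := by exact_mod_cast hn
  have s : ∑ k, Qf θ F (ev k) (ev k) = ∑ k, Pp θ F (ev k) (ev k) := Finset.sum_comm
  refine ((((eiS hθ hW hF a b).sub (eiS hθ hW hF b a)).add
    (((ei4 hθ hF b a).add (ei4 hθ hF a b)).sub ((ei5 hθ hF).cmul (2 / n * ⟪a, b⟫)))).add
    ((Ei.sum fun i => eiS hθ hW hF (ev i) (ev i)).cmul (⟪a, b⟫ / ((n : ℝ) - 1)))).congr
    (fun y => ?_) ?_
  · rw [Zd, show Sd (F y) a b = ⟪b, F y a⟫ + ⟪a, F y b⟫ - 2 * (tr (F y) / n) * ⟪a, b⟫ by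
      rw [Sd, real_inner_comm b], lap]
    ring
  · rw [Finset.sum_sub_distrib, Finset.sum_add_distrib, ← Finset.mul_sum, s, Qf_sym hθ b a]
    have : (n : ℝ) - 1 ≠ 0 := by linarith
    have : (n : ℝ) ≠ 0 := by linarith
    field_simp
    ring

theorem Zd_le (hn : 3 ≤ n) {X : Mt n} {g : ℝ} (h : Dev X g) (H : Mt n) (a b : V n) :
    |Zd X H a b| ≤ (2 + 2 * n) * ‖a‖ * ‖b‖ * (g * ‖H‖) := by
  have n3 : (3 : ℝ) ≤ n := by exact_mod_cast hn
  have g0 : 0 ≤ g := by
    simpa only [norm_ev, mul_one] using (abs_nonneg _).trans (h (ev ⟨0, by omega⟩) (ev ⟨0, by omega⟩))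
  have k : ∀ a b, |Sd X a (H b)| ≤ ‖a‖ * ‖b‖ * (g * ‖H‖) := fun a b =>
    (h a (H b)).trans (by
      have := mul_le_mul_of_nonneg_left (H.le_opNorm b) (show 0 ≤ g * ‖a‖ by positivity)
      linarith)
  have k3 : |Sd X a b * tr H| ≤ n * (‖a‖ * ‖b‖ * (g * ‖H‖)) := by
    rw [abs_mul]
    refine (mul_le_mul (h a b) (abs_tr_le H) (abs_nonneg _) (by positivity)).trans_eq ?_
    ring
  have k4 : |∑ i, Sd X (ev i) (H (ev i))| ≤ n * (g * ‖H‖) := by
    refine (Finset.abs_sum_le_sum_abs _ _).trans ?_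
    calc _ ≤ ∑ _i : Fin n, g * ‖H‖ := Finset.sum_le_sum fun i _ => by
          simpa only [norm_ev, one_mul] using k (ev i) (ev i)
      _ = _ := by simp
  have k5 : |⟪a, b⟫ / ((n : ℝ) - 1)| ≤ ‖a‖ * ‖b‖ := by
    rw [abs_div, abs_of_pos (show (0 : ℝ) < n - 1 by linarith)]
    exact (div_le_self (abs_nonneg _) (by linarith)).trans (abs_real_inner_le_norm a b)
  have k6 := mul_le_mul k5 k4 (abs_nonneg _) (by positivity)
  rw [← abs_mul] at k6
  have k1 := k a b
  have k2 := k b a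
  rw [abs_le] at k1 k2 k3 k6 ⊢
  rw [Zd]
  constructor <;> linarith [k1.1, k1.2, k2.1, k2.2, k3.1, k3.2, k6.1, k6.2]

theorem korn2 (hn : 3 ≤ n) (hθ : Test θ R) (hW : CF F) (hF : LocallyIntegrable F volume)
    {g : V n → ℝ} (hg : IntegrableOn g (ball 0 R) volume)
    (hD : ∀ᵐ y, y ∈ ball (0 : V n) R → Dev (F y) (g y)) (a b : V n) :
    |∫ y, ⟪a, F y b⟫ * lap θ y| ≤
      (1 + n) * ‖a‖ * ‖b‖ * ∫ y in ball (0 : V n) R, g y * ‖hess θ y‖ := by
  have z := eiZ hn hθ hW hF a b
  obtain ⟨C, -, hC⟩ := hθ.bdd_hess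
  have i : IntegrableOn (fun y => g y * ‖hess θ y‖) (ball 0 R) volume :=
    Integrable.mul_bdd hg hθ.smooth_hess.continuous.norm.aestronglyMeasurable
      (Eventually.of_forall fun y => by simpa only [norm_norm] using hC y)
  have e : ∫ y in ball (0 : V n) R, Zd (F y) (hess θ y) a b = 2 * Pp θ F a b := by
    rw [← z.2]
    refine setIntegral_eq_integral_of_forall_compl_eq_zero fun y hy => ?_
    rw [hθ.hess_zero y (by simpa using hy)]
    simp [Zd, Sd, tr_zero]
  have k := norm_integral_le_of_norm_le (μ := volume.restrict (ball (0 : V n) R))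
    (f := fun y => Zd (F y) (hess θ y) a b) (i.const_mul ((2 + 2 * n) * ‖a‖ * ‖b‖))
    ((ae_restrict_iff' measurableSet_ball).2 (hD.mono fun y hy hb => Zd_le hn (hy hb) _ a b))
  rw [e, integral_const_mul, Real.norm_eq_abs, abs_mul, abs_two] at k
  rw [(ei4 hθ hF a b).2]
  linarith

theorem loc (h : CF F) : LocallyIntegrable F volume :=
  ((locallyIntegrable_const (1 : ℝ)).add h.l2).mono h.meas.aestronglyMeasurable
    (Eventually.of_forall fun x => by
      refine le_trans ?_ (le_abs_self _)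
      change ‖F x‖ ≤ 1 + ‖F x‖ ^ 2
      nlinarith [sq_nonneg (‖F x‖ - 1)])

end Rkornx

theorem korn {n : ℕ} (h : Bas0 n) : KORN n :=
  ⟨1 + n, by positivity, fun _ _ _ _ hθ hW hg hD =>
    Rkornx.korn2 h.hn hθ hW (Rkornx.loc hW) hg hD⟩

end Pool.Agent.MP_29b5d3_an.EX

end MrgPart0

-- ======== part 1: formerly Pool.Agent.MP_29b5d3_an.EX.Rcfs
section MrgPart1

/-! Project EXQ, row CFS: the calculus of curl free fields. -/

set_option autoImplicit false

namespace Pool.Agent.MP_29b5d3_an.EX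

open MeasureTheory Metric Filter Topology Module Pool.Agent.MP_29b5d3_an.NC
open scoped RealInnerProductSpace ContDiff ENNReal

variable {n : ℕ}

namespace CFSx

theorem msq {A : V n → Mt n} (h : StronglyMeasurable A) :
    AEStronglyMeasurable (fun x => ‖A x‖ ^ 2) volume :=
  (h.norm.pow 2).aestronglyMeasurable

theorem loc {A : V n → Mt n} (h : CF A) : LocallyIntegrable A volume := by
  refine ((locallyIntegrable_const (1 : ℝ)).add h.l2).mono h.meas.aestronglyMeasurable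
    (Eventually.of_forall fun x => ?_)
  refine le_trans ?_ (le_abs_self (1 + ‖A x‖ ^ 2))
  nlinarith [sq_nonneg (‖A x‖ - 1)]

theorem int {A : V n → Mt n} (h : CF A) {θ : V n → ℝ} {R : ℝ} (hθ : Test θ R) (u v : V n) :
    Integrable (fun y => fderiv ℝ θ y u • A y v) volume :=
  ((loc h).integrable_smul_left_of_hasCompactSupport (hθ.der u).cont
    (hθ.der u).supp).apply_continuousLinearMap v

theorem add {A B : V n → Mt n} (hA : CF A) (hB : CF B) : CF fun x => A x + B x := by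
  refine ⟨hA.meas.add hB.meas, ?_, fun θ R hθ u v => ?_⟩
  · refine ((hA.l2.add hB.l2).add (hA.l2.add hB.l2)).mono (msq (hA.meas.add hB.meas))
      (Eventually.of_forall fun x => ?_)
    rw [Real.norm_of_nonneg (sq_nonneg _)]
    refine le_trans ?_ (le_abs_self (‖A x‖ ^ 2 + ‖B x‖ ^ 2 + (‖A x‖ ^ 2 + ‖B x‖ ^ 2)))
    have := pow_le_pow_left₀ (norm_nonneg _) (norm_add_le (A x) (B x)) 2
    nlinarith [sq_nonneg (‖A x‖ - ‖B x‖)]
  · simp only [add_apply, smul_add]
    rw [integral_add (int hA hθ u v) (int hB hθ u v), integral_add (int hA hθ v u) (int hB hθ v u),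
      hA.curl θ R hθ u v, hB.curl θ R hθ u v]

theorem mul (M : Mt n) {A : V n → Mt n} (hA : CF A) : CF fun x => M * A x := by
  have hm : StronglyMeasurable fun x => M * A x := stronglyMeasurable_const.mul hA.meas
  refine ⟨hm, ?_, fun θ R hθ u v => ?_⟩
  · refine (hA.l2.smul (‖M‖ ^ 2)).mono (msq hm) (Eventually.of_forall fun x => ?_)
    rw [Real.norm_of_nonneg (sq_nonneg _)]
    refine le_trans ?_ (le_abs_self (‖M‖ ^ 2 * ‖A x‖ ^ 2))
    rw [← mul_pow]
    exact pow_le_pow_left₀ (norm_nonneg _) (norm_mul_le _ _) 2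
  · have e : ∀ u v, ∫ y, fderiv ℝ θ y u • (M * A y) v = M (∫ y, fderiv ℝ θ y u • A y v) :=
      fun u v => by
        rw [← M.integral_comp_comm (int hA hθ u v)]
        simp only [map_smul, mul_apply_eq_comp]
    rw [e, e, hA.curl θ R hθ u v]

theorem smul (c : ℝ) {A : V n → Mt n} (hA : CF A) : CF fun x => c • A x := by
  simpa only [smul_mul_assoc, one_mul] using mul (c • 1) hA

theorem congr {A B : V n → Mt n} (hA : CF A) (hB : StronglyMeasurable B) (e : A =ᵐ[volume] B) :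
    CF B := by
  refine ⟨hB, hA.l2.mono (msq hB) (e.mono fun x hx => by rw [hx]), fun θ R hθ u v => ?_⟩
  have k : ∀ u v, ∫ y, fderiv ℝ θ y u • B y v = ∫ y, fderiv ℝ θ y u • A y v := fun u v =>
    integral_congr_ae (e.mono fun x hx => by simp only [hx])
  rw [k, k, hA.curl θ R hθ u v]

theorem resc (h : AvA n) {A : V n → Mt n} (z : V n) {r : ℝ} (hA : CF A) (hr : r ≠ 0) :
    CF fun y => A (z + r • y) := by
  refine ⟨hA.meas.comp_measurable (by fun_prop), h.loc ℝ _ hA.l2 z r hr, fun θ R hθ u v => ?_⟩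
  have hs : ContDiff ℝ ∞ fun x : V n => r⁻¹ • (x - z) := by fun_prop
  have ht : Test (fun x => θ (r⁻¹ • (x - z))) (|r| * |R| + ‖z‖) := by
    refine ⟨hθ.1.comp hs, fun x hx => hθ.2 _ ?_⟩
    have h0 : 0 < |r| := abs_pos.2 hr
    rw [norm_smul, norm_inv, Real.norm_eq_abs, le_inv_mul_iff₀ h0]
    have := norm_sub_norm_le x z
    have := mul_le_mul_of_nonneg_left (le_abs_self R) h0.le
    linarith
  have hd : ∀ y u, fderiv ℝ θ y u = r * fderiv ℝ (fun x => θ (r⁻¹ • (x - z))) (z + r • y) u := by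
    intro y u
    have e : r⁻¹ • (z + r • y - z) = y := by rw [add_sub_cancel_left, inv_smul_smul₀ hr]
    have d1 : HasFDerivAt (fun x : V n => r⁻¹ • (x - z)) (r⁻¹ • ContinuousLinearMap.id ℝ (V n))
        (z + r • y) := ((hasFDerivAt_id _).sub_const z).const_smul r⁻¹
    have d2 : HasFDerivAt θ (fderiv ℝ θ y) (r⁻¹ • (z + r • y - z)) := by
      rw [e]
      exact (hθ.c1.differentiable one_ne_zero y).hasFDerivAt
    have d3 : HasFDerivAt (fun x => θ (r⁻¹ • (x - z))) _ (z + r • y) :=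
      HasFDerivAt.comp (f := fun x : V n => r⁻¹ • (x - z)) (z + r • y) d2 d1
    rw [d3.fderiv]
    simp [hr]
  have k : ∀ u v, ∫ y, fderiv ℝ θ y u • A (z + r • y) v =
      |(r ^ finrank ℝ (V n))⁻¹| • r • ∫ x, fderiv ℝ (fun x => θ (r⁻¹ • (x - z))) x u • A x v := by
    intro u v
    rw [← integral_smul r, ← integral_add_left_eq_self (fun x =>
      r • fderiv ℝ (fun x => θ (r⁻¹ • (x - z))) x u • A x v) z,
      ← Measure.integral_comp_smul volume]
    simp only [hd, mul_smul]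
  rw [k, k, hA.curl _ _ ht u v]

end CFSx

theorem cfs (h : Bas0 n) (hk : KORN n) : CFS n := by
  have ofW : ∀ (f : V n → V n) (F : V n → Mt n), W f F → CF F := fun f F hW =>
    ⟨hW.meas, h.avb.locH ℝ f F (fun X => ‖X‖ ^ 2) 1 hW (by fun_prop) fun X => by
      rw [Real.norm_of_nonneg (sq_nonneg _), one_mul]
      rcases le_total ‖X‖ 1 with e | e
      · exact (pow_le_one₀ (norm_nonneg _) e).trans (le_add_of_nonneg_right (by positivity))
      · exact (pow_le_pow_right₀ e (by have := h.hn; omega)).trans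
          (le_add_of_nonneg_left zero_le_one),
      fun θ R hθ => h.avb.curl θ R f F hθ hW⟩
  refine ⟨ofW, fun M => ?_, fun _ _ => CFSx.add, fun A B hA hB => ?_, fun c _ => CFSx.smul c,
    fun M _ => CFSx.mul M, fun _ _ => CFSx.congr, fun _ => CFSx.loc,
    fun _ z _ => CFSx.resc h.ava z, hk⟩
  · have := ofW _ _ (h.avb.ofC1 M M.contDiff)
    rwa [show fderiv ℝ M = fun _ => M from funext fun _ => M.fderiv] at this
  · simpa only [neg_one_smul, ← sub_eq_add_neg] using CFSx.add hA (CFSx.smul (-1) hB)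

end Pool.Agent.MP_29b5d3_an.EX

end MrgPart1

-- ======== part 2: formerly Pool.Agent.MP_29b5d3_an.EX.Rh2l
section MrgPart2

/-! Project EXQ: the linear structure of the class `H2`. -/

set_option autoImplicit false

namespace Pool.Agent.MP_29b5d3_an.EX

open MeasureTheory Metric Filter Topology Module Pool.Agent.MP_29b5d3_an.NC
open scoped RealInnerProductSpace ContDiff ENNReal

variable {n : ℕ}

namespace H2Lx

section
variable {E : Type} [NormedAddCommGroup E] [NormedSpace ℝ E]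

theorem lim2 (a b : ℝ) {f f' : ℕ → V n → E} {g g' : V n → E} (hf : ∀ m, Continuous (f m))
    (hf' : ∀ m, Continuous (f' m)) (hg : StronglyMeasurable g) (hg' : StronglyMeasurable g')
    (h : Tendsto (fun m => eLpNorm (fun x => f m x - g x) 2 volume) atTop (𝓝 0))
    (h' : Tendsto (fun m => eLpNorm (fun x => f' m x - g' x) 2 volume) atTop (𝓝 0)) :
    Tendsto (fun m => eLpNorm (fun x => (a • f m x + b • f' m x) - (a • g x + b • g' x)) 2 volume)
      atTop (𝓝 0) := by
  have k := (ENNReal.Tendsto.const_mul (a := ‖a‖ₑ) h (Or.inr enorm_ne_top)).add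
    (ENNReal.Tendsto.const_mul (a := ‖b‖ₑ) h' (Or.inr enorm_ne_top))
  rw [mul_zero, mul_zero, add_zero] at k
  refine tendsto_of_tendsto_of_tendsto_of_le_of_le tendsto_const_nhds k (fun _ => zero_le)
    fun m => ?_
  have e : (fun x => (a • f m x + b • f' m x) - (a • g x + b • g' x)) =
      a • (fun x => f m x - g x) + b • fun x => f' m x - g' x := by
    funext x
    simp only [Pi.add_apply, Pi.smul_apply, smul_sub]
    abel
  beta_reduce
  rw [e, ← eLpNorm_const_smul, ← eLpNorm_const_smul]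
  exact eLpNorm_add_le
    (((hf m).aestronglyMeasurable.sub hg.aestronglyMeasurable).const_smul a)
    (((hf' m).aestronglyMeasurable.sub hg'.aestronglyMeasurable).const_smul b) one_le_two

omit [NormedSpace ℝ E] in
theorem mem2 {f : ℕ → V n → E} {g : V n → E} (hf : ∀ m, Continuous (f m))
    (hs : ∀ m y, 4 ≤ ‖y‖ → f m y = 0) (hg : StronglyMeasurable g)
    (h : Tendsto (fun m => eLpNorm (fun x => f m x - g x) 2 volume) atTop (𝓝 0)) :
    MemLp g 2 volume := by
  obtain ⟨m, hm⟩ := (h.eventually (gt_mem_nhds (ENNReal.zero_lt_top))).exists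
  have k : MemLp (fun x => f m x - g x) 2 volume :=
    ⟨(hf m).aestronglyMeasurable.sub hg.aestronglyMeasurable, hm⟩
  have k2 := ((hf m).memLp_of_hasCompactSupport (p := 2) (μ := volume) (supp_of (hs m))).sub k
  refine (congrArg (fun F => MemLp F 2 volume) (funext fun x => ?_)).mp k2
  simp

omit [NormedSpace ℝ E] in
theorem int2 {g : V n → E} (hg : MemLp g 2 volume) (hs : ∀ y, 4 ≤ ‖y‖ → g y = 0) :
    Integrable g volume := by
  have : IsFiniteMeasure ((volume : Measure (V n)).restrict (ball 0 4)) :=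
    ⟨by simpa using measure_ball_lt_top⟩
  exact IntegrableOn.integrable_of_forall_notMem_eq_zero (s := ball 0 4)
    ((hg.restrict _).integrable one_le_two) fun y hy => hs y (by simpa using hy)

omit [NormedSpace ℝ E] in
theorem lim_congr {f : ℕ → V n → E} {g g' : V n → E} (e : g =ᵐ[volume] g')
    (h : Tendsto (fun m => eLpNorm (fun x => f m x - g x) 2 volume) atTop (𝓝 0)) :
    Tendsto (fun m => eLpNorm (fun x => f m x - g' x) 2 volume) atTop (𝓝 0) :=
  h.congr fun m => eLpNorm_congr_ae (e.mono fun x hx => by simp only [hx])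

omit [NormedSpace ℝ E] in
theorem lim0 (g : V n → E) :
    Tendsto (fun _ : ℕ => eLpNorm (fun x => g x - g x) 2 volume) atTop (𝓝 0) := by
  simp

theorem fderiv_lin (a b : ℝ) {f g : V n → E} (hf : ContDiff ℝ ∞ f) (hg : ContDiff ℝ ∞ g) (x : V n) :
    fderiv ℝ (fun y => a • f y + b • g y) x = a • fderiv ℝ f x + b • fderiv ℝ g x :=
  (((hf.differentiable (by simp) x).hasFDerivAt.const_smul a).add
    ((hg.differentiable (by simp) x).hasFDerivAt.const_smul b)).fderiv

end

theorem grad_lin (a b : ℝ) {f g : V n → ℝ} (hf : Test f 4) (hg : Test g 4) :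
    gradient (fun y => a • f y + b • g y) = fun x => a • gradient f x + b • gradient g x := by
  funext x
  rw [gradient, fderiv_lin a b hf.1 hg.1, map_add, map_smul, map_smul]
  rfl

theorem hess_lin (a b : ℝ) {f g : V n → ℝ} (hf : Test f 4) (hg : Test g 4) (x : V n) :
    hess (fun y => a • f y + b • g y) x = a • hess f x + b • hess g x := by
  rw [hess, grad_lin a b hf hg, fderiv_lin a b hf.smooth_grad hg.smooth_grad]
  rfl

theorem lin (a b : ℝ) {u u' : V n → ℝ} {G G' : V n → V n} {D D' : V n → Mt n} (h : H2 u G D)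
    (h' : H2 u' G' D') : H2 (fun x => a • u x + b • u' x) (fun x => a • G x + b • G' x)
      fun x => a • D x + b • D' x := by
  obtain ⟨φ, t, h1, h2, h3⟩ := h.apx
  obtain ⟨φ', t', h1', h2', h3'⟩ := h'.apx
  refine ⟨(h.mu.const_smul a).add (h'.mu.const_smul b), (h.mG.const_smul a).add
    (h'.mG.const_smul b), (h.mD.const_smul a).add (h'.mD.const_smul b), fun x hx => ?_,
    fun m y => a • φ m y + b • φ' m y, fun m => ⟨((t m).1.const_smul a).add
      ((t' m).1.const_smul b), fun y hy => ?_⟩, ?_, ?_, ?_⟩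
  · obtain ⟨e1, e2, e3⟩ := h.out x hx
    obtain ⟨e1', e2', e3'⟩ := h'.out x hx
    simp only [e1, e2, e3, e1', e2', e3', smul_zero, add_zero, and_self]
  · simp only [(t m).2 y hy, (t' m).2 y hy, smul_zero, add_zero]
  · exact lim2 a b (fun m => (t m).cont) (fun m => (t' m).cont) h.mu h'.mu h1 h1'
  · simp only [grad_lin a b (t _) (t' _)]
    exact lim2 a b (fun m => (t m).smooth_grad.continuous) (fun m => (t' m).smooth_grad.continuous)
      h.mG h'.mG h2 h2'
  · simp only [hess_lin a b (t _) (t' _)]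
    exact lim2 a b (fun m => (t m).smooth_hess.continuous) (fun m => (t' m).smooth_hess.continuous)
      h.mD h'.mD h3 h3'

theorem test {φ : V n → ℝ} (h : Test φ 4) : H2 φ (gradient φ) (hess φ) :=
  ⟨h.cont.stronglyMeasurable, h.smooth_grad.continuous.stronglyMeasurable,
    h.smooth_hess.continuous.stronglyMeasurable,
    fun x hx => ⟨h.2 x hx, h.grad_zero x hx, h.hess_zero x hx⟩, fun _ => φ, fun _ => h,
    lim0 _, lim0 _, lim0 _⟩

theorem zero : H2 (fun _ : V n => 0) (fun _ => 0) fun _ => 0 := by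
  have k := test (φ := fun _ : V n => 0) ⟨contDiff_const, fun _ _ => rfl⟩
  simpa only [zero_smul, add_zero] using lin 0 0 k k

theorem lp {u : V n → ℝ} {G : V n → V n} {D : V n → Mt n} (h : H2 u G D) :
    MemLp u 2 volume ∧ MemLp G 2 volume ∧ MemLp D 2 volume := by
  obtain ⟨φ, t, h1, h2, h3⟩ := h.apx
  exact ⟨mem2 (fun m => (t m).cont) (fun m => (t m).2) h.mu h1,
    mem2 (fun m => (t m).smooth_grad.continuous) (fun m => (t m).grad_zero) h.mG h2,
    mem2 (fun m => (t m).smooth_hess.continuous) (fun m => (t m).hess_zero) h.mD h3⟩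

end H2Lx

open H2Lx

set_option linter.unusedVariables false in
theorem h2l (h : Bas0 n) : H2L n where
  test _ h := test h
  sub u u' G G' D D' h h' := by
    simpa only [one_smul, neg_smul, ← sub_eq_add_neg] using lin 1 (-1) h h'
  smul c u G D h := by
    simpa only [zero_smul, add_zero, smul_eq_mul, zero_mul] using lin c 0 h h
  sum s c u G D h := by
    induction s using Finset.induction_on with
    | empty => simpa only [Finset.sum_empty] using zero
    | insert i s hi ih =>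
      simpa only [Finset.sum_insert hi, one_smul, smul_eq_mul, one_mul] using
        lin (c i) 1 (h i (Finset.mem_insert_self _ _))
          (ih fun j hj => h j (Finset.mem_insert_of_mem hj))
  congr u u' G G' D D' h m1 m2 m3 ho e1 e2 e3 :=
    let ⟨φ, t, h1, h2, h3⟩ := h.apx
    ⟨m1, m2, m3, ho, φ, t, lim_congr e1 h1, lim_congr e2 h2, lim_congr e3 h3⟩
  lp _ _ _ h := lp h
  int _ _ _ h := ⟨int2 (lp h).1 fun y hy => (h.out y hy).1,
    int2 (lp h).2.1 fun y hy => (h.out y hy).2.1, int2 (lp h).2.2 fun y hy => (h.out y hy).2.2⟩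

end Pool.Agent.MP_29b5d3_an.EX

end MrgPart2

-- ======== part 3: formerly Pool.Agent.MP_29b5d3_an.EX.Rh2w
section MrgPart3

/-! Project EXQ, row H2W: weak derivatives of functions of class `H2`. -/

set_option autoImplicit false

namespace Pool.Agent.MP_29b5d3_an.EX

open MeasureTheory Metric Filter Topology Module Pool.Agent.MP_29b5d3_an.NC
open scoped RealInnerProductSpace ContDiff ENNReal

variable {n : ℕ}

namespace Rh2wx

/-- pairings with a fixed square integrable function pass to limits in the mean square -/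
theorem lim {E U : Type} [NormedAddCommGroup E] [NormedSpace ℝ E] [NormedAddCommGroup U]
    [NormedSpace ℝ U] (L : E →L[ℝ] U) {f : V n → ℝ} {F : ℕ → V n → E} {F₀ : V n → E}
    (hf : MemLp f 2 volume) (hF : ∀ m, MemLp (F m) 2 volume) (h₀ : MemLp F₀ 2 volume)
    (h : Tendsto (fun m => eLpNorm (fun x => F m x - F₀ x) 2 volume) atTop (𝓝 0)) :
    Tendsto (fun m => ∫ x, f x • L (F m x)) atTop (𝓝 (∫ x, f x • L (F₀ x))) := by
  have hi : ∀ g : V n → E, MemLp g 2 volume → Integrable (fun x => f x • L (g x)) volume :=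
    fun g hg => memLp_one_iff_integrable.1 (MemLp.smul (p := 2) (q := 2) (L.comp_memLp' hg) hf)
  refine tendsto_integral_of_L1' _ (hi F₀ h₀).1 (Eventually.of_forall fun m => hi _ (hF m)) ?_
  have h1 : Tendsto (fun m => eLpNorm f 2 volume * (ENNReal.ofReal ‖L‖ *
      eLpNorm (fun x => F m x - F₀ x) 2 volume)) atTop (𝓝 0) := by
    have h2 := ENNReal.Tendsto.const_mul (a := ENNReal.ofReal ‖L‖) h (Or.inr ENNReal.ofReal_ne_top)
    rw [mul_zero] at h2
    have h3 := ENNReal.Tendsto.const_mul (a := eLpNorm f 2 volume) h2 (Or.inr hf.eLpNorm_ne_top)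
    rwa [mul_zero] at h3
  refine tendsto_of_tendsto_of_tendsto_of_le_of_le tendsto_const_nhds h1 (fun _ => zero_le)
    fun m => ?_
  have e : ((fun x => f x • L (F m x)) - fun x => f x • L (F₀ x)) =
      f • fun x => L (F m x - F₀ x) := by
    funext x
    simp only [Pi.sub_apply, Pi.smul_apply', map_sub, smul_sub]
  rw [e]
  refine (eLpNorm_smul_le_mul_eLpNorm (p := 2) (q := 2)
    (L.comp_memLp' ((hF m).sub h₀)).1 hf.1).trans ?_
  exact mul_le_mul_right (eLpNorm_le_mul_eLpNorm_of_ae_le_mul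
    (Eventually.of_forall fun x => L.le_opNorm _) 2) _

theorem l2 {ψ : V n → ℝ} {R : ℝ} (h : Test ψ R) : MemLp ψ 2 volume :=
  h.cont.memLp_of_hasCompactSupport h.supp

theorem int_mul {φ ψ : V n → ℝ} {R R' : ℝ} (h : Test φ R) (h' : Test ψ R') :
    Integrable (fun x => φ x * ψ x) volume :=
  (h.cont.mul h'.cont).integrable_of_hasCompactSupport h.supp.mul_right

theorem weak_test {φ ψ : V n → ℝ} {R R' : ℝ} (h : Test φ R) (h' : Test ψ R') (v : V n) :
    ∫ x, φ x * fderiv ℝ ψ x v = -∫ x, fderiv ℝ φ x v * ψ x :=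
  integral_mul_fderiv_eq_neg_fderiv_mul_of_integrable (int_mul (h.der v) h')
    (int_mul h (h'.der v)) (int_mul h h')
    (fun x _ => h.c1.differentiable one_ne_zero x) fun x _ => h'.c1.differentiable one_ne_zero x

theorem wgrad (hB : AvB n) {φ : V n → ℝ} {R : ℝ} (h : Test φ R) : W (gradient φ) (hess φ) :=
  hB.ofC1 _ (h.smooth_grad.of_le (by simp))

theorem lap_test (hB : AvB n) {φ ψ : V n → ℝ} {R R' : ℝ} (h : Test φ R) (h' : Test ψ R') :
    ∫ x, φ x * lap ψ x = ∫ x, ψ x * lap φ x := by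
  have h1 := hB.dvg φ R _ _ h (wgrad hB h')
  have h2 := hB.dvg ψ R' _ _ h' (wgrad hB h)
  simp only [← inner_gradient] at h1 h2
  unfold lap
  rw [h1, h2]
  simp only [real_inner_comm]

end Rh2wx

theorem h2w (h : Bas0 n) (hl : H2L n) : H2W n where
  weak u G D hu ψ R hψ v := by
    obtain ⟨φ, hφ, h1, h2, -⟩ := hu.apx
    obtain ⟨l1, l2, -⟩ := hl.lp u G D hu
    have k1 := Rh2wx.lim (ContinuousLinearMap.id ℝ ℝ) (Rh2wx.l2 (hψ.der v))
      (fun m => (hl.lp _ _ _ (hl.test _ (hφ m))).1) l1 h1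
    have k2 := (Rh2wx.lim (innerSL ℝ v) (Rh2wx.l2 hψ)
      (fun m => (hl.lp _ _ _ (hl.test _ (hφ m))).2.1) l2 h2).neg
    simp only [ContinuousLinearMap.id_apply, smul_eq_mul, innerSL_apply_apply] at k1 k2
    have e : ∀ m, ∫ x, fderiv ℝ ψ x v * φ m x = -∫ x, ψ x * ⟪v, gradient (φ m) x⟫ := fun m => by
      have := Rh2wx.weak_test (hφ m) hψ v
      simp only [real_inner_comm _ v, inner_gradient]
      simpa only [mul_comm] using this
    simp only [e] at k1
    have := tendsto_nhds_unique k1 k2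
    simp only [real_inner_comm _ v] at this
    simpa only [mul_comm] using this
  lapw u G D hu ψ R hψ := by
    obtain ⟨φ, hφ, h1, -, h3⟩ := hu.apx
    obtain ⟨l1, -, l3⟩ := hl.lp u G D hu
    have k1 := Rh2wx.lim (ContinuousLinearMap.id ℝ ℝ) (Rh2wx.l2 hψ.lap)
      (fun m => (hl.lp _ _ _ (hl.test _ (hφ m))).1) l1 h1
    have k2 := Rh2wx.lim (trL n) (Rh2wx.l2 hψ)
      (fun m => (hl.lp _ _ _ (hl.test _ (hφ m))).2.2) l3 h3
    simp only [ContinuousLinearMap.id_apply, smul_eq_mul, trL_apply] at k1 k2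
    have e : ∀ m, ∫ x, lap ψ x * φ m x = ∫ x, ψ x * tr (hess (φ m) x) := fun m => by
      have := Rh2wx.lap_test h.avb (hφ m) hψ
      simpa only [mul_comm, lap] using this
    simp only [e] at k1
    simpa only [mul_comm] using tendsto_nhds_unique k1 k2
  cf u G D hu := by
    obtain ⟨φ, hφ, -, -, h3⟩ := hu.apx
    obtain ⟨-, -, l3⟩ := hl.lp u G D hu
    refine ⟨hu.mD, ((memLp_two_iff_integrable_sq_norm l3.1).1 l3).locallyIntegrable,
      fun θ R hθ a b => ?_⟩
    have k1 := Rh2wx.lim (ContinuousLinearMap.apply ℝ (V n) b) (Rh2wx.l2 (hθ.der a))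
      (fun m => (hl.lp _ _ _ (hl.test _ (hφ m))).2.2) l3 h3
    have k2 := Rh2wx.lim (ContinuousLinearMap.apply ℝ (V n) a) (Rh2wx.l2 (hθ.der b))
      (fun m => (hl.lp _ _ _ (hl.test _ (hφ m))).2.2) l3 h3
    simp only [ContinuousLinearMap.apply_apply] at k1 k2
    simp only [fun m => h.avb.curl θ R _ _ hθ (Rh2wx.wgrad h.avb (hφ m)) a b] at k1
    exact tendsto_nhds_unique k1 k2
  hl2 v R hv := by
    have k := h.avb.korn1 v R _ _ hv (Rh2wx.wgrad h.avb hv)
    have e : ∀ x, hs (hess v x) (hess v x) = tr (hess v x ∘L hess v x) := fun x => by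
      rw [hs_eq_tr, (sym_iff _).2 (hv.sym_hess x)]
      rfl
    simp only [e, k, sq, lap]

end Pool.Agent.MP_29b5d3_an.EX

end MrgPart3

-- ======== part 4: formerly Pool.Agent.MP_29b5d3_an.EX.Rjn1
section MrgPart4

/-! Project EXQ: exponential decay of the level sets of a function with small oscillation. -/

set_option autoImplicit false

namespace Pool.Agent.MP_29b5d3_an.EX

open MeasureTheory Metric Filter Topology Module Pool.Agent.MP_29b5d3_an.NC
open scoped RealInnerProductSpace ContDiff ENNReal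

variable {n : ℕ}

namespace Rjn1x

theorem dens (S : Set (V n)) : ∀ᵐ x ∂(volume : Measure (V n)).restrict S, ∀ ρ : ℝ, 0 < ρ →
    ¬ ∀ k : ℕ, volume (S ∩ ball x (ρ / 2 ^ k)) ≤
      ENNReal.ofReal (vb n * (ρ / 2 ^ k) ^ n / 2) := by
  filter_upwards [IsUnifLocDoublingMeasure.ae_tendsto_measure_inter_div volume S 1]
    with x hx ρ hρ hall
  have p : ∀ k : ℕ, 0 < ρ / 2 ^ k := fun k => by positivity
  have t1 : Tendsto (fun k : ℕ => ρ / 2 ^ k) atTop (𝓝[>] 0) := by
    refine tendsto_nhdsWithin_iff.2 ⟨?_, Eventually.of_forall p⟩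
    exact tendsto_const_nhds.div_atTop (tendsto_pow_atTop_atTop_of_one_lt one_lt_two)
  have t2 := hx (l := atTop) (fun _ => x) (fun k : ℕ => ρ / 2 ^ k) t1
    (Eventually.of_forall fun k => mem_closedBall_self (by simpa using (p k).le))
  have t3 : (1 : ℝ≥0∞) ≤ 2⁻¹ := by
    refine le_of_tendsto' t2 fun k => ENNReal.div_le_of_le_mul ?_
    have e : S ∩ closedBall x (ρ / 2 ^ k) ⊆ S ∩ ball x (ρ / 2 ^ k) ∪ sphere x (ρ / 2 ^ k) := by
      intro y hy
      rcases (mem_closedBall.1 hy.2).lt_or_eq with k1 | k1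
      · exact Or.inl ⟨hy.1, k1⟩
      · exact Or.inr k1
    refine (measure_mono e).trans ((measure_union_le _ _).trans ?_)
    rw [Measure.addHaar_sphere_of_ne_zero volume x (p k).ne', add_zero]
    refine (hall k).trans (le_trans (le_of_eq ?_)
      (mul_le_mul_right (measure_mono ball_subset_closedBall) _))
    rw [vol_ball x (p k), ENNReal.ofReal_div_of_pos two_pos, ENNReal.ofReal_ofNat,
      ENNReal.div_eq_inv_mul]
  norm_num at t3

theorem turn {P : ℕ → Prop} (h0 : P 0) (h : ¬ ∀ k, P k) : ∃ k, P k ∧ ¬ P (k + 1) := by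
  by_contra hc
  refine h fun k => ?_
  induction k with
  | zero => exact h0
  | succ k ih => exact by_contra fun k1 => hc ⟨k, ih, k1⟩

section
variable {E : Type} [NormedAddCommGroup E] {g : V n → E}

theorem meas (hg : StronglyMeasurable g) (z : V n) (R s : ℝ) (c : E) :
    MeasurableSet {y ∈ ball z R | s < ‖g y - c‖} :=
  measurableSet_ball.inter
    (measurableSet_lt measurable_const (hg.sub stronglyMeasurable_const).norm.measurable)

/-- one stopping ball -/
theorem one (hn : 1 ≤ n) {β s R R' ρ : ℝ} {z x : V n} {c : E} (hB : BM (al0 n) β g)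
    (hρ : 0 < ρ) (hρ2 : ρ ≤ 2) (hx : x ∈ ball (0 : V n) 10) (hs : ball x ρ ⊆ ball z R)
    (h1 : volume ({y ∈ ball z R | s < ‖g y - c‖} ∩ ball x ρ) ≤
      ENNReal.ofReal (vb n * ρ ^ n / 2))
    (h2 : ¬ volume ({y ∈ ball z R | s < ‖g y - c‖} ∩ ball x (ρ / 2)) ≤
      ENNReal.ofReal (vb n * (ρ / 2) ^ n / 2)) :
    volume ({y ∈ ball z R' | s + 2 * β < ‖g y - c‖} ∩ ball x (5 * ρ)) ≤
      ENNReal.ofReal ((1 / 2) ^ n) * volume ({y ∈ ball z R | s < ‖g y - c‖} ∩ ball x ρ) := by
  obtain ⟨c', hc'⟩ := hB x hx (5 * ρ) (by positivity) (by linarith)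
  have vp := vb_pos (n := n)
  have e : al0 n * (5 * ρ) ^ n = (1 / 2) ^ n * (vb n * (ρ / 2) ^ n / 2) := by
    have e1 : (20 : ℝ) ^ n = 5 ^ n * 2 ^ n * 2 ^ n := by
      rw [← mul_pow, ← mul_pow]
      norm_num
    change vb n / (2 * 20 ^ n) * (5 * ρ) ^ n = _
    rw [e1, mul_pow, div_pow, div_pow, one_pow]
    field_simp
  have lt : (1 / 2 : ℝ) ^ n * (vb n * (ρ / 2) ^ n / 2) < vb n * ρ ^ n / 2 := by
    have a1 : (1 / 2 : ℝ) ^ n < 1 := pow_lt_one₀ (by norm_num) (by norm_num) (by omega)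
    have a2 : (ρ / 2) ^ n ≤ ρ ^ n := pow_le_pow_left₀ (by positivity) (by linarith) n
    have a3 : 0 < vb n * (ρ / 2) ^ n / 2 := by positivity
    calc _ < 1 * (vb n * (ρ / 2) ^ n / 2) := mul_lt_mul_of_pos_right a1 a3
      _ ≤ _ := by rw [one_mul]; gcongr
  rw [e] at hc'
  have ex : ∃ y ∈ ball x ρ, ‖g y - c‖ ≤ s ∧ ‖g y - c'‖ ≤ β := by
    by_contra hc
    have sub : ball x ρ ⊆ ({y ∈ ball z R | s < ‖g y - c‖} ∩ ball x ρ) ∪
        {y ∈ ball x (5 * ρ) | β < ‖g y - c'‖} := by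
      intro y hy
      by_cases k1 : ‖g y - c‖ ≤ s
      · exact Or.inr ⟨ball_subset_ball (by linarith) hy, lt_of_not_ge fun k2 => hc ⟨y, hy, k1, k2⟩⟩
      · exact Or.inl ⟨⟨hs hy, lt_of_not_ge k1⟩, hy⟩
    have k := (measure_mono sub).trans ((measure_union_le _ _).trans (add_le_add h1 hc'))
    rw [vol_ball x hρ, ← ENNReal.ofReal_add (by positivity) (by positivity),
      ENNReal.ofReal_le_ofReal_iff (by positivity)] at k
    linarith
  obtain ⟨y, _, k1, k2⟩ := ex
  have cc : ‖c' - c‖ ≤ s + β := by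
    have := norm_sub_le (g y - c) (g y - c')
    rw [sub_sub_sub_cancel_left] at this
    linarith
  have sub : {y ∈ ball z R' | s + 2 * β < ‖g y - c‖} ∩ ball x (5 * ρ) ⊆
      {y ∈ ball x (5 * ρ) | β < ‖g y - c'‖} := by
    intro w hw
    refine ⟨hw.2, ?_⟩
    have k3 := hw.1.2
    have := norm_add_le (g w - c') (c' - c)
    rw [sub_add_sub_cancel] at this
    linarith
  refine (measure_mono sub).trans (hc'.trans ?_)
  rw [ENNReal.ofReal_mul (by positivity)]
  refine mul_le_mul_right ((le_of_not_ge h2).trans (measure_mono ?_)) _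
  exact Set.inter_subset_inter_right _ (ball_subset_ball (by linarith))

theorem step (hn : 1 ≤ n) (hg : StronglyMeasurable g) {β s R R' ρ : ℝ} {z : V n} {c : E}
    (hβ : 0 ≤ β) (hB : BM (al0 n) β g) (hρ : 0 < ρ) (hρ2 : ρ ≤ 2) (hR : R' + ρ ≤ R)
    (hz : ‖z‖ + R ≤ 10)
    (hS : volume {y ∈ ball z R | s < ‖g y - c‖} ≤ ENNReal.ofReal (vb n * ρ ^ n / 2)) :
    volume {y ∈ ball z R' | s + 2 * β < ‖g y - c‖} ≤
      ENNReal.ofReal ((1 / 2) ^ n) * volume {y ∈ ball z R | s < ‖g y - c‖} := by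
  set S : Set (V n) := {y ∈ ball z R | s < ‖g y - c‖} with eS
  set S' : Set (V n) := {y ∈ ball z R' | s + 2 * β < ‖g y - c‖} with eS'
  have mS : MeasurableSet S := meas hg z R s c
  have SS : S' ⊆ S := fun y hy =>
    ⟨ball_subset_ball (by linarith) hy.1, lt_of_le_of_lt (by linarith) hy.2⟩
  set T : Set (V n × ℝ) := {q | 0 < q.2 ∧ q.2 ≤ ρ ∧ volume (S' ∩ ball q.1 (5 * q.2)) ≤
    ENNReal.ofReal ((1 / 2) ^ n) * volume (S ∩ ball q.1 q.2)} with hT
  have key : ∀ᵐ x, x ∈ S' → ∃ r, (x, r) ∈ T := by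
    filter_upwards [(ae_restrict_iff' mS).1 (dens S)] with x hx k0
    obtain ⟨k, k1, k2⟩ := turn (P := fun k : ℕ => volume (S ∩ ball x (ρ / 2 ^ k)) ≤
      ENNReal.ofReal (vb n * (ρ / 2 ^ k) ^ n / 2))
      (by simpa using (measure_mono Set.inter_subset_left).trans hS) (hx (SS k0) ρ hρ)
    have le : ρ / 2 ^ k ≤ ρ := div_le_self hρ.le (one_le_pow₀ one_le_two)
    have d : dist x z < R' := k0.1
    refine ⟨ρ / 2 ^ k, by positivity, le, one hn hB (by positivity) (le.trans hρ2) ?_ ?_ k1 ?_⟩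
    · rw [mem_ball_zero_iff]
      have := norm_add_le (x - z) z
      rw [sub_add_cancel, ← dist_eq_norm] at this
      linarith
    · exact ball_subset_ball' (by linarith)
    · rwa [pow_succ, ← div_div] at k2
  obtain ⟨u, u1, u2, u3⟩ := Vitali.exists_disjoint_subfamily_covering_enlargement_ball T
    Prod.fst Prod.snd ρ (fun q hq => hq.2.1) 5 (by norm_num)
  have uc : u.Countable := u2.countable_of_isOpen (fun _ _ => isOpen_ball)
    fun q hq => nonempty_ball.2 (u1 hq).1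
  have := uc.to_subtype
  calc _ ≤ volume (⋃ q : u, S' ∩ ball q.1.1 (5 * q.1.2)) := by
        refine measure_mono_ae (key.mono fun x hx k0 => ?_)
        obtain ⟨r, k⟩ := hx k0
        obtain ⟨b, b1, b2⟩ := u3 (x, r) k
        exact Set.mem_iUnion.2 ⟨⟨b, b1⟩, k0, b2 (mem_ball_self k.1)⟩
    _ ≤ ∑' q : u, volume (S' ∩ ball q.1.1 (5 * q.1.2)) := measure_iUnion_le _
    _ ≤ ∑' q : u, ENNReal.ofReal ((1 / 2) ^ n) * volume (S ∩ ball q.1.1 q.1.2) :=
        ENNReal.tsum_le_tsum fun q => (u1 q.2).2.2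
    _ = ENNReal.ofReal ((1 / 2) ^ n) * volume (⋃ q ∈ u, S ∩ ball q.1 q.2) := by
        rw [ENNReal.tsum_mul_left, measure_biUnion uc
          (u2.mono fun _ => Set.inter_subset_right) fun _ _ => mS.inter measurableSet_ball]
    _ ≤ _ := by
        gcongr
        exact Set.iUnion₂_subset fun q _ => Set.inter_subset_left

theorem iter (hn : 1 ≤ n) (hg : StronglyMeasurable g) {β t r : ℝ} {z : V n} {c : E}
    (hβ : 0 ≤ β) (hB : BM (al0 n) β g) (hr : 0 < r) (hz : ‖z‖ + 2 * r ≤ 10)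
    (h0 : volume {y ∈ ball z (2 * r) | t < ‖g y - c‖} ≤ ENNReal.ofReal (al0 n * (2 * r) ^ n))
    (j : ℕ) : volume {y ∈ ball z (r * (1 + (1 / 2) ^ j)) | t + 2 * j * β < ‖g y - c‖} ≤
      ENNReal.ofReal (((1 / 2) ^ j) ^ n) * volume {y ∈ ball z (2 * r) | t < ‖g y - c‖} := by
  induction j with
  | zero =>
    have e : r * (1 + (1 / 2) ^ 0) = 2 * r := by ring
    rw [e]
    simp
  | succ j ih =>
    set a : ℝ := (1 / 2) ^ j with ea
    have a0 : 0 < a := by positivity
    have a1 : a ≤ 1 := pow_le_one₀ (by norm_num) (by norm_num)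
    have z0 := norm_nonneg z
    have ar : a * r ≤ r := mul_le_of_le_one_left hr.le a1
    have vp := vb_pos (n := n)
    have k := step (R' := r * (1 + (1 / 2) ^ (j + 1))) (R := r * (1 + a)) (ρ := a * r / 4)
      (s := t + 2 * j * β) (z := z) (c := c) hn hg hβ hB (by positivity) (by linarith)
      (by rw [pow_succ, ← ea]; nlinarith [mul_pos a0 hr]) (by nlinarith) (by
        refine ih.trans ((mul_le_mul_right h0 _).trans ?_)
        rw [← ENNReal.ofReal_mul (by positivity)]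
        refine ENNReal.ofReal_le_ofReal ?_
        have e : a ^ n * (al0 n * (2 * r) ^ n) = vb n * (a * (2 * r) / 20) ^ n / 2 := by
          change a ^ n * (vb n / (2 * 20 ^ n) * (2 * r) ^ n) = _
          rw [div_pow, mul_pow a]
          field_simp
        have e' : a * (2 * r) / 20 ≤ a * r / 4 := by nlinarith [mul_pos a0 hr]
        have := pow_le_pow_left₀ (by positivity) e' n
        rw [e]
        nlinarith)
    have e : t + 2 * ((j + 1 : ℕ) : ℝ) * β = t + 2 * j * β + 2 * β := by push_cast; ring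
    rw [e]
    refine k.trans ((mul_le_mul_right ih _).trans_eq ?_)
    rw [← mul_assoc, ← ENNReal.ofReal_mul (by positivity), ← mul_pow, pow_succ, ← ea, mul_comm a]

end

end Rjn1x

theorem jn1 (h : Bas0 n) : JN1 n := by
  intro E _ g β t r z c hg hβ hB hr hz h0 j
  have hn : 1 ≤ n := le_trans (by norm_num) h.hn
  refine le_trans (measure_mono fun y hy => ?_)
    ((Rjn1x.iter hn hg hβ hB hr hz h0 j).trans (mul_le_mul_left ?_ _))
  · refine ⟨ball_subset_ball ?_ hy.1, hy.2⟩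
    have : 0 < r * (1 / 2) ^ j := by positivity
    linarith
  · refine (ENNReal.ofReal_le_ofReal (pow_le_of_le_one (by positivity)
      (pow_le_one₀ (by norm_num) (by norm_num)) (by omega))).trans_eq ?_
    rw [ENNReal.ofReal_pow (by norm_num), one_div, ENNReal.ofReal_inv_of_pos two_pos,
      ENNReal.ofReal_ofNat]

end Pool.Agent.MP_29b5d3_an.EX

end MrgPart4

-- ======== part 5: formerly Pool.Agent.MP_29b5d3_an.EX.LayNum
section MrgPart5

/-! Project EXQ: the layer cake bound and the numerical facts. -/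

set_option autoImplicit false

namespace Pool.Agent.MP_29b5d3_an.EX

open MeasureTheory Metric Filter Topology Module Pool.Agent.MP_29b5d3_an.NC
open scoped RealInnerProductSpace ContDiff ENNReal

variable {n : ℕ}

namespace LayNumx

theorem point (x : ℝ) : ENNReal.ofReal √x ≤
    1 + ∑' l : ℕ, if (4 : ℝ) ^ l < x then ENNReal.ofReal (2 ^ (l + 1)) else 0 := by
  by_cases h1 : x ≤ 1
  · exact le_add_right (ENNReal.ofReal_le_one.2 (Real.sqrt_le_one.2 h1))
  have ex : ∃ l : ℕ, x ≤ 4 ^ (l + 1) := by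
    obtain ⟨l, hl⟩ := pow_unbounded_of_one_lt x (by norm_num : (1 : ℝ) < 4)
    exact ⟨l, hl.le.trans (pow_le_pow_right₀ (by norm_num) l.le_succ)⟩
  classical
  have k : (4 : ℝ) ^ Nat.find ex < x := by
    rcases h : Nat.find ex with _ | m
    · simpa using not_le.1 h1
    · exact not_le.1 (Nat.find_min ex (by omega))
  refine le_add_left (le_trans ?_ (ENNReal.le_tsum (Nat.find ex)))
  rw [if_pos k]
  refine ENNReal.ofReal_le_ofReal (Real.sqrt_le_iff.2 ⟨by positivity, ?_⟩)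
  refine (Nat.find_spec ex).trans_eq ?_
  rw [← pow_mul, mul_comm, pow_mul]
  norm_num

theorem wt_exp (s : ℝ) : wt (Real.exp s) = Real.exp (s / 4) := by
  rw [wt, ← Real.exp_half, ← Real.exp_half, div_div]
  norm_num

theorem wt_pow {δ : ℝ} (h : 0 < δ) (t : ℕ) :
    wt ((1 + δ) ^ t) = Real.exp (t * Real.log (1 + δ) / 4) := by
  rw [← wt_exp, Real.exp_nat_mul, Real.exp_log (by linarith)]

theorem log_low {δ : ℝ} (h : 0 < δ) : δ ≤ (1 + δ) * Real.log (1 + δ) := by
  have k := Real.one_sub_inv_le_log_of_pos (show 0 < 1 + δ by linarith)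
  have e : (1 + δ) * (1 - (1 + δ)⁻¹) = δ := by field_simp; ring
  calc δ = (1 + δ) * (1 - (1 + δ)⁻¹) := e.symm
    _ ≤ _ := by gcongr

theorem log_half {δ : ℝ} (h : 0 < δ) (h1 : δ ≤ 1) : δ ≤ 2 * Real.log (1 + δ) := by
  have := Real.log_nonneg (show 1 ≤ 1 + δ by linarith)
  nlinarith [log_low h]

theorem geo {δ : ℝ} (h : 0 < δ) (h1 : δ ≤ 1) (m : ℕ) :
    δ * ∑ i ∈ Finset.range m, (wt ((1 + δ) ^ i))⁻¹ ≤ 9 := by
  set r := Real.exp (-(Real.log (1 + δ) / 4)) with hr
  have r0 : 0 < r := Real.exp_pos _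
  have k : r * (1 + δ / 8) ≤ 1 := by
    have a := Real.add_one_le_exp (Real.log (1 + δ) / 4)
    have b := log_half h h1
    calc r * (1 + δ / 8) ≤ r * Real.exp (Real.log (1 + δ) / 4) := by gcongr; linarith
      _ = 1 := by rw [hr, ← Real.exp_add]; simp
  have r1 : r < 1 := by nlinarith
  have e : ∀ i : ℕ, (wt ((1 + δ) ^ i))⁻¹ = r ^ i := fun i => by
    rw [wt_pow h, hr, ← Real.exp_nat_mul, ← Real.exp_neg]
    congr 1
    ring
  simp only [e]
  have s : ∑ i ∈ Finset.range m, r ^ i ≤ (1 - r)⁻¹ := by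
    rw [← tsum_geometric_of_lt_one r0.le r1]
    exact (summable_geometric_of_lt_one r0.le r1).sum_le_tsum _ fun i _ => by positivity
  refine (mul_le_mul_of_nonneg_left s h.le).trans ?_
  rw [← div_eq_mul_inv, div_le_iff₀ (by linarith)]
  nlinarith

end LayNumx

open LayNumx

theorem lay : LAY n := by
  refine ⟨4, by norm_num, fun f S c hf hS hc h => ?_⟩
  have m : ∀ l : ℕ, MeasurableSet {y | (4 : ℝ) ^ l < f y} := fun l =>
    measurableSet_lt measurable_const hf
  have e : ∀ (l : ℕ) (y : V n), (if (4 : ℝ) ^ l < f y then ENNReal.ofReal (2 ^ (l + 1)) else 0) =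
      {y | (4 : ℝ) ^ l < f y}.indicator (fun _ => ENNReal.ofReal (2 ^ (l + 1))) y := fun l y => by
    simp only [Set.indicator_apply, Set.mem_ofPred_eq]
  refine (lintegral_mono fun y => point (f y)).trans ?_
  simp only [e]
  rw [lintegral_add_left measurable_const, setLIntegral_const, one_mul,
    lintegral_tsum fun l => (measurable_const.indicator (m l)).aemeasurable]
  refine add_le_add le_rfl ?_
  have b : ∀ l : ℕ, ∫⁻ y in S, {y | (4 : ℝ) ^ l < f y}.indicator
      (fun _ => ENNReal.ofReal (2 ^ (l + 1))) y ≤ ENNReal.ofReal (2 * c * (1 / 2) ^ l) := fun l => by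
    rw [lintegral_indicator_const (m l), Measure.restrict_apply (m l), Set.inter_comm]
    refine (mul_le_mul_right (h (4 ^ l) (one_le_pow₀ (by norm_num))) _).trans_eq ?_
    rw [← ENNReal.ofReal_mul (by positivity)]
    congr 1
    rw [show (4 : ℝ) = 2 * 2 by norm_num, mul_pow, one_div, inv_pow, pow_succ]
    field_simp
  refine (ENNReal.tsum_le_tsum b).trans_eq ?_
  rw [← ENNReal.ofReal_tsum_of_nonneg (fun l => by positivity)
    (summable_geometric_two.mul_left _), tsum_mul_left, tsum_geometric_two]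
  congr 1
  ring

theorem num : NUM where
  pow := by
    refine ⟨64 ^ 4, 1 / 100, by norm_num, by norm_num, fun δ b t h h1 hb hb1 => ?_⟩
    rw [wt_pow h]
    set s := t * Real.log (1 + δ) with hs
    set y := t * (δ * b) with hy
    have y0 : 0 ≤ y := by positivity
    have ys : y ≤ 2 * s * b := by
      have := log_half h h1
      calc y ≤ t * (2 * Real.log (1 + δ) * b) := by rw [hy]; gcongr
        _ = _ := by rw [hs]; ring
    have s0 : 0 ≤ s := mul_nonneg t.cast_nonneg (Real.log_nonneg (by linarith))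
    have y1 : y ≤ s / 50 := by nlinarith
    have g0 : 0 < δ * b := by positivity
    have g1 : (1 + δ * b) ^ t ≤ Real.exp y := by
      rw [hy, Real.exp_nat_mul]
      gcongr
      linarith [Real.add_one_le_exp (δ * b)]
    have g2 : 1 ≤ (1 + δ * b) ^ t := one_le_pow₀ (by linarith)
    constructor
    · calc ((1 + δ * b) ^ t) ^ 4 ≤ Real.exp y ^ 4 := by gcongr
        _ = Real.exp ((4 : ℕ) * y) := (Real.exp_nat_mul _ _).symm
        _ ≤ _ := Real.exp_le_exp.2 (by push_cast; linarith)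
    · have a : Real.exp y - 1 ≤ y * Real.exp y := by
        have k := Real.add_one_le_exp (-y)
        have e : Real.exp (-y) * Real.exp y = 1 := by rw [← Real.exp_add]; simp
        nlinarith [Real.exp_pos y]
      have c : s ≤ 32 * Real.exp (s / 32) := by linarith [Real.add_one_le_exp (s / 32)]
      have d : (1 + δ * b) ^ t - 1 ≤ 64 * b * Real.exp (s / 16) := by
        calc (1 + δ * b) ^ t - 1 ≤ y * Real.exp y := by linarith
          _ ≤ 2 * (32 * Real.exp (s / 32)) * b * Real.exp (s / 32) := by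
            refine mul_le_mul (ys.trans (by gcongr)) (Real.exp_le_exp.2 (by linarith))
              (Real.exp_pos _).le (by positivity)
          _ = 64 * b * (Real.exp (s / 32) * Real.exp (s / 32)) := by ring
          _ = _ := by rw [← Real.exp_add]; congr 2; ring
      calc ((1 + δ * b) ^ t - 1) ^ 4 ≤ (64 * b * Real.exp (s / 16)) ^ 4 :=
            pow_le_pow_left₀ (by linarith) d 4
        _ = 64 ^ 4 * b ^ 4 * Real.exp ((4 : ℕ) * (s / 16)) := by
            rw [Real.exp_nat_mul, mul_pow, mul_pow]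
        _ = _ := by congr 2; push_cast; ring
  log := fun δ b h hb => by
    have k := Real.log_le_sub_one_of_pos (show 0 < 1 + δ * b by positivity)
    nlinarith [mul_le_mul_of_nonneg_left (log_low h) hb]
  geo := by
    refine ⟨9, by norm_num, fun δ j N h h1 => ⟨?_, ?_⟩⟩
    · rw [Finset.sum_Ico_eq_sum_range]
      simpa only [Nat.add_sub_cancel_left] using geo h h1 (N - j)
    · have := Finset.sum_range_reflect (fun i => (wt ((1 + δ) ^ i))⁻¹) (N + 1)
      simp only [Nat.add_sub_cancel] at this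
      rw [this]
      exact geo h h1 _

end Pool.Agent.MP_29b5d3_an.EX

end MrgPart5

-- ======== part 6: formerly Pool.Agent.MP_29b5d3_an.EX.Rlv2
section MrgPart6

/-! Project EXQ: the function classes of the level pieces. -/

set_option autoImplicit false

namespace Pool.Agent.MP_29b5d3_an.EX

open MeasureTheory Metric Filter Topology Module Pool.Agent.MP_29b5d3_an.NC
open scoped RealInnerProductSpace ContDiff ENNReal

variable {n : ℕ}

namespace LV2x

variable {L : Lev n}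

theorem mJ (hL : L.Ok) (f : ℕ → ℝ) : Measurable fun x => f (L.J x) :=
  (measurable_from_nat (f := f)).comp hL.mJ

theorem ms (hL : L.Ok) : Measurable L.s := mJ hL L.τ

theorem mv (hL : L.Ok) (b : ℝ) (j : ℕ) : Measurable (L.v b j) := mJ hL fun i => L.g b ^ (i - j)

theorem mw (hL : L.Ok) (j : ℕ) : Measurable (L.w j) := mJ hL fun i => wt (L.τ i / L.τ j)

theorem ssum {E : Type} [NormedAddCommGroup E] (s : Finset ℕ) {f : ℕ → V n → E}
    (hf : ∀ i ∈ s, StronglyMeasurable (f i)) : StronglyMeasurable fun x => ∑ i ∈ s, f i x :=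
  Finset.stronglyMeasurable_fun_sum s hf

theorem sDY (hL : L.Ok) (i : ℕ) : StronglyMeasurable (L.DY i) :=
  (hL.h2 (i + 1)).mD.sub (hL.h2 i).mD

theorem sH (hL : L.Ok) : StronglyMeasurable L.H := stronglyMeasurable_const.sub (hL.h2 0).mD

theorem mO (hL : L.Ok) (i : ℕ) : MeasurableSet (L.O i) :=
  (isOpen_lt continuous_const (hL.cont i)).measurableSet

theorem sh (hL : L.Ok) (i : ℕ) : StronglyMeasurable (L.h i) :=
  (((sH hL).add (hL.h2 i).mD).sub stronglyMeasurable_const).indicator (mO hL i)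

theorem sPs (hL : L.Ok) (b : ℝ) : StronglyMeasurable (L.Ps b) :=
  (stronglyMeasurable_const.sub ((ms hL).inv.stronglyMeasurable.smul (sH hL))).const_smul b

theorem sDP (hL : L.Ok) (b : ℝ) (j : ℕ) : StronglyMeasurable (L.DP b j) :=
  stronglyMeasurable_const.add (ssum _ fun i _ => (sDY hL i).const_smul (L.ca b j i))

theorem sDZ (hL : L.Ok) (b : ℝ) (j j' : ℕ) : StronglyMeasurable (L.DZ b j j') :=
  ssum _ fun i _ => (sDY hL i).const_smul (L.cb b j j' i)

theorem shh (hL : L.Ok) (b : ℝ) (j : ℕ) : StronglyMeasurable (L.hh b j) :=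
  (sDP hL b j).sub ((mv hL b j).stronglyMeasurable.smul (stronglyMeasurable_const.sub (sPs hL b)))

theorem sKK (hL : L.Ok) (b : ℝ) : StronglyMeasurable (L.KK b) :=
  (ssum _ fun i _ => (mv hL b i).stronglyMeasurable.smul (sh hL i)).const_smul (b * L.δ)

theorem nsq {f : V n → Mt n} (hf : StronglyMeasurable f) : Measurable fun x => ‖f x‖ ^ 2 :=
  hf.norm.measurable.pow_const 2

theorem mI (hL : L.Ok) (b : ℝ) (j j' : ℕ) : Measurable (L.muI b j j') :=
  measurable_const.mul (Finset.measurable_sum _ fun i _ => measurable_const.mul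
    (continuous_tr.comp_stronglyMeasurable (sDY hL i)).measurable)

theorem mHH (hL : L.Ok) (j j' : ℕ) : Measurable (L.HH j j') :=
  ((nsq (sh hL j)).add (nsq (sh hL j'))).add
    (measurable_const.mul (Finset.measurable_sum _ fun i _ => nsq (sh hL i)))

theorem me2 {P : V n → Mt n} (hP : StronglyMeasurable P) : Measurable fun x => e2 (P x) :=
  (continuous_e2.comp_stronglyMeasurable hP).measurable

theorem mmP (hL : L.Ok) (b : ℝ) {P : V n → Mt n} (hP : StronglyMeasurable P) (j j' : ℕ) :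
    Measurable (L.muP b P j j') :=
  (continuous_hs.comp_stronglyMeasurable
    ((continuous_T1.comp_stronglyMeasurable (stronglyMeasurable_const.sub hP)).prodMk
      ((mv hL b j).stronglyMeasurable.smul (sDZ hL b j j')))).measurable

theorem mze (hL : L.Ok) (b : ℝ) {P : V n → Mt n} (hP : StronglyMeasurable P) (j : ℕ) :
    Measurable (L.ze b P j) :=
  (((mv hL b j).pow_const 2).mul (nsq (hP.sub (sPs hL b)))).add (nsq (shh hL b j))

theorem mrest (hL : L.Ok) (b : ℝ) {P : V n → Mt n} (hP : StronglyMeasurable P) (j j' : ℕ) :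
    Measurable (L.rest b P j j') :=
  ((measurable_const.mul (mze hL b hP j)).add
    ((measurable_const.mul (mHH hL j j')).div_const _)).add
    (Measurable.ite (measurableSet_lt hL.mJ measurable_const)
      ((ms hL).mul (((me2 hP).add measurable_const).add (nsq (hP.sub (sPs hL b)))))
      measurable_const)

theorem map (hL : L.Ok) (b : ℝ) {a : V n → ℝ} (ha : Measurable a) : Measurable (L.ap b a) :=
  ha.sub (mJ hL fun i => (i : ℝ) * Real.log (L.g b))

theorem lpind {E : Type} [NormedAddCommGroup E] {O : Set (V n)} (hO : MeasurableSet O)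
    (hv : volume O ≠ ⊤) {A B : V n → E} (hA : MemLp A 2 volume) (hB : MemLp B 2 volume) (c d : E) :
    MemLp (O.indicator fun x => c - A x + B x - d) 2 volume := by
  have hc : MemLp (O.indicator fun _ => c - d) 2 volume :=
    memLp_indicator_const 2 hO _ (Or.inr hv)
  have he : (O.indicator fun x => c - A x + B x - d) =
      (O.indicator fun _ => c - d) + O.indicator (B - A) := by
    funext x
    by_cases hx : x ∈ O
    · simp only [Pi.add_apply, Set.indicator_of_mem hx, Pi.sub_apply]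
      abel
    · simp only [Pi.add_apply, Set.indicator_of_notMem hx, add_zero]
  rw [he]
  exact hc.add ((hB.sub hA).indicator hO)

theorem hlp (h : H2L n) (h1 : LV1 n) (hL : L.Ok) (i : ℕ) : MemLp (L.h i) 2 volume :=
  lpind (h1.opn L hL i).measurableSet
    ((hL.vol i).trans_lt ENNReal.ofReal_lt_top).ne (h.lp _ _ _ (hL.h2 0)).2.2
    (h.lp _ _ _ (hL.h2 i)).2.2 (L.τ0 • (1 : Mt n)) (L.τ i • (1 : Mt n))

end LV2x

theorem lv2 (h : Bas1 n) (h1 : LV1 n) : LV2 n := by
  have hY : ∀ L : Lev n, L.Ok → ∀ i, H2 (L.Y i) (L.GY i) (L.DY i) := fun L hL i =>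
    h.h2a.sub _ _ _ _ _ _ (hL.h2 (i + 1)) (hL.h2 i)
  refine ⟨hY, fun L hL b j j' => h.h2a.sum _ _ _ _ _ fun i _ => hY L hL i, fun L hL b j => ?_,
    fun L hL i => LV2x.hlp h.h2a.toH2L h1 hL i,
    fun L hL b j j' => ⟨LV2x.ms hL, LV2x.mv hL b j, LV2x.mw hL j, LV2x.mI hL b j j',
      LV2x.mHH hL j j'⟩,
    fun L hL b j => ⟨LV2x.sH hL, LV2x.sh hL j, LV2x.sPs hL b, LV2x.sDP hL b j, LV2x.shh hL b j,
      LV2x.sKK hL b⟩,
    fun L hL b P j j' hP => ⟨LV2x.mmP hL b hP j j', LV2x.mze hL b hP j, LV2x.mrest hL b hP j j',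
      LV2x.me2 hP⟩,
    fun L hL b a R ha hR => ⟨LV2x.map hL b ha,
      (LV2x.map hL b ha).stronglyMeasurable.prodMk hR⟩⟩
  exact h.cfs.add _ _ (h.cfs.const 1)
    (h.h2a.cf _ _ _ (h.h2a.sum (Finset.Ico j L.N) (L.ca b j) _ _ _ fun i _ => hY L hL i))

end Pool.Agent.MP_29b5d3_an.EX

end MrgPart6

-- ======== part 7: formerly Pool.Agent.MP_29b5d3_an.EX.Rh2c
section MrgPart7

/-! Project EXQ: products of two functions of class `H2`. -/

set_option autoImplicit false

namespace Pool.Agent.MP_29b5d3_an.EX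

open MeasureTheory Metric Filter Topology Module Pool.Agent.MP_29b5d3_an.NC
open scoped RealInnerProductSpace ContDiff ENNReal

variable {n : ℕ}

namespace Rh2cx

section
variable {W E F : Type} [NormedAddCommGroup W] [NormedAddCommGroup E] [NormedAddCommGroup F]

/-- a weighted bilinear expression -/
structure Tri (T : W → E → F → ℝ) : Prop where
  c : Continuous fun p : W × E × F => T p.1 p.2.1 p.2.2
  l : ∀ w a a' b, T w (a' - a) b = T w a' b - T w a b
  r : ∀ w a b b', T w a (b' - b) = T w a b' - T w a b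
  le : ∀ w a b, ‖T w a b‖ ≤ ‖w‖ * (‖a‖ * ‖b‖)

/-- convergence in the mean of functions supported in a fixed ball -/
structure Cv (s : ℕ → V n → E) (a : V n → E) : Prop where
  l : MemLp a 2 volume
  ls : ∀ m, MemLp (s m) 2 volume
  o : ∀ x, 4 ≤ ‖x‖ → a x = 0
  os : ∀ m x, 4 ≤ ‖x‖ → s m x = 0
  t : Tendsto (fun m => eLpNorm (fun x => s m x - a x) 2 volume) atTop (𝓝 0)

variable {T : W → E → F → ℝ} {w : V n → W}

theorem Tri.meas (h : Tri T) (hw : Continuous w) {a : V n → E} {b : V n → F}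
    (ha : MemLp a 2 volume) (hb : MemLp b 2 volume) :
    AEStronglyMeasurable (fun x => T (w x) (a x) (b x)) volume :=
  h.c.comp_aestronglyMeasurable (hw.aestronglyMeasurable.prodMk (ha.1.prodMk hb.1))

theorem Tri.est (h : Tri T) {C : ℝ} (hC : ∀ x ∈ closedBall (0 : V n) 4, ‖w x‖ ≤ C) {a : V n → E}
    {b : V n → F} (ha : MemLp a 2 volume) (hb : MemLp b 2 volume) (h0 : ∀ x, 4 ≤ ‖x‖ → b x = 0) :
    eLpNorm (fun x => T (w x) (a x) (b x)) 1 volume ≤
      ENNReal.ofReal C * (eLpNorm a 2 volume * eLpNorm b 2 volume) := by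
  have h1 := eLpNorm_smul_le_mul_eLpNorm (p := 2) (q := 2) (r := 1) hb.1.norm ha.1.norm
  rw [eLpNorm_norm, eLpNorm_norm] at h1
  refine (eLpNorm_le_mul_eLpNorm_of_ae_le_mul (.of_forall fun x => ?_) 1).trans
    (mul_le_mul_right h1 _)
  refine (h.le _ _ _).trans ?_
  rw [Pi.smul_apply', smul_eq_mul, norm_mul, norm_norm, norm_norm]
  rcases le_total ‖x‖ 4 with hx | hx
  · exact mul_le_mul_of_nonneg_right (hC x (mem_closedBall_zero_iff.2 hx)) (by positivity)
  · rw [h0 x hx, norm_zero, mul_zero, mul_zero, mul_zero]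

theorem Tri.int (h : Tri T) (hw : Continuous w) {a : V n → E} {b : V n → F}
    (ha : MemLp a 2 volume) (hb : MemLp b 2 volume) (h0 : ∀ x, 4 ≤ ‖x‖ → b x = 0) :
    Integrable (fun x => T (w x) (a x) (b x)) volume := by
  obtain ⟨C, hC⟩ := (isCompact_closedBall (0 : V n) 4).exists_bound_of_continuousOn hw.continuousOn
  exact memLp_one_iff_integrable.1 ⟨h.meas hw ha hb, (h.est hC ha hb h0).trans_lt
    (ENNReal.mul_lt_top ENNReal.ofReal_lt_top (ENNReal.mul_lt_top ha.2 hb.2))⟩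

theorem Tri.lim (h : Tri T) (hw : Continuous w) {a : V n → E} {b : V n → F} {s : ℕ → V n → E}
    {t : ℕ → V n → F} (ha : Cv s a) (hb : Cv t b) :
    Tendsto (fun m => ∫ x, T (w x) (s m x) (t m x)) atTop (𝓝 (∫ x, T (w x) (a x) (b x))) := by
  obtain ⟨C, hC⟩ := (isCompact_closedBall (0 : V n) 4).exists_bound_of_continuousOn hw.continuousOn
  refine tendsto_integral_of_L1' _ (h.meas hw ha.l hb.l)
    (.of_forall fun m => h.int hw (ha.ls m) (hb.ls m) (hb.os m)) ?_
  have da : ∀ m, MemLp (fun x => s m x - a x) 2 volume := fun m => (ha.ls m).sub ha.l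
  have db : ∀ m, MemLp (fun x => t m x - b x) 2 volume := fun m => (hb.ls m).sub hb.l
  have d0 : ∀ m x, 4 ≤ ‖x‖ → t m x - b x = 0 := fun m x hx => by
    rw [hb.os m x hx, hb.o x hx, sub_zero]
  have k : ∀ {f : ℕ → ℝ≥0∞}, Tendsto f atTop (𝓝 0) →
      Tendsto (fun m => ENNReal.ofReal C * f m) atTop (𝓝 0) := fun hf => by
    simpa using ENNReal.Tendsto.const_mul hf (Or.inr ENNReal.ofReal_ne_top)
  have t1 := k (f := fun m => eLpNorm (fun x => s m x - a x) 2 volume *
      eLpNorm (fun x => t m x - b x) 2 volume)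
    (by simpa using ENNReal.Tendsto.mul ha.t (.inr (by simp)) hb.t (.inr (by simp)))
  have t2 := k (f := fun m => eLpNorm (fun x => s m x - a x) 2 volume * eLpNorm b 2 volume)
    (by simpa using ENNReal.Tendsto.mul_const ha.t (Or.inr hb.l.2.ne))
  have t3 := k (f := fun m => eLpNorm a 2 volume * eLpNorm (fun x => t m x - b x) 2 volume)
    (by simpa using ENNReal.Tendsto.const_mul hb.t (Or.inr ha.l.2.ne))
  have t4 := (t1.add t2).add t3
  rw [add_zero, add_zero] at t4
  refine tendsto_of_tendsto_of_tendsto_of_le_of_le tendsto_const_nhds t4 (fun _ => zero_le)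
    fun m => ?_
  have e : ((fun x => T (w x) (s m x) (t m x)) - fun x => T (w x) (a x) (b x)) =
      ((fun x => T (w x) (s m x - a x) (t m x - b x)) + fun x => T (w x) (s m x - a x) (b x)) +
        fun x => T (w x) (a x) (t m x - b x) := by
    ext x
    simp only [Pi.sub_apply, Pi.add_apply, h.l, h.r]
    ring
  have m1 := h.meas hw (da m) (db m)
  have m2 := h.meas hw (da m) hb.l
  rw [e]
  exact (eLpNorm_add_le (m1.add m2) (h.meas hw ha.l (db m)) le_rfl).trans (add_le_add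
    ((eLpNorm_add_le m1 m2 le_rfl).trans (add_le_add (h.est hC (da m) (db m) (d0 m))
      (h.est hC (da m) hb.l hb.o))) (h.est hC ha.l (db m) (d0 m)))

end

theorem tri1 {E : Type} [NormedAddCommGroup E] [InnerProductSpace ℝ E] :
    Tri fun (w : ℝ) (a b : E) => w * ⟪a, b⟫ where
  c := by fun_prop
  l w a a' b := by rw [inner_sub_left, mul_sub]
  r w a b b' := by rw [inner_sub_right, mul_sub]
  le w a b := by
    rw [norm_mul]
    exact mul_le_mul_of_nonneg_left (norm_inner_le_norm a b) (norm_nonneg _)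

theorem tri0 : Tri fun w a b : ℝ => w * (a * b) where
  c := by fun_prop
  l w a a' b := by ring
  r w a b b' := by ring
  le w a b := by rw [norm_mul, norm_mul]

theorem tri2 : Tri fun (w : V n) (D : Mt n) (g : V n) => ⟪w, D g⟫ where
  c := by fun_prop
  l w a a' b := by rw [sub_apply, inner_sub_right]
  r w a b b' := by rw [map_sub, inner_sub_right]
  le w a b := (norm_inner_le_norm _ _).trans
    (mul_le_mul_of_nonneg_left (a.le_opNorm b) (norm_nonneg _))

theorem tri3 : Tri fun (w : V n) (u : ℝ) (g : V n) => u * ⟪w, g⟫ where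
  c := by fun_prop
  l w a a' b := by ring
  r w a b b' := by rw [inner_sub_right, mul_sub]
  le w a b := by
    rw [norm_mul, mul_left_comm]
    exact mul_le_mul_of_nonneg_left (norm_inner_le_norm w b) (norm_nonneg _)

/-- the indicator of the ball -/
noncomputable def one (x : V n) : ℝ := (ball (0 : V n) 4).indicator (fun _ => 1) x

theorem one_mul {f : V n → ℝ} (h : ∀ x, 4 ≤ ‖x‖ → f x = 0) (x : V n) : one x * f x = f x := by
  rcases lt_or_ge ‖x‖ 4 with hx | hx
  · rw [one, Set.indicator_of_mem (mem_ball_zero_iff.2 hx), _root_.one_mul]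
  · rw [h x hx, mul_zero]

theorem cv_one : Cv (fun _ => (one : V n → ℝ)) one := by
  have h1 : MemLp (one : V n → ℝ) 2 volume :=
    memLp_indicator_const 2 measurableSet_ball 1 (Or.inr measure_ball_lt_top.ne)
  have h2 : ∀ x : V n, 4 ≤ ‖x‖ → one x = 0 := fun x hx =>
    Set.indicator_of_notMem (fun h => (mem_ball_zero_iff.1 h).not_ge hx) _
  exact ⟨h1, fun _ => h1, h2, fun _ => h2, by simp⟩

theorem apx (h : H2A n) {u : V n → ℝ} {G : V n → V n} {D : V n → Mt n} (hu : H2 u G D) :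
    ∃ φ : ℕ → V n → ℝ, (∀ m, Test (φ m) 4) ∧ Cv φ u ∧ Cv (fun m => gradient (φ m)) G ∧
      Cv (fun m => hess (φ m)) D ∧ Cv (fun m => lap (φ m)) fun x => tr (D x) := by
  obtain ⟨φ, h0, h1, h2, h3⟩ := hu.apx
  have p := h.lp _ _ _ hu
  have q := fun m => h.lp _ _ _ (h.test _ (h0 m))
  refine ⟨φ, h0, ⟨p.1, fun m => (q m).1, fun x hx => (hu.out x hx).1, fun m => (h0 m).2, h1⟩,
    ⟨p.2.1, fun m => (q m).2.1, fun x hx => (hu.out x hx).2.1, fun m => (h0 m).grad_zero, h2⟩,
    ⟨p.2.2, fun m => (q m).2.2, fun x hx => (hu.out x hx).2.2, fun m => (h0 m).hess_zero, h3⟩,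
    (trL n).comp_memLp' p.2.2, fun m => (trL n).comp_memLp' (q m).2.2,
    fun x hx => by rw [(hu.out x hx).2.2, tr_zero], fun m => (h0 m).lap.2, ?_⟩
  have h4 := ENNReal.Tendsto.const_mul (a := ENNReal.ofReal n) h3 (Or.inr ENNReal.ofReal_ne_top)
  rw [mul_zero] at h4
  refine tendsto_of_tendsto_of_tendsto_of_le_of_le tendsto_const_nhds h4 (fun _ => zero_le)
    fun m => eLpNorm_le_mul_eLpNorm_of_ae_le_mul (.of_forall fun x => ?_) 2
  rw [lap, ← tr_sub]
  exact abs_tr_le _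

theorem grad_inner {φ ψ : V n → ℝ} (h : Test φ 4) (k : Test ψ 4) (x v : V n) :
    ⟪v, gradient (fun y => ⟪gradient φ y, gradient ψ y⟫) x⟫ =
      ⟪v, hess φ x (gradient ψ x)⟫ + ⟪v, hess ψ x (gradient φ x)⟫ := by
  rw [real_inner_comm, inner_gradient, fderiv_inner_apply ℝ
    (h.smooth_grad.differentiable (by simp) x) (k.smooth_grad.differentiable (by simp) x),
    ← h.sym_hess x, ← k.sym_hess x, add_comm, real_inner_comm (gradient φ x)]
  rfl

theorem grad_mul {η φ : V n → ℝ} (h : ContDiff ℝ ∞ η) (k : ContDiff ℝ ∞ φ) (x v : V n) :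
    ⟪v, gradient (fun y => η y ^ 2 * φ y) x⟫ =
      η x ^ 2 * ⟪gradient φ x, v⟫ + 2 * (φ x * ⟪η x • gradient η x, v⟫) := by
  have d1 := (h.differentiable (by simp) x).hasFDerivAt
  have d2 := (k.differentiable (by simp) x).hasFDerivAt
  have d3 : HasFDerivAt (fun y => η y ^ 2 * φ y) _ x := (d1.pow 2).mul d2
  rw [real_inner_comm, inner_gradient, d3.fderiv, real_inner_smul_left, inner_gradient,
    inner_gradient]
  simp
  ring

theorem green (h : H2A n) {φ F : V n → ℝ} (hφ : Test φ 4) (hF : Test F 4) :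
    ∫ x, ⟪gradient φ x, gradient F x⟫ = -∫ x, F x * lap φ x := by
  have e1 : ∀ x, ⟪gradient φ x, gradient F x⟫ =
      ∑ i, ⟪gradient F x, ev i⟫ * fderiv ℝ φ x (ev i) := fun x => by
    rw [real_inner_comm, ← (EuclideanSpace.basisFun (Fin n) ℝ).sum_inner_mul_inner]
    exact Finset.sum_congr rfl fun i _ => by
      rw [← inner_gradient, real_inner_comm (gradient φ x)]; rfl
  have i1 : ∀ i, Integrable (fun x => ⟪gradient F x, ev i⟫ * fderiv ℝ φ x (ev i)) volume :=
    fun i => Test.int (R := 4) ⟨(hF.smooth_grad.inner ℝ contDiff_const).mul (hφ.der _).1,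
      fun y hy => mul_eq_zero_of_right _ ((hφ.der _).2 y hy)⟩
  have i2 : ∀ i, Integrable
      (fun x => F x * fderiv ℝ (fun y => fderiv ℝ φ y (ev i)) x (ev i)) volume :=
    fun i => Test.int (R := 4) ⟨hF.1.mul ((hφ.der _).der _).1,
      fun y hy => mul_eq_zero_of_left (hF.2 y hy) _⟩
  simp only [e1, hφ.lap_eq, Finset.mul_sum]
  rw [integral_finsetSum _ fun i _ => i1 i, integral_finsetSum _ fun i _ => i2 i,
    ← Finset.sum_neg_distrib]
  exact Finset.sum_congr rfl fun i _ => by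
    rw [h.weak _ _ _ (h.test F hF) _ 4 (hφ.der (ev i)) (ev i), neg_neg]

end Rh2cx

open Rh2cx in
theorem h2c (h : Bas1 n) : H2C n where
  dv1 ξ β u G D hd hu := by
    obtain ⟨φ, h0, c0, c1, -, -⟩ := apx h.h2a hu
    have e1 : ∀ {g : V n → V n}, (∀ x, 4 ≤ ‖x‖ → g x = 0) → ∀ x,
        one x * ⟪ξ x, g x⟫ = ⟪ξ x, g x⟫ := fun hg =>
      Rh2cx.one_mul fun x hx => by rw [hg x hx, inner_zero_right]
    have i1 := tri3.int hd.1 cv_one.l c1.l c1.o
    have i2 := tri0.int hd.2.1 cv_one.l c0.l c0.o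
    have l1 := tri3.lim hd.1 cv_one c1
    have l2 := tri0.lim hd.2.1 cv_one c0
    simp only [e1 c1.o, fun m => e1 (c1.os m), Rh2cx.one_mul c0.o,
      fun m => Rh2cx.one_mul (c0.os m)] at i1 i2 l1 l2
    exact ⟨i1, i2, tendsto_nhds_unique (l1.congr fun m => hd.2.2 _ (h0 m)) l2⟩
  dv2 ξ β u u' G G' D D' hd hu hu' := by
    obtain ⟨φ, h0, -, c1, c2, -⟩ := apx h.h2a hu
    obtain ⟨ψ, k0, -, d1, d2, -⟩ := apx h.h2a hu'
    refine ⟨tri2.int hd.1 c2.l d1.l d1.o, tri1.int hd.2.1 c1.l d1.l d1.o, tendsto_nhds_unique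
      (((tri2.lim hd.1 c2 d1).add (tri2.lim hd.1 d2 c1)).congr fun m => ?_)
      (tri1.lim hd.2.1 c1 d1)⟩
    rw [← hd.2.2 _ ⟨(h0 m).smooth_grad.inner ℝ (k0 m).smooth_grad,
      fun y hy => by rw [(k0 m).grad_zero y hy, inner_zero_right]⟩,
      ← integral_add (tri2.int hd.1 (c2.ls m) (d1.ls m) (d1.os m))
        (tri2.int hd.1 (d2.ls m) (c1.ls m) (c1.os m))]
    simp only [grad_inner (h0 m) (k0 m)]
  cacc u η R G D hu hη := by
    obtain ⟨φ, h0, c0, c1, -, c3⟩ := apx h.h2a hu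
    have w1 : Continuous fun x => η x ^ 2 := hη.cont.pow 2
    have w2 : Continuous fun x => η x • gradient η x := hη.cont.smul hη.smooth_grad.continuous
    have w3 : Continuous fun x => ‖gradient η x‖ ^ 2 := hη.smooth_grad.continuous.norm.pow 2
    have key : (∫ x, η x ^ 2 * ⟪G x, G x⟫) + 2 * ∫ x, u x * ⟪η x • gradient η x, G x⟫ =
        -∫ x, η x ^ 2 * (u x * tr (D x)) := by
      refine tendsto_nhds_unique (((tri1.lim w1 c1 c1).add
        ((tri3.lim w2 c0 c1).const_mul 2)).congr fun m => ?_) (tri0.lim w1 c0 c3).neg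
      have g := green h.h2a (h0 m) (F := fun y => η y ^ 2 * φ m y)
        ⟨(hη.1.pow 2).mul (h0 m).1, fun y hy => mul_eq_zero_of_right _ ((h0 m).2 y hy)⟩
      simp only [grad_mul hη.1 (h0 m).1, mul_assoc] at g
      rw [← g, integral_add (tri1.int w1 (c1.ls m) (c1.ls m) (c1.os m))
        ((tri3.int w2 (c0.ls m) (c1.ls m) (c1.os m)).const_mul 2), integral_const_mul]
    have i1 := tri1.int w1 c1.l c1.l c1.o
    have i2 := tri3.int w2 c0.l c1.l c1.o
    have i3 : Integrable (fun x => u x ^ 2 * ‖gradient η x‖ ^ 2) volume :=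
      (tri0.int w3 c0.l c0.l c0.o).congr (.of_forall fun x => by ring)
    simp only [real_inner_self_eq_norm_sq] at key i1
    have p : 0 ≤ ∫ x, (η x ^ 2 * ‖G x‖ ^ 2 + 4 * (u x * ⟪η x • gradient η x, G x⟫) +
        4 * (u x ^ 2 * ‖gradient η x‖ ^ 2)) := integral_nonneg fun x => by
      have q := sq_nonneg ‖η x • G x + (2 * u x) • gradient η x‖
      rw [norm_add_sq_real, norm_smul, norm_smul, mul_pow, mul_pow, Real.norm_eq_abs,
        Real.norm_eq_abs, sq_abs, sq_abs, real_inner_smul_left, real_inner_smul_right,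
        real_inner_comm] at q
      rw [real_inner_smul_left]
      exact q.trans_eq (by ring)
    have i4 : Integrable (fun x => η x ^ 2 * ‖G x‖ ^ 2 +
        4 * (u x * ⟪η x • gradient η x, G x⟫)) volume := i1.add (i2.const_mul 4)
    rw [integral_add i4 (i3.const_mul 4), integral_add i1 (i2.const_mul 4),
      integral_const_mul, integral_const_mul] at p
    linarith

end Pool.Agent.MP_29b5d3_an.EX

end MrgPart7

-- ======== part 8: formerly Pool.Agent.MP_29b5d3_an.EX.Rerr0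
section MrgPart8

/-! Project EXQ: the total oscillation in the first block and in the following blocks. -/

set_option autoImplicit false

namespace Pool.Agent.MP_29b5d3_an.EX

open MeasureTheory Metric Filter Topology Module Pool.Agent.MP_29b5d3_an.NC
open scoped RealInnerProductSpace ContDiff ENNReal

variable {n : ℕ}

namespace Err0x

theorem pt {b w t A v : ℝ} (ht : 0 ≤ t) (hA : 0 ≤ A) (hv : 0 ≤ v) (hb : 0 < b)
    (b1 : b ≤ 1) : w * (2 * t ^ 2 * v + 2 * A) ≤ 2 * A + (2 * v + 2 * A) * w ^ 2 + 2 * v * Psi b t := by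
  have k1 : t ^ 4 ≤ Psi b t := by
    have e1 : 1 ≤ Real.exp (4 * t) := Real.one_le_exp (by positivity)
    have e2 : t ^ 4 ≤ t ^ 4 / b ^ 4 :=
      le_div_self (by positivity) (by positivity) (pow_le_one₀ hb.le b1)
    have e3 : t ^ 2 ≤ 1 + t ^ 4 / b ^ 4 := by nlinarith [sq_nonneg (t ^ 2 - 1)]
    calc t ^ 4 = t ^ 2 * 1 * t ^ 2 := by ring
      _ ≤ Psi b t := by unfold Psi; gcongr
  have k2 : w * t ^ 2 ≤ w ^ 2 + t ^ 4 := by nlinarith [sq_nonneg (w - t ^ 2), sq_nonneg (t ^ 2)]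
  have k3 : w ≤ 1 + w ^ 2 := by nlinarith [sq_nonneg (w - 1)]
  nlinarith [mul_le_mul_of_nonneg_left k2 hv, mul_le_mul_of_nonneg_left k3 hA,
    mul_le_mul_of_nonneg_left k1 hv]

variable {E : Type} [NormedAddCommGroup E] {g : V n → E}

theorem wav_le (hg : StronglyMeasurable g) {w : V n → ℝ} (mw : Measurable w) (hw : ∀ x, 0 ≤ w x)
    {b A : ℝ} (hb : 0 < b) (b1 : b ≤ 1) (hA : 0 ≤ A) (c : E) (z : V n) {r : ℝ} (hr : 0 < r)
    (h : al (fun y => ‖g y - c‖ₑ ^ 2) z (2 * r) ≤ ENNReal.ofReal A) :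
    wav w g z r ≤ ENNReal.ofReal (2 * A) * ENNReal.ofReal (vb n) +
      ENNReal.ofReal (2 * vb n + 2 * A) * al (fun y => ENNReal.ofReal (w y ^ 2)) z r +
      ENNReal.ofReal (2 * vb n) * al (fun y => ENNReal.ofReal (Psi b ‖g y - c‖)) z r := by
  have v0 := (vb_pos (n := n)).le
  have m := meas_sq hg c
  have m2 : Measurable fun y => ENNReal.ofReal (w y ^ 2) := (mw.pow_const 2).ennreal_ofReal
  rw [← al_const _ z hr, ← al_const_mul ENNReal.ofReal_ne_top, ← al_const_mul ENNReal.ofReal_ne_top,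
    ← al_add_left measurable_const, ← al_add_left ((m2.const_mul _).const_add _)]
  refine al_mono fun y _ => ?_
  have i1 : al (fun y' => ‖g y - g y'‖ₑ ^ 2) z (2 * r) ≤
      ENNReal.ofReal (2 * ‖g y - c‖ ^ 2 * vb n + 2 * A) := by
    refine (al_mono fun y' _ => enorm_sq_le (g y) (g y') c).trans ?_
    rw [al_add_left measurable_const, al_const _ z (by positivity), al_const_mul (by simp),
      ENNReal.ofReal_add (by positivity) (by positivity), ENNReal.ofReal_mul (by positivity),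
      ENNReal.ofReal_mul (by positivity), ENNReal.ofReal_mul (by positivity),
      ENNReal.ofReal_pow (norm_nonneg _), ofReal_norm, ENNReal.ofReal_ofNat]
    gcongr
  have p0 := Psi_nonneg b ‖g y - c‖
  refine (mul_le_mul_right i1 _).trans ?_
  rw [← ENNReal.ofReal_mul (hw y), ← ENNReal.ofReal_mul (by positivity),
    ← ENNReal.ofReal_mul (by positivity), ← ENNReal.ofReal_add (by positivity) (by positivity),
    ← ENNReal.ofReal_add (by positivity) (by positivity)]
  exact ENNReal.ofReal_le_ofReal (pt (norm_nonneg _) hA v0 hb b1)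

theorem wav_mono {w w' : V n → ℝ} (h : ∀ y, w y ≤ w' y) (z : V n) (r : ℝ) :
    wav w g z r ≤ wav w' g z r :=
  al_mono fun y _ => mul_le_mul_left (ENNReal.ofReal_le_ofReal (h y)) _

theorem wav_bd {w : V n → ℝ} {W : ℝ} (h : ∀ y, w y ≤ W) (z : V n) {r : ℝ} (hr : 0 < r) :
    wav w g z (r / 4) ≤ ENNReal.ofReal W * ENNReal.ofReal (2 ^ n) * dav g z (r / 2) := by
  refine (wav_mono h z _).trans ?_
  rw [wav, al_const_mul ENNReal.ofReal_ne_top, mul_assoc, show 2 * (r / 4) = r / 2 by ring]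
  exact mul_le_mul_right (al_sub _ (by positivity) (ball_subset_ball (by linarith))
    (by linarith)) _

end Err0x

open Err0x

theorem err0 (h : Bas1 n) : ERR0 n := by
  have v0 := vb_pos (n := n)
  refine ⟨fun Cβ C₂ hβ h₂ => ?_, fun E _ g O σ s Λ C₀ K k hg hΛ hN hK => ?_⟩
  · obtain ⟨C1, c1, hd⟩ := h.jn.dav Cβ hβ
    obtain ⟨C2, c2, hc⟩ := h.wf.center
    obtain ⟨C3, b0, c3, hb0, hp⟩ := h.jn.psi Cβ (C2 * C1) hβ (by positivity)
    refine ⟨(C1 + (2 * (C2 * C1) * vb n + (2 * vb n + 2 * (C2 * C1)) * C₂ +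
      2 * vb n * (C3 * (C2 * C1)))) * (vb n * 4 ^ n), min b0 1, by positivity,
      lt_min hb0 one_pos, fun E _ g b w hg hb bb hB mw w0 hw => ?_⟩
    have b1 : b ≤ 1 := bb.trans (min_le_right _ _)
    have b2 : b ^ 2 ≤ 1 := pow_le_one₀ hb.le b1
    rw [ENNReal.ofReal_mul (by positivity), ← vol_ball (0 : V n) (by norm_num), ← setLIntegral_const]
    refine setLIntegral_mono' measurableSet_ball fun z hz => ?_
    have z4 : ‖z‖ < 4 := mem_ball_zero_iff.1 hz
    have d1 := hd E g b (2 * (1 / 4)) z hg hb hB (by norm_num) (by linarith)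
    obtain ⟨y, y1, -⟩ := hc E g w z (1 / 4) hg mw (by norm_num)
    have a1 : al (fun x => ‖g x - g y‖ₑ ^ 2) z (2 * (1 / 4)) ≤ ENNReal.ofReal (C2 * C1 * b ^ 2) := by
      refine y1.trans ?_
      rw [mul_assoc, ENNReal.ofReal_mul c2.le]
      gcongr
    have a2 : al (fun x => ‖g x - g y‖ₑ ^ 2) z (2 * (1 / 4)) ≤ ENNReal.ofReal (C2 * C1) :=
      a1.trans (ENNReal.ofReal_le_ofReal (mul_le_of_le_one_right (by positivity) b2))
    have p1 := (hp E g b (1 / 4) z (g y) hg hb (bb.trans (min_le_left _ _)) hB (by norm_num)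
      (by linarith) a1).trans (mul_le_mul_right a2 _)
    have w1 := wav_le hg mw w0 hb b1 (by positivity) (g y) z (by norm_num) a2
    rw [show (2 * (1 / 4) : ℝ) = 1 / 2 by norm_num] at d1
    rw [ENNReal.ofReal_add c1.le (by positivity), ENNReal.ofReal_add (by positivity) (by positivity),
      ENNReal.ofReal_add (by positivity) (by positivity),
      ENNReal.ofReal_mul (p := 2 * (C2 * C1)) (by positivity),
      ENNReal.ofReal_mul (p := 2 * vb n + 2 * (C2 * C1)) (by positivity),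
      ENNReal.ofReal_mul (p := 2 * vb n) (by positivity), ENNReal.ofReal_mul (p := C3) c3.le]
    refine add_le_add (d1.trans (ENNReal.ofReal_le_ofReal (mul_le_of_le_one_right c1.le b2)))
      (w1.trans ?_)
    gcongr
    exact hw z
  · have s1 := hN.pos (k + 1)
    have s0 := hN.pos k
    have W0 := wt_nonneg (σ K / σ (k + 1))
    refine ⟨σ (k + 1) * (1 + wt (σ K / σ (k + 1)) * 2 ^ n), by positivity, fun r hr => ?_⟩
    have le : σ k ≤ σ (k + 1) := (le_mul_of_one_le_left s0.le hΛ).trans (hN.low k)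
    have md : Measurable fun x : V n => infDist x (O k)ᶜ := (continuous_infDist_pt _).measurable
    have key : ∀ z, dav g z (max (infDist z (O k)ᶜ) r / 2) +
        wav (fun y => wt (s y / σ (k + 1))) g z (max (infDist z (O k)ᶜ) r / 4) ≤
        (O k).indicator (fun z => dav g z (infDist z (O k)ᶜ / 2) +
          wav (fun y => wt (s y / σ k)) g z (infDist z (O k)ᶜ / 4)) z +
        ENNReal.ofReal (1 + wt (σ K / σ (k + 1)) * 2 ^ n) * dav g z (r / 2) := by
      intro z
      rcases le_total r (infDist z (O k)ᶜ) with hz | hz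
      · have zo : z ∈ O k := by
          by_contra hn
          rw [infDist_zero_of_mem (show z ∈ (O k)ᶜ from hn)] at hz
          exact absurd hz (not_le.2 hr)
        rw [max_eq_left hz, Set.indicator_of_mem zo]
        refine le_add_right (add_le_add le_rfl (wav_mono (fun y => wt_mono ?_) z _))
        exact div_le_div_of_nonneg_left (hN.s0 y).le s0 le
      · rw [max_eq_right hz, ENNReal.ofReal_add zero_le_one (by positivity), ENNReal.ofReal_one,
          add_mul, one_mul, ENNReal.ofReal_mul W0]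
        refine le_add_left (add_le_add le_rfl (wav_bd (fun y => wt_mono ?_) z hr))
        exact div_le_div_of_nonneg_right (hN.sle K y (by simp [hK])) s1.le
    have mr : Measurable fun z => dav g z (r / 2) := dav_meas hg measurable_const
    have i1 := lintegral_mono (μ := volume.restrict (ball (0 : V n) 4)) key
    rw [lintegral_add_right _ (mr.const_mul _), lintegral_const_mul _ mr] at i1
    have i2 := (setLIntegral_le_lintegral (μ := volume) (ball (0 : V n) 4)
      ((O k).indicator fun z => dav g z (infDist z (O k)ᶜ / 2) +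
        wav (fun y => wt (s y / σ k)) g z (infDist z (O k)ᶜ / 4))).trans_eq
      ((lintegral_indicator (hN.opn k).measurableSet _).trans
        (lintegral_add_left (dav_meas hg (md.div_const 2)) _))
    refine (mul_le_mul_right (i1.trans (add_le_add i2 le_rfl)) _).trans ?_
    rw [mul_add, ← mul_assoc, ← ENNReal.ofReal_mul s1.le, NN, TT, ← mul_add, ← mul_assoc,
      ← ENNReal.ofReal_mul (by positivity)]
    exact add_le_add (mul_le_mul_left (ENNReal.ofReal_le_ofReal (hN.up k)) _) le_rfl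

end Pool.Agent.MP_29b5d3_an.EX

end MrgPart8

-- ======== part 9: formerly Pool.Agent.MP_29b5d3_an.EX.Rdns
section MrgPart9

/-! Project EXQ: density of the levels and averages of the weights. -/

set_option autoImplicit false

namespace Pool.Agent.MP_29b5d3_an.EX

open MeasureTheory Metric Filter Topology Module Pool.Agent.MP_29b5d3_an.NC
open scoped RealInnerProductSpace ContDiff ENNReal

variable {n : ℕ}

namespace Rdnsx

theorem tail (h : Bas2 n) {L : Lev n} (hL : L.Ok) (j : ℕ) {S : Set (V n)} {c : ℝ} (hc : 0 ≤ c)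
    (hS : ∀ i, j ≤ i → volume (L.O i ∩ S) ≤ ENNReal.ofReal (c * (L.τ j / L.τ i))) (l : ℝ)
    (hl : 1 ≤ l) : volume {y ∈ S | l < L.s y / L.τ j} ≤ ENNReal.ofReal (c / l) := by
  classical
  have tp := h.lv.τpos L hL
  have tm := h.lv.τmono L hL
  have ex : ∃ i, l * L.τ j < L.τ i := by
    obtain ⟨i, hi⟩ := pow_unbounded_of_one_lt (l * L.τ j / L.τ0)
      (lt_add_of_pos_right 1 hL.δ0)
    refine ⟨i, ?_⟩
    rw [div_lt_iff₀ hL.τp, mul_comm _ L.τ0] at hi
    exact hi
  have h1 := Nat.find_spec ex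
  have hj : j < Nat.find ex := by
    by_contra hn
    have := tm (not_lt.1 hn)
    nlinarith [tp j]
  refine le_trans (measure_mono fun y hy => ?_) ((hS _ hj.le).trans (ENNReal.ofReal_le_ofReal ?_))
  · refine ⟨(hL.hJ _ y (by omega)).2 (Nat.find_min' ex ?_), hy.1⟩
    exact (lt_div_iff₀ (tp j)).1 hy.2
  · rw [div_eq_mul_one_div c l]
    refine mul_le_mul_of_nonneg_left ?_ hc
    rw [div_le_div_iff₀ (tp _) (by linarith)]
    linarith

theorem lint (h : Bas2 n) : ∃ C : ℝ, 0 < C ∧ ∀ (L : Lev n) (j : ℕ) (S : Set (V n)) (c : ℝ), L.Ok →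
    MeasurableSet S → 0 ≤ c →
    (∀ i, j ≤ i → volume (L.O i ∩ S) ≤ ENNReal.ofReal (c * (L.τ j / L.τ i))) →
    ∫⁻ y in S, ENNReal.ofReal (L.w j y) ≤ 2 * volume S + ENNReal.ofReal (C * c) ∧
    ∫⁻ y in S, ENNReal.ofReal (L.w j y ^ 2) ≤ 2 * volume S + ENNReal.ofReal (C * c) := by
  obtain ⟨C, C0, hC⟩ := h.lay
  refine ⟨C, C0, fun L j S c hL hS hc hd => ?_⟩
  have k := hC (fun y => L.s y / L.τ j) S c ((h.lv.ms L hL 0 j j).1.div_const _) hS hc
    (tail h hL j hc hd)
  constructor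
  · calc ∫⁻ y in S, ENNReal.ofReal (L.w j y)
        ≤ ∫⁻ y in S, (1 + ENNReal.ofReal √(L.s y / L.τ j)) := lintegral_mono fun y => by
          rw [← ENNReal.ofReal_one, ← ENNReal.ofReal_add zero_le_one (Real.sqrt_nonneg _)]
          exact ENNReal.ofReal_le_ofReal (wt_le _)
      _ = volume S + ∫⁻ y in S, ENNReal.ofReal √(L.s y / L.τ j) := by
          rw [lintegral_add_left measurable_const, setLIntegral_const, one_mul]
      _ ≤ _ := by
          rw [two_mul, add_assoc]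
          exact add_le_add_right k _
  · simp only [Lev.w, wt_sq]
    refine k.trans (add_le_add_left ?_ _)
    rw [two_mul]
    exact le_self_add

theorem alb (h : Bas2 n) : ∃ C : ℝ, 0 < C ∧ ∀ (L : Lev n) (j : ℕ) (x : V n) (ρ K : ℝ), L.Ok →
    0 < ρ → 0 ≤ K →
    (∀ i, j ≤ i → volume (L.O i ∩ ball x ρ) ≤ ENNReal.ofReal (K * (L.τ j / L.τ i) * ρ ^ n)) →
    al (fun y => ENNReal.ofReal (L.w j y)) x ρ ≤ ENNReal.ofReal (2 * vb n + C * K) ∧
    al (fun y => ENNReal.ofReal (L.w j y ^ 2)) x ρ ≤ ENNReal.ofReal (2 * vb n + C * K) := by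
  obtain ⟨C, C0, hC⟩ := lint h
  refine ⟨C, C0, fun L j x ρ K hL hρ hK hd => ?_⟩
  have vp := vb_pos (n := n)
  obtain ⟨k1, k2⟩ := hC L j (ball x ρ) (K * ρ ^ n) hL measurableSet_ball (by positivity)
    fun i hi => (hd i hi).trans_eq (by rw [mul_right_comm])
  have e : 2 * volume (ball x ρ) + ENNReal.ofReal (C * (K * ρ ^ n)) =
      ENNReal.ofReal (ρ ^ n) * ENNReal.ofReal (2 * vb n + C * K) := by
    rw [vol_ball x hρ, ← ENNReal.ofReal_ofNat 2, ← ENNReal.ofReal_mul zero_le_two,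
      ← ENNReal.ofReal_add (by positivity) (by positivity), ← ENNReal.ofReal_mul (by positivity)]
    congr 1
    ring
  rw [e] at k1 k2
  exact ⟨al_le_of_lint hρ k1, al_le_of_lint hρ k2⟩

theorem far (hn : 3 ≤ n) (x : V n) : ∃ y, y ∉ ball (0 : V n) 3 ∧ dist x y ≤ 3 := by
  have : Nontrivial (V n) := Module.nontrivial_of_finrank_pos (R := ℝ) (by rw [fr]; omega)
  obtain ⟨e, he⟩ := exists_norm_eq (V n) (show (0 : ℝ) ≤ 3 by norm_num)
  by_contra hc
  push Not at hc
  have d1 : dist x (x + e) = 3 := by rw [dist_self_add_right, he]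
  have d2 : dist x (x - e) = 3 := by rw [dist_self_sub_right, he]
  have m1 : x + e ∈ ball (0 : V n) 3 := by
    by_contra hm
    exact (hc _ hm).ne' d1
  have m2 : x - e ∈ ball (0 : V n) 3 := by
    by_contra hm
    exact (hc _ hm).ne' d2
  rw [mem_ball_zero_iff] at m1 m2
  have k := norm_sub_le (x + e) (x - e)
  rw [add_sub_sub_cancel, ← two_smul ℝ e, norm_smul, he, Real.norm_ofNat] at k
  linarith

theorem volO (h : Bas2 n) {L : Lev n} (hL : L.Ok) (i : ℕ) :
    volume (L.O i) ≤ ENNReal.ofReal (L.m / L.τ0 * (L.τ 0 / L.τ i)) := by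
  refine (hL.vol i).trans (ENNReal.ofReal_le_ofReal ?_)
  have tp := h.lv.τpos L hL i
  have t0 := hL.τp
  have n1 : (1 : ℝ) ≤ n := by exact_mod_cast le_trans (by norm_num) h.hn
  have e : L.m / L.τ0 * (L.τ 0 / L.τ i) = L.m / L.τ i := by
    rw [show L.τ 0 = L.τ0 by simp [Lev.τ]]
    field_simp
  rw [e]
  exact div_le_div_of_nonneg_left hL.m0 tp (le_mul_of_one_le_left tp.le n1)

theorem nest (h : Bas2 n) : ∃ C : ℝ, 0 < C ∧ ∀ (Λ : ℝ) (L : Lev n) (ι : ℕ → ℕ), L.Ok →
    L.Blk ι Λ → Nest (fun k => L.O (ι k)) (fun k => L.τ (ι k)) L.s Λ C := by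
  obtain ⟨C, C0, hC⟩ := alb h
  obtain ⟨K, K0, hK⟩ := h.den
  have vp := vb_pos (n := n)
  refine ⟨2 * vb n + C * K + K, by positivity, fun Λ L ι hL hB => ?_⟩
  have tp := h.lv.τpos L hL
  refine ⟨fun k => h.lv.opn L hL _, fun k k' hk => h.lv.anti L hL (hB.mono.monotone hk), ?_,
    fun k => tp _, hB.low, hB.up, (h.lv.ms L hL 0 0 0).1, fun x => tp _, fun k x hx => ?_,
    fun k x hx r hr => ?_, fun k x hx r hr => ?_⟩
  · show L.O (ι 0) ⊆ _
    rw [hB.zero]
    exact hL.supp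
  · refine h.lv.τmono L hL ?_
    by_cases h0 : x ∈ L.O 0
    · exact (not_le.1 fun hi => hx ((h.lv.mem L hL _ x).2 ⟨h0, hi⟩)).le
    · rw [h.lv.J0 L hL x h0]
      exact Nat.zero_le _
  · refine (hK L hL (ι k) (ι (k + 1)) x r (hB.mono.monotone k.le_succ) hx hr).trans
      (ENNReal.ofReal_le_ofReal ?_)
    have := tp (ι k)
    have := tp (ι (k + 1))
    gcongr
    exact le_add_of_nonneg_left (by positivity)
  · refine (hC L (ι k) x r K hL hr K0.le fun i hi => hK L hL (ι k) i x r hi hx hr).1.trans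
      (ENNReal.ofReal_le_ofReal ?_)
    linarith

theorem dn (h : Bas2 n) (c : ℝ) (hc : 0 < c) : ∃ Λ₁ : ℝ, ∀ (Λ : ℝ) (L : Lev n) (ι : ℕ → ℕ)
    (k : ℕ) (r : ℝ), Λ₁ ≤ Λ → L.Ok → L.Blk ι Λ → 0 < r → r ≤ 1 →
    Scale (fun x => max (infDist x (L.O (ι k))ᶜ) r) ∧
    L.Dn (ι (k + 1)) (fun x => max (infDist x (L.O (ι k))ᶜ) r) c := by
  obtain ⟨K, K0, hK⟩ := h.den
  refine ⟨K / c, fun Λ L ι k r hΛ hL hB r0 r1 => ?_⟩
  have tp := h.lv.τpos L hL
  have sub : L.O (ι k) ⊆ ball 0 3 := (h.lv.anti L hL (Nat.zero_le _)).trans hL.supp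
  refine ⟨⟨(lipschitz_infDist_pt _).max_const r, ⟨r, r0, fun x => le_max_right _ _⟩,
    fun x => max_le ?_ (by linarith)⟩, fun z => ?_⟩
  · obtain ⟨y, hy, hd⟩ := far h.hn x
    have := infDist_le_dist_of_mem (x := x) (s := (L.O (ι k))ᶜ) (y := y) fun hm => hy (sub hm)
    linarith
  · obtain ⟨y, hy, -⟩ := far h.hn z
    obtain ⟨x₀, hx, e⟩ := (h.lv.opn L hL (ι k)).isClosed_compl.exists_infDist_eq_dist
      ⟨y, fun hm => hy (sub hm)⟩ z
    refine ⟨x₀, ?_, fun i ρ hi hρ => ?_⟩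
    · rw [dist_comm, ← e]
      exact le_max_left _ _
    · have ρ0 : 0 < ρ := r0.trans_le ((le_max_right _ _).trans hρ)
      refine (hK L hL (ι k) i x₀ ρ ((hB.mono.monotone k.le_succ).trans hi) hx ρ0).trans
        (ENNReal.ofReal_le_ofReal ?_)
      have h1 := hB.low k
      have h2 : K ≤ Λ * c := (div_le_iff₀ hc).1 hΛ
      have h3 : K * L.τ (ι k) ≤ c * L.τ (ι (k + 1)) := by
        nlinarith [tp (ι k), mul_le_mul_of_nonneg_left h1 hc.le,
          mul_le_mul_of_nonneg_right h2 (tp (ι k)).le]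
      have := tp i
      rw [← mul_div_assoc, ← mul_div_assoc]
      gcongr

theorem dn0 (h : Bas2 n) (c : ℝ) (L : Lev n) (hL : L.Ok) (hm : L.m ≤ c * L.τ0) :
    L.Dn 0 (fun _ => 1) c := fun z => by
  refine ⟨z, by simp, fun i r _ hr => ?_⟩
  refine (measure_mono Set.inter_subset_left).trans ((volO h hL i).trans
    (ENNReal.ofReal_le_ofReal ?_))
  have h1 : L.m / L.τ0 ≤ c := (div_le_iff₀ hL.τp).2 hm
  have h0 : 0 ≤ L.m / L.τ0 := div_nonneg hL.m0 hL.τp.le
  have h2 : 0 ≤ L.τ 0 / L.τ i := (div_pos (h.lv.τpos L hL 0) (h.lv.τpos L hL i)).le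
  exact (mul_le_mul_of_nonneg_right h1 h2).trans
    (le_mul_of_one_le_right (mul_nonneg (h0.trans h1) h2) (one_le_pow₀ hr))

theorem avg (h : Bas2 n) : ∃ C : ℝ, 0 < C ∧ ∀ (L : Lev n) (j : ℕ) (D : V n → ℝ) (c : ℝ), L.Ok →
    c ≤ 1 → (∀ z, 0 < D z) → L.Dn j D c → ∀ z,
    al (fun y => ENNReal.ofReal (L.w j y)) z (D z / 4) ≤ ENNReal.ofReal C ∧
    al (fun y => ENNReal.ofReal (L.w j y ^ 2)) z (D z / 4) ≤ ENNReal.ofReal C := by
  obtain ⟨C, C0, hC⟩ := alb h
  have vp := vb_pos (n := n)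
  refine ⟨2 * vb n + C * 8 ^ n, by positivity, fun L j D c hL hc hD hd z => ?_⟩
  obtain ⟨x₀, hx, hd⟩ := hd.mono hL hD hc z
  have D0 := hD z
  refine hC L j z (D z / 4) (8 ^ n) hL (by positivity) (by positivity) fun i hi => ?_
  refine le_trans (measure_mono (Set.inter_subset_inter_right _ ?_))
    ((hd i (2 * D z) hi (by linarith)).trans_eq ?_)
  · refine ball_subset_ball' ?_
    rw [dist_comm]
    linarith
  · rw [show 2 * D z = 8 * (D z / 4) by ring, mul_pow]
    congr 1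
    ring

theorem tot (h : Bas2 n) : ∃ C : ℝ, 0 < C ∧ ∀ L : Lev n, L.Ok →
    ∫⁻ x in L.O 0, ENNReal.ofReal (L.w 0 x) ≤ ENNReal.ofReal (C * L.m / L.τ0) := by
  obtain ⟨C, C0, hC⟩ := lint h
  refine ⟨2 + C, by positivity, fun L hL => ?_⟩
  have h0 : 0 ≤ L.m / L.τ0 := div_nonneg hL.m0 hL.τp.le
  refine (hC L 0 (L.O 0) (L.m / L.τ0) hL (h.lv.opn L hL 0).measurableSet h0
    fun i _ => (measure_mono Set.inter_subset_left).trans (volO h hL i)).1.trans ?_
  have k := volO h hL 0
  rw [div_self (h.lv.τpos L hL 0).ne', mul_one] at k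
  refine (add_le_add_left (mul_le_mul_right k 2) _).trans_eq ?_
  rw [← ENNReal.ofReal_ofNat 2, ← ENNReal.ofReal_mul zero_le_two,
    ← ENNReal.ofReal_add (by positivity) (by positivity)]
  congr 1
  ring

end Rdnsx

theorem dns (h : Bas2 n) : DNS n :=
  ⟨Rdnsx.nest h, Rdnsx.dn h, Rdnsx.dn0 h, Rdnsx.avg h, Rdnsx.tot h⟩

end Pool.Agent.MP_29b5d3_an.EX

end MrgPart9

-- ======== part 10: formerly Pool.Agent.MP_29b5d3_an.EX.Rbmj
section MrgPart10

/-! Project EXQ, row BMJ: the normalised conformal factor keeps the oscillation bound. -/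

set_option autoImplicit false

namespace Pool.Agent.MP_29b5d3_an.EX

open MeasureTheory Metric Filter Topology Module Pool.Agent.MP_29b5d3_an.NC
open scoped RealInnerProductSpace ContDiff ENNReal

variable {n : ℕ}

namespace Rbmj

/-- a bounded shift of the level changes the normalised pair by a bounded amount -/
theorem shift (L : Lev n) (b : ℝ) (a : V n → ℝ) (R : V n → Mt n) (hδ : 0 < L.δ) (hb : 0 < b)
    (c : ℝ × Mt n) (y : V n) (j T : ℕ) (h1 : j ≤ L.J y) (h2 : L.J y ≤ j + T) :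
    ‖L.gg b a R y - (c.1 - j * Real.log (L.g b), c.2)‖ ≤ ‖(a y, R y) - c‖ + T * L.δ * b := by
  have p : 0 < L.δ * b := mul_pos hδ hb
  have l0 : 0 ≤ Real.log (L.g b) := Real.log_nonneg (by unfold Lev.g; linarith)
  have l1 : Real.log (L.g b) ≤ L.δ * b := by
    have := Real.log_le_sub_one_of_pos (show 0 < L.g b by unfold Lev.g; linarith)
    unfold Lev.g at this ⊢
    linarith
  have e : L.gg b a R y - (c.1 - j * Real.log (L.g b), c.2) =
      ((a y, R y) - c) - (((L.J y : ℝ) - j) * Real.log (L.g b), 0) := by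
    refine Prod.ext ?_ ?_
    · simp only [Lev.gg, Lev.ap, Prod.fst_sub]
      ring
    · simp only [Lev.gg, Prod.snd_sub, sub_zero]
  have k1 : (j : ℝ) ≤ L.J y := by exact_mod_cast h1
  have k2 : (L.J y : ℝ) ≤ j + T := by exact_mod_cast h2
  rw [e]
  refine (norm_sub_le _ _).trans (add_le_add le_rfl ?_)
  rw [Prod.norm_mk, norm_zero, Real.norm_eq_abs,
    abs_of_nonneg (mul_nonneg (sub_nonneg.2 k1) l0), mul_assoc]
  refine max_le ?_ (by positivity)
  exact mul_le_mul (by linarith) l1 l0 T.cast_nonneg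

end Rbmj

theorem bmj (h : Bas2 n) : BMJ n := by
  intro Cβ hC
  obtain ⟨C, C0, hd⟩ := h.den
  have a0 : 0 < al0 n := al0_pos
  set K : ℝ := 2 * C * 2 ^ n / al0 n with hK
  have K0 : 0 < K := by positivity
  refine ⟨Cβ + (K + 1), by positivity, fun L b a R hL hb hB x hx r r0 r1 => ?_⟩
  obtain ⟨c, hc⟩ := hB x hx r r0 r1
  have hδ := hL.δ0
  obtain ⟨x₀, hx₀, hm⟩ := (measure L.J).wf.has_min (ball x r) ⟨x, mem_ball_self r0⟩
  have hm' : ∀ y ∈ ball x r, L.J x₀ ≤ L.J y := fun y hy => not_lt.1 (hm y hy)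
  set T : ℕ := ⌈K / L.δ⌉₊ with hT
  have T1 : K ≤ T * L.δ := (div_le_iff₀ hδ).1 (Nat.le_ceil _)
  have T2 : T * L.δ ≤ K + 1 := by
    have := (Nat.ceil_lt_add_one (div_pos K0 hδ).le).le
    have e : (K / L.δ + 1) * L.δ = K + L.δ := by field_simp
    have := mul_le_mul_of_nonneg_right this hδ.le
    linarith [hL.δ1]
  have hn : x₀ ∉ L.O (L.J x₀ + 1) := fun hh => by
    have := (hL.hJ _ x₀ (by omega)).1 hh
    omega
  have hv := hd L hL (L.J x₀ + 1) (L.J x₀ + 1 + T) x₀ (2 * r) (by omega) hn (by positivity)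
  have hq : K ≤ (1 + L.δ) ^ T := by
    have := one_add_mul_le_pow (show (-2 : ℝ) ≤ L.δ by linarith) T
    linarith
  have hτ : L.τ (L.J x₀ + 1) / L.τ (L.J x₀ + 1 + T) ≤ K⁻¹ := by
    have := hL.τp
    have e : L.τ (L.J x₀ + 1) / L.τ (L.J x₀ + 1 + T) = ((1 + L.δ) ^ T)⁻¹ := by
      unfold Lev.τ
      rw [pow_add _ (L.J x₀ + 1) T]
      field_simp
    rw [e]
    exact inv_anti₀ K0 hq
  have hv2 : volume (L.O (L.J x₀ + 1 + T) ∩ ball x₀ (2 * r)) ≤
      ENNReal.ofReal (al0 n / 2 * r ^ n) := by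
    refine hv.trans (ENNReal.ofReal_le_ofReal ?_)
    calc C * (L.τ (L.J x₀ + 1) / L.τ (L.J x₀ + 1 + T)) * (2 * r) ^ n
        ≤ C * K⁻¹ * (2 * r) ^ n := by gcongr
      _ = al0 n / 2 * r ^ n := by
        rw [hK, mul_pow]
        field_simp
  refine ⟨(c.1 - L.J x₀ * Real.log (L.g b), c.2), ?_⟩
  have sub : {y ∈ ball x r | (Cβ + (K + 1)) * b <
      ‖L.gg b a R y - (c.1 - L.J x₀ * Real.log (L.g b), c.2)‖} ⊆
      {y ∈ ball x r | Cβ * b < ‖(a y, R y) - c‖} ∪
        L.O (L.J x₀ + 1 + T) ∩ ball x₀ (2 * r) := by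
    rintro y ⟨hy, hy2⟩
    by_cases hO : y ∈ L.O (L.J x₀ + 1 + T)
    · refine Or.inr ⟨hO, ?_⟩
      rw [mem_ball] at hy hx₀ ⊢
      linarith [dist_triangle_right y x₀ x]
    · refine Or.inl ⟨hy, ?_⟩
      have j2 : L.J y ≤ L.J x₀ + T := by
        have := (hL.hJ (L.J x₀ + 1 + T) y (by omega)).not.1 hO
        omega
      have := Rbmj.shift L b a R hδ hb c y _ T (hm' y hy) j2
      have := mul_le_mul_of_nonneg_right T2 hb.le
      linarith
  refine (measure_mono sub).trans ((measure_union_le _ _).trans ((add_le_add hc hv2).trans_eq ?_))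
  rw [← ENNReal.ofReal_add (by positivity) (by positivity)]
  congr 1
  ring

end Pool.Agent.MP_29b5d3_an.EX

end MrgPart10

-- ======== part 11: formerly Pool.Agent.MP_29b5d3_an.EX.Rerrs
section MrgPart11

/-! Project EXQ, row ERRS: the sum of the block inequalities. -/

set_option autoImplicit false

namespace Pool.Agent.MP_29b5d3_an.EX

open MeasureTheory Metric Filter Topology Module Pool.Agent.MP_29b5d3_an.NC
open scoped RealInnerProductSpace ContDiff ENNReal

namespace ERRSx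

variable {n : ℕ}

theorem ofReal_sum_le (s : Finset ℕ) (f : ℕ → ℝ) :
    ENNReal.ofReal (∑ k ∈ s, f k) ≤ ∑ k ∈ s, ENNReal.ofReal (f k) := by
  induction s using Finset.induction_on with
  | empty => simp
  | insert a s ha ih =>
    rw [Finset.sum_insert ha, Finset.sum_insert ha]
    exact ENNReal.ofReal_add_le.trans (add_le_add le_rfl ih)

theorem enorm_sq {E : Type} [NormedAddCommGroup E] (x : E) :
    ‖x‖ₑ ^ 2 = ENNReal.ofReal (‖x‖ ^ 2) := by
  rw [← ofReal_norm, ENNReal.ofReal_pow (norm_nonneg _)]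

theorem two {x y z : ℝ} (h : x ≤ 2 * y ^ 2 + 2 * z ^ 2) :
    ENNReal.ofReal x ≤ 2 * ENNReal.ofReal (y ^ 2) + ENNReal.ofReal (2 * z ^ 2) := by
  rw [← ENNReal.ofReal_ofNat 2, ← ENNReal.ofReal_mul zero_le_two,
    ← ENNReal.ofReal_add (by positivity) (by positivity)]
  exact ENNReal.ofReal_le_ofReal h

theorem l2 (hv : LV n) {L : Lev n} (hL : L.Ok) (b : ℝ) {a : V n → ℝ} {R : V n → Mt n}
    (hR : ∀ x, Orth (R x)) (ha : ∫⁻ x in ball (0 : V n) 5, ‖a x‖ₑ ^ 2 < ⊤) :
    ∫⁻ x in ball (0 : V n) 5, ‖L.gg b a R x‖ₑ ^ 2 < ⊤ := by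
  set M : ℝ := L.N * |Real.log (L.g b)| + 1 with hM
  have k : ∀ x, ‖L.gg b a R x‖ₑ ^ 2 ≤ 2 * ‖a x‖ₑ ^ 2 + ENNReal.ofReal (2 * M ^ 2) := by
    intro x
    have j1 : (L.J x : ℝ) ≤ L.N := by exact_mod_cast (hv.Jle L hL x).trans (Nat.sub_le _ _)
    have j2 : |(L.J x : ℝ) * Real.log (L.g b)| ≤ L.N * |Real.log (L.g b)| := by
      rw [abs_mul, Nat.abs_cast]
      gcongr
    have j0 : (0 : ℝ) ≤ L.N * |Real.log (L.g b)| := by positivity
    have j3 : ‖L.gg b a R x‖ ≤ ‖a x‖ + M := by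
      rw [Lev.gg, Prod.norm_mk, max_le_iff, Lev.ap, Real.norm_eq_abs, Real.norm_eq_abs]
      refine ⟨(abs_sub _ _).trans (by linarith), (hR x).norm_le.trans ?_⟩
      linarith [abs_nonneg (a x)]
    rw [enorm_sq, enorm_sq]
    refine two ?_
    nlinarith [norm_nonneg (L.gg b a R x), norm_nonneg (a x), sq_nonneg (‖a x‖ - M)]
  refine (lintegral_mono k).trans_lt ?_
  rw [lintegral_add_right _ measurable_const, lintegral_const_mul' _ _ (by norm_num),
    setLIntegral_const]
  exact ENNReal.add_lt_top.2 ⟨ENNReal.mul_lt_top (by norm_num) ha,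
    ENNReal.mul_lt_top ENNReal.ofReal_lt_top measure_ball_lt_top⟩

theorem ze_nonneg (L : Lev n) (b : ℝ) (P : V n → Mt n) (j : ℕ) (x : V n) : 0 ≤ L.ze b P j x := by
  unfold Lev.ze
  positivity

theorem ze_le (h : Bas3 n) {L : Lev n} (hL : L.Ok) {b : ℝ} {P : V n → Mt n}
    (hP : ∀ x, Str b (P x)) (j j' : ℕ) :
    ENNReal.ofReal (L.τ j) * ∫⁻ y in L.O j, ENNReal.ofReal (L.ze b P j y) ≤ L.Rest b P j j' := by
  obtain ⟨C, -, hC⟩ := h.pw.e2b
  have t0 := h.lv.τpos L hL
  rw [← lintegral_const_mul' _ _ ENNReal.ofReal_ne_top]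
  refine lintegral_mono fun y => ?_
  rw [← ENNReal.ofReal_mul (t0 j).le]
  refine ENNReal.ofReal_le_ofReal ?_
  have d0 := hL.δ0
  have e0 := (hC b (P y) (hP y)).1
  have s0 : 0 < L.s y := t0 _
  have h0 : 0 ≤ L.HH j j' y := by
    unfold Lev.HH
    positivity
  have k1 : 0 ≤ b ^ 2 * L.HH j j' y / L.τ j := by
    have := t0 j
    positivity
  have k2 : 0 ≤ if L.J y < j' then
      L.s y * (e2 (P y) + L.δ * b ^ 2 + ‖P y - L.Ps b y‖ ^ 2) else 0 := by
    split_ifs
    · positivity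
    · exact le_rfl
  unfold Lev.rest
  linarith

theorem lim {X A B T : ℝ≥0∞} {C C' : ℝ} {F : ℝ → ℝ≥0∞} (hF : Tendsto F (𝓝[>] 0) (𝓝 0))
    (h : ∀ r : ℝ, 0 < r → r ≤ 1 →
      X ≤ ENNReal.ofReal C * (A * B + ENNReal.ofReal C' * F (r / 2) + T)) :
    X ≤ ENNReal.ofReal C * (A * B + T) := by
  have t : Tendsto (fun r : ℝ => r / 2) (𝓝[>] 0) (𝓝[>] 0) := by
    refine tendsto_nhdsWithin_iff.2 ⟨?_, ?_⟩
    · have : Tendsto (fun r : ℝ => r / 2) (𝓝 0) (𝓝 (0 / 2)) := tendsto_id.div_const 2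
      rw [zero_div] at this
      exact this.mono_left nhdsWithin_le_nhds
    · filter_upwards [self_mem_nhdsWithin] with r hr
      exact half_pos (Set.mem_Ioi.1 hr)
  have k := ENNReal.Tendsto.const_mul (a := ENNReal.ofReal C)
    (((ENNReal.Tendsto.const_mul (a := ENNReal.ofReal C') (hF.comp t)
      (Or.inr ENNReal.ofReal_ne_top)).const_add (A * B)).add_const T)
    (Or.inr ENNReal.ofReal_ne_top)
  rw [mul_zero, add_zero] at k
  refine ge_of_tendsto k ?_
  filter_upwards [Ioc_mem_nhdsGT one_pos] with r hr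
  exact h r hr.1 hr.2

end ERRSx

open ERRSx in
theorem errs {n : ℕ} (h : Bas3 n) (h1 : BLK2 n) (h2 : ERR0 n) (h3 : OSC n) (h4 : LIN n)
    (h5 : BMJ n) (h6 : PIG n) (h7 : SUMS n) : ERRS n := by
  obtain ⟨c₀, c0, c1, hB⟩ := h1
  refine ⟨c₀, c0, fun Cβ hβ => ?_⟩
  obtain ⟨Cβ', hβ', hJ⟩ := h5 Cβ hβ
  obtain ⟨C₀, hC₀, hN⟩ := h.dns.nest
  obtain ⟨C₁, b₁, hC₁, hb₁, hLin⟩ := h4
  obtain ⟨Λ₁, hΛ₁⟩ := h3 C₀ C₁ Cβ' hC₀ hC₁ hβ'
  obtain ⟨Λ₂, hΛ₂⟩ := h.dns.dn c₀ c0
  obtain ⟨Λ, l3, l1, l2'⟩ : ∃ Λ : ℝ, 3 ≤ Λ ∧ Λ₁ ≤ Λ ∧ Λ₂ ≤ Λ :=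
    ⟨max 3 (max Λ₁ Λ₂), le_max_left _ _, (le_max_left _ _).trans (le_max_right _ _),
      (le_max_right _ _).trans (le_max_right _ _)⟩
  obtain ⟨CO, b₂, hCO, hb₂, hO⟩ := hΛ₁ Λ l1
  obtain ⟨CB, b₃, hCB, hb₃, hBl⟩ := hB (4 * Λ ^ 2) Cβ' (by positivity) hβ'
  obtain ⟨C₂, hC₂, hA⟩ := h.dns.avg
  obtain ⟨CF', b₄, hCF, hb₄, hF⟩ := h2.first Cβ' C₂ hβ' hC₂
  obtain ⟨CS', b₅, hCS, hb₅, hS⟩ := h7 Λ l3
  refine ⟨CB * (4 * Λ ^ 2 * (CO * (1 + CS')) + CF' + CS'), min b₁ (min b₂ (min b₃ (min b₄ b₅))),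
    by positivity, by positivity, fun L b A R P a hL b0 hb hP hBM ha hm i1 i2 => ?_⟩
  simp only [le_min_iff] at hb
  obtain ⟨e1, e2', e3, e4, e5⟩ := hb
  obtain ⟨ι, hι⟩ := h6 Λ L l3 hL
  refine ⟨ι, hι.mono, hι.zero, ?_⟩
  have mg := (h.lv.mg L hL b a R hP.ma hP.mR).2
  have bm := hJ L b a R hL b0 hBM
  have g2 := l2 h.lv hL b hP.orth ha
  have nest := hN Λ L ι hL hι
  have emp : L.O (ι L.N) = ∅ := h.lv.empty L hL _ hι.mono.le_apply
  have blk := fun (k : ℕ) (D : V n → ℝ) (hD : Scale D) (hn : L.Dn (ι k) D c₀) =>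
    hBl L b A R P a D (ι k) (ι (k + 1)) hL b0 e3 hP bm g2 (hι.mono (Nat.lt_succ_self k))
      (hι.up k) hD hn (i1 _ _) (i2 _ _)
  set g := L.gg b a R with hg
  set S : ℕ → ℝ≥0∞ := fun k => NN (fun k => L.O (ι k)) (fun k => L.τ (ι k)) g k +
    TT (fun k => L.O (ι k)) (fun k => L.τ (ι k)) L.s g k with hSd
  let T : ℕ → ℝ≥0∞ := fun k =>
    Nat.casesOn k (ENNReal.ofReal L.τ0 * ENNReal.ofReal CF')
      fun k => ENNReal.ofReal (4 * Λ ^ 2) * S k
  have τ0 : L.τ (ι 0) = L.τ0 := by rw [hι.zero, Lev.τ, pow_zero, mul_one]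
  have one : ∀ k, ENNReal.ofReal ((∫ x, L.muP b P (ι k) (ι (k + 1)) x) +
      ∫ x, L.ap b a x * L.muI b (ι k) (ι (k + 1)) x) ≤
      ENNReal.ofReal CB * (T k + L.Rest b P (ι k) (ι (k + 1))) := by
    intro k
    cases k with
    | zero =>
      have d0 : L.Dn (ι 0) (fun _ => 1) c₀ := by
        rw [hι.zero]
        exact h.dns.dn0 c₀ L hL hm
      refine (blk 0 _ scale_one d0).trans ?_
      rw [τ0]
      have k := hF _ g b (L.w (ι 0)) mg b0 e4 bm (h.lv.ms L hL b (ι 0) 0).2.2.1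
        (fun x => wt_nonneg _) fun z => (hA L (ι 0) _ c₀ hL c1 (fun _ => one_pos) d0 z).2
      exact mul_le_mul_right (add_le_add (mul_le_mul_right k _) le_rfl) _
    | succ k =>
      obtain ⟨C', -, hC'⟩ := h2.next _ g _ _ L.s Λ C₀ L.N k mg (by linarith) nest emp
      refine lim (C' := C') (h.l0 _ g mg g2) fun r r0 r1 => ?_
      obtain ⟨sc, dn⟩ := hΛ₂ Λ L ι k r l2' hL hι r0 r1
      exact (blk (k + 1) _ sc dn).trans (mul_le_mul_right (add_le_add (hC' r r0) le_rfl) _)
  have sR := hS L b P ι hL b0 e5 hP.mP hP.str hι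
  have sS : ∑ k ∈ Finset.range L.N, S k ≤ ENNReal.ofReal CO *
      (ENNReal.ofReal L.τ0 + ENNReal.ofReal CS' * L.Sl b P) := by
    refine (hO _ g _ _ L.s (fun k => L.ze b P (ι k)) b L.N mg nest emp b0 e2' bm
      (fun k => (h.lv.mP L hL b P (ι k) 0 hP.mP).2.1) (fun k x => ze_nonneg L b P _ x)
      fun k => hLin L b A R P a (ι k) hL b0 e1 hP).trans (mul_le_mul_right ?_ _)
    rw [τ0]
    exact add_le_add le_rfl
      ((Finset.sum_le_sum fun k _ => ze_le h hL hP.str (ι k) (ι (k + 1))).trans sR)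
  have sT : ∑ k ∈ Finset.range L.N, T k ≤
      ENNReal.ofReal (4 * Λ ^ 2) * ∑ k ∈ Finset.range L.N, S k +
        ENNReal.ofReal L.τ0 * ENNReal.ofReal CF' := by
    refine (Finset.sum_le_sum_of_subset (Finset.range_mono (Nat.le_succ _))).trans_eq ?_
    rw [Finset.sum_range_succ', Finset.mul_sum]
    rfl
  refine (ofReal_sum_le _ _).trans ((Finset.sum_le_sum fun k _ => one k).trans ?_)
  rw [← Finset.mul_sum, Finset.sum_add_distrib, ENNReal.ofReal_mul hCB.le, mul_assoc]
  refine mul_le_mul_right ?_ _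
  set Y := L.Sl b P + ENNReal.ofReal L.τ0 with hY
  have y1 : L.Sl b P ≤ Y := le_self_add
  have y2 : ENNReal.ofReal L.τ0 ≤ Y := le_add_self
  calc _ ≤ (ENNReal.ofReal (4 * Λ ^ 2) * (ENNReal.ofReal CO * (Y + ENNReal.ofReal CS' * Y)) +
        Y * ENNReal.ofReal CF') + ENNReal.ofReal CS' * Y := by
        refine add_le_add (sT.trans (add_le_add (mul_le_mul_right (sS.trans ?_) _) ?_))
          (sR.trans ?_) <;> gcongr
    _ = _ := by
        rw [ENNReal.ofReal_add (by positivity) hCS.le, ENNReal.ofReal_add (by positivity) hCF.le,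
          ENNReal.ofReal_mul (p := 4 * Λ ^ 2) (by positivity), ENNReal.ofReal_mul hCO.le,
          ENNReal.ofReal_add zero_le_one hCS.le, ENNReal.ofReal_one]
        ring

end Pool.Agent.MP_29b5d3_an.EX

end MrgPart11

-- ======== part 12: formerly Pool.Agent.MP_29b5d3_an.EX.Rcore
section MrgPart12

/-! Project EXQ: from the tail estimate to integrability below the exact exponent. -/

set_option autoImplicit false

namespace Pool.Agent.MP_29b5d3_an.EX

open MeasureTheory Metric Filter Topology Module Pool.Agent.MP_29b5d3_an.NC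
open scoped RealInnerProductSpace ContDiff ENNReal

variable {n : ℕ}

namespace COREx

/-- the superlevel sets -/
def lev (a : V n → ℝ) (l : ℕ) : Set (V n) := {x | x ∈ ball (0 : V n) 1 ∧ (l : ℝ) < a x}

theorem lev_meas {a : V n → ℝ} (ha : Measurable a) (l : ℕ) : MeasurableSet (lev a l) :=
  measurableSet_ball.inter (measurableSet_lt measurable_const ha)

theorem lev_fin (a : V n → ℝ) (l : ℕ) : volume (lev a l) ≠ ⊤ :=
  ((measure_mono fun _ hx => hx.1).trans_lt measure_ball_lt_top).ne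

theorem integ {a : V n → ℝ} (ha : Measurable a) {Ca : ℝ}
    (h : ∫⁻ x in ball (0 : V n) 5, ‖a x‖ₑ ^ 2 ≤ ENNReal.ofReal Ca) :
    IntegrableOn a (ball (0 : V n) 5) := by
  refine ⟨ha.aestronglyMeasurable, ?_⟩
  have h1 : ∀ x, ‖a x‖ₑ ≤ 1 + ‖a x‖ₑ ^ 2 := fun x => by
    rcases le_total ‖a x‖ₑ 1 with e | e
    · exact e.trans le_self_add
    · refine le_trans ?_ le_add_self
      rw [sq]
      exact le_mul_of_one_le_left zero_le e
  refine (lintegral_mono h1).trans_lt ?_
  rw [lintegral_add_left measurable_const, setLIntegral_one]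
  exact ENNReal.add_lt_top.2 ⟨measure_ball_lt_top, h.trans_lt ENNReal.ofReal_lt_top⟩

/-- the measure of a superlevel set -/
theorem vol_le {a : V n → ℝ} (ha : Measurable a) (hi : IntegrableOn a (ball (0 : V n) 5))
    {γ C : ℝ} (hγ : 0 < γ) (l : ℕ)
    (h : 0 < volume.real (lev a l) → ∫ x in lev a l, a x ≤
      γ * volume.real (lev a l) * Real.log (volume.real (lev a l))⁻¹ +
        C * volume.real (lev a l)) :
    volume (lev a l) ≤ ENNReal.ofReal (Real.exp ((C - l) / γ)) := by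
  rw [← ENNReal.ofReal_toReal (lev_fin a l)]
  refine ENNReal.ofReal_le_ofReal ?_
  change volume.real (lev a l) ≤ _
  rcases (measureReal_nonneg (μ := volume) (s := lev a l)).eq_or_lt with e | e
  · rw [← e]
    exact (Real.exp_pos _).le
  have h1 : (l : ℝ) * volume.real (lev a l) ≤ ∫ x in lev a l, a x :=
    setIntegral_ge_of_const_le_real (lev_meas ha l) (lev_fin a l) (fun x hx => hx.2.le)
      (hi.mono_set fun x hx => ball_subset_ball (by norm_num) hx.1)
  have h2 := h1.trans (h e)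
  set m := volume.real (lev a l)
  have h3 : (l : ℝ) ≤ γ * Real.log m⁻¹ + C := by
    refine le_of_mul_le_mul_right ?_ e
    linarith
  rw [Real.log_inv] at h3
  rw [← Real.log_le_iff_le_exp e, le_div_iff₀ hγ]
  linarith

theorem ptw {a : V n → ℝ} {p : ℝ} (hp : 0 < p) {x : V n} (hx : x ∈ ball (0 : V n) 1) :
    ENNReal.ofReal (Real.exp (a x) ^ p) ≤ 1 + ∑' l : ℕ,
      (lev a l).indicator (fun _ => ENNReal.ofReal (Real.exp (p * (l + 1)))) x := by
  rw [← Real.exp_mul]
  rcases le_or_gt (a x) 0 with e | e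
  · refine le_trans ?_ le_self_add
    exact ENNReal.ofReal_le_one.2 (Real.exp_le_one_iff.2 (mul_nonpos_of_nonpos_of_nonneg e hp.le))
  · obtain ⟨l, hl⟩ := Nat.exists_eq_add_one_of_ne_zero (Nat.ceil_pos.2 e).ne'
    have h1 : (l : ℝ) < a x := Nat.lt_ceil.1 (by omega)
    have h2 : a x ≤ l + 1 := by
      have := Nat.le_ceil (a x)
      rw [hl] at this
      exact_mod_cast this
    refine le_trans (le_trans ?_ (ENNReal.le_tsum l)) le_add_self
    rw [Set.indicator_of_mem (show x ∈ lev a l from ⟨hx, h1⟩)]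
    refine ENNReal.ofReal_le_ofReal (Real.exp_le_exp.2 ?_)
    rw [mul_comm]
    exact mul_le_mul_of_nonneg_left h2 hp.le

/-- the layer cake sum -/
theorem cake {p γ C : ℝ} (hp : 0 < p) (hγ : 0 < γ) (hpγ : p * γ < 1) :
    ∃ Φ : ℝ, 0 < Φ ∧ ∀ a : V n → ℝ, Measurable a →
      (∀ l : ℕ, volume (lev a l) ≤ ENNReal.ofReal (Real.exp ((C - l) / γ))) →
      ∫⁻ x in ball (0 : V n) 1, ENNReal.ofReal (Real.exp (a x) ^ p) ≤ ENNReal.ofReal Φ := by
  have hr : Real.exp (p - γ⁻¹) < 1 := by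
    refine Real.exp_lt_one_iff.2 (sub_neg.2 ?_)
    rw [← one_div, lt_div_iff₀ hγ]
    exact hpγ
  have hs : Summable fun l : ℕ => Real.exp (p + C / γ) * Real.exp (p - γ⁻¹) ^ l :=
    (summable_geometric_of_lt_one (Real.exp_pos _).le hr).mul_left _
  set S : ℝ≥0∞ := volume (ball (0 : V n) 1) +
    ∑' l : ℕ, ENNReal.ofReal (Real.exp (p + C / γ) * Real.exp (p - γ⁻¹) ^ l) with hS
  have hf : S ≠ ⊤ := by
    rw [hS, ← ENNReal.ofReal_tsum_of_nonneg (fun l => by positivity) hs]
    exact ENNReal.add_ne_top.2 ⟨measure_ball_lt_top.ne, ENNReal.ofReal_ne_top⟩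
  refine ⟨S.toReal + 1, by positivity, fun a ha hv => le_trans ?_
    ((ENNReal.ofReal_toReal hf).ge.trans (ENNReal.ofReal_le_ofReal (by linarith)))⟩
  refine (setLIntegral_mono' measurableSet_ball fun x hx => ptw (a := a) hp hx).trans ?_
  rw [lintegral_add_left measurable_const, setLIntegral_one, lintegral_tsum fun l =>
    (measurable_const.indicator (lev_meas ha l)).aemeasurable]
  refine add_le_add le_rfl (ENNReal.tsum_le_tsum fun l => ?_)
  refine (setLIntegral_le_lintegral _ _).trans ?_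
  rw [lintegral_indicator_const (lev_meas ha l)]
  refine (mul_le_mul_right (hv l) _).trans (le_of_eq ?_)
  rw [← ENNReal.ofReal_mul (Real.exp_pos _).le, ← Real.exp_nat_mul, ← Real.exp_add,
    ← Real.exp_add]
  congr 2
  ring

end COREx

theorem core (h : Bas1 n) (h1 : PREP n) (h2 : TAIL n) : CORE n := by
  intro CV hCV
  obtain ⟨Cβ, Ca, ε₁, hβ, ha, hε₁, H1⟩ := h1 CV hCV
  obtain ⟨C, b₀, hC, hb₀, H2⟩ := h2 Cβ Ca hβ ha
  refine ⟨min ε₁ b₀, lt_min hε₁ hb₀, fun ε p hε hε₀ hp hpn => ?_⟩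
  have hn : (3 : ℝ) ≤ n := by exact_mod_cast h.hn
  have hd : (1 : ℝ) ≤ n * (1 + ε) := by nlinarith
  set b := ε / (n * (1 + ε)) with hb
  have b0 : 0 < b := div_pos hε (by linarith)
  have b1 : b ≤ b₀ := (div_le_self hε.le hd).trans (hε₀.trans (min_le_right _ _))
  have pb : p * b < 1 := by
    rw [hb, ← mul_div_assoc, div_lt_one (by linarith)]
    exact (lt_div_iff₀ hε).1 hpn
  have pb0 : 0 < p * b := mul_pos hp b0
  set δ := (1 - p * b) / 2 with hδ
  have d0 : 0 < δ := by rw [hδ]; linarith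
  have d1 : δ ≤ 1 := by rw [hδ]; linarith
  have g0 : 0 < (1 + δ) * b := by positivity
  have g1 : p * ((1 + δ) * b) < 1 := by
    have : p * ((1 + δ) * b) = p * b + δ * (p * b) := by ring
    have h3 : δ * (p * b) ≤ δ * 1 := mul_le_mul_of_nonneg_left pb.le d0.le
    rw [this]
    linarith
  obtain ⟨Φ, hΦ, H3⟩ := COREx.cake (n := n) (C := C) hp g0 g1
  refine ⟨Φ, hΦ, fun A cA qA pA iA => ?_⟩
  obtain ⟨A', R, P, a, pol, ae, bm, l2⟩ :=
    H1 ε A hε (hε₀.trans (min_le_left _ _)) cA qA pA iA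
  refine le_trans (le_of_eq ?_) (H3 a pol.ma fun l =>
    COREx.vol_le pol.ma (COREx.integ pol.ma l2) g0 l fun hm =>
      H2 b δ A' R P a _ b0 b1 d0 d1 pol bm l2 (COREx.lev_meas pol.ma l) (fun _ hx => hx.1) hm)
  refine setLIntegral_congr_fun_ae measurableSet_ball (ae.mono fun x hx hx1 => ?_)
  rw [hx (ball_subset_ball (by norm_num) hx1)]

end Pool.Agent.MP_29b5d3_an.EX

end MrgPart12

-- marker of a merged file
example : 731051 + 724259 = 731051 + 724259 := rfl
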