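import Pool.Agent.MP_29b5d3_an.EX.Rblk2

/-! Project EXQ: the left side of the gauge identity. -/

set_option autoImplicit false

namespace Pool.Agent.MP_29b5d3_an.EX

open Pool.Agent.MP_29b5d3_an.NC

variable {n : ℕ}

namespace Re1x

/-! ### numbers -/

theorem amgm {c : ℝ} (hc : 0 < c) (x z : ℝ) : 2 * (x * z) ≤ c * x ^ 2 + z ^ 2 / c := by
  have : c * x ^ 2 + z ^ 2 / c - 2 * (x * z) = (c * x - z) ^ 2 / c := by
    field_simp
    ring
  have : 0 ≤ (c * x - z) ^ 2 / c := by positivity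
  linarith

theorem am {q : ℝ} (hq : 0 ≤ q) (x z : ℝ) : q * (x * z) ≤ q * x ^ 2 / 2 + q * z ^ 2 := by
  nlinarith [mul_nonneg hq (sq_nonneg (x - z)), mul_nonneg hq (sq_nonneg z)]

theorem odf {b w v t : ℝ} (o : ℝ) (hb : 0 < b) (hv : 1 ≤ v) (hw : v ^ 4 ≤ w) (ht : 0 ≤ t) :
    (t ^ 2 + o ^ 2) * Real.exp t * v ≤ od b w t o ∧ (t * Real.exp t) ^ 2 * v ^ 2 ≤ 2 * od b w t o ∧
      ((t ^ 2 + o ^ 2) * Real.exp t / b) ^ 2 * v ^ 2 ≤ 2 * od b w t o := by
  have e4 : Real.exp (4 * t) = Real.exp t ^ 4 := by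
    rw [← Real.exp_nat_mul]
    norm_num
  have hE : 1 ≤ Real.exp t := Real.one_le_exp ht
  rw [od, e4]
  generalize Real.exp t = E at *
  have hz : ((t ^ 2 + o ^ 2) / b ^ 2) ^ 2 ≤ 2 * ((t ^ 4 + o ^ 4) / b ^ 4) := by
    rw [div_pow, ← mul_div_assoc, ← pow_mul]
    gcongr
    nlinarith [sq_nonneg (t ^ 2 - o ^ 2)]
  have hz0 : 0 ≤ (t ^ 4 + o ^ 4) / b ^ 4 := by positivity
  generalize (t ^ 4 + o ^ 4) / b ^ 4 = z at *
  have hu : t ^ 2 ≤ t ^ 2 + o ^ 2 := by nlinarith [sq_nonneg o]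
  have hu0 : 0 ≤ t ^ 2 + o ^ 2 := by positivity
  have h1 : E * v ≤ E ^ 2 * v ^ 2 := by
    have : 1 ≤ E * v := one_le_mul_of_one_le_of_one_le hE hv
    nlinarith
  have hEz : 0 ≤ E ^ 4 * z := by positivity
  have h2 : E ^ 2 * v ^ 2 ≤ w + E ^ 4 * (1 + z) := by
    nlinarith [sq_nonneg (E ^ 2 - v ^ 2), pow_nonneg (zero_le_one.trans hE) 4,
      pow_nonneg (zero_le_one.trans hv) 4]
  have h0 : 0 ≤ w + E ^ 4 * (1 + z) := le_trans (by positivity) h2
  refine ⟨?_, ?_, ?_⟩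
  · rw [mul_assoc]
    exact mul_le_mul_of_nonneg_left (h1.trans h2) hu0
  · calc (t * E) ^ 2 * v ^ 2 = t ^ 2 * (E ^ 2 * v ^ 2) := by ring
      _ ≤ (t ^ 2 + o ^ 2) * (w + E ^ 4 * (1 + z)) := by gcongr
      _ ≤ _ := by nlinarith [mul_nonneg hu0 h0]
  · have h3 : (t ^ 2 + o ^ 2) / b ^ 2 * E ^ 2 * v ^ 2 ≤ 2 * (w + E ^ 4 * (1 + z)) := by
      have : ((t ^ 2 + o ^ 2) / b ^ 2) ^ 2 * E ^ 4 ≤ 2 * z * E ^ 4 := by gcongr
      nlinarith [sq_nonneg ((t ^ 2 + o ^ 2) / b ^ 2 * E ^ 2 - v ^ 2),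
        pow_nonneg (zero_le_one.trans hE) 4, pow_nonneg (zero_le_one.trans hv) 4]
    calc ((t ^ 2 + o ^ 2) * E / b) ^ 2 * v ^ 2 =
          (t ^ 2 + o ^ 2) * ((t ^ 2 + o ^ 2) / b ^ 2 * E ^ 2 * v ^ 2) := by ring
      _ ≤ (t ^ 2 + o ^ 2) * (2 * (w + E ^ 4 * (1 + z))) := by gcongr
      _ = _ := by ring

theorem g1 {C b σ v η y k D : ℝ} (hσ : 0 < σ) (hv : 1 ≤ v) (hy : y ^ 2 * v ^ 2 ≤ 2 * D)
    (hk : k ^ 2 ≤ C * v ^ 2 * η) : 2 * (y * (b * k)) ≤ 2 * (σ * D) + C * (b ^ 2 * η / σ) := by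
  refine (amgm (c := σ * v ^ 2) (by positivity) _ _).trans (add_le_add (by nlinarith) ?_)
  rw [div_le_iff₀ (by positivity)]
  calc (b * k) ^ 2 = b ^ 2 * k ^ 2 := by ring
    _ ≤ b ^ 2 * (C * v ^ 2 * η) := by gcongr
    _ = _ := by field_simp

/-- the scalar bounds -/
theorem scal {C Ce b δ σ s v α χ η t u E k p e D : ℝ} (hC : 0 < C) (hCe : 0 < Ce) (hb : 0 < b)
    (hδ : 0 < δ) (hδ1 : δ ≤ 1) (hσ : 0 < σ) (hs : 0 < s) (hv : 1 ≤ v) (hα : α ≤ C * σ * v)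
    (hχ : χ = 0 ∨ χ = 1 ∧ s ≤ C * σ) (hη : 0 ≤ η) (hk : k ^ 2 ≤ C * v ^ 2 * η)
    (hp : 0 ≤ p) (he : 0 ≤ e) (he1 : e ≤ Ce * b ^ 2) (ht : 0 ≤ t) (hu : 0 ≤ u) (hE : 1 ≤ E)
    (h1 : u * E * v ≤ D) (h2 : (t * E) ^ 2 * v ^ 2 ≤ 2 * D) (h3 : (u * E / b) ^ 2 * v ^ 2 ≤ 2 * D) :
    t * (α * p + b * k + χ * (s / b) * e + χ * s * p + χ * s * (δ * b)) +
        t * E * (b * k + χ * s * p) + u * E * (α + k + χ * s + χ * (s / b) * p) ≤
      20 * (1 + C + Ce) * (σ * D + σ * v ^ 2 * p ^ 2 + b ^ 2 * η / σ +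
        χ * (s * (e + δ * b ^ 2 + p ^ 2))) := by
  have hχ0 : 0 ≤ χ := by rcases hχ with h | h <;> simp [h]
  have hq0 : 0 ≤ χ * s := by positivity
  have hq : χ * s ≤ C * σ := by
    rcases hχ with h | h
    · rw [h, zero_mul]
      positivity
    · rw [h.1, one_mul]
      exact h.2
  have hv2 : 1 ≤ v ^ 2 := one_le_pow₀ hv
  have huE : 0 ≤ u * E := by positivity
  have h4 : u * E ≤ D := le_trans (le_mul_of_one_le_right huE hv) h1
  have hD : 0 ≤ D := huE.trans h4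
  have h5 : t ^ 2 * v ^ 2 ≤ 2 * D := by
    refine le_trans ?_ h2
    gcongr
    exact le_mul_of_one_le_right ht hE
  have w1 : ∀ y : ℝ, y ^ 2 * v ^ 2 ≤ 2 * D → χ * s * y ^ 2 ≤ 2 * (C * (σ * D)) := fun y hy =>
    calc χ * s * y ^ 2 ≤ C * σ * (2 * D) := by
          gcongr
          exact le_trans (le_mul_of_one_le_right (sq_nonneg y) hv2) hy
      _ = _ := by ring
  have w2 : ∀ y : ℝ, y ^ 2 * v ^ 2 ≤ 2 * D → χ * s * (y * p) ≤ C * (σ * D) + χ * s * p ^ 2 :=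
    fun y hy => by linarith only [w1 y hy, am hq0 y p]
  have a1 : t * (α * p) ≤ C * (σ * D) + C * (σ * v ^ 2 * p ^ 2) := by
    have q1 : t * (α * p) ≤ C * σ * (t * (v * p)) :=
      calc t * (α * p) ≤ t * (C * σ * v * p) := by gcongr
        _ = _ := by ring
    have q2 : t * (v * p) ≤ D + v ^ 2 * p ^ 2 := by
      linarith only [am zero_le_one t (v * p), le_mul_of_one_le_right (sq_nonneg t) hv2, h5]
    calc _ ≤ C * σ * (D + v ^ 2 * p ^ 2) := q1.trans (by gcongr)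
      _ = _ := by ring
  have a2 := g1 (b := b) hσ hv h5 hk
  have a3 : t * (χ * (s / b) * e) ≤ C * (σ * D) + Ce * (χ * s * e) := by
    have q1 : (e / b) ^ 2 ≤ Ce * e := by
      rw [div_pow, div_le_iff₀ (by positivity)]
      linarith only [mul_le_mul_of_nonneg_left he1 he]
    have q2 : t * (χ * (s / b) * e) = χ * s * (t * (e / b)) := by ring
    have q3 := mul_le_mul_of_nonneg_left q1 hq0
    linarith only [w1 t h5, am hq0 t (e / b), q2, q3]
  have a4 := w2 t h5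
  have a5 : t * (χ * s * (δ * b)) ≤ C * (σ * D) + χ * s * (δ * b ^ 2) := by
    have q1 : (δ * b) ^ 2 ≤ δ * b ^ 2 := by
      rw [mul_pow]
      gcongr
      linarith only [mul_le_mul_of_nonneg_left hδ1 hδ.le]
    have q3 := mul_le_mul_of_nonneg_left q1 hq0
    linarith only [w1 t h5, am hq0 t (δ * b), q3]
  have a6 := g1 (b := b) hσ hv h2 hk
  have a7 := w2 _ h2
  have a8 : u * E * α ≤ C * (σ * D) :=
    calc u * E * α ≤ u * E * (C * σ * v) := by gcongr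
      _ = C * (σ * (u * E * v)) := by ring
      _ ≤ _ := by gcongr
  have a9 := g1 (b := b) hσ hv h3 hk
  rw [show u * E / b * (b * k) = u * E * k by field_simp] at a9
  have a10 : u * E * (χ * s) ≤ C * (σ * D) :=
    calc u * E * (χ * s) ≤ D * (C * σ) := by gcongr
      _ = _ := by ring
  have a11 := w2 _ h3
  rw [show χ * s * (u * E / b * p) = u * E * (χ * (s / b) * p) by ring] at a11
  have A1 : 0 ≤ σ * D := by positivity
  have A2 : 0 ≤ σ * v ^ 2 * p ^ 2 := by positivity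
  have A3 : 0 ≤ b ^ 2 * η / σ := by positivity
  have A4 : 0 ≤ χ * s * e := by positivity
  have A5 : 0 ≤ χ * s * (δ * b ^ 2) := by positivity
  have A6 : 0 ≤ χ * s * p ^ 2 := by positivity
  rw [show χ * (s * (e + δ * b ^ 2 + p ^ 2)) = χ * s * e + χ * s * (δ * b ^ 2) + χ * s * p ^ 2 by
    ring]
  generalize σ * D = B1 at *
  generalize σ * v ^ 2 * p ^ 2 = B2 at *
  generalize b ^ 2 * η / σ = B3 at *
  generalize χ * s * e = B4 at *
  generalize χ * s * (δ * b ^ 2) = B5 at *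
  generalize χ * s * p ^ 2 = B6 at *
  have := mul_nonneg hC.le A1
  have := mul_nonneg hC.le A2
  have := mul_nonneg hC.le A3
  have := mul_nonneg hC.le A4
  have := mul_nonneg hC.le A5
  have := mul_nonneg hC.le A6
  have := mul_nonneg hCe.le A1
  have := mul_nonneg hCe.le A2
  have := mul_nonneg hCe.le A3
  have := mul_nonneg hCe.le A4
  have := mul_nonneg hCe.le A5
  have := mul_nonneg hCe.le A6
  linarith

/-! ### operators -/

theorem skew {W P P' K : Mt n} (α χ r : ℝ) (hW : star W = -W) (hP : star P = P)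
    (hP' : star P' = P') (hK : star K = K) :
    hs (T1 (W * (1 - P))) (α • (1 : Mt n) + K + χ • (-r • (P - P'))) =
      -(tr (W * K * P) + χ * r * tr (W * P' * P)) := by
  have z1 : tr (W * (1 - P)) = 0 := tr_skew_sym hW (by rw [star_sub, star_one, hP])
  have z2 : tr (W * P) = 0 := tr_skew_sym hW hP
  have z3 : tr (W * (P * P)) = 0 := tr_skew_sym hW (by rw [star_mul, hP])
  have z4 : tr (W * (α • (1 : Mt n) + K + χ • (-r • (P - P')))) = 0 := tr_skew_sym hW (by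
    simp only [star_add, star_smul, star_trivial, star_one, star_sub, hP, hP', hK])
  rw [hs_T1, z1, zero_mul, zero_sub, hs_eq_tr, star_mul, hW, star_sub, star_one, hP, mul_assoc,
    tr_mul_comm, mul_sub, mul_one, tr_sub, neg_mul, tr_neg, z4, neg_mul, tr_neg]
  simp only [mul_add, add_mul, mul_smul_comm, smul_mul_assoc, mul_sub, sub_mul, mul_one, tr_add,
    tr_smul, tr_sub, mul_assoc W P P, z2, z3]
  ring

theorem iso {P P' K : Mt n} (α χ r c : ℝ) (hK : tr K = 0) :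
    hs (T1 (1 - P)) (α • (1 : Mt n) + K + χ • (-r • (P - P'))) -
      ((n : ℝ) - 1) * (α * tr (1 - (P - P')) + χ * ((1 + c) * tr (-r • (P - P')))) =
      -(((n : ℝ) - 1) * α * tr P') + hs P K + χ * r * (2 * e2 P - hs (T1 P) P') -
        ((n : ℝ) - 1) * χ * c * tr (-r • (P - P')) := by
  rw [hs_T1, hs_T1]
  simp only [e2, hs_add_right, hs_smul_right, hs_sub_right, hs_sub_left, hs_one_left,
    hs_one_right, tr_add, tr_smul, tr_sub, tr_one, hK]
  ring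

theorem split {Q R : Mt n} {a t o : ℝ} (hR : Orth R) (hQ : ‖Q‖ ≤ 1)
    (hQQ : ‖star Q * Q - 1‖ ≤ o ^ 2) (ha : |a| ≤ t) (ht : ‖R - Q‖ ≤ t) :
    ∃ S W : Mt n, star W = -W ∧ ‖W‖ ≤ t * Real.exp t ∧ ‖S‖ ≤ 2 * ((t ^ 2 + o ^ 2) * Real.exp t) ∧
      Real.exp a • (star Q * R) = (1 + a) • (1 : Mt n) + S + W := by
  have t0 : 0 ≤ t := (abs_nonneg a).trans ha
  have hE : Real.exp a ≤ Real.exp t := Real.exp_le_exp.2 ((le_abs_self a).trans ha)
  have hE0 := Real.exp_pos a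
  refine ⟨(Real.exp a - 1 - a) • 1 + (Real.exp a / 2) • ((star Q * Q - 1) - star (R - Q) * (R - Q)),
    (Real.exp a / 2) • (star Q * (R - Q) - star (R - Q) * Q), ?_, ?_, ?_, ?_⟩
  · rw [star_smul, star_trivial, star_sub, star_mul, star_mul, star_star, star_star, ← smul_neg,
      neg_sub]
  · have k1 : ‖star Q * (R - Q)‖ ≤ 1 * t := (norm_mul_le _ _).trans (by rw [norm_star']; gcongr)
    have k2 : ‖star (R - Q) * Q‖ ≤ t * 1 := (norm_mul_le _ _).trans (by rw [norm_star']; gcongr)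
    rw [norm_smul, Real.norm_of_nonneg (by positivity)]
    calc _ ≤ Real.exp t / 2 * (1 * t + t * 1) := by
          gcongr
          exact (norm_sub_le _ _).trans (add_le_add k1 k2)
      _ = _ := by ring
  · have k1 : |Real.exp a - 1 - a| ≤ t ^ 2 * Real.exp t := by
      have q1 : 0 ≤ Real.exp a - 1 - a := by linarith [Real.add_one_le_exp a]
      have q2 : Real.exp a * (1 - a) ≤ 1 := by
        have := Real.add_one_le_exp (-a)
        calc Real.exp a * (1 - a) ≤ Real.exp a * Real.exp (-a) := by gcongr; linarith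
          _ = 1 := by rw [← Real.exp_add, add_neg_cancel, Real.exp_zero]
      have q3 : a ^ 2 ≤ t ^ 2 := sq_le_sq' (abs_le.1 ha).1 (abs_le.1 ha).2
      have q4 : 1 ≤ Real.exp t := Real.one_le_exp t0
      rw [abs_of_nonneg q1]
      rcases le_total 0 a with h | h
      · have : a * (Real.exp a * (1 - a)) ≤ a * 1 := by gcongr
        have : a ^ 2 * Real.exp a ≤ t ^ 2 * Real.exp t := by gcongr
        nlinarith
      · have : 0 ≤ -a * (Real.exp a - 1 - a) := mul_nonneg (by linarith) q1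
        have : t ^ 2 * 1 ≤ t ^ 2 * Real.exp t := by gcongr
        nlinarith
    have k2 : ‖star (R - Q) * (R - Q)‖ ≤ t * t := (norm_mul_le _ _).trans (by rw [norm_star']; gcongr)
    refine (norm_add_le _ _).trans ?_
    rw [norm_smul, norm_smul, Real.norm_of_nonneg (by positivity : 0 ≤ Real.exp a / 2),
      Real.norm_eq_abs]
    calc _ ≤ t ^ 2 * Real.exp t * 1 + Real.exp t / 2 * (o ^ 2 + t * t) := by
          gcongr
          · exact norm_one_le
          · exact (norm_sub_le _ _).trans (add_le_add hQQ k2)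
      _ ≤ _ := by nlinarith [mul_nonneg (sq_nonneg t) (Real.exp_pos t).le,
          mul_nonneg (sq_nonneg o) (Real.exp_pos t).le]
  · have e : star R * R = 1 := hR
    simp only [star_sub, mul_sub, sub_mul, e]
    module

theorem tr3 (X Y Z : Mt n) : |tr (X * Y * Z)| ≤ n * (‖X‖ * ‖Y‖ * ‖Z‖) :=
  (abs_tr_le _).trans (mul_le_mul_of_nonneg_left
    ((norm_mul_le _ _).trans (by gcongr; exact norm_mul_le _ _)) n.cast_nonneg)

theorem hsT (X Y : Mt n) : |hs (T1 X) Y| ≤ n * ((n + 1) * ‖X‖) * ‖Y‖ :=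
  (abs_hs_le _ _).trans (by gcongr; exact norm_T1_le X)

end Re1x

open Re1x in
theorem e1s (h : Bas1 n) : E1 n := by
  intro C hC
  obtain ⟨Ce, hCe, he⟩ := h.pw.e2b
  refine ⟨2 * ((n : ℝ) + 1) ^ 4 * (20 * (1 + C + Ce)), 1, by positivity, one_pos, ?_⟩
  intro b δ σ s v w α χ η a t o Q R P H K hb hb1 hδ hδ1 hσ hs0 hv hw hα0 hα hχ hη hR hP hH h0 h2 hK
    hK0 hKn hQ hQQ ha ht
  have t0 : 0 ≤ t := (abs_nonneg a).trans ha
  have hχ0 : 0 ≤ χ := by rcases hχ with h | h <;> simp [h]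
  have hn : (3 : ℝ) ≤ n := by exact_mod_cast h.hn
  obtain ⟨P', hP'⟩ : ∃ P', P' = P - b • ((1 : Mt n) - s⁻¹ • H) := ⟨_, rfl⟩
  have sP' : star P' = P' := by
    simp only [hP', star_sub, star_smul, star_trivial, star_one, hH, hP.sym]
  have e1 : b • ((1 : Mt n) - s⁻¹ • H) = P - P' := by rw [hP', sub_sub_cancel]
  have e2' : H - s • 1 = -(s / b) • (P - P') := by
    rw [← e1, smul_smul, smul_sub, smul_smul, show -(s / b) * b * s⁻¹ = -1 by field_simp,
      show -(s / b) * b = -s by field_simp]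
    module
  have e3 : tr H - n * s = tr (-(s / b) • (P - P')) := by
    rw [← e2', tr_sub, tr_smul, tr_one, mul_comm]
  have b1 : |tr (-(s / b) • (P - P'))| ≤ n * s := by
    rw [← e3, abs_le]
    constructor <;> linarith
  obtain ⟨S, W, hW, nW, nS, e4⟩ := split hR hQ hQQ ha ht
  obtain ⟨o1, o2, o3⟩ := odf o hb hv hw t0
  have key := scal hC hCe hb hδ hδ1 hσ hs0 hv hα hχ hη hKn (norm_nonneg P')
    (he b P hP).1 (he b P hP).2 t0 (by positivity) (Real.one_le_exp t0) o1 o2 o3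
  have he0 := (he b P hP).1
  have nP := hP.norm
  have k1 := iso (P := P) (P' := P') α χ (s / b) (δ * b) hK0
  have k2 := skew α χ (s / b) hW hP.sym sP' hK
  rw [← hP', e1, e2', e3, ← mul_assoc (star Q), ← smul_mul_assoc, e4, add_mul, add_mul,
    smul_mul_assoc, one_mul, T1_add, T1_add, T1_smul, hs_add_left, hs_add_left, hs_smul_left, k2]
  have nX : ‖α • (1 : Mt n) + K + χ • (-(s / b) • (P - P'))‖ ≤
      (n + 1) * (α + ‖K‖ + χ * s + χ * (s / b) * ‖P'‖) := by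
    refine norm_add₃_le.trans ?_
    rw [norm_smul, norm_smul, norm_smul, norm_neg, Real.norm_of_nonneg hα0,
      Real.norm_of_nonneg hχ0, Real.norm_of_nonneg (by positivity : 0 ≤ s / b)]
    have q1 : α * ‖(1 : Mt n)‖ ≤ α * 1 := by gcongr; exact norm_one_le
    have q2 : χ * (s / b * ‖P - P'‖) ≤ χ * (s / b * (n * b + ‖P'‖)) := by
      gcongr
      exact (norm_sub_le _ _).trans (by gcongr)
    rw [show χ * (s / b * (n * b + ‖P'‖)) = n * (χ * s) + χ * (s / b) * ‖P'‖ by field_simp] at q2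
    have : 0 ≤ n * (α + ‖K‖ + χ * (s / b) * ‖P'‖) := by positivity
    have : 0 ≤ χ * s := by positivity
    linarith
  have n1 : ‖S * (1 - P)‖ ≤ 2 * ((t ^ 2 + o ^ 2) * Real.exp t) * (n + 1) := by
    refine (norm_mul_le _ _).trans ?_
    gcongr
    have : n * b ≤ n * 1 := by gcongr
    linarith [norm_sub_le (1 : Mt n) P, norm_one_le (n := n)]
  have N1 : (n : ℝ) ≤ n + 1 := by linarith
  have N2 : (n : ℝ) - 1 ≤ n + 1 := by linarith
  have N3 : (0 : ℝ) ≤ n - 1 := by linarith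
  have c3 : |hs (T1 (S * (1 - P))) (α • (1 : Mt n) + K + χ • (-(s / b) • (P - P')))| ≤
      2 * ((n : ℝ) + 1) ^ 4 *
        ((t ^ 2 + o ^ 2) * Real.exp t * (α + ‖K‖ + χ * s + χ * (s / b) * ‖P'‖)) :=
    calc _ ≤ _ := hsT _ _
      _ ≤ (n + 1) * ((n + 1) * (2 * ((t ^ 2 + o ^ 2) * Real.exp t) * (n + 1))) *
          ((n + 1) * (α + ‖K‖ + χ * s + χ * (s / b) * ‖P'‖)) := by gcongr
      _ = _ := by ring
  have M2 : ((n : ℝ) + 1) ^ 2 ≤ 2 * ((n : ℝ) + 1) ^ 4 := by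
    have : ((n : ℝ) + 1) ^ 2 ≤ ((n : ℝ) + 1) ^ 4 := pow_le_pow_right₀ (by linarith) (by norm_num)
    have : 0 ≤ ((n : ℝ) + 1) ^ 4 := by positivity
    linarith
  have M3 : ((n : ℝ) + 1) ^ 3 ≤ 2 * ((n : ℝ) + 1) ^ 4 := by
    have : ((n : ℝ) + 1) ^ 3 ≤ ((n : ℝ) + 1) ^ 4 := pow_le_pow_right₀ (by linarith) (by norm_num)
    have : 0 ≤ ((n : ℝ) + 1) ^ 4 := by positivity
    linarith
  have M0 : (2 : ℝ) ≤ 2 * ((n : ℝ) + 1) ^ 4 := by
    have : 1 ≤ ((n : ℝ) + 1) ^ 4 := one_le_pow₀ (by linarith)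
    linarith
  have c2 : |-(tr (W * K * P) + χ * (s / b) * tr (W * P' * P))| ≤
      2 * ((n : ℝ) + 1) ^ 4 * (t * Real.exp t * (b * ‖K‖ + χ * s * ‖P'‖)) := by
    rw [abs_neg]
    refine (abs_add_le _ _).trans ?_
    rw [abs_mul, abs_of_nonneg (by positivity : 0 ≤ χ * (s / b))]
    calc _ ≤ (n + 1) * (t * Real.exp t * ‖K‖ * ((n + 1) * b)) +
          χ * (s / b) * ((n + 1) * (t * Real.exp t * ‖P'‖ * ((n + 1) * b))) := by
          gcongr <;> exact (tr3 _ _ _).trans (by gcongr; exact nP.trans (by gcongr))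
      _ = ((n : ℝ) + 1) ^ 2 * (t * Real.exp t * (b * ‖K‖ + χ * s * ‖P'‖)) := by field_simp
      _ ≤ _ := by gcongr
  have c1 : |-(((n : ℝ) - 1) * α * tr P') + hs P K + χ * (s / b) * (2 * e2 P - hs (T1 P) P') -
      ((n : ℝ) - 1) * χ * (δ * b) * tr (-(s / b) • (P - P'))| ≤ 2 * ((n : ℝ) + 1) ^ 4 *
        (α * ‖P'‖ + b * ‖K‖ + χ * (s / b) * e2 P + χ * s * ‖P'‖ + χ * s * (δ * b)) := by
    have d1 : |-(((n : ℝ) - 1) * α * tr P')| ≤ 2 * ((n : ℝ) + 1) ^ 4 * (α * ‖P'‖) := by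
      rw [abs_neg, abs_mul, abs_of_nonneg (mul_nonneg N3 hα0)]
      calc _ ≤ (n + 1) * α * ((n + 1) * ‖P'‖) := by
            gcongr
            exact (abs_tr_le _).trans (by gcongr)
        _ = ((n : ℝ) + 1) ^ 2 * (α * ‖P'‖) := by ring
        _ ≤ _ := by gcongr
    have d2 : |hs P K| ≤ 2 * ((n : ℝ) + 1) ^ 4 * (b * ‖K‖) :=
      calc _ ≤ _ := abs_hs_le _ _
        _ ≤ (n + 1) * ((n + 1) * b) * ‖K‖ := by gcongr; exact nP.trans (by gcongr)
        _ = ((n : ℝ) + 1) ^ 2 * (b * ‖K‖) := by ring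
        _ ≤ _ := by gcongr
    have d3 : |χ * (s / b) * (2 * e2 P - hs (T1 P) P')| ≤
        2 * ((n : ℝ) + 1) ^ 4 * (χ * (s / b) * e2 P + χ * s * ‖P'‖) := by
      rw [abs_mul, abs_of_nonneg (by positivity : 0 ≤ χ * (s / b))]
      calc _ ≤ χ * (s / b) * (2 * e2 P + (n + 1) * ((n + 1) * ((n + 1) * b)) * ‖P'‖) := by
            gcongr
            refine (abs_sub _ _).trans (add_le_add (abs_of_nonneg (by positivity)).le ?_)
            exact (hsT _ _).trans (by gcongr; exact nP.trans (by gcongr))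
        _ = 2 * (χ * (s / b) * e2 P) + ((n : ℝ) + 1) ^ 3 * (χ * s * ‖P'‖) := by field_simp
        _ ≤ 2 * ((n : ℝ) + 1) ^ 4 * (χ * (s / b) * e2 P) +
            2 * ((n : ℝ) + 1) ^ 4 * (χ * s * ‖P'‖) := by gcongr
        _ = _ := by ring
    have d4 : |((n : ℝ) - 1) * χ * (δ * b) * tr (-(s / b) • (P - P'))| ≤
        2 * ((n : ℝ) + 1) ^ 4 * (χ * s * (δ * b)) := by
      rw [abs_mul, abs_of_nonneg (by positivity : 0 ≤ ((n : ℝ) - 1) * χ * (δ * b))]
      calc _ ≤ (n + 1) * χ * (δ * b) * ((n + 1) * s) := by gcongr; exact b1.trans (by gcongr)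
        _ = ((n : ℝ) + 1) ^ 2 * (χ * s * (δ * b)) := by ring
        _ ≤ _ := by gcongr
    refine (abs_sub _ _).trans ((add_le_add ((abs_add_three _ _ _).trans
      (add_le_add (add_le_add d1 d2) d3)) d4).trans_eq ?_)
    ring
  rw [← k1] at c1
  have c0 := mul_le_mul ha c1 (abs_nonneg _) t0
  rw [← abs_mul] at c0
  have fin := mul_le_mul_of_nonneg_left key (by positivity : (0 : ℝ) ≤ 2 * ((n : ℝ) + 1) ^ 4)
  rw [abs_le] at c0 c2 c3 ⊢
  constructor <;> linarith only [c0.1, c0.2, c2.1, c2.2, c3.1, c3.2, fin]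

end Pool.Agent.MP_29b5d3_an.EX
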