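import Pool.Agent.MP_29b5d3_an.EX.Rblk2

/-! Project EXQ, row E2: the right side of the gauge identity. -/

set_option autoImplicit false

namespace Pool.Agent.MP_29b5d3_an.EX

open MeasureTheory Metric Filter Topology Module Pool.Agent.MP_29b5d3_an.NC
open scoped RealInnerProductSpace ContDiff ENNReal

variable {n : ℕ}

namespace E2x

/-- the contraction of a family of operators -/
noncomputable def B (F : V n → Mt n) (M : Mt n) (G : V n) : ℝ :=
  ∑ i, ⟪ev i, (F (ev i) * M) G⟫ - tr (F G * M)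

theorem B_add (F : V n → Mt n) (M N : Mt n) (G : V n) : B F (M + N) G = B F M G + B F N G := by
  simp only [B, mul_add, tr_add, add_apply, inner_add_right,
    Finset.sum_add_distrib]
  ring

theorem B_le {F : V n → Mt n} {c : ℝ} (hF : ∀ y, ‖F y‖ ≤ c * ‖y‖) (M : Mt n)
    (G : V n) : |B F M G| ≤ 2 * n * (c * ‖M‖ * ‖G‖) := by
  have h1 : |∑ i, ⟪ev i, (F (ev i) * M) G⟫| ≤ n * (c * ‖M‖ * ‖G‖) := by
    refine (Finset.abs_sum_le_sum_abs _ _).trans ?_
    refine (Finset.sum_le_card_nsmul _ _ (c * ‖M‖ * ‖G‖) fun i _ => ?_).trans_eq (by simp)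
    refine (abs_real_inner_le_norm _ _).trans ?_
    rw [norm_ev, one_mul]
    refine (ContinuousLinearMap.le_opNorm _ _).trans
      (mul_le_mul_of_nonneg_right ((norm_mul_le _ _).trans ?_) (norm_nonneg _))
    have := hF (ev i)
    rw [norm_ev, mul_one] at this
    exact mul_le_mul_of_nonneg_right this (norm_nonneg _)
  have h2 : |tr (F G * M)| ≤ n * (c * ‖M‖ * ‖G‖) := by
    refine (abs_tr_le _).trans (mul_le_mul_of_nonneg_left ((norm_mul_le _ _).trans ?_)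
      n.cast_nonneg)
    exact (mul_le_mul_of_nonneg_right (hF G) (norm_nonneg _)).trans_eq (by ring)
  refine (abs_sub _ _).trans ?_
  linarith

theorem gz_eq {κ : ℝ} {Q A : Mt n} (G : V n) {c' : V n →L[ℝ] ℝ} {Q' Γ' : V n →L[ℝ] Mt n}
    (hΓ : ∀ y, Γ' y = κ • (star (Q' y) - c' y • star Q)) :
    gz Γ' A G = B (fun y => star (Q' y)) (κ • A) G + c' (T1 (star Q * κ • A) G) := by
  have e : ∀ y, Γ' y * A = star (Q' y) * κ • A - c' y • (star Q * κ • A) := fun y => by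
    rw [hΓ, smul_mul_assoc, ← mul_smul_comm, sub_mul, smul_mul_assoc]
  have e1 : ∀ y, Γ' y (A G) = (star (Q' y) * κ • A) G - c' y • (star Q * κ • A) G := fun y =>
    congrArg (fun X : Mt n => X G) (e y)
  have e2 : ∀ z, ∑ i, c' (ev i) * ⟪ev i, z⟫ = c' z := fun z => by
    conv_rhs => rw [← sum_ev z]
    simp only [map_sum, map_smul, smul_eq_mul, mul_comm]
  simp only [gz, B, e, e1, tr_sub, tr_smul, inner_sub_right, inner_smul_right,
    Finset.sum_sub_distrib, e2, T1, sub_apply, smul_apply,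
    one_apply_eq_self, map_sub, map_smul, smul_eq_mul]
  ring

theorem B_rot (Q : Mt n) (Q' : V n →L[ℝ] Mt n) {Φ : Mt n} (hΦ : star Φ = Φ) (G : V n) :
    B (fun y => star (Q' y)) (Q * Φ) G = ⟪rot Q Q', Φ G⟫ +
      1 / 2 * B (fun y => star (Q' y) * Q + star Q * Q' y) Φ G := by
  have e : ∀ y, tr (star Q * Q' y * Φ) = tr (star (Q' y) * Q * Φ) := fun y => by
    rw [← tr_star, star_mul, star_mul, star_star, hΦ, tr_mul_comm]
  have e1 : ∀ (X : Mt n) (a : V n), ⟪a, (X * Φ) G⟫ = ⟪star X a, Φ G⟫ := fun X a =>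
    (inner_star_left X a (Φ G)).symm
  simp only [B, rot, ← mul_assoc, add_mul, tr_add, e, add_apply,
    inner_add_right, e1, star_mul, star_star, inner_smul_left, sum_inner,
    sub_apply, inner_sub_left, Finset.sum_add_distrib, Finset.sum_sub_distrib,
    conj_trivial]
  ring

theorem exp_le {a t : ℝ} (h : |a| ≤ t) : |Real.exp a - 1| ≤ t * Real.exp t := by
  obtain ⟨h1, h2⟩ := abs_le.1 h
  have t0 : 0 ≤ t := (abs_nonneg _).trans h
  have k1 := Real.add_one_le_exp a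
  have k2 := Real.exp_le_exp.2 h2
  have k3 : (-t + 1) * Real.exp t ≤ 1 := by
    have := mul_le_mul_of_nonneg_right (Real.add_one_le_exp (-t)) (Real.exp_pos t).le
    rwa [← Real.exp_add, neg_add_cancel, Real.exp_zero] at this
  have k4 := Real.one_le_exp t0
  rw [abs_le]
  constructor <;> nlinarith

theorem od_ge {b v w t o : ℝ} (b0 : 0 < b) (b1 : b ≤ 1) (hv : 1 ≤ v) (hw : v ^ 4 ≤ w)
    (t0 : 0 ≤ t) : o ^ 2 * v ≤ od b w t o ∧ o ^ 4 ≤ od b w t o ∧
      4 * (o * (v * (t * Real.exp t))) ≤ od b w t o := by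
  have k4 := Real.one_le_exp t0
  have e4 : Real.exp (4 * t) = Real.exp t ^ 4 := by
    rw [← Real.exp_nat_mul]
    norm_num
  have v2 : v ^ 2 ≤ v ^ 4 := pow_le_pow_right₀ hv (by norm_num)
  have v1 : v ≤ v ^ 2 := le_self_pow₀ hv two_ne_zero
  have x2 : Real.exp t ^ 2 ≤ Real.exp t ^ 4 := pow_le_pow_right₀ k4 (by norm_num)
  have x1 : 1 ≤ Real.exp t ^ 4 := one_le_pow₀ k4
  have q0 : o ^ 4 ≤ (t ^ 4 + o ^ 4) / b ^ 4 := by
    rw [le_div_iff₀ (by positivity)]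
    have : o ^ 4 * b ^ 4 ≤ o ^ 4 := mul_le_of_le_one_right (by positivity) (pow_le_one₀ b0.le b1)
    have : 0 ≤ t ^ 4 := by positivity
    linarith
  unfold od
  rw [e4]
  generalize (t ^ 4 + o ^ 4) / b ^ 4 = q at q0 ⊢
  generalize Real.exp t = x at k4 x2 x1 ⊢
  have o4 : 0 ≤ o ^ 4 := by positivity
  have k1 : 1 + q ≤ x ^ 4 * (1 + q) := le_mul_of_one_le_left (by linarith) x1
  have k2 : x ^ 4 ≤ x ^ 4 * (1 + q) := le_mul_of_one_le_right (by linarith) (by linarith)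
  have k3 : o ^ 2 ≤ t ^ 2 + o ^ 2 := by nlinarith [sq_nonneg t]
  refine ⟨mul_le_mul k3 (by linarith) (by linarith) (by positivity), ?_, ?_⟩
  · rw [show o ^ 4 = o ^ 2 * o ^ 2 by ring]
    exact mul_le_mul k3 (by nlinarith [sq_nonneg (o ^ 2 - 1)]) (by positivity) (by positivity)
  · rw [show 4 * (o * (v * (t * x))) = (2 * (t * o)) * (2 * (v * x)) by ring]
    exact mul_le_mul (by nlinarith [sq_nonneg (t - o)]) (by nlinarith [sq_nonneg (v - x)])
      (by positivity) (by positivity)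

end E2x

open E2x in
theorem e2s (h : Bas0 n) : E2 n := by
  intro C₁ hC
  have n3 : (3 : ℝ) ≤ n := by exact_mod_cast h.hn
  refine ⟨5 * C₁ * (3 * n + 2), 1 / n, by positivity, by positivity, ?_⟩
  intro b σ v w κ a t o d Q R P P' K A G c' Q' Γ' b0 hb σ0 hv hw o0 d0 hR hP sP sK hA hΓ hQ hQQ
    hc hQ' hS ha ht hG
  rw [le_div_iff₀ (by linarith)] at hb
  have P1 : ‖P‖ ≤ 1 := by linarith
  have t0 : 0 ≤ t := (abs_nonneg _).trans ha
  have v0 : 0 ≤ v := by linarith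
  obtain ⟨x1, x2, x3⟩ := od_ge (o := o) b0 (by nlinarith) hv hw t0
  have one := norm_one_le (n := n)
  have hΦ : star (v • (1 - P') + K) = v • (1 - P') + K := by
    rw [star_add, star_smul, star_sub, star_one, sP, sK, star_trivial]
  have nΦ : ‖v • (1 - P') + K‖ ≤ 2 * v + v * ‖P - P'‖ + ‖K‖ := by
    refine (norm_add_le _ _).trans (add_le_add ?_ le_rfl)
    rw [norm_smul, Real.norm_of_nonneg v0, show 1 - P' = (1 - P) + (P - P') by abel]
    have := (norm_add_le (1 - P) (P - P')).trans (add_le_add (norm_sub_le 1 P) le_rfl)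
    nlinarith
  obtain ⟨E, hE, nE⟩ : ∃ E : Mt n, κ • A = Q * (v • (1 - P') + K) + E ∧
      ‖E‖ ≤ 4 * (v * (t * Real.exp t)) + v * ‖P - P'‖ + ‖K‖ := by
    refine ⟨v • (((Real.exp a - 1) • R + (R - Q)) * (1 - P)) - Q * (v • (P - P')) - Q * K, ?_, ?_⟩
    · rw [hA]
      simp only [mul_add, add_mul, mul_sub, sub_mul, mul_smul_comm, smul_mul_assoc, mul_one]
      module
    · have k1 : ‖(Real.exp a - 1) • R + (R - Q)‖ ≤ 2 * (t * Real.exp t) := by
        refine (norm_add_le _ _).trans ?_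
        rw [norm_smul, Real.norm_eq_abs]
        have := mul_le_of_le_one_right (abs_nonneg (Real.exp a - 1)) hR.norm_le
        have := exp_le ha
        have := le_mul_of_one_le_right t0 (Real.one_le_exp t0)
        linarith
      have k2 : ‖(1 : Mt n) - P‖ ≤ 2 := (norm_sub_le _ _).trans (by linarith)
      have k3 : ∀ X : Mt n, ‖Q * X‖ ≤ ‖X‖ := fun X =>
        (norm_mul_le _ _).trans (mul_le_of_le_one_left (norm_nonneg _) hQ)
      refine (norm_sub_le _ _).trans (add_le_add ((norm_sub_le _ _).trans (add_le_add ?_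
        ((k3 _).trans_eq ?_))) (k3 _))
      · rw [norm_smul, Real.norm_of_nonneg v0]
        exact (mul_le_mul_of_nonneg_left ((norm_mul_le _ _).trans
          (mul_le_mul k1 k2 (norm_nonneg _) (by positivity))) v0).trans_eq (by ring)
      · rw [norm_smul, Real.norm_of_nonneg v0]
  rw [gz_eq G hΓ, hE, B_add, B_rot Q Q' hΦ]
  generalize v • (1 - P') + K = Φ at nΦ ⊢
  have e : star Q * (Q * Φ + E) = Φ + ((star Q * Q - 1) * Φ + star Q * E) := by noncomm_ring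
  rw [e, T1_add, add_apply, map_add]
  have g0 : ∀ {x : ℝ}, 0 ≤ x → x / d * ‖G‖ ≤ C₁ * σ * x := fun {x} hx =>
    (mul_le_mul_of_nonneg_left hG (by positivity)).trans_eq (by field_simp)
  have y1 := B_le (c := o ^ 2 / d) hS Φ G
  have y2 := B_le (F := fun y => star (Q' y)) (c := o / d) (fun y => by
    rw [norm_star']
    exact (Q'.le_opNorm y).trans (mul_le_mul_of_nonneg_right hQ' (norm_nonneg _))) E G
  have q2 : o * ‖star Q * Q - 1‖ ≤ 2 * o ^ 2 := by
    have k : ‖star Q * Q - 1‖ ≤ 2 := by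
      refine (norm_sub_le _ _).trans ?_
      have := norm_mul_le (star Q) Q
      rw [norm_star'] at this
      nlinarith [norm_nonneg Q]
    rcases le_total o 2 with l | l
    · nlinarith [mul_le_mul_of_nonneg_left hQQ o0, mul_le_mul_of_nonneg_left l (sq_nonneg o)]
    · nlinarith [mul_le_mul_of_nonneg_left k o0]
  have y3 : |c' (T1 ((star Q * Q - 1) * Φ + star Q * E) G)| ≤
      (n + 1) * ((2 * (o ^ 2 * ‖Φ‖) + o * ‖E‖) / d * ‖G‖) := by
    have k : ‖(star Q * Q - 1) * Φ + star Q * E‖ ≤ ‖star Q * Q - 1‖ * ‖Φ‖ + ‖E‖ :=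
      (norm_add_le _ _).trans (add_le_add (norm_mul_le _ _) ((norm_mul_le _ _).trans
        (mul_le_of_le_one_left (norm_nonneg _) ((norm_star' Q).trans_le hQ))))
    have k2 := mul_le_mul_of_nonneg_right q2 (norm_nonneg Φ)
    calc _ ≤ o / d * ((n + 1) * (‖star Q * Q - 1‖ * ‖Φ‖ + ‖E‖) * ‖G‖) :=
          (c'.le_opNorm _).trans (mul_le_mul hc ((ContinuousLinearMap.le_opNorm _ _).trans
            (mul_le_mul_of_nonneg_right ((norm_T1_le _).trans
              (mul_le_mul_of_nonneg_left k (by positivity))) (norm_nonneg _))) (norm_nonneg _)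
            (by positivity))
      _ = (n + 1) * ((o * ‖star Q * Q - 1‖ * ‖Φ‖ + o * ‖E‖) / d * ‖G‖) := by ring
      _ ≤ _ := mul_le_mul_of_nonneg_left (mul_le_mul_of_nonneg_right
          (div_le_div_of_nonneg_right (by linarith) d0.le) (norm_nonneg _)) (by positivity)
  have z1 : o ^ 2 * ‖Φ‖ ≤ 3 * od b w t o + (v ^ 2 * ‖P - P'‖ ^ 2 + ‖K‖ ^ 2) := by
    nlinarith [mul_le_mul_of_nonneg_left nΦ (sq_nonneg o), sq_nonneg (o ^ 2 - v * ‖P - P'‖),
      sq_nonneg (o ^ 2 - ‖K‖), sq_nonneg (v * ‖P - P'‖), sq_nonneg ‖K‖]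
  have z2 : o * ‖E‖ ≤ 2 * od b w t o + (v ^ 2 * ‖P - P'‖ ^ 2 + ‖K‖ ^ 2) := by
    nlinarith [mul_le_mul_of_nonneg_left nE o0, sq_nonneg (o - v * ‖P - P'‖),
      sq_nonneg (o - ‖K‖), sq_nonneg (v * ‖P - P'‖), sq_nonneg ‖K‖,
      le_mul_of_one_le_right (sq_nonneg o) hv]
  have w1 := g0 (x := o ^ 2 * ‖Φ‖) (by positivity)
  have w2 := g0 (x := o * ‖E‖) (by positivity)
  have X0 : 0 ≤ od b w t o := le_trans (by positivity) x2
  have Y0 : 0 ≤ v ^ 2 * ‖P - P'‖ ^ 2 + ‖K‖ ^ 2 := by positivity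
  generalize od b w t o = X at z1 z2 X0 ⊢
  generalize v ^ 2 * ‖P - P'‖ ^ 2 + ‖K‖ ^ 2 = Y at z1 z2 Y0 ⊢
  have u1 : o ^ 2 * ‖Φ‖ / d * ‖G‖ ≤ C₁ * σ * (3 * X + Y) :=
    w1.trans (mul_le_mul_of_nonneg_left z1 (by positivity))
  have u2 : o * ‖E‖ / d * ‖G‖ ≤ C₁ * σ * (2 * X + Y) :=
    w2.trans (mul_le_mul_of_nonneg_left z2 (by positivity))
  rw [show o ^ 2 / d * ‖Φ‖ * ‖G‖ = o ^ 2 * ‖Φ‖ / d * ‖G‖ by ring] at y1
  rw [show o / d * ‖E‖ * ‖G‖ = o * ‖E‖ / d * ‖G‖ by ring] at y2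
  rw [show (2 * (o ^ 2 * ‖Φ‖) + o * ‖E‖) / d * ‖G‖ =
    2 * (o ^ 2 * ‖Φ‖ / d * ‖G‖) + o * ‖E‖ / d * ‖G‖ by ring] at y3
  have s1 := mul_le_mul_of_nonneg_left u1 (by positivity : (0 : ℝ) ≤ 3 * n + 2)
  have s2 := mul_le_mul_of_nonneg_left u2 (by positivity : (0 : ℝ) ≤ 3 * n + 2)
  have s3 : 0 ≤ o * ‖E‖ / d * ‖G‖ := by positivity
  have s4 : 0 ≤ (3 * n + 2) * (C₁ * σ * Y) := by positivity
  rw [abs_le] at y1 y2 y3 ⊢
  constructor <;> linarith [y1.1, y1.2, y2.1, y2.2, y3.1, y3.2]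

end Pool.Agent.MP_29b5d3_an.EX
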