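import Pool.Agent.MP_29b5d3_an.EX.Rblk2

/-! Project EXQ: the scalar part of the gauge. -/

set_option autoImplicit false

namespace Pool.Agent.MP_29b5d3_an.EX

open MeasureTheory Metric Filter Topology Module Pool.Agent.MP_29b5d3_an.NC
open scoped RealInnerProductSpace ContDiff ENNReal

variable {n : ℕ}

namespace Re3x

/-- splitting a double sum by the larger index -/
theorem split (α β : ℕ → ℝ) (D : ℕ → Mt n) (j N : ℕ) :
    hs (T1 (1 + ∑ i ∈ Finset.Ico j N, α i • D i)) (∑ i ∈ Finset.Ico j N, β i • D i) =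
      ∑ M ∈ Finset.Ico j N, hs (T1 (β M • (1 + ∑ i ∈ Finset.Ico j M, α i • D i) +
        α M • (∑ i ∈ Finset.Ico j M, β i • D i) + (α M * β M) • D M)) (D M) := by
  rcases le_total N j with hN | hN
  · rw [Finset.Ico_eq_empty_of_le hN]
    simp only [Finset.sum_empty, hs_zero_right]
  · induction N, hN using Nat.le_induction with
    | base => simp only [Finset.Ico_self, Finset.sum_empty, hs_zero_right]
    | succ N hN ih =>
      rw [Finset.sum_Ico_succ_top hN, Finset.sum_Ico_succ_top hN, Finset.sum_Ico_succ_top hN, ← ih,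
        ← add_assoc]
      generalize (1 + ∑ i ∈ Finset.Ico j N, α i • D i : Mt n) = A
      generalize (∑ i ∈ Finset.Ico j N, β i • D i : Mt n) = Z
      simp only [T1_add, T1_smul, hs_add_left, hs_add_right, hs_smul_left, hs_smul_right]
      rw [hs_T1_comm (D N) Z]
      ring

/-- the anisotropic part of the coefficient of one level -/
noncomputable def an (L : Lev n) (b : ℝ) (j j' M : ℕ) (x : V n) : Mt n :=
  L.cb b j j' M • (∑ i ∈ Finset.Ico j M, L.ca b j i • L.DY i x -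
      (L.g b ^ (M - j) - 1) • (1 : Mt n)) +
    L.ca b j M • (∑ i ∈ Finset.Ico j M, L.cb b j j' i • L.DY i x - L.be b j j' M • (1 : Mt n)) +
    (L.ca b j M * L.cb b j j' M) • (L.DY M x - (L.δ * L.τ M) • (1 : Mt n))

theorem ptw (L : Lev n) (b : ℝ) (j j' : ℕ) (x : V n) :
    hs (T1 (L.DP b j x)) (L.DZ b j j' x) =
      L.muI b j j' x + ∑ M ∈ Finset.Ico j L.N, hs (T1 (an L b j j' M x)) (L.DY M x) := by
  rw [Lev.DP, Lev.DZ, split, Lev.muI, Finset.mul_sum, ← Finset.sum_add_distrib]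
  refine Finset.sum_congr rfl fun M hM => ?_
  have hj := (Finset.mem_Ico.1 hM).1
  have e : L.cb b j j' M • (1 + ∑ i ∈ Finset.Ico j M, L.ca b j i • L.DY i x) +
      L.ca b j M • (∑ i ∈ Finset.Ico j M, L.cb b j j' i • L.DY i x) +
      (L.ca b j M * L.cb b j j' M) • L.DY M x =
      L.cc b j j' M • (1 : Mt n) + an L b j j' M x := by
    rw [an, Lev.cc, Lev.be, Finset.sum_Ico_succ_top hj, ← Lev.be]
    module
  rw [e, T1_add, hs_add_left, T1_smul, T1_one, hs_smul_left, hs_smul_left, hs_one_left]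
  ring

theorem an_cf (h : Bas3 n) (L : Lev n) (hL : L.Ok) (b : ℝ) (j j' M : ℕ) : CF (an L b j j' M) := by
  have s : ∀ α : ℕ → ℝ, CF fun x => ∑ i ∈ Finset.Ico j M, α i • L.DY i x := fun α =>
    h.h2a.cf _ _ _ (h.h2a.sum _ α L.Y L.GY L.DY fun i _ => h.lv.h2Y L hL i)
  have t : ∀ (A : V n → Mt n) (c : ℝ) (K : Mt n), CF A → CF fun x => c • (A x - K) :=
    fun A c K hA => h.cfs.smul _ _ (h.cfs.sub _ _ hA (h.cfs.const K))
  exact h.cfs.add _ _ (h.cfs.add _ _ (t _ _ _ (s _)) (t _ _ _ (s _)))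
    (t _ _ _ (h.h2a.cf _ _ _ (h.lv.h2Y L hL M)))

theorem sq3 (X Y Z : Mt n) : ‖X + Y + Z‖ ^ 2 ≤ 3 * (‖X‖ ^ 2 + ‖Y‖ ^ 2 + ‖Z‖ ^ 2) := by
  have k := norm_add₃_le (a := X) (b := Y) (c := Z)
  have k2 : ‖X + Y + Z‖ ^ 2 ≤ (‖X‖ + ‖Y‖ + ‖Z‖) ^ 2 := by gcongr
  nlinarith [sq_nonneg (‖X‖ - ‖Y‖), sq_nonneg (‖X‖ - ‖Z‖), sq_nonneg (‖Y‖ - ‖Z‖)]

theorem nsq (c : ℝ) (X : Mt n) : ‖c • X‖ ^ 2 = c ^ 2 * ‖X‖ ^ 2 := by
  rw [norm_smul, mul_pow, Real.norm_eq_abs, sq_abs]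

/-- the diagonal term -/
theorem diag (h : Bas3 n) (L : Lev n) (hL : L.Ok) (b : ℝ) (P : Mt n) (j M : ℕ) (hb : 0 < b)
    (hP : Str b P) (hj : j ≤ M) (x : V n) (hx : x ∈ L.O M) :
    ‖(b / L.τ M) • (L.DY M x - (L.δ * L.τ M) • (1 : Mt n))‖ ^ 2 ≤
      (6 * n ^ 2 + 6) * (b ^ 2 * (‖L.h M x‖ ^ 2 + ‖L.h (M + 1) x‖ ^ 2) / L.τ j ^ 2 +
        if L.J x = M then b ^ 2 + ‖P - L.Ps b x‖ ^ 2 else 0) := by
  have τM := h.lv.τpos L hL M
  have τj := h.lv.τpos L hL j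
  have τle : L.τ j ≤ L.τ M := h.lv.τmono L hL hj
  have q : (b / L.τ M) ^ 2 ≤ b ^ 2 / L.τ j ^ 2 := by
    rw [div_pow]
    gcongr
  obtain ⟨h0, hJ⟩ := (h.lv.mem L hL M x).1 hx
  have n0 : (0 : ℝ) ≤ 6 * n ^ 2 := by positivity
  rw [mul_div_right_comm]
  set r := b ^ 2 / L.τ j ^ 2
  have r0 : 0 ≤ r := by positivity
  rcases hJ.lt_or_eq with hJ | hJ
  · rw [if_neg hJ.ne', h.lv.DYlt L hL M x hJ, nsq]
    have e : (L.δ * L.τ M) • (1 : Mt n) + L.h (M + 1) x - L.h M x - (L.δ * L.τ M) • (1 : Mt n) =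
        L.h (M + 1) x - L.h M x := by abel
    rw [e]
    have k := norm_sub_le (L.h (M + 1) x) (L.h M x)
    have k2 : ‖L.h (M + 1) x - L.h M x‖ ^ 2 ≤ 2 * (‖L.h M x‖ ^ 2 + ‖L.h (M + 1) x‖ ^ 2) := by
      nlinarith [norm_nonneg (L.h (M + 1) x - L.h M x), sq_nonneg (‖L.h M x‖ - ‖L.h (M + 1) x‖)]
    have k3 := mul_le_mul q k2 (sq_nonneg _) r0
    have k4 : 0 ≤ r * (‖L.h M x‖ ^ 2 + ‖L.h (M + 1) x‖ ^ 2) := by positivity
    nlinarith
  · have e := h.lv.DYeq L hL x h0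
    have s : L.s x = L.τ M := by rw [Lev.s, hJ]
    rw [← hJ] at e
    rw [if_pos hJ.symm, e]
    have e2 : (b / L.τ M) • (L.H x - L.s x • (1 : Mt n) - L.h M x - (L.δ * L.τ M) • (1 : Mt n)) =
        -L.Ps b x + -((b / L.τ M) • L.h M x) + -((b * L.δ) • (1 : Mt n)) := by
      rw [Lev.Ps, s]
      match_scalars <;> (field_simp; try ring)
    rw [e2]
    refine (sq3 _ _ _).trans ?_
    rw [norm_neg, norm_neg, norm_neg, nsq, nsq]
    have k1 : ‖L.Ps b x‖ ≤ n * b + ‖P - L.Ps b x‖ := by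
      have := norm_sub_le P (P - L.Ps b x)
      rw [sub_sub_cancel] at this
      linarith [hP.norm]
    have k2 : ‖L.Ps b x‖ ^ 2 ≤ 2 * (n ^ 2 * b ^ 2 + ‖P - L.Ps b x‖ ^ 2) := by
      nlinarith [norm_nonneg (L.Ps b x), sq_nonneg (n * b - ‖P - L.Ps b x‖)]
    have k3 : (b / L.τ M) ^ 2 * ‖L.h M x‖ ^ 2 ≤ r * ‖L.h M x‖ ^ 2 := by gcongr
    have k4 : (b * L.δ) ^ 2 * ‖(1 : Mt n)‖ ^ 2 ≤ b ^ 2 := by
      have := hL.δ0
      calc (b * L.δ) ^ 2 * ‖(1 : Mt n)‖ ^ 2 ≤ (b * 1) ^ 2 * 1 ^ 2 := by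
            gcongr
            exacts [hL.δ1, norm_one_le]
        _ = b ^ 2 := by ring
    have k5 : 0 ≤ r * ‖L.h M x‖ ^ 2 := by positivity
    have k6 : 0 ≤ r * ‖L.h (M + 1) x‖ ^ 2 := by positivity
    have k7 : 0 ≤ n ^ 2 * (r * ‖L.h M x‖ ^ 2 + r * ‖L.h (M + 1) x‖ ^ 2 + ‖P - L.Ps b x‖ ^ 2) := by
      positivity
    nlinarith [sq_nonneg b]

/-- the pointwise bound for the coefficient -/
theorem bnd (h : Bas3 n) (Λ : ℝ) (hΛ : 0 < Λ) : ∃ C : ℝ, 1 ≤ C ∧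
    ∀ (L : Lev n) (b : ℝ) (P : Mt n) (j j' M : ℕ), L.Ok → 0 < b → b < 1 → Str b P → j < j' →
    L.τ j' ≤ Λ * L.τ j → j ≤ M → ∀ x ∈ L.O M, ‖T1 (an L b j j' M x)‖ ^ 2 ≤
      C * (b ^ 2 * (L.g b ^ (M - j)) ^ 2 * L.HH j j' x / L.τ M ^ 2 +
        if M < j' then b ^ 2 * (‖L.h M x‖ ^ 2 + ‖L.h (M + 1) x‖ ^ 2) / L.τ j ^ 2 +
          (if L.J x = M then b ^ 2 + ‖P - L.Ps b x‖ ^ 2 else 0) else 0) := by
  obtain ⟨C, C0, hC⟩ := h.alg1.part Λ hΛ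
  obtain ⟨K, K1, K2, K3, K4⟩ : ∃ K : ℝ, C * Λ ^ 2 + C ≤ K ∧ 0 ≤ K ∧
      C + C * C ^ 2 + (6 * n ^ 2 + 6) ≤ K ∧ 1 ≤ K := by
    refine ⟨C * Λ ^ 2 + C + C * C ^ 2 + (6 * n ^ 2 + 6), ?_, by positivity, ?_, ?_⟩ <;>
      nlinarith [mul_pos C0 (pow_pos hΛ 2), mul_pos C0 (pow_pos C0 2), sq_nonneg (n : ℝ)]
  refine ⟨(n + 1) ^ 2 * (3 * K), ?_, fun L b P j j' M hL b0 b1 hP jj hτ hj x hx => ?_⟩
  · have : (0 : ℝ) ≤ n := n.cast_nonneg
    nlinarith [mul_nonneg (sq_nonneg (n : ℝ)) K2, mul_nonneg this K2]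
  obtain ⟨-, -, -, p4, p5⟩ := hC L hL b j j' M b0 b1 jj hτ hj
  obtain ⟨pa, pb⟩ := p5 x hx
  have pd := diag h L hL b P j M b0 hP hj x hx
  have τM := h.lv.τpos L hL M
  have τj := h.lv.τpos L hL j
  have τle : L.τ j ≤ L.τ M := h.lv.τmono L hL hj
  have g1 : 1 ≤ L.g b ^ (M - j) :=
    one_le_pow₀ (le_add_of_nonneg_right (mul_pos hL.δ0 b0).le)
  have H0 : 0 ≤ L.HH j j' x := by
    have := hL.δ0
    unfold Lev.HH
    positivity
  have t1 : ‖T1 (an L b j j' M x)‖ ^ 2 ≤ (n + 1) ^ 2 * ‖an L b j j' M x‖ ^ 2 := by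
    rw [← mul_pow]
    gcongr
    exact norm_T1_le _
  refine t1.trans ?_
  rw [mul_assoc]
  refine mul_le_mul_of_nonneg_left ((sq3 _ _ _).trans ?_) (by positivity)
  rw [mul_assoc]
  refine mul_le_mul_of_nonneg_left ?_ (by norm_num)
  have ea : L.ca b j M = b * L.g b ^ (M - j) / L.τ M := rfl
  have eb : L.cb b j j' M = if M < j' then (L.g b ^ (M - j))⁻¹ else 0 := rfl
  generalize L.g b ^ (M - j) = G at *
  have G0 : 0 < G := one_pos.trans_le g1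
  have k3 : 0 ≤ b ^ 2 * G ^ 2 * L.HH j j' x / L.τ M ^ 2 := by positivity
  have k2 := mul_le_mul_of_nonneg_left pb (sq_nonneg (b * G / L.τ M))
  have k : (b * G / L.τ M) ^ 2 * (C * L.HH j j' x) =
      C * (b ^ 2 * G ^ 2 * L.HH j j' x / L.τ M ^ 2) := by ring
  by_cases hM : M < j'
  · rw [if_pos hM] at eb k2 ⊢
    have ec : L.ca b j M * L.cb b j j' M = b / L.τ M := by
      rw [ea, eb]
      field_simp
    rw [ec, nsq, nsq (L.ca b j M), ea, eb]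
    have a1 := mul_le_mul (pow_le_one₀ (n := 2) (inv_nonneg.2 G0.le) (inv_le_one_of_one_le₀ g1))
      (pa hM) (sq_nonneg _) zero_le_one
    have τM' : L.τ M ≤ Λ * L.τ j := (h.lv.τmono L hL hM.le).trans hτ
    have a2 : b ^ 2 * L.HH j j' x / L.τ j ^ 2 ≤
        Λ ^ 2 * (b ^ 2 * G ^ 2 * L.HH j j' x / L.τ M ^ 2) := by
      calc b ^ 2 * L.HH j j' x / L.τ j ^ 2
          = Λ ^ 2 * (b ^ 2 * 1 ^ 2 * L.HH j j' x / (Λ * L.τ j) ^ 2) := by field_simp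
        _ ≤ _ := by gcongr
    have a3 : (b * G / L.τ M) ^ 2 * ‖L.h M x‖ ^ 2 ≤ C ^ 2 * (b ^ 2 * ‖L.h M x‖ ^ 2 / L.τ j ^ 2) := by
      have := p4 hM.le
      calc (b * G / L.τ M) ^ 2 * ‖L.h M x‖ ^ 2 ≤ (b * C / L.τ j) ^ 2 * ‖L.h M x‖ ^ 2 := by gcongr
        _ = _ := by ring
    have a4 : b ^ 2 * ‖L.h M x‖ ^ 2 / L.τ j ^ 2 ≤
        b ^ 2 * (‖L.h M x‖ ^ 2 + ‖L.h (M + 1) x‖ ^ 2) / L.τ j ^ 2 := by
      gcongr
      exact le_add_of_nonneg_right (sq_nonneg _)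
    have a5 : 0 ≤ (if L.J x = M then b ^ 2 + ‖P - L.Ps b x‖ ^ 2 else 0) := by
      split_ifs
      exacts [by positivity, le_rfl]
    have a6 : 0 ≤ b ^ 2 * ‖L.h M x‖ ^ 2 / L.τ j ^ 2 := by positivity
    have e1 : 1 * (C * b ^ 2 * (L.HH j j' x + ‖L.h M x‖ ^ 2) / L.τ j ^ 2) =
        C * (b ^ 2 * L.HH j j' x / L.τ j ^ 2) + C * (b ^ 2 * ‖L.h M x‖ ^ 2 / L.τ j ^ 2) := by ring
    have e2 : (b * G / L.τ M) ^ 2 * (C * (L.HH j j' x + ‖L.h M x‖ ^ 2)) =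
        C * (b ^ 2 * G ^ 2 * L.HH j j' x / L.τ M ^ 2) +
          C * ((b * G / L.τ M) ^ 2 * ‖L.h M x‖ ^ 2) := by ring
    rw [e1] at a1
    rw [e2] at k2
    refine (add_le_add (add_le_add a1 k2) pd).trans ?_
    generalize b ^ 2 * G ^ 2 * L.HH j j' x / L.τ M ^ 2 = A at *
    generalize b ^ 2 * (‖L.h M x‖ ^ 2 + ‖L.h (M + 1) x‖ ^ 2) / L.τ j ^ 2 = B at *
    generalize (if L.J x = M then b ^ 2 + ‖P - L.Ps b x‖ ^ 2 else 0) = E at *
    generalize b ^ 2 * ‖L.h M x‖ ^ 2 / L.τ j ^ 2 = B' at *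
    have b2 := mul_le_mul_of_nonneg_left a2 C0.le
    have b3 := mul_le_mul_of_nonneg_left a3 C0.le
    have b4 := mul_le_mul_of_nonneg_left a4 (show 0 ≤ C + C * C ^ 2 by positivity)
    have b5 := mul_le_mul_of_nonneg_right K1 k3
    have b6 := mul_le_mul_of_nonneg_right K3 (add_nonneg (a6.trans a4) a5)
    have b7 := mul_nonneg (show 0 ≤ C + C * C ^ 2 by positivity) a5
    linarith
  · rw [if_neg hM] at eb
    rw [if_neg hM, add_zero] at k2 ⊢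
    rw [eb, mul_zero, zero_smul, zero_smul, norm_zero, nsq, ea]
    have b5 := mul_le_mul_of_nonneg_right K1 k3
    have b6 := mul_nonneg (mul_pos C0 (pow_pos hΛ 2)).le k3
    linarith

end Re3x

open Re3x in
theorem e3s (h : Bas3 n) (hc : CS n) : E3 n := by
  intro Λ hΛ
  obtain ⟨C₁, C1, hb⟩ := bnd h Λ hΛ
  obtain ⟨C, b₀, C0, hb₀, hC⟩ := hc Λ C₁ hΛ (one_pos.trans_le C1)
  refine ⟨C, min b₀ (1 / 2), C0, lt_min hb₀ (by norm_num),
    fun L b P j j' D o c Ω hL b0 b1 mP hP jj hτ mD mo hY sc dc => ?_⟩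
  have b2 : b < 1 := (b1.trans (min_le_right _ _)).trans_lt (by norm_num)
  obtain ⟨i1, i2, e1⟩ := h.h2b.scal c _ _ _ _ sc (h.lv.cfP L hL b j) (h.lv.h2Z L hL b j j')
  have hM := fun M => h.h2b.scal c _ _ _ _ sc (an_cf h L hL b j j' M) (h.lv.h2Y L hL M)
  have e : (fun x => c x * L.muI b j j' x) = fun x => c x * hs (T1 (L.DP b j x)) (L.DZ b j j' x) -
      ∑ M ∈ Finset.Ico j L.N, c x * hs (T1 (an L b j j' M x)) (L.DY M x) := by
    funext x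
    rw [ptw, ← Finset.mul_sum]
    ring
  have i3 : Integrable (fun x => ∑ M ∈ Finset.Ico j L.N,
      c x * hs (T1 (an L b j j' M x)) (L.DY M x)) volume :=
    integrable_finsetSum _ fun M _ => (hM M).1
  refine ⟨i2, e ▸ i1.sub i3, ?_⟩
  have g : ∀ x v, ⟪gradient c x, v⟫ = fderiv ℝ c x v := fun x v =>
    InnerProductSpace.toDual_symm_apply
  have key := hC L b P j j' D o Ω (gradient c) (fun M x => T1 (an L b j j' M x)) hL b0
    (b1.trans (min_le_left _ _)) mP hP jj hτ mD mo hY (fun x hx => ?_)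
    fun M hj x hx => hb L b (P x) j j' M hL b0 b2 (hP x) jj hτ hj x hx
  · refine le_trans ?_ key
    rw [e, integral_sub i1 i3, e1, integral_finsetSum _ fun M _ => (hM M).1, sub_eq_add_neg,
      neg_add_cancel_left, ← Finset.sum_neg_distrib]
    refine (enorm_sum_le _ _).trans (Finset.sum_le_sum fun M _ => ?_)
    rw [← (hM M).2.2]
    simp only [g]
    exact enorm_integral_le_lintegral_enorm _
  · have k : ‖gradient c x‖ = ‖fderiv ℝ c x‖ := LinearIsometryEquiv.norm_map _ _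
    have k2 := dc x hx
    rw [k]
    exact k2.trans (le_mul_of_one_le_left ((norm_nonneg _).trans k2) C1)

end Pool.Agent.MP_29b5d3_an.EX
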