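import Pool.Agent.MP_29b5d3_an.EX.Rblk2

/-! Project EXQ: the rotation part of the gauge. -/

set_option autoImplicit false

namespace Pool.Agent.MP_29b5d3_an.EX

open MeasureTheory Metric Filter Topology Module Pool.Agent.MP_29b5d3_an.NC
open scoped RealInnerProductSpace ContDiff ENNReal

variable {n : ℕ}

namespace E4x

/-- a double sum split by the larger index -/
theorem tri (φ : ℕ → ℕ → ℝ) (j N : ℕ) :
    ∑ i ∈ Finset.Ico j N, ∑ m ∈ Finset.Ico j N, φ i m =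
      ∑ M ∈ Finset.Ico j N,
        (∑ i ∈ Finset.Ico j M, φ i M + φ M M + ∑ m ∈ Finset.Ico j M, φ M m) := by
  induction N with
  | zero => simp
  | succ N ih =>
    by_cases h : j ≤ N
    · simp only [Finset.sum_Ico_succ_top h, Finset.sum_add_distrib] at ih ⊢
      linarith
    · have e : Finset.Ico j (N + 1) = ∅ := Finset.Ico_eq_empty (by omega)
      simp [e]

theorem sum_le (s : Finset ℕ) (t k : ℕ → ℝ) (X : ℝ≥0∞) {C : ℝ} (k0 : ∀ i ∈ s, 0 ≤ k i)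
    (h : ∀ i ∈ s, ‖t i‖ₑ ≤ ENNReal.ofReal (k i) * X) (hC : ∑ i ∈ s, k i ≤ C) :
    ‖∑ i ∈ s, t i‖ₑ ≤ ENNReal.ofReal C * X := by
  refine (enorm_sum_le _ _).trans ((Finset.sum_le_sum h).trans ?_)
  rw [← Finset.sum_mul, ← ENNReal.ofReal_sum_of_nonneg k0]
  gcongr

theorem mul_le {c t k k' τ : ℝ} {Ω : ℝ≥0∞} (h : ‖t‖ₑ ≤ ENNReal.ofReal k * Ω) (τ0 : 0 ≤ τ)
    (hk : |c| * k ≤ k' * τ) :
    ‖c * t‖ₑ ≤ ENNReal.ofReal k' * (ENNReal.ofReal τ * Ω) := by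
  rw [enorm_mul, Real.enorm_eq_ofReal_abs c, ← mul_assoc, ← ENNReal.ofReal_mul' τ0]
  refine (mul_le_mul_right h _).trans ?_
  rw [← mul_assoc, ← ENNReal.ofReal_mul (abs_nonneg c)]
  gcongr

theorem lint_le {w : V n → ℝ} {c k : ℝ} {Ω : ℝ≥0∞} (c0 : 0 ≤ c)
    (hw : ∫⁻ x, ENNReal.ofReal (w x) ≤ ENNReal.ofReal k * Ω) :
    ∫⁻ x, ENNReal.ofReal (c * w x) ≤ ENNReal.ofReal (c * k) * Ω := by
  simp only [ENNReal.ofReal_mul c0]
  rw [lintegral_const_mul' _ _ ENNReal.ofReal_ne_top, mul_assoc]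
  exact mul_le_mul_right hw _

theorem int_le {f w : V n → ℝ} {c k : ℝ} {Ω : ℝ≥0∞} (c0 : 0 ≤ c) (h : ∀ x, |f x| ≤ c * w x)
    (hw : ∫⁻ x, ENNReal.ofReal (w x) ≤ ENNReal.ofReal k * Ω) :
    ‖∫ x, f x‖ₑ ≤ ENNReal.ofReal (c * k) * Ω := by
  refine (enorm_integral_le_lintegral_enorm _).trans (le_trans (lintegral_mono fun x => ?_)
    (lint_le c0 hw))
  rw [Real.enorm_eq_ofReal_abs]
  exact ENNReal.ofReal_le_ofReal (h x)

theorem int_le2 {f w w' : V n → ℝ} {c c' k k' : ℝ} {Ω : ℝ≥0∞} (c0 : 0 ≤ c) (c0' : 0 ≤ c')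
    (k0 : 0 ≤ k) (k0' : 0 ≤ k') (mw : Measurable w) (h : ∀ x, |f x| ≤ c * w x + c' * w' x)
    (hw : ∫⁻ x, ENNReal.ofReal (w x) ≤ ENNReal.ofReal k * Ω)
    (hw' : ∫⁻ x, ENNReal.ofReal (w' x) ≤ ENNReal.ofReal k' * Ω) :
    ‖∫ x, f x‖ₑ ≤ ENNReal.ofReal (c * k + c' * k') * Ω := by
  refine (enorm_integral_le_lintegral_enorm _).trans (le_trans (lintegral_mono
    (g := fun x => ENNReal.ofReal (c * w x) + ENNReal.ofReal (c' * w' x)) fun x => ?_) ?_)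
  · rw [Real.enorm_eq_ofReal_abs]
    exact (ENNReal.ofReal_le_ofReal (h x)).trans ENNReal.ofReal_add_le
  · rw [lintegral_add_left (mw.const_mul c).ennreal_ofReal,
      ENNReal.ofReal_add (mul_nonneg c0 k0) (mul_nonneg c0' k0'), add_mul]
    exact add_le_add (lint_le c0 hw) (lint_le c0' hw')

theorem sq3 {X Y Z : Mt n} : ‖X + Y - Z‖ ^ 2 ≤ 3 * (‖X‖ ^ 2 + ‖Y‖ ^ 2 + ‖Z‖ ^ 2) := by
  have h : ‖X + Y - Z‖ ≤ ‖X‖ + ‖Y‖ + ‖Z‖ :=
    (norm_sub_le _ _).trans (add_le_add_left (norm_add_le _ _) _)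
  calc ‖X + Y - Z‖ ^ 2 ≤ (‖X‖ + ‖Y‖ + ‖Z‖) ^ 2 := by gcongr
    _ ≤ _ := by nlinarith [sq_nonneg (‖X‖ - ‖Y‖), sq_nonneg (‖X‖ - ‖Z‖), sq_nonneg (‖Y‖ - ‖Z‖)]

variable (L : Lev n) (b : ℝ) (j j' : ℕ)

/-- the isotropic correction -/
noncomputable def kc (M : ℕ) : ℝ :=
  L.ca b j M * L.be b j j' M - L.cb b j j' M * (L.g b ^ (M - j) - 1) -
    L.ca b j M * L.cb b j j' M * (L.δ * L.τ M)

/-- the small operator in front of a single level piece -/
noncomputable def mm (M : ℕ) (x : V n) : Mt n :=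
  ∑ i ∈ Finset.Ico j M, (L.cb b j j' M * L.ca b j i - L.ca b j M * L.cb b j j' i) • L.DY i x +
    (L.ca b j M * L.cb b j j' M) • L.DY M x + kc L b j j' M • (1 : Mt n)

theorem mm_eq (M : ℕ) (x : V n) : mm L b j j' M x =
    L.cb b j j' M • (∑ i ∈ Finset.Ico j M, L.ca b j i • L.DY i x -
        (L.g b ^ (M - j) - 1) • (1 : Mt n)) +
      (L.ca b j M * L.cb b j j' M) • (L.DY M x - (L.δ * L.τ M) • (1 : Mt n)) -
      L.ca b j M • (∑ i ∈ Finset.Ico j M, L.cb b j j' i • L.DY i x -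
        L.be b j j' M • (1 : Mt n)) := by
  simp only [mm, kc, sub_smul, mul_smul, Finset.sum_sub_distrib, ← Finset.smul_sum]
  module

variable {L b j j'}

/-- the exact splitting of the integral -/
theorem split (h : Bas3 n) (hL : L.Ok) {ξ : V n → V n} {β : V n → ℝ} (hv : Dv ξ β) :
    Integrable (fun x => ⟪ξ x, L.DP b j x (L.GZ b j j' x)⟫) volume ∧
    ∫ x, ⟪ξ x, L.DP b j x (L.GZ b j j' x)⟫ =
      ∑ M ∈ Finset.Ico j L.N, (∫ x, ⟪ξ x, mm L b j j' M x (L.GY M x)⟫) +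
      ∑ M ∈ Finset.Ico j L.N, (L.cb b j j' M - kc L b j j' M) * (∫ x, β x * L.Y M x) +
      ∑ M ∈ Finset.Ico j L.N, ∑ m ∈ Finset.Ico j M,
        (L.ca b j M * L.cb b j j' m) * ∫ x, β x * ⟪L.GY M x, L.GY m x⟫ := by
  have d1 := fun m => h.h2c.dv1 ξ β _ _ _ hv (h.lv.h2Y L hL m)
  have d2 := fun i m => h.h2c.dv2 ξ β _ _ _ _ _ _ hv (h.lv.h2Y L hL i) (h.lv.h2Y L hL m)
  have e : (fun x => ⟪ξ x, L.DP b j x (L.GZ b j j' x)⟫) = fun x =>
      ∑ m ∈ Finset.Ico j L.N, L.cb b j j' m * ⟪ξ x, L.GY m x⟫ +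
      ∑ i ∈ Finset.Ico j L.N, ∑ m ∈ Finset.Ico j L.N,
        L.ca b j i * L.cb b j j' m * ⟪ξ x, L.DY i x (L.GY m x)⟫ := by
    funext x
    rw [Finset.sum_comm]
    simp only [Lev.DP, Lev.GZ, add_apply, one_apply_eq_self, sum_apply, smul_apply, map_sum,
      map_smul, inner_add_right, inner_sum, real_inner_smul_right, mul_add, Finset.mul_sum,
      Finset.sum_add_distrib, mul_left_comm (L.cb b j j' _), mul_assoc]
  have i1 : ∀ m, Integrable (fun x => L.cb b j j' m * ⟪ξ x, L.GY m x⟫) volume :=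
    fun m => (d1 m).1.const_mul _
  have i2 : ∀ (c : ℝ) i m, Integrable (fun x => c * ⟪ξ x, L.DY i x (L.GY m x)⟫) volume :=
    fun c i m => (d2 i m).1.const_mul _
  have i3 := integrable_finsetSum (Finset.Ico j L.N) fun m _ => i1 m
  have i4 : ∀ i, Integrable (fun x => ∑ m ∈ Finset.Ico j L.N,
      L.ca b j i * L.cb b j j' m * ⟪ξ x, L.DY i x (L.GY m x)⟫) volume :=
    fun i => integrable_finsetSum _ fun m _ => i2 _ i m
  have i5 := integrable_finsetSum (Finset.Ico j L.N) fun i _ => i4 i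
  have em : ∀ M, ∫ x, ⟪ξ x, mm L b j j' M x (L.GY M x)⟫ =
      ∑ i ∈ Finset.Ico j M, (L.cb b j j' M * L.ca b j i - L.ca b j M * L.cb b j j' i) *
        (∫ x, ⟪ξ x, L.DY i x (L.GY M x)⟫) +
      L.ca b j M * L.cb b j j' M * (∫ x, ⟪ξ x, L.DY M x (L.GY M x)⟫) +
      kc L b j j' M * ∫ x, β x * L.Y M x := by
    intro M
    have i6 := integrable_finsetSum (Finset.Ico j M) fun i _ =>
      i2 (L.cb b j j' M * L.ca b j i - L.ca b j M * L.cb b j j' i) i M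
    simp only [mm, add_apply, one_apply_eq_self, sum_apply, smul_apply, inner_add_right, inner_sum,
      real_inner_smul_right]
    rw [integral_add (i6.fun_add (i2 _ M M)) ((d1 M).1.const_mul _), integral_add i6 (i2 _ M M),
      integral_finsetSum _ fun i _ => i2 _ i M]
    simp only [integral_const_mul, (d1 M).2.2]
  rw [e]
  refine ⟨i3.add i5, ?_⟩
  rw [integral_add i3 i5, integral_finsetSum _ fun m _ => i1 m,
    integral_finsetSum _ fun i _ => i4 i]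
  simp only [integral_finsetSum _ fun m _ => i2 _ _ m, integral_const_mul]
  rw [tri, ← Finset.sum_add_distrib, ← Finset.sum_add_distrib, ← Finset.sum_add_distrib]
  refine Finset.sum_congr rfl fun M _ => ?_
  rw [em, (d1 M).2.2]
  simp only [← (d2 M _).2.2, sub_mul, mul_add, Finset.sum_add_distrib, Finset.sum_sub_distrib,
    mul_comm (L.cb b j j' M) (L.ca b j _)]
  ring

theorem g1 (hL : L.Ok) (b0 : 0 < b) (t : ℕ) : 1 ≤ L.g b ^ t :=
  one_le_pow₀ (le_add_of_nonneg_right (mul_pos hL.δ0 b0).le)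

theorem cb01 (hL : L.Ok) (b0 : 0 < b) (i : ℕ) : 0 ≤ L.cb b j j' i ∧ L.cb b j j' i ≤ 1 := by
  have := g1 hL b0 (i - j)
  unfold Lev.cb
  split_ifs
  · exact ⟨by positivity, inv_le_one_of_one_le₀ this⟩
  · exact ⟨le_rfl, zero_le_one⟩

theorem HH0 (hL : L.Ok) (x : V n) : 0 ≤ L.HH j j' x := by
  have := hL.δ0
  unfold Lev.HH
  positivity

/-- the diagonal term -/
theorem diag (h : Bas3 n) (hL : L.Ok) (b0 : 0 < b) {M : ℕ} (hM : j ≤ M) (hM' : M < j') {x : V n}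
    (hx : x ∈ L.O M) {P : Mt n} (hP : Str b P) :
    ‖(L.ca b j M * L.cb b j j' M) • (L.DY M x - (L.δ * L.τ M) • (1 : Mt n))‖ ^ 2 ≤
      3 * (b ^ 2 * (‖L.h M x‖ ^ 2 + ‖L.h (M + 1) x‖ ^ 2) / L.τ j ^ 2) +
      6 * (n + 1) ^ 2 * (if L.J x = M then b ^ 2 + ‖P - L.Ps b x‖ ^ 2 else 0) := by
  have tM := h.lv.τpos L hL M
  have tj := h.lv.τpos L hL j
  have tjM : L.τ j ≤ L.τ M := h.lv.τmono L hL hM
  have g0 := g1 hL b0 (M - j)
  have e : L.ca b j M * L.cb b j j' M = b / L.τ M := by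
    rw [Lev.ca, Lev.cb, if_pos hM']
    field_simp
  have k : b / L.τ M ≤ b / L.τ j := by gcongr
  have k0 : 0 ≤ b / L.τ M := by positivity
  have nr : ∀ X : Mt n, ‖(b / L.τ M) • X‖ ^ 2 ≤ b ^ 2 * ‖X‖ ^ 2 / L.τ j ^ 2 := fun X => by
    rw [norm_smul, Real.norm_of_nonneg k0]
    calc (b / L.τ M * ‖X‖) ^ 2 ≤ (b / L.τ j * ‖X‖) ^ 2 := by gcongr
      _ = _ := by ring
  obtain ⟨x0, hJ⟩ := (h.lv.mem L hL M x).1 hx
  have n1 := nr (L.h M x)
  have n2 := nr (L.h (M + 1) x)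
  have p1 : 0 ≤ b ^ 2 * ‖L.h (M + 1) x‖ ^ 2 / L.τ j ^ 2 := by positivity
  have es : b ^ 2 * (‖L.h M x‖ ^ 2 + ‖L.h (M + 1) x‖ ^ 2) / L.τ j ^ 2 =
      b ^ 2 * ‖L.h M x‖ ^ 2 / L.τ j ^ 2 + b ^ 2 * ‖L.h (M + 1) x‖ ^ 2 / L.τ j ^ 2 := by ring
  rw [e, es]
  rcases hJ.lt_or_eq with hJ | hJ
  · have e2 : (b / L.τ M) • (L.DY M x - (L.δ * L.τ M) • (1 : Mt n)) =
        (b / L.τ M) • L.h (M + 1) x + 0 - (b / L.τ M) • L.h M x := by
      rw [h.lv.DYlt L hL M x hJ]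
      module
    rw [if_neg hJ.ne', e2]
    refine sq3.trans ?_
    rw [norm_zero]
    nlinarith
  · have e2 : (b / L.τ M) • (L.DY M x - (L.δ * L.τ M) • (1 : Mt n)) =
        (P - L.Ps b x) + -(P + (b * L.δ) • (1 : Mt n)) - (b / L.τ M) • L.h M x := by
      have e3 := h.lv.DYeq L hL x x0
      rw [← hJ] at e3
      rw [e3, Lev.Ps, Lev.s, ← hJ]
      match_scalars <;> field_simp <;> ring
    have n3 : ‖-(P + (b * L.δ) • (1 : Mt n))‖ ≤ (n + 1) * b := by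
      rw [norm_neg]
      refine (norm_add_le _ _).trans ?_
      rw [norm_smul, Real.norm_of_nonneg (mul_pos b0 hL.δ0).le]
      have : b * L.δ * ‖(1 : Mt n)‖ ≤ b * 1 * 1 := by
        gcongr
        · exact hL.δ1
        · exact norm_one_le
      linarith [hP.norm]
    have n4 : ‖-(P + (b * L.δ) • (1 : Mt n))‖ ^ 2 ≤ ((n + 1) * b) ^ 2 := by gcongr
    have n5 : (1 : ℝ) ≤ (n + 1) ^ 2 := one_le_pow₀ (le_add_of_nonneg_left n.cast_nonneg)
    rw [if_pos hJ.symm, e2]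
    refine sq3.trans ?_
    nlinarith [sq_nonneg ‖P - L.Ps b x‖, sq_nonneg ((n + 1) * b),
      mul_le_mul_of_nonneg_right n5 (sq_nonneg ‖P - L.Ps b x‖)]

theorem mm_le (h : Bas3 n) {Λ : ℝ} (Λ0 : 0 < Λ) : ∃ C : ℝ, 0 < C ∧
    ∀ (L : Lev n) (b : ℝ) (P : V n → Mt n) (j j' : ℕ), L.Ok → 0 < b → b < 1 →
    (∀ x, Str b (P x)) → j < j' → L.τ j' ≤ Λ * L.τ j → ∀ C', C ≤ C' →
    ∀ M, j ≤ M → ∀ x ∈ L.O M, ‖mm L b j j' M x‖ ^ 2 ≤
      C' * (b ^ 2 * (L.g b ^ (M - j)) ^ 2 * L.HH j j' x / L.τ M ^ 2 +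
        if M < j' then b ^ 2 * (‖L.h M x‖ ^ 2 + ‖L.h (M + 1) x‖ ^ 2) / L.τ j ^ 2 +
          (if L.J x = M then b ^ 2 + ‖P x - L.Ps b x‖ ^ 2 else 0) else 0) := by
  obtain ⟨C, C0, hC⟩ := h.alg1.part Λ Λ0
  refine ⟨3 * (C * Λ ^ 2 + 2 * C + C ^ 3 + 3 + 6 * (n + 1) ^ 2), by positivity, ?_⟩
  intro L b P j j' hL b0 b1 hP jj hΛ C' hC' M hM x hx
  obtain ⟨-, -, -, gC, hp⟩ := hC L hL b j j' M b0 b1 jj hΛ hM
  obtain ⟨ha, hb⟩ := hp x hx
  have tM := h.lv.τpos L hL M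
  have tj := h.lv.τpos L hL j
  have tjM : L.τ j ≤ L.τ M := h.lv.τmono L hL hM
  have g0 := g1 hL b0 (M - j)
  have H0 := HH0 (j := j) (j' := j') hL x
  have a0 : 0 ≤ L.ca b j M := by unfold Lev.ca; positivity
  obtain ⟨c0, c1⟩ := cb01 (j := j) (j' := j') hL b0 M
  set U := b ^ 2 * (L.g b ^ (M - j)) ^ 2 * L.HH j j' x / L.τ M ^ 2 with hU
  have U0 : 0 ≤ U := by positivity
  have n0 : (0 : ℝ) ≤ (n + 1) ^ 2 := by positivity
  have p1 : 0 ≤ C * Λ ^ 2 := by positivity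
  have p3 : 0 ≤ C ^ 3 := by positivity
  rw [mm_eq]
  refine sq3.trans ?_
  by_cases hj : M < j'
  · have hd := diag h hL b0 hM hj hx (hP x)
    simp only [if_pos hj] at hb ⊢
    set W := if L.J x = M then b ^ 2 + ‖P x - L.Ps b x‖ ^ 2 else 0 with hW
    have W0 : 0 ≤ W := by rw [hW]; split_ifs <;> positivity
    set T := b ^ 2 * (‖L.h M x‖ ^ 2 + ‖L.h (M + 1) x‖ ^ 2) / L.τ j ^ 2 with hT
    have T0 : 0 ≤ T := by positivity
    have hT1 : b ^ 2 * ‖L.h M x‖ ^ 2 / L.τ j ^ 2 ≤ T := by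
      rw [hT]
      gcongr
      exact le_add_of_nonneg_right (sq_nonneg _)
    have tΛ : L.τ M ≤ Λ * L.τ j := (h.lv.τmono L hL hj.le).trans hΛ
    have hU1 : b ^ 2 * L.HH j j' x / L.τ j ^ 2 ≤ Λ ^ 2 * U := by
      calc b ^ 2 * L.HH j j' x / L.τ j ^ 2
          = Λ ^ 2 * (b ^ 2 * 1 ^ 2 * L.HH j j' x / (Λ * L.τ j) ^ 2) := by field_simp
        _ ≤ _ := by rw [hU]; gcongr
    have k1 : ‖L.cb b j j' M • (∑ i ∈ Finset.Ico j M, L.ca b j i • L.DY i x -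
        (L.g b ^ (M - j) - 1) • (1 : Mt n))‖ ^ 2 ≤ C * Λ ^ 2 * U + C * T := by
      rw [norm_smul, Real.norm_of_nonneg c0, mul_pow]
      refine (mul_le_of_le_one_left (sq_nonneg _) (pow_le_one₀ c0 c1)).trans ((ha hj).trans ?_)
      calc C * b ^ 2 * (L.HH j j' x + ‖L.h M x‖ ^ 2) / L.τ j ^ 2
          = C * (b ^ 2 * L.HH j j' x / L.τ j ^ 2) + C * (b ^ 2 * ‖L.h M x‖ ^ 2 / L.τ j ^ 2) := by
            ring
        _ ≤ C * (Λ ^ 2 * U) + C * T := by gcongr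
        _ = _ := by ring
    have k3 : ‖L.ca b j M • (∑ i ∈ Finset.Ico j M, L.cb b j j' i • L.DY i x -
        L.be b j j' M • (1 : Mt n))‖ ^ 2 ≤ C * U + C ^ 3 * T := by
      rw [norm_smul, Real.norm_of_nonneg a0, mul_pow]
      refine (mul_le_mul_of_nonneg_left hb (sq_nonneg _)).trans ?_
      have gC' := gC hj.le
      calc L.ca b j M ^ 2 * (C * (L.HH j j' x + ‖L.h M x‖ ^ 2))
          = C * U + C * (L.g b ^ (M - j)) ^ 2 * (b ^ 2 * ‖L.h M x‖ ^ 2 / L.τ M ^ 2) := by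
            rw [hU, Lev.ca]
            ring
        _ ≤ C * U + C * C ^ 2 * (b ^ 2 * ‖L.h M x‖ ^ 2 / L.τ j ^ 2) := by gcongr
        _ ≤ C * U + C * C ^ 2 * T := by gcongr
        _ = _ := by ring
    refine le_trans ?_ (mul_le_mul_of_nonneg_right hC' (by positivity))
    nlinarith [mul_nonneg p1 T0, mul_nonneg p1 W0, mul_nonneg C0.le U0, mul_nonneg C0.le T0,
      mul_nonneg C0.le W0, mul_nonneg p3 U0, mul_nonneg p3 W0, mul_nonneg n0 U0, mul_nonneg n0 T0]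
  · simp only [if_neg hj, add_zero] at hb ⊢
    have e : L.cb b j j' M = 0 := if_neg hj
    have k3 : ‖L.ca b j M • (∑ i ∈ Finset.Ico j M, L.cb b j j' i • L.DY i x -
        L.be b j j' M • (1 : Mt n))‖ ^ 2 ≤ C * U := by
      rw [norm_smul, Real.norm_of_nonneg a0, mul_pow]
      refine (mul_le_mul_of_nonneg_left hb (sq_nonneg _)).trans_eq ?_
      rw [hU, Lev.ca]
      ring
    rw [e, mul_zero, zero_smul, zero_smul, norm_zero]
    refine le_trans ?_ (mul_le_mul_of_nonneg_right hC' U0)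
    nlinarith [mul_nonneg p1 U0, mul_nonneg C0.le U0, mul_nonneg p3 U0, mul_nonneg n0 U0]

theorem ind_sum {δ C : ℝ} (δ0 : 0 < δ) (j j' N : ℕ) (hC : δ * ((j' - j : ℕ) : ℝ) ≤ C) :
    ∑ m ∈ Finset.Ico j N, δ * (if m < j' then (1 : ℝ) else 0) ≤ C := by
  rw [← Finset.mul_sum, Finset.sum_boole]
  refine le_trans (mul_le_mul_of_nonneg_left ?_ δ0.le) hC
  rw [← Nat.card_Ico]
  refine Nat.cast_le.2 (Finset.card_le_card fun m hm => ?_)
  simp only [Finset.mem_filter, Finset.mem_Ico] at hm ⊢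
  exact ⟨hm.1.1, hm.2⟩

end E4x

open E4x in
theorem e4s (h : Bas3 n) (hc : CS n) : E4 n := by
  intro Λ C₁ Λ0 C₁0
  obtain ⟨Cm, Cm0, hm⟩ := mm_le h Λ0
  obtain ⟨Cp, Cp0, hp⟩ := h.alg1.part Λ Λ0
  obtain ⟨_, b₁, -, b₁0, hw⟩ := h.num.pow
  obtain ⟨Cg, Cg0, hg⟩ := h.num.geo
  obtain ⟨Cs, b₂, Cs0, b₂0, hs⟩ := hc Λ (C₁ + Cm) Λ0 (by positivity)
  refine ⟨Cs + C₁ * (2 * Cp + Cp * Cg) + C₁ * (1 + Λ) * Cp * Cg, min (min b₁ b₂) (1 / 2),
    by positivity, by positivity, ?_⟩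
  intro L b P j j' D o β ξ Ω hL b0 bb mP hP jj hΛ mD mo hY hv hξ
  have b1 : b ≤ b₁ := bb.trans ((min_le_left _ _).trans (min_le_left _ _))
  have b2 : b ≤ b₂ := bb.trans ((min_le_left _ _).trans (min_le_right _ _))
  have b3 : b < 1 := (bb.trans (min_le_right _ _)).trans_lt (by norm_num)
  obtain ⟨hi, he⟩ := split (b := b) (j := j) (j' := j') h hL hv
  refine ⟨hi, ?_⟩
  have δ0 := hL.δ0
  have tj := h.lv.τpos L hL j
  have sub : ∀ M x, x ∈ L.O M → x ∈ ball (0 : V n) 4 := fun M x hx =>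
    ball_subset_ball (by norm_num) (hL.supp (h.lv.anti L hL (Nat.zero_le M) hx))
  have geo := (hg L.δ j L.N δ0 hL.δ1).1
  have dj := (hp L hL b j j' j b0 b3 jj hΛ le_rfl).2.2.1
  -- the weights
  have wf : ∀ M, j ≤ M → 1 ≤ wt ((1 + L.δ) ^ (M - j)) ∧
      L.τ M = L.τ j * wt ((1 + L.δ) ^ (M - j)) ^ 4 ∧ 0 ≤ L.ca b j M ∧
      L.ca b j M * L.τ j * wt ((1 + L.δ) ^ (M - j)) ^ 2 ≤ (wt ((1 + L.δ) ^ (M - j)))⁻¹ := by
    intro M hM
    have w1 : 1 ≤ wt ((1 + L.δ) ^ (M - j)) := one_le_wt (one_le_pow₀ (by linarith))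
    have e : L.τ M = L.τ j * wt ((1 + L.δ) ^ (M - j)) ^ 4 := by
      rw [wt_pow4 (by positivity), ← h.lv.τdiv L hL M j hM]
      field_simp
    have g0 := g1 hL b0 (M - j)
    have gw : L.g b ^ (M - j) ≤ wt ((1 + L.δ) ^ (M - j)) :=
      (le_self_pow₀ g0 (by norm_num)).trans (hw L.δ b (M - j) δ0 hL.δ1 b0 b1).1
    refine ⟨w1, e, ?_, ?_⟩
    · rw [Lev.ca, e]
      positivity
    · rw [Lev.ca, e]
      generalize wt ((1 + L.δ) ^ (M - j)) = W at w1 gw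
      calc b * L.g b ^ (M - j) / (L.τ j * W ^ 4) * L.τ j * W ^ 2
          ≤ 1 * W / (L.τ j * W ^ 4) * L.τ j * W ^ 2 := by gcongr
        _ = W⁻¹ := by field_simp
  -- first sum
  have s1 : ‖∑ M ∈ Finset.Ico j L.N, ∫ x, ⟪ξ x, mm L b j j' M x (L.GY M x)⟫‖ₑ ≤
      ENNReal.ofReal Cs * (ENNReal.ofReal (L.τ j) * Ω + L.Rest b P j j') := by
    refine (enorm_sum_le _ _).trans (le_trans (Finset.sum_le_sum fun M _ =>
      enorm_integral_le_lintegral_enorm _) ?_)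
    refine hs L b P j j' D o Ω ξ (mm L b j j') hL b0 b2 mP hP jj hΛ mD mo hY (fun x hx => ?_)
      (hm L b P j j' hL b0 b3 hP jj hΛ _ (by linarith))
    have k := (hξ x hx).1
    have k0 : 0 ≤ o x / D x := (mul_nonneg_iff_of_pos_left C₁0).1 ((norm_nonneg _).trans k)
    nlinarith [mul_nonneg Cm0.le k0]
  -- second sum
  have s2 : ‖∑ M ∈ Finset.Ico j L.N, (L.cb b j j' M - kc L b j j' M) * ∫ x, β x * L.Y M x‖ₑ ≤
      ENNReal.ofReal (C₁ * (2 * Cp + Cp * Cg)) * (ENNReal.ofReal (L.τ j) * Ω) := by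
    refine sum_le _ _ (fun M => C₁ * (2 * (L.δ * if M < j' then (1 : ℝ) else 0) +
      Cp * (L.δ * (wt ((1 + L.δ) ^ (M - j)))⁻¹))) _ (fun M _ => ?_) (fun M hM => ?_) ?_
    · have := wt_nonneg ((1 + L.δ) ^ (M - j))
      split_ifs <;> positivity
    · have hM' := (Finset.mem_Ico.1 hM).1
      obtain ⟨w1, -, a0, aw⟩ := wf M hM'
      obtain ⟨be0, be1, -⟩ := hp L hL b j j' M b0 b3 jj hΛ hM'
      have tM := h.lv.τpos L hL M
      have g0 := g1 hL b0 (M - j)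
      refine mul_le (int_le (w := fun x => (o x / D x) ^ 2 * |L.Y M x|) C₁0.le (fun x => ?_)
        (hY M hM').2) tj.le ?_
      · by_cases hx : x ∈ L.O M
        · rw [abs_mul, ← mul_assoc]
          exact mul_le_mul_of_nonneg_right (hξ x (sub M x hx)).2 (abs_nonneg _)
        · simp [(h.lv.off L hL M x hx).1]
      · have k1 : L.ca b j M * L.be b j j' M ≤ Cp * (wt ((1 + L.δ) ^ (M - j)))⁻¹ := by
          calc L.ca b j M * L.be b j j' M ≤ L.ca b j M * (Cp * L.τ j) * 1 ^ 2 := by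
                rw [one_pow, mul_one]
                gcongr
            _ ≤ L.ca b j M * (Cp * L.τ j) * wt ((1 + L.δ) ^ (M - j)) ^ 2 := by gcongr
            _ = Cp * (L.ca b j M * L.τ j * wt ((1 + L.δ) ^ (M - j)) ^ 2) := by ring
            _ ≤ _ := by gcongr
        have k0 := mul_nonneg a0 be0
        have k2 : |L.cb b j j' M - kc L b j j' M| ≤
            2 * (if M < j' then (1 : ℝ) else 0) + Cp * (wt ((1 + L.δ) ^ (M - j)))⁻¹ := by
          have e : L.cb b j j' M - kc L b j j' M =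
              (1 + b * L.δ) * (if M < j' then (1 : ℝ) else 0) - L.ca b j M * L.be b j j' M := by
            rw [kc, Lev.cb]
            split_ifs
            · rw [Lev.ca]
              field_simp
              ring
            · ring
          have q1 : b * L.δ ≤ 1 := mul_le_one₀ b3.le δ0.le hL.δ1
          have q0 := mul_pos b0 δ0
          rw [e, abs_le]
          split_ifs <;> constructor <;> linarith
        calc |L.cb b j j' M - kc L b j j' M| * (C₁ * (L.δ * L.τ j))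
            ≤ (2 * (if M < j' then (1 : ℝ) else 0) + Cp * (wt ((1 + L.δ) ^ (M - j)))⁻¹) *
              (C₁ * (L.δ * L.τ j)) := by gcongr
          _ = _ := by ring
    · rw [← Finset.mul_sum, Finset.sum_add_distrib, ← Finset.mul_sum _ _ (2 : ℝ),
        ← Finset.mul_sum _ _ Cp, ← Finset.mul_sum _ (fun M => (wt ((1 + L.δ) ^ (M - j)))⁻¹) L.δ]
      have := ind_sum δ0 j j' L.N dj
      gcongr
  -- third sum
  have s3 : ‖∑ M ∈ Finset.Ico j L.N, ∑ m ∈ Finset.Ico j M,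
      (L.ca b j M * L.cb b j j' m) * ∫ x, β x * ⟪L.GY M x, L.GY m x⟫‖ₑ ≤
      ENNReal.ofReal (C₁ * (1 + Λ) * Cp * Cg) * (ENNReal.ofReal (L.τ j) * Ω) := by
    refine sum_le _ _ (fun M => C₁ * (1 + Λ) * Cp * (L.δ * (wt ((1 + L.δ) ^ (M - j)))⁻¹)) _
      (fun M _ => ?_) (fun M hM => ?_) ?_
    · have := wt_nonneg ((1 + L.δ) ^ (M - j))
      positivity
    · have hM' := (Finset.mem_Ico.1 hM).1
      obtain ⟨w1, eM, a0, aw⟩ := wf M hM'
      generalize wt ((1 + L.δ) ^ (M - j)) = W at w1 eM aw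
      have W0 : 0 < W := by linarith
      refine sum_le _ _ (fun m => C₁ * (1 + Λ) * (L.δ * W⁻¹) *
        (L.δ * if m < j' then (1 : ℝ) else 0)) _ (fun m _ => ?_) (fun m hm' => ?_) ?_
      · split_ifs <;> positivity
      · have hm'' := (Finset.mem_Ico.1 hm').1
        have tm := h.lv.τpos L hL m
        have tM := h.lv.τpos L hL M
        refine mul_le (int_le2 (w := fun x => (o x / D x) ^ 2 * ‖L.GY M x‖ ^ 2)
          (w' := fun x => (o x / D x) ^ 2 * ‖L.GY m x‖ ^ 2) (c := C₁ / W ^ 2) (c' := C₁ * W ^ 2)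
          (by positivity) (by positivity) (by positivity) (by positivity)
          (((mo.div mD).pow_const 2).mul ((h.lv.h2Y L hL M).mG.norm.measurable.pow_const 2))
          (fun x => ?_) (hY M hM').1 (hY m hm'').1) tj.le ?_
        · by_cases hx : x ∈ L.O M
          · have k := (hξ x (sub M x hx)).2
            have k2 : |⟪L.GY M x, L.GY m x⟫| ≤ ‖L.GY M x‖ ^ 2 / W ^ 2 + W ^ 2 * ‖L.GY m x‖ ^ 2 := by
              refine (abs_real_inner_le_norm _ _).trans ?_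
              have e : ‖L.GY M x‖ ^ 2 / W ^ 2 + W ^ 2 * ‖L.GY m x‖ ^ 2 =
                  (‖L.GY M x‖ / W - W * ‖L.GY m x‖) ^ 2 + 2 * (‖L.GY M x‖ * ‖L.GY m x‖) := by
                field_simp
                ring
              rw [e]
              nlinarith [sq_nonneg (‖L.GY M x‖ / W - W * ‖L.GY m x‖),
                mul_nonneg (norm_nonneg (L.GY M x)) (norm_nonneg (L.GY m x))]
            rw [abs_mul]
            calc |β x| * |⟪L.GY M x, L.GY m x⟫| ≤ C₁ * (o x / D x) ^ 2 *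
                  (‖L.GY M x‖ ^ 2 / W ^ 2 + W ^ 2 * ‖L.GY m x‖ ^ 2) := by gcongr
              _ = _ := by ring
          · rw [(h.lv.off L hL M x hx).2.1, inner_zero_left, mul_zero, abs_zero]
            positivity
        · obtain ⟨c0, c1⟩ := cb01 (j := j) (j' := j') hL b0 m
          split_ifs with hj
          · have tΛ : L.τ m ≤ Λ * L.τ j := (h.lv.τmono L hL hj.le).trans hΛ
            rw [abs_of_nonneg (mul_nonneg a0 c0), eM]
            calc L.ca b j M * L.cb b j j' m * (C₁ / W ^ 2 * (L.δ ^ 2 * (L.τ j * W ^ 4) * L.τ j) +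
                  C₁ * W ^ 2 * (L.δ ^ 2 * L.τ m * L.τ j))
                ≤ L.ca b j M * 1 * (C₁ / W ^ 2 * (L.δ ^ 2 * (L.τ j * W ^ 4) * L.τ j) +
                  C₁ * W ^ 2 * (L.δ ^ 2 * (Λ * L.τ j) * L.τ j)) := by gcongr
              _ = C₁ * (1 + Λ) * L.δ ^ 2 * L.τ j * (L.ca b j M * L.τ j * W ^ 2) := by field_simp
              _ ≤ C₁ * (1 + Λ) * L.δ ^ 2 * L.τ j * W⁻¹ := by gcongr
              _ = _ := by ring
          · have e : L.cb b j j' m = 0 := if_neg hj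
            simp [e]
      · rw [← Finset.mul_sum]
        have := ind_sum δ0 j j' M dj
        calc _ ≤ C₁ * (1 + Λ) * (L.δ * W⁻¹) * Cp := by gcongr
          _ = _ := by ring
    · rw [← Finset.mul_sum, ← Finset.mul_sum]
      gcongr
  rw [he, ENNReal.ofReal_add (by positivity) (by positivity),
    ENNReal.ofReal_add (by positivity) (by positivity), add_mul, add_mul]
  refine (enorm_add_le _ _).trans (add_le_add ((enorm_add_le _ _).trans (add_le_add s1 ?_)) ?_)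
  · exact s2.trans (mul_le_mul_right le_self_add _)
  · exact s3.trans (mul_le_mul_right le_self_add _)

end Pool.Agent.MP_29b5d3_an.EX
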