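import Pool.Agent.MP_29b5d3_an.EX.Rblk2
import Mathlib.MeasureTheory.Function.ContinuousMapDense
import Mathlib.Analysis.InnerProductSpace.Spectrum
import Mathlib.Analysis.Complex.ExponentialBounds
import Pool.Agent.MP_29b5d3_an.NC.All
import Pool.Agent.MP_29b5d3_an.NC.Final

-- ======== part 0: formerly Pool.Agent.MP_29b5d3_an.EX.Rwf
section MrgPart0

/-! Project EXQ: Fubini at a Whitney scale. -/

set_option autoImplicit false

namespace Pool.Agent.MP_29b5d3_an.EX

open MeasureTheory Metric Filter Topology Module Pool.Agent.MP_29b5d3_an.NC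
open scoped RealInnerProductSpace ContDiff ENNReal

variable {n : ℕ}

namespace Rwfx

/-- the kernel -/
noncomputable def kk (ρ : V n → ℝ) (z x : V n) : ℝ≥0∞ :=
  if dist x z < ρ z then (ENNReal.ofReal (ρ z ^ n))⁻¹ else 0

theorem kk_meas {ρ : V n → ℝ} (hρ : Measurable ρ) :
    Measurable fun p : V n × V n => kk ρ p.1 p.2 :=
  Measurable.ite (measurableSet_lt (measurable_snd.dist measurable_fst) (hρ.comp measurable_fst))
    ((hρ.comp measurable_fst).pow_const n).ennreal_ofReal.inv measurable_const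

theorem al_eq (ρ : V n → ℝ) {F : V n → ℝ≥0∞} (hF : Measurable F) (z : V n) :
    al F z (ρ z) = ∫⁻ x, F x * kk ρ z x := by
  rw [al, mul_comm, ← lintegral_mul_const _ hF, ← lintegral_indicator measurableSet_ball]
  refine lintegral_congr fun x => ?_
  by_cases h : dist x z < ρ z
  · rw [Set.indicator_of_mem (mem_ball.2 h), kk, if_pos h]
  · rw [Set.indicator_of_notMem (fun h' => h (mem_ball.1 h')), kk, if_neg h, mul_zero]

theorem swap {ρ : V n → ℝ} (hρ : Measurable ρ) {F : V n → ℝ≥0∞} (hF : Measurable F)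
    (S : Set (V n)) : ∫⁻ z in S, al F z (ρ z) = ∫⁻ x, F x * ∫⁻ z in S, kk ρ z x := by
  have m1 : Measurable fun p : V n × V n => F p.2 * kk ρ p.1 p.2 :=
    (hF.comp measurable_snd).mul (kk_meas hρ)
  have m2 : ∀ x, Measurable fun z => kk ρ z x := fun x =>
    Measurable.ite (measurableSet_lt (measurable_const.dist measurable_id) hρ)
      (hρ.pow_const n).ennreal_ofReal.inv measurable_const
  rw [lintegral_congr (al_eq ρ hF),
    lintegral_lintegral_swap (f := fun z x => F x * kk ρ z x) m1.aemeasurable]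
  exact lintegral_congr fun x => lintegral_const_mul _ (m2 x)

theorem lip {D : V n → ℝ} (hD : LipschitzWith 1 D) (x z : V n) :
    D x - D z ≤ dist x z ∧ D z - D x ≤ dist x z := by
  have := hD.dist_le_mul x z
  rw [Real.dist_eq, NNReal.coe_one, one_mul, abs_le] at this
  constructor <;> linarith [this.1, this.2]

theorem inv_vol (x : V n) {r a : ℝ} (hr : 0 < r) (ha : 0 < a) :
    (ENNReal.ofReal (r ^ n))⁻¹ * volume (ball x (a * r)) = ENNReal.ofReal (vb n * a ^ n) := by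
  rw [vol_ball x (mul_pos ha hr), mul_pow, ← mul_assoc, mul_comm _ (r ^ n),
    ENNReal.ofReal_mul (pow_pos hr n).le, ← mul_assoc,
    ENNReal.inv_mul_cancel (rn_ne hr) ENNReal.ofReal_ne_top, one_mul]

theorem K_up {c : ℝ} (c0 : 0 < c) (c1 : c ≤ 1 / 2) {D : V n → ℝ} (hD : LipschitzWith 1 D)
    (x : V n) : ∫⁻ z in {z | 0 < D z}, kk (fun z => c * D z) z x ≤
      {x | 0 < D x}.indicator (fun _ => ENNReal.ofReal (vb n * (2 / c) ^ n)) x := by
  have mS : MeasurableSet {z | 0 < D z} :=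
    measurableSet_lt measurable_const hD.continuous.measurable
  have key : ∀ z, 0 < D z → dist x z < c * D z → D z < 2 * D x ∧ D x < 2 * D z ∧
      dist x z < D x := fun z h0 h => by
    have := lip hD x z
    have : c * D z ≤ 1 / 2 * D z := by gcongr
    refine ⟨?_, ?_, ?_⟩ <;> linarith
  by_cases hx : 0 < D x
  · rw [Set.indicator_of_mem (by exact hx)]
    have r0 : 0 < c * D x / 2 := by positivity
    have e : D x = 2 / c * (c * D x / 2) := by field_simp
    rw [← inv_vol x r0 (by positivity : 0 < 2 / c), ← e, ← setLIntegral_const,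
      ← lintegral_indicator measurableSet_ball, ← lintegral_indicator mS]
    refine lintegral_mono fun z => ?_
    by_cases hz : 0 < D z
    · rw [Set.indicator_of_mem (by exact hz), kk]
      split_ifs with h
      · obtain ⟨-, h2, h3⟩ := key z hz h
        rw [Set.indicator_of_mem (mem_ball'.2 h3)]
        refine ENNReal.inv_le_inv.2 (ENNReal.ofReal_le_ofReal (pow_le_pow_left₀ r0.le ?_ n))
        nlinarith
      · exact zero_le
    · rw [Set.indicator_of_notMem (by exact hz)]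
      exact zero_le
  · rw [Set.indicator_of_notMem (by exact hx), nonpos_iff_eq_zero]
    refine (setLIntegral_congr_fun mS (g := fun _ => 0) fun z hz => ?_).trans lintegral_zero
    refine if_neg fun h => hx ?_
    have := key z hz h
    have : 0 < D z := hz
    linarith

theorem K_low {c : ℝ} (c0 : 0 < c) (c1 : c ≤ 1 / 2) {D : V n → ℝ} (hD : LipschitzWith 1 D)
    {x : V n} (hx : 0 < D x) : ENNReal.ofReal (vb n * (1 / 8) ^ n) ≤
      ∫⁻ z in {z | 0 < D z}, kk (fun z => c * D z) z x := by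
  have r0 : 0 < c * (2 * D x) := by positivity
  have key : ∀ z ∈ ball x (1 / 8 * (c * (2 * D x))), 0 < D z ∧ dist x z < c * D z ∧
      D z ≤ 2 * D x := fun z hz => by
    have h := mem_ball'.1 hz
    have := lip hD x z
    have h1 : c * D x ≤ 1 / 2 * D x := by gcongr
    have h2 : D x / 2 ≤ D z := by linarith
    have h3 : c * (D x / 2) ≤ c * D z := by gcongr
    have h4 : 0 < c * D x := by positivity
    refine ⟨?_, ?_, ?_⟩ <;> linarith
  rw [← inv_vol x r0 (by norm_num : (0 : ℝ) < 1 / 8), ← setLIntegral_const]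
  refine le_trans (setLIntegral_mono' measurableSet_ball fun z hz => ?_)
    (lintegral_mono_set fun z hz => (key z hz).1)
  obtain ⟨h1, h2, h3⟩ := key z hz
  rw [kk, if_pos h2]
  refine ENNReal.inv_le_inv.2 (ENNReal.ofReal_le_ofReal (pow_le_pow_left₀ (by positivity) ?_ n))
  gcongr

theorem two {F G : V n → ℝ≥0∞} (hF : Measurable F) (hG : Measurable G) (z : V n) {r : ℝ}
    (hr : 0 < r) : ∃ y, F y ≤ ENNReal.ofReal (3 / vb n) * al F z r ∧
      G y ≤ ENNReal.ofReal (3 / vb n) * al G z r := by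
  have v := vb_pos (n := n)
  have C0 : ENNReal.ofReal (3 / vb n) ≠ 0 := by simpa using v
  have ex : ∃ y, (al F z r)⁻¹ * F y + (al G z r)⁻¹ * G y ≤ ENNReal.ofReal (3 / vb n) := by
    by_contra hc
    push Not at hc
    have h := al_mono (z := z) (r := r) fun y _ => (hc y).le
    rw [al_const _ z hr, al_add_left (hF.const_mul _), al_const_mul' _ hF, al_const_mul' _ hG,
      ← ENNReal.ofReal_mul (by positivity), div_mul_cancel₀ _ v.ne'] at h
    have h1 : ∀ a : ℝ≥0∞, a⁻¹ * a ≤ 1 := fun a => by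
      rw [mul_comm, ← div_eq_mul_inv]; exact ENNReal.div_self_le_one
    have h2 := h.trans (add_le_add (h1 _) (h1 _))
    rw [ENNReal.ofReal_ofNat] at h2
    norm_num at h2
  obtain ⟨y, hy⟩ := ex
  have k : ∀ a f : ℝ≥0∞, a⁻¹ * f ≤ ENNReal.ofReal (3 / vb n) →
      f ≤ ENNReal.ofReal (3 / vb n) * a := fun a f h => by
    rw [mul_comm, ← div_eq_mul_inv] at h
    exact (ENNReal.div_le_iff_le_mul (Or.inr ENNReal.ofReal_ne_top) (Or.inr C0)).1 h
  exact ⟨y, k _ _ (le_self_add.trans hy), k _ _ (le_add_self.trans hy)⟩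

end Rwfx

open Rwfx in
theorem wf (_h : Bas0 n) : WF n where
  low c c0 c1 := by
    have v : 0 < vb n * (1 / 8) ^ n := mul_pos vb_pos (by positivity)
    refine ⟨(vb n * (1 / 8) ^ n)⁻¹, inv_pos.2 v, fun D F hD hF => ?_⟩
    have mD := hD.continuous.measurable
    rw [swap (ρ := fun z => c * D z) (mD.const_mul c) hF,
      ← lintegral_const_mul' _ _ ENNReal.ofReal_ne_top]
    refine le_trans (setLIntegral_mono' (measurableSet_lt measurable_const mD) fun x hx => ?_)
      (setLIntegral_le_lintegral _ _)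
    rw [mul_left_comm]
    refine le_trans ?_ (mul_le_mul_right (mul_le_mul_right (K_low c0 c1 hD hx) _) _)
    rw [← ENNReal.ofReal_mul (inv_pos.2 v).le, inv_mul_cancel₀ v.ne', ENNReal.ofReal_one, mul_one]
  up c c0 c1 := by
    refine ⟨vb n * (2 / c) ^ n, mul_pos vb_pos (by positivity), fun D F hD hF => ?_⟩
    have mD := hD.continuous.measurable
    rw [swap (ρ := fun z => c * D z) (mD.const_mul c) hF,
      ← lintegral_const_mul' _ _ ENNReal.ofReal_ne_top,
      ← lintegral_indicator (measurableSet_lt measurable_const mD)]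
    refine lintegral_mono fun x => (mul_le_mul_right (K_up c0 c1 hD x) _).trans_eq ?_
    by_cases hx : 0 < D x
    · rw [Set.indicator_of_mem (by exact hx), Set.indicator_of_mem (by exact hx), mul_comm]
    · rw [Set.indicator_of_notMem (by exact hx), Set.indicator_of_notMem (by exact hx), mul_zero]
  center := by
    refine ⟨3 / vb n, div_pos (by norm_num) vb_pos, fun E _ g w z r hg hw hr => ?_⟩
    have r2 : 0 < 2 * r := by positivity
    have m1 : Measurable fun p : V n × V n => ‖g p.2 - g p.1‖ₑ ^ 2 :=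
      (meas_sq2 hg).comp measurable_swap
    have m2 : Measurable fun p : V n × V n => ENNReal.ofReal (w p.2) * ‖g p.2 - g p.1‖ₑ ^ 2 :=
      (hw.comp measurable_snd).ennreal_ofReal.mul m1
    obtain ⟨y, h1, h2⟩ := two (F := fun y₀ => al (fun y => ‖g y - g y₀‖ₑ ^ 2) z (2 * r))
      (G := fun y₀ => al (fun y => ENNReal.ofReal (w y) * ‖g y - g y₀‖ₑ ^ 2) z r)
      (al_meas (F := fun y₀ y => ‖g y - g y₀‖ₑ ^ 2) m1 measurable_const measurable_const)
      (al_meas (F := fun y₀ y => ENNReal.ofReal (w y) * ‖g y - g y₀‖ₑ ^ 2) m2 measurable_const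
        measurable_const) z r2
    refine ⟨y, h1.trans_eq ?_, h2.trans_eq ?_⟩
    · rw [al_swap (F := fun y₀ y => ‖g y - g y₀‖ₑ ^ 2) m1 z z r2 r2, dav]
    · rw [al_swap (F := fun y₀ y => ENNReal.ofReal (w y) * ‖g y - g y₀‖ₑ ^ 2) m2 z z r2 hr, wav]
      simp only [al_const_mul ENNReal.ofReal_ne_top]

end Pool.Agent.MP_29b5d3_an.EX

end MrgPart0

-- ======== part 1: formerly Pool.Agent.MP_29b5d3_an.EX.Rjn2
section MrgPart1

/-! Project EXQ, row JN2: moments from the tail estimate of John and Nirenberg. -/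

set_option autoImplicit false

namespace Pool.Agent.MP_29b5d3_an.EX

open MeasureTheory Metric Filter Topology Module Pool.Agent.MP_29b5d3_an.NC
open scoped RealInnerProductSpace ContDiff ENNReal

variable {n : ℕ}

namespace Jn2x

theorem ex_le (j : ℕ) : Real.exp (j / 3) ≤ (3 / 2) ^ j := by
  have h : Real.exp (1 / 3) ≤ 3 / 2 :=
    (Real.exp_bound_div_one_sub_of_interval (by norm_num) (by norm_num)).trans (by norm_num)
  rw [show (j : ℝ) / 3 = j * (1 / 3) by ring, Real.exp_nat_mul]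
  exact pow_le_pow_left₀ (Real.exp_pos _).le h j

theorem pow_le (k : ℕ) {ε u : ℝ} (hε : 0 < ε) (hu : 0 ≤ u) :
    u ^ k ≤ k.factorial / ε ^ k * Real.exp (ε * u) := by
  have h := Real.pow_div_factorial_le_exp (ε * u) (by positivity) k
  have hk : (0 : ℝ) < k.factorial := by exact_mod_cast k.factorial_pos
  rw [div_le_iff₀ hk, mul_pow] at h
  rw [div_mul_eq_mul_div, le_div_iff₀ (by positivity)]
  linarith

theorem slot {t β s : ℝ} (hβ : 0 < β) (hs : t < s) :
    ∃ j : ℕ, t + 2 * j * β < s ∧ s ≤ t + 2 * (j + 1) * β := by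
  have h0 : 0 < (s - t) / (2 * β) := div_pos (by linarith) (by positivity)
  obtain ⟨j, hj⟩ : ∃ j, ⌈(s - t) / (2 * β)⌉₊ = j + 1 :=
    Nat.exists_eq_succ_of_ne_zero (Nat.ceil_pos.2 h0).ne'
  have h1 := Nat.le_ceil ((s - t) / (2 * β))
  have h2 := Nat.ceil_lt_add_one h0.le
  rw [hj] at h1 h2
  push_cast at h1 h2
  rw [div_le_iff₀ (by positivity)] at h1
  rw [add_lt_add_iff_right, lt_div_iff₀ (by positivity)] at h2
  exact ⟨j, by linarith, by linarith⟩

theorem layer {f : V n → ℝ} (hf : Measurable f) {S : Set (V n)}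
    {t β A : ℝ} (hβ : 0 < β) (hA : 0 ≤ A) {μ₀ : ℝ≥0∞}
    (h : ∀ j : ℕ, volume {y ∈ S | t + 2 * j * β < f y} ≤ 2⁻¹ ^ j * μ₀) {F G : V n → ℝ≥0∞}
    (hG : Measurable G) (h1 : ∀ y, f y ≤ t → F y ≤ G y)
    (h2 : ∀ y, ∀ j : ℕ, f y ≤ t + 2 * (j + 1) * β → F y ≤ ENNReal.ofReal (A * (3 / 2) ^ j)) :
    ∫⁻ y in S, F y ≤ (∫⁻ y in S, G y) + ENNReal.ofReal (4 * A) * μ₀ := by
  have hm : ∀ j : ℕ, MeasurableSet {y | t + 2 * j * β < f y} := fun j =>
    measurableSet_lt measurable_const hf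
  have p : ∀ y, F y ≤ G y + ∑' j : ℕ, {y | t + 2 * j * β < f y}.indicator
      (fun _ => ENNReal.ofReal (A * (3 / 2) ^ j)) y := fun y => by
    rcases le_or_gt (f y) t with hy | hy
    · exact (h1 y hy).trans le_self_add
    · obtain ⟨j, a, b⟩ := slot hβ hy
      refine (h2 y j b).trans (le_trans ?_ le_add_self)
      refine le_trans ?_ (ENNReal.le_tsum j)
      rw [Set.indicator_of_mem (show y ∈ {y | t + 2 * j * β < f y} from a)]
  refine (lintegral_mono p).trans ?_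
  rw [lintegral_add_left hG, lintegral_tsum fun j => (measurable_const.indicator (hm j)).aemeasurable]
  refine add_le_add_right ?_ _
  have q : ∀ j : ℕ, ∫⁻ y in S, {y | t + 2 * j * β < f y}.indicator
      (fun _ => ENNReal.ofReal (A * (3 / 2) ^ j)) y ≤ ENNReal.ofReal (A * (3 / 4) ^ j) * μ₀ := by
    intro j
    rw [lintegral_indicator_const (hm j), Measure.restrict_apply (hm j), Set.inter_comm]
    refine (mul_le_mul_right (h j) _).trans_eq ?_
    have e : (2⁻¹ : ℝ≥0∞) ^ j = ENNReal.ofReal (2⁻¹ ^ j) := by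
      rw [ENNReal.ofReal_pow (by norm_num), ENNReal.ofReal_inv_of_pos (by norm_num)]
      simp
    rw [e, ← mul_assoc, ← ENNReal.ofReal_mul (by positivity), mul_assoc A, ← mul_pow]
    norm_num
  refine (ENNReal.tsum_le_tsum q).trans_eq ?_
  have g := (hasSum_geometric_of_lt_one (r := (3 / 4 : ℝ)) (by norm_num) (by norm_num)).mul_left A
  rw [ENNReal.tsum_mul_right, ← ENNReal.ofReal_tsum_of_nonneg (fun j => by positivity) g.summable,
    g.tsum_eq]
  norm_num [mul_comm]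

variable {E : Type} [NormedAddCommGroup E]

theorem en_sq (x : E) : ‖x‖ₑ ^ 2 = ENNReal.ofReal (‖x‖ ^ 2) := by
  rw [← ofReal_norm, ENNReal.ofReal_pow (norm_nonneg _)]

theorem meas_n {g : V n → E} (hg : StronglyMeasurable g) (c : E) :
    Measurable fun y => ‖g y - c‖ := (hg.sub stronglyMeasurable_const).norm.measurable

theorem cen (h1 : JN1 n) (Cβ : ℝ) (hC : 0 < Cβ) : ∃ C : ℝ, 0 < C ∧
    ∀ (E : Type) [NormedAddCommGroup E] (g : V n → E)
    (b r : ℝ) (z : V n) (c : E), StronglyMeasurable g → 0 < b → BM (al0 n) (Cβ * b) g → 0 < r →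
    ‖z‖ + 2 * r ≤ 10 →
    volume {y ∈ ball z (2 * r) | Cβ * b < ‖g y - c‖} ≤ ENNReal.ofReal (al0 n * (2 * r) ^ n) →
    al (fun y => ‖g y - c‖ₑ ^ 2) z r ≤ ENNReal.ofReal (C * b ^ 2) := by
  have hv := vb_pos (n := n)
  have ha := al0_pos (n := n)
  refine ⟨Cβ ^ 2 * (vb n + 4 * (72 * Real.exp (1 / 2)) * (al0 n * 2 ^ n)), by positivity,
    fun E _ g b r z c hg hb hB hr hz hμ => ?_⟩
  have hβ : 0 < Cβ * b := by positivity
  have k := layer (meas_n hg c) hβ
    (A := 72 * Real.exp (1 / 2) * (Cβ * b) ^ 2) (by positivity)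
    (h1 E g _ _ r z c hg hβ.le hB hr hz hμ) (F := fun y => ‖g y - c‖ₑ ^ 2)
    (G := fun _ => ENNReal.ofReal ((Cβ * b) ^ 2)) measurable_const
    (fun y hy => by rw [en_sq]; exact ENNReal.ofReal_le_ofReal (by gcongr))
    (fun y j hy => by
      rw [en_sq]
      refine ENNReal.ofReal_le_ofReal ?_
      have a1 := pow_le 2 (ε := 1 / 6) (u := 2 * j + 3) (by norm_num) (by positivity)
      rw [show (1 / 6 : ℝ) * (2 * j + 3) = 1 / 2 + j / 3 by ring, Real.exp_add] at a1
      have a2 := mul_le_mul_of_nonneg_left (ex_le j) (Real.exp_pos (1 / 2)).le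
      have a3 : (2 * (j : ℝ) + 3) ^ 2 ≤ 72 * Real.exp (1 / 2) * (3 / 2) ^ j := by
        norm_num [Nat.factorial] at a1
        nlinarith
      calc _ ≤ ((2 * j + 3) * (Cβ * b)) ^ 2 := by
            gcongr
            linarith
        _ = (2 * (j : ℝ) + 3) ^ 2 * (Cβ * b) ^ 2 := mul_pow _ _ _
        _ ≤ 72 * Real.exp (1 / 2) * (3 / 2) ^ j * (Cβ * b) ^ 2 := by gcongr
        _ = _ := by ring)
  refine al_le_of_lint hr (k.trans ?_)
  rw [setLIntegral_const, vol_ball z hr]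
  refine (add_le_add_right (mul_le_mul_right hμ _) _).trans_eq ?_
  rw [← ENNReal.ofReal_mul (by positivity), ← ENNReal.ofReal_mul (by positivity),
    ← ENNReal.ofReal_add (by positivity) (by positivity), ← ENNReal.ofReal_mul (by positivity)]
  congr 1
  ring

theorem psi_low {b M b₀ s : ℝ} (hb : 0 < b) (hb₀ : b ≤ b₀) (hM : 0 ≤ M) (hs : 0 ≤ s)
    (h : s ≤ M * b) : Psi b s ≤ Real.exp (4 * (M * b₀)) * (1 + M ^ 4) * s ^ 2 := by
  have a1 : s ^ 4 / b ^ 4 ≤ M ^ 4 := by
    rw [div_le_iff₀ (by positivity), ← mul_pow]; gcongr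
  have a2 : s ≤ M * b₀ := h.trans (by gcongr)
  calc Psi b s ≤ s ^ 2 * Real.exp (4 * (M * b₀)) * (1 + M ^ 4) := by unfold Psi; gcongr
    _ = _ := by ring

theorem psi_up {b M Cβ ε s : ℝ} (j : ℕ) (hb : 0 < b) (hε : 0 < ε) (hb₀ : b ≤ ε / 4)
    (he : ε * Cβ = 1 / 12) (hs : 0 ≤ s) (h : s ≤ M * b + 2 * (j + 1) * (Cβ * b)) :
    Psi b s ≤ (2 / ε ^ 2 + 720 / ε ^ 6) * Real.exp (2 * ε * M + 1 / 3) * b ^ 2 * (3 / 2) ^ j := by
  obtain ⟨u, rfl⟩ : ∃ u, s = u * b := ⟨s / b, by field_simp⟩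
  have hu : 0 ≤ u := nonneg_of_mul_nonneg_left hs hb
  have h2 : u ≤ M + 2 * (j + 1) * Cβ := le_of_mul_le_mul_right (by linarith) hb
  have a1 := pow_le 2 hε hu
  have a2 := pow_le 6 hε hu
  norm_num [Nat.factorial] at a1 a2
  have a3 : Real.exp (ε * u) * Real.exp (4 * (u * b)) ≤
      Real.exp (2 * ε * M + 1 / 3) * (3 / 2) ^ j := by
    refine le_trans ?_ (mul_le_mul_of_nonneg_left (ex_le j) (Real.exp_pos _).le)
    rw [← Real.exp_add, ← Real.exp_add]
    refine Real.exp_le_exp.2 ?_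
    have b1 := mul_le_mul_of_nonneg_left hb₀ hu
    have b2 := mul_le_mul_of_nonneg_left h2 hε.le
    have b3 : ε * (M + 2 * (j + 1) * Cβ) = ε * M + 2 * (j + 1) * (ε * Cβ) := by ring
    rw [b3, he] at b2
    nlinarith
  calc Psi b (u * b) = (u ^ 2 + u ^ 6) * Real.exp (4 * (u * b)) * b ^ 2 := by
        unfold Psi; field_simp
    _ ≤ (2 / ε ^ 2 * Real.exp (ε * u) + 720 / ε ^ 6 * Real.exp (ε * u)) *
          Real.exp (4 * (u * b)) * b ^ 2 := by gcongr
    _ = (2 / ε ^ 2 + 720 / ε ^ 6) * (Real.exp (ε * u) * Real.exp (4 * (u * b))) * b ^ 2 := by ring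
    _ ≤ (2 / ε ^ 2 + 720 / ε ^ 6) * (Real.exp (2 * ε * M + 1 / 3) * (3 / 2) ^ j) * b ^ 2 := by
        gcongr
    _ = _ := by ring

theorem cheb {g : V n → E} (hg : StronglyMeasurable g) (c : E) (S : Set (V n))
    (hS : MeasurableSet S) {t : ℝ} (ht : 0 ≤ t) :
    ENNReal.ofReal (t ^ 2) * volume {y ∈ S | t < ‖g y - c‖} ≤ ∫⁻ y in S, ‖g y - c‖ₑ ^ 2 := by
  rw [← setLIntegral_const]
  refine le_trans (setLIntegral_mono' (hS.inter (measurableSet_lt measurable_const (meas_n hg c)))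
    fun y hy => ?_) (lintegral_mono_set fun y hy => hy.1)
  rw [en_sq]
  exact ENNReal.ofReal_le_ofReal (pow_le_pow_left₀ ht (le_of_lt hy.2) 2)

theorem psi (h1 : JN1 n) (Cβ C₁ : ℝ) (hC : 0 < Cβ) (hC₁ : 0 < C₁) : ∃ C b₀ : ℝ, 0 < C ∧ 0 < b₀ ∧
    ∀ (E : Type) [NormedAddCommGroup E] (g : V n → E) (b r : ℝ) (z : V n) (c : E),
    StronglyMeasurable g → 0 < b → b ≤ b₀ → BM (al0 n) (Cβ * b) g → 0 < r → ‖z‖ + 2 * r ≤ 10 →
    al (fun y => ‖g y - c‖ₑ ^ 2) z (2 * r) ≤ ENNReal.ofReal (C₁ * b ^ 2) →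
    al (fun y => ENNReal.ofReal (Psi b ‖g y - c‖)) z r ≤
      ENNReal.ofReal C * al (fun y => ‖g y - c‖ₑ ^ 2) z (2 * r) := by
  have ha := al0_pos (n := n)
  obtain ⟨ε, hε, he⟩ : ∃ ε : ℝ, 0 < ε ∧ ε * Cβ = 1 / 12 :=
    ⟨1 / (12 * Cβ), by positivity, by field_simp⟩
  obtain ⟨M, hM, hM'⟩ : ∃ M : ℝ, 0 < M ∧ C₁ ≤ M ^ 2 * al0 n := by
    have h0 : 0 < C₁ / al0 n := by positivity
    refine ⟨C₁ / al0 n + 1, by positivity, ?_⟩
    rw [← div_le_iff₀ ha]
    nlinarith
  obtain ⟨K₀, hK₀, e₀⟩ : ∃ K, 0 < K ∧ K = Real.exp (4 * (M * (ε / 4))) * (1 + M ^ 4) :=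
    ⟨_, by positivity, rfl⟩
  obtain ⟨K₁, hK₁, e₁⟩ : ∃ K, 0 < K ∧
      K = (2 / ε ^ 2 + 720 / ε ^ 6) * Real.exp (2 * ε * M + 1 / 3) := ⟨_, by positivity, rfl⟩
  refine ⟨2 ^ n * (K₀ + 4 * K₁ / M ^ 2), ε / 4, by positivity, by positivity,
    fun E _ g b r z c hg hb hb₀ hB hr hz hI => ?_⟩
  have hβ : 0 < Cβ * b := by positivity
  have hr2 : 0 < 2 * r := by positivity
  have ch := cheb hg c (ball z (2 * r)) measurableSet_ball (t := M * b) (by positivity)
  have hμ : volume {y ∈ ball z (2 * r) | M * b < ‖g y - c‖} ≤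
      ENNReal.ofReal (al0 n * (2 * r) ^ n) := by
    refine (ENNReal.mul_le_mul_iff_right (a := ENNReal.ofReal ((M * b) ^ 2))
      (ENNReal.ofReal_pos.2 (by positivity)).ne' ENNReal.ofReal_ne_top).1 (ch.trans ?_)
    rw [lint_eq _ z hr2]
    refine (mul_le_mul_right hI _).trans ?_
    rw [← ENNReal.ofReal_mul (by positivity), ← ENNReal.ofReal_mul (by positivity)]
    refine ENNReal.ofReal_le_ofReal ?_
    calc _ ≤ (2 * r) ^ n * (M ^ 2 * al0 n * b ^ 2) := by gcongr
      _ = _ := by ring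
  have k := layer (meas_n hg c) hβ (A := K₁ * b ^ 2) (by positivity)
    (h1 E g _ _ r z c hg hβ.le hB hr hz hμ) (F := fun y => ENNReal.ofReal (Psi b ‖g y - c‖))
    (G := fun y => ENNReal.ofReal K₀ * ‖g y - c‖ₑ ^ 2) ((meas_sq hg c).const_mul _)
    (fun y hy => by
      rw [en_sq, ← ENNReal.ofReal_mul hK₀.le, e₀]
      exact ENNReal.ofReal_le_ofReal (psi_low hb hb₀ hM.le (norm_nonneg _) hy))
    (fun y j hy => by
      rw [e₁]
      exact ENNReal.ofReal_le_ofReal (psi_up j hb hε hb₀ he (norm_nonneg _) hy))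
  refine al_le_of_lint hr (k.trans ?_)
  rw [lintegral_const_mul _ (meas_sq hg c),
    show 4 * (K₁ * b ^ 2) = 4 * K₁ / M ^ 2 * (M * b) ^ 2 by field_simp,
    ENNReal.ofReal_mul (by positivity), mul_assoc (ENNReal.ofReal _)]
  refine (add_le_add (mul_le_mul_right (lintegral_mono_set
    (ball_subset_ball (by linarith : r ≤ 2 * r))) _) (mul_le_mul_right ch _)).trans_eq ?_
  rw [← add_mul, ← ENNReal.ofReal_add hK₀.le (by positivity), lint_eq _ z hr2, ← mul_assoc,
    ← mul_assoc, ← ENNReal.ofReal_mul (by positivity), ← ENNReal.ofReal_mul (by positivity)]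
  congr 2
  ring

end Jn2x

set_option linter.unusedVariables false in
theorem jn2 (h : Bas0 n) (h1 : JN1 n) : JN2 n := by
  refine ⟨Jn2x.cen h1, fun Cβ hC => ?_, Jn2x.psi h1⟩
  obtain ⟨C, hC0, h2⟩ := Jn2x.cen h1 Cβ hC
  have hv := vb_pos (n := n)
  refine ⟨4 * vb n * C, by positivity, fun E _ g b r z hg hb hB hr hz => ?_⟩
  obtain ⟨c, hc⟩ := hB z (mem_ball_zero_iff.2 (by linarith)) (2 * r) (by positivity)
    (by linarith [norm_nonneg z])
  refine (dav_le hg c z hr).trans ((mul_le_mul_right 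
    (h2 E g b r z c hg hb hB hr hz hc) _).trans_eq ?_)
  rw [← ENNReal.ofReal_mul (by positivity), mul_assoc (4 * vb n)]

end Pool.Agent.MP_29b5d3_an.EX

end MrgPart1

-- ======== part 2: formerly Pool.Agent.MP_29b5d3_an.EX.Rl0
section MrgPart2

/-! Project EXQ, row L0: the oscillation at small scales tends to zero. -/

set_option autoImplicit false

namespace Pool.Agent.MP_29b5d3_an.EX

open MeasureTheory Metric Filter Topology Module Pool.Agent.MP_29b5d3_an.NC
open scoped RealInnerProductSpace ContDiff ENNReal NNReal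

variable {n : ℕ}

namespace L0x

theorem ton {F : V n → ℝ≥0∞} (hF : Measurable F) {r : ℝ} (hr : 0 < r) :
    ∫⁻ z, al F z r = (∫⁻ y, F y) * ENNReal.ofReal (vb n) := by
  have m : MeasurableSet {p : V n × V n | dist p.2 p.1 < r} :=
    measurableSet_lt (measurable_snd.dist measurable_fst) measurable_const
  have k : Measurable fun p : V n × V n => {p : V n × V n | dist p.2 p.1 < r}.indicator
      (fun p => F p.2) p := (hF.comp measurable_snd).indicator m
  have e1 : ∀ z : V n, ∫⁻ y in ball z r, F y =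
      ∫⁻ y, {p : V n × V n | dist p.2 p.1 < r}.indicator (fun p => F p.2) (z, y) := fun z => by
    rw [← lintegral_indicator measurableSet_ball]
    rfl
  have e2 : ∀ y : V n, ∫⁻ z, {p : V n × V n | dist p.2 p.1 < r}.indicator (fun p => F p.2) (z, y) =
      F y * ENNReal.ofReal (vb n * r ^ n) := fun y => by
    rw [← vol_ball y hr, ← setLIntegral_const, ← lintegral_indicator measurableSet_ball]
    refine lintegral_congr fun z => ?_
    simp only [Set.indicator, Set.mem_ofPred_eq, mem_ball, dist_comm y z]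
  unfold al
  rw [lintegral_const_mul' _ _ (ENNReal.inv_ne_top.2 (rn_ne hr))]
  simp only [e1]
  rw [lintegral_lintegral_swap k.aemeasurable]
  simp only [e2]
  rw [lintegral_mul_const _ hF, ENNReal.ofReal_mul vb_pos.le, mul_comm, mul_assoc, mul_assoc,
    ENNReal.mul_inv_cancel (rn_ne hr) ENNReal.ofReal_ne_top, mul_one]

theorem sq_int {E : Type} [NormedAddCommGroup E] (u : V n → E) :
    ∫⁻ y, ‖u y‖ₑ ^ 2 = eLpNorm u 2 volume ^ 2 := by
  have := eLpNorm_nnreal_pow_eq_lintegral (f := u) (μ := (volume : Measure (V n))) (p := 2)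
    two_ne_zero
  simpa using this.symm

end L0x

theorem l0 (h : Bas0 n) : L0 n := by
  intro E _ _ g hg hfin
  set g1 := (ball (0 : V n) 5).indicator g with hg1
  have m1 : StronglyMeasurable g1 := hg.indicator measurableSet_ball
  have l2 : MemLp g1 2 volume := by
    refine ⟨m1.aestronglyMeasurable, ?_⟩
    have : eLpNorm g1 2 volume ^ 2 < ⊤ := by
      rw [← L0x.sq_int]
      refine lt_of_eq_of_lt ?_ hfin
      rw [← lintegral_indicator measurableSet_ball]
      refine lintegral_congr fun y => ?_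
      by_cases hy : y ∈ ball (0 : V n) 5
      · simp only [hg1, Set.indicator_of_mem hy]
      · simp [hg1, Set.indicator_of_notMem hy]
    exact lt_top_iff_ne_top.2 fun e => by simp [e] at this
  rw [ENNReal.tendsto_nhds_zero]
  intro ε hε
  set b := ENNReal.ofReal (vb n) with hb
  set K : ℝ≥0∞ := ENNReal.ofReal (4 * vb n) * (2 * b + 2 * b * volume (ball (0 : V n) 4)) with hK
  have bt : b ≠ ⊤ := ENNReal.ofReal_ne_top
  have Kt : K ≠ ⊤ := ENNReal.mul_ne_top ENNReal.ofReal_ne_top (ENNReal.add_ne_top.2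
    ⟨ENNReal.mul_ne_top (by simp) bt,
      ENNReal.mul_ne_top (ENNReal.mul_ne_top (by simp) bt) measure_ball_lt_top.ne⟩)
  obtain ⟨e, e0, he⟩ := ENNReal.exists_nnreal_pos_mul_lt Kt hε.ne'
  have s0 : 0 < NNReal.sqrt e := NNReal.sqrt_pos.2 e0
  have ss : ((NNReal.sqrt e : ℝ≥0) : ℝ≥0∞) ^ 2 = e := by
    rw [← ENNReal.coe_pow, NNReal.sq_sqrt]
  obtain ⟨f, fs, hf, fc, -⟩ := l2.exists_hasCompactSupport_eLpNorm_sub_le (by simp)
    (ε := NNReal.sqrt e) (by simpa using s0.ne')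
  obtain ⟨δ, δ0, hδ⟩ := Metric.uniformContinuous_iff.1 (fs.uniformContinuous_of_continuous fc)
    (NNReal.sqrt e) (by exact_mod_cast s0)
  have mF : Measurable fun y => ‖g1 y - f y‖ₑ ^ 2 :=
    (m1.sub fc.stronglyMeasurable).enorm.pow_const 2
  have iF : ∫⁻ y, ‖g1 y - f y‖ₑ ^ 2 ≤ e := by
    rw [← ss]
    exact (L0x.sq_int (g1 - f)).trans_le (by gcongr)
  filter_upwards [Ioo_mem_nhdsGT (lt_min δ0 one_pos)] with r hr
  have r0 : 0 < r := hr.1
  have pt : ∀ z ∈ ball (0 : V n) 4, dav g z r ≤ ENNReal.ofReal (4 * vb n) *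
      (2 * al (fun y => ‖g1 y - f y‖ₑ ^ 2) z r + 2 * e * b) := fun z hz => by
    refine (dav_le hg (f z) z r0).trans (mul_le_mul_right ?_ _)
    rw [← al_const_mul (by simp), hb, ← al_const _ z r0, ← al_add_right _ measurable_const]
    refine al_mono fun y hy => ?_
    have y5 : y ∈ ball (0 : V n) 5 := by
      have := dist_triangle y z 0
      rw [mem_ball] at hy hz ⊢
      linarith [hr.2.trans_le (min_le_right _ _)]
    have d : ‖f z - f y‖ₑ ≤ NNReal.sqrt e := by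
      have := hδ ((mem_ball'.1 hy).trans (hr.2.trans_le (min_le_left _ _)))
      rw [dist_eq_norm] at this
      rw [← ofReal_norm, ← ENNReal.ofReal_coe_nnreal]
      exact ENNReal.ofReal_le_ofReal this.le
    refine (enorm_sq_le (g y) (f z) (f y)).trans ?_
    rw [hg1, Set.indicator_of_mem y5, ← ss]
    gcongr
  have ma : Measurable fun z => al (fun y => ‖g1 y - f y‖ₑ ^ 2) z r :=
    al_meas (F := fun _ y => ‖g1 y - f y‖ₑ ^ 2) (mF.comp measurable_snd) measurable_id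
      measurable_const
  refine (setLIntegral_mono' measurableSet_ball pt).trans (le_trans ?_ he.le)
  rw [lintegral_const_mul' _ _ ENNReal.ofReal_ne_top, lintegral_add_right _ measurable_const,
    lintegral_const_mul _ ma, setLIntegral_const]
  have k : ∫⁻ z in ball (0 : V n) 4, al (fun y => ‖g1 y - f y‖ₑ ^ 2) z r ≤ e * b :=
    (setLIntegral_le_lintegral _ _).trans ((L0x.ton mF r0).trans_le (mul_le_mul_left iF _))
  calc _ ≤ ENNReal.ofReal (4 * vb n) * (2 * (e * b) + 2 * e * b * volume (ball (0 : V n) 4)) := by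
        gcongr
    _ = e * K := by rw [hK]; ring

end Pool.Agent.MP_29b5d3_an.EX

end MrgPart2

-- ======== part 3: formerly Pool.Agent.MP_29b5d3_an.EX.Rpw
section MrgPart3

/-! Project EXQ: the pointwise inequality. -/

set_option autoImplicit false

namespace Pool.Agent.MP_29b5d3_an.EX

open MeasureTheory Metric Filter Topology Module Pool.Agent.MP_29b5d3_an.NC
open scoped RealInnerProductSpace ContDiff ENNReal

variable {n : ℕ}

namespace Rpwx

theorem prod_le {ι : Type} (s : Finset ι) (p : ι → ℝ) (h0 : ∀ i, 0 ≤ p i) (h1 : ∀ i, p i ≤ 1) :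
    ∏ i ∈ s, (1 - p i) ≤ 1 - ∑ i ∈ s, p i + ((∑ i ∈ s, p i) ^ 2 - ∑ i ∈ s, p i ^ 2) / 2 := by
  classical
  induction s using Finset.induction_on with
  | empty => simp
  | insert a s ha ih =>
    rw [Finset.prod_insert ha, Finset.sum_insert ha, Finset.sum_insert ha]
    have e := Finset.sum_sq_le_sq_sum_of_nonneg (s := s) (f := p) fun i _ => h0 i
    have k := mul_le_mul_of_nonneg_left ih (sub_nonneg.2 (h1 a))
    nlinarith [mul_nonneg (h0 a) (sub_nonneg.2 e)]

theorem eig {b : ℝ} {P : Mt n} (h : Str b P) :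
    ∃ p : Fin n → ℝ, (∀ i, 0 ≤ p i) ∧ (∀ i, p i ≤ ‖P‖) ∧ tr P = ∑ i, p i ∧
      hs P P = ∑ i, p i ^ 2 ∧ ((1 : Mt n) - P).det = ∏ i, (1 - p i) := by
  have s1 : star ((1 : Mt n) - P) = 1 - P := by rw [star_sub, star_one, h.sym]
  have hS : (((1 : Mt n) - P : Mt n) : V n →ₗ[ℝ] V n).IsSymmetric := (sym_iff _).1 s1
  set u := hS.eigenvectorBasis fr
  have hu : ∀ i, P (u i) = (1 - hS.eigenvalues fr i) • u i := fun i => by
    have k : u i - P (u i) = hS.eigenvalues fr i • u i := hS.apply_eigenvectorBasis fr i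
    rw [sub_smul, one_smul, ← k, sub_sub_cancel]
  have n1 : ∀ i, ‖u i‖ = 1 := u.orthonormal.1
  have i1 : ∀ i, ⟪u i, u i⟫ = 1 := fun i => by rw [real_inner_self_eq_norm_sq, n1, one_pow]
  have e : ∀ i, ⟪u i, P (u i)⟫ = 1 - hS.eigenvalues fr i := fun i => by
    rw [hu, real_inner_smul_right, i1, mul_one]
  refine ⟨fun i => 1 - hS.eigenvalues fr i, fun i => ?_, fun i => ?_, ?_, ?_, ?_⟩
  · exact (h.pos _).trans_eq ((real_inner_comm _ _).trans (e i))
  · refine (e i).ge.trans ((real_inner_le_norm _ _).trans ?_)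
    simpa only [n1, one_mul, mul_one] using P.le_opNorm (u i)
  · rw [tr_basis u]
    exact Finset.sum_congr rfl fun i _ => e i
  · rw [hs_eq_tr, h.sym, tr_basis u]
    refine Finset.sum_congr rfl fun i _ => ?_
    change ⟪u i, P (P (u i))⟫ = _
    rw [hu, map_smul, real_inner_smul_right, e, sq]
  · simp only [sub_sub_cancel]
    exact hS.det_eq_prod_eigenvalues fr

theorem e2_nonneg {b : ℝ} {P : Mt n} (h : Str b P) : 0 ≤ e2 P := by
  obtain ⟨p, h0, -, e1, e2', -⟩ := eig h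
  have e := Finset.sum_sq_le_sq_sum_of_nonneg (s := Finset.univ) (f := p) fun i _ => h0 i
  rw [e2, e1, e2']
  linarith

theorem tr_nonneg {b : ℝ} {P : Mt n} (h : Str b P) : 0 ≤ tr P := by
  obtain ⟨p, h0, -, e1, -⟩ := eig h
  rw [e1]
  exact Finset.sum_nonneg fun i _ => h0 i

theorem tr_le {b : ℝ} {P : Mt n} (h : Str b P) : tr P ≤ n * (n * b) :=
  (le_abs_self _).trans ((abs_tr_le P).trans (mul_le_mul_of_nonneg_left h.norm n.cast_nonneg))

theorem tr_le' {b : ℝ} {P : Mt n} (h : Str b P) (hb : n * b ≤ 1) : tr P ≤ n * b + e2 P := by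
  obtain ⟨p, h0, h1, e1, e2', e3⟩ := eig h
  have k := prod_le Finset.univ p h0 fun i => (h1 i).trans (h.norm.trans hb)
  have d := h.det
  rw [e3] at d
  rw [e2, e1, e2']
  linarith

/-- the scalar form -/
theorem scal {N b δ β T e x : ℝ} (hN : 3 ≤ N) (b0 : 0 < b) (b1 : b * (4 * N ^ 2) ≤ 1)
    (δ0 : 0 < δ) (δ1 : δ ≤ 1) (hβ : β * (1 - b) = b * (1 + δ)) (T0 : 0 ≤ T) (T1 : T ≤ N * (N * b))
    (T2 : T ≤ N * b + e) (e0 : 0 ≤ e) (x0 : 0 ≤ x) (x1 : x ≤ 2 * N) :
    b ^ 2 * (N * (N - 1) * (1 + 2 * δ)) + b ^ 2 * (x ^ 2 / N - 2 * x + N) + (T ^ 2 - e) - 2 * b * T ≤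
      2 * b * ((N - 1 - T) * x + N * (N - 1) * β - (N - 1) * β * T) := by
  have N0 : 0 < N := by linarith
  have b2 : b ≤ 1 / 36 := by nlinarith [mul_nonneg b0.le (show 0 ≤ N ^ 2 - 9 by nlinarith)]
  have β0 : 0 ≤ β := by
    by_contra hc
    nlinarith [mul_pos (sub_pos.2 (show b < 1 by linarith)) (neg_pos.2 (not_le.1 hc))]
  have β1 : β ≤ 1 := by
    by_contra hc
    nlinarith [mul_pos (sub_pos.2 (show b < 1 by linarith)) (sub_pos.2 (not_le.1 hc))]
  have k1 : x ^ 2 / N - 2 * x ≤ 0 := by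
    rw [sub_nonpos, div_le_iff₀ N0]
    nlinarith
  have k2 : 0 ≤ (N - 1 - T) * x := mul_nonneg (by nlinarith) x0
  have k3 : (T - N * b) * (T + N * b - 2 * b * (1 - (N - 1) * β)) ≤ e := by
    have l1 : 0 ≤ (N - 1) * β := mul_nonneg (by linarith) β0
    have l2 : (N - 1) * β ≤ N - 1 := by nlinarith
    have l3 : 0 ≤ T + N * b - 2 * b * (1 - (N - 1) * β) := by nlinarith
    rcases le_total T (N * b) with c | c
    · nlinarith
    · have l4 : T + N * b - 2 * b * (1 - (N - 1) * β) ≤ 1 := by nlinarith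
      nlinarith
  have k4 : b * (N * (N - 1)) * (β * (1 - b)) = b * (N * (N - 1)) * (b * (1 + δ)) := by rw [hβ]
  nlinarith [mul_nonneg (sq_nonneg b) (neg_nonneg.2 k1), mul_nonneg b0.le k2]

end Rpwx

open Rpwx in
theorem pw (h : Bas0 n) : PW n := by
  have hN : (3 : ℝ) ≤ n := by exact_mod_cast h.hn
  have N0 : (0 : ℝ) < n := by linarith
  refine ⟨⟨(n : ℝ) ^ 4, by positivity, fun b P hP => ⟨e2_nonneg hP, ?_⟩⟩,
    1 / (4 * (n : ℝ) ^ 2), by positivity, fun b δ s P H b0 b1 δ0 δ1 s0 hP _ w0 w1 => ?_⟩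
  · have k := pow_le_pow_left₀ (tr_nonneg hP) (tr_le hP) 2
    have k2 := hs_nonneg P
    have k3 : 0 ≤ (n : ℝ) ^ 4 * b ^ 2 := by positivity
    rw [e2]
    nlinarith
  rw [le_div_iff₀ (by positivity)] at b1
  have b2 : b ≤ 1 / 36 := by
    nlinarith [mul_nonneg b0.le (show 0 ≤ (n : ℝ) ^ 2 - 9 by nlinarith)]
  have b3 : 0 < 1 - b := by linarith
  have g0 : 0 < 1 + δ * b := by positivity
  set β := 1 / ((1 - b) / (1 + δ * b)) - 1 with hβ
  have eβ : β * (1 - b) = b * (1 + δ) := by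
    rw [hβ]
    field_simp
    ring
  have k := scal (x := tr H / s) hN b0 b1 δ0 δ1 eβ (tr_nonneg hP) (tr_le hP)
    (tr_le' hP (by nlinarith)) (e2_nonneg hP) (div_nonneg w0 s0.le) ((div_le_iff₀ s0).2 w1)
  have q := sq_le_hs (P - b • ((1 : Mt n) - s⁻¹ • H))
  have e1 : hs P P = tr P ^ 2 - 2 * e2 P := by rw [e2]; ring
  simp only [hs_sub_left, hs_sub_right, hs_smul_left, hs_smul_right, hs_one_left, hs_one_right,
    tr_one, tr_sub, tr_smul, hs_comm H P, e1] at q
  rw [hs_T1]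
  simp only [hs_sub_left, hs_add_right, hs_smul_right, hs_one_left, hs_one_right, tr_sub,
    tr_add, tr_smul, tr_one]
  generalize ‖P - b • ((1 : Mt n) - s⁻¹ • H)‖ ^ 2 = r at q ⊢
  have k5 := mul_le_mul_of_nonneg_left (add_le_add k q) (show 0 ≤ s / (2 * b) by positivity)
  refine sub_nonneg.1 ((sub_nonneg.2 k5).trans_eq ?_)
  field_simp
  ring

end Pool.Agent.MP_29b5d3_an.EX

end MrgPart3

-- ======== part 4: formerly Pool.Agent.MP_29b5d3_an.EX.Rpol
section MrgPart4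

/-! Project EXQ: measurable polar decomposition near the conformal matrices. -/

set_option autoImplicit false

namespace Pool.Agent.MP_29b5d3_an.EX

open MeasureTheory Metric Filter Topology Module Pool.Agent.MP_29b5d3_an.NC
open scoped RealInnerProductSpace ContDiff ENNReal

variable {n : ℕ}

namespace Rpolx

/-- iteration for the square root of `1 - T` -/
noncomputable def it (T : Mt n) : ℕ → Mt n
  | 0 => 0
  | m + 1 => (1 / 2 : ℝ) • (T + it T m * it T m)

/-- `1 - rt T` is the square root of `1 - T` -/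
noncomputable def rt (T : Mt n) : Mt n := limUnder atTop (it T)

theorem norm_half (X : Mt n) : ‖(1 / 2 : ℝ) • X‖ = ‖X‖ / 2 := by
  rw [norm_smul, Real.norm_of_nonneg (by norm_num)]; ring

theorem it_le {T : Mt n} (h : ‖T‖ ≤ 1 / 2) (m : ℕ) : ‖it T m‖ ≤ 1 / 2 := by
  induction m with
  | zero => simp [it]
  | succ m ih =>
    have h1 := norm_add_le T (it T m * it T m)
    have h2 := norm_mul_le (it T m) (it T m)
    rw [it, norm_half]
    nlinarith [norm_nonneg (it T m)]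

theorem it_lim {T : Mt n} (h : ‖T‖ ≤ 1 / 2) : Tendsto (it T) atTop (𝓝 (rt T)) := by
  refine (cauchySeq_of_le_geometric (1 / 2) 1 (by norm_num) fun m => ?_).tendsto_limUnder
  rw [dist_eq_norm]
  induction m with
  | zero => simpa [it] using (it_le h 1).trans (by norm_num)
  | succ m ih =>
    have e : it T (m + 1) - it T (m + 1 + 1) = (1 / 2 : ℝ) • (it T m * (it T m - it T (m + 1)) +
        (it T m - it T (m + 1)) * it T (m + 1)) := by
      rw [it.eq_2 T (m + 1)]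
      nth_rewrite 1 [it.eq_2 T m]
      rw [← smul_sub]
      congr 1
      noncomm_ring
    have h1 := norm_add_le (it T m * (it T m - it T (m + 1))) ((it T m - it T (m + 1)) * it T (m + 1))
    have h2 := norm_mul_le (it T m) (it T m - it T (m + 1))
    have h3 := norm_mul_le (it T m - it T (m + 1)) (it T (m + 1))
    have h4 := it_le h m
    have h5 := it_le h (m + 1)
    rw [e, norm_half, pow_succ]
    nlinarith [norm_nonneg (it T m - it T (m + 1))]

theorem rt_le {T : Mt n} (h : ‖T‖ ≤ 1 / 2) : ‖rt T‖ ≤ 1 / 2 :=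
  le_of_tendsto' (it_lim h).norm (it_le h)

theorem rt_eq {T : Mt n} (h : ‖T‖ ≤ 1 / 2) : rt T = (1 / 2 : ℝ) • (T + rt T * rt T) :=
  tendsto_nhds_unique ((it_lim h).comp (tendsto_add_atTop_nat 1))
    ((tendsto_const_nhds.add ((it_lim h).mul (it_lim h))).const_smul (1 / 2 : ℝ))

theorem rt_sq {T : Mt n} (h : ‖T‖ ≤ 1 / 2) : (1 - rt T) * (1 - rt T) = 1 - T := by
  have h1 : rt T + rt T = T + rt T * rt T := by
    have := rt_eq h
    generalize T + rt T * rt T = Y at this ⊢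
    rw [this]; module
  generalize rt T = P at h1 ⊢
  rw [eq_sub_of_add_eq h1.symm]
  noncomm_ring

theorem rt_star {T : Mt n} (h : ‖T‖ ≤ 1 / 2) (hs : star T = T) : star (rt T) = rt T := by
  have h1 : ∀ m, star (it T m) = it T m := fun m => by
    induction m with
    | zero => simp [it]
    | succ m ih => rw [it, star_smul, star_add, star_mul, ih, hs, star_trivial]
  exact tendsto_nhds_unique ((continuous_star.tendsto _).comp (it_lim h))
    ((it_lim h).congr fun m => (h1 m).symm)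

theorem rt_meas {T : V n → Mt n} (h : ∀ x, ‖T x‖ ≤ 1 / 2) (hT : StronglyMeasurable T) :
    StronglyMeasurable fun x => rt (T x) := by
  refine stronglyMeasurable_of_tendsto atTop (f := fun m x => it (T x) m) (fun m => ?_)
    (tendsto_pi_nhds.2 fun x => it_lim (h x))
  induction m with
  | zero => exact stronglyMeasurable_const
  | succ m ih => exact (hT.add (ih.mul ih)).const_smul (1 / 2 : ℝ)

theorem psd {T : Mt n} (hs : star T = T) {c : ℝ} (hc : 0 ≤ c) (h0 : ∀ v, 0 ≤ ⟪T v, v⟫)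
    (h1 : ∀ v, ⟪T v, v⟫ ≤ c * ‖v‖ ^ 2) : ‖T‖ ≤ c := by
  refine ContinuousLinearMap.opNorm_le_bound _ hc fun a => ?_
  have k : ∀ s : ℝ, 0 ≤ s → 4 * s * ‖T a‖ ^ 2 ≤ c * (s * ‖a‖ + ‖T a‖) ^ 2 := fun s h => by
    have a1 := h0 (s • a - T a)
    have a2 := h1 (s • a + T a)
    have a3 : ⟪T (T a), a⟫ = ‖T a‖ ^ 2 := by
      rw [← inner_star_right, hs, real_inner_self_eq_norm_sq]
    have a4 : ‖s • a + T a‖ ≤ s * ‖a‖ + ‖T a‖ :=
      (norm_add_le _ _).trans (by rw [norm_smul, Real.norm_of_nonneg h])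
    have a5 := mul_le_mul_of_nonneg_left (pow_le_pow_left₀ (norm_nonneg _) a4 2) hc
    simp only [map_add, map_sub, map_smul, inner_add_left, inner_add_right, inner_sub_left,
      inner_sub_right, real_inner_smul_left, real_inner_smul_right, a3,
      real_inner_self_eq_norm_sq] at a1 a2
    linarith
  rcases hc.eq_or_lt with rfl | hc'
  · have := k 1 zero_le_one
    nlinarith [norm_nonneg (T a)]
  · have h2 : (2 * ‖T a‖) ^ 2 ≤ (c * ‖a‖ + ‖T a‖) ^ 2 :=
      le_of_mul_le_mul_left (by nlinarith [k c hc]) hc'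
    have := pow_le_pow_left₀ (by positivity) (le_refl (2 * ‖T a‖)) 2
    have h3 := (pow_le_pow_iff_left₀ (by positivity) (by positivity) two_ne_zero).1 h2
    linarith

theorem det_mul (X Y : Mt n) : (X * Y).det = X.det * Y.det :=
  map_mul LinearMap.det (X : V n →ₗ[ℝ] V n) Y

theorem det_smul (c : ℝ) (X : Mt n) : (c • X).det = c ^ n * X.det := by
  simp [ContinuousLinearMap.det]

/-- the defect of conformality -/
noncomputable def df (X : Mt n) : Mt n := 1 - star (‖X‖⁻¹ • X) * (‖X‖⁻¹ • X)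

theorem df_star (X : Mt n) : star (df X) = df X := by
  rw [df, star_sub, star_one, star_mul, star_star]

theorem orth {X : Mt n} (h : ‖df X‖ ≤ 1 / 2) :
    Orth (‖X‖⁻¹ • X * ∑' i : ℕ, rt (df X) ^ i) := by
  have h1 := mul_neg_geom_series _ ((rt_le h).trans_lt (by norm_num))
  have h2 := congrArg star h1
  have h3 := rt_sq h
  rw [star_mul, star_sub, star_one, rt_star h (df_star X)] at h2
  rw [df, sub_sub_cancel, ← df] at h3
  rw [Orth, star_mul, mul_assoc, ← mul_assoc (star (‖X‖⁻¹ • X)), ← h3, mul_assoc, h1, mul_one, h2]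

theorem good (hn : 1 ≤ n) {X : Mt n} {ε : ℝ} (h0 : 0 ≤ ε) (h1 : ε ≤ 1 / 4) (hq : Qr (1 + ε) X)
    (hX : X ≠ 0) : ‖df X‖ ≤ 1 / 2 ∧ Str (ε / (n * (1 + ε))) (rt (df X)) ∧
      X = ‖X‖ • (‖X‖⁻¹ • X * (∑' i : ℕ, rt (df X) ^ i) * (1 - rt (df X))) := by
  have l0 : 0 < ‖X‖ := norm_pos_iff.2 hX
  have n0 : (0 : ℝ) < n := by exact_mod_cast hn
  have e0 : n * (ε / (n * (1 + ε))) = 1 - (1 + ε)⁻¹ := by field_simp; ring
  have k0 : 4 / 5 ≤ (1 + ε)⁻¹ ∧ (1 + ε)⁻¹ ≤ 1 :=
    ⟨by rw [le_inv_comm₀ (by norm_num) (by linarith)]; linarith, inv_le_one_of_one_le₀ (by linarith)⟩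
  have u1 : ∀ v, ‖(‖X‖⁻¹ • X) v‖ ≤ ‖v‖ ∧ (1 + ε)⁻¹ * ‖v‖ ≤ ‖(‖X‖⁻¹ • X) v‖ := fun v => by
    rw [smul_apply, norm_smul, norm_inv, norm_norm, inv_mul_le_iff₀ l0,
      inv_mul_le_iff₀ (by linarith), mul_left_comm, le_inv_mul_iff₀ l0]
    exact ⟨X.le_opNorm v, hq.lower hn (by linarith) v⟩
  have u2 : ∀ v, ⟪df X v, v⟫ = ‖v‖ ^ 2 - ‖(‖X‖⁻¹ • X) v‖ ^ 2 := fun v => by
    rw [← real_inner_self_eq_norm_sq, ← real_inner_self_eq_norm_sq, ← inner_star_left,
      ← inner_sub_left]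
    rfl
  have u3 : ‖df X‖ ≤ 1 - (1 + ε)⁻¹ ^ 2 := psd (df_star X) (by nlinarith)
    (fun v => by rw [u2]; nlinarith [(u1 v).1, norm_nonneg ((‖X‖⁻¹ • X) v)]) fun v => by
      have := pow_le_pow_left₀ (by positivity) (u1 v).2 2
      rw [u2]
      nlinarith
  have h : ‖df X‖ ≤ 1 / 2 := u3.trans (by nlinarith)
  have h2 := rt_le h
  have e1 : ‖X‖⁻¹ • X * (∑' i : ℕ, rt (df X) ^ i) * (1 - rt (df X)) = ‖X‖⁻¹ • X := by
    rw [mul_assoc, geom_series_mul_neg _ (h2.trans_lt (by norm_num)), mul_one]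
  have e2 : X = ‖X‖ • (‖X‖⁻¹ • X * (∑' i : ℕ, rt (df X) ^ i) * (1 - rt (df X))) := by
    rw [e1, smul_inv_smul₀ l0.ne']
  refine ⟨h, ⟨rt_star h (df_star X), fun v => ?_, ?_, ?_⟩, e2⟩
  · have a1 : ‖(1 - rt (df X)) v‖ ≤ ‖v‖ := by
      rw [← (orth h).norm_apply]
      exact (congrArg (fun Y : Mt n => ‖Y v‖) e1).trans_le (u1 v).1
    have a2 := real_inner_le_norm (v - rt (df X) v) v
    rw [inner_sub_left, real_inner_self_eq_norm_sq] at a2
    change ‖v - rt (df X) v‖ ≤ ‖v‖ at a1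
    nlinarith [norm_nonneg v]
  · have a1 := congrArg norm (rt_eq h)
    have a2 := norm_add_le (df X) (rt (df X) * rt (df X))
    have a3 := norm_mul_le (rt (df X)) (rt (df X))
    rw [norm_half] at a1
    have a4 := (pow_le_pow_iff_left₀ (by linarith) (by linarith) two_ne_zero).1
      (show (1 + ε)⁻¹ ^ 2 ≤ (1 - ‖rt (df X)‖) ^ 2 by nlinarith)
    rw [e0]
    linarith
  · have a1 : 0 ≤ (1 - rt (df X)).det := by
      rw [← rt_sq h2, det_mul]
      exact mul_self_nonneg _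
    have a2 := (le_abs_self _).trans ((abs_det_le _).trans
      (pow_le_one₀ (norm_nonneg _) (orth h).norm_le))
    have a3 := congrArg ContinuousLinearMap.det e2
    rw [det_smul, det_mul] at a3
    have a4 : ‖X‖ ^ n * 1 ≤ ‖X‖ ^ n * ((1 + ε) * (1 - rt (df X)).det) := by
      rw [mul_one, mul_left_comm]
      refine hq.trans (mul_le_mul_of_nonneg_left (a3.trans_le ?_) (by linarith))
      exact mul_le_mul_of_nonneg_left (mul_le_of_le_one_left a1 a2) (by positivity)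
    rw [e0, sub_sub_cancel, inv_le_iff_one_le_mul₀' (by linarith)]
    exact le_of_mul_le_mul_left a4 (by positivity)

end Rpolx

open Rpolx in
theorem pol (h : Bas0 n) : POL n := by
  classical
  intro A hA
  have m1 : StronglyMeasurable fun x => ‖A x‖⁻¹ • A x :=
    hA.norm.measurable.inv.stronglyMeasurable.smul hA
  have m2 : StronglyMeasurable fun x => df (A x) :=
    stronglyMeasurable_const.sub ((continuous_star.comp_stronglyMeasurable m1).mul m1)
  have m3 : MeasurableSet {x | ‖df (A x)‖ ≤ 1 / 2} :=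
    measurableSet_le m2.norm.measurable measurable_const
  have b1 : ∀ x, ‖if ‖df (A x)‖ ≤ 1 / 2 then df (A x) else 0‖ ≤ 1 / 2 := fun x => by
    split_ifs with h1
    exacts [h1, by simp]
  have m4 := rt_meas b1 (m2.ite m3 stronglyMeasurable_const)
  have m5 : StronglyMeasurable fun x =>
      ∑' i : ℕ, rt (if ‖df (A x)‖ ≤ 1 / 2 then df (A x) else 0) ^ i :=
    stronglyMeasurable_of_tendsto atTop
      (fun m => Finset.stronglyMeasurable_fun_sum (Finset.range m) fun i _ => m4.pow i)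
      (tendsto_pi_nhds.2 fun x => (summable_geometric_of_norm_lt_one
        ((rt_le (b1 x)).trans_lt (by norm_num))).hasSum.tendsto_sum_nat)
  have m6 : StronglyMeasurable fun x => if ‖df (A x)‖ ≤ 1 / 2 then ‖A x‖⁻¹ • A x *
      ∑' i : ℕ, rt (if ‖df (A x)‖ ≤ 1 / 2 then df (A x) else 0) ^ i else 1 :=
    (m1.mul m5).ite m3 stronglyMeasurable_const
  refine ⟨_, _, m6, m4, fun x => ?_, fun x ε h0 h1 hq hX => ?_⟩
  · by_cases h1 : ‖df (A x)‖ ≤ 1 / 2
    · simpa only [if_pos h1] using orth h1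
    · simpa only [if_neg h1] using orth_one
  · obtain ⟨g1, g2⟩ := good (le_trans (by norm_num) h.hn) h0 h1 hq hX
    simpa only [if_pos g1] using g2

end Pool.Agent.MP_29b5d3_an.EX

end MrgPart4

-- ======== part 5: formerly Pool.Agent.MP_29b5d3_an.EX.Rrot
section MrgPart5

/-! Project EXQ, row ROT: the divergence of the contracted connection is quadratic. -/

set_option autoImplicit false

namespace Pool.Agent.MP_29b5d3_an.EX

open MeasureTheory Metric Filter Topology Module Pool.Agent.MP_29b5d3_an.NC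
open scoped RealInnerProductSpace ContDiff ENNReal

variable {n : ℕ}

namespace Rrotx

theorem inner_rot (Q : Mt n) (Q' : V n →L[ℝ] Mt n) (y : V n) :
    ⟪y, rot Q Q'⟫ = (1 / 2 : ℝ) * ∑ i, (⟪Q y, Q' (ev i) (ev i)⟫ - ⟪Q' (ev i) y, Q (ev i)⟫) := by
  rw [rot, real_inner_smul_right, inner_sum]
  refine congrArg _ (Finset.sum_congr rfl fun i _ => ?_)
  rw [sub_apply, inner_sub_right, mul_apply_eq_comp, mul_apply_eq_comp, inner_star_right,
    inner_star_right]

theorem ap_le (X : Mt n) (i : Fin n) : ‖X (ev i)‖ ≤ ‖X‖ := by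
  simpa only [norm_ev, mul_one] using X.le_opNorm (ev i)

theorem ap_le' (Q' : V n →L[ℝ] Mt n) (i : Fin n) : ‖Q' (ev i)‖ ≤ ‖Q'‖ := by
  simpa only [norm_ev, mul_one] using Q'.le_opNorm (ev i)

theorem norm_rot (Q : Mt n) (Q' : V n →L[ℝ] Mt n) : ‖rot Q Q'‖ ≤ n * ‖Q‖ * ‖Q'‖ := by
  have k : ∀ i, ‖(star Q * Q' (ev i) - star (Q' (ev i)) * Q) (ev i)‖ ≤ 2 * (‖Q‖ * ‖Q'‖) := by
    intro i
    refine (ap_le _ i).trans ((norm_sub_le _ _).trans ?_)
    have h1 := norm_mul_le (star Q) (Q' (ev i))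
    have h2 := norm_mul_le (star (Q' (ev i))) Q
    rw [norm_star'] at h1 h2
    have h3 := mul_le_mul_of_nonneg_left (ap_le' Q' i) (norm_nonneg Q)
    linarith
  have s := (norm_sum_le _ _).trans (Finset.sum_le_sum fun i (_ : i ∈ Finset.univ) => k i)
  rw [Finset.sum_const, Finset.card_univ, Fintype.card_fin, nsmul_eq_mul] at s
  rw [rot, norm_smul, Real.norm_of_nonneg (by norm_num)]
  linarith

theorem abs_in (A : V n →L[ℝ] Mt n) (i j k l : Fin n) :
    |⟪A (ev i) (ev j), A (ev k) (ev l)⟫| ≤ ‖A‖ ^ 2 := by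
  refine (abs_real_inner_le_norm _ _).trans ?_
  rw [sq]
  exact mul_le_mul ((ap_le _ j).trans (ap_le' A i)) ((ap_le _ l).trans (ap_le' A k))
    (norm_nonneg _) A.opNorm_nonneg

variable {Q : V n → Mt n}

theorem sm_comp (hQ : ContDiff ℝ ∞ Q) (y : V n) :
    ContDiff ℝ ∞ fun x => ⟪y, rot (Q x) (fderiv ℝ Q x)⟫ := by
  have h1 : ContDiff ℝ ∞ (fderiv ℝ Q) := hQ.fderiv_right (by simp)
  have hp : ∀ v, ContDiff ℝ ∞ fun x => Q x v := fun v => hQ.clm_apply contDiff_const
  have hd : ∀ u v, ContDiff ℝ ∞ fun x => fderiv ℝ Q x u v := fun u v =>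
    (h1.clm_apply contDiff_const).clm_apply contDiff_const
  simp only [inner_rot]
  exact contDiff_const.mul (ContDiff.sum fun i _ =>
    ((hp _).inner ℝ (hd _ _)).sub ((hd _ _).inner ℝ (hp _)))

theorem sm (hQ : ContDiff ℝ ∞ Q) : ContDiff ℝ ∞ fun x => rot (Q x) (fderiv ℝ Q x) := by
  have e : (fun x => rot (Q x) (fderiv ℝ Q x)) =
      fun x => ∑ j, ⟪ev j, rot (Q x) (fderiv ℝ Q x)⟫ • ev j := funext fun x => (sum_ev _).symm
  rw [e]
  exact ContDiff.sum fun j _ => (sm_comp hQ _).smul contDiff_const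

theorem der_comp (hQ : ContDiff ℝ ∞ Q) (x y w : V n) :
    ⟪y, fderiv ℝ (fun x => rot (Q x) (fderiv ℝ Q x)) x w⟫ = (1 / 2 : ℝ) * ∑ i,
      ((⟪Q x y, fderiv ℝ (fderiv ℝ Q) x w (ev i) (ev i)⟫ +
        ⟪fderiv ℝ Q x w y, fderiv ℝ Q x (ev i) (ev i)⟫) -
      (⟪fderiv ℝ Q x (ev i) y, fderiv ℝ Q x w (ev i)⟫ +
        ⟪fderiv ℝ (fderiv ℝ Q) x w (ev i) y, Q x (ev i)⟫)) := by
  have h1 : ContDiff ℝ ∞ (fderiv ℝ Q) := hQ.fderiv_right (by simp)
  have d0 := (hQ.differentiable (by simp) x).hasFDerivAt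
  have d1 := (h1.differentiable (by simp) x).hasFDerivAt
  have d2 := ((sm hQ).differentiable (by simp) x).hasFDerivAt
  have hp := fun v => d0.clm_apply (hasFDerivAt_const v x)
  have hd := fun u v => (d1.clm_apply (hasFDerivAt_const u x)).clm_apply (hasFDerivAt_const v x)
  have k1 : HasFDerivAt (fun x => ⟪y, rot (Q x) (fderiv ℝ Q x)⟫)
      ((innerSL ℝ y).comp (fderiv ℝ (fun x => rot (Q x) (fderiv ℝ Q x)) x)) x :=
    (innerSL ℝ y).hasFDerivAt.comp x d2
  have k2 := (HasFDerivAt.fun_sum fun i (_ : i ∈ Finset.univ) =>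
    ((hp y).inner ℝ (hd (ev i) (ev i))).fun_sub ((hd (ev i) y).inner ℝ (hp (ev i)))).const_mul
      (1 / 2 : ℝ)
  simp only [inner_rot] at k1
  have k3 := congrArg (fun T : V n →L[ℝ] ℝ => T w) (k1.unique k2)
  simpa only [ContinuousLinearMap.comp_apply, innerSL_apply_apply, smul_apply,
    sum_apply, sub_apply, fderivInnerCLM_apply,
    ContinuousLinearMap.prod_apply, ContinuousLinearMap.flip_apply, add_apply, zero_apply,
    map_zero, zero_add, smul_eq_mul] using k3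

theorem tr_der (hQ : ContDiff ℝ ∞ Q) (x : V n) :
    tr (fderiv ℝ (fun x => rot (Q x) (fderiv ℝ Q x)) x) = (1 / 2 : ℝ) * ∑ j, ∑ i,
      (⟪fderiv ℝ Q x (ev j) (ev j), fderiv ℝ Q x (ev i) (ev i)⟫ -
        ⟪fderiv ℝ Q x (ev i) (ev j), fderiv ℝ Q x (ev j) (ev i)⟫) := by
  have c2 : ContDiff ℝ 2 Q := hQ.of_le (WithTop.coe_le_coe.2 le_top)
  have sy := (c2.contDiffAt (x := x)).isSymmSndFDerivAt (by simp)
  have e : ∑ j, ∑ i, ⟪Q x (ev j), fderiv ℝ (fderiv ℝ Q) x (ev j) (ev i) (ev i)⟫ =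
      ∑ j, ∑ i, ⟪fderiv ℝ (fderiv ℝ Q) x (ev j) (ev i) (ev j), Q x (ev i)⟫ := by
    rw [Finset.sum_comm]
    refine Finset.sum_congr rfl fun j _ => Finset.sum_congr rfl fun i _ => ?_
    rw [real_inner_comm, sy.eq (ev i) (ev j)]
  rw [tr_eq]
  simp only [der_comp hQ]
  rw [← Finset.mul_sum]
  simp only [Finset.sum_sub_distrib, Finset.sum_add_distrib]
  rw [e]
  ring

end Rrotx

open Rrotx in
theorem rots (h : Bas0 n) (_hC : CFS n) : ROT n := by
  have n0 : (0 : ℝ) ≤ n := n.cast_nonneg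
  refine ⟨(n + 1) ^ 2, by positivity, fun Q hQ =>
    ⟨fun x => -tr (fderiv ℝ (fun x => rot (Q x) (fderiv ℝ Q x)) x), ⟨(sm hQ).continuous,
      (continuous_tr.comp ((sm hQ).continuous_fderiv (by simp))).neg, fun F hF => ?_⟩,
      fun x => ⟨?_, ?_⟩⟩⟩
  · have k := h.avb.dvg F 4 _ _ hF (h.avb.ofC1 _ ((sm hQ).of_le (by simp)))
    simp only [neg_mul]
    rw [integral_neg]
    simp only [mul_comm _ (F _)]
    rw [k, neg_neg]
    refine integral_congr_ae (Eventually.of_forall fun x => ?_)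
    simp only [real_inner_comm (gradient F x), inner_gradient]
  · have k : ∀ j i : Fin n, |⟪fderiv ℝ Q x (ev j) (ev j), fderiv ℝ Q x (ev i) (ev i)⟫ -
        ⟪fderiv ℝ Q x (ev i) (ev j), fderiv ℝ Q x (ev j) (ev i)⟫| ≤ 2 * ‖fderiv ℝ Q x‖ ^ 2 := by
      intro j i
      have h1 := abs_in (fderiv ℝ Q x) j j i i
      have h2 := abs_in (fderiv ℝ Q x) i j j i
      exact (abs_sub _ _).trans (by linarith)
    have s := (Finset.abs_sum_le_sum_abs _ _).trans
      (Finset.sum_le_sum fun j (_ : j ∈ Finset.univ) => (Finset.abs_sum_le_sum_abs _ _).trans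
        (Finset.sum_le_sum fun i (_ : i ∈ Finset.univ) => k j i))
    simp only [Finset.sum_const, Finset.card_univ, Fintype.card_fin, nsmul_eq_mul] at s
    rw [abs_neg, tr_der hQ, abs_mul, abs_of_pos (by norm_num : (0 : ℝ) < 1 / 2)]
    nlinarith [sq_nonneg ‖fderiv ℝ Q x‖, mul_nonneg n0 (sq_nonneg ‖fderiv ℝ Q x‖)]
  · refine (norm_rot _ _).trans ?_
    gcongr
    nlinarith

end Pool.Agent.MP_29b5d3_an.EX

end MrgPart5

-- ======== part 6: formerly Pool.Agent.MP_29b5d3_an.EX.Rch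
section MrgPart6

/-! Project EXQ: the chain lemma. -/

set_option autoImplicit false

namespace Pool.Agent.MP_29b5d3_an.EX

open MeasureTheory Metric Filter Topology Module Pool.Agent.MP_29b5d3_an.NC
open scoped RealInnerProductSpace ContDiff ENNReal

variable {n : ℕ}

namespace Rchx

theorem lip {D : V n → ℝ} (hD : LipschitzWith 1 D) (y z : V n) : D y ≤ D z + dist y z := by
  have := hD.dist_le_mul y z
  rw [Real.dist_eq, NNReal.coe_one, one_mul] at this
  linarith [le_abs_self (D y - D z)]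

theorem mset {D : V n → ℝ} (hD : LipschitzWith 1 D) : MeasurableSet {y | 0 < D y} :=
  measurableSet_lt measurable_const hD.continuous.measurable

/-- weighted Fubini at a Whitney scale -/
theorem wup (h : WF n) : ∃ C : ℝ, 0 < C ∧ ∀ (D : V n → ℝ) (v H : V n → ℝ≥0∞) (K : ℝ≥0∞),
    LipschitzWith 1 D → Measurable v → Measurable H → K ≠ ⊤ →
    (∀ z, 0 < D z → al v z (D z / 8) ≤ K) →
    ∫⁻ y in {y | 0 < D y}, v y * al H y (D y / 8) ≤ ENNReal.ofReal C * (K * ∫⁻ y, H y) := by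
  obtain ⟨C1, c1, hl⟩ := h.low (1 / 8) (by norm_num) (by norm_num)
  obtain ⟨C2, c2, hu⟩ := h.up (1 / 2) (by norm_num) le_rfl
  refine ⟨C1 * (5 ^ n * C2), by positivity, fun D v H K hD hv hH hK hb => ?_⟩
  have mD := hD.continuous.measurable
  have m : Measurable fun y => al H y (D y / 8) :=
    al_meas (F := fun _ y => H y) (hH.comp measurable_snd) measurable_id (mD.div_const 8)
  have k : ∀ z ∈ {z | 0 < D z}, al (fun y => v y * al H y (D y / 8)) z (1 / 8 * D z) ≤
      ENNReal.ofReal (5 ^ n) * K * al H z (1 / 2 * D z) := fun z hz => by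
    have hz : 0 < D z := hz
    have k1 : ∀ y ∈ ball z (1 / 8 * D z), v y * al H y (D y / 8) ≤
        ENNReal.ofReal (5 ^ n) * al H z (1 / 2 * D z) * v y := fun y hy => by
      have a1 := lip hD y z
      have a2 := lip hD z y
      rw [dist_comm z y] at a2
      rw [mem_ball] at hy
      rw [mul_comm]
      refine mul_le_mul_left (al_sub H (by linarith) (ball_subset_ball' (by linarith))
        (by linarith)) _
    refine (al_mono k1).trans ?_
    rw [al_const_mul' _ hv, mul_right_comm, show 1 / 8 * D z = D z / 8 by ring]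
    exact mul_le_mul_left (mul_le_mul_right (hb z hz) _) _
  refine (hl D _ hD (hv.mul m)).trans ?_
  refine (mul_le_mul_right (setLIntegral_mono' (mset hD) k) _).trans ?_
  rw [lintegral_const_mul' _ _ (ENNReal.mul_ne_top ENNReal.ofReal_ne_top hK),
    ENNReal.ofReal_mul c1.le, ENNReal.ofReal_mul (by positivity), mul_assoc (ENNReal.ofReal C1)]
  refine mul_le_mul_right ?_ _
  refine (mul_le_mul_right ((hu D H hD hH).trans
    (mul_le_mul_right (setLIntegral_le_lintegral _ _) _)) _).trans_eq ?_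
  ring

variable {E : Type} [NormedAddCommGroup E] {g : V n → E}

theorem mloc (hg : StronglyMeasurable g) {D : V n → ℝ} (hD : LipschitzWith 1 D) :
    Measurable fun y => al (fun y' => ‖g y - g y'‖ₑ ^ 2) y (D y / 8) :=
  al_meas (F := fun y y' => ‖g y - g y'‖ₑ ^ 2) (meas_sq2 hg) measurable_id
    (hD.continuous.measurable.div_const 8)

/-- the local oscillation is bounded by the double average -/
theorem loc (h : WF n) : ∃ C : ℝ, 0 < C ∧ ∀ (E : Type) [NormedAddCommGroup E] (g : V n → E)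
    (D w : V n → ℝ), LipschitzWith 1 D → StronglyMeasurable g → Measurable w →
    ∫⁻ y in {y | 0 < D y}, ENNReal.ofReal (w y) * al (fun y' => ‖g y - g y'‖ₑ ^ 2) y (D y / 8) ≤
      ENNReal.ofReal C * ∫⁻ z in {z | 0 < D z}, wav w g z (D z / 4) := by
  obtain ⟨C1, c1, hl⟩ := h.low (1 / 4) (by norm_num) (by norm_num)
  refine ⟨C1 * 6 ^ n, by positivity, fun E _ g D w hD hg hw => ?_⟩
  have k : ∀ z ∈ {z | 0 < D z}, al (fun y => ENNReal.ofReal (w y) *
      al (fun y' => ‖g y - g y'‖ₑ ^ 2) y (D y / 8)) z (1 / 4 * D z) ≤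
      ENNReal.ofReal (6 ^ n) * wav w g z (D z / 4) := fun z hz => by
    have hz : 0 < D z := hz
    rw [wav, ← al_const_mul ENNReal.ofReal_ne_top, show 1 / 4 * D z = D z / 4 by ring]
    refine al_mono fun y hy => ?_
    have a1 := lip hD y z
    have a2 := lip hD z y
    rw [dist_comm z y] at a2
    rw [mem_ball] at hy
    rw [mul_left_comm]
    exact mul_le_mul_right (al_sub _ (by linarith) (ball_subset_ball' (by linarith))
      (by linarith)) _
  refine (hl D _ hD (hw.ennreal_ofReal.mul (mloc hg hD))).trans ?_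
  refine (mul_le_mul_right (setLIntegral_mono' (mset hD) k) _).trans_eq ?_
  rw [lintegral_const_mul' _ _ ENNReal.ofReal_ne_top, ENNReal.ofReal_mul c1.le, mul_assoc]

/-- the triangle inequality through a small ball -/
theorem spl (hg : StronglyMeasurable g) {z y : V n} {r ρ : ℝ} (hr : 0 < r) (hρ : 0 < ρ)
    (hs : ball y ρ ⊆ ball z r) :
    al (fun y' => ‖g y - g y'‖ₑ ^ 2) z r ≤ 2 * al (fun x => ‖g y - g x‖ₑ ^ 2) y ρ +
      2 * ENNReal.ofReal (vb n)⁻¹ *
        al ((ball z r).indicator fun x => al (fun y' => ‖g x - g y'‖ₑ ^ 2) z r) y ρ := by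
  have m : Measurable fun x => ‖g y - g x‖ₑ ^ 2 :=
    (stronglyMeasurable_const.sub hg).enorm.pow_const 2
  have k : ∀ x ∈ ball y ρ, al (fun y' => ‖g y - g y'‖ₑ ^ 2) z r ≤
      2 * ENNReal.ofReal (vb n) * ‖g y - g x‖ₑ ^ 2 +
        2 * (ball z r).indicator (fun x => al (fun y' => ‖g x - g y'‖ₑ ^ 2) z r) x := fun x hx => by
    refine (al_mono fun y' _ => enorm_sq_le (g y) (g y') (g x)).trans_eq ?_
    rw [al_add_left measurable_const, al_const _ z hr, al_const_mul ENNReal.ofNat_ne_top,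
      Set.indicator_of_mem (hs hx), mul_right_comm]
    simp only [enorm_sub_rev (g x)]
  have k2 := al_mono k
  rw [al_const _ y hρ, al_add_left (m.const_mul _), al_const_mul' _ m,
    al_const_mul ENNReal.ofNat_ne_top] at k2
  have e : ENNReal.ofReal (vb n) * ENNReal.ofReal (vb n)⁻¹ = 1 := by
    rw [← ENNReal.ofReal_mul vb_pos.le, mul_inv_cancel₀ vb_pos.ne', ENNReal.ofReal_one]
  refine le_trans ?_ ((mul_le_mul_left k2 (ENNReal.ofReal (vb n)⁻¹)).trans_eq ?_)
  · rw [mul_assoc, e, mul_one]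
  · rw [add_mul, mul_right_comm, mul_assoc 2, e, mul_one, mul_right_comm]

theorem pos_iff {U : Set (V n)} (hU : IsOpen U) (h0 : Uᶜ.Nonempty) :
    {x | 0 < infDist x Uᶜ} = U :=
  Set.ext fun _ => ((hU.isClosed_compl.notMem_iff_infDist_pos h0).symm.trans not_not)

theorem compl_ne (hn : 3 ≤ n) {U : Set (V n)} (h : U ⊆ ball 0 3) : Uᶜ.Nonempty := by
  refine ⟨(3 : ℝ) • ev ⟨0, by omega⟩, fun hx => ?_⟩
  have := h hx
  rw [mem_ball_zero_iff, norm_smul, norm_ev] at this
  norm_num at this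

end Rchx

open Rchx in
theorem ch (h : Bas1 n) : CH n := by
  obtain ⟨C1, c1, h1⟩ := wup h.wf
  obtain ⟨C2, c2, h2⟩ := loc h.wf
  obtain ⟨C3, c3, h3⟩ := h.wf.up (1 / 4) (by norm_num) (by norm_num)
  intro C₀ η c0 hη
  refine ⟨(1 + 2 * C3 * C2 / η) ^ 4, fun Λ hΛ => ?_⟩
  obtain ⟨W, hW⟩ : ∃ W, W = ENNReal.ofReal (wt (4 * Λ ^ 2)) := ⟨_, rfl⟩
  obtain ⟨K, hK⟩ : ∃ K, K = W * (ENNReal.ofReal (16 ^ n) * ENNReal.ofReal C₀) := ⟨_, rfl⟩
  obtain ⟨X, hX⟩ : ∃ X, X = W * ENNReal.ofReal (2 ^ n) + 2 * ENNReal.ofReal (vb n)⁻¹ *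
    (ENNReal.ofReal C1 * K * ENNReal.ofReal (2 ^ n)) := ⟨_, rfl⟩
  have W0 : W ≠ ⊤ := by rw [hW]; finiteness
  have K0 : K ≠ ⊤ := by rw [hK]; finiteness
  have X0 : X ≠ ⊤ := by rw [hX]; finiteness
  refine ⟨X.toReal + 1, by positivity, fun E _ g O σ s k hg hN => ?_⟩
  have XC : X ≤ ENNReal.ofReal (X.toReal + 1) :=
    (ENNReal.ofReal_toReal X0).ge.trans (ENNReal.ofReal_le_ofReal (by linarith))
  have ne : ∀ j, (O j)ᶜ.Nonempty := fun j =>
    compl_ne h.hn ((hN.anti (Nat.zero_le j)).trans hN.sub)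
  have s0 := hN.pos k
  have s1 := hN.pos (k + 1)
  obtain ⟨t, ht⟩ : ∃ t, t = wt (σ (k + 1) / σ k) := ⟨_, rfl⟩
  have t0 : 0 ≤ t := ht ▸ wt_nonneg _
  have tW : ENNReal.ofReal t ≤ W := by
    rw [ht, hW]
    exact ENNReal.ofReal_le_ofReal (wt_mono ((div_le_iff₀ s0).2 (hN.up k)))
  have t4 : t ^ 4 * σ k = σ (k + 1) := by
    rw [ht, wt_pow4 (by positivity), div_mul_cancel₀ _ s0.ne']
  have tη : σ k * (2 * C3 * C2 * t) ≤ η * σ (k + 1) := by
    have a1 : (1 + 2 * C3 * C2 / η) ^ 4 ≤ t ^ 4 :=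
      hΛ.trans (le_of_mul_le_mul_right (t4 ▸ hN.low k) s0)
    have a2 : 1 + 2 * C3 * C2 / η ≤ t := le_of_pow_le_pow_left₀ four_ne_zero t0 a1
    have a0 : 0 < 2 * C3 * C2 / η := by positivity
    have a3 : 2 * C3 * C2 ≤ t * η := (div_le_iff₀ hη).1 (by linarith)
    have a4 : t ^ 2 ≤ t ^ 4 := pow_le_pow_right₀ (by linarith) (by norm_num)
    rw [← t4]
    calc σ k * (2 * C3 * C2 * t) ≤ σ k * (t * η * t) := by gcongr
      _ = η * (t ^ 2 * σ k) := by ring
      _ ≤ _ := by gcongr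
  have ew : ∀ y, ENNReal.ofReal (wt (s y / σ k)) =
      ENNReal.ofReal t * ENNReal.ofReal (wt (s y / σ (k + 1))) := fun y => by
    rw [← ENNReal.ofReal_mul t0, ht, ← wt_mul (by positivity)]
    congr 2
    field_simp
  have mw : ∀ j, Measurable fun y => wt (s y / σ j) := fun j =>
    continuous_wt.measurable.comp (hN.ms.div_const _)
  have ld : ∀ j, LipschitzWith 1 fun x => infDist x (O j)ᶜ := fun j => lipschitz_infDist_pt _
  have ps : ∀ j, {x | 0 < infDist x (O j)ᶜ} = O j := fun j => pos_iff (hN.opn j) (ne j)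
  have mO : ∀ j, MeasurableSet (O j) := fun j => (hN.opn j).measurableSet
  have hb : ∀ z, 0 < infDist z (O (k + 1))ᶜ →
      al (fun y => ENNReal.ofReal (wt (s y / σ k))) z (infDist z (O (k + 1))ᶜ / 8) ≤ K := by
    intro z hz
    obtain ⟨x, hx, e⟩ := (hN.opn (k + 1)).isClosed_compl.exists_infDist_eq_dist (ne _) z
    simp only [ew]
    rw [al_const_mul ENNReal.ofReal_ne_top, hK]
    refine mul_le_mul' tW ((al_sub _ (z := x) (r := 2 * infDist z (O (k + 1))ᶜ) (c := 16)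
      (by linarith) (ball_subset_ball' (by linarith)) (by linarith)).trans ?_)
    exact mul_le_mul_right (hN.avg _ x hx _ (by linarith)) _
  obtain ⟨G, hG⟩ : ∃ G, G = (O (k + 1)).indicator fun y => ENNReal.ofReal (wt (s y / σ k)) *
    al (fun y' => ‖g y - g y'‖ₑ ^ 2) y (infDist y (O (k + 1))ᶜ / 8) := ⟨_, rfl⟩
  have mG : Measurable G := hG ▸ ((mw k).ennreal_ofReal.mul (mloc hg (ld _))).indicator (mO _)
  have key : ∀ z ∈ O k, wav (fun y => wt (s y / σ k)) g z (infDist z (O k)ᶜ / 4) ≤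
      X * dav g z (infDist z (O k)ᶜ / 2) + 2 * al G z (1 / 4 * infDist z (O k)ᶜ) := by
    intro z hz
    obtain ⟨d, hd⟩ : ∃ d, d = infDist z (O k)ᶜ := ⟨_, rfl⟩
    have d0 : 0 < d := hd ▸ (ps k).ge hz
    obtain ⟨A, hA⟩ : ∃ A, A = fun x => al (fun y' => ‖g x - g y'‖ₑ ^ 2) z (d / 2) := ⟨_, rfl⟩
    have mA : Measurable A := hA ▸ inner_meas' hg z _
    obtain ⟨M, hM⟩ : ∃ M, M = (O (k + 1)).indicator fun y => ENNReal.ofReal (wt (s y / σ k)) *
      al ((ball z (d / 2)).indicator A) y (infDist y (O (k + 1))ᶜ / 8) := ⟨_, rfl⟩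
    have eA : dav g z (d / 2) = al A z (d / 2) := by rw [hA, dav]
    have p1 : ∀ y ∈ ball z (d / 4), ENNReal.ofReal (wt (s y / σ k)) * A y ≤
        W * A y + (2 * G y + 2 * ENNReal.ofReal (vb n)⁻¹ * M y) := by
      intro y hy
      by_cases hy1 : y ∈ O (k + 1)
      · have e0 : 0 < infDist y (O (k + 1))ᶜ := (ps _).ge hy1
        have e1 : infDist y (O (k + 1))ᶜ ≤ infDist y (O k)ᶜ := infDist_le_infDist_of_subset
          (Set.compl_subset_compl.2 (hN.anti k.le_succ)) (ne k)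
        have e2 := lip (ld k) y z
        rw [mem_ball] at hy
        have e3 := spl hg (z := z) (y := y) (r := d / 2) (ρ := infDist y (O (k + 1))ᶜ / 8)
          (by linarith) (by linarith) (ball_subset_ball' (by linarith))
        refine le_add_left ?_
        rw [hG, hM, Set.indicator_of_mem hy1, Set.indicator_of_mem hy1, hA]
        refine (mul_le_mul_right e3 _).trans_eq ?_
        ring
      · refine le_add_right (mul_le_mul_left ?_ _)
        rw [hW]
        exact ENNReal.ofReal_le_ofReal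
          (wt_mono ((div_le_iff₀ s0).2 ((hN.sle _ y hy1).trans (hN.up k))))
    have p2 : al A z (d / 4) ≤ ENNReal.ofReal (2 ^ n) * al A z (d / 2) :=
      al_sub A (by linarith) (ball_subset_ball (by linarith)) (by linarith)
    have p3 : al M z (d / 4) ≤
        ENNReal.ofReal C1 * K * ENNReal.ofReal (2 ^ n) * al A z (d / 2) := by
      have q := h1 _ _ _ K (ld (k + 1)) (mw k).ennreal_ofReal
        (mA.indicator (measurableSet_ball (x := z) (ε := d / 2))) K0 hb
      rw [ps, ← lintegral_indicator (mO _), ← hM, lintegral_indicator measurableSet_ball,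
        lint_eq A z (by linarith : 0 < d / 2), show d / 2 = d / 4 * 2 by ring, mul_pow,
        ENNReal.ofReal_mul (by positivity), show d / 4 * 2 = d / 2 by ring] at q
      refine al_le_of_lint (by linarith) ((setLIntegral_le_lintegral _ _).trans (q.trans_eq ?_))
      ring
    rw [← hd, wav, show 2 * (d / 4) = d / 2 by ring, show 1 / 4 * d = d / 4 by ring, eA]
    refine le_trans (le_of_eq (by rw [hA])) ((al_mono p1).trans ?_)
    rw [al_add_left (mA.const_mul _), al_add_left (mG.const_mul _), al_const_mul W0,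
      al_const_mul ENNReal.ofNat_ne_top, al_const_mul (by finiteness), hX]
    refine (add_le_add (mul_le_mul_right p2 _)
      (add_le_add le_rfl (mul_le_mul_right p3 _))).trans_eq ?_
    ring
  have q1 := h3 _ G (ld k) mG
  have q2 := h2 E g _ _ (ld (k + 1)) hg (mw k)
  rw [ps] at q1 q2
  rw [← lintegral_indicator (mO _), ← hG] at q2
  have q3 : ∀ z r, wav (fun y => wt (s y / σ k)) g z r =
      ENNReal.ofReal t * wav (fun y => wt (s y / σ (k + 1))) g z r := fun z r => by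
    simp only [wav, ew, mul_assoc]
    rw [al_const_mul ENNReal.ofReal_ne_top]
  simp only [q3] at q2
  rw [lintegral_const_mul' _ _ ENNReal.ofReal_ne_top] at q2
  have q4 := setLIntegral_mono' (μ := volume) (mO k) key
  rw [lintegral_add_left ((dav_meas hg ((ld k).continuous.measurable.div_const 2)).const_mul _),
    lintegral_const_mul' _ _ X0, lintegral_const_mul' _ _ ENNReal.ofNat_ne_top] at q4
  have q5 := q1.trans (mul_le_mul_right ((setLIntegral_le_lintegral _ _).trans q2) _)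
  have q6 := ENNReal.ofReal_le_ofReal tη
  rw [ENNReal.ofReal_mul s0.le, ENNReal.ofReal_mul (by positivity),
    ENNReal.ofReal_mul (by positivity), ENNReal.ofReal_mul zero_le_two, ENNReal.ofReal_ofNat,
    ENNReal.ofReal_mul hη.le] at q6
  rw [TT, TT, NN, add_comm, ← mul_assoc (ENNReal.ofReal η)]
  refine (mul_le_mul_right (q4.trans (add_le_add le_rfl (mul_le_mul_right q5 _))) _).trans ?_
  rw [mul_add]
  refine add_le_add ?_ (le_trans (le_of_eq ?_) (mul_le_mul_left q6 _))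
  · rw [mul_left_comm]
    exact mul_le_mul_left XC _
  · ring

end Pool.Agent.MP_29b5d3_an.EX

end MrgPart6

-- ======== part 7: formerly Pool.Agent.MP_29b5d3_an.EX.Rloc1
section MrgPart7

/-! Project EXQ, row LOC1: the oscillation at small scales from the fine estimate. -/

set_option autoImplicit false

namespace Pool.Agent.MP_29b5d3_an.EX

open MeasureTheory Metric Filter Topology Module Pool.Agent.MP_29b5d3_an.NC
open scoped RealInnerProductSpace ContDiff ENNReal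

variable {n : ℕ}

namespace Loc1x

theorem five {t C a b c e e' : ℝ} (t0 : 0 ≤ t) (h : t ≤ C * (a + b + c) + e + e') :
    t ^ 2 ≤ 5 * (C ^ 2 + 1) * (a ^ 2 + e ^ 2) + 5 * C ^ 2 * b ^ 2 +
      5 * (C ^ 2 + 1) * (c ^ 2 + e' ^ 2) := by
  have h1 : t ^ 2 ≤ (C * a + C * b + C * c + e + e') ^ 2 := by
    apply pow_le_pow_left₀ t0
    linarith
  have h2 : (C * a + C * b + C * c + e + e') ^ 2 ≤
      5 * ((C * a) ^ 2 + (C * b) ^ 2 + (C * c) ^ 2 + e ^ 2 + e' ^ 2) := by
    nlinarith [sq_nonneg (C * a - C * b), sq_nonneg (C * a - C * c), sq_nonneg (C * a - e),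
      sq_nonneg (C * a - e'), sq_nonneg (C * b - C * c), sq_nonneg (C * b - e),
      sq_nonneg (C * b - e'), sq_nonneg (C * c - e), sq_nonneg (C * c - e'), sq_nonneg (e - e')]
  nlinarith [sq_nonneg a, sq_nonneg c, sq_nonneg (C * e), sq_nonneg (C * e')]

theorem esq {E : Type} [NormedAddCommGroup E] (v : E) : ‖v‖ₑ ^ 2 = ENNReal.ofReal (‖v‖ ^ 2) := by
  rw [← ofReal_norm, ENNReal.ofReal_pow (norm_nonneg _)]

theorem point {E F : Type} [NormedAddCommGroup E] [NormedAddCommGroup F] {u : E}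
    {a a' x x' : F} {C e e' : ℝ} (hC : 0 ≤ C) (h : ‖u‖ ≤ C * ‖a - a'‖ + e + e') :
    ‖u‖ₑ ^ 2 ≤ ENNReal.ofReal (5 * (C ^ 2 + 1)) * (‖a - x‖ₑ ^ 2 + ENNReal.ofReal (e ^ 2)) +
      ENNReal.ofReal (5 * C ^ 2) * ‖x - x'‖ₑ ^ 2 +
      ENNReal.ofReal (5 * (C ^ 2 + 1)) * (‖a' - x'‖ₑ ^ 2 + ENNReal.ofReal (e' ^ 2)) := by
  have h1 : ‖a - a'‖ ≤ ‖a - x‖ + ‖x - x'‖ + ‖a' - x'‖ := by
    have : a - a' = (a - x) + (x - x') - (a' - x') := by abel
    rw [this]
    exact (norm_sub_le _ _).trans (add_le_add_left (norm_add_le _ _) _)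
  have h2 := five (norm_nonneg u)
    (h.trans (by gcongr : _ ≤ C * (‖a - x‖ + ‖x - x'‖ + ‖a' - x'‖) + e + e'))
  rw [esq, esq, esq, esq, ← ENNReal.ofReal_add (by positivity) (by positivity),
    ← ENNReal.ofReal_add (by positivity) (by positivity), ← ENNReal.ofReal_mul (by positivity),
    ← ENNReal.ofReal_mul (by positivity), ← ENNReal.ofReal_mul (by positivity),
    ← ENNReal.ofReal_add (by positivity) (by positivity),
    ← ENNReal.ofReal_add (by positivity) (by positivity)]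
  exact ENNReal.ofReal_le_ofReal h2

theorem dav_bd {E : Type} [NormedAddCommGroup E] {g : V n → E} {F : V n → ℝ≥0∞}
    (hF : Measurable F) {K B : ℝ≥0∞} {x : V n} {r : ℝ} (hr : 0 < r)
    (h : ∀ y ∈ ball x r, ∀ y' ∈ ball x r, ‖g y - g y'‖ₑ ^ 2 ≤ K * F y + B + K * F y') :
    dav g x r ≤ 2 * ENNReal.ofReal (vb n) * K * al F x r +
      ENNReal.ofReal (vb n) * ENNReal.ofReal (vb n) * B := by
  refine (al_mono fun y hy => al_mono fun y' hy' => h y hy y' hy').trans_eq ?_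
  have e1 : ∀ y, al (fun y' => K * F y + B + K * F y') x r =
      (ENNReal.ofReal (vb n) * K) * F y + (B * ENNReal.ofReal (vb n) + K * al F x r) := fun y => by
    rw [al_add_left measurable_const, al_const _ x hr, al_const_mul' _ hF]
    ring
  simp only [e1]
  rw [al_add_right _ measurable_const, al_const _ x hr, al_const_mul' _ hF]
  ring

end Loc1x

open Loc1x in
theorem loc1 (h : Bas1 n) (hF : FINE n) : LOC1 n := by
  intro C₁ hC₁
  obtain ⟨Cf, hCf, hf⟩ := hF
  obtain ⟨Cu, hCu, hu⟩ := h.wf.up (1 / 2) (by norm_num) le_rfl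
  have hv : 0 < vb n := vb_pos
  refine ⟨2 * vb n * (5 * (C₁ ^ 2 + 1)) * (Cu * (Cf + 1)) + vb n * vb n * (5 * C₁ ^ 2 * Cf),
    by positivity, fun E _ g Ξ e D z ρ η U _ hΞ he hρ hη hU hUz hD hx hy => ?_⟩
  obtain ⟨X, hX, h1, h2⟩ := hf Ξ e z ρ hΞ he hρ fun y hy' => ⟨(hy y hy').1, (hy y hy').2.1⟩
  have m1 : Measurable fun y => ‖Ξ y - X y‖ₑ ^ 2 := (hΞ.meas.sub hX).enorm.pow_const 2
  have m2 : Measurable fun y => ENNReal.ofReal (e y ^ 2) := (he.pow_const 2).ennreal_ofReal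
  set F : V n → ℝ≥0∞ :=
    (ball z (2 * ρ)).indicator fun y => ‖Ξ y - X y‖ₑ ^ 2 + ENNReal.ofReal (e y ^ 2) with hFd
  have mF : Measurable F := (m1.add m2).indicator measurableSet_ball
  set A := al (fun y => ‖Ξ y‖ₑ ^ 2) z (4 * ρ) with hA
  set I := ∫⁻ y in ball z (4 * ρ), ENNReal.ofReal (e y ^ 2) with hI
  have s24 : ball z (2 * ρ) ⊆ ball z (4 * ρ) := ball_subset_ball (by linarith)
  have key : ∀ x ∈ U, dav g x (D x / 2) ≤
      2 * ENNReal.ofReal (vb n) * ENNReal.ofReal (5 * (C₁ ^ 2 + 1)) * al F x (1 / 2 * D x) +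
        ENNReal.ofReal (vb n) * ENNReal.ofReal (vb n) *
          (ENNReal.ofReal (5 * C₁ ^ 2) * (ENNReal.ofReal (Cf * η ^ 2) * A)) := by
    intro x hxU
    obtain ⟨d0, d1⟩ := hx x hxU
    rw [show 1 / 2 * D x = D x / 2 by ring]
    have sub : ball x (D x / 2) ⊆ ball z (2 * ρ) := by
      refine ball_subset_ball' ?_
      have := mem_ball.1 (hUz hxU)
      nlinarith
    refine dav_bd mF (by linarith) fun y hy1 y' hy2 => ?_
    rw [hFd, Set.indicator_of_mem (sub hy1), Set.indicator_of_mem (sub hy2)]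
    refine (point (x := X y) (x' := X y') hC₁.le
      ((hy y (s24 (sub hy1))).2.2 y' (s24 (sub hy2)))).trans ?_
    gcongr
    refine (h2 y (sub hy1) y' (sub hy2)).trans ?_
    have a1 : ‖y - y'‖ ≤ η * ρ := by
      rw [← dist_eq_norm]
      have := dist_triangle_right y y' x
      have := mem_ball.1 hy1
      have := mem_ball.1 hy2
      linarith
    have a2 : (‖y - y'‖ / ρ) ^ 2 ≤ η ^ 2 :=
      pow_le_pow_left₀ (by positivity) ((div_le_iff₀ hρ).2 a1) 2
    gcongr
  have hint : ∫⁻ x in U, al F x (1 / 2 * D x) ≤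
      ENNReal.ofReal Cu * (ENNReal.ofReal (Cf + 1) * I) := by
    refine (lintegral_mono_set fun x hxU => (hx x hxU).1).trans ((hu D F hD mF).trans ?_)
    gcongr
    refine (setLIntegral_le_lintegral _ _).trans ?_
    rw [hFd, lintegral_indicator measurableSet_ball, lintegral_add_left m1,
      ENNReal.ofReal_add hCf.le zero_le_one, add_mul, ENNReal.ofReal_one, one_mul]
    exact add_le_add h1 (lintegral_mono_set s24)
  refine (setLIntegral_mono' hU key).trans ?_
  rw [lintegral_add_right _ measurable_const, setLIntegral_const,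
    lintegral_const_mul' _ _ (by finiteness)]
  have b1 : 2 * ENNReal.ofReal (vb n) * ENNReal.ofReal (5 * (C₁ ^ 2 + 1)) *
      (ENNReal.ofReal Cu * (ENNReal.ofReal (Cf + 1) * I)) =
      ENNReal.ofReal (2 * vb n * (5 * (C₁ ^ 2 + 1)) * (Cu * (Cf + 1))) * I := by
    rw [ENNReal.ofReal_mul (p := 2 * vb n * (5 * (C₁ ^ 2 + 1))) (by positivity),
      ENNReal.ofReal_mul (p := 2 * vb n) (by positivity),
      ENNReal.ofReal_mul (p := 2) (by norm_num), ENNReal.ofReal_mul hCu.le, ENNReal.ofReal_ofNat]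
    ring
  have b2 : ENNReal.ofReal (vb n) * ENNReal.ofReal (vb n) *
      (ENNReal.ofReal (5 * C₁ ^ 2) * (ENNReal.ofReal (Cf * η ^ 2) * A)) * volume U =
      ENNReal.ofReal (vb n * vb n * (5 * C₁ ^ 2 * Cf)) *
        (ENNReal.ofReal (η ^ 2) * volume U * A) := by
    rw [ENNReal.ofReal_mul (p := vb n * vb n) (by positivity), ENNReal.ofReal_mul hv.le,
      ENNReal.ofReal_mul (p := 5 * C₁ ^ 2) (by positivity), ENNReal.ofReal_mul hCf.le]
    ring
  rw [b2, ENNReal.ofReal_add (by positivity) (by positivity), add_mul]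
  refine add_le_add ((mul_le_mul_right hint _).trans (b1.le.trans ?_)) ?_
  · exact mul_le_mul_right le_add_self _
  · exact mul_le_mul_right le_self_add _

end Pool.Agent.MP_29b5d3_an.EX

end MrgPart7

-- ======== part 8: formerly Pool.Agent.MP_29b5d3_an.EX.Rosc
section MrgPart8

/-! Project EXQ, row OSC: summation of the two recursions. -/

set_option autoImplicit false

namespace Pool.Agent.MP_29b5d3_an.EX

open MeasureTheory Metric Filter Topology Module Pool.Agent.MP_29b5d3_an.NC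
open scoped RealInnerProductSpace ContDiff ENNReal

variable {n : ℕ}

namespace Oscx

theorem absorb {x y : ℝ≥0∞} (hx : x ≠ ⊤) (h : x ≤ 2⁻¹ * x + y) : x ≤ 2 * y := by
  have e : 2⁻¹ * x + 2⁻¹ * x = x := by rw [← add_mul, ENNReal.inv_two_add_inv_two, one_mul]
  have k : 2⁻¹ * x ≤ y :=
    ENNReal.le_of_add_le_add_left (ENNReal.mul_ne_top (by simp) hx) (e.le.trans h)
  calc x = 2⁻¹ * x + 2⁻¹ * x := e.symm
    _ ≤ y + y := add_le_add k k
    _ = 2 * y := (two_mul y).symm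

theorem seq (N T Z : ℕ → ℝ≥0∞) (K : ℕ) (a c β : ℝ≥0∞) (ha : a ≠ ⊤) (hN : ∀ k, N k ≠ ⊤)
    (hT : T K = 0) (h1 : ∀ k, T k ≤ 2⁻¹ * T (k + 1) + a * N k)
    (h2 : ∀ k, N (k + 1) ≤ 4⁻¹ * N k + β * (N k + T k) + c * Z k) (hβ : β * (1 + 2 * a) ≤ 4⁻¹) :
    ∑ k ∈ Finset.range K, (N k + T k) ≤
      (1 + 2 * a) * (2 * (N 0 + c * ∑ k ∈ Finset.range K, Z k)) := by
  have fT : ∀ k, k ≤ K → T k ≠ ⊤ := fun k hk => by
    induction hk using Nat.decreasingInduction with
    | self => simp [hT]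
    | of_succ k _ ih =>
      exact ne_top_of_le_ne_top (ENNReal.add_ne_top.2
        ⟨ENNReal.mul_ne_top (by simp) ih, ENNReal.mul_ne_top ha (hN k)⟩) (h1 k)
  have sT : ∑ k ∈ Finset.range K, T k ≠ ⊤ :=
    ENNReal.sum_ne_top.2 fun k hk => fT k (Finset.mem_range.1 hk).le
  have sN : ∑ k ∈ Finset.range K, N k ≠ ⊤ := ENNReal.sum_ne_top.2 fun k _ => hN k
  have shT : ∑ k ∈ Finset.range K, T (k + 1) ≤ ∑ k ∈ Finset.range K, T k := by
    calc _ ≤ ∑ k ∈ Finset.range K, T (k + 1) + T 0 := le_self_add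
      _ = _ := by rw [← Finset.sum_range_succ', Finset.sum_range_succ, hT, add_zero]
  have shN : ∑ k ∈ Finset.range K, N k ≤ ∑ k ∈ Finset.range K, N (k + 1) + N 0 := by
    rw [← Finset.sum_range_succ', Finset.sum_range_succ]
    exact le_self_add
  have bT : ∑ k ∈ Finset.range K, T k ≤ 2 * (a * ∑ k ∈ Finset.range K, N k) := by
    refine absorb sT ((Finset.sum_le_sum fun k _ => h1 k).trans ?_)
    rw [Finset.sum_add_distrib, ← Finset.mul_sum, ← Finset.mul_sum]
    gcongr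
  have bS : ∑ k ∈ Finset.range K, (N k + T k) ≤ (1 + 2 * a) * ∑ k ∈ Finset.range K, N k := by
    rw [Finset.sum_add_distrib, add_mul, one_mul, mul_assoc]
    gcongr
  have q : (4⁻¹ : ℝ≥0∞) + 4⁻¹ = 2⁻¹ := by
    rw [← two_mul, show (4 : ℝ≥0∞) = 2 * 2 by norm_num, ENNReal.mul_inv (by simp) (by simp),
      ← mul_assoc, ENNReal.mul_inv_cancel (by simp) (by simp), one_mul]
  refine bS.trans (mul_le_mul_right (absorb sN (shN.trans ?_)) _)
  refine (add_le_add_left (Finset.sum_le_sum fun k _ => h2 k) _).trans ?_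
  rw [Finset.sum_add_distrib, Finset.sum_add_distrib, ← Finset.mul_sum, ← Finset.mul_sum,
    ← Finset.mul_sum, ← q, add_mul]
  have k : β * ∑ k ∈ Finset.range K, (N k + T k) ≤ 4⁻¹ * ∑ k ∈ Finset.range K, N k := by
    refine (mul_le_mul_right bS _).trans ?_
    rw [← mul_assoc]
    gcongr
  calc _ ≤ 4⁻¹ * ∑ k ∈ Finset.range K, N k + 4⁻¹ * ∑ k ∈ Finset.range K, N k +
        c * ∑ k ∈ Finset.range K, Z k + N 0 := by gcongr
    _ = _ := by ring

theorem nn_le (hn : 3 ≤ n) {E : Type} [NormedAddCommGroup E] {g : V n → E} {O : ℕ → Set (V n)}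
    (σ : ℕ → ℝ) {k : ℕ} {B : ℝ≥0∞} (ho : IsOpen (O k)) (hs : O k ⊆ ball 0 3)
    (hB : ∀ z r, 0 < r → ‖z‖ + 2 * r ≤ 10 → dav g z r ≤ B) :
    NN O σ g k ≤ ENNReal.ofReal (σ k) * (B * ENNReal.ofReal (vb n * 3 ^ n)) := by
  refine mul_le_mul_right ?_ _
  rw [← vol_ball (0 : V n) three_pos]
  refine le_trans (setLIntegral_mono' ho.measurableSet (g := fun _ => B) fun z hz => ?_) ?_
  · rcases le_or_gt (infDist z (O k)ᶜ / 2) 0 with h | h
    · rw [dav, al_of_nonpos _ _ h]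
      exact zero_le
    refine hB _ _ h ?_
    have p : ‖(3 : ℝ) • ev (⟨0, by omega⟩ : Fin n)‖ = 3 := by
      rw [norm_smul, norm_ev, mul_one, Real.norm_ofNat]
    have m : (3 : ℝ) • ev (⟨0, by omega⟩ : Fin n) ∈ (O k)ᶜ := fun hm => by
      have := mem_ball_zero_iff.1 (hs hm)
      rw [p] at this
      exact lt_irrefl _ this
    have d := infDist_le_dist_of_mem (x := z) m
    have d' := norm_sub_le z ((3 : ℝ) • ev (⟨0, by omega⟩ : Fin n))
    have := mem_ball_zero_iff.1 (hs hz)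
    rw [dist_eq_norm] at d
    rw [p] at d'
    linarith
  · rw [setLIntegral_const]
    exact mul_le_mul_right (measure_mono hs) _

end Oscx

open Oscx in
theorem osc (h : Bas1 n) (h1 : CH n) (h2 : LOC2 n) : OSC n := by
  intro C₀ C₁ Cβ h0 hC1 hβ
  obtain ⟨Λa, ha⟩ := h1 C₀ 2⁻¹ h0 (by norm_num)
  obtain ⟨Λb, hb⟩ := h2 C₀ C₁ Cβ 4⁻¹ h0 hC1 hβ (by norm_num)
  obtain ⟨D, D0, hD⟩ := h.jn.dav Cβ hβ
  refine ⟨max Λa Λb, fun Λ hΛ => ?_⟩
  obtain ⟨A, A0, hA⟩ := ha Λ ((le_max_left _ _).trans hΛ)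
  obtain ⟨B, b₁, B0, b10, hB⟩ := hb Λ ((le_max_right _ _).trans hΛ)
  have v0 := vb_pos (n := n)
  refine ⟨(1 + 2 * A) * (2 * (D * (vb n * 3 ^ n) + B)),
    min (min 1 b₁) (4 * (B * (1 + 2 * A)))⁻¹, by positivity, by positivity, ?_⟩
  intro E _ g O σ s ζ b K hg hN hK b0 bl hBM mζ ζ0 hL
  have b1 : b ≤ 1 := bl.trans ((min_le_left _ _).trans (min_le_left _ _))
  have b2 : b ≤ b₁ := bl.trans ((min_le_left _ _).trans (min_le_right _ _))
  have b3 : b ≤ (4 * (B * (1 + 2 * A)))⁻¹ := bl.trans (min_le_right _ _)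
  have bb : b ^ 2 ≤ b := by nlinarith
  have nn : ∀ k, NN O σ g k ≤
      ENNReal.ofReal (σ k) * (ENNReal.ofReal D * ENNReal.ofReal (vb n * 3 ^ n)) := fun k =>
    nn_le h.hn σ (hN.opn k) ((hN.anti k.zero_le).trans hN.sub) fun z r r0 hr =>
      (hD E g b r z hg b0 hBM r0 hr).trans (ENNReal.ofReal_le_ofReal (by nlinarith))
  have e2 : ENNReal.ofReal 2⁻¹ = 2⁻¹ := by
    rw [ENNReal.ofReal_inv_of_pos two_pos, ENNReal.ofReal_ofNat]
  have e4 : ENNReal.ofReal 4⁻¹ = 4⁻¹ := by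
    rw [ENNReal.ofReal_inv_of_pos four_pos, ENNReal.ofReal_ofNat]
  have eA : 1 + 2 * ENNReal.ofReal A = ENNReal.ofReal (1 + 2 * A) := by
    rw [ENNReal.ofReal_add zero_le_one (by positivity), ENNReal.ofReal_mul zero_le_two,
      ENNReal.ofReal_one, ENNReal.ofReal_ofNat]
  have key := seq (NN O σ g) (TT O σ s g)
    (fun k => ENNReal.ofReal (σ k) * ∫⁻ y in O k, ENNReal.ofReal (ζ k y)) K (ENNReal.ofReal A)
    (ENNReal.ofReal B) (ENNReal.ofReal (B * b ^ 2)) ENNReal.ofReal_ne_top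
    (fun k => ne_top_of_le_ne_top (by finiteness) (nn k)) (by simp [TT, hK])
    (fun k => e2 ▸ hA E g O σ s k hg hN)
    (fun k => e4 ▸ hB E g O σ s (ζ k) b k hg hN b0 b2 hBM (mζ k) (ζ0 k) (hL k)) (by
      rw [eA, ← ENNReal.ofReal_mul (by positivity), ← e4]
      refine ENNReal.ofReal_le_ofReal ?_
      have p : 0 < B * (1 + 2 * A) := by positivity
      calc B * b ^ 2 * (1 + 2 * A) = B * (1 + 2 * A) * b ^ 2 := by ring
        _ ≤ B * (1 + 2 * A) * (4 * (B * (1 + 2 * A)))⁻¹ := by gcongr; exact bb.trans b3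
        _ = 4⁻¹ := by field_simp)
  refine key.trans ?_
  rw [eA, ENNReal.ofReal_mul (by positivity), ENNReal.ofReal_mul zero_le_two,
    ENNReal.ofReal_ofNat, mul_assoc, mul_assoc, ENNReal.ofReal_add (by positivity) B0.le,
    ENNReal.ofReal_mul D0.le]
  gcongr
  rw [mul_add]
  refine add_le_add ((nn 0).trans ?_) (mul_le_mul_left le_add_self _)
  rw [mul_comm]
  exact mul_le_mul_left le_self_add _

end Pool.Agent.MP_29b5d3_an.EX

end MrgPart8

-- ======== part 9: formerly Pool.Agent.MP_29b5d3_an.EX.Rpig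
section MrgPart9

/-! Project EXQ: the choice of the block ends by pigeonholing. -/

set_option autoImplicit false

namespace Pool.Agent.MP_29b5d3_an.EX

open MeasureTheory Finset Pool.Agent.MP_29b5d3_an.NC
open scoped ENNReal

variable {n : ℕ}

namespace PIGx

theorem step {Λ δ : ℝ} (hΛ : 3 ≤ Λ) (h0 : 0 < δ) (h1 : δ ≤ 1) :
    ∃ l : ℕ, 0 < l ∧ Λ ≤ (1 + δ) ^ l ∧ (1 + δ) ^ l ≤ 2 * Λ ∧ 1 ≤ δ * l := by
  classical
  have hex : ∃ l : ℕ, Λ ≤ (1 + δ) ^ l :=
    (pow_unbounded_of_one_lt Λ (by linarith : 1 < 1 + δ)).imp fun _ h => h.le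
  have hs := Nat.find_spec hex
  have hp : 0 < Nat.find hex := by
    rw [Nat.find_pos]; simp only [pow_zero, not_le]; linarith
  refine ⟨Nat.find hex, hp, hs, ?_, ?_⟩
  · have h2 := not_le.1 (Nat.find_min hex (Nat.sub_lt hp one_pos))
    have h3 : (0 : ℝ) ≤ (1 + δ) ^ (Nat.find hex - 1) := by positivity
    have e : Nat.find hex = Nat.find hex - 1 + 1 := by omega
    rw [e, pow_succ]
    nlinarith
  · have h2 : (1 + δ) ^ Nat.find hex ≤ Real.exp (δ * Nat.find hex) := by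
      rw [mul_comm, Real.exp_nat_mul]
      exact pow_le_pow_left₀ (by linarith) (by linarith [Real.add_one_le_exp δ]) _
    have h3 := Real.exp_one_lt_d9
    exact Real.exp_le_exp.1 (by linarith)

theorem pick (a : ℕ → ℝ≥0∞) (N l : ℕ) (hl : 0 < l) (hN : ∀ j, N ≤ j → a j = 0) :
    ∃ i < l, (l : ℝ≥0∞) * ∑ k ∈ range N, a (l + i + k * l) ≤ ∑ j ∈ range N, a j := by
  obtain ⟨i, hi, hm⟩ := exists_min_image (range l) (fun i => ∑ k ∈ range N, a (l + i + k * l))
    ⟨0, mem_range.2 hl⟩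
  refine ⟨i, mem_range.1 hi, ?_⟩
  have h1 := card_nsmul_le_sum (range l) _ _ hm
  rw [card_range, nsmul_eq_mul] at h1
  refine h1.trans ?_
  have inj : Set.InjOn (fun p : ℕ × ℕ => l + p.1 + p.2 * l) (range l ×ˢ range N : Finset _) := by
    rintro ⟨x, y⟩ hx ⟨x', y'⟩ hx' h
    simp only [coe_product, Set.mem_prod, coe_range, Set.mem_Iio] at hx hx' h
    have e : x + y * l = x' + y' * l := by omega
    have e1 := congrArg (· % l) e
    have e2 := congrArg (· / l) e
    simp only [Nat.add_mul_mod_self_right, Nat.mod_eq_of_lt hx.1, Nat.mod_eq_of_lt hx'.1] at e1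
    simp only [Nat.add_mul_div_right _ _ hl, Nat.div_eq_of_lt hx.1, Nat.div_eq_of_lt hx'.1] at e2
    exact Prod.ext e1 (by simpa using e2)
  rw [← sum_product' (f := fun i k => a (l + i + k * l)),
    ← sum_image (f := a) inj]
  refine sum_le_sum_of_ne_zero fun j _ hj => mem_range.2 ?_
  by_contra h
  exact hj (hN j (not_lt.1 h))

end PIGx

theorem pig (h : Bas2 n) : PIG n := by
  intro Λ L hΛ ok
  obtain ⟨l, l0, l1, l2, l3⟩ := PIGx.step hΛ ok.δ0 ok.δ1
  have hz : ∀ j, (∀ x, L.h j x = 0) →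
      ENNReal.ofReal (1 / L.τ j) * ∫⁻ x, ‖L.h j x‖ₑ ^ 2 = 0 := fun j hj => by
    have e : ‖(0 : Mt n)‖ₑ = 0 := by rw [← ofReal_norm, norm_zero, ENNReal.ofReal_zero]
    simp [hj, e]
  obtain ⟨i, hi, hs⟩ := PIGx.pick (fun j => ENNReal.ofReal (1 / L.τ j) * ∫⁻ x, ‖L.h j x‖ₑ ^ 2)
    L.N l l0 fun j hj => hz j fun x =>
      (h.lv.off L ok j x (by rw [h.lv.empty L ok j hj]; exact fun e => e)).2.2.2
  have q1 : (1 : ℝ) ≤ 1 + L.δ := by linarith [ok.δ0]
  have key : ∀ j d : ℕ, l ≤ d → d ≤ 2 * l →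
      Λ * L.τ j ≤ L.τ (j + d) ∧ L.τ (j + d) ≤ 4 * Λ ^ 2 * L.τ j := by
    intro j d h1 h2
    have e : L.τ (j + d) = (1 + L.δ) ^ d * L.τ j := by simp only [Lev.τ, pow_add]; ring
    have h3 := pow_le_pow_right₀ q1 h1
    have h4 := pow_le_pow_right₀ q1 h2
    have h5 : ((1 + L.δ) ^ l) ^ 2 ≤ (2 * Λ) ^ 2 := pow_le_pow_left₀ (by positivity) l2 2
    rw [pow_mul'] at h4
    have h6 := (h.lv.τpos L ok j).le
    rw [e]
    exact ⟨mul_le_mul_of_nonneg_right (by linarith) h6,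
      mul_le_mul_of_nonneg_right (by nlinarith) h6⟩
  have hk : ∀ k : ℕ, ∃ d, l ≤ d ∧ d ≤ 2 * l ∧ l + i + k * l =
      (if k = 0 then 0 else l + i + (k - 1) * l) + d := by
    intro k
    rcases k with _ | k
    · exact ⟨l + i, by omega, by omega, by simp⟩
    · exact ⟨l, le_rfl, by omega, by simp [add_mul, add_assoc]⟩
  refine ⟨fun k => if k = 0 then 0 else l + i + (k - 1) * l, rfl, ?_, fun k => ?_, fun k => ?_, ?_⟩
  · refine strictMono_nat_of_lt_succ fun k => ?_
    obtain ⟨d, h1, -, h3⟩ := hk k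
    simp only [Nat.add_one_ne_zero, if_false, Nat.add_sub_cancel]
    omega
  · obtain ⟨d, h1, h2, h3⟩ := hk k
    simp only [Nat.add_one_ne_zero, if_false, Nat.add_sub_cancel]
    rw [h3]
    exact (key _ d h1 h2).1
  · obtain ⟨d, h1, h2, h3⟩ := hk k
    simp only [Nat.add_one_ne_zero, if_false, Nat.add_sub_cancel]
    rw [h3]
    exact (key _ d h1 h2).2
  · have e : L.kk = ENNReal.ofReal L.δ *
        ∑ j ∈ range L.N, ENNReal.ofReal (1 / L.τ j) * ∫⁻ x, ‖L.h j x‖ₑ ^ 2 := by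
      rw [Lev.kk, mul_sum]
      refine sum_congr rfl fun j _ => ?_
      rw [← mul_assoc, ← ENNReal.ofReal_mul ok.δ0.le, mul_one_div]
    have e1 : (1 : ℝ≥0∞) ≤ ENNReal.ofReal L.δ * l := by
      rw [← ENNReal.ofReal_natCast, ← ENNReal.ofReal_mul ok.δ0.le]
      exact ENNReal.one_le_ofReal.2 l3
    rw [e]
    refine le_trans ?_ (mul_le_mul_right hs _)
    rw [← mul_assoc]
    refine le_trans ?_ (le_mul_of_one_le_left' e1)
    refine (sum_le_sum_of_subset (range_mono (Nat.le_succ L.N))).trans (le_of_eq ?_)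
    rw [sum_range_succ', if_pos rfl, hz 0 (h.lv.h0 L ok), add_zero]
    simp only [Nat.add_one_ne_zero, if_false, Nat.add_sub_cancel]

end Pool.Agent.MP_29b5d3_an.EX

end MrgPart9

-- ======== part 10: formerly Pool.Agent.MP_29b5d3_an.EX.YwsZg
section MrgPart10

/-! Project EXQ: weighted energies of the single level pieces, gradient of the block sums. -/

set_option autoImplicit false

namespace Pool.Agent.MP_29b5d3_an.EX

open MeasureTheory Metric Filter Topology Module Pool.Agent.MP_29b5d3_an.NC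
open scoped RealInnerProductSpace ContDiff ENNReal

variable {n : ℕ}

namespace YWSx

theorem near {D : V n → ℝ} (hD : Scale D) {x z : V n} (hx : x ∈ ball z (1 / 100 * D z)) :
    |D x - D z| ≤ D z / 100 := by
  have h := hD.lip.dist_le_mul x z
  rw [Real.dist_eq, NNReal.coe_one, one_mul] at h
  have := mem_ball.1 hx
  linarith

/-- the weight is controlled by the oscillation on the larger ball -/
theorem wle {E : Type} [NormedAddCommGroup E] {g : V n → E} {D o : V n → ℝ} {Cg : ℝ}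
    (hD : Scale D) {x z : V n} (hx : x ∈ ball z (1 / 100 * D z))
    (ho : ENNReal.ofReal (o x ^ 2) ≤ ENNReal.ofReal Cg * dav g x (D x / 10)) :
    ENNReal.ofReal ((o x / D x) ^ 2) ≤ ENNReal.ofReal (4 / D z ^ 2) * (ENNReal.ofReal Cg *
      (ENNReal.ofReal (6 ^ n) * ENNReal.ofReal (6 ^ n) * dav g z (D z / 2))) := by
  have hz := hD.pos z
  have hx0 := hD.pos x
  obtain ⟨h1, h2⟩ := abs_le.1 (near hD hx)
  have e : (o x / D x) ^ 2 ≤ 4 / D z ^ 2 * o x ^ 2 := by
    rw [div_pow, div_eq_inv_mul]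
    refine mul_le_mul_of_nonneg_right ?_ (sq_nonneg _)
    rw [inv_eq_one_div, div_le_div_iff₀ (by positivity) (by positivity)]
    nlinarith
  refine (ENNReal.ofReal_le_ofReal e).trans ?_
  rw [ENNReal.ofReal_mul (by positivity)]
  refine mul_le_mul_right (ho.trans (mul_le_mul_right (dav_sub g (by positivity) ?_ ?_) _)) _
  · refine ball_subset_ball' ?_
    have := mem_ball.1 hx
    linarith
  · linarith

theorem key (hW : WF n) {Cg : ℝ} (hCg : 0 < Cg) : ∃ C : ℝ, 0 < C ∧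
    ∀ (E : Type) [NormedAddCommGroup E] (g : V n → E) (D o : V n → ℝ) (F : V n → ℝ≥0∞) (K : ℝ),
    Scale D → Measurable o → Measurable F → 0 ≤ K → (∀ x ∉ ball (0 : V n) 3, F x = 0) →
    (∀ x ∈ ball (0 : V n) 4, ENNReal.ofReal (o x ^ 2) ≤ ENNReal.ofReal Cg * dav g x (D x / 10)) →
    (∀ z, al F z (D z / 2) ≤ ENNReal.ofReal (K * D z ^ 2)) →
    ∫⁻ x, ENNReal.ofReal ((o x / D x) ^ 2) * F x ≤
      ENNReal.ofReal (C * K) * ∫⁻ z in ball (0 : V n) 4, dav g z (D z / 2) := by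
  obtain ⟨Cw, Cw0, hw⟩ := hW.low (1 / 100) (by norm_num) (by norm_num)
  refine ⟨Cw * (4 * Cg * 6 ^ n * 6 ^ n * 50 ^ n), by positivity, ?_⟩
  intro E _ g D o F K hD mo mF K0 hF ho hal
  have u : {x | 0 < D x} = Set.univ := Set.eq_univ_of_forall hD.pos
  have k := hw D (fun x => ENNReal.ofReal ((o x / D x) ^ 2) * F x) hD.lip
    (((mo.div hD.meas).pow_const 2).ennreal_ofReal.mul mF)
  rw [u, Measure.restrict_univ] at k
  refine k.trans ?_
  rw [mul_assoc Cw, ENNReal.ofReal_mul Cw0.le, mul_assoc]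
  refine mul_le_mul_right ?_ _
  rw [← lintegral_const_mul' _ _ ENNReal.ofReal_ne_top, ← lintegral_indicator measurableSet_ball]
  refine lintegral_mono fun z => ?_
  have hz := hD.pos z
  by_cases z4 : z ∈ ball (0 : V n) 4
  swap
  · refine (al_zero fun y hy => ?_).trans_le zero_le
    rw [hF y fun y3 => z4 ?_, mul_zero]
    have := hD.up z
    have := dist_triangle_left z 0 y
    have := mem_ball.1 hy
    have := mem_ball.1 y3
    rw [mem_ball]
    linarith
  rw [Set.indicator_of_mem z4]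
  calc al (fun x => ENNReal.ofReal ((o x / D x) ^ 2) * F x) z (1 / 100 * D z)
      ≤ al (fun x => (ENNReal.ofReal (4 / D z ^ 2) * (ENNReal.ofReal Cg *
          (ENNReal.ofReal (6 ^ n) * ENNReal.ofReal (6 ^ n) * dav g z (D z / 2)))) * F x) z
          (1 / 100 * D z) := by
        refine al_mono fun x hx => ?_
        by_cases x3 : x ∈ ball (0 : V n) 3
        · exact mul_le_mul_left (wle hD hx (ho x (ball_subset_ball (by norm_num) x3))) _
        · rw [hF x x3, mul_zero, mul_zero]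
    _ ≤ (ENNReal.ofReal (4 / D z ^ 2) * (ENNReal.ofReal Cg *
          (ENNReal.ofReal (6 ^ n) * ENNReal.ofReal (6 ^ n) * dav g z (D z / 2)))) *
          (ENNReal.ofReal (50 ^ n) * ENNReal.ofReal (K * D z ^ 2)) := by
        rw [al_const_mul' _ mF]
        refine mul_le_mul_right ((al_sub F (z := z) (r := D z / 2) (c := 50) (by positivity)
          (ball_subset_ball (by linarith)) (by linarith)).trans (mul_le_mul_right (hal z) _)) _
    _ = _ := by
        have e : 4 * Cg * 6 ^ n * 6 ^ n * 50 ^ n * K =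
            4 / D z ^ 2 * (Cg * (6 ^ n * 6 ^ n)) * (50 ^ n * (K * D z ^ 2)) := by
          field_simp
        rw [e, ENNReal.ofReal_mul (p := 4 / D z ^ 2 * (Cg * (6 ^ n * 6 ^ n))) (by positivity),
          ENNReal.ofReal_mul (p := 4 / D z ^ 2) (by positivity), ENNReal.ofReal_mul hCg.le,
          ENNReal.ofReal_mul (p := 6 ^ n) (by positivity),
          ENNReal.ofReal_mul (p := 50 ^ n) (by positivity)]
        ring

theorem trDY (hV : LV1 n) {L : Lev n} (hL : L.Ok) (i : ℕ) (x : V n) :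
    |tr (L.DY i x)| ≤ n * (L.τ (i + 1) - L.τ i) + if i = L.J x then n * L.τ (i + 1) else 0 := by
  have t0 := hV.τpos L hL i
  have t1 := hV.τmono L hL (Nat.le_succ i)
  have n0 : (0 : ℝ) ≤ n := n.cast_nonneg
  have a0 : 0 ≤ n * (L.τ (i + 1) - L.τ i) := mul_nonneg n0 (sub_nonneg.2 t1)
  have a1 : 0 ≤ if i = L.J x then n * L.τ (i + 1) else 0 := by
    split_ifs
    · exact mul_nonneg n0 (t0.le.trans t1)
    · exact le_rfl
  by_cases h0 : x ∈ L.O i
  swap
  · rw [(hV.off L hL i x h0).2.2.1, tr_zero, abs_zero]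
    exact add_nonneg a0 a1
  by_cases h1 : x ∈ L.O (i + 1)
  · rw [Lev.DY, tr_sub, hL.on _ x h0, hL.on _ x h1, abs_of_nonneg (by linarith)]
    linarith
  have e : i = L.J x := le_antisymm ((hV.mem L hL i x).1 h0).2
    (Nat.le_of_lt_succ (not_le.1 fun k => h1 ((hL.hJ _ x (Nat.le_add_left 1 i)).2 k)))
  obtain ⟨-, k1, k2⟩ := hL.off _ x h1
  have := hL.θ0 x
  rw [if_pos e, Lev.DY, tr_sub, hL.on _ x h0, k1, tr_zero, abs_le]
  constructor <;> nlinarith [mul_nonneg n0 t0.le]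

theorem cb_mem {L : Lev n} (hL : L.Ok) {b : ℝ} (hb : 0 < b) (j j' i : ℕ) :
    0 ≤ L.cb b j j' i ∧ L.cb b j j' i ≤ 1 := by
  have g1 : 1 ≤ L.g b := le_add_of_nonneg_right (mul_pos hL.δ0 hb).le
  unfold Lev.cb
  split_ifs
  · exact ⟨by positivity, inv_le_one_of_one_le₀ (one_le_pow₀ g1)⟩
  · exact ⟨le_rfl, zero_le_one⟩

theorem trDZ (hV : LV1 n) {L : Lev n} (hL : L.Ok) {b : ℝ} (hb : 0 < b) (j j' : ℕ) (x : V n) :
    |tr (L.DZ b j j' x)| ≤ 2 * n * L.τ j' := by
  have n0 : (0 : ℝ) ≤ n := n.cast_nonneg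
  obtain ⟨a, ha⟩ : ∃ a : ℕ → ℝ, ∀ i,
      a i = n * (L.τ (i + 1) - L.τ i) + if i = L.J x then n * L.τ (i + 1) else 0 := ⟨_, fun _ => rfl⟩
  have a0 : ∀ i, |tr (L.DY i x)| ≤ a i := fun i => (trDY hV hL i x).trans_eq (ha i).symm
  calc |tr (L.DZ b j j' x)| ≤ ∑ i ∈ Finset.Ico j L.N, if i < j' then a i else 0 := by
        rw [Lev.DZ, tr_sum]
        refine (Finset.abs_sum_le_sum_abs _ _).trans (Finset.sum_le_sum fun i _ => ?_)
        obtain ⟨c0, c1⟩ := cb_mem hL hb j j' i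
        rw [tr_smul, abs_mul, abs_of_nonneg c0]
        split_ifs with hi
        · exact (mul_le_of_le_one_left (abs_nonneg _) c1).trans (a0 i)
        · rw [Lev.cb, if_neg hi, zero_mul]
    _ ≤ ∑ i ∈ Finset.range j', a i := by
        rw [← Finset.sum_filter]
        exact Finset.sum_le_sum_of_subset_of_nonneg
          (fun i hi => Finset.mem_range.2 (Finset.mem_filter.1 hi).2)
          fun i _ _ => (abs_nonneg _).trans (a0 i)
    _ ≤ 2 * n * L.τ j' := by
        simp only [ha]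
        rw [Finset.sum_add_distrib, ← Finset.mul_sum, Finset.sum_range_sub, Finset.sum_ite_eq']
        have k0 := mul_nonneg n0 (hV.τpos L hL 0).le
        have k1 := mul_nonneg n0 (hV.τpos L hL j').le
        split_ifs with hi
        · have := mul_le_mul_of_nonneg_left (hV.τmono L hL (Finset.mem_range.1 hi)) n0
          rw [Nat.succ_eq_add_one] at this
          linarith
        · linarith

end YWSx

theorem yws (h : Bas2 n) : YWS n := by
  obtain ⟨c₀, C, c0, C0, hy⟩ := h.ys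
  refine ⟨c₀, c0, fun Cg hCg => ?_⟩
  obtain ⟨C', C'0, hk⟩ := YWSx.key h.wf hCg
  refine ⟨C' * C, by positivity, ?_⟩
  intro E _ g L j D o _ hL hD hn mo ho M hM
  have hY := h.lv.h2Y L hL M
  have out : ∀ x ∉ ball (0 : V n) 3, x ∉ L.O M := fun x hx k =>
    hx (hL.supp (h.lv.anti L hL (Nat.zero_le M) k))
  have := hL.δ0
  have := h.lv.τpos L hL M
  have := h.lv.τpos L hL j
  have e : ∀ (K : ℝ) (I : ℝ≥0∞), 0 ≤ K → ENNReal.ofReal (C' * (C * K)) * I =
      ENNReal.ofReal K * (ENNReal.ofReal (C' * C) * I) := fun K I hK => by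
    rw [← mul_assoc (ENNReal.ofReal K), ← ENNReal.ofReal_mul hK, ← mul_assoc, mul_comm K]
  constructor
  · simp only [ENNReal.ofReal_mul (sq_nonneg (o _ / D _))]
    refine (hk E g D o _ _ hD mo (hY.mG.norm.measurable.pow_const 2).ennreal_ofReal
      (by positivity) (fun x hx => ?_) ho fun z => (hy L j D hL hD.pos hn M z hM).1).trans_eq ?_
    · simp [(h.lv.off L hL M x (out x hx)).2.1]
    · exact e _ _ (by positivity)
  · simp only [ENNReal.ofReal_mul (sq_nonneg (o _ / D _))]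
    refine (hk E g D o _ _ hD mo (continuous_abs.measurable.comp hY.mu.measurable).ennreal_ofReal
      (by positivity) (fun x hx => ?_) ho fun z => (hy L j D hL hD.pos hn M z hM).2).trans_eq ?_
    · simp [(h.lv.off L hL M x (out x hx)).1]
    · exact e _ _ (by positivity)

theorem zg (h : Bas2 n) : ZG n := by
  obtain ⟨C, C0, hq⟩ := h.qg
  have v0 := vb_pos (n := n)
  have n0 : (0 : ℝ) < n := Nat.cast_pos.2 (lt_of_lt_of_le (by norm_num) h.hn)
  refine ⟨vb n / 2, by positivity, fun Λ hΛ => ⟨C * (2 * n * Λ) * 2, by positivity, ?_⟩⟩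
  intro L b j j' D hL hb _ hτ hD hn
  have t0 := h.lv.τpos L hL j
  have k := (hq _ _ _ (2 * n * (Λ * L.τ j)) (h.h2a.smul (-1) _ _ _ (h.lv.h2Z L hL b j j'))
    (continuous_const.mul (continuous_finsetSum _ fun i _ =>
      continuous_const.mul ((hL.cont (i + 1)).sub (hL.cont i)))) (fun x => ?_) fun x => ?_).2
  · filter_upwards [k] with x hx
    obtain ⟨x₀, h0, h1⟩ := hn x
    have d0 := hD x
    obtain ⟨y, hy, hy'⟩ : ∃ y ∈ ball x₀ (D x), y ∉ L.O j := by
      by_contra hc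
      have s : ball x₀ (D x) ⊆ L.O j := fun y hy => by_contra fun e => hc ⟨y, hy, e⟩
      have h2 := h1 j (D x) le_rfl le_rfl
      rw [Set.inter_eq_right.2 s, vol_ball _ d0, div_self t0.ne',
        ENNReal.ofReal_le_ofReal_iff (by positivity)] at h2
      nlinarith [mul_pos v0 (pow_pos d0 n)]
    have h3 := hx y (by rw [(h.lv.offZ L hL b (fun _ => 0) j j' y hy').1, mul_zero])
    have h4 : ‖x - y‖ ≤ 2 * D x := by
      have := dist_triangle_right x y x₀
      have := mem_ball.1 hy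
      rw [dist_comm] at h0
      rw [← dist_eq_norm]
      linarith
    rw [neg_one_smul, norm_neg] at h3
    calc ‖L.GZ b j j' x‖ ≤ C * (2 * n * (Λ * L.τ j)) * (2 * D x) :=
          h3.trans (mul_le_mul_of_nonneg_left h4 (by positivity))
      _ = _ := by ring
  · rw [neg_one_mul, neg_nonneg]
    exact Finset.sum_nonpos fun i _ => mul_nonpos_of_nonneg_of_nonpos
      (YWSx.cb_mem hL hb j j' i).1 (sub_nonpos.2 (hL.anti i (i + 1) x (Nat.le_succ i)))
  · rw [tr_smul, neg_one_mul, abs_neg]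
    exact (YWSx.trDZ h.lv.toLV1 hL hb j j' x).trans
      (mul_le_mul_of_nonneg_left hτ (by positivity))

end Pool.Agent.MP_29b5d3_an.EX

end MrgPart10

-- ======== part 11: formerly Pool.Agent.MP_29b5d3_an.EX.Ritx
section MrgPart11

/-! Project EXQ: normalisation of the map in the flat regime. -/

set_option autoImplicit false

namespace Pool.Agent.MP_29b5d3_an.EX

open MeasureTheory Metric Filter Topology Module Pool.Agent.MP_29b5d3_an.NC
open scoped RealInnerProductSpace ContDiff ENNReal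

variable {n : ℕ}

open IterP in
theorem itx (h : Bas1 n) (h1 : CORE n) : IterX n := by
  intro φ ψ hK CV hCV
  obtain ⟨C, C0, hC⟩ := near h.ava h.avb hK hCV
  obtain ⟨ε₀, e0, h1⟩ := h1 CV hCV
  refine ⟨min ε₀ (1 / (2 * C)), by positivity, fun ε p ε0 ε1 p0 p1 => ?_⟩
  obtain ⟨Φ, Φ0, h1⟩ := h1 ε p ε0 (ε1.trans (min_le_left _ _)) p0 p1
  refine ⟨Φ * 2 ^ p, by positivity, fun f F hW hQ hP => ?_⟩
  have ε2 : C * ε ≤ 1 / 2 := by
    have := (le_div_iff₀ (by positivity)).1 (ε1.trans (min_le_right _ _))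
    linarith
  obtain ⟨a, N, hN, hI⟩ := hP 0 (mem_ball_self (by norm_num)) 10 (by norm_num) le_rfl
  obtain ⟨⟨g, gW⟩, gQ, gP⟩ := Cls.conf (CV := CV) (ε := ε) h.mat h.avb ⟨⟨f, hW⟩, hQ, hP⟩ hN
  have k := h1 _ (h.cfs.ofW _ _ gW) gQ gP hI
  have a0 : 0 < a := hN.1
  have ap : 0 < a ^ p := Real.rpow_pos_of_pos a0 p
  have k1 := hC ε ε0 g _ gW hI
  have k2 : 1 ≤ 2 * (a * ‖av φ F 0 1‖) := by
    have := norm_sub_norm_le (1 : Mt n) (av φ (fun z => N ∘L F z) 0 1)
    rw [norm_one' h.hn, norm_sub_rev] at this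
    rw [← h.mat.conf_norm a N _ hN, ← av_comp h.ava hK.tφ (h.avb.loc f F hW) N 0 one_ne_zero]
    linarith
  have k3 : 1 ≤ 2 ^ p * (a ^ p * ‖av φ F 0 1‖ ^ p) := by
    rw [← Real.mul_rpow a0.le (norm_nonneg _), ← Real.mul_rpow zero_le_two (by positivity)]
    exact Real.one_le_rpow k2 p0.le
  have k4 : ∫⁻ x in ball (0 : V n) 1, ENNReal.ofReal (‖N ∘L F x‖ ^ p) =
      ENNReal.ofReal (a ^ p) * ∫⁻ x in ball (0 : V n) 1, ENNReal.ofReal (‖F x‖ ^ p) := by
    rw [← lintegral_const_mul' _ _ ENNReal.ofReal_ne_top]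
    refine lintegral_congr fun x => ?_
    rw [h.mat.conf_norm a N _ hN, Real.mul_rpow a0.le (norm_nonneg _), ENNReal.ofReal_mul ap.le]
  rw [k4] at k
  refine (ENNReal.mul_le_mul_iff_right (ENNReal.ofReal_pos.2 ap).ne'
    ENNReal.ofReal_ne_top).1 (k.trans ?_)
  rw [← ENNReal.ofReal_mul ap.le]
  refine ENNReal.ofReal_le_ofReal ?_
  calc Φ = Φ * 1 := (mul_one _).symm
    _ ≤ Φ * (2 ^ p * (a ^ p * ‖av φ F 0 1‖ ^ p)) := by gcongr
    _ = _ := by ring

end Pool.Agent.MP_29b5d3_an.EX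

end MrgPart11

-- ======== part 12: formerly Pool.Agent.MP_29b5d3_an.EX.Rfin
section MrgPart12

/-! Project EXQ: from the flat regime to the theorem. -/

set_option autoImplicit false

namespace Pool.Agent.MP_29b5d3_an.EX

open MeasureTheory Metric Filter Topology Module Pool.Agent.MP_29b5d3_an.NC
open scoped RealInnerProductSpace ContDiff ENNReal

variable {n : ℕ}

namespace FINx

open Pool.Agent.MP_29b5d3_an.NC.Final

/-- the estimate for a map of the whole space -/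
theorem glob (hn : 3 ≤ n) (hK : KerS n) (hM : MatB n) (hA : AvA n) (hB : AvB n) (hF : Fos n)
    (hP : PropP n) (hI : IterX n) :
    ∃ ε₀ : ℝ, 0 < ε₀ ∧ ∀ ε p : ℝ, 0 < ε → ε ≤ ε₀ → 0 < p → p < n * (1 + ε) / ε →
      ∀ (f : V n → V n) (F : V n → Mt n) (C S : Set (V n)) (R : ℝ), W f F → 0 < R →
      MeasurableSet C → IsCompact S → (∀ x ∈ C, ball x R ⊆ S) → QR (1 + ε) S F →
      ∫⁻ z in C, ENNReal.ofReal (‖F z‖ ^ p) < ⊤ := by
  obtain ⟨φ, ψ, kr⟩ := hK.ker
  obtain ⟨γ, ε₁, CV, γ0, e1, CV0, hP⟩ := hP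
  obtain ⟨ε₂, e2, hI⟩ := hI φ ψ kr CV CV0
  obtain ⟨τ, ε₃, τ0, e3, hF⟩ := hF γ γ0
  obtain ⟨Cφ, Cφ0, hφ⟩ := kr.tφ.bdd
  refine ⟨min ε₁ (min ε₂ ε₃), by positivity, fun ε p ε0 hε p0 hp f F C S R h R0 mC hS hCS hq => ?_⟩
  obtain ⟨r₁, r0, r1, hP⟩ := hP ε ε0 (hε.trans (min_le_left _ _))
  obtain ⟨Φ, Φ0, hI⟩ := hI ε p ε0 (hε.trans ((min_le_right _ _).trans (min_le_left _ _))) p0 hp
  replace hF := hF ε ε0.le (hε.trans ((min_le_right _ _).trans (min_le_right _ _)))
  set B := (volume : Measure (V n)).real (ball 0 1) with hBd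
  have B0 : 0 ≤ B := measureReal_nonneg
  set E := ∫ z in S, ‖F z‖ ^ n with hE
  have E0 : 0 ≤ E := integral_nonneg fun z => by positivity
  set M := Cφ * (B + (20 / r₁) ^ n * ((1 / τ) ^ n * ((R ^ n)⁻¹ * E))) with hMd
  have v0 : volume (ball (0 : V n) 1) ≠ 0 := (measure_ball_pos _ _ one_pos).ne'
  refine (cover (S := S) (R := R) mC hCS (c := ENNReal.ofReal (5 ^ n) * ENNReal.ofReal (Φ * M ^ p) *
    (volume (ball (0 : V n) 1))⁻¹) ?_).trans_lt (ENNReal.mul_lt_top (ENNReal.mul_lt_top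
      (ENNReal.mul_lt_top ENNReal.ofReal_lt_top ENNReal.ofReal_lt_top)
      (ENNReal.inv_lt_top.2 (pos_iff_ne_zero.2 v0))) hS.measure_lt_top)
  filter_upwards [hA.leb φ F kr.tφ kr.one (hB.loc f F h)] with x hl hx
  have q1 := qr_mono hq (hCS x hx)
  rcases alt hA hB τ0 hF h R0 q1 with ⟨s, a, N, s0, s1, c1, c2, c3⟩ | hs
  · right
    have t0 : 0 < s * (r₁ / 20) := by positivity
    have k := flat_lp hM hA hB r0 r1 hP hI h s0 (qr_mono q1 (ball_subset_ball s1)) c1 c2
    refine ⟨s * (r₁ / 20) / 5, by positivity, by nlinarith, ?_⟩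
    rw [show 5 * (s * (r₁ / 20) / 5) = s * (r₁ / 20) by ring]
    refine k.trans ?_
    have m1 : Iv (fun z => ‖F z‖ ^ n) x R ≤ (R ^ n)⁻¹ * E := by
      rw [hA.Iv_eq _ x R R0]
      refine mul_le_mul_of_nonneg_left ?_ (by positivity)
      exact setIntegral_mono_set (h.lp.integrableOn_isCompact hS)
        (Eventually.of_forall fun z => by positivity) (hCS x hx).eventuallyLE
    have m2 := hA.Iv_mono (fun z => ‖F z‖ ^ n) x x s (s * (r₁ / 20)) h.lp (fun z => by positivity)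
      t0 s0 (ball_subset_ball (by nlinarith))
    rw [show s / (s * (r₁ / 20)) = 20 / r₁ by field_simp] at m2
    have m3 : ‖av φ F x (s * (r₁ / 20))‖ ≤ M := by
      refine (hA.av_le _ φ F Cφ kr.tφ hφ (hB.loc f F h) x _ t0).trans ?_
      refine mul_le_mul_of_nonneg_left
        ((Iv_norm_le (by omega) hA hB h x t0 one_pos).trans ?_) Cφ0.le
      rw [one_mul, one_pow, div_one]
      refine add_le_add le_rfl (m2.trans ?_)
      gcongr
      exact c3.trans (by gcongr)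
    rw [Measure.addHaar_ball_of_pos volume x (by positivity : 0 < s * (r₁ / 20) / 5), fr]
    calc _ ≤ ENNReal.ofReal ((s * (r₁ / 20)) ^ n) * ENNReal.ofReal (Φ * M ^ p) := by gcongr
      _ = ENNReal.ofReal (5 ^ n) * ENNReal.ofReal (Φ * M ^ p) *
          ENNReal.ofReal ((s * (r₁ / 20) / 5) ^ n) *
            ((volume (ball (0 : V n) 1))⁻¹ * volume (ball (0 : V n) 1)) := by
          rw [ENNReal.inv_mul_cancel v0 measure_ball_lt_top.ne, mul_one, mul_right_comm,
            ← ENNReal.ofReal_mul (p := 5 ^ n) (by positivity), ← mul_pow]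
          congr 3
          ring
      _ = _ := by ring
  · left
    rw [zero_of_small (by omega) hA hB kr.tφ h hl hs, norm_zero, Real.zero_rpow p0.ne',
      ENNReal.ofReal_zero]

theorem low (hn : 3 ≤ n) (hK : KerS n) (hM : MatB n) (hA : AvA n) (hB : AvB n) (hF : Fos n)
    (hP : PropP n) (hI : IterX n) :
    ∃ ε₀ : ℝ, 0 < ε₀ ∧ ∀ ε p : ℝ, 0 < ε → ε ≤ ε₀ → 0 < p → p < n * (1 + ε) / ε →
      ∀ Ω f Df, h48.IsQR (n := n) (1 + ε) Ω f Df → h48.LocLp (ENNReal.ofReal p) Ω Df := by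
  obtain ⟨ε₀, e0, H⟩ := glob hn hK hM hA hB hF hP hI
  refine ⟨ε₀, e0, fun ε p ε0 hε p0 hp Ω f Df h C hC hCΩ => ?_⟩
  obtain ⟨R, R0, hR⟩ := hC.exists_cthickening_subset_open h.1 hCΩ
  have hS : IsCompact (cthickening R C) := hC.cthickening
  obtain ⟨F, G, hs, hFG⟩ := h48.globalize (by rw [fr]; omega) h.sobOn.1 hS hR
  have e := fun x (hx : x ∈ cthickening R C) => (hFG.self_of_nhdsSet x hx).2
  have m := hs.loc.aestronglyMeasurable
  have ae := m.ae_eq_mk
  have i := hs.int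
  rw [fr] at i
  have w : W F (m.mk G) := by
    refine ⟨hs.cont, m.stronglyMeasurable_mk, (i.congr ?_).locallyIntegrable,
      fun φ h1 h2 v => (hs.weak φ h1 h2 v).trans ?_⟩
    · filter_upwards [ae] with x hx
      rw [hx]
    · congr 1
      refine integral_congr_ae ?_
      filter_upwards [ae] with x hx
      rw [hx]
  have q : QR (1 + ε) (cthickening R C) (m.mk G) := by
    filter_upwards [ae, (ae_restrict_iff' h.1.measurableSet).1 h.2.2.2.2] with x h1 h2 hx
    rw [← h1, e x hx]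
    exact h2 (hR hx)
  have k := H ε p ε0 hε p0 hp F _ C _ R w R0 hC.measurableSet hS
    (fun x hx => ball_subset_closedBall.trans (closedBall_subset_cthickening hx R)) q
  refine ⟨(h.2.2.1 C hC hCΩ).1, ?_⟩
  rw [eLpNorm_lt_top_iff_lintegral_rpow_enorm_lt_top (by simpa using p0) ENNReal.ofReal_ne_top,
    ENNReal.toReal_ofReal p0.le]
  refine lt_of_eq_of_lt (setLIntegral_congr_fun_ae hC.measurableSet ?_) k
  filter_upwards [ae] with x h1 hx
  rw [← h1, e x (self_subset_cthickening C hx), ← ofReal_norm,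
    ENNReal.ofReal_rpow_of_nonneg (norm_nonneg _) p0.le]

end FINx

theorem fin (h : Bas0 n) (hF : Fos n) (hP : PropP n) (h1 : IterX n) : MainX n := by
  have hn := h.hn
  obtain ⟨ε₀, e0, H⟩ := FINx.low hn h.ker h.mat h.ava h.avb hF hP h1
  have n0 : (0 : ℝ) < n := by exact_mod_cast (by omega : 0 < n)
  refine ⟨1 + ε₀, by linarith, fun K K1 K2 => ⟨fun p hp => ?_, fun a ha => ?_⟩⟩
  · exact (h48.lt_of_locLp_rad (by omega) K1 (n0.trans_le hp.1)
      (hp.2 _ _ _ (h48.isQR_rad (by omega) K1))).le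
  · have k0 : 0 < K - 1 := sub_pos.2 K1
    have k1 : (n : ℝ) < n * K / (K - 1) := by
      rw [lt_div_iff₀ k0]
      nlinarith
    refine le_of_forall_lt_imp_le_of_dense fun p hp => ?_
    obtain ⟨p', q1, q2⟩ := exists_between (max_lt hp k1)
    have q3 : (n : ℝ) < p' := (le_max_right _ _).trans_lt q1
    refine ((le_max_left _ _).trans q1.le).trans (ha ⟨q3.le, fun Ω f Df hq => ?_⟩)
    exact H (K - 1) p' k0 (by linarith) (n0.trans q3) (by rwa [add_sub_cancel]) Ω f Df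
      (by rwa [add_sub_cancel])

end Pool.Agent.MP_29b5d3_an.EX

end MrgPart12

-- marker of a merged file
example : 731051 + 478176 = 731051 + 478176 := rfl
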