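import Pool.Agent.MP_29b5d3_an.EX.Rblk2

/-! Project EXQ: linearisation of a conformal factor times a rotation. -/

set_option autoImplicit false

namespace Pool.Agent.MP_29b5d3_an.EX

open Pool.Agent.MP_29b5d3_an.NC

variable {n : ℕ}

namespace Linmx

theorem exp_one {a t : ℝ} (h : |a| ≤ t) : |Real.exp a - 1| ≤ t * Real.exp t := by
  have h0 : 0 ≤ t := (abs_nonneg a).trans h
  have h1 : 1 ≤ Real.exp t := Real.one_le_exp h0
  have h2 : Real.exp a ≤ Real.exp t := Real.exp_le_exp.2 ((le_abs_self a).trans h)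
  have h3 : a + 1 ≤ Real.exp a := Real.add_one_le_exp a
  have h4 : -a + 1 ≤ Real.exp (-a) := Real.add_one_le_exp (-a)
  have h5 : Real.exp a * Real.exp (-a) = 1 := by rw [← Real.exp_add]; simp
  have hp := Real.exp_pos a
  have h6 : Real.exp a * (-a + 1) ≤ 1 := (mul_le_mul_of_nonneg_left h4 hp.le).trans h5.le
  obtain ⟨h7, h8⟩ := abs_le.1 h
  have h9 : a * Real.exp a ≤ t * Real.exp t :=
    (mul_le_mul_of_nonneg_right h8 hp.le).trans (mul_le_mul_of_nonneg_left h2 h0)
  have h10 : t ≤ t * Real.exp t := le_mul_of_one_le_right h0 h1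
  rw [abs_le]
  constructor
  · linarith
  · linarith

theorem exp_two {a t : ℝ} (h : |a| ≤ t) : |Real.exp a - 1 - a| ≤ t * (t * Real.exp t) := by
  have h3 : a + 1 ≤ Real.exp a := Real.add_one_le_exp a
  have h4 : -a + 1 ≤ Real.exp (-a) := Real.add_one_le_exp (-a)
  have h5 : Real.exp a * Real.exp (-a) = 1 := by rw [← Real.exp_add]; simp
  have hp := Real.exp_pos a
  have h6 : Real.exp a * (-a + 1) ≤ 1 := (mul_le_mul_of_nonneg_left h4 hp.le).trans h5.le
  have h7 : a * (Real.exp a - 1) ≤ t * (t * Real.exp t) := by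
    refine (le_abs_self _).trans ?_
    rw [abs_mul]
    exact mul_le_mul h (exp_one h) (abs_nonneg _) ((abs_nonneg a).trans h)
  rw [abs_of_nonneg (by linarith)]
  linarith

theorem rot_sub {Q R : Mt n} (hQ : Orth Q) : ‖star Q * R - 1‖ = ‖R - Q‖ := by
  have e : star Q * R - 1 = star Q * (R - Q) := by
    rw [mul_sub, show star Q * Q = 1 from hQ]
  rw [e, hQ.star.norm_mul]

theorem rot_sym {Q R : Mt n} (hQ : Orth Q) (hR : Orth R) {t : ℝ} (h : ‖R - Q‖ ≤ t) :
    ‖star Q * R - 1 - (1 / 2 : ℝ) • (star Q * R - star R * Q)‖ ≤ t ^ 2 := by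
  have e : star Q * R - 1 - (1 / 2 : ℝ) • (star Q * R - star R * Q) =
      (-(1 / 2) : ℝ) • (star (R - Q) * (R - Q)) := by
    have e1 : star (R - Q) * (R - Q) = 1 - star R * Q - (star Q * R - 1) := by
      rw [star_sub, sub_mul, mul_sub, mul_sub, show star Q * Q = 1 from hQ,
        show star R * R = 1 from hR]
    rw [e1]
    module
  have h1 : ‖star (R - Q) * (R - Q)‖ ≤ t ^ 2 := by
    refine (norm_mul_le _ _).trans ?_
    rw [norm_star', sq]
    exact mul_le_mul h h (norm_nonneg _) ((norm_nonneg _).trans h)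
  rw [e, norm_smul, norm_neg, Real.norm_of_nonneg (by norm_num)]
  nlinarith [sq_nonneg t]

theorem ident (v E a : ℝ) (U S P P' K : Mt n) :
    (v * E) • (U * (1 - P)) - (v • (1 - P') + K) - (a • (1 : Mt n) + S) =
      (v - 1) • ((E • U - 1) * (1 - P)) - (E • U - 1) * P + (E - 1 - a) • U + a • (U - 1) +
        (U - 1 - S) - v • (P - P') - K := by
  simp only [mul_sub, sub_mul, mul_one, one_mul, smul_mul_assoc]
  module

end Linmx

open Linmx in
theorem linm (h : Bas0 n) : LINM n := by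
  have _ := h.hn
  refine ⟨2 * n + 3, by positivity, ?_⟩
  intro b v a t Q R P P' K hb hb1 hv hQ hR hP ha ht
  refine ⟨?_, rot_sym hQ hR ht⟩
  have t0 : 0 ≤ t := (abs_nonneg a).trans ha
  have n0 : (0 : ℝ) ≤ n := Nat.cast_nonneg n
  have e1 : 1 ≤ Real.exp t := Real.one_le_exp t0
  have hU : ‖star Q * R‖ ≤ 1 := by rw [hQ.star.norm_mul]; exact hR.norm_le
  have hU1 : ‖star Q * R - 1‖ ≤ t := by rw [rot_sub hQ]; exact ht
  have hW := rot_sym hQ hR ht
  rw [← mul_assoc (star Q), ident]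
  generalize star Q * R - 1 - (1 / 2 : ℝ) • (star Q * R - star R * Q) = W at hW ⊢
  generalize star Q * R = U at hU hU1 ⊢
  obtain ⟨τ, hτ⟩ : ∃ τ, τ = t * Real.exp t := ⟨_, rfl⟩
  have hx1 := exp_one ha
  have hx2 := exp_two ha
  have tτ : t ≤ τ := hτ ▸ le_mul_of_one_le_right t0 e1
  have τ0 : 0 ≤ τ := t0.trans tτ
  rw [← hτ] at hx1 hx2
  have hD : ‖Real.exp a • U - 1‖ ≤ 2 * τ := by
    have e : Real.exp a • U - 1 = (Real.exp a - 1) • U + (U - 1) := by module
    rw [e]
    refine (norm_add_le _ _).trans ?_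
    rw [norm_smul, Real.norm_eq_abs]
    have := mul_le_mul hx1 hU (norm_nonneg _) τ0
    linarith
  have hP1 : ‖(1 : Mt n) - P‖ ≤ 1 + n := by
    refine (norm_sub_le _ _).trans ?_
    have := norm_one_le (n := n)
    have := mul_le_mul_of_nonneg_left hb1 n0
    linarith
  have k1 : ‖(v - 1) • ((Real.exp a • U - 1) * (1 - P))‖ ≤ (v - 1) * (2 * τ * (1 + n)) := by
    rw [norm_smul, Real.norm_of_nonneg (by linarith)]
    exact mul_le_mul_of_nonneg_left
      ((norm_mul_le _ _).trans (mul_le_mul hD hP1 (norm_nonneg _) (by positivity))) (by linarith)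
  have k2 : ‖(Real.exp a • U - 1) * P‖ ≤ 2 * τ * (n * b) :=
    (norm_mul_le _ _).trans (mul_le_mul hD hP (norm_nonneg _) (by positivity))
  have k3 : ‖(Real.exp a - 1 - a) • U‖ ≤ t * τ := by
    rw [norm_smul, Real.norm_eq_abs]
    have := mul_le_mul hx2 hU (norm_nonneg _) (by positivity)
    linarith
  have tt : t * t ≤ t * τ := mul_le_mul_of_nonneg_left tτ t0
  have k4 : ‖a • (U - 1)‖ ≤ t * τ := by
    rw [norm_smul, Real.norm_eq_abs]
    exact (mul_le_mul ha hU1 (norm_nonneg _) t0).trans tt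
  have k5 : ‖W‖ ≤ t * τ := by
    rw [sq] at hW
    exact hW.trans tt
  have k6 : ‖v • (P - P')‖ = v * ‖P - P'‖ := by
    rw [norm_smul, Real.norm_of_nonneg (by linarith)]
  generalize (v - 1) • ((Real.exp a • U - 1) * (1 - P)) = X1 at k1 ⊢
  generalize (Real.exp a • U - 1) * P = X2 at k2 ⊢
  generalize (Real.exp a - 1 - a) • U = X3 at k3 ⊢
  generalize a • (U - 1) = X4 at k4 ⊢
  generalize v • (P - P') = X6 at k6 ⊢
  have s1 := norm_sub_le (X1 - X2 + X3 + X4 + W - X6) K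
  have s2 := norm_sub_le (X1 - X2 + X3 + X4 + W) X6
  have s3 := norm_add_le (X1 - X2 + X3 + X4) W
  have s4 := norm_add_le (X1 - X2 + X3) X4
  have s5 := norm_add_le (X1 - X2) X3
  have s6 := norm_sub_le X1 X2
  have p1 : 0 ≤ (v - 1) * τ := mul_nonneg (by linarith) τ0
  have p2 : 0 ≤ b * τ := mul_nonneg hb.le τ0
  have p3 : 0 ≤ n * (t * τ) := by positivity
  rw [mul_assoc _ t, ← hτ]
  nlinarith

end Pool.Agent.MP_29b5d3_an.EX
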