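import Pool.Agent.MP_29b5d3_an.EX.Rblk2

/-! Project EXQ: pointwise facts on the family of levels. -/

set_option autoImplicit false

namespace Pool.Agent.MP_29b5d3_an.EX

open MeasureTheory Metric Filter Topology Module Pool.Agent.MP_29b5d3_an.NC
open scoped RealInnerProductSpace ContDiff ENNReal

variable {n : ℕ}

namespace Lv1x

variable {L : Lev n}

theorem τpos (hL : L.Ok) (i : ℕ) : 0 < L.τ i := by
  have := hL.τp
  have := hL.δ0
  unfold Lev.τ
  positivity

theorem τzero : L.τ 0 = L.τ0 := by rw [Lev.τ, pow_zero, mul_one]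

theorem τsucc (i : ℕ) : L.τ (i + 1) = (1 + L.δ) * L.τ i := by
  unfold Lev.τ
  ring

theorem τdiv (hL : L.Ok) {i j : ℕ} (h : j ≤ i) : L.τ i / L.τ j = (1 + L.δ) ^ (i - j) := by
  rw [div_eq_iff (τpos hL j).ne']
  obtain ⟨k, rfl⟩ := Nat.exists_eq_add_of_le h
  rw [Nat.add_sub_cancel_left]
  unfold Lev.τ
  ring

theorem anti (hL : L.Ok) : Antitone L.O := fun i j h x hx => lt_of_lt_of_le hx (hL.anti i j x h)

theorem empty (hL : L.Ok) {i : ℕ} (h : L.N ≤ i) : L.O i = ∅ :=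
  Set.eq_empty_of_forall_notMem fun x hx => (hL.top i x h).not_gt hx

theorem mem (hL : L.Ok) (i : ℕ) (x : V n) : x ∈ L.O i ↔ x ∈ L.O 0 ∧ i ≤ L.J x := by
  rcases Nat.eq_zero_or_pos i with rfl | h
  · simp
  · exact ⟨fun hx => ⟨anti hL i.zero_le hx, (hL.hJ i x h).1 hx⟩, fun hx => (hL.hJ i x h).2 hx.2⟩

theorem out (hL : L.Ok) (x : V n) : x ∉ L.O (L.J x + 1) := fun hx =>
  Nat.not_succ_le_self _ ((mem hL _ x).1 hx).2

theorem trH (hL : L.Ok) {x : V n} (hx : x ∈ L.O 0) : tr (L.H x) = L.θ x := by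
  rw [Lev.H, tr_sub, tr_smul, tr_one, hL.on 0 x hx, τzero]
  ring

theorem star_sm (c : ℝ) {X : Mt n} (h : star X = X) : star (c • X) = c • X := by
  rw [star_smul, h, star_trivial]

theorem symH (hL : L.Ok) (x : V n) : star (L.H x) = L.H x := by
  rw [Lev.H, star_sub, star_sm _ (star_one _), hL.sym]

theorem symPs (hL : L.Ok) (b : ℝ) (x : V n) : star (L.Ps b x) = L.Ps b x :=
  star_sm _ (by rw [star_sub, star_one, star_sm _ (symH hL x)])

theorem symDY (hL : L.Ok) (j : ℕ) (x : V n) : star (L.DY j x) = L.DY j x := by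
  rw [Lev.DY, star_sub, hL.sym, hL.sym]

theorem symDP (hL : L.Ok) (b : ℝ) (j : ℕ) (x : V n) : star (L.DP b j x) = L.DP b j x := by
  rw [Lev.DP, star_add, star_one, star_sum]
  exact congrArg _ (Finset.sum_congr rfl fun i _ => star_sm _ (symDY hL i x))

theorem h_in {i : ℕ} {x : V n} (hx : x ∈ L.O i) :
    L.h i x = L.H x + L.D i x - L.τ i • (1 : Mt n) := Set.indicator_of_mem hx _

theorem h_out {i : ℕ} {x : V n} (hx : x ∉ L.O i) : L.h i x = 0 := Set.indicator_of_notMem hx _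

theorem u_out (hL : L.Ok) {i : ℕ} {x : V n} (hx : x ∉ L.O i) : L.u i x = 0 :=
  le_antisymm (not_lt.1 hx) (hL.u0 i x)

theorem off (hL : L.Ok) {i : ℕ} {x : V n} (hx : x ∉ L.O i) :
    L.Y i x = 0 ∧ L.GY i x = 0 ∧ L.DY i x = 0 ∧ L.h i x = 0 := by
  have hx' : x ∉ L.O (i + 1) := fun k => hx (anti hL i.le_succ k)
  refine ⟨?_, ?_, ?_, h_out hx⟩
  · rw [Lev.Y, u_out hL hx, u_out hL hx', sub_self]
  · rw [Lev.GY, (hL.off i x hx).1, (hL.off _ x hx').1, sub_self]
  · rw [Lev.DY, (hL.off i x hx).2.1, (hL.off _ x hx').2.1, sub_self]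

theorem offs (hL : L.Ok) {i j : ℕ} {x : V n} (hx : x ∉ L.O j) (hi : i ∈ Finset.Ico j L.N) :
    L.Y i x = 0 ∧ L.GY i x = 0 ∧ L.DY i x = 0 ∧ L.h i x = 0 :=
  off hL fun k => hx (anti hL (Finset.mem_Ico.1 hi).1 k)

end Lv1x

open Lv1x in
theorem lv1 (_h : Bas0 n) (hN : NUM) : LV1 n where
  τpos _ hL := τpos hL
  τmono L hL := monotone_nat_of_le_succ fun i => by
    rw [τsucc]
    nlinarith [τpos hL i, hL.δ0]
  τdiv _ hL _ _ hij := τdiv hL hij
  opn L hL i := isOpen_lt continuous_const (hL.cont i)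
  anti _ hL := anti hL
  empty _ hL _ hi := empty hL hi
  Jle L hL x := by
    by_contra k
    have hx : x ∈ L.O (L.J x) := (hL.hJ _ x (by omega)).2 le_rfl
    rw [empty hL (by omega)] at hx
    exact hx
  J0 L hL x hx := by
    by_contra k
    exact hx (anti hL zero_le_one ((hL.hJ 1 x le_rfl).2 (by omega)))
  mem _ hL := mem hL
  trH L hL x hx := ⟨trH hL hx, by
    have := (hL.off _ x (out hL x)).2.2
    rwa [τsucc] at this⟩
  Hsym L hL b j x := ⟨symH hL x, symPs hL b x, symDY hL j x, symDP hL b j x, by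
    rw [Lev.hh, star_sub, symDP hL, star_sm _ (by rw [star_sub, star_one, symPs hL])]⟩
  hsym L hL i x := by
    by_cases hx : x ∈ L.O i
    · rw [h_in hx, star_sub, star_add, symH hL, hL.sym, star_sm _ (star_one _), tr_sub, tr_add,
        tr_smul, tr_one, trH hL (anti hL i.zero_le hx), hL.on i x hx]
      exact ⟨rfl, by ring⟩
    · rw [h_out hx, star_zero, tr_zero]
      exact ⟨rfl, rfl⟩
  h0 L hL x := by
    by_cases hx : x ∈ L.O 0
    · rw [h_in hx, Lev.H, τzero]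
      abel
    · exact h_out hx
  DYlt L hL i x hi := by
    have h1 : x ∈ L.O (i + 1) := (hL.hJ _ x (by omega)).2 hi
    rw [h_in h1, h_in (anti hL i.le_succ h1), Lev.DY, τsucc]
    module
  DYeq L hL x hx := by
    rw [h_in ((mem hL _ x).2 ⟨hx, le_rfl⟩), Lev.DY, (hL.off _ x (out hL x)).2.1, Lev.s]
    abel
  off _ hL _ _ hx := off hL hx
  offZ L hL b P j j' x hx := by
    have hD : L.DZ b j j' x = 0 :=
      Finset.sum_eq_zero fun i hi => by rw [(offs hL hx hi).2.2.1, smul_zero]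
    refine ⟨Finset.sum_eq_zero fun i hi => by rw [(offs hL hx hi).1, mul_zero],
      Finset.sum_eq_zero fun i hi => by rw [(offs hL hx hi).2.1, smul_zero], hD, ?_, ?_, ?_⟩
    · rw [Lev.muP, hD, smul_zero, hs_zero_right]
    · rw [Lev.muI, Finset.sum_eq_zero fun i hi => by rw [(offs hL hx hi).2.2.1, tr_zero, mul_zero],
        mul_zero]
    · rw [Lev.DP, Finset.sum_eq_zero fun i hi => by rw [(offs hL hx hi).2.2.1, smul_zero],
        add_zero]
  vw := by
    obtain ⟨C, b₀, C0, b0, H⟩ := hN.pow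
    refine ⟨C, b₀, C0, b0, fun L hL b j hb hb' x hx => ?_⟩
    have k := H L.δ b (L.J x - j) hL.δ0 hL.δ1 hb hb'
    rw [Lev.w, Lev.s, τdiv hL ((mem hL j x).1 hx).2]
    exact ⟨one_le_pow₀ (le_add_of_nonneg_right (mul_pos hL.δ0 hb).le), k⟩

end Pool.Agent.MP_29b5d3_an.EX
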