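import Pool.Agent.MP_29b5d3_an.EX.OLev
import Mathlib.MeasureTheory.Covering.DensityTheorem
import Mathlib.Analysis.Calculus.MeanValue
import Mathlib.Analysis.SpecialFunctions.SmoothTransition
import Mathlib.MeasureTheory.Integral.IntervalIntegral.FundThmCalculus
import Mathlib.MeasureTheory.Function.L2Space
import Pool.Agent.MP_29b5d3_an.EX.Rblk2

-- ======== part 0: formerly Pool.Agent.MP_29b5d3_an.EX.Oa1
section MrgPart0

/-! Project EXQ, obstacle package: elementary calculus of the weak inequalities. -/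

set_option autoImplicit false

namespace Pool.Agent.MP_29b5d3_an.EX

open MeasureTheory Metric Filter Topology Module
open scoped RealInnerProductSpace ContDiff ENNReal
open Pool.Agent.MP_29b5d3_an.NC

variable {n : ℕ}

namespace Oa1

theorem intm {g ζ : V n → ℝ} {R : ℝ} (hg : LocallyIntegrable g volume) (hζ : Test ζ R) :
    Integrable (fun x => g x * ζ x) volume :=
  hg.integrable_smul_right_of_hasCompactSupport hζ.cont hζ.supp

theorem hasD {a : V n → ℝ} {R : ℝ} (ha : Test a R) (y : V n) : HasFDerivAt a (fderiv ℝ a y) y :=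
  (ha.1.differentiable (by simp) y).hasFDerivAt

theorem test_comb {a b : V n → ℝ} {R : ℝ} (ha : Test a R) (hb : Test b R) (c : ℝ) :
    Test (fun y => a y + c * b y) R :=
  ⟨ha.1.add (contDiff_const.mul hb.1), fun y hy => by simp [ha.2 y hy, hb.2 y hy]⟩

theorem der_comb {a b : V n → ℝ} {R : ℝ} (ha : Test a R) (hb : Test b R) (c : ℝ) (y v : V n) :
    fderiv ℝ (fun y => a y + c * b y) y v = fderiv ℝ a y v + c * fderiv ℝ b y v := by
  have k : HasFDerivAt (fun y => a y + c * b y) (fderiv ℝ a y + c • fderiv ℝ b y) y :=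
    (hasD ha y).add ((hasD hb y).const_mul c)
  rw [k.fderiv]
  rfl

theorem lap_comb {a b : V n → ℝ} {R : ℝ} (ha : Test a R) (hb : Test b R) (c : ℝ) (x : V n) :
    lap (fun y => a y + c * b y) x = lap a x + c * lap b x := by
  rw [(test_comb ha hb c).lap_eq, ha.lap_eq, hb.lap_eq, Finset.mul_sum, ← Finset.sum_add_distrib]
  refine Finset.sum_congr rfl fun i _ => ?_
  simp only [der_comb ha hb c]
  exact der_comb (ha.der _) (hb.der _) c x _

/-- the function moved to the centre `x` and the scale `r` -/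
noncomputable def rs (ζ : V n → ℝ) (x : V n) (r : ℝ) (z : V n) : ℝ := ζ (r⁻¹ • (z - x))

theorem test_rs {ζ : V n → ℝ} {R r : ℝ} (h : Test ζ R) (x : V n) (hr : 0 < r) :
    Test (rs ζ x r) (‖x‖ + r * |R|) := by
  refine ⟨h.1.comp ((contDiff_id.sub contDiff_const).const_smul r⁻¹), fun y hy => h.2 _ ?_⟩
  rw [norm_smul, Real.norm_of_nonneg (inv_pos.2 hr).le, ← div_eq_inv_mul, le_div_iff₀ hr]
  have h1 := norm_sub_norm_le y x
  nlinarith [le_abs_self R]

theorem der_rs {ζ : V n → ℝ} {R : ℝ} (h : Test ζ R) (x : V n) (r c : ℝ) (z v : V n) :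
    fderiv ℝ (fun y => c * rs ζ x r y) z v = c * r⁻¹ * rs (fun y => fderiv ℝ ζ y v) x r z := by
  have k0 : HasFDerivAt (fun y : V n => r⁻¹ • (y - x)) (r⁻¹ • ContinuousLinearMap.id ℝ (V n)) z :=
    ((hasFDerivAt_id z).sub_const x).const_smul r⁻¹
  have k1 := HasFDerivAt.comp (f := fun y : V n => r⁻¹ • (y - x)) z (hasD h _) k0
  have k : HasFDerivAt (fun y => c * rs ζ x r y) _ z := k1.const_mul c
  rw [k.fderiv]
  simp [rs, mul_assoc]

theorem lap_rs {ζ : V n → ℝ} {R r : ℝ} (h : Test ζ R) (x : V n) (hr : 0 < r) (z : V n) :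
    lap (rs ζ x r) z = (r ^ 2)⁻¹ * rs (lap ζ) x r z := by
  rw [(test_rs h x hr).lap_eq, rs, h.lap_eq, Finset.mul_sum]
  refine Finset.sum_congr rfl fun i _ => ?_
  have e : (fun y => fderiv ℝ (rs ζ x r) y (ev i)) =
      fun y => r⁻¹ * rs (fun y => fderiv ℝ ζ y (ev i)) x r y := funext fun y => by
    simpa using der_rs h x r 1 y (ev i)
  rw [e, der_rs (h.der _), rs, sq, mul_inv]

theorem av_rs (θ g : V n → ℝ) (x : V n) {r : ℝ} (hr : 0 < r) :
    av θ g x r = (r ^ n)⁻¹ * ∫ z, g z * rs θ x r z := by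
  have h := Measure.integral_comp_smul volume (fun z => g (x + z) * rs θ x r (x + z)) r
  rw [integral_add_left_eq_self (fun z => g z * rs θ x r z), fr,
    abs_of_pos (inv_pos.2 (pow_pos hr n)), smul_eq_mul] at h
  rw [← h, av]
  simp only [rs, add_sub_cancel_left, inv_smul_smul₀ hr.ne', smul_eq_mul, mul_comm]

theorem av_lap {ζ : V n → ℝ} {R r : ℝ} (h : Test ζ R) (u : V n → ℝ) (x : V n) (hr : 0 < r) :
    av (lap ζ) u x r = r ^ 2 * ((r ^ n)⁻¹ * ∫ z, u z * lap (rs ζ x r) z) := by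
  simp only [lap_rs h x hr, mul_left_comm _ (r ^ 2)⁻¹]
  rw [integral_const_mul, av_rs _ _ x hr]
  field_simp

theorem lle_av (u f ζ : V n → ℝ) (R : ℝ) (h : LLe u f) (hζ : Test ζ R) (h0 : ∀ y, 0 ≤ ζ y)
    (x : V n) (r : ℝ) (hr : 0 < r) : av (lap ζ) u x r ≤ r ^ 2 * av ζ f x r := by
  rw [av_lap hζ u x hr, av_rs ζ f x hr]
  exact mul_le_mul_of_nonneg_left (mul_le_mul_of_nonneg_left
    (h _ _ (test_rs hζ x hr) fun _ => h0 _) (by positivity)) (by positivity)

theorem lge_av (u f ζ : V n → ℝ) (R : ℝ) (h : LGe u f) (hζ : Test ζ R) (h0 : ∀ y, 0 ≤ ζ y)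
    (x : V n) (r : ℝ) (hr : 0 < r) : r ^ 2 * av ζ f x r ≤ av (lap ζ) u x r := by
  rw [av_lap hζ u x hr, av_rs ζ f x hr]
  exact mul_le_mul_of_nonneg_left (mul_le_mul_of_nonneg_left
    (h _ _ (test_rs hζ x hr) fun _ => h0 _) (by positivity)) (by positivity)

/-- every test function is a difference of two nonnegative ones -/
theorem split {ζ : V n → ℝ} {R : ℝ} (h : Test ζ R) : ∃ (χ : V n → ℝ) (c R' : ℝ), 0 < c ∧
    Test ζ R' ∧ Test χ R' ∧ (∀ y, 0 ≤ χ y) ∧ ∀ y, 0 ≤ ζ y + c * χ y := by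
  obtain ⟨c, hc, hb⟩ := h.bdd
  obtain ⟨χ, h1, h2, h3⟩ := exists_cut (n := n) (a := max R 1) (b := max R 1 + 1)
    (by positivity) (by linarith)
  refine ⟨χ, c, _, hc, h.mono (by linarith [le_max_left R 1]), h1, fun y => (h2 y).1, fun y => ?_⟩
  rcases le_total ‖y‖ (max R 1) with hy | hy
  · rw [h3 y hy]
    linarith [neg_abs_le (ζ y), hb y]
  · rw [h.2 y ((le_max_left _ _).trans hy), zero_add]
    exact mul_nonneg hc.le (h2 y).1

theorem int_comb {g a b : V n → ℝ} {R : ℝ} (hg : LocallyIntegrable g volume) (ha : Test a R)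
    (hb : Test b R) (c : ℝ) :
    ∫ x, g x * (a x + c * b x) = (∫ x, g x * a x) + c * ∫ x, g x * b x := by
  rw [← integral_const_mul, ← integral_add (intm hg ha) ((intm hg hb).const_mul c)]
  exact integral_congr_ae (Eventually.of_forall fun x => by ring)

theorem eq_all (u f : V n → ℝ) (hu : LocallyIntegrable u volume)
    (hf : LocallyIntegrable f volume) (h1 : LLe u f) (h2 : LGe u f) (ζ : V n → ℝ) (R : ℝ)
    (hζ : Test ζ R) : ∫ x, u x * lap ζ x = ∫ x, f x * ζ x := by
  obtain ⟨χ, c, R', -, t1, t2, p1, p2⟩ := split hζ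
  have e1 := le_antisymm (h1 _ _ t2 p1) (h2 _ _ t2 p1)
  have e2 := le_antisymm (h1 _ _ (test_comb t1 t2 c) p2) (h2 _ _ (test_comb t1 t2 c) p2)
  simp only [lap_comb t1 t2 c] at e2
  rw [int_comb hu t1.lap t2.lap, int_comb hf t1 t2, e1] at e2
  linarith

theorem lb_pos {u η : V n → ℝ} {M R r : ℝ} (h : LB u M) (hη : Test η R) (h0 : ∀ y, 0 ≤ η y)
    (x : V n) (hr : 0 < r) : |av (lap η) u x r| ≤ (∫ y, η y) * M * r ^ 2 := by
  have h1 := lle_av u _ η R h.1 hη h0 x r hr
  have h2 := lge_av u _ η R h.2 hη h0 x r hr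
  simp only [av, smul_eq_mul, integral_mul_const] at h1 h2 ⊢
  rw [abs_le]
  constructor <;> linarith

theorem lb_av (hA : AvA n) (ζ : V n → ℝ) (R : ℝ) (hζ : Test ζ R) : ∃ C, 0 < C ∧
    ∀ (u : V n → ℝ) (M : ℝ), LocallyIntegrable u volume → LB u M → 0 ≤ M →
      ∀ (x : V n) (r : ℝ), 0 < r → |av (lap ζ) u x r| ≤ C * M * r ^ 2 := by
  obtain ⟨χ, c, R', hc, t1, t2, p1, p2⟩ := split hζ
  have i1 : 0 ≤ ∫ y, χ y := integral_nonneg p1
  have i2 : 0 ≤ ∫ y, (ζ y + c * χ y) := integral_nonneg p2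
  refine ⟨(∫ y, (ζ y + c * χ y)) + c * (∫ y, χ y) + 1, by positivity, fun u M hu h hM x r hr => ?_⟩
  have b1 := lb_pos h t2 p1 x hr
  have b2 := lb_pos h (test_comb t1 t2 c) p2 x hr
  have e : av (lap fun y => ζ y + c * χ y) u x r = av (lap ζ) u x r + c * av (lap χ) u x r := by
    have := int_comb (hA.loc ℝ u hu x r hr.ne') t1.lap t2.lap c
    simpa only [av, smul_eq_mul, lap_comb t1 t2 c, mul_comm (u _)] using this
  have b3 := abs_le.1 ((abs_mul c _).trans_le
    (mul_le_mul (abs_of_pos hc).le b1 (abs_nonneg _) hc.le))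
  have b4 : 0 ≤ M * r ^ 2 := by positivity
  rw [e, abs_le] at b2
  rw [abs_le]
  constructor <;> linarith [b2.1, b2.2, b3.1, b3.2]

theorem green1 (hB : AvB n) {a b : V n → ℝ} {R R' : ℝ} (ha : Test a R) (hb : Test b R') :
    ∫ x, a x * lap b x = -∫ x, ⟪gradient a x, gradient b x⟫ := by
  simp only [inner_gradient]
  exact hB.dvg a R _ _ ha (hB.ofC1 _ (hb.smooth_grad.of_le (by simp)))

theorem int_sub {u v ζ : V n → ℝ} {R : ℝ} (hu : LocallyIntegrable u volume)
    (hv : LocallyIntegrable v volume) (hζ : Test ζ R) :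
    ∫ x, (u x - v x) * ζ x = (∫ x, u x * ζ x) - ∫ x, v x * ζ x := by
  simp only [sub_mul]
  exact integral_sub (intm hu hζ) (intm hv hζ)

theorem int_mono {f g ζ : V n → ℝ} {R : ℝ} (hf : LocallyIntegrable f volume)
    (hg : LocallyIntegrable g volume) (h : f ≤ᵐ[volume] g) (hζ : Test ζ R) (h0 : ∀ y, 0 ≤ ζ y) :
    ∫ x, f x * ζ x ≤ ∫ x, g x * ζ x :=
  integral_mono_ae (intm hf hζ) (intm hg hζ)
    (h.mono fun x hx => mul_le_mul_of_nonneg_right hx (h0 x))

theorem int_congr {u u' : V n → ℝ} (h : u =ᵐ[volume] u') (ζ : V n → ℝ) :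
    ∫ x, u x * ζ x = ∫ x, u' x * ζ x :=
  integral_congr_ae (h.mono fun x hx => by simp only [hx])

end Oa1

open Oa1 in
theorem oa1 {n : ℕ} (_hn : 3 ≤ n) (hA : AvA n) (hB : AvB n) : OA1 n where
  bd_loc f M h := (locallyIntegrable_const M).mono h.1.aestronglyMeasurable
    (Eventually.of_forall fun x => (h.2 x).trans (le_abs_self M))
  green a b R R' ha hb := ⟨green1 hB ha hb, by
    simp only [mul_comm (lap a _)]
    rw [green1 hB ha hb, green1 hB hb ha]
    simp only [real_inner_comm]⟩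
  lle_congr u u' f f' hu hf hf' hle h ζ R hζ h0 := by
    rw [← int_congr hu]
    exact (h ζ R hζ h0).trans (int_mono hf hf' hle hζ h0)
  lge_congr u u' f f' hu hf hf' hle h ζ R hζ h0 := by
    rw [← int_congr hu]
    exact (int_mono hf' hf hle hζ h0).trans (h ζ R hζ h0)
  sub_le u v f g hu hv hf hg h1 h2 ζ R hζ h0 := by
    rw [int_sub hu hv hζ.lap, int_sub hf hg hζ]
    exact sub_le_sub (h1 ζ R hζ h0) (h2 ζ R hζ h0)
  sub_ge u v f g hu hv hf hg h1 h2 ζ R hζ h0 := by
    rw [int_sub hu hv hζ.lap, int_sub hf hg hζ]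
    exact sub_le_sub (h1 ζ R hζ h0) (h2 ζ R hζ h0)
  eq_all := Oa1.eq_all
  lle_av := Oa1.lle_av
  lge_av := Oa1.lge_av
  lb_av := Oa1.lb_av hA

end Pool.Agent.MP_29b5d3_an.EX

end MrgPart0

-- ======== part 1: formerly Pool.Agent.MP_29b5d3_an.EX.Oa2
section MrgPart1

/-! Project EXQ, obstacle package: limits and comparison of averages. -/

set_option autoImplicit false

namespace Pool.Agent.MP_29b5d3_an.EX

open MeasureTheory Metric Filter Topology Module Set
open scoped RealInnerProductSpace ContDiff ENNReal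
open Pool.Agent.MP_29b5d3_an.NC

namespace Oa2

variable {n : ℕ} {U : Type} [NormedAddCommGroup U]

theorem on_ball {g : V n → U} (hg : LocallyIntegrable g volume) (x : V n) (r : ℝ) :
    IntegrableOn g (ball x r) volume :=
  (hg.integrableOn_isCompact (isCompact_closedBall x r)).mono_set ball_subset_closedBall

theorem leb (hA : AvA n) (g : V n → U) (hg : LocallyIntegrable g volume) :
    ∀ᵐ x, Tendsto (fun r => Iv (fun z => ‖g z - g x‖) x r) (𝓝[>] 0) (𝓝 0) := by
  filter_upwards [IsUnifLocDoublingMeasure.ae_tendsto_average_norm_sub volume hg 1] with x hx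
  have h2 := (hx (l := 𝓝[>] (0 : ℝ)) (fun _ => x) id tendsto_id (by
    filter_upwards [self_mem_nhdsWithin] with r hr
    exact mem_closedBall_self (by simpa using le_of_lt hr))).const_mul
      ((volume : Measure (V n)).real (ball 0 1))
  rw [mul_zero] at h2
  refine squeeze_zero' (Eventually.of_forall fun _ => integral_nonneg fun _ => norm_nonneg _) ?_ h2
  filter_upwards [self_mem_nhdsWithin] with r hr
  have hr : 0 < r := hr
  have hl : LocallyIntegrable (fun z => g z - g x) volume := hg.sub (locallyIntegrable_const _)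
  have hb : 0 < (volume : Measure (V n)).real (ball 0 1) :=
    ENNReal.toReal_pos (measure_ball_pos _ _ one_pos).ne' measure_ball_lt_top.ne
  have e : ∀ b I : ℝ, 0 < b → b * ((r ^ n * b)⁻¹ * I) = (r ^ n)⁻¹ * I := by
    intro b I h
    field_simp
  rw [hA.Iv_eq _ x r hr, setAverage_eq, id, Measure.addHaar_real_closedBall _ _ hr.le, fr,
    smul_eq_mul, e _ _ hb]
  exact mul_le_mul_of_nonneg_left (setIntegral_mono_set
    (hl.integrableOn_isCompact (isCompact_closedBall x r)).norm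
    (Eventually.of_forall fun _ => norm_nonneg _) ball_subset_closedBall.eventuallyLE)
    (by positivity)

variable [NormedSpace ℝ U]

theorem int_av (hA : AvA n) {φ : V n → ℝ} {g : V n → U} (hφ : Test φ 1)
    (hg : LocallyIntegrable g volume) (x : V n) {r : ℝ} (hr : 0 < r) :
    Integrable (fun y => φ y • g (x + r • y)) volume :=
  (hA.loc U g hg x r hr.ne').integrable_smul_left_of_hasCompactSupport hφ.cont hφ.supp

theorem av_sub [CompleteSpace U] (hA : AvA n) {φ : V n → ℝ} {g : V n → U} (hφ : Test φ 1)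
    (h1 : ∫ y, φ y = 1) (hg : LocallyIntegrable g volume) (c : U) (x : V n) {r : ℝ}
    (hr : 0 < r) : av φ g x r - c = av φ (fun z => g z - c) x r := by
  simp only [av, smul_sub]
  rw [integral_sub (int_av hA hφ hg x hr) (hφ.int.smul_const c), integral_smul_const, h1, one_smul]

theorem leb_av [CompleteSpace U] (hA : AvA n) (φ : V n → ℝ) (g : V n → U) (hφ : Test φ 1)
    (h1 : ∫ y, φ y = 1) (hg : LocallyIntegrable g volume) :
    ∀ᵐ x, Tendsto (av φ g x) (𝓝[>] 0) (𝓝 (g x)) := by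
  obtain ⟨C, -, hC⟩ := hφ.bdd
  filter_upwards [leb hA g hg] with x hx
  have h2 := hx.const_mul C
  rw [mul_zero] at h2
  rw [tendsto_iff_norm_sub_tendsto_zero]
  refine squeeze_zero' (Eventually.of_forall fun _ => norm_nonneg _) ?_ h2
  filter_upwards [self_mem_nhdsWithin] with r hr
  rw [av_sub hA hφ h1 hg _ x hr]
  exact hA.av_le U φ _ C hφ hC (hg.sub (locallyIntegrable_const _)) x r hr

theorem mem_ball_of {x y : V n} {r : ℝ} (hr : 0 < r) (hy : ‖y‖ < 1) : x + r • y ∈ ball x r := by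
  rw [mem_ball_iff_norm, add_sub_cancel_left, norm_smul, Real.norm_of_nonneg hr.le]
  exact mul_lt_of_lt_one_right hr hy

theorem lim (hA : AvA n) (φ u : V n → ℝ) (hφ : Test φ 1) (h0 : ∀ y, 0 ≤ φ y)
    (h1 : ∫ y, φ y = 1) (hu : Continuous u) (x : V n) :
    Tendsto (av φ u x) (𝓝[>] 0) (𝓝 (u x)) := by
  refine Metric.tendsto_nhds.2 fun ε hε => ?_
  obtain ⟨η, hη, h⟩ := Metric.continuousAt_iff.1 (hu.continuousAt (x := x)) (ε / 2) (half_pos hε)
  filter_upwards [Ioo_mem_nhdsGT hη] with r hr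
  rw [dist_eq_norm, av_sub hA hφ h1 hu.locallyIntegrable _ x hr.1]
  refine ((norm_integral_le_of_norm_le (hφ.int.mul_const (ε / 2))
    (Eventually.of_forall fun y => ?_)).trans
      (le_of_eq (by rw [integral_mul_const, h1, one_mul]))).trans_lt (half_lt_self hε)
  rw [norm_smul, Real.norm_of_nonneg (h0 y)]
  rcases le_or_gt 1 ‖y‖ with hy | hy
  · rw [hφ.2 y hy, zero_mul, zero_mul]
  refine mul_le_mul_of_nonneg_left ?_ (h0 y)
  rw [← dist_eq_norm]
  exact (h ((mem_ball.1 (mem_ball_of hr.1 hy)).trans hr.2)).le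

theorem av_mono (hA : AvA n) (ζ f g : V n → ℝ) (x : V n) (r : ℝ) (hζ : Test ζ 1)
    (h0 : ∀ y, 0 ≤ ζ y) (hf : LocallyIntegrable f volume) (hg : LocallyIntegrable g volume)
    (hr : 0 < r) (h : ∀ᵐ z, z ∈ ball x r → f z ≤ g z) : av ζ f x r ≤ av ζ g x r := by
  refine integral_mono_ae (int_av hA hζ hf x hr) (int_av hA hζ hg x hr) ?_
  filter_upwards [hA.ae _ x r hr.ne' h] with y hy
  rcases le_or_gt 1 ‖y‖ with h1 | h1
  · rw [hζ.2 y h1, zero_smul, zero_smul]
  · exact smul_le_smul_of_nonneg_left (hy (mem_ball_of hr h1)) (h0 y)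

theorem av_low (hA : AvA n) (ζ g : V n → ℝ) (c : ℝ) (x : V n) (r : ℝ) (hζ : Test ζ 1)
    (h0 : ∀ y, 0 ≤ ζ y) (hc : ∀ y, ‖y‖ ≤ 1 / 2 → c ≤ ζ y) (hg : LocallyIntegrable g volume)
    (g0 : ∀ z, 0 ≤ g z) (hr : 0 < r) :
    c * ((r ^ n)⁻¹ * ∫ z in ball x (r / 2), g z) ≤ av ζ g x r := by
  rw [div_eq_mul_one_div, ← hA.ball_eq g x r _ hr, ← integral_const_mul,
    ← integral_indicator measurableSet_ball]
  refine integral_mono ((integrable_indicator_iff measurableSet_ball).2
    ((on_ball (hA.loc ℝ g hg x r hr.ne') 0 _).const_mul c)) (int_av hA hζ hg x hr) fun y => ?_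
  by_cases hy : y ∈ ball (0 : V n) (1 / 2)
  · rw [indicator_of_mem hy]
    exact mul_le_mul_of_nonneg_right (hc y (mem_ball_zero_iff.1 hy).le) (g0 _)
  · rw [indicator_of_notMem hy]
    exact mul_nonneg (h0 y) (g0 _)

end Oa2

set_option linter.unusedVariables false in
theorem oa2 {n : ℕ} (hn : 3 ≤ n) (hA : AvA n) : OA2 n where
  lim := Oa2.lim hA
  leb := fun _ _ => Oa2.leb hA
  leb_av := fun _ _ _ _ => Oa2.leb_av hA
  av_mono := Oa2.av_mono hA
  av_low := Oa2.av_low hA

end Pool.Agent.MP_29b5d3_an.EX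

end MrgPart1

-- ======== part 2: formerly Pool.Agent.MP_29b5d3_an.EX.Ob1
section MrgPart2

/-! Project EXQ: mean value inequalities, continuity, mass bound at a zero. -/

set_option autoImplicit false

namespace Pool.Agent.MP_29b5d3_an.EX

open MeasureTheory Metric Filter Topology Module
open scoped RealInnerProductSpace ContDiff ENNReal
open Pool.Agent.MP_29b5d3_an.NC

variable {n : ℕ}

namespace Ob1

variable {φ ψ u : V n → ℝ}

theorem av_const (ψ : V n → ℝ) (M : ℝ) (x : V n) (r : ℝ) :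
    av ψ (fun _ => M) x r = (∫ y, ψ y) * M := by
  simp [av, integral_mul_const]

theorem mvt (hB : AvB n) (k : Ker φ ψ) (hu : LocallyIntegrable u volume) (x : V n) {s r : ℝ}
    (hs : 0 < s) (hr : s ≤ r) : ∃ ρ, s ≤ ρ ∧ ρ ≤ r ∧
      av φ u x r - av φ u x s = (r - s) * (ρ⁻¹ * av (lap ψ) u x ρ) := by
  rcases hr.eq_or_lt with rfl | hr
  · exact ⟨s, le_rfl, le_rfl, by simp⟩
  obtain ⟨ρ, h1, h2⟩ := exists_hasDerivAt_eq_slope (av φ u x) (fun ρ => ρ⁻¹ * av (lap ψ) u x ρ) hr
    (fun ρ h => (hB.dr ℝ φ ψ u k hu x ρ (hs.trans_le h.1)).continuousAt.continuousWithinAt)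
    fun ρ h => hB.dr ℝ φ ψ u k hu x ρ (hs.trans h.1)
  exact ⟨ρ, h1.1.le, h1.2.le, by rw [h2, mul_div_cancel₀ _ (sub_pos.2 hr).ne']⟩

theorem arith {s r ρ A I M : ℝ} (hs : 0 < s) (h1 : s ≤ ρ) (h2 : ρ ≤ r) (hI : 0 ≤ I) (hM : 0 ≤ M)
    (hA : A ≤ ρ ^ 2 * (I * M)) : (r - s) * (ρ⁻¹ * A) ≤ (I + 1) * M * r ^ 2 := by
  have h0 : 0 < ρ := hs.trans_le h1
  have h3 : ρ⁻¹ * A ≤ r * (I * M) := by
    rw [inv_mul_le_iff₀ h0]
    exact hA.trans (by rw [sq, mul_assoc]; gcongr)
  have h4 : 0 ≤ r := h0.le.trans h2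
  calc _ ≤ (r - s) * (r * (I * M)) := mul_le_mul_of_nonneg_left h3 (by linarith)
    _ ≤ r * (r * ((I + 1) * M)) := by gcongr <;> linarith
    _ = _ := by ring

theorem up (hB : AvB n) (h : OA n) (k : Ker φ ψ) (u f : V n → ℝ) (M : ℝ) (x : V n) (s r : ℝ)
    (hu : LocallyIntegrable u volume) (hf : LocallyIntegrable f volume) (hl : LLe u f)
    (hM : 0 ≤ M) (hs : 0 < s) (hr : s ≤ r) (hb : ∀ᵐ z, z ∈ ball x r → f z ≤ M) :
    av φ u x r ≤ av φ u x s + ((∫ y, ψ y) + 1) * M * r ^ 2 := by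
  obtain ⟨ρ, h1, h2, e⟩ := mvt hB k hu x hs hr
  have h0 : 0 < ρ := hs.trans_le h1
  have h3 := h.av_mono ψ f (fun _ => M) x ρ k.tψ k.ψ0 hf (locallyIntegrable_const M) h0
    (hb.mono fun z hz h' => hz (ball_subset_ball h2 h'))
  rw [av_const] at h3
  have := arith hs h1 h2 (integral_nonneg k.ψ0) hM ((h.lle_av u f ψ 1 hl k.tψ k.ψ0 x ρ h0).trans
    (mul_le_mul_of_nonneg_left h3 (sq_nonneg _)))
  linarith

theorem down (hB : AvB n) (h : OA n) (k : Ker φ ψ) (u f : V n → ℝ) (M : ℝ) (x : V n) (s r : ℝ)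
    (hu : LocallyIntegrable u volume) (hf : LocallyIntegrable f volume) (hl : LGe u f)
    (hM : 0 ≤ M) (hs : 0 < s) (hr : s ≤ r) (hb : ∀ᵐ z, z ∈ ball x r → -M ≤ f z) :
    av φ u x s ≤ av φ u x r + ((∫ y, ψ y) + 1) * M * r ^ 2 := by
  obtain ⟨ρ, h1, h2, e⟩ := mvt hB k hu x hs hr
  have h0 : 0 < ρ := hs.trans_le h1
  have h3 := h.av_mono ψ (fun _ => -M) f x ρ k.tψ k.ψ0 (locallyIntegrable_const _) hf h0
    (hb.mono fun z hz h' => hz (ball_subset_ball h2 h'))
  rw [av_const] at h3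
  have h4 := (mul_le_mul_of_nonneg_left h3 (sq_nonneg ρ)).trans
    (h.lge_av u f ψ 1 hl k.tψ k.ψ0 x ρ h0)
  have := arith (A := -av (lap ψ) u x ρ) hs h1 h2 (integral_nonneg k.ψ0) hM (by linarith)
  linarith

theorem pos (k : Ker φ ψ) : 0 < (∫ y, ψ y) + 1 :=
  add_pos_of_nonneg_of_pos (integral_nonneg k.ψ0) one_pos

theorem up0 (hB : AvB n) (h : OA n) (k : Ker φ ψ) (u f : V n → ℝ) (M : ℝ) (x : V n) (r : ℝ)
    (hu : Continuous u) (hf : LocallyIntegrable f volume) (hl : LLe u f)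
    (hM : 0 ≤ M) (hr : 0 < r) (hb : ∀ᵐ z, z ∈ ball x r → f z ≤ M) :
    av φ u x r ≤ u x + ((∫ y, ψ y) + 1) * M * r ^ 2 := by
  refine ge_of_tendsto ((h.lim φ u k.tφ k.φ0 k.one hu x).add_const _) ?_
  filter_upwards [Ioc_mem_nhdsGT hr] with s hs
  exact up hB h k u f M x s r hu.locallyIntegrable hf hl hM hs.1 hs.2 hb

theorem down0 (hB : AvB n) (h : OA n) (k : Ker φ ψ) (u f : V n → ℝ) (M : ℝ) (x : V n) (r : ℝ)
    (hu : Continuous u) (hf : LocallyIntegrable f volume) (hl : LGe u f)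
    (hM : 0 ≤ M) (hr : 0 < r) (hb : ∀ᵐ z, z ∈ ball x r → -M ≤ f z) :
    u x ≤ av φ u x r + ((∫ y, ψ y) + 1) * M * r ^ 2 := by
  refine le_of_tendsto (h.lim φ u k.tφ k.φ0 k.one hu x) ?_
  filter_upwards [Ioc_mem_nhdsGT hr] with s hs
  exact down hB h k u f M x s r hu.locallyIntegrable hf hl hM hs.1 hs.2 hb

theorem cont (hA : AvA n) (hB : AvB n) (h : OA n) (k : Ker φ ψ) (u₀ : V n → ℝ) (M : ℝ)
    (hu : LocallyIntegrable u₀ volume) (hl : LB u₀ M) (hM : 0 ≤ M) :
    ∃ u : V n → ℝ, Continuous u ∧ u =ᵐ[volume] u₀ := by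
  let r : ℕ → ℝ := fun i => 1 / ((i : ℝ) + 1)
  have r0 : ∀ i, 0 < r i := fun i => Nat.one_div_pos_of_nat
  have r1 : Tendsto r atTop (𝓝 0) := tendsto_one_div_add_atTop_nhds_zero_nat
  have b0 : Tendsto (fun i => ((∫ y, ψ y) + 1) * M * r i ^ 2) atTop (𝓝 0) := by
    simpa using (r1.pow 2).const_mul (((∫ y, ψ y) + 1) * M)
  have d : ∀ x i j, i ≤ j → dist (av φ u₀ x (r i)) (av φ u₀ x (r j)) ≤
      ((∫ y, ψ y) + 1) * M * r i ^ 2 := fun x i j hij => by
    have hr : r j ≤ r i := Nat.one_div_le_one_div hij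
    have h1 := up hB h k u₀ _ M x _ _ hu (locallyIntegrable_const M) hl.1 hM (r0 j) hr
      (Eventually.of_forall fun _ _ => le_rfl)
    have h2 := down hB h k u₀ _ M x _ _ hu (locallyIntegrable_const (-M)) hl.2 hM (r0 j) hr
      (Eventually.of_forall fun _ _ => le_rfl)
    rw [Real.dist_eq, abs_le]
    constructor <;> linarith
  choose u hu' using fun x => cauchySeq_tendsto_of_complete
    (cauchySeq_of_le_tendsto_0' _ (d x) b0)
  refine ⟨u, TendstoUniformly.continuous (F := fun i x => av φ u₀ x (r i)) (p := atTop) ?_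
    (Frequently.of_forall fun i => ?_), ?_⟩
  · refine Metric.tendstoUniformly_iff.2 fun ε hε => ?_
    filter_upwards [b0.eventually (gt_mem_nhds hε)] with i hi x
    rw [dist_comm]
    exact (le_of_tendsto (tendsto_const_nhds.dist (hu' x))
      (eventually_atTop.2 ⟨i, d x i⟩)).trans_lt hi
  · exact (hA.smooth ℝ φ 1 u₀ k.tφ hu).continuousOn.comp_continuous
      (f := fun x => (x, r i)) (by fun_prop) fun _ => r0 i
  · filter_upwards [h.leb_av ℝ φ u₀ k.tφ k.one hu] with x hx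
    exact tendsto_nhds_unique (hu' x) (hx.comp
      (tendsto_nhdsWithin_iff.2 ⟨r1, Eventually.of_forall r0⟩))

theorem mass (hA : AvA n) (hB : AvB n) (h : OA n) (k : Ker φ ψ) :
    ∃ C, 0 < C ∧ ∀ (T g : V n → ℝ) (M : ℝ) (x₀ : V n) (r : ℝ), Continuous T →
    (∀ x, 0 ≤ T x) → T x₀ = 0 → LocallyIntegrable g volume → (∀ x, 0 ≤ g x) → 0 ≤ M →
    LLe T (fun x => M - g x) → 0 < r → ∫ z in ball x₀ r, g z ≤ C * M * r ^ n := by
  obtain ⟨c, hc, hc'⟩ := k.low
  have hI : 0 ≤ ∫ y, ψ y := integral_nonneg k.ψ0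
  refine ⟨4 ^ n * (2 * (∫ y, ψ y) + 1) / c, by positivity,
    fun T g M x r hT T0 Tx hg g0 hM hl hr => ?_⟩
  have h1 := up0 hB h k T _ M x (2 * r) hT ((locallyIntegrable_const M).sub hg) hl hM
    (by linarith) (Eventually.of_forall fun z _ => sub_le_self _ (g0 z))
  obtain ⟨ρ, r1, r2, e⟩ := mvt hB k hT.locallyIntegrable x (s := 2 * r) (r := 4 * r)
    (by linarith) (by linarith)
  have h0 : 0 < ρ := by linarith
  have h2 := h.lle_av T _ ψ 1 hl k.tψ k.ψ0 x ρ h0
  have h3 : av ψ (fun x => M - g x) x ρ = (∫ y, ψ y) * M - av ψ g x ρ := by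
    rw [← av_const ψ M x ρ, av, av, av, ← integral_sub
      ((locallyIntegrable_const M).integrable_smul_left_of_hasCompactSupport k.tψ.cont k.tψ.supp)
      ((hA.loc ℝ g hg x ρ h0.ne').integrable_smul_left_of_hasCompactSupport k.tψ.cont k.tψ.supp)]
    simp only [smul_sub]
  have h4 : 0 ≤ av φ T x (4 * r) := integral_nonneg fun y => mul_nonneg (k.φ0 y) (T0 _)
  have h5 : ρ⁻¹ * av (lap ψ) T x ρ ≤ ρ * ((∫ y, ψ y) * M - av ψ g x ρ) := by
    rw [inv_mul_le_iff₀ h0, ← h3, ← mul_assoc, ← sq]; exact h2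
  have h6 : av ψ g x ρ ≤ (2 * (∫ y, ψ y) + 1) * M := by
    have h7 := mul_le_mul_of_nonneg_left h5 (by linarith : 0 ≤ 4 * r - 2 * r)
    have h8 : ((∫ y, ψ y) + 1) * M * (2 * r) * (2 * r) ≤ ((∫ y, ψ y) + 1) * M * (2 * r) * ρ :=
      mul_le_mul_of_nonneg_left r1 (by positivity)
    refine le_of_mul_le_mul_left ?_ (by positivity : 0 < 2 * r * ρ)
    nlinarith
  have h7 := (h.av_low ψ g c x ρ k.tψ k.ψ0 (fun y hy => (hc' y hy).2) hg g0 h0).trans h6
  have h8 : ∫ z in ball x r, g z ≤ ∫ z in ball x (ρ / 2), g z :=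
    setIntegral_mono_set ((hg.integrableOn_isCompact (isCompact_closedBall x (ρ / 2))).mono_set
      ball_subset_closedBall) (Eventually.of_forall g0)
      (ball_subset_ball (by linarith)).eventuallyLE
  rw [← le_div_iff₀' hc, inv_mul_le_iff₀ (pow_pos h0 n)] at h7
  refine h8.trans (h7.trans ?_)
  calc _ ≤ (4 * r) ^ n * ((2 * (∫ y, ψ y) + 1) * M / c) := by gcongr
    _ = _ := by rw [mul_pow]; ring

end Ob1

theorem ob1 {n : ℕ} (hn : 3 ≤ n) (hK : KerS n) (hA : AvA n) (hB : AvB n) (h : OA n) : OB1 n := by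
  obtain ⟨φ, ψ, k⟩ := hK.ker
  exact ⟨fun _ _ k => ⟨_, Ob1.pos k, Ob1.up hB h k⟩, fun _ _ k => ⟨_, Ob1.pos k, Ob1.down hB h k⟩,
    fun _ _ k => ⟨_, Ob1.pos k, Ob1.up0 hB h k⟩, fun _ _ k => ⟨_, Ob1.pos k, Ob1.down0 hB h k⟩,
    Ob1.cont hA hB h k, Ob1.mass hA hB h k⟩

end Pool.Agent.MP_29b5d3_an.EX

end MrgPart2

-- ======== part 3: formerly Pool.Agent.MP_29b5d3_an.EX.Ob2
section MrgPart3

/-! Project EXQ, row OB2: maximum principle and quadratic growth at a zero. -/

set_option autoImplicit false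

namespace Pool.Agent.MP_29b5d3_an.EX

open MeasureTheory Metric Filter Topology Module
open scoped RealInnerProductSpace ContDiff ENNReal
open Pool.Agent.MP_29b5d3_an.NC

variable {n : ℕ}

namespace Ob2

theorem unit (hn : 3 ≤ n) (x : V n) : ∃ e : V n, ‖e‖ = 1 ∧ x = ‖x‖ • e := by
  rcases eq_or_ne x 0 with rfl | h
  · exact ⟨ev ⟨0, by omega⟩, norm_ev _, by simp⟩
  · have h0 : ‖x‖ ≠ 0 := norm_ne_zero_iff.2 h
    refine ⟨‖x‖⁻¹ • x, ?_, by rw [smul_smul, mul_inv_cancel₀ h0, one_smul]⟩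
    rw [norm_smul, norm_inv, norm_norm, inv_mul_cancel₀ h0]

theorem level {w : V n → ℝ} (hw : Continuous w)
    (hd : ∀ ε, 0 < ε → ∃ R, ∀ x, R ≤ ‖x‖ → w x ≤ ε) {t : ℝ} (ht : 0 < t) :
    IsCompact {x | t ≤ w x} := by
  obtain ⟨R, hR⟩ := hd (t / 2) (by positivity)
  refine (isCompact_closedBall (0 : V n) R).of_isClosed_subset
    (isClosed_le continuous_const hw) fun x hx => ?_
  rw [mem_closedBall_zero_iff]
  by_contra hc
  have := hR x (le_of_lt (not_le.1 hc))
  have h2 : t ≤ w x := hx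
  linarith

theorem maxp (hn : 3 ≤ n) (hK : KerS n) (h1 : OB1 n) (w g : V n → ℝ) (hw : Continuous w)
    (hg : LocallyIntegrable g volume) (hL : LGe w g) (hp : ∀ᵐ x, 0 < w x → 0 ≤ g x)
    (hd : ∀ ε, 0 < ε → ∃ R, ∀ x, R ≤ ‖x‖ → w x ≤ ε) (x₁ : V n) : w x₁ ≤ 0 := by
  by_contra hx
  have hx₁ : 0 < w x₁ := not_le.1 hx
  obtain ⟨x₂, h₂, hm⟩ := (level hw hd hx₁).exists_isMaxOn ⟨x₁, le_refl (w x₁)⟩ hw.continuousOn
  have h₂' : w x₁ ≤ w x₂ := h₂
  have hmax : ∀ x, w x ≤ w x₂ := fun x => by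
    by_cases hc : w x₁ ≤ w x
    · exact hm hc
    · linarith [not_le.1 hc]
  obtain ⟨x₃, h₃, hn₃⟩ := (level hw hd (hx₁.trans_le h₂')).exists_isMaxOn ⟨x₂, le_refl (w x₂)⟩
    continuous_norm.continuousOn
  have h₃' : w x₂ ≤ w x₃ := h₃
  obtain ⟨r, hr, hb⟩ := Metric.isOpen_iff.1 (isOpen_lt continuous_const hw) x₃
    (show 0 < w x₃ by linarith)
  obtain ⟨φ, ψ, hk⟩ := hK.ker
  obtain ⟨C, -, hC⟩ := h1.down0 φ ψ hk
  have h4 := hC w g 0 x₃ r hw hg hL le_rfl hr (hp.mono fun z hz hz' => by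
    rw [neg_zero]; exact hz (hb hz'))
  obtain ⟨c, hc, hlow⟩ := hk.low
  obtain ⟨e, he, hxe⟩ := unit hn x₃
  have hcw : Continuous fun y : V n => w (x₃ + r • y) := hw.comp (by fun_prop)
  have hpos : 0 < ∫ y, φ y * (w x₂ - w (x₃ + r • y)) := by
    refine Continuous.integral_pos_of_hasCompactSupport_nonneg_nonzero (x := (1 / 2 : ℝ) • e)
      (hk.tφ.cont.mul (continuous_const.sub hcw)) hk.tφ.supp.mul_right
      (fun y => mul_nonneg (hk.φ0 y) (sub_nonneg.2 (hmax _))) (mul_pos ?_ ?_).ne'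
    · exact hc.trans_le (hlow _ (by rw [norm_smul, he]; norm_num)).1
    · by_contra h5
      have h6 : ‖x₃ + r • ((1 / 2 : ℝ) • e)‖ ≤ ‖x₃‖ :=
        hn₃ (show w x₂ ≤ w (x₃ + r • ((1 / 2 : ℝ) • e)) by linarith [not_lt.1 h5])
      have h7 : x₃ + r • ((1 / 2 : ℝ) • e) = (‖x₃‖ + r / 2) • e := by
        rw [add_smul, ← hxe, smul_smul]; ring_nf
      rw [h7, norm_smul, he, mul_one, Real.norm_of_nonneg (by positivity)] at h6
      linarith
  have h8 : ∫ y, φ y * (w x₂ - w (x₃ + r • y)) = w x₂ - av φ w x₃ r := by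
    have i1 : Integrable (fun y => φ y * w (x₃ + r • y)) volume :=
      (hk.tφ.cont.mul hcw).integrable_of_hasCompactSupport hk.tφ.supp.mul_right
    simp only [mul_sub]
    rw [integral_sub (hk.tφ.int.mul_const _) i1, integral_mul_const, hk.one, one_mul]
    rfl
  rw [h8] at hpos
  linarith

theorem quad (hK : KerS n) (hA : AvA n) (h : OA n) (h1 : OB1 n) :
    ∃ C, 0 < C ∧ ∀ (u : V n → ℝ) (M : ℝ) (x₀ : V n), Continuous u → (∀ x, 0 ≤ u x) →
      LB u M → 0 ≤ M → u x₀ = 0 → ∀ x, u x ≤ C * M * ‖x - x₀‖ ^ 2 := by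
  obtain ⟨φ, ψ, hk⟩ := hK.ker
  obtain ⟨C₁, hC₁, hd⟩ := h1.down0 φ ψ hk
  obtain ⟨C₂, hC₂, hu⟩ := h1.up0 φ ψ hk
  obtain ⟨c, hc, hlow⟩ := hk.low
  obtain ⟨B, hB, hb⟩ := hk.tφ.bdd
  refine ⟨B * (4 ^ n * (16 * C₂) / c) + C₁, by positivity, fun u M x₀ hc0 h0 hL hM hz x => ?_⟩
  rcases eq_or_ne x x₀ with rfl | hne
  · simp [hz]
  have hρ : 0 < ‖x - x₀‖ := norm_pos_iff.2 (sub_ne_zero.2 hne)
  generalize hρe : ‖x - x₀‖ = ρ at hρ ⊢
  have hl : LocallyIntegrable u volume := hc0.locallyIntegrable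
  have a1 := hd u (fun _ => -M) M x ρ hc0 (locallyIntegrable_const _) hL.2 hM hρ
    (Eventually.of_forall fun _ _ => le_rfl)
  have a2 := hA.av_le ℝ φ u B hk.tφ hb hl x ρ hρ
  have e2 : (fun z => ‖u z‖) = u := funext fun z => Real.norm_of_nonneg (h0 z)
  rw [e2, hA.Iv_eq u x ρ hρ] at a2
  have a3 : ∫ z in ball x ρ, u z ≤ ∫ z in ball x₀ (4 * ρ / 2), u z := by
    refine setIntegral_mono_set
      ((hl.integrableOn_isCompact (isCompact_closedBall x₀ _)).mono_set ball_subset_closedBall)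
      (Eventually.of_forall h0) (LE.le.eventuallyLE (ball_subset_ball' ?_))
    rw [dist_eq_norm, hρe]; linarith
  have a4 := h.av_low φ u c x₀ (4 * ρ) hk.tφ hk.φ0 (fun y hy => (hlow y hy).1) hl h0
    (by positivity)
  have a5 := hu u (fun _ => M) M x₀ (4 * ρ) hc0 (locallyIntegrable_const _) hL.1 hM
    (by positivity) (Eventually.of_forall fun _ _ => le_rfl)
  rw [hz, zero_add] at a5
  have a6 : (ρ ^ n)⁻¹ * ∫ z in ball x₀ (4 * ρ / 2), u z ≤ 4 ^ n * (16 * C₂) / c * M * ρ ^ 2 := by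
    generalize (∫ z in ball x₀ (4 * ρ / 2), u z) = I at a4
    have e1 : (ρ ^ n)⁻¹ * I = 4 ^ n / c * (c * (((4 * ρ) ^ n)⁻¹ * I)) := by
      rw [mul_pow]; field_simp
    rw [e1]
    calc _ ≤ 4 ^ n / c * (C₂ * M * (4 * ρ) ^ 2) :=
          mul_le_mul_of_nonneg_left (a4.trans a5) (by positivity)
      _ = _ := by ring
  have a7 : av φ u x ρ ≤ B * (4 ^ n * (16 * C₂) / c * M * ρ ^ 2) :=
    (le_abs_self _).trans (a2.trans (mul_le_mul_of_nonneg_left
      ((mul_le_mul_of_nonneg_left a3 (by positivity)).trans a6) hB.le))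
  calc u x ≤ B * (4 ^ n * (16 * C₂) / c * M * ρ ^ 2) + C₁ * M * ρ ^ 2 := by linarith
    _ = _ := by ring

end Ob2

theorem ob2 {n : ℕ} (hn : 3 ≤ n) (hK : KerS n) (hA : AvA n) (h : OA n) (h1 : OB1 n) : OB2 n :=
  ⟨Ob2.maxp hn hK h1, Ob2.quad hK hA h h1⟩

end Pool.Agent.MP_29b5d3_an.EX

end MrgPart3

-- ======== part 4: formerly Pool.Agent.MP_29b5d3_an.EX.Oc2
section MrgPart4

/-! Project EXQ, obstacle package: limits of the derivatives of the mollification. -/

set_option autoImplicit false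

namespace Pool.Agent.MP_29b5d3_an.EX

open MeasureTheory Metric Filter Topology Module
open scoped RealInnerProductSpace ContDiff ENNReal
open Pool.Agent.MP_29b5d3_an.NC

namespace Oc2

variable {n : ℕ}

theorem comm {θ : V n → ℝ} {R : ℝ} (h : Test θ R) (a b : V n) :
    (fun x => fderiv ℝ (fun y => fderiv ℝ θ y b) x a) =
      fun x => fderiv ℝ (fun y => fderiv ℝ θ y a) x b := funext fun x => by
  rw [← h.inner_hess, ← h.inner_hess, h.sym_hess x a b, real_inner_comm]

theorem lap_der {θ : V n → ℝ} {R : ℝ} (h : Test θ R) (v x : V n) :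
    lap (fun y => fderiv ℝ θ y v) x = fderiv ℝ (lap θ) x v := by
  rw [(h.der v).lap_eq, funext h.lap_eq, fderiv_fun_sum fun i _ =>
    ((h.der (ev i)).der (ev i)).1.differentiable (by simp) x, sum_apply]
  refine Finset.sum_congr rfl fun i _ => ?_
  rw [comm h (ev i) v]
  exact congrFun (comm (h.der (ev i)) (ev i) v) x

theorem ker_id {φ ψ : V n → ℝ} (hK : Ker φ ψ) (v y : V n) :
    lap (fun y => fderiv ℝ ψ y v) y = -(fderiv ℝ φ y v +
      (fderiv ℝ (fun z => fderiv ℝ φ z v) y y + n * fderiv ℝ φ y v)) := by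
  have d := (hK.tφ.smooth_fderiv.differentiable (by simp) y).hasFDerivAt
  have d0 := (hK.tφ.1.differentiable (by simp) y).hasFDerivAt
  have k : HasFDerivAt (fun z => fderiv ℝ φ z y)
      ((ContinuousLinearMap.apply ℝ ℝ y).comp (fderiv ℝ (fderiv ℝ φ) y)) y :=
    (ContinuousLinearMap.apply ℝ ℝ y).hasFDerivAt.comp y d
  have e := ((d.clm_apply (hasFDerivAt_id y)).add (d0.const_mul (n : ℝ))).neg
  have e' := (e.congr_of_eventuallyEq (Eventually.of_forall hK.lapψ)).fderiv
  rw [lap_der hK.tψ, e', congrFun (comm hK.tφ y v) y, k.fderiv]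
  simp [add_assoc]

theorem av_add (hA : AvA n) {a b u : V n → ℝ} (ha : Test a 1) (hb : Test b 1)
    (hu : LocallyIntegrable u volume) (x : V n) {r : ℝ} (hr : 0 < r) :
    av (fun y => a y + b y) u x r = av a u x r + av b u x r := by
  have l := hA.loc ℝ u hu x r hr.ne'
  unfold av
  simp only [add_smul]
  exact integral_add (l.integrable_smul_left_of_hasCompactSupport ha.cont ha.supp)
    (l.integrable_smul_left_of_hasCompactSupport hb.cont hb.supp)

theorem dscale (hA : AvA n) {θ u : V n → ℝ} (hθ : Test θ 1) (hu : LocallyIntegrable u volume)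
    (x : V n) {r : ℝ} (hr : 0 < r) : HasDerivAt (av θ u x)
      (-(r⁻¹ * av (fun y => fderiv ℝ θ y y + n * θ y) u x r)) r := by
  have o : {p : V n × ℝ | 0 < p.2} ∈ 𝓝 (x, r) :=
    (isOpen_lt continuous_const continuous_snd).mem_nhds hr
  have d := (((hA.smooth ℝ θ 1 u hθ hu).contDiffAt o).differentiableAt (by simp)).hasFDerivAt
  have k := d.comp_hasDerivAt r ((hasDerivAt_const r x).prodMk (hasDerivAt_id r))
  rw [hA.deriv ℝ θ 1 u hθ hu x 0 r 1 hr] at k
  simp only [zero_add, one_smul, mul_one, smul_eq_mul] at k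
  exact k

theorem dmol (hA : AvA n) {φ ψ u : V n → ℝ} (hK : Ker φ ψ) (hu : LocallyIntegrable u volume)
    (x v : V n) {r : ℝ} (hr : 0 < r) :
    HasDerivAt (fun ρ => -(ρ⁻¹ * av (fun y => fderiv ℝ φ y v) u x ρ))
      (-((r ^ 2)⁻¹ * av (lap fun y => fderiv ℝ ψ y v) u x r)) r := by
  have t := hK.tφ.der v
  have t2 : Test (fun y => fderiv ℝ (fun z => fderiv ℝ φ z v) y y + n * fderiv ℝ φ y v) 1 :=
    ⟨(t.smooth_fderiv.clm_apply contDiff_id).add (contDiff_const.mul t.1), fun y hy => by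
      simp [t.fderiv_zero y hy, hK.tφ.fderiv_zero y hy]⟩
  have e : av (lap fun y => fderiv ℝ ψ y v) u x r = -(av (fun y => fderiv ℝ φ y v) u x r +
      av (fun y => fderiv ℝ (fun z => fderiv ℝ φ z v) y y + n * fderiv ℝ φ y v) u x r) := by
    rw [← av_add hA t t2 hu x hr, funext (ker_id hK v)]
    unfold av
    simp only [neg_smul, integral_neg]
  refine (((hasDerivAt_inv hr.ne').mul (dscale hA t hu x hr)).neg).congr_deriv ?_
  rw [e]
  field_simp
  ring

theorem norm_le (w : V n) : ‖w‖ ≤ ∑ i, |⟪w, ev i⟫| := by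
  conv_lhs => rw [← sum_ev w]
  refine (norm_sum_le _ _).trans (le_of_eq (Finset.sum_congr rfl fun i _ => ?_))
  rw [norm_smul, norm_ev, mul_one, real_inner_comm, Real.norm_eq_abs]

theorem sq_le {X : Mt n} (h : Sym X) : ‖X‖ ^ 2 ≤ tr (X ∘L X) := by
  have e : tr (X ∘L X) = ∑ i, ‖X (ev i)‖ ^ 2 := by
    rw [tr_eq]
    refine Finset.sum_congr rfl fun i _ => ?_
    rw [ContinuousLinearMap.comp_apply, ← h, real_inner_self_eq_norm_sq]
  have p : 0 ≤ ∑ i, ‖X (ev i)‖ ^ 2 := Finset.sum_nonneg fun i _ => sq_nonneg _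
  rw [e, ← Real.sq_sqrt p]
  refine pow_le_pow_left₀ (norm_nonneg _) (X.opNorm_le_bound (Real.sqrt_nonneg _) fun w => ?_) 2
  refine (sq_le_sq₀ (norm_nonneg _) (by positivity)).1 ?_
  rw [mul_pow, Real.sq_sqrt p, ← real_inner_self_eq_norm_sq (X w), ← sum_inner_ev, Finset.sum_mul]
  refine Finset.sum_le_sum fun i _ => ?_
  rw [real_inner_comm (X w), h w (ev i), ← sq, ← sq_abs, ← mul_pow, mul_comm]
  exact pow_le_pow_left₀ (abs_nonneg _) (abs_real_inner_le_norm _ _) 2

theorem quad_le {u : V n → ℝ} {x : V n} {c r : ℝ} (hc : 0 ≤ c) (hr : 0 < r) (h0 : ∀ z, 0 ≤ u z)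
    (h : ∀ z, u z ≤ c * ‖z - x‖ ^ 2) {y : V n} (hy : y ∈ ball (0 : V n) 1) :
    |u (x + r • y)| ≤ c * r ^ 2 := by
  rw [abs_of_nonneg (h0 _)]
  refine (h _).trans (mul_le_mul_of_nonneg_left (pow_le_pow_left₀ (norm_nonneg _) ?_ 2) hc)
  rw [add_sub_cancel_left, norm_smul, Real.norm_of_nonneg hr.le]
  exact mul_le_of_le_one_right hr.le (mem_ball_zero_iff.1 hy).le

end Oc2

theorem oc2 {n : ℕ} (_hn : 3 ≤ n) (hA : AvA n) (hB : AvB n) (h : OA n) (h2 : OB n) (h1 : OC1 n) :
    OC2 n := by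
  refine ⟨fun φ ψ hK => ?_, fun v R hv => ?_, fun φ ψ u a M hK hu h0 ha hL hM => ?_⟩
  · choose C C0 hC using fun i : Fin n => h.lb_av _ 1 (hK.tψ.der (ev i))
    have p : 0 ≤ ∑ i, C i := Finset.sum_nonneg fun i _ => (C0 i).le
    refine ⟨∑ i, C i + 1, by linarith, fun u M hu hL hM x s r hs hsr => ?_⟩
    have hr := hs.trans_le hsr
    refine (Oc2.norm_le _).trans (le_trans (b := ∑ i, C i * M * r)
      (Finset.sum_le_sum fun i _ => ?_) ?_)
    · rw [inner_sub_left, inner_gradient, inner_gradient, h1.der φ u r hK.tφ hu hr,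
        h1.der φ u s hK.tφ hu hs]
      have k := Convex.norm_image_sub_le_of_norm_hasDerivWithin_le (C := C i * M)
        (fun ρ (hρ : ρ ∈ Set.Ioi (0 : ℝ)) => (Oc2.dmol hA hK hu x (ev i) hρ).hasDerivWithinAt)
        (fun ρ hρ => by
          have hρ' : 0 < ρ ^ 2 := pow_pos hρ 2
          rw [norm_neg, norm_mul, Real.norm_of_nonneg (inv_pos.2 hρ').le, inv_mul_le_iff₀ hρ',
            mul_comm]
          exact hC i u M hu hL hM x ρ hρ) (convex_Ioi 0) hs hr
      refine k.trans (mul_le_mul_of_nonneg_left ?_ (mul_nonneg (C0 i).le hM))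
      rw [Real.norm_of_nonneg (sub_nonneg.2 hsr)]
      linarith
    · rw [← Finset.sum_mul, ← Finset.sum_mul]
      have := mul_nonneg hM hr.le
      nlinarith
  · have k := hB.korn1 v R _ _ hv (hB.ofC1 _ (hv.smooth_grad.of_le (by simp)))
    have c := hv.smooth_hess.continuous
    calc _ ≤ ∫ x, tr (hess v x ∘L hess v x) := integral_mono_of_nonneg
          (Eventually.of_forall fun x => sq_nonneg _)
          ((continuous_tr.comp (c.clm_comp c)).integrable_of_hasCompactSupport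
            (supp_of (R := R) fun y hy => by simp [hv.hess_zero y hy, tr_zero]))
          (Eventually.of_forall fun x => Oc2.sq_le (hv.sym_hess x))
      _ = _ := k.trans (by simp only [sq]; rfl)
  · obtain ⟨Q, Q0, hQ⟩ := h2.quad
    have l := hu.locallyIntegrable (μ := volume)
    have c0 := mul_nonneg Q0.le hM
    refine ⟨fun x hx => ?_, ?_⟩
    · obtain ⟨C, C0, hC⟩ := h1.grad_le φ hK.tφ
      have t : Tendsto (fun r : ℝ => C * (Q * M) * (volume : Measure (V n)).real (ball 0 1) * r)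
          (𝓝[>] 0) (𝓝 0) := by
        have : Continuous fun r : ℝ =>
          C * (Q * M) * (volume : Measure (V n)).real (ball 0 1) * r := by fun_prop
        simpa using (this.tendsto 0).mono_left nhdsWithin_le_nhds
      refine squeeze_zero_norm' ?_ t
      filter_upwards [self_mem_nhdsWithin] with r (hr : 0 < r)
      have b : Iv (fun z => |u z|) x r ≤
          Q * M * r ^ 2 * (volume : Measure (V n)).real (ball 0 1) :=
        (le_abs_self _).trans (norm_setIntegral_le_of_norm_le_const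
          (f := fun y => |u (x + r • y)|) (s := ball 0 1) measure_ball_lt_top
          fun y hy => (abs_abs _).trans_le (Oc2.quad_le c0 hr h0 (hQ u M x hu h0 hL hM hx) hy))
      refine (hC u r l hr x).trans ((mul_le_mul_of_nonneg_left b (by positivity)).trans_eq ?_)
      field_simp
    · obtain ⟨C, C0, hC⟩ := h1.hess_le φ hK.tφ
      have lg : LocallyIntegrable (onPos u fun _ => 1) volume := h.bd_loc _ 1
        ⟨measurable_const.indicator (isOpen_lt continuous_const hu).measurableSet, fun x => by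
          unfold onPos
          by_cases hx : x ∈ {x | 0 < u x} <;> simp [hx]⟩
      filter_upwards [h.leb ℝ _ lg] with x hl hx
      have g0 : onPos u (fun _ => (1 : ℝ)) x = 0 := Set.indicator_of_notMem (by simp [hx]) _
      simp only [g0, sub_zero] at hl
      refine squeeze_zero_norm' ?_ (by simpa using hl.const_mul (C * (Q * M)))
      filter_upwards [self_mem_nhdsWithin] with r (hr : 0 < r)
      have b : Iv (fun z => |u z|) x r ≤
          Q * M * r ^ 2 * Iv (fun z => |onPos u (fun _ => (1 : ℝ)) z|) x r := by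
        unfold Iv
        rw [← integral_const_mul]
        refine integral_mono_of_nonneg (Eventually.of_forall fun y => abs_nonneg _)
          (Integrable.const_mul (((hA.loc ℝ _ lg x r hr.ne').integrableOn_isCompact
            (isCompact_closedBall 0 1)).mono_set ball_subset_closedBall).abs _)
          (ae_restrict_of_forall_mem measurableSet_ball fun y hy => ?_)
        rcases (h0 (x + r • y)).eq_or_lt with e | e
        · simp only [← e, abs_zero]
          positivity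
        · have g1 : onPos u (fun _ => (1 : ℝ)) (x + r • y) = 1 :=
            Set.indicator_of_mem (s := {x | 0 < u x}) e _
          simp only [g1, abs_one, mul_one]
          exact Oc2.quad_le c0 hr h0 (hQ u M x hu h0 hL hM hx) hy
      refine (hC u a r l hr ha x).trans ((mul_le_mul_of_nonneg_left b (by positivity)).trans_eq ?_)
      field_simp

end Pool.Agent.MP_29b5d3_an.EX

end MrgPart4

-- ======== part 5: formerly Pool.Agent.MP_29b5d3_an.EX.OVar
section MrgPart5

/-! Project EXQ, obstacle package: the variational inequalities. -/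

set_option autoImplicit false

namespace Pool.Agent.MP_29b5d3_an.EX

open MeasureTheory Metric Filter Topology Module
open scoped RealInnerProductSpace ContDiff ENNReal
open Pool.Agent.MP_29b5d3_an.NC

namespace OVar

variable {n : ℕ} {a ζ f u₀ : V n → ℝ} {R R' M : ℝ} {χ : ℕ → V n → ℝ}

/-- a smooth approximation of the positive part -/
theorem exists_Z {η : ℝ} (hη : 0 < η) : ∃ Z : ℝ → ℝ, ContDiff ℝ ∞ Z ∧ (∀ x, |deriv Z x| ≤ 1) ∧
    (∀ x, 0 ≤ Z x) ∧ (∀ x, Z x ≤ max x 0) ∧ ∀ x, max x 0 - η ≤ Z x := by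
  let g : ℝ → ℝ := fun s => Real.smoothTransition (s / η)
  have hg : ContDiff ℝ ∞ g := Real.smoothTransition.contDiff.comp (contDiff_id.div_const η)
  have hc := hg.continuous
  have g0 : ∀ s, 0 ≤ g s := fun s => Real.smoothTransition.nonneg _
  have g1 : ∀ s, g s ≤ 1 := fun s => Real.smoothTransition.le_one _
  have hd : ∀ x, HasDerivAt (fun x => ∫ s in (0 : ℝ)..x, g s) (g x) x := fun x =>
    (hc.integral_hasStrictDerivAt 0 x).hasDerivAt
  have e : deriv (fun x => ∫ s in (0 : ℝ)..x, g s) = g := funext fun x => (hd x).deriv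
  have neg : ∀ x, x ≤ 0 → ∫ s in (0 : ℝ)..x, g s = 0 := fun x hx => by
    rw [intervalIntegral.integral_congr (g := fun _ => 0) fun s hs => ?_,
      intervalIntegral.integral_zero]
    rw [Set.uIcc_of_ge hx] at hs
    exact Real.smoothTransition.zero_of_nonpos (div_nonpos_of_nonpos_of_nonneg hs.2 hη.le)
  have pos : ∀ x, 0 ≤ ∫ s in (0 : ℝ)..x, g s := fun x => by
    rcases le_total x 0 with hx | hx
    · exact (neg x hx).ge
    · exact intervalIntegral.integral_nonneg hx fun s _ => g0 s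
  refine ⟨_, contDiff_infty_iff_deriv.2 ⟨fun x => (hd x).differentiableAt, e.symm ▸ hg⟩,
    fun x => by rw [e, abs_of_nonneg (g0 x)]; exact g1 x, pos, fun x => ?_, fun x => ?_⟩
  · rcases le_total x 0 with hx | hx
    · exact (neg x hx).le.trans (le_max_right _ _)
    · have := intervalIntegral.integral_mono_on (μ := volume) hx (hc.intervalIntegrable 0 x)
        (continuous_const.intervalIntegrable 0 x) fun s _ => g1 s
      rw [max_eq_left hx]
      simpa using this
  · rcases le_total x η with hx | hx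
    · exact le_trans (sub_nonpos.2 (max_le hx hη.le)) (pos x)
    · have h1 : ∫ s in η..x, g s = x - η := by
        rw [intervalIntegral.integral_congr (g := fun _ => 1) fun s hs => ?_]
        · simp
        rw [Set.uIcc_of_le hx] at hs
        exact Real.smoothTransition.one_of_one_le ((one_le_div hη).2 hs.1)
      have h2 := intervalIntegral.integral_add_adjacent_intervals (μ := volume)
        (hc.intervalIntegrable 0 η) (hc.intervalIntegrable η x)
      have h3 := pos η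
      rw [max_eq_left (hη.le.trans hx)]
      linarith

theorem test_comb (ha : Test a R') (hζ : Test ζ R) (s : ℝ) :
    Test (fun x => a x + s * ζ x) (max R' R) :=
  ⟨ha.1.add (contDiff_const.mul hζ.1), fun y hy => by
    simp only [ha.2 y ((le_max_left _ _).trans hy), hζ.2 y ((le_max_right _ _).trans hy),
      mul_zero, add_zero]⟩

theorem grad_comb (ha : Test a R') (hζ : Test ζ R) (s : ℝ) (x : V n) :
    gradient (fun x => a x + s * ζ x) x = gradient a x + s • gradient ζ x := by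
  have h1 := (ha.1.differentiable (by simp) x).hasFDerivAt
  have h2 := (hζ.1.differentiable (by simp) x).hasFDerivAt
  have h3 : HasFDerivAt (fun x => a x + s * ζ x) (fderiv ℝ a x + s • fderiv ℝ ζ x) x :=
    h1.add (h2.const_mul s)
  rw [gradient, h3.fderiv, map_add, map_smul]
  rfl

theorem int_inner (ha : Test a R') (hζ : Test ζ R) :
    Integrable (fun x => ⟪gradient a x, gradient ζ x⟫) volume :=
  (ha.smooth_grad.continuous.inner hζ.smooth_grad.continuous).integrable_of_hasCompactSupport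
    (supp_of fun y hy => by rw [hζ.grad_zero y hy, inner_zero_right])

theorem int_sq (ha : Test a R) : Integrable (fun x => ‖gradient a x‖ ^ 2) volume := by
  simpa only [real_inner_self_eq_norm_sq] using int_inner ha ha

theorem quad (h : OA n) (ha : Test a R') (hζ : Test ζ R) (s : ℝ) :
    ∫ x, ‖gradient (fun x => a x + s * ζ x) x‖ ^ 2 = (∫ x, ‖gradient a x‖ ^ 2) -
      2 * s * (∫ x, a x * lap ζ x) + s ^ 2 * ∫ x, ‖gradient ζ x‖ ^ 2 := by
  have e : ∀ x, ‖gradient (fun x => a x + s * ζ x) x‖ ^ 2 = ‖gradient a x‖ ^ 2 +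
      2 * s * ⟪gradient a x, gradient ζ x⟫ + s ^ 2 * ‖gradient ζ x‖ ^ 2 := fun x => by
    rw [grad_comb ha hζ, norm_add_sq_real, real_inner_smul_right, norm_smul, mul_pow,
      Real.norm_eq_abs, sq_abs]
    ring
  have i1 := (int_inner ha hζ).const_mul (2 * s)
  have i2 : Integrable (fun x => ‖gradient a x‖ ^ 2 + 2 * s * ⟪gradient a x, gradient ζ x⟫)
      volume := (int_sq ha).add i1
  simp only [e]
  rw [integral_add i2 ((int_sq hζ).const_mul _), integral_add (int_sq ha) i1, integral_const_mul,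
    integral_const_mul, (h.green a ζ R' R ha hζ).1]
  ring

theorem fint (hf : Bd f M) {g : V n → ℝ} (hg : Integrable g volume) :
    Integrable (fun x => f x * g x) volume :=
  hg.bdd_mul hf.1.aestronglyMeasurable (Eventually.of_forall hf.2)

theorem int_min (ha : AEStronglyMeasurable a volume) (h0 : ∀ x, 0 ≤ a x) (hζ : Test ζ R)
    (z0 : ∀ x, 0 ≤ ζ x) {t : ℝ} (ht : 0 ≤ t) :
    Integrable (fun x => min (a x) (t * ζ x)) volume :=
  (hζ.int.const_mul t).mono' (ha.aemeasurable.min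
    (hζ.cont.measurable.const_mul t).aemeasurable).aestronglyMeasurable
    (Eventually.of_forall fun x => by
      rw [Real.norm_of_nonneg (le_min (h0 x) (mul_nonneg ht (z0 x)))]
      exact min_le_right _ _)

/-- passing to the limit in a Lipschitz integrand -/
theorem conv (hχ : ∀ k, Adm (χ k)) (hu : LocallyIntegrable u₀ volume)
    (hl : Tendsto (fun k => ∫ x in ball (0 : V n) R, |χ k x - u₀ x|) atTop (𝓝 0))
    {G : V n → ℝ → ℝ} {C : ℝ} (h1 : ∀ x s t, |G x s - G x t| ≤ C * |s - t|)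
    (h2 : ∀ k x, R ≤ ‖x‖ → G x (χ k x) = G x (u₀ x))
    (i1 : ∀ k, Integrable (fun x => G x (χ k x)) volume)
    (i2 : Integrable (fun x => G x (u₀ x)) volume) :
    Tendsto (fun k => ∫ x, G x (χ k x)) atTop (𝓝 (∫ x, G x (u₀ x))) := by
  refine tendsto_iff_norm_sub_tendsto_zero.2 (squeeze_zero (fun _ => norm_nonneg _) (fun k => ?_)
    (by simpa using hl.const_mul C))
  obtain ⟨R', hk⟩ := (hχ k).1
  have i3 : IntegrableOn (fun x => |χ k x - u₀ x|) (ball (0 : V n) R) volume :=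
    (hk.int.integrableOn.sub ((hu.integrableOn_isCompact (isCompact_closedBall 0 R)).mono_set
      ball_subset_closedBall)).abs
  rw [← integral_sub (i1 k) i2, ← integral_const_mul, ← integral_indicator measurableSet_ball]
  refine norm_integral_le_of_norm_le ((integrable_indicator_iff measurableSet_ball).2
    (i3.const_mul C)) (Eventually.of_forall fun x => ?_)
  by_cases hx : x ∈ ball (0 : V n) R
  · rw [Set.indicator_of_mem hx]
    exact h1 x _ _
  · rw [Set.indicator_of_notMem hx, h2 k x (by simpa using hx), sub_self, norm_zero]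

theorem conv_lap (hχ : ∀ k, Adm (χ k)) (hu : LocallyIntegrable u₀ volume)
    (hl : Tendsto (fun k => ∫ x in ball (0 : V n) R, |χ k x - u₀ x|) atTop (𝓝 0))
    (hζ : Test ζ R) :
    Tendsto (fun k => ∫ x, χ k x * lap ζ x) atTop (𝓝 (∫ x, u₀ x * lap ζ x)) := by
  obtain ⟨C, -, hC⟩ := hζ.lap.bdd
  refine conv hχ hu hl (G := fun x s => s * lap ζ x) (C := C) (fun x s t => ?_)
    (fun k x hx => by simp only [hζ.lap.2 x hx, mul_zero]) (fun k => ?_)
    (hu.integrable_smul_right_of_hasCompactSupport hζ.lap.cont hζ.lap.supp)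
  · rw [← sub_mul, abs_mul, mul_comm]
    exact mul_le_mul_of_nonneg_right (hC x) (abs_nonneg _)
  · obtain ⟨R', hk⟩ := (hχ k).1
    exact (hk.cont.mul hζ.lap.cont).integrable_of_hasCompactSupport hk.supp.mul_right

theorem le_of_lin {x y c : ℝ} (h : ∀ t, 0 < t → x ≤ y + t * c) : x ≤ y := by
  have h1 : Tendsto (fun t : ℝ => y + t * c) (𝓝[>] 0) (𝓝 y) := by
    have : Continuous fun t : ℝ => y + t * c := by fun_prop
    simpa using (this.tendsto 0).mono_left nhdsWithin_le_nhds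
  exact ge_of_tendsto h1 (by filter_upwards [self_mem_nhdsWithin] with t ht using h t ht)

theorem up (h : OA n) (hf : Bd f M) (ha : Adm a) (hζ : Test ζ R) (z0 : ∀ x, 0 ≤ ζ x) {ε t : ℝ}
    (hm : ∀ ξ, Adm ξ → eng f a ≤ eng f ξ + ε) (ht : 0 < t) :
    t * ∫ x, a x * lap ζ x ≤
      t * (∫ x, f x * ζ x) + t ^ 2 * (∫ x, ‖gradient ζ x‖ ^ 2) / 2 + ε := by
  obtain ⟨⟨R', hR⟩, a0⟩ := ha
  have h1 := hm _ ⟨⟨_, test_comb hR hζ t⟩, fun x => add_nonneg (a0 x) (mul_nonneg ht.le (z0 x))⟩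
  have e : ∫ x, f x * (a x + t * ζ x) = (∫ x, f x * a x) + t * ∫ x, f x * ζ x := by
    rw [← integral_const_mul, ← integral_add (fint hf hR.int) ((fint hf hζ.int).const_mul t)]
    exact integral_congr_ae (Eventually.of_forall fun x => by ring)
  unfold eng at h1
  rw [quad h hR hζ, e] at h1
  linarith

theorem down (h : OA n) (hf : Bd f M) (f0 : ∀ x, 2 ≤ ‖x‖ → 0 ≤ f x) (ha : Adm a)
    (hζ : Test ζ R) (z0 : ∀ x, 0 ≤ ζ x) {ε t : ℝ}
    (hm : ∀ ξ, Adm ξ → eng f a ≤ eng f ξ + ε) (ht : 0 < t) :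
    ∫ x, f x * min (a x) (t * ζ x) ≤
      t * (∫ x, a x * lap ζ x) + t ^ 2 * (∫ x, ‖gradient ζ x‖ ^ 2) / 2 + ε := by
  obtain ⟨⟨R', hR⟩, a0⟩ := ha
  refine le_of_lin (c := M * volume.real (ball (0 : V n) 2)) fun η hη => ?_
  obtain ⟨Z, hZ, Z1, Z0, Z2, Z3⟩ := exists_Z hη
  have hw := test_comb hR hζ (-t)
  have hξ : Test (fun x => Z (a x + -t * ζ x)) (max R' R) :=
    ⟨hZ.comp hw.1, fun y hy => by
      have e : a y + -t * ζ y = 0 := hw.2 y hy
      exact (congrArg Z e).trans (le_antisymm (by simpa using Z2 0) (Z0 _))⟩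
  have h1 := hm _ ⟨⟨_, hξ⟩, fun x => Z0 _⟩
  have h2 : ∫ x, ‖gradient (fun x => Z (a x + -t * ζ x)) x‖ ^ 2 ≤
      ∫ x, ‖gradient (fun x => a x + -t * ζ x) x‖ ^ 2 := by
    refine integral_mono (int_sq hξ) (int_sq hw) fun x => ?_
    refine pow_le_pow_left₀ (norm_nonneg _) ?_ 2
    have d := (hZ.differentiable (by simp) (a x + -t * ζ x)).hasDerivAt.comp_hasFDerivAt x
      (hw.1.differentiable (by simp) x).hasFDerivAt
    have e : fderiv ℝ (fun x => Z (a x + -t * ζ x)) x = _ := d.fderiv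
    rw [gradient, gradient, LinearIsometryEquiv.norm_map, LinearIsometryEquiv.norm_map, e,
      norm_smul]
    exact mul_le_of_le_one_left (norm_nonneg _) (Z1 _)
  have i1 := fint hf (int_min hR.cont.aestronglyMeasurable a0 hζ z0 ht.le)
  have i2 : Integrable (fun x => f x * a x - f x * min (a x) (t * ζ x)) volume :=
    (fint hf hR.int).sub i1
  have i3 : Integrable ((ball (0 : V n) 2).indicator fun _ => η * M) volume :=
    (integrable_indicator_iff measurableSet_ball).2 (integrableOn_const measure_ball_lt_top.ne)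
  have h3 : ∫ x, f x * Z (a x + -t * ζ x) ≤ ∫ x, (f x * a x - f x * min (a x) (t * ζ x) +
      (ball (0 : V n) 2).indicator (fun _ => η * M) x) := by
    refine integral_mono (fint hf hξ.int) (i2.add i3) fun x => ?_
    have e : a x - min (a x) (t * ζ x) = max (a x + -t * ζ x) 0 := by
      rcases le_total (a x) (t * ζ x) with h4 | h4
      · rw [min_eq_left h4, max_eq_right (by linarith), sub_self]
      · rw [min_eq_right h4, max_eq_left (by linarith)]; ring
    have b2 := Z2 (a x + -t * ζ x)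
    have b3 := Z3 (a x + -t * ζ x)
    show f x * Z _ ≤ f x * a x - f x * min (a x) (t * ζ x) + _
    rw [← mul_sub, e]
    by_cases hx : x ∈ ball (0 : V n) 2
    · have b4 := abs_le.1 (hf.2 x)
      rw [Set.indicator_of_mem hx]
      nlinarith [(abs_nonneg _).trans (hf.2 x)]
    · rw [Set.indicator_of_notMem hx, add_zero]
      exact mul_le_mul_of_nonneg_left b2 (f0 x (by simpa using hx))
  rw [integral_add i2 i3, integral_sub (fint hf hR.int) i1, integral_indicator_const _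
    measurableSet_ball, smul_eq_mul] at h3
  rw [quad h hR hζ] at h2
  unfold eng at h1
  nlinarith

end OVar

open OVar in
theorem ovar {n : ℕ} (hn : 3 ≤ n) (h : OA n) : OVar n := by
  intro f M χ u₀ hf f0 hχ hm um u0 hu hl
  have t0 := tendsto_one_div_add_atTop_nhds_zero_nat (𝕜 := ℝ)
  refine ⟨fun ζ R hζ z0 => ?_, fun ζ R hζ z0 => ?_⟩
  · refine le_of_lin (c := (∫ x, ‖gradient ζ x‖ ^ 2) / 2) fun t ht => ?_
    have h1 := le_of_tendsto_of_tendsto' ((conv_lap hχ hu (hl R) hζ).const_mul t)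
      (t0.const_add _) fun k => up h hf (hχ k) hζ z0 (hm k) ht
    refine le_of_mul_le_mul_left ?_ ht
    linarith
  have M0 : 0 ≤ M := (abs_nonneg _).trans (hf.2 0)
  have key : ∀ t, 0 < t → ∫ x, f x * min (u₀ x) (t * ζ x) ≤
      t * (∫ x, u₀ x * lap ζ x) + t ^ 2 * (∫ x, ‖gradient ζ x‖ ^ 2) / 2 := fun t ht => by
    have c1 := conv hχ hu (hl R) (G := fun x s => f x * min s (t * ζ x)) (C := M)
      (fun x s s' => by
        rw [← mul_sub, abs_mul]
        exact mul_le_mul (hf.2 x) (by simpa using abs_min_sub_min_le_max s (t * ζ x) s' (t * ζ x))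
          (abs_nonneg _) M0)
      (fun k x hx => by
        simp only [hζ.2 x hx, mul_zero, min_eq_right ((hχ k).2 x), min_eq_right (u0 x)])
      (fun k => (hχ k).1.elim fun _ hk =>
        fint hf (int_min hk.cont.aestronglyMeasurable (hχ k).2 hζ z0 ht.le))
      (fint hf (int_min um.aestronglyMeasurable u0 hζ z0 ht.le))
    simpa only [add_zero] using le_of_tendsto_of_tendsto' c1
      ((((conv_lap hχ hu (hl R) hζ).const_mul t).add_const _).add t0)
      fun k => down h hf f0 (hχ k) hζ z0 (hm k) ht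
  have s0 : ∀ m : ℕ, (0 : ℝ) < m + 1 := fun m => by positivity
  have c2 : Tendsto (fun m : ℕ => ∫ x, f x * min ((m + 1) * u₀ x) (ζ x)) atTop
      (𝓝 (∫ x, onPos u₀ f x * ζ x)) := by
    refine tendsto_integral_of_dominated_convergence (fun x => M * ζ x)
      (fun m => (hf.1.mul ((um.const_mul _).min hζ.cont.measurable)).aestronglyMeasurable)
      (hζ.int.const_mul M) (fun m => Eventually.of_forall fun x => ?_)
      (Eventually.of_forall fun x => ?_)
    · have b := le_min (mul_nonneg (s0 m).le (u0 x)) (z0 x)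
      rw [norm_mul, Real.norm_of_nonneg b]
      exact mul_le_mul (hf.2 x) (min_le_right _ _) b M0
    · by_cases hx : 0 < u₀ x
      · rw [onPos, Set.indicator_of_mem (show x ∈ {x | 0 < u₀ x} from hx)]
        refine tendsto_const_nhds.congr' ?_
        filter_upwards [eventually_ge_atTop ⌈ζ x / u₀ x⌉₊] with m hm
        have := (div_le_iff₀ hx).1 (Nat.ceil_le.1 hm)
        rw [min_eq_right (by nlinarith)]
      · rw [onPos, Set.indicator_of_notMem (show x ∉ {x | 0 < u₀ x} from hx), zero_mul]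
        simp only [le_antisymm (not_lt.1 hx) (u0 x), mul_zero, min_eq_left (z0 x)]
        exact tendsto_const_nhds
  have c3 := (t0.mul_const ((∫ x, ‖gradient ζ x‖ ^ 2) / 2)).const_add (∫ x, u₀ x * lap ζ x)
  rw [zero_mul, add_zero] at c3
  refine le_of_tendsto_of_tendsto' c2 c3 fun m => ?_
  have ht := one_div_pos.2 (s0 m)
  have h1 := key _ ht
  have e : ∫ x, f x * min (u₀ x) (1 / ((m : ℝ) + 1) * ζ x) =
      1 / ((m : ℝ) + 1) * ∫ x, f x * min ((m + 1) * u₀ x) (ζ x) := by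
    rw [← integral_const_mul]
    refine integral_congr_ae (Eventually.of_forall fun x => ?_)
    have := (s0 m).ne'
    simp only
    rw [mul_left_comm, mul_min_of_nonneg _ _ ht.le, ← mul_assoc (1 / _), one_div_mul_cancel this,
      one_mul]
  refine le_of_mul_le_mul_left ?_ ht
  linarith

end Pool.Agent.MP_29b5d3_an.EX

end MrgPart5

-- ======== part 6: formerly Pool.Agent.MP_29b5d3_an.EX.OSup
section MrgPart6

/-! Project EXQ: a compactly supported supersolution. -/

set_option autoImplicit false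

namespace Pool.Agent.MP_29b5d3_an.EX

open MeasureTheory Metric Filter Topology Module
open scoped RealInnerProductSpace ContDiff ENNReal
open Pool.Agent.MP_29b5d3_an.NC

variable {n : ℕ}

namespace OSup

/-- moving a family of translations from one factor to the other -/
theorem exch {P : Type} [MeasurableSpace P] {μ : Measure P} [SFinite μ] {w : P → ℝ}
    {τ : P → V n} {θ L : V n → ℝ} {A B : ℝ} (hw : Integrable w μ) (hτ : Measurable τ)
    (mθ : Measurable θ) (iθ : Integrable θ volume) (bθ : ∀ x, ‖θ x‖ ≤ A)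
    (mL : Measurable L) (iL : Integrable L volume) (bL : ∀ x, ‖L x‖ ≤ B) :
    ∫ x, (∫ p, w p * θ (x - τ p) ∂μ) * L x = ∫ z, θ z * ∫ p, w p * L (z + τ p) ∂μ := by
  have i1 : Integrable (Function.uncurry fun (x : V n) (p : P) => L x * w p * θ (x - τ p))
      ((volume : Measure (V n)).prod μ) :=
    (iL.mul_prod hw).mul_bdd
      (mθ.comp (measurable_fst.sub (hτ.comp measurable_snd))).aestronglyMeasurable
      (ae_of_all _ fun _ => bθ _)
  have i2 : Integrable (Function.uncurry fun (z : V n) (p : P) => θ z * w p * L (z + τ p))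
      ((volume : Measure (V n)).prod μ) :=
    (iθ.mul_prod hw).mul_bdd
      (mL.comp (measurable_fst.add (hτ.comp measurable_snd))).aestronglyMeasurable
      (ae_of_all _ fun _ => bL _)
  calc _ = ∫ x, ∫ p, L x * w p * θ (x - τ p) ∂μ := by
        refine integral_congr_ae (ae_of_all _ fun x => ?_)
        simp only [mul_assoc]
        rw [integral_const_mul, mul_comm]
    _ = ∫ p, (∫ x, L x * w p * θ (x - τ p)) ∂μ := integral_integral_swap i1
    _ = ∫ p, (∫ z, θ z * w p * L (z + τ p)) ∂μ := by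
        refine integral_congr_ae (ae_of_all _ fun p => ?_)
        show ∫ x, L x * w p * θ (x - τ p) = ∫ z, θ z * w p * L (z + τ p)
        rw [← integral_add_right_eq_self (fun x => L x * w p * θ (x - τ p)) (τ p)]
        refine integral_congr_ae (ae_of_all _ fun z => ?_)
        simp only [add_sub_cancel_right]
        ring
    _ = ∫ z, ∫ p, θ z * w p * L (z + τ p) ∂μ := (integral_integral_swap i2).symm
    _ = _ := by
        refine integral_congr_ae (ae_of_all _ fun z => ?_)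
        simp only [mul_assoc]
        rw [integral_const_mul]

/-- scales and directions -/
noncomputable abbrev ms (n : ℕ) : Measure (ℝ × V n) :=
  ((volume : Measure ℝ).restrict (Set.Ioc 0 1)).prod volume

theorem int_w {ψ : V n → ℝ} (hψ : Test ψ 1) :
    Integrable (fun p : ℝ × V n => p.1 * ψ p.2) (ms n) :=
  Integrable.mul_prod (f := fun s : ℝ => s) (continuous_id.integrableOn_Ioc (a := 0) (b := 1))
    hψ.int

theorem int_wg {ψ g : V n → ℝ} {A : ℝ} (hψ : Test ψ 1) (mg : Measurable g)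
    (bg : ∀ x, ‖g x‖ ≤ A) (x : V n) :
    Integrable (fun p : ℝ × V n => p.1 * ψ p.2 * g (x + p.1 • p.2)) (ms n) :=
  (int_w hψ).mul_bdd
    (mg.comp (measurable_const.add (measurable_fst.smul measurable_snd))).aestronglyMeasurable
    (ae_of_all _ fun _ => bg _)

theorem inner_eq (ψ g : V n → ℝ) (x : V n) (s : ℝ) :
    ∫ y, s * ψ y * g (x + s • y) = s * av ψ g x s := by
  simp only [av, smul_eq_mul, mul_assoc]
  rw [integral_const_mul]

theorem iter {ψ g : V n → ℝ} {A : ℝ} (hψ : Test ψ 1) (mg : Measurable g)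
    (bg : ∀ x, ‖g x‖ ≤ A) (x : V n) :
    ∫ p, p.1 * ψ p.2 * g (x + p.1 • p.2) ∂ms n = ∫ s in Set.Ioc (0 : ℝ) 1, s * av ψ g x s := by
  rw [integral_prod _ (int_wg hψ mg bg x)]
  simp only [inner_eq]

theorem int_iter {ψ g : V n → ℝ} {A : ℝ} (hψ : Test ψ 1) (mg : Measurable g)
    (bg : ∀ x, ‖g x‖ ≤ A) (x : V n) :
    IntegrableOn (fun s => s * av ψ g x s) (Set.Ioc (0 : ℝ) 1) volume := by
  have := (int_wg hψ mg bg x).integral_prod_left
  simp only [inner_eq] at this
  exact this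

theorem ftc (hB : AvB n) (h : OA n) {φ ψ ζ : V n → ℝ} {R : ℝ} (hk : Ker φ ψ) (hζ : Test ζ R)
    (z : V n) : ∫ s in Set.Ioc (0 : ℝ) 1, s * av ψ (lap ζ) z s = av φ ζ z 1 - ζ z := by
  obtain ⟨B, -, hb⟩ := hζ.lap.bdd
  have d : ∀ s, 0 < s → HasDerivAt (av φ ζ z) (s * av ψ (lap ζ) z s) s := fun s hs => by
    have h1 := h.lle_av ζ (lap ζ) ψ 1 (fun a r ha _ => (h.green ζ a R r hζ ha).2.le) hk.tψ hk.ψ0
      z s hs
    have h2 := h.lge_av ζ (lap ζ) ψ 1 (fun a r ha _ => (h.green ζ a R r hζ ha).2.ge) hk.tψ hk.ψ0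
      z s hs
    have h3 := hB.dr ℝ φ ψ ζ hk hζ.cont.locallyIntegrable z s hs
    rw [le_antisymm h1 h2, smul_eq_mul] at h3
    have e : s⁻¹ * (s ^ 2 * av ψ (lap ζ) z s) = s * av ψ (lap ζ) z s := by field_simp
    rwa [e] at h3
  rw [← intervalIntegral.integral_of_le zero_le_one]
  exact intervalIntegral.integral_eq_sub_of_hasDerivAt_of_tendsto zero_lt_one
    (fun s hs => d s hs.1)
    ((intervalIntegrable_iff_integrableOn_Ioc_of_le zero_le_one).2
      (int_iter hk.tψ hζ.lap.cont.measurable hb z))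
    (h.lim φ ζ hk.tφ hk.φ0 hk.one hζ.cont z)
    ((d 1 one_pos).continuousAt.tendsto.mono_left nhdsWithin_le_nhds)

theorem cont (hA : AvA n) (h : OA n) {ψ g : V n → ℝ} (hψ : Test ψ 1) (hg : Bd g 1) :
    Continuous fun x : V n => ∫ s in Set.Ioc (0 : ℝ) 1, s * av ψ g x s := by
  refine continuous_of_dominated (bound := fun _ => ∫ y, ‖ψ y‖)
    (fun x => (int_iter hψ hg.1 hg.2 x).aestronglyMeasurable) (fun x => ?_)
    (integrable_const _) ?_
  · refine (ae_restrict_iff' measurableSet_Ioc).2 (ae_of_all _ fun s hs => ?_)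
    have h1 : ‖av ψ g x s‖ ≤ ∫ y, ‖ψ y‖ :=
      norm_integral_le_of_norm_le hψ.int.norm (ae_of_all _ fun y => by
        rw [norm_smul]
        exact mul_le_of_le_one_right (norm_nonneg _) (hg.2 _))
    rw [norm_mul, Real.norm_of_nonneg hs.1.le]
    exact (mul_le_of_le_one_left (norm_nonneg _) hs.2).trans h1
  · refine (ae_restrict_iff' measurableSet_Ioc).2 (ae_of_all _ fun s hs => ?_)
    have h1 := (hA.smooth ℝ ψ 1 g hψ (h.bd_loc g 1 hg)).continuousOn
    exact continuous_const.mul (h1.comp_continuous (f := fun x : V n => (x, s)) (by fun_prop)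
      fun _ => hs.1)

theorem av_top {φ ζ : V n → ℝ} {C R : ℝ} (hC : ∀ y, |φ y| ≤ C) (hφ : Test φ 1) (hζ : Test ζ R)
    (h0 : ∀ y, 0 ≤ ζ y) (z : V n) : av φ ζ z 1 ≤ C * ∫ y, ζ y := by
  have i1 : Integrable (fun y => ζ (z + y)) volume := hζ.int.comp_add_left z
  rw [← integral_add_left_eq_self ζ z, ← integral_const_mul]
  simp only [av, one_smul, smul_eq_mul]
  exact integral_mono (i1.bdd_mul hφ.cont.aestronglyMeasurable (ae_of_all _ hC)) (i1.const_mul C)
    fun y => mul_le_mul_of_nonneg_right ((le_abs_self _).trans (hC y)) (h0 _)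

end OSup

open OSup in
theorem osup {n : ℕ} (hn : 3 ≤ n) (hK : KerS n) (hA : AvA n) (hB : AvB n) (h : OA n) :
    OSup n := by
  obtain ⟨φ, ψ, hk⟩ := hK.ker
  obtain ⟨C, hC0, hC⟩ := hk.tφ.bdd
  refine ⟨C, hC0, fun θ mθ bθ zθ => ?_⟩
  have b1 : ∀ x, |θ x| ≤ 1 := fun x => by rw [abs_of_nonneg (bθ x).1]; exact (bθ x).2
  have hg : Bd (fun z => θ (-z)) 1 := ⟨mθ.comp measurable_neg, fun x => b1 _⟩
  have iθ : Integrable θ volume :=
    IntegrableOn.integrable_of_forall_notMem_eq_zero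
      ((h.bd_loc θ 1 ⟨mθ, b1⟩).integrableOn_isCompact (isCompact_closedBall 0 2)) fun x hx => zθ x (le_of_lt (by simpa using hx))
  refine ⟨fun x => ∫ s in Set.Ioc (0 : ℝ) 1, s * av ψ (fun z => θ (-z)) (-x) s,
    (cont hA h hk.tψ hg).comp continuous_neg, fun x => ?_, fun x hx => ?_, fun ζ R hζ h0 => ?_⟩
  · exact setIntegral_nonneg measurableSet_Ioc fun s hs => mul_nonneg hs.1.le
      (integral_nonneg fun y => mul_nonneg (hk.ψ0 y) (bθ _).1)
  · refine setIntegral_eq_zero_of_forall_eq_zero fun s hs => ?_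
    have : ∀ y : V n, ψ y • θ (-(-x + s • y)) = 0 := fun y => by
      by_cases hy : 1 ≤ ‖y‖
      · rw [hk.tψ.2 y hy, zero_smul]
      · have h1 : ‖s • y‖ ≤ 1 := by
          rw [norm_smul, Real.norm_of_nonneg hs.1.le]
          exact mul_le_one₀ hs.2 (norm_nonneg _) (not_le.1 hy).le
        have h2 := norm_sub_norm_le x (s • y)
        rw [show -(-x + s • y) = x - s • y by abel, zθ _ (by linarith), smul_zero]
    simp only [av, this, integral_zero, mul_zero]
  · obtain ⟨B, -, hb⟩ := hζ.lap.bdd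
    have e1 := exch (μ := ms n) (τ := fun p : ℝ × V n => p.1 • p.2) (int_w hk.tψ)
      (measurable_fst.smul measurable_snd) mθ iθ b1 hζ.lap.cont.measurable hζ.lap.int hb
    have e2 : ∀ x : V n, ∫ s in Set.Ioc (0 : ℝ) 1, s * av ψ (fun z => θ (-z)) (-x) s =
        ∫ p, p.1 * ψ p.2 * θ (x - p.1 • p.2) ∂ms n := fun x => by
      rw [← iter hk.tψ hg.1 hg.2]
      refine integral_congr_ae (ae_of_all _ fun p => ?_)
      show p.1 * ψ p.2 * θ (-(-x + p.1 • p.2)) = p.1 * ψ p.2 * θ (x - p.1 • p.2)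
      rw [show -(-x + p.1 • p.2) = x - p.1 • p.2 by abel]
    simp only [iter hk.tψ hζ.lap.cont.measurable hb, ftc hB h hk hζ] at e1
    simp only [e2]
    rw [e1]
    have i1 : Integrable (fun z => θ z * av φ ζ z 1) volume :=
      (hA.mass φ ζ hk.tφ.int hζ.int).1.bdd_mul mθ.aestronglyMeasurable (ae_of_all _ b1)
    have i2 : Integrable (fun z => θ z * ζ z) volume :=
      hζ.int.bdd_mul mθ.aestronglyMeasurable (ae_of_all _ b1)
    have h3 : ∫ z, θ z * av φ ζ z 1 ≤ ∫ z, θ z * (C * ∫ y, ζ y) :=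
      integral_mono i1 (iθ.mul_const _) fun z =>
        mul_le_mul_of_nonneg_left (av_top hC hk.tφ hζ h0 z) (bθ z).1
    simp only [mul_sub, sub_mul]
    rw [integral_sub i1 i2, integral_sub (hζ.int.const_mul _) i2, integral_const_mul]
    rw [integral_mul_const] at h3
    have _ := hn
    linarith

end Pool.Agent.MP_29b5d3_an.EX

end MrgPart6

-- ======== part 7: formerly Pool.Agent.MP_29b5d3_an.EX.OSol
section MrgPart7

/-! Project EXQ, obstacle package: the weak solution of one obstacle problem. -/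

set_option autoImplicit false

namespace Pool.Agent.MP_29b5d3_an.EX

open MeasureTheory Metric Filter Topology Module
open scoped RealInnerProductSpace ContDiff ENNReal
open Pool.Agent.MP_29b5d3_an.NC

namespace OSol

variable {n : ℕ}

theorem bd_pos {u f : V n → ℝ} {M : ℝ} (hu : Measurable u) (hf : Bd f M) : Bd (onPos u f) M :=
  ⟨hf.1.indicator (measurableSet_lt measurable_const hu), fun x => by
    by_cases h : 0 < u x
    · rw [onPos, Set.indicator_of_mem (show x ∈ {x | 0 < u x} from h)]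
      exact hf.2 x
    · rw [onPos, Set.indicator_of_notMem (show x ∉ {x | 0 < u x} from h), abs_zero]
      exact (abs_nonneg _).trans (hf.2 x)⟩

theorem pos_eq {u f : V n → ℝ} {x : V n} (h : 0 < u x) : onPos u f x = f x :=
  Set.indicator_of_mem (show x ∈ {x | 0 < u x} from h) _

theorem zero_eq {u f : V n → ℝ} {x : V n} (h : ¬ 0 < u x) : onPos u f x = 0 :=
  Set.indicator_of_notMem (show x ∉ {x | 0 < u x} from h) _

theorem lb (h : OA n) {u f : V n → ℝ} {M : ℝ} (hu : Measurable u) (hf : Bd f M) (h1 : LLe u f)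
    (h2 : LGe u (onPos u f)) : LB u M :=
  ⟨h.lle_congr u u _ _ EventuallyEq.rfl (h.bd_loc f M hf) (locallyIntegrable_const M)
      (ae_of_all _ fun x => (abs_le.1 (hf.2 x)).2) h1,
    h.lge_congr u u _ _ EventuallyEq.rfl (h.bd_loc _ M (bd_pos hu hf))
      (locallyIntegrable_const (-M)) (ae_of_all _ fun x => (abs_le.1 ((bd_pos hu hf).2 x)).1) h2⟩

/-- the equation on the whole space and the sign of `f` on the contact set -/
theorem eqn (h : OA n) (hc : OC n) {φ ψ u f : V n → ℝ} {M a : ℝ} (hK : Ker φ ψ)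
    (hu : Continuous u) (u0 : ∀ x, 0 ≤ u x) (us : ∀ x, a ≤ ‖x‖ → u x = 0) (hf : Bd f M)
    (M0 : 0 ≤ M) (h1 : LLe u f) (h2 : LGe u (onPos u f)) :
    LLe u (onPos u f) ∧ ∀ᵐ x, u x = 0 → 0 ≤ f x := by
  have ul := hu.locallyIntegrable (μ := volume)
  have hl := lb h hu.measurable hf h1 h2
  have hp := bd_pos hu.measurable hf
  have e : ∀ r, 0 < r → ∀ x, lap (mol φ u r) x = (r ^ 2)⁻¹ * av (lap φ) u x r :=
    fun r hr => hc.lap_mol φ u a r hK.tφ ul hr us
  have up : ∀ r, 0 < r → ∀ x, lap (mol φ u r) x ≤ av φ f x r := fun r hr x => by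
    rw [e r hr, inv_mul_le_iff₀ (by positivity)]
    exact h.lle_av u f φ 1 h1 hK.tφ hK.φ0 x r hr
  have lo : ∀ r, 0 < r → ∀ x, av φ (onPos u f) x r ≤ lap (mol φ u r) x := fun r hr x => by
    rw [e r hr, le_inv_mul_iff₀ (by positivity)]
    exact h.lge_av u _ φ 1 h2 hK.tφ hK.φ0 x r hr
  obtain ⟨C, -, hC⟩ := h.lb_av φ 1 hK.tφ
  have bd : ∀ r, 0 < r → ∀ x, |lap (mol φ u r) x| ≤ C * M := fun r hr x => by
    rw [e r hr, abs_mul, abs_of_pos (by positivity : 0 < (r ^ 2)⁻¹),
      inv_mul_le_iff₀ (by positivity), mul_comm]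
    exact hC u M ul hl M0 x r hr
  have key : ∀ᵐ x, Tendsto (fun r => lap (mol φ u r) x) (𝓝[>] 0) (𝓝 (onPos u f x)) ∧
      (u x = 0 → 0 ≤ f x) := by
    filter_upwards [h.leb_av ℝ φ f hK.tφ hK.one (h.bd_loc f M hf),
      h.leb_av ℝ φ _ hK.tφ hK.one (h.bd_loc _ M hp), (hc.zero φ ψ u a M hK hu u0 us hl M0).2]
      with x a1 a2 a3
    have b1 : ∀ᶠ r in 𝓝[>] (0 : ℝ), lap (mol φ u r) x ≤ av φ f x r :=
      eventually_nhdsWithin_of_forall fun r hr => up r hr x
    by_cases hx : 0 < u x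
    · refine ⟨?_, fun h0 => absurd h0 hx.ne'⟩
      rw [← pos_eq (f := f) hx] at a1
      exact tendsto_of_tendsto_of_tendsto_of_le_of_le' a2 a1
        (eventually_nhdsWithin_of_forall fun r hr => lo r hr x) b1
    · have b2 : Tendsto (fun r => lap (mol φ u r) x) (𝓝[>] 0) (𝓝 0) := by
        have := (continuous_tr.tendsto 0).comp (a3 (le_antisymm (not_lt.1 hx) (u0 x)))
        rwa [tr_zero] at this
      exact ⟨by rwa [zero_eq hx], fun _ => le_of_tendsto_of_tendsto b2 a1 b1⟩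
  refine ⟨fun ζ R hζ _ => le_of_eq ?_, key.mono fun x hx => hx.2⟩
  obtain ⟨B, hB⟩ := hu.bounded_above_of_compact_support (supp_of us)
  have tm : ∀ r, 0 < r → Test (mol φ u r) (a + r) := fun r hr => hc.test φ u a r hK.tφ ul hr us
  have t1 : Tendsto (fun r => ∫ x, mol φ u r x * lap ζ x) (𝓝[>] 0) (𝓝 (∫ x, u x * lap ζ x)) := by
    refine tendsto_integral_filter_of_dominated_convergence (fun x => B * ‖lap ζ x‖)
      (eventually_nhdsWithin_of_forall fun r hr =>
        ((tm r hr).cont.mul hζ.lap.cont).aestronglyMeasurable)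
      (eventually_nhdsWithin_of_forall fun r _ => ae_of_all _ fun x => ?_)
      (hζ.lap.int.norm.const_mul B)
      (ae_of_all _ fun x => (h.lim φ u hK.tφ hK.φ0 hK.one hu x).mul_const _)
    rw [norm_mul]
    refine mul_le_mul_of_nonneg_right ?_ (norm_nonneg _)
    have := norm_integral_le_of_norm_le (μ := volume) (f := fun y => φ y • u (x + r • y))
      (hK.tφ.int.mul_const B) (ae_of_all _ fun y => by
        rw [norm_smul, Real.norm_of_nonneg (hK.φ0 y)]
        exact mul_le_mul_of_nonneg_left (hB _) (hK.φ0 y))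
    rwa [integral_mul_const, hK.one, one_mul] at this
  have t2 : Tendsto (fun r => ∫ x, lap (mol φ u r) x * ζ x) (𝓝[>] 0)
      (𝓝 (∫ x, onPos u f x * ζ x)) := by
    refine tendsto_integral_filter_of_dominated_convergence (fun x => C * M * ‖ζ x‖)
      (eventually_nhdsWithin_of_forall fun r hr =>
        ((tm r hr).lap.cont.mul hζ.cont).aestronglyMeasurable)
      (eventually_nhdsWithin_of_forall fun r hr => ae_of_all _ fun x => ?_)
      (hζ.int.norm.const_mul _) (key.mono fun x hx => hx.1.mul_const _)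
    rw [norm_mul]
    exact mul_le_mul_of_nonneg_right (bd r hr x) (norm_nonneg _)
  exact tendsto_nhds_unique_of_eventuallyEq t1 t2 (eventually_nhdsWithin_of_forall fun r hr =>
    (h.green _ ζ _ R (tm r hr) hζ).2)

end OSol

open OSol in
theorem osol {n : ℕ} (hn : 3 ≤ n) (hK : KerS n) (hA : AvA n) (h : OA n) (hb : OB n) (hc : OC n)
    (h1 : OMin n) (h2 : OVar n) (h3 : OSup n) : OSol n := by
  obtain ⟨C, C0, hC⟩ := h3
  obtain ⟨φ, ψ, hk⟩ := hK.ker
  refine ⟨C, C0, fun θ t θm θb θs t0 ht => ?_⟩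
  have hf : Bd (fun x => t - θ x) (t + 1) := ⟨measurable_const.sub θm, fun x =>
    abs_le.2 ⟨by linarith [(θb x).2], by linarith [(θb x).1]⟩⟩
  have f0 : ∀ x, 2 ≤ ‖x‖ → 0 ≤ t - θ x := fun x hx => by rw [θs x hx]; linarith
  have M0 : 0 ≤ t + 1 := by linarith
  obtain ⟨χ, w, a1, a2, wm, w0, wl, a3, dec⟩ := h1 _ _ hf f0
  obtain ⟨l1, l2⟩ := h2 _ _ χ w hf f0 a1 a2 wm w0 wl a3
  obtain ⟨u, hu, e⟩ := hb.cont w _ wl (lb h wm hf l1 l2) M0
  have u0 : ∀ x, 0 ≤ u x := fun x => by
    have : (fun x => max (u x) 0) = u :=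
      ((hu.max continuous_const).ae_eq_iff_eq volume hu).1
        (e.mono fun x hx => max_eq_left (hx ▸ w0 x))
    rw [← congrFun this x]
    exact le_max_right _ _
  have fl := h.bd_loc _ _ hf
  have pl := h.bd_loc _ _ (bd_pos hu.measurable hf)
  have ul := hu.locallyIntegrable (μ := volume)
  have k1 : LLe u fun x => t - θ x := h.lle_congr w u _ _ e.symm fl fl EventuallyLE.rfl l1
  have k2 : LGe u (onPos u fun x => t - θ x) :=
    h.lge_congr w u _ _ e.symm (h.bd_loc _ _ (bd_pos wm hf)) pl (e.mono fun x hx => by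
      by_cases hx' : 0 < u x
      · rw [pos_eq hx', pos_eq (hx ▸ hx')]
      · rw [zero_eq hx', zero_eq (hx ▸ hx')]) l2
  obtain ⟨v, hv, v0, vs, lv⟩ := hC θ θm θb θs
  obtain ⟨D, -, hD⟩ := hb.down0 φ ψ hk
  obtain ⟨B, B0, hB⟩ := hk.tφ.bdd
  have far : ∀ x : V n, 3 ≤ ‖x‖ → u x ≤ B * Iv w x 1 := fun x hx => by
    have b1 := hD u _ 0 x 1 hu pl k2 le_rfl one_pos (ae_of_all _ fun z hz => by
      have : 2 ≤ ‖z‖ := by
        have := norm_sub_norm_le x z
        rw [mem_ball, dist_comm, dist_eq_norm] at hz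
        linarith
      by_cases hz' : 0 < u z
      · rw [pos_eq hz', neg_zero]
        exact f0 z this
      · rw [zero_eq hz', neg_zero])
    have b2 := hA.av_le ℝ φ u B hk.tφ hB ul x 1 one_pos
    have b3 : Iv (fun z => ‖u z‖) x 1 = Iv w x 1 :=
      integral_congr_ae (ae_restrict_of_ae ((hA.ae _ x 1 one_ne_zero e).mono fun y hy =>
        (Real.norm_of_nonneg (u0 _)).trans hy))
    rw [b3] at b2
    linarith [le_abs_self (av φ u x 1), Real.norm_eq_abs (av φ u x 1)]
  have gl : LocallyIntegrable (fun x => C * (∫ z, θ z) - θ x) volume :=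
    (locallyIntegrable_const _).sub (h.bd_loc θ 1 ⟨θm, fun x =>
      abs_le.2 ⟨by linarith [(θb x).1], (θb x).2⟩⟩)
  have mx := hb.maxp _ _ (hu.sub hv) (pl.sub gl)
    (h.sub_ge u v _ _ ul hv.locallyIntegrable pl gl k2 lv)
    (ae_of_all _ fun x hx => by
      have hx' : 0 < u x := by linarith [v0 x, show 0 < u x - v x from hx]
      show 0 ≤ onPos u (fun x => t - θ x) x - (C * (∫ z, θ z) - θ x)
      rw [pos_eq hx']
      linarith)
    fun ε ε0 => by
      obtain ⟨R, hR⟩ := dec (ε / B) (by positivity)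
      refine ⟨max R 3, fun x hx => ?_⟩
      have b1 := (le_div_iff₀' B0).1 (hR x ((le_max_left _ _).trans hx))
      show u x - v x ≤ ε
      linarith [far x ((le_max_right _ _).trans hx), v0 x]
  have us : ∀ x, 3 ≤ ‖x‖ → u x = 0 := fun x hx =>
    le_antisymm (by linarith [vs x hx, show u x - v x ≤ 0 from mx x]) (u0 x)
  obtain ⟨k3, k4⟩ := eqn h hc hk hu u0 us hf M0 k1 k2
  exact ⟨u, hu, u0, us, k1, k3, k2, k4.mono fun x hx h0 => sub_nonneg.1 (hx h0)⟩

end Pool.Agent.MP_29b5d3_an.EX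

end MrgPart7

-- ======== part 8: formerly Pool.Agent.MP_29b5d3_an.EX.OAll
section MrgPart8

/-! Project EXQ, obstacle package: the modules put together. -/

set_option autoImplicit false

namespace Pool.Agent.MP_29b5d3_an.EX

open Pool.Agent.MP_29b5d3_an.NC

variable {n : ℕ}

theorem oa (hn : 3 ≤ n) (hA : AvA n) (hB : AvB n) : OA n := ⟨oa1 hn hA hB, oa2 hn hA⟩

theorem ob (hn : 3 ≤ n) (hK : KerS n) (hA : AvA n) (hB : AvB n) : OB n :=
  ⟨ob1 hn hK hA hB (oa hn hA hB), ob2 hn hK hA (oa hn hA hB) (ob1 hn hK hA hB (oa hn hA hB))⟩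

theorem oc (hn : 3 ≤ n) (hK : KerS n) (hA : AvA n) (hB : AvB n) : OC n :=
  ⟨oc1 hn hA, oc2 hn hA hB (oa hn hA hB) (ob hn hK hA hB) (oc1 hn hA)⟩

theorem osolAll (hn : 3 ≤ n) (hK : KerS n) (hA : AvA n) (hB : AvB n) : OSol n :=
  osol hn hK hA (oa hn hA hB) (ob hn hK hA hB) (oc hn hK hA hB) (omin hn (oa hn hA hB))
    (ovar hn (oa hn hA hB)) (osup hn hK hA hB (oa hn hA hB))

end Pool.Agent.MP_29b5d3_an.EX

end MrgPart8

-- ======== part 9: formerly Pool.Agent.MP_29b5d3_an.EX.OYs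
section MrgPart9

/-! Project EXQ, obstacle package: a nearly subharmonic function with thin support is small. -/

set_option autoImplicit false

namespace Pool.Agent.MP_29b5d3_an.EX

open MeasureTheory Metric Filter Topology Module
open scoped RealInnerProductSpace ContDiff ENNReal
open Pool.Agent.MP_29b5d3_an.NC

variable {n : ℕ}

namespace OYs

/-- integral of a bounded nonnegative function over a ball, by the measure of its support -/
theorem int_le {y : V n → ℝ} (hy : Continuous y) (h0 : ∀ x, 0 ≤ y x) {S T : Set (V n)} {b : ℝ}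
    (hS : MeasurableSet S) (hT : volume T ≠ ⊤) (hST : {x | 0 < y x} ∩ S ⊆ T) (hb : 0 ≤ b)
    (h : ∀ x ∈ S, y x ≤ b) : ∫ x in S, y x ≤ b * volume.real T := by
  have mo : MeasurableSet {x | 0 < y x} := (isOpen_lt continuous_const hy).measurableSet
  have fin : volume ({x | 0 < y x} ∩ S) ≠ ⊤ := ne_top_of_le_ne_top hT (measure_mono hST)
  have e : ∫ x in S, y x = ∫ x in {x | 0 < y x} ∩ S, y x := by
    symm
    refine setIntegral_eq_of_subset_of_forall_sdiff_eq_zero hS Set.inter_subset_right ?_ |>.symm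
    intro x hx
    by_contra hne
    exact hx.2 ⟨lt_of_le_of_ne (h0 x) (Ne.symm hne), hx.1⟩
  rw [e]
  calc ∫ x in {x | 0 < y x} ∩ S, y x ≤ ‖∫ x in {x | 0 < y x} ∩ S, y x‖ := le_abs_self _
    _ ≤ b * volume.real ({x | 0 < y x} ∩ S) :=
        norm_setIntegral_le_of_norm_le_const fin.lt_top fun x hx => by
          rw [Real.norm_of_nonneg (h0 x)]
          exact h x hx.2
    _ ≤ _ := mul_le_mul_of_nonneg_left (measureReal_mono hST hT) hb

end OYs

open OYs in
theorem ysup (hK : KerS n) (hA : AvA n) (hb : OB n) :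
    ∃ c C : ℝ, 0 < c ∧ 0 < C ∧ ∀ (y : V n → ℝ) (O : Set (V n)) (M B l : ℝ) (x₀ : V n),
      Continuous y → (∀ x, 0 ≤ y x) → (∀ x, y x ≤ B) → (∀ x, 0 < y x → x ∈ O) →
      LGe y (fun _ => -M) → 0 ≤ M → 0 < l →
      (∀ r, l ≤ r → volume.real (O ∩ ball x₀ r) ≤ c * r ^ n) →
      ∀ r, l ≤ r → ∀ x ∈ ball x₀ r, y x ≤ C * M * r ^ 2 := by
  obtain ⟨φ, ψ, hk⟩ := hK.ker
  obtain ⟨C₁, hC₁, h1⟩ := hb.down0 φ ψ hk
  obtain ⟨P, hP, hφ⟩ := hk.tφ.bdd
  refine ⟨1 / (8 * 2 ^ n * P), 2 * C₁, by positivity, by positivity, ?_⟩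
  intro y O M B l x₀ hy h0 hB hO hl hM l0 hv
  have B0 : 0 ≤ B := (h0 0).trans (hB 0)
  have key : ∀ k : ℕ, ∀ r, l ≤ r → ∀ x ∈ ball x₀ r, y x ≤ 2 * C₁ * M * r ^ 2 + B * (1 / 8) ^ k := by
    intro k
    induction k with
    | zero =>
      intro r _ x _
      have : 0 ≤ 2 * C₁ * M * r ^ 2 := by positivity
      simpa using (hB x).trans (le_add_of_nonneg_left this)
    | succ k ih =>
      intro r hr x hx
      have r0 : 0 < r := l0.trans_le hr
      have a1 := h1 y (fun _ => -M) M x r hy (locallyIntegrable_const _) hl hM r0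
        (Eventually.of_forall fun _ _ => le_rfl)
      have a2 := (le_abs_self _).trans (hA.av_le ℝ φ y P hk.tφ hφ hy.locallyIntegrable x r r0)
      have e : (fun z => ‖y z‖) = y := funext fun z => Real.norm_of_nonneg (h0 z)
      rw [e, hA.Iv_eq y x r r0] at a2
      have sub : ball x r ⊆ ball x₀ (2 * r) := by
        refine ball_subset_ball' ?_
        have := mem_ball.1 hx
        linarith
      set b := 2 * C₁ * M * (2 * r) ^ 2 + B * (1 / 8) ^ k with hbd
      have b0 : 0 ≤ b := by positivity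
      have a3 : ∫ z in ball x r, y z ≤ b * volume.real (O ∩ ball x₀ (2 * r)) :=
        int_le hy h0 measurableSet_ball
          (ne_top_of_le_ne_top measure_ball_lt_top.ne (measure_mono Set.inter_subset_right))
          (fun z hz => ⟨hO z hz.1, sub hz.2⟩) b0 fun z hz => ih (2 * r) (by linarith) z (sub hz)
      have a4 := mul_le_mul_of_nonneg_left (hv (2 * r) (by linarith)) b0
      have a5 : P * ((r ^ n)⁻¹ * ∫ z in ball x r, y z) ≤ b / 8 := by
        calc _ ≤ P * ((r ^ n)⁻¹ * (b * (1 / (8 * 2 ^ n * P) * (2 * r) ^ n))) := by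
              gcongr
              exact a3.trans a4
          _ = b / 8 := by
              rw [mul_pow]
              field_simp
      have : b / 8 + C₁ * M * r ^ 2 = 2 * C₁ * M * r ^ 2 + B * (1 / 8) ^ (k + 1) := by
        rw [hbd]
        ring
      linarith
  intro r hr x hx
  have t : Tendsto (fun k : ℕ => 2 * C₁ * M * r ^ 2 + B * (1 / 8 : ℝ) ^ k) atTop
      (𝓝 (2 * C₁ * M * r ^ 2 + B * 0)) :=
    tendsto_const_nhds.add ((tendsto_pow_atTop_nhds_zero_of_lt_one (by norm_num)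
      (by norm_num)).const_mul B)
  simpa using ge_of_tendsto' t fun k => key k r hr x hx

end Pool.Agent.MP_29b5d3_an.EX

end MrgPart9

-- ======== part 10: formerly Pool.Agent.MP_29b5d3_an.EX.OQg
section MrgPart10

/-! Project EXQ, obstacle package: linear growth of the weak gradient at a zero. -/

set_option autoImplicit false

namespace Pool.Agent.MP_29b5d3_an.EX

open MeasureTheory Metric Filter Topology Module
open scoped RealInnerProductSpace ContDiff ENNReal
open Pool.Agent.MP_29b5d3_an.NC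

variable {n : ℕ}

/-- `G` is a weak gradient of `T` -/
def WG (T : V n → ℝ) (G : V n → V n) : Prop :=
  ∀ (ζ : V n → ℝ) (R : ℝ), Test ζ R → ∀ v : V n,
    ∫ x, T x * fderiv ℝ ζ x v = -∫ x, ⟪G x, v⟫ * ζ x

namespace OQg

theorem grad_mol (hA : AvA n) (hc : OC n) {φ T : V n → ℝ} {G : V n → V n} (hφ : Test φ 1)
    (hT : LocallyIntegrable T volume) (hG : LocallyIntegrable G volume) (h : WG T G)
    (x : V n) {r : ℝ} (hr : 0 < r) : gradient (mol φ T r) x = av φ G x r := by
  refine ext_inner_right ℝ fun v => ?_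
  have i1 : Integrable (fun y => φ y • G (x + r • y)) volume :=
    (hA.loc _ G hG x r hr.ne').integrable_smul_left_of_hasCompactSupport hφ.cont hφ.supp
  have e1 : ⟪av φ G x r, v⟫ = av φ (fun z => ⟪G z, v⟫) x r := by
    unfold av
    rw [real_inner_comm, ← integral_inner i1]
    refine integral_congr_ae (Eventually.of_forall fun y => ?_)
    simp only [real_inner_smul_right, smul_eq_mul, real_inner_comm]
  have e2 := h _ _ (Oa1.test_rs hφ x hr) v
  have e3 : ∀ z, fderiv ℝ (Oa1.rs φ x r) z v =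
      r⁻¹ * Oa1.rs (fun y => fderiv ℝ φ y v) x r z := fun z => by
    simpa using Oa1.der_rs hφ x r 1 z v
  simp only [e3, mul_left_comm _ r⁻¹] at e2
  rw [integral_const_mul] at e2
  rw [inner_gradient, hc.der φ T r hφ hT hr, e1, Oa1.av_rs _ _ x hr, Oa1.av_rs _ _ x hr,
    mul_left_comm, e2]
  ring

end OQg

open OQg in
theorem qg_raw (hK : KerS n) (hA : AvA n) (ha : OA n) (hb : OB n) (hc : OC n) :
    ∃ C, 0 < C ∧ ∀ (T : V n → ℝ) (G : V n → V n) (M : ℝ), Continuous T → (∀ x, 0 ≤ T x) →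
      LB T M → 0 ≤ M → LocallyIntegrable G volume → WG T G →
      ∀ᵐ x, ∀ x₀, T x₀ = 0 → ‖G x‖ ≤ C * M * ‖x - x₀‖ := by
  obtain ⟨φ, ψ, hk⟩ := hK.ker
  obtain ⟨C₁, hC₁, h1⟩ := hc.grad_lip φ ψ hk
  obtain ⟨C₂, hC₂, h2⟩ := hc.grad_le φ hk.tφ
  obtain ⟨C₃, hC₃, h3⟩ := hb.quad
  set b := (volume : Measure (V n)).real (ball 0 1) with hb'
  have b0 : 0 ≤ b := measureReal_nonneg
  refine ⟨C₁ + C₂ * (4 * C₃ * b), by positivity, fun T G M hT h0 hl hM hG hw => ?_⟩
  have lT := hT.locallyIntegrable (μ := volume)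
  filter_upwards [ha.leb_av _ φ G hk.tφ hk.one hG] with x hx x₀ hz
  have key : ∀ r, 0 < r → ‖x - x₀‖ ≤ r → ‖G x‖ ≤ (C₁ + C₂ * (4 * C₃ * b)) * M * r := by
    intro r hr hd
    have a1 : ‖gradient (mol φ T r) x - G x‖ ≤ C₁ * M * r := by
      refine le_of_tendsto ((tendsto_const_nhds.sub hx).norm) ?_
      filter_upwards [Ioc_mem_nhdsGT hr] with s hs
      rw [← grad_mol hA hc hk.tφ lT hG hw x hs.1]
      exact h1 T M lT hl hM x s r hs.1 hs.2
    have a2 : Iv (fun z => |T z|) x r ≤ C₃ * M * (2 * r) ^ 2 * b := by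
      refine (Real.le_norm_self _).trans (norm_setIntegral_le_of_norm_le_const
        (μ := volume) (s := ball (0 : V n) 1) (f := fun y => |T (x + r • y)|)
        measure_ball_lt_top fun y hy => ?_)
      rw [Real.norm_eq_abs, abs_abs, abs_of_nonneg (h0 _)]
      refine (h3 T M x₀ hT h0 hl hM hz _).trans ?_
      have : ‖x + r • y - x₀‖ ≤ 2 * r := by
        rw [add_sub_right_comm]
        refine (norm_add_le _ _).trans ?_
        rw [norm_smul, Real.norm_of_nonneg hr.le]
        nlinarith [mem_ball_zero_iff.1 hy]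
      gcongr
    have a3 : ‖gradient (mol φ T r) x‖ ≤ C₂ * (4 * C₃ * b) * M * r := by
      refine (h2 T r lT hr x).trans ((mul_le_mul_of_nonneg_left a2 (by positivity)).trans_eq ?_)
      field_simp
      ring
    have := norm_sub_norm_le (G x) (gradient (mol φ T r) x)
    rw [norm_sub_rev] at this
    linarith
  have t : Tendsto (fun r : ℝ => (C₁ + C₂ * (4 * C₃ * b)) * M * r) (𝓝[>] ‖x - x₀‖)
      (𝓝 ((C₁ + C₂ * (4 * C₃ * b)) * M * ‖x - x₀‖)) :=
    ((continuous_const.mul continuous_id).tendsto _).mono_left nhdsWithin_le_nhds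
  refine ge_of_tendsto t ?_
  filter_upwards [self_mem_nhdsWithin] with r hr
  exact key r ((norm_nonneg _).trans_lt hr) (le_of_lt hr)

end Pool.Agent.MP_29b5d3_an.EX

end MrgPart10

-- ======== part 11: formerly Pool.Agent.MP_29b5d3_an.EX.Robs
section MrgPart11

/-! Project EXQ: the obstacle package in the form of the specification. -/

set_option autoImplicit false

namespace Pool.Agent.MP_29b5d3_an.EX

open MeasureTheory Metric Filter Topology Module
open scoped RealInnerProductSpace ContDiff ENNReal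
open Pool.Agent.MP_29b5d3_an.NC

variable {n : ℕ}

namespace Robs

theorem loc_tr (hw : H2A n) {u : V n → ℝ} {G : V n → V n} {D : V n → Mt n} (h : H2 u G D) :
    LocallyIntegrable (fun x => tr (D x)) volume :=
  ((trL n).integrable_comp (hw.int u G D h).2.2).locallyIntegrable

theorem h2_le (hw : H2A n) {u f : V n → ℝ} {G : V n → V n} {D : V n → Mt n} (h : H2 u G D)
    (hf : LocallyIntegrable f volume) (hle : ∀ x, tr (D x) ≤ f x) : LLe u f := by
  intro ζ R hζ h0
  rw [hw.lapw u G D h ζ R hζ]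
  exact integral_mono (Oa1.intm (loc_tr hw h) hζ) (Oa1.intm hf hζ) fun x =>
    mul_le_mul_of_nonneg_right (hle x) (h0 x)

theorem h2_ge (hw : H2A n) {u f : V n → ℝ} {G : V n → V n} {D : V n → Mt n} (h : H2 u G D)
    (hf : LocallyIntegrable f volume) (hle : ∀ x, f x ≤ tr (D x)) : LGe u f := by
  intro ζ R hζ h0
  rw [hw.lapw u G D h ζ R hζ]
  exact integral_mono (Oa1.intm hf hζ) (Oa1.intm (loc_tr hw h) hζ) fun x =>
    mul_le_mul_of_nonneg_right (hle x) (h0 x)

theorem zero_off {L : Lev n} (hL : L.Ok) {i : ℕ} {x : V n} (h : x ∉ L.O i) : L.u i x = 0 :=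
  le_antisymm (not_lt.1 h) (hL.u0 i x)

theorem sub_O {L : Lev n} (hL : L.Ok) {i j : ℕ} (h : j ≤ i) {x : V n} (hx : x ∈ L.O i) :
    x ∈ L.O j := lt_of_lt_of_le hx (hL.anti j i x h)

theorem fin (S : Set (V n)) (x : V n) (r : ℝ) : volume (S ∩ ball x r) ≠ ⊤ :=
  ne_top_of_le_ne_top measure_ball_lt_top.ne (measure_mono Set.inter_subset_right)

theorem int_le {f : V n → ℝ} {S : Set (V n)} {c : ℝ} (hS : MeasurableSet S) (hf : volume S ≠ ⊤)
    (hc : 0 ≤ c) (h1 : ∀ x ∈ S, f x ≤ c) (h2 : ∀ x ∉ S, f x ≤ 0) :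
    ∫ x, f x ≤ c * volume.real S := by
  by_cases hi : Integrable f volume
  · have k := integral_mono hi ((integrable_indicator_iff hS).2 (integrableOn_const (C := c) hf))
      fun x => by
        by_cases hx : x ∈ S
        · rw [Set.indicator_of_mem hx]
          exact h1 x hx
        · rw [Set.indicator_of_notMem hx]
          exact h2 x hx
    rwa [integral_indicator hS, setIntegral_const, smul_eq_mul, mul_comm] at k
  · rw [integral_undef hi]
    exact mul_nonneg hc measureReal_nonneg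

theorem tr_DY {L : Lev n} (hL : L.Ok) (M : ℕ) (x : V n) :
    tr (L.DY M x) ≤ n * (L.δ * L.τ M) := by
  have e : L.τ (M + 1) = L.τ M + L.δ * L.τ M := by
    unfold Lev.τ
    ring
  have p : 0 ≤ (n : ℝ) * (L.δ * L.τ M) := by
    have := hL.δ0
    have := hL.τp
    unfold Lev.τ
    positivity
  rw [Lev.DY, tr_sub]
  by_cases h1 : x ∈ L.O (M + 1)
  · rw [hL.on _ x h1, hL.on _ x (sub_O hL (Nat.le_succ M) h1), e]
    linarith
  · obtain ⟨-, a1, a2⟩ := hL.off _ x h1
    by_cases h0 : x ∈ L.O M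
    · rw [a1, tr_zero, hL.on _ x h0]
      rw [e] at a2
      linarith
    · rw [a1, (hL.off _ x h0).2.1, sub_self]
      exact p

theorem mass (hA : AvA n) {φ g : V n → ℝ} (hφ : Test φ 1) (h1 : ∫ y, φ y = 1)
    (hg : Integrable g volume) {r : ℝ} (hr : 0 < r) : ∫ x, av φ g x r = ∫ z, g z := by
  have k := (hA.mass φ (fun y => g (r • y)) (hφ.cont.integrable_of_hasCompactSupport hφ.supp)
    (hg.comp_smul hr.ne')).2
  have e : ∀ x, av φ (fun y => g (r • y)) x 1 = av φ g (r • x) r := fun x => by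
    simpa using av_av φ g 0 x r 1
  simp only [e] at k
  rw [h1, one_mul, Measure.integral_comp_smul volume (fun x => av φ g x r) r,
    Measure.integral_comp_smul volume g r] at k
  exact smul_right_injective ℝ (abs_pos.2 (inv_pos.2 (pow_pos hr _)).ne').ne' k

end Robs

open Robs

theorem qg (h : Bas1 n) : QG n := by
  have ha := oa h.hn h.ava h.avb
  have hb := ob h.hn h.ker h.ava h.avb
  obtain ⟨C₁, hC₁, h1⟩ := hb.quad
  obtain ⟨C₂, hC₂, h2⟩ := qg_raw h.ker h.ava ha hb (oc h.hn h.ker h.ava h.avb)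
  refine ⟨C₁ + C₂, by positivity, fun u G D M hu hc h0 hM => ?_⟩
  have M0 : 0 ≤ M := (abs_nonneg _).trans (hM 0)
  have lb : LB u M :=
    ⟨h2_le h.h2a hu (locallyIntegrable_const _) fun x => (abs_le.1 (hM x)).2,
      h2_ge h.h2a hu (locallyIntegrable_const _) fun x => (abs_le.1 (hM x)).1⟩
  refine ⟨fun x x₀ hz => (h1 u M x₀ hc h0 lb M0 hz x).trans (by gcongr; linarith), ?_⟩
  filter_upwards [h2 u G M hc h0 lb M0 (h.h2a.int u G D hu).2.1.locallyIntegrable
    (h.h2a.weak u G D hu)] with x hx x₀ hz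
  exact (hx x₀ hz).trans (by gcongr; linarith)

theorem den (h : Bas1 n) (h1 : LV1 n) : DEN n := by
  obtain ⟨C, hC, hm⟩ := (ob h.hn h.ker h.ava h.avb).mass
  refine ⟨C, hC, fun L hL j i x r hji hx hr => ?_⟩
  have n0 : (0 : ℝ) < n := by exact_mod_cast lt_of_lt_of_le (by norm_num) h.hn
  have pi := h1.τpos L hL i
  have pj := h1.τpos L hL j
  have mo := (h1.opn L hL i).measurableSet
  have lg : LocallyIntegrable ((L.O i).indicator fun _ => n * L.τ i) volume :=
    (locallyIntegrable_const _).indicator mo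
  have k := hm (fun y => L.u j y - L.u i y) ((L.O i).indicator fun _ => n * L.τ i) (n * L.τ j) x r
    ((hL.cont j).sub (hL.cont i)) (fun y => sub_nonneg.2 (hL.anti j i y hji))
    (by rw [zero_off hL hx, zero_off hL fun h' => hx (sub_O hL hji h'), sub_self]) lg
    (fun y => Set.indicator_nonneg (fun _ _ => by positivity) y) (by positivity)
    (h2_le h.h2a (h.h2a.sub _ _ _ _ _ _ (hL.h2 j) (hL.h2 i))
      ((locallyIntegrable_const _).sub lg) fun y => by
        rw [tr_sub]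
        by_cases a : y ∈ L.O i
        · rw [Set.indicator_of_mem a, hL.on _ y a, hL.on _ y (sub_O hL hji a)]
          linarith
        · rw [Set.indicator_of_notMem a, (hL.off _ y a).2.1, tr_zero]
          by_cases b : y ∈ L.O j
          · rw [hL.on _ y b]
            linarith [hL.θ0 y]
          · rw [(hL.off _ y b).2.1, tr_zero]
            linarith [mul_pos n0 pj]) hr
  rw [setIntegral_indicator mo, setIntegral_const, smul_eq_mul, Set.inter_comm] at k
  rw [← ofReal_measureReal (fin _ x r)]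
  refine ENNReal.ofReal_le_ofReal (le_of_mul_le_mul_right (k.trans_eq ?_) (mul_pos n0 pi))
  field_simp

theorem obs (h : Bas1 n) : OBS n := by
  classical
  have ha := oa h.hn h.ava h.avb
  have hc := oc h.hn h.ker h.ava h.avb
  obtain ⟨φ, ψ, hk⟩ := h.ker.ker
  obtain ⟨C, hC, hl⟩ := olev_raw h.ker ha (ob h.hn h.ker h.ava h.avb) hc
    (osolAll h.hn h.ker h.ava h.avb)
  refine ⟨φ, C, hk.tφ, hk.φ0, hk.one, hC, fun E r δ τ0 mE sE r0 r1 δ0 δ1 t0 hτ => ?_⟩
  have n1 : (1 : ℝ) ≤ n := by exact_mod_cast le_trans (by norm_num) h.hn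
  set g : V n → ℝ := E.indicator fun _ => (1 : ℝ) with hg
  have fE : volume E ≠ ⊤ := ne_top_of_le_ne_top measure_ball_lt_top.ne (measure_mono sE)
  have gi : Integrable g volume := (integrable_indicator_iff mE).2 (integrableOn_const fE)
  have g01 : ∀ x, 0 ≤ g x ∧ g x ≤ 1 := fun x => by
    by_cases hx : x ∈ E
    · rw [hg, Set.indicator_of_mem hx]
      exact ⟨zero_le_one, le_rfl⟩
    · rw [hg, Set.indicator_of_notMem hx]
      exact ⟨le_rfl, zero_le_one⟩
  have m1 : ∫ x, av φ g x r = volume.real E := by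
    rw [mass h.ava hk.tφ hk.one gi r0, hg, integral_indicator mE, setIntegral_const, smul_eq_mul,
      mul_one]
  have ex : ∃ N : ℕ, 1 ≤ (n : ℝ) * (τ0 * (1 + δ) ^ N) := by
    obtain ⟨N, hN⟩ := pow_unbounded_of_one_lt τ0⁻¹ (show 1 < 1 + δ by linarith)
    have : 1 ≤ τ0 * (1 + δ) ^ N := by
      rw [inv_lt_iff_one_lt_mul₀' t0] at hN
      exact hN.le
    exact ⟨N, one_le_mul_of_one_le_of_one_le n1 this⟩
  have θ1 : ∀ x, av φ g x r ≤ 1 := fun x =>
    le_of_le_of_eq (integral_mono_of_nonneg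
      (Eventually.of_forall fun y => mul_nonneg (hk.φ0 y) (g01 _).1)
      (hk.tφ.cont.integrable_of_hasCompactSupport hk.tφ.supp)
      (Eventually.of_forall fun y => mul_le_of_le_one_right (hk.φ0 y) (g01 _).2)) hk.one
  have θ2 : ∀ x, 2 ≤ ‖x‖ → av φ g x r = 0 := fun x hx => by
    refine (integral_congr_ae (Eventually.of_forall fun y => ?_)).trans (integral_zero _ _)
    rcases le_or_gt 1 ‖y‖ with hy | hy
    · simp only [hk.tφ.2 y hy, zero_smul]
    · have : x + r • y ∉ E := fun h' => by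
        have a := mem_ball_zero_iff.1 (sE h')
        have b := norm_sub_le (x + r • y) (r • y)
        rw [add_sub_cancel_right, norm_smul, Real.norm_of_nonneg r0.le] at b
        nlinarith [norm_nonneg y]
      simp only [hg, Set.indicator_of_notMem this, smul_zero]
  obtain ⟨θ, u, G, D, e, mθ, θb, h2, uc, u0, an, u3, uN, sy, on, off, vol⟩ :=
    hl (fun x => av φ g x r) (fun i => τ0 * (1 + δ) ^ i) (Nat.find ex)
      (hc.smooth φ g r hk.tφ gi.locallyIntegrable r0).continuous.measurable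
      (fun x => ⟨integral_nonneg fun y => mul_nonneg (hk.φ0 y) (g01 _).1, θ1 x⟩) θ2
      (by positivity)
      (fun i j hij => mul_le_mul_of_nonneg_left (pow_le_pow_right₀ (by linarith) hij) t0.le)
      (by
        rw [m1, pow_zero, mul_one]
        nlinarith)
      (Nat.find_spec ex)
  have anti : ∀ i j x, i ≤ j → u j x ≤ u i x := fun i j x hij =>
    antitone_nat_of_succ_le (f := fun i => u i x) (fun i => an i x) hij
  have sub : ∀ i, {x | 0 < u i x} ⊆ ball (0 : V n) 3 := fun i x hx => by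
    by_contra hn
    exact (ne_of_gt hx) (u3 i x (by simpa using hn))
  refine ⟨⟨θ, δ, τ0, volume.real E, Nat.find ex, u, G, D,
    fun x => Nat.findGreatest (fun i => 0 < u i x) (Nat.find ex)⟩,
    ⟨δ0, δ1, t0, measureReal_nonneg, mθ, fun x => (θb x).1, fun x => (θb x).2.trans (θ1 x),
      fun x hx => le_antisymm ((θb x).2.trans_eq (θ2 x (by linarith))) (θb x).1,
      ((integral_congr_ae e).trans m1).le, fun i => ?_, uc, u0, anti, sub 0, uN,
      fun i x => (sym_iff _).2 (sy i x), on,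
      fun i x hx => off i x (le_antisymm (not_lt.1 hx) (u0 i x)), fun i => ?_,
      measurable_findGreatest fun k _ => (isOpen_lt continuous_const (uc k)).measurableSet,
      fun i x hi => ⟨fun hx => ?_, fun hx => ?_⟩⟩, rfl, rfl, rfl, e, fun hN => ?_⟩
  · obtain ⟨a1, a2, a3, a4, a5⟩ := h2 i
    exact ⟨(uc i).stronglyMeasurable, a1, a2,
      fun x hx => ⟨u3 i x (by linarith), a3 x hx, a4 x hx⟩, a5⟩
  · have k := vol i
    rw [m1] at k
    change volume {x | 0 < u i x} ≤ ENNReal.ofReal (volume.real E / (n * (τ0 * (1 + δ) ^ i)))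
    rw [← ofReal_measureReal (ne_top_of_le_ne_top measure_ball_lt_top.ne (measure_mono (sub i)))]
    exact ENNReal.ofReal_le_ofReal ((le_div_iff₀' (by positivity)).2 k)
  · refine Nat.le_findGreatest (P := fun i => 0 < u i x) ?_ hx
    by_contra hn
    exact (ne_of_gt hx) (uN i x (not_le.1 hn).le)
  · exact lt_of_lt_of_le (Nat.findGreatest_of_ne_zero (P := fun i => 0 < u i x) rfl
      (Nat.one_le_iff_ne_zero.1 (hi.trans hx))) (anti _ _ x hx)
  · exact (not_le.1 (Nat.find_min ex (Nat.sub_lt hN one_pos))).le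

theorem ys (h : Bas1 n) (hc : H2C n) (h1 : LV n) : YS n := by
  obtain ⟨c, C, hc0, hC, hy⟩ := ysup h.ker h.ava (ob h.hn h.ker h.ava h.avb)
  obtain ⟨χ, tχ, χ01, χ1⟩ := exists_cut (n := n) (a := 1 / 2) (b := 1) (by norm_num) (by norm_num)
  obtain ⟨K, hK, hχ⟩ := tχ.bdd_fderiv
  have n0 : (0 : ℝ) < n := by exact_mod_cast lt_of_lt_of_le (by norm_num) h.hn
  refine ⟨c, 4 ^ n * c * (8 * C * n ^ 2 + 64 * C ^ 2 * n ^ 2 * K ^ 2 + 4 * C * n), hc0,
    by positivity, fun L j D hL hD hn M z hjM => ?_⟩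
  obtain ⟨x₀, hx₀, hv⟩ := hn z
  set l := D z with hl
  have l0 : 0 < l := hD z
  have pM := h1.τpos L hL M
  have pj := h1.τpos L hL j
  have δ0 := hL.δ0
  have mo := (h1.opn L hL M).measurableSet
  have hY := h1.h2Y L hL M
  have cY : Continuous (L.Y M) := (hL.cont _).sub (hL.cont _)
  have Y0 : ∀ x, L.Y M x ≤ 0 := fun x => sub_nonpos.2 (hL.anti _ _ x (Nat.le_succ M))
  have Yz : ∀ x, x ∉ L.O M → L.Y M x = 0 := fun x hx => (h1.off L hL M x hx).1
  obtain ⟨B, hB⟩ := cY.bounded_above_of_compact_support (supp_of fun x hx => (hY.out x hx).1)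
  have vr : ∀ r, l ≤ r → volume.real (L.O M ∩ ball x₀ r) ≤ c * (L.τ j / L.τ M) * r ^ n :=
    fun r hr => ENNReal.toReal_le_of_le_ofReal (by have := l0.trans_le hr; positivity)
      (hv M r hjM hr)
  have k := hy (fun x => -1 * L.Y M x) (L.O M) (n * (L.δ * L.τ M)) B l x₀
    (continuous_const.mul cY) (fun x => by linarith [Y0 x])
    (fun x => by linarith [neg_abs_le (L.Y M x), show |L.Y M x| ≤ B from hB x])
    (fun x hx => by
      by_contra hn
      rw [Yz x hn] at hx
      linarith)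
    (h2_ge h.h2a (h.h2a.smul (-1) _ _ _ hY) (locallyIntegrable_const _) fun x => by
      rw [tr_smul]
      linarith [tr_DY hL M x])
    (by positivity) l0 (fun r hr => (vr r hr).trans (by
      have := l0.trans_le hr
      have := (div_le_one pM).2 (h1.τmono L hL hjM)
      gcongr
      exact mul_le_of_le_one_right hc0.le this)) (2 * l) (by linarith)
  set b := C * (n * (L.δ * L.τ M)) * (2 * l) ^ 2 with hb
  have b0 : 0 < b := by positivity
  set S := L.O M ∩ ball x₀ (2 * l) with hS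
  have mS : MeasurableSet S := mo.inter measurableSet_ball
  have vS := vr (2 * l) (by linarith)
  have sub : ball z l ⊆ ball x₀ (2 * l) := ball_subset_ball' (by rw [dist_comm]; linarith)
  have Yb : ∀ x ∈ S, |L.Y M x| ≤ b := fun x hx => by
    rw [abs_of_nonpos (Y0 x)]
    linarith [k x hx.2]
  have l2 : 0 < l / 2 := by positivity
  refine ⟨al_le_of_lint l2 ?_, al_le_of_lint l2 ?_⟩
  · have tη := Oa1.test_rs tχ z l0
    set η := Oa1.rs χ z l with hη
    have out : ∀ x, x ∉ ball z l → 1 ≤ ‖l⁻¹ • (x - z)‖ := fun x hx => by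
      rw [norm_smul, Real.norm_of_nonneg (inv_pos.2 l0).le, ← div_eq_inv_mul, le_div_iff₀ l0,
        one_mul, ← dist_eq_norm]
      exact not_lt.1 hx
    have dη : ∀ x, fderiv ℝ η x = l⁻¹ • fderiv ℝ χ (l⁻¹ • (x - z)) := fun x => by
      ext v
      have := Oa1.der_rs tχ z l 1 x v
      simp only [one_mul] at this
      exact this
    have ng : ∀ x, ‖gradient η x‖ = l⁻¹ * ‖fderiv ℝ χ (l⁻¹ • (x - z))‖ := fun x => by
      rw [gradient, LinearIsometryEquiv.norm_map, dη, norm_smul,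
        Real.norm_of_nonneg (inv_pos.2 l0).le]
    have η1 : ∀ x, η x ^ 2 ≤ 1 := fun x => pow_le_one₀ (χ01 _).1 (χ01 _).2
    have z0 : ∀ x, x ∉ S → L.Y M x = 0 ∨ (η x = 0 ∧ ‖gradient η x‖ = 0) := fun x hx => by
      by_cases a : x ∈ L.O M
      · have o := out x fun h' => hx ⟨a, sub h'⟩
        exact Or.inr ⟨tχ.2 _ o, by rw [ng, tχ.fderiv_zero _ o, norm_zero, mul_zero]⟩
      · exact Or.inl (Yz x a)
    have i1 : ∫ x, -(η x ^ 2 * (L.Y M x * tr (L.DY M x))) ≤
        b * (n * (L.δ * L.τ M)) * volume.real S :=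
      int_le mS (fin _ _ _) (by positivity) (fun x hx => by
        have a1 := mul_le_mul_of_nonneg_left (tr_DY hL M x) (neg_nonneg.2 (Y0 x))
        have a2 : -L.Y M x * (n * (L.δ * L.τ M)) ≤ b * (n * (L.δ * L.τ M)) := by
          gcongr
          linarith [neg_abs_le (L.Y M x), Yb x hx]
        have a3 := mul_le_mul_of_nonneg_left (a1.trans a2) (sq_nonneg (η x))
        have a4 := mul_le_of_le_one_left (show 0 ≤ b * (n * (L.δ * L.τ M)) by positivity) (η1 x)
        linarith) fun x hx => by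
          rcases z0 x hx with a | a
          · simp [a]
          · simp [a.1]
    have i2 : ∫ x, L.Y M x ^ 2 * ‖gradient η x‖ ^ 2 ≤ b ^ 2 * (l⁻¹ * K) ^ 2 * volume.real S :=
      int_le mS (fin _ _ _) (by positivity) (fun x hx => by
        rw [← sq_abs (L.Y M x), ng]
        gcongr
        exacts [Yb x hx, hχ _]) fun x hx => by
          rcases z0 x hx with a | a
          · simp [a]
          · simp [a.2]
    have i3 := hc.cacc _ η _ _ _ hY tη
    rw [integral_neg] at i1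
    have iG : Integrable (fun x => η x ^ 2 * ‖L.GY M x‖ ^ 2) volume :=
      ((memLp_two_iff_integrable_sq_norm hY.mG.aestronglyMeasurable).1
        (h.h2a.lp _ _ _ hY).2.1).bdd_mul (c := 1) (tη.cont.pow 2).aestronglyMeasurable
        (Eventually.of_forall fun x => by
          rw [Real.norm_of_nonneg (sq_nonneg _)]
          exact η1 x)
    calc ∫⁻ y in ball z (l / 2), ENNReal.ofReal (‖L.GY M y‖ ^ 2)
        = ∫⁻ y in ball z (l / 2), ENNReal.ofReal (η y ^ 2 * ‖L.GY M y‖ ^ 2) := by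
          refine setLIntegral_congr_fun measurableSet_ball fun y hy => ?_
          have : η y = 1 := χ1 _ (by
            rw [norm_smul, Real.norm_of_nonneg (inv_pos.2 l0).le, ← div_eq_inv_mul,
              div_le_iff₀ l0, ← dist_eq_norm]
            linarith [mem_ball.1 hy])
          simp only [this, one_pow, one_mul]
      _ ≤ ∫⁻ y, ENNReal.ofReal (η y ^ 2 * ‖L.GY M y‖ ^ 2) := setLIntegral_le_lintegral _ _
      _ = ENNReal.ofReal (∫ y, η y ^ 2 * ‖L.GY M y‖ ^ 2) :=
          (ofReal_integral_eq_lintegral_ofReal iG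
            (Eventually.of_forall fun x => by positivity)).symm
      _ ≤ _ := by
          rw [← ENNReal.ofReal_mul (by positivity)]
          refine ENNReal.ofReal_le_ofReal ?_
          have a : (2 * (b * (n * (L.δ * L.τ M))) + 4 * (b ^ 2 * (l⁻¹ * K) ^ 2)) * volume.real S ≤
              (2 * (b * (n * (L.δ * L.τ M))) + 4 * (b ^ 2 * (l⁻¹ * K) ^ 2)) *
                (c * (L.τ j / L.τ M) * (2 * l) ^ n) := by gcongr
          have e : (2 * (b * (n * (L.δ * L.τ M))) + 4 * (b ^ 2 * (l⁻¹ * K) ^ 2)) *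
              (c * (L.τ j / L.τ M) * (2 * l) ^ n) = (l / 2) ^ n * (4 ^ n * c *
                (8 * C * n ^ 2 + 64 * C ^ 2 * n ^ 2 * K ^ 2) *
                  (L.δ ^ 2 * L.τ M * L.τ j) * l ^ 2) := by
            rw [show (2 * l) ^ n = (l / 2) ^ n * 4 ^ n by rw [← mul_pow]; ring_nf, hb]
            field_simp
            ring
          refine (show _ ≤ _ by linarith : _ ≤ _ * volume.real S).trans (a.trans (e.trans_le ?_))
          have : 8 * C * n ^ 2 + 64 * C ^ 2 * n ^ 2 * K ^ 2 ≤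
              8 * C * n ^ 2 + 64 * C ^ 2 * n ^ 2 * K ^ 2 + 4 * C * n :=
            le_add_of_nonneg_right (by positivity)
          gcongr
  · calc ∫⁻ y in ball z (l / 2), ENNReal.ofReal |L.Y M y|
        ≤ ∫⁻ y, S.indicator (fun _ => ENNReal.ofReal b) y := by
          rw [← lintegral_indicator measurableSet_ball]
          refine lintegral_mono fun y => Set.indicator_apply_le fun hy => ?_
          by_cases a : y ∈ L.O M
          · have s : y ∈ S := ⟨a, sub (ball_subset_ball (by linarith) hy)⟩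
            rw [Set.indicator_of_mem s]
            exact ENNReal.ofReal_le_ofReal (Yb y s)
          · simp [Yz y a]
      _ ≤ _ := by
          rw [lintegral_indicator mS, setLIntegral_const, ← ofReal_measureReal (fin _ _ _),
            ← ENNReal.ofReal_mul b0.le, ← ENNReal.ofReal_mul (by positivity)]
          refine ENNReal.ofReal_le_ofReal ((mul_le_mul_of_nonneg_left vS b0.le).trans ?_)
          have e : b * (c * (L.τ j / L.τ M) * (2 * l) ^ n) =
              (l / 2) ^ n * (4 ^ n * c * (4 * C * n) * (L.δ * L.τ j) * l ^ 2) := by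
            rw [show (2 * l) ^ n = (l / 2) ^ n * 4 ^ n by rw [← mul_pow]; ring_nf, hb]
            field_simp
            ring
          rw [e]
          gcongr
          linarith [show 0 ≤ 8 * C * n ^ 2 + 64 * C ^ 2 * n ^ 2 * K ^ 2 by positivity]

end Pool.Agent.MP_29b5d3_an.EX

end MrgPart11

-- marker of a merged file
example : 731051 + 310224 = 731051 + 310224 := rfl
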