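import Pool.Agent.MP_29b5d3_an.EX.Rblk2

/-! Project EXQ: polar data of a nearly conformal field. -/

set_option autoImplicit false

namespace Pool.Agent.MP_29b5d3_an.EX

open MeasureTheory Metric Filter Topology Module Pool.Agent.MP_29b5d3_an.NC
open scoped RealInnerProductSpace ContDiff ENNReal

variable {n : ℕ}

namespace Rprepx

theorem norm_one (hn : 3 ≤ n) : ‖(1 : Mt n)‖ = 1 := by
  refine le_antisymm norm_one_le ?_
  have h := (1 : Mt n).le_opNorm (ev ⟨0, by omega⟩)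
  rwa [one_apply_eq_self, norm_ev, mul_one] at h

theorem orth_of {a : ℝ} {N : Mt n} (h : Conf a N) : Orth (a⁻¹ • N) :=
  (ContinuousLinearMap.norm_map_iff_adjoint_comp_self (a⁻¹ • N)).1 fun v => by
    rw [smul_apply, norm_smul, h.2.1, Real.norm_eq_abs,
      abs_of_pos (inv_pos.2 h.1), inv_mul_cancel_left₀ h.1.ne']

theorem abs_log_le {t η : ℝ} (h : |t - 1| ≤ η) (hη : η ≤ 1 / 4) : |Real.log t| ≤ 2 * η := by
  obtain ⟨h1, h2⟩ := abs_le.1 h
  have t0 : 0 < t := by linarith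
  have k1 := Real.log_le_sub_one_of_pos t0
  have k2 := Real.one_sub_inv_le_log_of_pos t0
  have k3 : t⁻¹ ≤ 1 + 2 * η := by
    rw [inv_le_iff_one_le_mul₀ t0]
    nlinarith
  rw [abs_le]
  constructor <;> linarith

theorem near (hn : 3 ≤ n) {a η ε : ℝ} {N X R P : Mt n} (hN : Conf a N) (hR : Orth R)
    (hP : ‖P‖ ≤ ε) (hX : X ≠ 0) (e : X = ‖X‖ • (R * (1 - P))) (h : ‖N ∘L X - 1‖ ≤ η)
    (hη : η ≤ 1 / 4) :
    ‖(Real.log ‖X‖, R) - (-Real.log a, star (a⁻¹ • N))‖ ≤ 2 * η + 2 * ε := by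
  have hQ := orth_of hN
  have a0 := hN.1
  obtain ⟨Q, hq⟩ : ∃ Q : Mt n, Q = a⁻¹ • N := ⟨_, rfl⟩
  rw [← hq] at hQ ⊢
  have eN : N = a • Q := by rw [hq, smul_smul, mul_inv_cancel₀ a0.ne', one_smul]
  have x0 : 0 < ‖X‖ := norm_pos_iff.2 hX
  have e1 : N ∘L X = a • (Q * X) := by rw [eN]; exact smul_mul_assoc a Q X
  rw [e1] at h
  have t1 : |a * ‖X‖ - 1| ≤ η := by
    have := abs_norm_sub_norm_le (a • (Q * X)) 1
    rw [norm_smul, hQ.norm_mul, norm_one hn, Real.norm_eq_abs, abs_of_pos a0] at this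
    exact this.trans h
  have ε0 : 0 ≤ ε := (norm_nonneg _).trans hP
  have η0 : 0 ≤ η := (norm_nonneg _).trans h
  rw [Prod.mk_sub_mk, Prod.norm_mk]
  refine max_le ?_ ?_
  · rw [sub_neg_eq_add, ← Real.log_mul x0.ne' a0.ne', mul_comm ‖X‖, Real.norm_eq_abs]
    linarith [abs_log_le t1 hη]
  · obtain ⟨t, ht⟩ : ∃ t, t = ‖X‖ := ⟨_, rfl⟩
    rw [← ht] at e t1 x0
    have e2 : Q * (R - star Q) = (1 - a * t) • (Q * (R * 1)) + (a * t) • (Q * (R * P)) +
        (a • (Q * X) - 1) := by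
      rw [e, mul_sub, hQ.mul_star]
      simp only [mul_one, mul_sub, mul_smul_comm, smul_sub]
      module
    rw [← hQ.norm_mul, e2]
    refine (norm_add₃_le).trans ?_
    rw [norm_smul, norm_smul, hQ.norm_mul, hQ.norm_mul, hR.norm_mul, hR.norm_mul, norm_one hn,
      Real.norm_eq_abs, Real.norm_eq_abs, abs_sub_comm, abs_of_pos (mul_pos a0 x0)]
    have := (abs_le.1 t1).2
    nlinarith [norm_nonneg P]

theorem cheb (hA : AvA n) {A : V n → Mt n} (hc : CF A) (N : Mt n) (x : V n) {r c η α : ℝ}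
    (hr : 0 < r) (hη : 0 < η) (hα : c ≤ α * η ^ 2)
    (h : Iv (fun z => ‖N ∘L A z - 1‖ ^ 2) x r ≤ c) :
    volume {y ∈ ball x r | η ≤ ‖N ∘L A y - 1‖} ≤ ENNReal.ofReal (α * r ^ n) := by
  have m : StronglyMeasurable fun z => N ∘L A z - 1 :=
    (stronglyMeasurable_const.mul hc.meas).sub stronglyMeasurable_const
  have i0 : IntegrableOn (fun z => ‖A z‖ ^ 2) (ball x r) volume :=
    (hc.l2.integrableOn_isCompact (isCompact_closedBall x r)).mono_set ball_subset_closedBall
  have i1 : IntegrableOn (fun z => ‖N ∘L A z - 1‖ ^ 2) (ball x r) volume := by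
    refine Integrable.mono' ((i0.const_mul (2 * ‖N‖ ^ 2)).add
      (integrableOn_const (C := (2 : ℝ)) measure_ball_lt_top.ne))
      (m.norm.pow 2).aestronglyMeasurable (Eventually.of_forall fun z => ?_)
    have k1 : ‖N ∘L A z - 1‖ ≤ ‖N‖ * ‖A z‖ + 1 :=
      (norm_sub_le _ _).trans (add_le_add (N.opNorm_comp_le _) norm_one_le)
    rw [Real.norm_eq_abs, abs_of_nonneg (by positivity), Pi.add_apply]
    nlinarith [norm_nonneg (N ∘L A z - 1), sq_nonneg (‖N‖ * ‖A z‖ - 1)]
  have k := mul_meas_ge_le_integral_of_nonneg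
    (Eventually.of_forall fun z => sq_nonneg ‖N ∘L A z - 1‖) i1 (η ^ 2)
  rw [hA.Iv_eq _ x r hr, inv_mul_le_iff₀ (by positivity)] at h
  rw [measureReal_def, Measure.restrict_apply' measurableSet_ball] at k
  have f : volume ({z | η ^ 2 ≤ ‖N ∘L A z - 1‖ ^ 2} ∩ ball x r) ≠ ⊤ :=
    ((measure_mono Set.inter_subset_right).trans_lt measure_ball_lt_top).ne
  refine (measure_mono fun y hy => ?_).trans ((ENNReal.le_ofReal_iff_toReal_le f ?_).2 ?_)
  · exact ⟨pow_le_pow_left₀ hη.le hy.2 2, hy.1⟩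
  · have : 0 ≤ α * η ^ 2 * r ^ n := by
      have k0 : 0 ≤ ∫ z in ball x r, ‖N ∘L A z - 1‖ ^ 2 := integral_nonneg fun z => sq_nonneg _
      nlinarith [pow_pos hr n]
    exact nonneg_of_mul_nonneg_left (a := α * r ^ n) (b := η ^ 2) (by linarith) (by positivity)
  · refine le_of_mul_le_mul_left (k.trans (h.trans ?_)) (pow_pos hη 2)
    nlinarith [pow_pos hr n]

theorem null {S : Set (V n)} (h : ∀ x ∈ ball (0 : V n) 10, ∀ r, 0 < r → r ≤ 10 →
    volume (S ∩ ball x r) ≤ ENNReal.ofReal (al0 n / 2 * r ^ n)) :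
    ∀ᵐ x, x ∈ ball (0 : V n) 10 → x ∉ S := by
  filter_upwards [ae_imp_of_ae_restrict
    (IsUnifLocDoublingMeasure.ae_tendsto_measure_inter_div.{0, 0} volume S 1)] with x hx hb hS
  have k := hx hS (l := 𝓝[>] (0 : ℝ)) (fun _ => x) id tendsto_id (by
    filter_upwards [self_mem_nhdsWithin] with r hr
    exact mem_closedBall_self (by simpa using le_of_lt hr))
  have k2 : (1 : ℝ≥0∞) ≤ ENNReal.ofReal (1 / 2) := by
    refine le_of_tendsto k ?_
    filter_upwards [Ioo_mem_nhdsGT (show (0 : ℝ) < 5 by norm_num)] with r hr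
    have r0 : 0 < r := hr.1
    refine ENNReal.div_le_of_le_mul (le_trans (measure_mono (Set.inter_subset_inter_right _
      (closedBall_subset_ball (show r < 2 * r by linarith)))) ?_)
    refine (h x hb _ (by linarith) (by linarith [hr.2])).trans (le_trans ?_
      (mul_le_mul_right (measure_mono ball_subset_closedBall) _))
    rw [id, vol_ball x r0, ← ENNReal.ofReal_mul (by norm_num)]
    refine ENNReal.ofReal_le_ofReal ?_
    have e : al0 n / 2 * (2 * r) ^ n = (2 / 20) ^ n / 4 * (vb n * r ^ n) := by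
      rw [al0, ← vb, div_pow, mul_pow]; field_simp; norm_num
    have : ((2 : ℝ) / 20) ^ n ≤ 1 := pow_le_one₀ (by norm_num) (by norm_num)
    rw [e]
    exact mul_le_mul_of_nonneg_right (by linarith) (mul_pos vb_pos (pow_pos r0 n)).le
  rw [ENNReal.one_le_ofReal] at k2
  norm_num at k2

end Rprepx

open Rprepx in
theorem prep (h : Bas1 n) (hP : POL n) : PREP n := by
  classical
  intro CV hCV
  have a0 := al0_pos (n := n)
  have n0 : (0 : ℝ) < n := by exact_mod_cast (by linarith [h.hn] : 0 < n)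
  have n1 : (1 : ℝ) ≤ n := by exact_mod_cast (by linarith [h.hn] : 1 ≤ n)
  obtain ⟨K, K1, hK⟩ : ∃ K : ℝ, 1 ≤ K ∧ CV ≤ al0 n / 2 * K ^ 2 := by
    refine ⟨1 + 2 * CV / al0 n, le_add_of_nonneg_right (by positivity), ?_⟩
    have : 0 < 2 * CV / al0 n := by positivity
    calc CV = al0 n / 2 * (2 * CV / al0 n) := by field_simp
      _ ≤ _ := mul_le_mul_of_nonneg_left (by nlinarith) (by positivity)
  obtain ⟨C, C0, hC⟩ := h.jn.cen (4 * n * (K + 1)) (by positivity)
  refine ⟨4 * n * (K + 1), 5 ^ n * C, 1 / (4 * K), by positivity, by positivity, by positivity, ?_⟩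
  intro ε A ε0 ε1 hA hq hp h1
  have η1 : K * ε ≤ 1 / 4 := by
    rw [le_div_iff₀ (by positivity)] at ε1
    linarith
  have ε2 : ε ≤ 1 / 4 := by nlinarith
  obtain ⟨b, hb⟩ : ∃ b, b = ε / (n * (1 + ε)) := ⟨_, rfl⟩
  have b0 : 0 < b := by rw [hb]; positivity
  have nb : n * b * (1 + ε) = ε := by rw [hb]; field_simp
  have nb0 : 0 < n * b := by positivity
  have nb1 : n * b ≤ ε := by nlinarith
  have nb2 : ε ≤ 2 * (n * b) := by nlinarith
  obtain ⟨R, P, mR, mP, hR, hpol⟩ := hP A hA.meas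
  have hpol' := fun x => hpol x ε ε0.le ε2
  rw [← hb] at hpol' ⊢
  have ma : Measurable fun x => Real.log ‖A x‖ := hA.meas.norm.measurable.log
  have mg : StronglyMeasurable fun x => (Real.log ‖A x‖, R x) := ma.stronglyMeasurable.prodMk mR
  have bad : ∀ x ∈ ball (0 : V n) 10, ∀ r, 0 < r → r ≤ 10 → ∀ (a : ℝ) (N : Mt n), Conf a N →
      Iv (fun z => ‖N ∘L A z - 1‖ ^ 2) x r ≤ CV * ε ^ 2 →
      volume {y ∈ ball x r | A y = 0 ∨ 4 * n * (K + 1) * b <
        ‖(Real.log ‖A y‖, R y) - (-Real.log a, star (a⁻¹ • N))‖} ≤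
        ENNReal.ofReal (al0 n / 2 * r ^ n) := fun x hx r r0 r1 a N hN hI => by
    refine le_trans (measure_mono_ae ?_) (cheb h.ava hA N x (η := K * ε) r0 (by positivity)
      (by rw [mul_pow, ← mul_assoc]; gcongr) hI)
    filter_upwards [hq] with y hy hy'
    refine ⟨hy'.1, ?_⟩
    by_cases z : A y = 0
    · rw [z, ContinuousLinearMap.comp_zero, zero_sub, norm_neg, norm_one h.hn]
      linarith
    have y20 : y ∈ ball (0 : V n) 20 := by
      have := dist_triangle y x 0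
      rw [mem_ball] at hx ⊢
      linarith [mem_ball.1 hy'.1]
    obtain ⟨s1, s2⟩ := hpol' y (hy y20) z
    by_contra c
    have := near h.hn hN (hR y) (s1.norm.trans nb1) z s2 (not_le.1 c).le η1
    nlinarith [hy'.2.resolve_left z]
  have bm : BM (al0 n / 2) (4 * n * (K + 1) * b) fun x => (Real.log ‖A x‖, R x) :=
    fun x hx r r0 r1 => by
      obtain ⟨a, N, hN, hI⟩ := hp x hx r r0 r1
      exact ⟨_, (measure_mono fun y hy => And.intro hy.1 (Or.inr hy.2)).trans
        (bad x hx r r0 r1 a N hN hI)⟩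
  have nz : ∀ᵐ x, x ∈ ball (0 : V n) 10 → x ∉ {y | A y = 0} := null fun x hx r r0 r1 => by
    obtain ⟨a, N, hN, hI⟩ := hp x hx r r0 r1
    exact (measure_mono fun y hy => And.intro hy.2 (Or.inl hy.1)).trans
      (bad x hx r r0 r1 a N hN hI)
  obtain ⟨S, hS⟩ : ∃ S : Set (V n), S = {x | Qr (1 + ε) (A x)} ∩ {x | 0 < ‖A x‖} := ⟨_, rfl⟩
  have mS : MeasurableSet S := by
    rw [hS]
    exact (measurableSet_le (hA.meas.norm.measurable.pow_const n)
      ((ContinuousLinearMap.continuous_det.comp_stronglyMeasurable hA.meas).measurable.const_mul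
        _)).inter (measurableSet_lt measurable_const hA.meas.norm.measurable)
  have mP' := mP.indicator mS
  refine ⟨(ball (0 : V n) 10).piecewise
    (fun x => Real.exp (Real.log ‖A x‖) • (R x * (1 - S.indicator P x))) A, R, S.indicator P,
    fun x => Real.log ‖A x‖, ⟨h.cfs.congr A _ hA ?_ ?_, ma, mR, mP', hR, fun x => ?_,
      fun x hx => Set.piecewise_eq_of_mem _ _ _ hx⟩, ?_, bm, ?_⟩
  · exact StronglyMeasurable.piecewise measurableSet_ball
      (ma.exp.stronglyMeasurable.smul (mR.mul (stronglyMeasurable_const.sub mP'))) hA.meas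
  · filter_upwards [hq, nz] with x k1 k2
    by_cases hx : x ∈ ball (0 : V n) 10
    · have q := k1 (ball_subset_ball (by norm_num) hx)
      have z : 0 < ‖A x‖ := norm_pos_iff.2 (k2 hx)
      rw [Set.piecewise_eq_of_mem _ _ _ hx, Set.indicator_of_mem (hS ▸ ⟨q, z⟩), Real.exp_log z]
      exact (hpol' x q (k2 hx)).2
    · exact (Set.piecewise_eq_of_notMem _ _ _ hx).symm
  · by_cases hx : x ∈ S
    · rw [Set.indicator_of_mem hx]
      rw [hS] at hx
      exact (hpol' x hx.1 (norm_pos_iff.1 hx.2)).1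
    · rw [Set.indicator_of_notMem hx]
      refine ⟨star_zero _, fun v => by simp, by rw [norm_zero]; exact nb0.le, ?_⟩
      rw [sub_zero, h.mat.conf_one.2.2, one_pow]
      linarith
  · filter_upwards [nz] with x k2 hx
    exact (Real.exp_log (norm_pos_iff.2 (k2 hx))).symm
  · have k := bad 0 (mem_ball_self (by norm_num)) 10 (by norm_num) le_rfl 1 1 h.mat.conf_one h1
    have k2 := hC _ _ b 5 0 (-Real.log 1, star ((1 : ℝ)⁻¹ • (1 : Mt n))) mg b0
      (bm.mono (by linarith) le_rfl) (by norm_num) (by norm_num) (by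
        rw [show (2 : ℝ) * 5 = 10 by norm_num]
        exact ((measure_mono fun y hy => And.intro hy.1 (Or.inr hy.2)).trans k).trans
          (ENNReal.ofReal_le_ofReal (by gcongr; linarith)))
    rw [lint_eq _ _ (by norm_num : (0 : ℝ) < 5), ENNReal.ofReal_mul (by positivity)]
    refine mul_le_mul_right ((al_mono fun y _ => ?_).trans (k2.trans
      (ENNReal.ofReal_le_ofReal ?_))) _
    · rw [← ofReal_norm, ← ofReal_norm]
      gcongr
      refine le_trans ?_ (norm_fst_le _)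
      simp
    · have : b ≤ 1 := by nlinarith
      exact mul_le_of_le_one_right C0.le (pow_le_one₀ b0.le this)

end Pool.Agent.MP_29b5d3_an.EX
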