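import Pool.Agent.MP_29b5d3_an.EX.Rblk2

-- ======== part 0: formerly Pool.Agent.MP_29b5d3_an.EX.Rloc2
section MrgPart0

/-! Project EXQ: the oscillation on the next level. -/

set_option autoImplicit false

namespace Pool.Agent.MP_29b5d3_an.EX

open MeasureTheory Metric Filter Topology Module Pool.Agent.MP_29b5d3_an.NC
open scoped RealInnerProductSpace ContDiff ENNReal

variable {n : ℕ}

namespace Rloc2x

/-- a combination with real coefficients -/
noncomputable def lin (A B Z : ℝ≥0∞) (a b c : ℝ) : ℝ≥0∞ :=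
  ENNReal.ofReal a * A + ENNReal.ofReal b * B + ENNReal.ofReal c * Z

variable {A B Z : ℝ≥0∞} {a b c a' b' c' t : ℝ}

theorem lin_add (ha : 0 ≤ a) (hb : 0 ≤ b) (hc : 0 ≤ c) (ha' : 0 ≤ a') (hb' : 0 ≤ b')
    (hc' : 0 ≤ c') :
    lin A B Z a b c + lin A B Z a' b' c' = lin A B Z (a + a') (b + b') (c + c') := by
  simp only [lin, ENNReal.ofReal_add, ha, hb, hc, ha', hb', hc']; ring

theorem lin_mul (ht : 0 ≤ t) :
    ENNReal.ofReal t * lin A B Z a b c = lin A B Z (t * a) (t * b) (t * c) := by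
  simp only [lin, ENNReal.ofReal_mul ht]; ring

theorem lin_mono (ha : a ≤ a') (hb : b ≤ b') (hc : c ≤ c') :
    lin A B Z a b c ≤ lin A B Z a' b' c' := by
  unfold lin; gcongr

theorem en2 {E : Type} [NormedAddCommGroup E] (x : E) : ‖x‖ₑ ^ 2 = ENNReal.ofReal (‖x‖ ^ 2) := by
  rw [ENNReal.ofReal_pow (norm_nonneg _), ofReal_norm]

variable {E : Type} [NormedAddCommGroup E] {g : V n → E}

theorem err (hg : StronglyMeasurable g) {w ζ e : V n → ℝ} (hw : Measurable w)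
    (hw0 : ∀ y, 0 ≤ w y) (hζ0 : ∀ y, 0 ≤ ζ y) {z : V n} {r C : ℝ} {v : E} (hC : 0 ≤ C)
    (h : ∀ y ∈ ball z r,
      e y ^ 2 ≤ C * b ^ 2 * (w y * ‖g y - v‖ ^ 2 + Psi b ‖g y - v‖) + C * ζ y) :
    al (fun y => ENNReal.ofReal (e y ^ 2)) z r ≤
      lin (al (fun y => ENNReal.ofReal (Psi b ‖g y - v‖)) z r)
        (al (fun y => ENNReal.ofReal (w y) * ‖g y - v‖ₑ ^ 2) z r)
        (al (fun y => ENNReal.ofReal (ζ y)) z r) (C * b ^ 2) (C * b ^ 2) C := by
  have m1 : Measurable fun y => ENNReal.ofReal (Psi b ‖g y - v‖) :=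
    ((continuous_Psi b).measurable.comp
      (hg.sub stronglyMeasurable_const).norm.measurable).ennreal_ofReal
  have m2 : Measurable fun y => ENNReal.ofReal (w y) * ‖g y - v‖ₑ ^ 2 :=
    hw.ennreal_ofReal.mul (meas_sq hg v)
  rw [lin, ← al_const_mul ENNReal.ofReal_ne_top, ← al_const_mul ENNReal.ofReal_ne_top,
    ← al_const_mul ENNReal.ofReal_ne_top, ← al_add_left (m1.const_mul _),
    ← al_add_left ((m1.const_mul _).fun_add (m2.const_mul _))]
  refine al_mono fun y hy => (ENNReal.ofReal_le_ofReal (h y hy)).trans_eq ?_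
  have := Psi_nonneg b ‖g y - v‖
  have := hw0 y
  have := hζ0 y
  rw [en2, ← ENNReal.ofReal_mul (hw0 y), ← ENNReal.ofReal_mul hC,
    ← ENNReal.ofReal_mul (by positivity), ← ENNReal.ofReal_mul (by positivity),
    ← ENNReal.ofReal_add (by positivity) (by positivity),
    ← ENNReal.ofReal_add (by positivity) (by positivity)]
  congr 1; ring

theorem fld (hg : StronglyMeasurable g) {Ξ : V n → Mt n} {e : V n → ℝ} {z : V n} {r C : ℝ}
    {v : E} (h : ∀ y ∈ ball z r, ‖Ξ y‖ ≤ C * ‖g y - v‖ + e y) :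
    al (fun y => ‖Ξ y‖ₑ ^ 2) z r ≤ ENNReal.ofReal (2 * C ^ 2) * al (fun y => ‖g y - v‖ₑ ^ 2) z r +
      ENNReal.ofReal 2 * al (fun y => ENNReal.ofReal (e y ^ 2)) z r := by
  rw [← al_const_mul ENNReal.ofReal_ne_top, ← al_const_mul ENNReal.ofReal_ne_top,
    ← al_add_left ((meas_sq hg v).const_mul _)]
  refine al_mono fun y hy => ?_
  rw [en2, en2, ← ENNReal.ofReal_mul (by positivity), ← ENNReal.ofReal_mul zero_le_two,
    ← ENNReal.ofReal_add (by positivity) (by positivity)]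
  refine ENNReal.ofReal_le_ofReal ((pow_le_pow_left₀ (norm_nonneg _) (h y hy) 2).trans ?_)
  nlinarith [sq_nonneg (C * ‖g y - v‖ - e y)]

variable {O : ℕ → Set (V n)} {σ : ℕ → ℝ} {s : V n → ℝ} {Λ C₀ : ℝ}

theorem far (hn : 3 ≤ n) (h : Nest O σ s Λ C₀) (k : ℕ) : ∃ p ∈ (O k)ᶜ, ‖p‖ = 3 := by
  have e : ‖(3 : ℝ) • ev (⟨0, by omega⟩ : Fin n)‖ = 3 := by rw [norm_smul, norm_ev]; simp
  exact ⟨_, fun hp => by simpa [e] using h.sub (h.anti k.zero_le hp), e⟩

theorem dpos (hn : 3 ≤ n) (h : Nest O σ s Λ C₀) (k : ℕ) :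
    {z | 0 < infDist z (O k)ᶜ} = O k := by
  obtain ⟨p, hp, -⟩ := far hn h k
  ext z
  rw [Set.mem_ofPred_eq, ← (h.opn k).isClosed_compl.notMem_iff_infDist_pos ⟨p, hp⟩,
    Set.notMem_compl_iff]

/-- the next level is thin -/
theorem thin (hn : 3 ≤ n) (h : Nest O σ s Λ C₀) (hC : 0 < C₀) {η : ℝ} (hη : 0 < η)
    (hΛ : C₀ * 400 ^ n / (vb n * η ^ n) ≤ Λ) {k : ℕ} {z : V n} (hz : z ∈ O k) :
    volume (O (k + 1) ∩ ball z (1 / 100 * infDist z (O k)ᶜ)) ≤
      ENNReal.ofReal (C₀ * (σ k / σ (k + 1)) * (4 * infDist z (O k)ᶜ) ^ n) ∧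
    ∀ x ∈ O (k + 1) ∩ ball z (1 / 100 * infDist z (O k)ᶜ), 0 < infDist x (O (k + 1))ᶜ ∧
      infDist x (O (k + 1))ᶜ ≤ η * (1 / 100 * infDist z (O k)ᶜ) := by
  obtain ⟨p, hp, -⟩ := far hn h k
  have hd : 0 < infDist z (O k)ᶜ := (dpos hn h k).ge hz
  set d := infDist z (O k)ᶜ with hdd
  obtain ⟨x₀, hx₀, h0⟩ := (infDist_lt_iff ⟨p, hp⟩).1 (show d < 2 * d by linarith)
  have hv := h.den k x₀ hx₀ (4 * d) (by positivity)
  refine ⟨le_trans (measure_mono (Set.inter_subset_inter_right _ (ball_subset_ball' ?_))) hv,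
    fun x hx => ?_⟩
  · linarith
  have h1 : 0 < infDist x (O (k + 1))ᶜ := (dpos hn h (k + 1)).ge hx.1
  refine ⟨h1, ?_⟩
  have h2 : infDist x (O (k + 1))ᶜ ≤ d + dist x z :=
    (infDist_le_infDist_of_subset (Set.compl_subset_compl.2 (h.anti k.le_succ)) ⟨p, hp⟩).trans
      infDist_le_infDist_add_dist
  have h3 := mem_ball.1 hx.2
  have h4 : ball x (infDist x (O (k + 1))ᶜ) ⊆ O (k + 1) ∩ ball x₀ (4 * d) :=
    Set.subset_inter ball_infDist_compl_subset
      (ball_subset_ball' (by linarith [dist_triangle x z x₀]))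
  have h5 := (measure_mono h4).trans hv
  have s0 := h.pos k
  have s1 := h.pos (k + 1)
  have hb := vb_pos (n := n)
  rw [vol_ball x h1, ENNReal.ofReal_le_ofReal_iff (by positivity)] at h5
  rw [div_le_iff₀ (by positivity)] at hΛ
  have h6 : Λ * (σ k / σ (k + 1)) ≤ 1 := by
    rw [← mul_div_assoc, div_le_one s1]; exact h.low k
  refine le_of_pow_le_pow_left₀ (n := n) (by omega) (by positivity)
    (le_of_mul_le_mul_left (h5.trans ?_) hb)
  calc C₀ * (σ k / σ (k + 1)) * (4 * d) ^ n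
      = C₀ * 400 ^ n * (σ k / σ (k + 1) * (1 / 100 * d) ^ n) := by
        rw [show 4 * d = 400 * (1 / 100 * d) by ring, mul_pow]; ring
    _ ≤ Λ * (vb n * η ^ n) * (σ k / σ (k + 1) * (1 / 100 * d) ^ n) := by gcongr
    _ = Λ * (σ k / σ (k + 1)) * (vb n * (η * (1 / 100 * d)) ^ n) := by rw [mul_pow η]; ring
    _ ≤ 1 * (vb n * (η * (1 / 100 * d)) ^ n) := by gcongr
    _ = _ := one_mul _

end Rloc2x

open Rloc2x in
theorem loc2 (h : Bas1 n) (h1 : LOC1 n) : LOC2 n := by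
  intro C₀ C₁ Cβ η hC₀ hC₁ hCβ hη
  obtain ⟨Cl, hCl, hlow⟩ := h.wf.low (1 / 100) (by norm_num) (by norm_num)
  obtain ⟨Cu, hCu, hup⟩ := h.wf.up (1 / 4) (by norm_num) (by norm_num)
  obtain ⟨Cc, hCc, hcen⟩ := h.wf.center
  obtain ⟨Cd, hCd, hdav⟩ := h.jn.dav Cβ hCβ
  obtain ⟨Cp, b₀, hCp, hb₀, hpsi⟩ := h.jn.psi Cβ (Cc * Cd) hCβ (by positivity)
  obtain ⟨C, hC, hloc⟩ := h1 C₁ hC₁
  obtain ⟨K₁, hK₁⟩ : ∃ K₁, K₁ = C * (C₀ * 400 ^ n) * 7 ^ n := ⟨_, rfl⟩
  have hK0 : 0 < K₁ := by rw [hK₁]; positivity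
  obtain ⟨ε, ε0, ε1, ε2⟩ : ∃ ε : ℝ, 0 < ε ∧ ε ≤ 1 ∧
      Cl * (K₁ * ε ^ 2 * (2 * C₁ ^ 2 * (2 ^ n * Cc))) ≤ η := by
    have hp : 0 < Cl * (K₁ * (2 * C₁ ^ 2 * (2 ^ n * Cc))) := by positivity
    refine ⟨min 1 (η / (Cl * (K₁ * (2 * C₁ ^ 2 * (2 ^ n * Cc))))),
      lt_min one_pos (by positivity), min_le_left _ _, ?_⟩
    set ε := min 1 (η / (Cl * (K₁ * (2 * C₁ ^ 2 * (2 ^ n * Cc))))) with hε
    have a : ε * (Cl * (K₁ * (2 * C₁ ^ 2 * (2 ^ n * Cc)))) ≤ η :=
      (le_div_iff₀ hp).1 (min_le_right _ _)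
    have b : ε ≤ 1 := min_le_left _ _
    have c : 0 < ε := lt_min one_pos (by positivity)
    nlinarith [mul_pos c hp]
  refine ⟨C₀ * 400 ^ n / (vb n * ε ^ n), fun Λ hΛ => ?_⟩
  obtain ⟨M, hM⟩ : ∃ M, M = 2 * K₁ + 4 * Λ ^ 2 * (C * 4 ^ n * 7 ^ n) := ⟨_, rfl⟩
  have hM0 : 0 < M := by rw [hM]; positivity
  refine ⟨Cl * M * C₁ * (Cp * Cc + Cc + Cu), b₀, by positivity, hb₀, ?_⟩
  intro E _ g O σ s ζ b k hg hN hb hbb hBM hζ hζ0 hL
  have s0 := hN.pos k
  have s1 := hN.pos (k + 1)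
  have hw : Measurable fun y => wt (s y / σ k) :=
    continuous_wt.measurable.comp (hN.ms.div_const _)
  have md : ∀ j, Measurable fun z : V n => infDist z (O j)ᶜ :=
    fun j => (continuous_infDist_pt _).measurable
  set F : V n → ℝ≥0∞ := (O (k + 1)).indicator fun x => dav g x (infDist x (O (k + 1))ᶜ / 2)
    with hF
  have mO : ∀ j, MeasurableSet (O j) := fun j => (hN.opn j).measurableSet
  have key : ∀ z ∈ O k, ENNReal.ofReal (σ (k + 1)) * al F z (1 / 100 * infDist z (O k)ᶜ) ≤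
      ENNReal.ofReal (σ k) * lin (dav g z (infDist z (O k)ᶜ / 2))
        (wav (fun y => wt (s y / σ k)) g z (infDist z (O k)ᶜ / 4))
        (al (fun y => ENNReal.ofReal (ζ y)) z (1 / 4 * infDist z (O k)ᶜ))
        (K₁ * ε ^ 2 * (2 * C₁ ^ 2 * (2 ^ n * Cc)) + M * (C₁ * b ^ 2 * (Cp * Cc)))
        (M * (C₁ * b ^ 2 * Cc)) (M * C₁) := by
    intro z hz
    obtain ⟨t1, t2⟩ := thin h.hn hN hC₀ ε0 hΛ hz
    have hd : 0 < infDist z (O k)ᶜ := (dpos h.hn hN k).ge hz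
    have hz3 : ‖z‖ < 3 := mem_ball_zero_iff.1 (hN.sub (hN.anti k.zero_le hz))
    have hd6 : infDist z (O k)ᶜ ≤ 6 := by
      obtain ⟨p, hp, e⟩ := far h.hn hN k
      have := infDist_le_dist_of_mem (x := z) hp
      linarith [dist_le_norm_add_norm z p]
    have hin : ball z (infDist z (O k)ᶜ) ⊆ O k := ball_infDist_compl_subset
    rw [show 1 / 4 * infDist z (O k)ᶜ = infDist z (O k)ᶜ / 4 by ring]
    generalize infDist z (O k)ᶜ = d at t1 t2 hd hd6 hin ⊢
    obtain ⟨y₀, c1, c2⟩ := hcen E g _ z (d / 4) hg hw (by positivity)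
    obtain ⟨Ξ, e, hΞ, he, hy⟩ := hL y₀
    have i4 : ball z (d / 4) ⊆ O k := (ball_subset_ball (by linarith)).trans hin
    have i5 : ball z (4 * (1 / 100 * d)) ⊆ ball z (d / 4) := ball_subset_ball (by linarith)
    have c3 := hpsi E g b (d / 4) z (g y₀) hg hb hbb hBM (by positivity) (by linarith)
      (c1.trans ((mul_le_mul_right (hdav E g b (2 * (d / 4)) z hg hb hBM (by positivity)
        (by linarith)) _).trans_eq (by rw [← ENNReal.ofReal_mul hCc.le, mul_assoc])))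
    have c4 := al_sub (fun y => ‖g y - g y₀‖ₑ ^ 2) (z := z) (z' := z) (r := 2 * (d / 4))
      (r' := d / 4) (c := 2) (by positivity) (ball_subset_ball (by linarith)) le_rfl
    rw [show 2 * (d / 4) = d / 2 by ring] at c1 c3 c4
    set A := dav g z (d / 2)
    set B := wav (fun y => wt (s y / σ k)) g z (d / 4)
    set Z := al (fun y => ENNReal.ofReal (ζ y)) z (d / 4)
    have e1 : al (fun y => ENNReal.ofReal (e y ^ 2)) z (d / 4) ≤
        lin A B Z (C₁ * b ^ 2 * (Cp * Cc)) (C₁ * b ^ 2 * Cc) C₁ := by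
      refine (err hg hw (fun _ => wt_nonneg _) hζ0 hC₁.le
        fun y hy' => (hy y (i4 hy')).2.2.2.2).trans ?_
      rw [lin, lin, ENNReal.ofReal_mul (p := C₁ * b ^ 2) (q := Cp * Cc) (by positivity),
        ENNReal.ofReal_mul (p := C₁ * b ^ 2) (q := Cc) (by positivity),
        ENNReal.ofReal_mul hCp.le, mul_assoc, mul_assoc, mul_assoc]
      gcongr
      exact c3.trans (mul_le_mul_right c1 _)
    have e2 : al (fun y => ‖Ξ y‖ₑ ^ 2) z (d / 4) ≤
        lin A B Z (2 * C₁ ^ 2 * (2 ^ n * Cc) + 2 * (C₁ * b ^ 2 * (Cp * Cc)))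
          (0 + 2 * (C₁ * b ^ 2 * Cc)) (0 + 2 * C₁) := by
      refine (fld hg fun y hy' => (hy y (i4 hy')).2.2.1).trans ?_
      rw [← lin_add (by positivity) le_rfl le_rfl (by positivity) (by positivity) (by positivity),
        ← lin_mul zero_le_two]
      refine add_le_add ?_ (mul_le_mul_right e1 _)
      rw [lin, ENNReal.ofReal_zero, zero_mul, zero_mul, add_zero, add_zero,
        ENNReal.ofReal_mul (q := 2 ^ n * Cc) (by positivity),
        ENNReal.ofReal_mul (p := 2 ^ n) (q := Cc) (by positivity), mul_assoc, mul_assoc]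
      exact mul_le_mul_right (c4.trans (mul_le_mul_right c1 _)) _
    have sb : ∀ G : V n → ℝ≥0∞, al G z (4 * (1 / 100 * d)) ≤
        ENNReal.ofReal (7 ^ n) * al G z (d / 4) :=
      fun G => al_sub G (by positivity) i5 (by linarith)
    have l1 := hloc E g Ξ e (fun x => infDist x (O (k + 1))ᶜ) z (1 / 100 * d) ε _ hg hΞ he
      (by positivity) ε1 ((mO _).inter measurableSet_ball) Set.inter_subset_right
      (lipschitz_infDist_pt _) t2 fun y hy' =>
        ⟨(hy y (i4 (i5 hy'))).1, (hy y (i4 (i5 hy'))).2.1,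
          fun y' hy'' => (hy y (i4 (i5 hy'))).2.2.2.1 y' (i4 (i5 hy''))⟩
    rw [lint_eq _ z (r := 4 * (1 / 100 * d)) (by positivity)] at l1
    have l2 : al F z (1 / 100 * d) ≤
        ENNReal.ofReal (σ k / σ (k + 1) * (K₁ * ε ^ 2)) * al (fun y => ‖Ξ y‖ₑ ^ 2) z (d / 4) +
        ENNReal.ofReal (C * 4 ^ n * 7 ^ n) *
          al (fun y => ENNReal.ofReal (e y ^ 2)) z (d / 4) := by
      refine al_le_of_lint (by positivity) ?_
      rw [hF, setLIntegral_indicator (mO _)]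
      refine l1.trans ((mul_le_mul_right (add_le_add (mul_le_mul' (mul_le_mul_right t1 _) (sb _))
        (mul_le_mul_right (sb _) _)) _).trans_eq ?_)
      simp only [mul_add, ← mul_assoc]
      congr 2
      · repeat rw [← ENNReal.ofReal_mul (by positivity)]
        congr 1
        rw [hK₁, show 4 * d = 400 * (1 / 100 * d) by ring, mul_pow]; ring
      · repeat rw [← ENNReal.ofReal_mul (by positivity)]
        congr 1
        rw [mul_assoc 4, mul_pow]; ring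
    refine (mul_le_mul_right (l2.trans (add_le_add (mul_le_mul_right e2 _)
      (mul_le_mul_right e1 _))) _).trans ?_
    rw [lin_mul (by positivity), lin_mul (by positivity),
      lin_add (by positivity) (by positivity) (by positivity) (by positivity) (by positivity)
        (by positivity), lin_mul s1.le, lin_mul s0.le]
    have q1 : σ (k + 1) * (σ k / σ (k + 1)) = σ k := by field_simp
    have q2 : 2 * (σ k * (K₁ * ε ^ 2)) + σ (k + 1) * (C * 4 ^ n * 7 ^ n) ≤ σ k * M := by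
      have a : K₁ * ε ^ 2 ≤ K₁ := mul_le_of_le_one_right hK0.le (pow_le_one₀ ε0.le ε1)
      have b := mul_le_mul_of_nonneg_right (hN.up k) (by positivity : 0 ≤ C * 4 ^ n * 7 ^ n)
      rw [hM]; nlinarith
    have q3 : ∀ x y : ℝ, 0 ≤ y → σ (k + 1) * (σ k / σ (k + 1) * (K₁ * ε ^ 2) * (x + 2 * y) +
        C * 4 ^ n * 7 ^ n * y) ≤ σ k * (K₁ * ε ^ 2 * x + M * y) := fun x y hy => by
      have := mul_le_mul_of_nonneg_right q2 hy
      rw [mul_add, ← mul_assoc, ← mul_assoc, q1]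
      linarith
    exact lin_mono (q3 _ _ (by positivity)) ((q3 _ _ (by positivity)).trans_eq (by ring))
      ((q3 _ _ hC₁.le).trans_eq (by ring))
  have mF : Measurable F := (dav_meas hg ((md _).div_const 2)).indicator (mO _)
  have a1 := hlow _ F (lipschitz_infDist_pt (O k)ᶜ) mF
  have a2 := hup _ _ (lipschitz_infDist_pt (O k)ᶜ) hζ.ennreal_ofReal
  rw [dpos h.hn hN k] at a1 a2
  rw [hF, setLIntegral_indicator (mO _), Set.inter_eq_left.2 (hN.anti k.le_succ), ← hF] at a1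
  have mA := dav_meas hg ((md k).div_const 2)
  have mB := wav_meas hg hw ((md k).div_const 4)
  have a3 := setLIntegral_mono' (μ := volume) (mO k) key
  simp only [lin] at a3
  rw [lintegral_const_mul' _ _ ENNReal.ofReal_ne_top, lintegral_const_mul' _ _
    ENNReal.ofReal_ne_top, lintegral_add_left ((mA.const_mul _).fun_add (mB.const_mul _)),
    lintegral_add_left (mA.const_mul _), lintegral_const_mul' _ _ ENNReal.ofReal_ne_top,
    lintegral_const_mul' _ _ ENNReal.ofReal_ne_top,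
    lintegral_const_mul' _ _ ENNReal.ofReal_ne_top] at a3
  have a4 := (mul_le_mul_right a1 (ENNReal.ofReal (σ (k + 1)))).trans
    ((mul_left_comm _ _ _).trans_le (mul_le_mul_right (a3.trans (mul_le_mul_right
      (add_le_add_right (mul_le_mul_right a2 _) _) _)) _))
  refine a4.trans ?_
  rw [NN, TT]
  generalize (∫⁻ z in O k, dav g z (infDist z (O k)ᶜ / 2)) = A
  generalize (∫⁻ z in O k, wav (fun y => wt (s y / σ k)) g z (infDist z (O k)ᶜ / 4)) = B
  generalize (∫⁻ y in O k, ENNReal.ofReal (ζ y)) = Z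
  have p1 : 0 ≤ Cl * M * C₁ := by positivity
  have p2 : 0 ≤ Cl * M * C₁ * b ^ 2 := by positivity
  have p3 : 0 ≤ Cp * Cc := by positivity
  refine le_trans (le_of_eq ?_) ((lin_mono (A := ENNReal.ofReal (σ k) * A)
    (B := ENNReal.ofReal (σ k) * B) (Z := ENNReal.ofReal (σ k) * Z)
    (a := Cl * (K₁ * ε ^ 2 * (2 * C₁ ^ 2 * (2 ^ n * Cc)) + M * (C₁ * b ^ 2 * (Cp * Cc))))
    (b := Cl * (M * (C₁ * b ^ 2 * Cc))) (c := Cl * (M * C₁ * Cu))
    (a' := η + Cl * M * C₁ * (Cp * Cc + Cc + Cu) * b ^ 2)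
    (b' := Cl * M * C₁ * (Cp * Cc + Cc + Cu) * b ^ 2)
    (c' := Cl * M * C₁ * (Cp * Cc + Cc + Cu)) ?_ ?_ ?_).trans_eq ?_)
  · rw [← lin_mul hCl.le, lin, ENNReal.ofReal_mul (p := M * C₁) (by positivity)]; ring
  · nlinarith [mul_nonneg p2 hCc.le, mul_nonneg p2 hCu.le]
  · nlinarith [mul_nonneg p2 p3, mul_nonneg p2 hCu.le]
  · nlinarith [mul_nonneg p1 p3, mul_nonneg p1 hCc.le]
  · rw [lin, ENNReal.ofReal_add hη.le (by positivity)]; ring

end Pool.Agent.MP_29b5d3_an.EX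

end MrgPart0

-- ======== part 1: formerly Pool.Agent.MP_29b5d3_an.EX.Rerr1
section MrgPart1

/-! Project EXQ: the oscillation errors of a gauge are bounded by the total oscillation. -/

set_option autoImplicit false

namespace Pool.Agent.MP_29b5d3_an.EX

open MeasureTheory Metric Filter Topology Module Pool.Agent.MP_29b5d3_an.NC
open scoped RealInnerProductSpace ContDiff ENNReal

variable {n : ℕ}

namespace Rerr1x

noncomputable def cE (M : ℝ) : ℝ := Real.exp (4 * (1 + M)) * (9 + 9 * M ^ 2)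

theorem cE_pos (M : ℝ) : 0 < cE M := by unfold cE; positivity

theorem od_le {b w s t o p P M : ℝ} (hb : 0 < b) (hb1 : b ≤ 1) (hw : 0 ≤ w) (hs : 0 ≤ s)
    (ht0 : 0 ≤ t) (ht : t ≤ s + p) (hp : p ^ 2 ≤ P) (ho : o ^ 2 ≤ P) (hM : 0 ≤ M)
    (hP : P ≤ M * b ^ 2) :
    od b w t o ≤ 2 * (w * s ^ 2) + 3 * P * w + cE M * (2 + 3 * M) * Psi b s +
      6 * Real.exp 4 * cE M * P := by
  have P0 : 0 ≤ P := (sq_nonneg p).trans hp
  have hb2 : b ^ 2 ≤ 1 := pow_le_one₀ hb.le hb1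
  have PM : P ≤ M := hP.trans (mul_le_of_le_one_right hM hb2)
  have t2 : t ^ 2 ≤ 2 * s ^ 2 + 2 * P := by
    nlinarith [sq_nonneg (s - p), pow_le_pow_left₀ ht0 ht 2]
  have t4 : t ^ 4 ≤ 8 * s ^ 4 + 8 * P ^ 2 := by
    have := pow_le_pow_left₀ (sq_nonneg t) t2 2
    nlinarith [sq_nonneg (s ^ 2 - P)]
  have o4 : o ^ 4 ≤ P ^ 2 := by
    have := pow_le_pow_left₀ (sq_nonneg o) ho 2
    rwa [← pow_mul] at this
  have P2 : P ^ 2 ≤ M ^ 2 * b ^ 4 := by
    have := pow_le_pow_left₀ P0 hP 2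
    rwa [mul_pow, ← pow_mul] at this
  have b4 : 0 < b ^ 4 := by positivity
  have q : (t ^ 4 + o ^ 4) / b ^ 4 ≤ 8 * (s ^ 4 / b ^ 4) + 9 * M ^ 2 := by
    have e : (8 * (s ^ 4 / b ^ 4) + 9 * M ^ 2) * b ^ 4 = 8 * s ^ 4 + 9 * (M ^ 2 * b ^ 4) := by
      field_simp
    rw [div_le_iff₀ b4, e]
    linarith
  have hPsi : Psi b s = s ^ 2 * (Real.exp (4 * s) * (1 + s ^ 4 / b ^ 4)) := by
    rw [Psi, mul_assoc]
  have u1 : s ≤ b → s ^ 4 / b ^ 4 ≤ 1 := fun h =>
    (div_le_one b4).2 (pow_le_pow_left₀ hs h 4)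
  have u0 : 0 ≤ s ^ 4 / b ^ 4 := by positivity
  have Ps0 := Psi_nonneg b s
  generalize s ^ 4 / b ^ 4 = u at q hPsi u1 u0
  have e : Real.exp (4 * t) ≤ Real.exp (4 * (1 + M)) * Real.exp (4 * s) := by
    rw [← Real.exp_add]
    exact Real.exp_le_exp.2 (by nlinarith [sq_nonneg (p - 1)])
  have f : Real.exp (4 * t) * (1 + (t ^ 4 + o ^ 4) / b ^ 4) ≤
      cE M * (Real.exp (4 * s) * (1 + u)) :=
    (mul_le_mul e (show _ ≤ (9 + 9 * M ^ 2) * (1 + u) by nlinarith [mul_nonneg (sq_nonneg M) u0])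
      (by positivity) (by positivity)).trans_eq (by unfold cE; ring)
  have F0 : 0 ≤ Real.exp (4 * s) * (1 + u) := by positivity
  have F1 : s ≤ b → Real.exp (4 * s) * (1 + u) ≤ Real.exp 4 * 2 := fun h =>
    mul_le_mul (Real.exp_le_exp.2 (by linarith)) (by linarith [u1 h]) (by positivity)
      (Real.exp_pos 4).le
  generalize Real.exp (4 * s) * (1 + u) = F at f hPsi F0 F1
  have g : P * F ≤ 2 * Real.exp 4 * P + M * Psi b s := by
    rcases le_total s b with h | h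
    · have := mul_le_mul_of_nonneg_left (F1 h) P0
      nlinarith [mul_nonneg hM Ps0]
    · have k : P ≤ M * s ^ 2 :=
        hP.trans (mul_le_mul_of_nonneg_left (pow_le_pow_left₀ hb.le h 2) hM)
      have := mul_le_mul_of_nonneg_right k F0
      have k2 : 0 ≤ 2 * Real.exp 4 * P := by positivity
      rw [hPsi]
      linarith
  have c0 := cE_pos M
  calc od b w t o ≤ (2 * s ^ 2 + 3 * P) * (w + cE M * F) :=
        mul_le_mul (by linarith) (by linarith) (by positivity) (by positivity)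
    _ = 2 * (w * s ^ 2) + 3 * P * w + cE M * 2 * Psi b s + 3 * cE M * (P * F) := by
        rw [hPsi]; ring
    _ ≤ 2 * (w * s ^ 2) + 3 * P * w + cE M * 2 * Psi b s +
        3 * cE M * (2 * Real.exp 4 * P + M * Psi b s) := by gcongr
    _ = _ := by ring

theorem enorm_sq {E : Type} [NormedAddCommGroup E] (a : E) :
    ‖a‖ₑ ^ 2 = ENNReal.ofReal (‖a‖ ^ 2) := by
  rw [← ofReal_norm, ENNReal.ofReal_pow (norm_nonneg _)]

theorem of4 {a b c d e : ℝ} (ha : 0 ≤ a) (hb : 0 ≤ b) (hc : 0 ≤ c) (hd : 0 ≤ d)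
    (h : e ≤ a + b + c + d) : ENNReal.ofReal e ≤
      ENNReal.ofReal a + ENNReal.ofReal b + ENNReal.ofReal c + ENNReal.ofReal d := by
  rw [← ENNReal.ofReal_add ha hb, ← ENNReal.ofReal_add (by positivity) hc,
    ← ENNReal.ofReal_add (by positivity) hd]
  exact ENNReal.ofReal_le_ofReal h

theorem geo {D : V n → ℝ} (hD : Scale D) {z x : V n} (hx : x ∈ ball z (1 / 100 * D z)) :
    ball x (D x / 10) ⊆ ball z (D z / 2) ∧ D z / 2 ≤ 6 * (D x / 10) := by
  have h1 := hD.lip.dist_le_mul x z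
  rw [NNReal.coe_one, one_mul, Real.dist_eq, abs_le] at h1
  have h2 := mem_ball.1 hx
  have h3 := hD.pos z
  exact ⟨ball_subset_ball' (by linarith [h1.2]), by linarith [h1.1]⟩

/-- the local estimate -/
theorem loc (h : Bas1 n) {Cβ Cg C₂ : ℝ} (hβ : 0 < Cβ) (hg0 : 0 < Cg) (h2 : 0 < C₂) :
    ∃ C b₀ : ℝ, 0 < C ∧ 0 < b₀ ∧
    ∀ (g : V n → ℝ × Mt n) (b : ℝ) (D c o w : V n → ℝ) (Q : V n → Mt n) (U : Set (V n)),
    StronglyMeasurable g → 0 < b → b ≤ b₀ → BM (al0 n) (Cβ * b) g → Scale D → Gau g D Cg c Q o →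
    Measurable w → (∀ x, 0 ≤ w x) →
    (∀ z, al (fun y => ENNReal.ofReal (w y)) z (D z / 4) ≤ ENNReal.ofReal C₂) →
    U ⊆ ball 0 3 → ∀ z ∈ ball (0 : V n) 4,
    al (U.indicator fun x => ENNReal.ofReal (od b (w x) ‖g x - (c x, Q x)‖ (o x))) z
      (1 / 100 * D z) ≤ ENNReal.ofReal C * (dav g z (D z / 2) + wav w g z (D z / 4)) := by
  obtain ⟨Cc, Cc0, hc⟩ := h.wf.center
  obtain ⟨Cd, Cd0, hd⟩ := h.jn.dav Cβ hβ
  obtain ⟨Cp, b₀, Cp0, b0, hp⟩ := h.jn.psi Cβ (Cc * Cd) hβ (by positivity)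
  obtain ⟨K, hK⟩ : ∃ K : ℝ, K = Cg * 6 ^ n * (6 ^ n + Cc) := ⟨_, rfl⟩
  have K0 : 0 < K := by rw [hK]; positivity
  have c0 := cE_pos (K * Cd)
  obtain ⟨A, hA⟩ : ∃ A : ℝ, A = cE (K * Cd) * (2 + 3 * (K * Cd)) := ⟨_, rfl⟩
  obtain ⟨B, hB⟩ : ∃ B : ℝ, B = 6 * Real.exp 4 * cE (K * Cd) := ⟨_, rfl⟩
  have A0 : 0 < A := by rw [hA]; positivity
  have B0 : 0 < B := by rw [hB]; positivity
  have v0 : 0 < vb n := vb_pos
  refine ⟨25 ^ n * (2 * Cc + (3 * K * C₂ + A * (Cp * Cc) + B * K * vb n)), min b₀ 1,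
    by positivity, lt_min b0 one_pos, ?_⟩
  intro g b D c o w Q U hg hb hbb hBM hD hG hw w0 hw2 hU z hz
  have d0 := hD.pos z
  have d4 := hD.up z
  have z4 : ‖z‖ < 4 := mem_ball_zero_iff.1 hz
  have hΔ := hd _ g b (D z / 2) z hg hb hBM (by positivity) (by linarith)
  obtain ⟨δ, δ0, hδ⟩ : ∃ δ : ℝ, 0 ≤ δ ∧ dav g z (D z / 2) = ENNReal.ofReal δ :=
    ⟨_, ENNReal.toReal_nonneg,
      (ENNReal.ofReal_toReal (ne_top_of_le_ne_top ENNReal.ofReal_ne_top hΔ)).symm⟩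
  rw [hδ, ENNReal.ofReal_le_ofReal_iff (by positivity)] at hΔ
  obtain ⟨y₀, a1, a2⟩ := hc _ g w z (D z / 4) hg hw (by positivity)
  have e2 : 2 * (D z / 4) = D z / 2 := by ring
  have a3 := hp _ g b (D z / 4) z (g y₀) hg hb (hbb.trans (min_le_left _ _)) hBM (by positivity)
    (by linarith)
  rw [e2] at a1 a3
  rw [hδ, ← ENNReal.ofReal_mul Cc0.le] at a1
  replace a3 := (a3 (a1.trans (ENNReal.ofReal_le_ofReal (by rw [mul_assoc]; gcongr)))).trans
    (mul_le_mul_right a1 _)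
  rw [← ENNReal.ofReal_mul Cp0.le] at a3
  have pw : ∀ x ∈ ball z (1 / 100 * D z),
      U.indicator (fun x => ENNReal.ofReal (od b (w x) ‖g x - (c x, Q x)‖ (o x))) x ≤
      2 * (ENNReal.ofReal (w x) * ‖g x - g y₀‖ₑ ^ 2) +
        ENNReal.ofReal (3 * (K * δ)) * ENNReal.ofReal (w x) +
        ENNReal.ofReal A * ENNReal.ofReal (Psi b ‖g x - g y₀‖) +
        ENNReal.ofReal (B * (K * δ)) := by
    intro x hx
    by_cases hxU : x ∈ U
    swap
    · rw [Set.indicator_of_notMem hxU]; exact zero_le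
    rw [Set.indicator_of_mem hxU]
    have x4 : x ∈ ball (0 : V n) 4 := ball_subset_ball (by norm_num) (hU hxU)
    obtain ⟨s1, s2⟩ := geo hD hx
    have r0 : 0 < D x / 10 := div_pos (hD.pos x) (by norm_num)
    have k1 := (hG.ole x x4).trans (mul_le_mul_right (dav_sub g r0 s1 s2) _)
    rw [hδ, ← ENNReal.ofReal_mul (by positivity), ← ENNReal.ofReal_mul (by positivity),
      ← ENNReal.ofReal_mul hg0.le, ENNReal.ofReal_le_ofReal_iff (by positivity)] at k1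
    have k2 := (hG.near x x4 (g y₀)).trans
      (mul_le_mul_right ((al_sub _ r0 s1 s2).trans (mul_le_mul_right a1 _)) _)
    rw [enorm_sq, ← ENNReal.ofReal_mul (by positivity), ← ENNReal.ofReal_mul hg0.le,
      ENNReal.ofReal_le_ofReal_iff (by positivity)] at k2
    have p1 : 0 ≤ Cg * (6 ^ n * 6 ^ n * δ) := by positivity
    have p2 : 0 ≤ Cg * (6 ^ n * (Cc * δ)) := by positivity
    have p3 : K * δ = Cg * (6 ^ n * 6 ^ n * δ) + Cg * (6 ^ n * (Cc * δ)) := by rw [hK]; ring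
    have tri : ‖g x - (c x, Q x)‖ ≤ ‖g x - g y₀‖ + ‖(c x, Q x) - g y₀‖ := by
      have := norm_sub_le (g x - g y₀) ((c x, Q x) - g y₀)
      rwa [sub_sub_sub_cancel_right] at this
    have k := od_le (P := K * δ) (M := K * Cd) (o := o x) hb (hbb.trans (min_le_right _ _)) (w0 x)
      (norm_nonneg _) (norm_nonneg _) tri (by linarith) (by linarith) (by positivity)
      (by rw [mul_assoc]; gcongr)
    rw [← hA, ← hB] at k
    have wx := w0 x
    have px := Psi_nonneg b ‖g x - g y₀‖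
    refine (of4 (by positivity) (by positivity) (by positivity) (by positivity) k).trans_eq ?_
    rw [ENNReal.ofReal_mul zero_le_two, ENNReal.ofReal_mul wx, ENNReal.ofReal_ofNat, enorm_sq,
      ENNReal.ofReal_mul (p := 3 * (K * δ)) (by positivity), ENNReal.ofReal_mul A0.le]
  have m1 : Measurable fun x => ENNReal.ofReal (w x) := hw.ennreal_ofReal
  have m2 : Measurable fun x => ENNReal.ofReal (Psi b ‖g x - g y₀‖) :=
    ((continuous_Psi b).measurable.comp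
      (hg.sub stronglyMeasurable_const).norm.measurable).ennreal_ofReal
  refine (al_mono pw).trans ((al_sub _ (z := z) (r := D z / 4) (c := 25) (by positivity)
    (ball_subset_ball (by linarith)) (by linarith)).trans ?_)
  rw [ENNReal.ofReal_mul (p := 25 ^ n) (by positivity), mul_assoc]
  refine mul_le_mul_right ?_ _
  rw [al_add_right _ measurable_const, al_add_right _ (m2.const_mul _),
    al_add_right _ (m1.const_mul _), al_const_mul ENNReal.ofNat_ne_top,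
    al_const_mul ENNReal.ofReal_ne_top, al_const_mul ENNReal.ofReal_ne_top,
    al_const _ z (by positivity), hδ]
  calc _ ≤ 2 * (ENNReal.ofReal Cc * wav w g z (D z / 4)) +
        ENNReal.ofReal (3 * (K * δ)) * ENNReal.ofReal C₂ +
        ENNReal.ofReal A * ENNReal.ofReal (Cp * (Cc * δ)) +
        ENNReal.ofReal (B * (K * δ)) * ENNReal.ofReal (vb n) := by
        gcongr
        exact hw2 z
    _ = ENNReal.ofReal (2 * Cc) * wav w g z (D z / 4) +
        ENNReal.ofReal (3 * K * C₂ + A * (Cp * Cc) + B * K * vb n) * ENNReal.ofReal δ := by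
        rw [ENNReal.ofReal_mul zero_le_two, ENNReal.ofReal_ofNat, mul_assoc, add_assoc, add_assoc,
          ← ENNReal.ofReal_mul (by positivity), ← ENNReal.ofReal_mul A0.le,
          ← ENNReal.ofReal_mul (by positivity), ← ENNReal.ofReal_mul (by positivity),
          ← ENNReal.ofReal_add (by positivity) (by positivity),
          ← ENNReal.ofReal_add (by positivity) (by positivity)]
        congr 2
        ring
    _ ≤ _ := by
        rw [mul_add, add_comm]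
        refine add_le_add (mul_le_mul_left (ENNReal.ofReal_le_ofReal ?_) _)
          (mul_le_mul_left (ENNReal.ofReal_le_ofReal ?_) _)
        · exact le_add_of_nonneg_left (by positivity)
        · exact le_add_of_nonneg_right (by positivity)

end Rerr1x

theorem err1 (h : Bas1 n) : ERR1 n := by
  intro Cβ Cg C₂ hβ hg0 h2
  obtain ⟨C, b₀, C0, b0, hC⟩ := Rerr1x.loc h hβ hg0 h2
  obtain ⟨Cl, Cl0, hl⟩ := h.wf.low (1 / 100) (by norm_num) (by norm_num)
  refine ⟨Cl * C, b₀, by positivity, b0, ?_⟩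
  intro g b D c o w Q U hg hb hbb hBM hD hG hw w0 hw2 mU hU
  have mt : Measurable fun x => ‖g x - (c x, Q x)‖ :=
    (hg.sub (hG.sc.continuous.prodMk hG.sQ.continuous).stronglyMeasurable).norm.measurable
  have mo := hG.mo
  have mF : Measurable fun x => ENNReal.ofReal (od b (w x) ‖g x - (c x, Q x)‖ (o x)) := by
    refine Measurable.ennreal_ofReal ?_
    unfold od
    exact ((mt.pow_const 2).add (mo.pow_const 2)).mul (hw.add ((mt.const_mul 4).exp.mul
      (measurable_const.add (((mt.pow_const 4).add (mo.pow_const 4)).div_const _))))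
  have k := hl D _ hD.lip (mF.indicator mU)
  have e : {x | 0 < D x} = Set.univ := Set.eq_univ_of_forall hD.pos
  rw [e, Measure.restrict_univ, lintegral_indicator mU] at k
  refine k.trans ?_
  rw [ENNReal.ofReal_mul Cl0.le, mul_assoc]
  refine mul_le_mul_right ?_ _
  rw [OO, ← lintegral_const_mul' _ _ ENNReal.ofReal_ne_top,
    ← lintegral_indicator measurableSet_ball]
  refine lintegral_mono fun z => ?_
  by_cases hz : z ∈ ball (0 : V n) 4
  · rw [Set.indicator_of_mem hz]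
    exact hC g b D c o w Q U hg hb hbb hBM hD hG hw w0 hw2 hU z hz
  · rw [Set.indicator_of_notMem hz]
    refine (al_zero fun x hx => Set.indicator_of_notMem (fun hxU => hz ?_) _).le
    have h1 := mem_ball.1 hx
    have h3 := mem_ball.1 (hU hxU)
    have h4 := hD.up z
    have h5 := dist_triangle_left z 0 x
    exact mem_ball.2 (by linarith)

end Pool.Agent.MP_29b5d3_an.EX

end MrgPart1

-- ======== part 2: formerly Pool.Agent.MP_29b5d3_an.EX.Risum
section MrgPart2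

/-! Project EXQ, row ISUM: the sum of the isotropic terms. -/

set_option autoImplicit false

namespace Pool.Agent.MP_29b5d3_an.EX

open MeasureTheory Metric Filter Topology Module Pool.Agent.MP_29b5d3_an.NC
open scoped RealInnerProductSpace ContDiff ENNReal

variable {n : ℕ}

namespace ISUMx

theorem int_of_lint {μ : Measure (V n)} {f : V n → ℝ} {c : ℝ} (hf : Measurable f)
    (f0 : ∀ x, 0 ≤ f x) (c0 : 0 ≤ c) (h : ∫⁻ x, ENNReal.ofReal (f x) ∂μ ≤ ENNReal.ofReal c) :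
    Integrable f μ ∧ ∫ x, f x ∂μ ≤ c := by
  have hi : Integrable f μ := ⟨hf.aestronglyMeasurable,
    (hasFiniteIntegral_iff_ofReal (Eventually.of_forall f0)).2 (h.trans_lt ENNReal.ofReal_lt_top)⟩
  refine ⟨hi, ?_⟩
  rw [integral_eq_lintegral_of_nonneg_ae (Eventually.of_forall f0) hf.aestronglyMeasurable]
  exact ENNReal.toReal_le_of_le_ofReal c0 h

/-- the majorant -/
noncomputable def A (a : V n → ℝ) : V n → ℝ := (ball (0 : V n) 5).indicator fun x => 1 + a x ^ 2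

theorem A_nonneg (a : V n → ℝ) (x : V n) : 0 ≤ A a x :=
  Set.indicator_nonneg (fun _ _ => by positivity) x

theorem A_in (a : V n → ℝ) {x : V n} (hx : ‖x‖ < 3) : A a x = 1 + a x ^ 2 :=
  Set.indicator_of_mem (mem_ball_zero_iff.2 (by linarith)) _

theorem A_int {a : V n → ℝ} {Ca : ℝ} (ha : Measurable a) (hC : 0 < Ca)
    (h : ∫⁻ x in ball (0 : V n) 5, ‖a x‖ₑ ^ 2 ≤ ENNReal.ofReal Ca) :
    Integrable (A a) volume ∧
      ∫ x, A a x ≤ (volume : Measure (V n)).real (ball (0 : V n) 5) + Ca := by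
  have e : ∀ x, ‖a x‖ₑ ^ 2 = ENNReal.ofReal (a x ^ 2) := fun x => by
    rw [← ofReal_norm, ← ENNReal.ofReal_pow (norm_nonneg _), Real.norm_eq_abs, sq_abs]
  simp only [e] at h
  obtain ⟨i1, i2⟩ := int_of_lint (ha.pow_const 2) (fun x => sq_nonneg _) hC.le h
  have i0 : IntegrableOn (fun _ : V n => (1 : ℝ)) (ball (0 : V n) 5) volume :=
    integrableOn_const measure_ball_lt_top.ne
  refine ⟨(integrable_indicator_iff measurableSet_ball).2 (i0.add i1), ?_⟩
  rw [A, integral_indicator measurableSet_ball, integral_add i0 i1, setIntegral_const, smul_eq_mul,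
    mul_one]
  linarith

theorem dom {a f : V n → ℝ} {K : ℝ} (hA : Integrable (A a) volume) (hf : Measurable f)
    (h1 : ∀ x, ‖x‖ < 3 → |f x| ≤ K * (1 + a x ^ 2)) (h0 : ∀ x, 3 ≤ ‖x‖ → f x = 0) (K0 : 0 ≤ K) :
    Integrable f volume := by
  refine (hA.const_mul K).mono' hf.aestronglyMeasurable (Eventually.of_forall fun x => ?_)
  rcases lt_or_ge ‖x‖ 3 with hx | hx
  · rw [A_in a hx]
    exact h1 x hx
  · rw [h0 x hx, norm_zero]
    exact mul_nonneg K0 (A_nonneg a x)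

theorem trD {L : Lev n} (hL : L.Ok) (i : ℕ) (x : V n) : |tr (L.D i x)| ≤ |n * L.τ i| + 1 := by
  by_cases hx : x ∈ L.O i
  · rw [hL.on i x hx]
    refine (abs_sub _ _).trans ?_
    rw [abs_of_nonneg (hL.θ0 x)]
    linarith [hL.θ1 x]
  · rw [(hL.off i x hx).2.1, tr_zero, abs_zero]
    positivity

theorem muI_bd {L : Lev n} (hL : L.Ok) (b : ℝ) (j j' : ℕ) :
    ∃ K : ℝ, 0 ≤ K ∧ ∀ x, |L.muI b j j' x| ≤ K := by
  refine ⟨|(n : ℝ) - 1| * ∑ M ∈ Finset.Ico j L.N,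
    |L.cc b j j' M| * ((|n * L.τ (M + 1)| + 1) + (|n * L.τ M| + 1)), by positivity, fun x => ?_⟩
  rw [Lev.muI, abs_mul]
  refine mul_le_mul_of_nonneg_left ((Finset.abs_sum_le_sum_abs _ _).trans
    (Finset.sum_le_sum fun M _ => ?_)) (abs_nonneg _)
  rw [abs_mul, Lev.DY, tr_sub]
  exact mul_le_mul_of_nonneg_left ((abs_sub _ _).trans
    (add_le_add (trD hL _ x) (trD hL _ x))) (abs_nonneg _)

theorem abs_le_sq (t : ℝ) : |t| ≤ 1 + t ^ 2 := by
  nlinarith [sq_abs t, sq_nonneg (|t| - 1), abs_nonneg t]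

theorem num (a θ τ v w T l J N' m : ℝ) (θ0 : 0 ≤ θ) (τ0 : 0 < τ) (v1 : 1 ≤ v) (vw : v ^ 4 ≤ w)
    (T0 : 0 ≤ T) (T1 : T ≤ 2 * m) (l0 : 0 ≤ l) (JN : J ≤ N') (J0 : 0 ≤ J) :
    θ * a - N' * l * θ ≤ (a - J * l) * (θ - τ * v * T) + τ * (2 * m * (1 + a ^ 2) + 2 * m * w) := by
  have h1 : J * l * θ ≤ N' * l * θ := by gcongr
  have h2 : 0 ≤ J * l * (τ * v * T) := by positivity
  have v2 : v ^ 2 ≤ w := le_trans (pow_le_pow_right₀ v1 (by norm_num)) vw
  have h3 : a * v ≤ (1 + a ^ 2) + w := by nlinarith [sq_nonneg (a - v)]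
  have w0 : 0 ≤ (1 + a ^ 2) + w := by nlinarith
  have h4 : a * v * T ≤ ((1 + a ^ 2) + w) * (2 * m) :=
    (mul_le_mul_of_nonneg_right h3 T0).trans (mul_le_mul_of_nonneg_left T1 w0)
  have h5 := mul_le_mul_of_nonneg_left h4 τ0.le
  nlinarith

end ISUMx

open ISUMx in
theorem isum (h : Bas3 n) : ISUM n := by
  intro Ca hCa
  obtain ⟨C1, b1, -, hb1, hvw⟩ := h.lv.vw
  obtain ⟨C2, hC2, htot⟩ := h.dns.tot
  have n3 : (3 : ℝ) ≤ n := by exact_mod_cast h.hn
  set B : ℝ := (volume : Measure (V n)).real (ball (0 : V n) 5) + Ca with hB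
  have B0 : 0 < B := add_pos_of_nonneg_of_pos measureReal_nonneg hCa
  refine ⟨4 * n * (2 * n) * (B + C2), min b1 (1 / 2), by positivity, by positivity, ?_⟩
  intro L b a hL b0 hb ha hl
  have bb1 : b ≤ b1 := hb.trans (min_le_left _ _)
  have bh : b ≤ 1 / 2 := hb.trans (min_le_right _ _)
  obtain ⟨iA, hA⟩ := A_int ha hCa hl
  have δ0 := hL.δ0
  have δ1 := hL.δ1
  have τp := hL.τp
  have g1 : 1 ≤ L.g b := by unfold Lev.g; nlinarith
  have g2 : L.g b ≤ 2 := by unfold Lev.g; nlinarith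
  have l0 : 0 ≤ Real.log (L.g b) := Real.log_nonneg g1
  have mJ : Measurable fun x => (L.J x : ℝ) := measurable_from_nat.comp hL.mJ
  have map : Measurable (L.ap b a) := ha.sub (mJ.mul_const _)
  have JN : ∀ x, (L.J x : ℝ) ≤ ((L.N - 1 : ℕ) : ℝ) := fun x => by exact_mod_cast h.lv.Jle L hL x
  have out : ∀ j x, 3 ≤ ‖x‖ → x ∉ L.O j := fun j x hx hj =>
    absurd (mem_ball_zero_iff.1 (hL.supp (h.lv.anti L hL (Nat.zero_le j) hj))) (not_lt.2 hx)
  have mu0 : ∀ j j' x, x ∉ L.O j → L.muI b j j' x = 0 := fun j j' x hx =>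
    (h.lv.offZ L hL b (fun _ => 0) j j' x hx).2.2.2.2.1
  have I1 : ∀ j j', Integrable (fun x => L.ap b a x * L.muI b j j' x) volume := by
    intro j j'
    obtain ⟨K, K0, hK⟩ := muI_bd hL b j j'
    refine dom (K := K * (1 + ((L.N - 1 : ℕ) : ℝ) * Real.log (L.g b))) iA
      (map.mul (h.lv.ms L hL b j j').2.2.2.1) (fun x _ => ?_)
      (fun x hx => by rw [mu0 j j' x (out j x hx), mul_zero]) (by positivity)
    have e1 : |L.ap b a x| ≤ (1 + ((L.N - 1 : ℕ) : ℝ) * Real.log (L.g b)) * (1 + a x ^ 2) := by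
      unfold Lev.ap
      refine (abs_sub _ _).trans ?_
      rw [abs_of_nonneg (a := (L.J x : ℝ) * _) (by positivity)]
      have k1 : (L.J x : ℝ) * Real.log (L.g b) ≤ ((L.N - 1 : ℕ) : ℝ) * Real.log (L.g b) :=
        mul_le_mul_of_nonneg_right (JN x) l0
      have k2 : 0 ≤ ((L.N - 1 : ℕ) : ℝ) * Real.log (L.g b) * a x ^ 2 := by positivity
      nlinarith [abs_le_sq (a x)]
    rw [abs_mul, mul_comm, mul_assoc]
    exact mul_le_mul (hK x) e1 (abs_nonneg _) K0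
  refine ⟨I1, fun ι hι ι0 => ?_⟩
  have iθ : Integrable L.θ volume :=
    dom (K := 1) iA hL.mθ (fun x _ => by
      rw [abs_of_nonneg (hL.θ0 x)]; nlinarith [hL.θ1 x, sq_nonneg (a x)]) hL.θs zero_le_one
  have iθa : Integrable (fun x => L.θ x * a x) volume :=
    dom (K := 1) iA (hL.mθ.mul ha) (fun x _ => by
      rw [abs_mul, abs_of_nonneg (hL.θ0 x)]
      nlinarith [hL.θ1 x, hL.θ0 x, abs_le_sq (a x), abs_nonneg (a x)])
      (fun x hx => by rw [hL.θs x hx, zero_mul]) zero_le_one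
  have mO : MeasurableSet (L.O 0) := (h.lv.opn L hL 0).measurableSet
  obtain ⟨iw, hw⟩ := int_of_lint (μ := volume.restrict (L.O 0)) (h.lv.ms L hL b 0 0).2.2.1
    (fun x => wt_nonneg _) (by have := hL.m0; positivity) (htot L hL)
  have iW : Integrable ((L.O 0).indicator (L.w 0)) volume := (integrable_indicator_iff mO).2 iw
  have hW : ∫ x, (L.O 0).indicator (L.w 0) x ≤ C2 * L.m / L.τ0 := by
    rw [integral_indicator mO]; exact hw
  set κ : ℝ := ((n : ℝ) - 1) / L.bp b with hκ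
  have bp4 : 1 / 4 ≤ L.bp b := by
    unfold Lev.bp
    rw [le_div_iff₀ (by linarith)]
    linarith
  have κ0 : 0 ≤ κ := div_nonneg (by linarith) (by linarith)
  have κ1 : κ ≤ 4 * n := by
    rw [hκ, div_le_iff₀ (by linarith)]
    nlinarith
  set l : ℝ := Real.log (L.g b) with hl'
  set N' : ℝ := ((L.N - 1 : ℕ) : ℝ) with hN'
  have N0 : 0 ≤ N' := Nat.cast_nonneg _
  have pt : ∀ x, κ * (L.θ x * a x - N' * l * L.θ x) ≤
      (∑ k ∈ Finset.range L.N, L.ap b a x * L.muI b (ι k) (ι (k + 1)) x) +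
        κ * (L.τ0 * (2 * n * A a x + 2 * n * (L.O 0).indicator (L.w 0) x)) := by
    intro x
    rw [← Finset.mul_sum]
    by_cases hx : x ∈ L.O 0
    · rw [h.alg2.sumI L hL b ι b0 (by linarith) hι ι0 x hx, Set.indicator_of_mem hx,
        A_in a (mem_ball_zero_iff.1 (hL.supp hx)), ← hκ, mul_left_comm, ← mul_add]
      refine mul_le_mul_of_nonneg_left ?_ κ0
      obtain ⟨v1, vw, -⟩ := hvw L hL b 0 b0 bb1 x hx
      obtain ⟨t1, t2⟩ := h.lv.trH L hL x hx
      have s0 : 0 < L.s x := h.lv.τpos L hL _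
      have eT : tr (1 - L.Ps b x) = n - b * (n - (L.s x)⁻¹ * L.θ x) := by
        rw [Lev.Ps, tr_sub, tr_smul, tr_sub, tr_smul, tr_one, t1]
      have q0 : 0 ≤ (L.s x)⁻¹ * L.θ x := mul_nonneg (inv_nonneg.2 s0.le) (hL.θ0 x)
      have q1 : (L.s x)⁻¹ * L.θ x ≤ 2 * n := by
        rw [inv_mul_le_iff₀ s0]
        refine t2.trans ?_
        have : (1 + L.δ) * L.s x ≤ 2 * L.s x := by gcongr; linarith
        nlinarith
      refine num (a x) (L.θ x) L.τ0 (L.v b 0 x) (L.w 0 x) _ l (L.J x) N' n (hL.θ0 x) τp v1 vw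
        (by rw [eT]; nlinarith) (by rw [eT]; nlinarith) l0 (JN x) (Nat.cast_nonneg _)
    · have e0 : ∑ k ∈ Finset.range L.N, L.muI b (ι k) (ι (k + 1)) x = 0 :=
        Finset.sum_eq_zero fun k _ => mu0 _ _ x fun hk => hx (h.lv.anti L hL (Nat.zero_le _) hk)
      rw [e0, mul_zero, zero_add, Set.indicator_of_notMem hx, mul_zero, add_zero]
      refine mul_le_mul_of_nonneg_left ?_ κ0
      have k0 : 0 ≤ N' * l * L.θ x := mul_nonneg (mul_nonneg N0 l0) (hL.θ0 x)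
      rcases lt_or_ge ‖x‖ 3 with h3 | h3
      · have t := (hL.off 0 x hx).2.2
        rw [Lev.τ, pow_zero, mul_one] at t
        rw [A_in a h3]
        have k1 : L.θ x * a x ≤ L.θ x * (1 + a x ^ 2) :=
          mul_le_mul_of_nonneg_left ((le_abs_self _).trans (abs_le_sq _)) (hL.θ0 x)
        have k2 : L.θ x * (1 + a x ^ 2) ≤ n * L.τ0 * (1 + a x ^ 2) := by gcongr
        have k3 : 0 ≤ n * L.τ0 * (1 + a x ^ 2) := by positivity
        nlinarith
      · rw [hL.θs x h3, zero_mul, mul_zero, sub_zero]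
        have := A_nonneg a x
        positivity
  have iS : Integrable
      (fun x => ∑ k ∈ Finset.range L.N, L.ap b a x * L.muI b (ι k) (ι (k + 1)) x) volume :=
    integrable_finsetSum _ fun k _ => I1 _ _
  have iE : Integrable (fun x => 2 * n * A a x + 2 * n * (L.O 0).indicator (L.w 0) x) volume :=
    (iA.const_mul _).add (iW.const_mul _)
  have iθ' : Integrable (fun x => N' * l * L.θ x) volume := iθ.const_mul _
  have key := integral_mono ((iθa.sub iθ').const_mul κ)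
    (iS.add ((iE.const_mul L.τ0).const_mul κ)) pt
  simp only [Pi.add_apply, Pi.sub_apply] at key
  rw [integral_const_mul, integral_sub iθa iθ', integral_const_mul,
    integral_add iS ((iE.const_mul L.τ0).const_mul κ), integral_const_mul, integral_const_mul,
    integral_add (iA.const_mul _) (iW.const_mul _), integral_const_mul, integral_const_mul,
    integral_finsetSum _ fun k _ => I1 _ _] at key
  have m0 := hL.m0
  have k1 : N' * l * ∫ x, L.θ x ≤ N' * l * L.m :=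
    mul_le_mul_of_nonneg_left hL.mass (mul_nonneg N0 l0)
  have k2 : L.τ0 * (2 * n * (∫ x, A a x) + 2 * n * ∫ x, (L.O 0).indicator (L.w 0) x) ≤
      2 * n * ((B + C2) * (L.τ0 + L.m)) := by
    have e : L.τ0 * (2 * n * B + 2 * n * (C2 * L.m / L.τ0)) = 2 * n * (B * L.τ0 + C2 * L.m) := by
      field_simp
    refine le_trans (by gcongr) (e.le.trans ?_)
    have : B * L.τ0 + C2 * L.m ≤ (B + C2) * (L.τ0 + L.m) := by
      nlinarith [mul_nonneg B0.le m0, mul_nonneg hC2.le τp.le]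
    gcongr
  have k3 : κ * (L.τ0 * (2 * n * (∫ x, A a x) + 2 * n * ∫ x, (L.O 0).indicator (L.w 0) x)) ≤
      4 * n * (2 * n * ((B + C2) * (L.τ0 + L.m))) :=
    (mul_le_mul_of_nonneg_left k2 κ0).trans (mul_le_mul_of_nonneg_right κ1 (by positivity))
  have k4 : κ * ((∫ x, L.θ x * a x) - N' * l * L.m) ≤
      κ * ((∫ x, L.θ x * a x) - N' * l * ∫ x, L.θ x) :=
    mul_le_mul_of_nonneg_left (by linarith) κ0
  linarith

end Pool.Agent.MP_29b5d3_an.EX

end MrgPart2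

-- ======== part 3: formerly Pool.Agent.MP_29b5d3_an.EX.Rsums
section MrgPart3

/-! Project EXQ: the errors of all blocks that are not oscillations are bounded by the slack. -/

set_option autoImplicit false

namespace Pool.Agent.MP_29b5d3_an.EX

open MeasureTheory Metric Filter Topology Module Pool.Agent.MP_29b5d3_an.NC
open scoped RealInnerProductSpace ContDiff ENNReal

variable {n : ℕ}

namespace Rsumsx

open Finset

theorem geo4 {a : ℕ → ℝ} (h0 : ∀ k, 0 ≤ a k) (h1 : ∀ k, 5 * a k ≤ 4 * a (k + 1)) (N : ℕ) :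
    ∑ k ∈ range N, a k ≤ 4 * a N := by
  induction N with
  | zero => simpa using h0 0
  | succ N ih => rw [sum_range_succ]; linarith [h1 N]

theorem geo5 {a : ℕ → ℝ} (h0 : ∀ k, 0 ≤ a k) (h1 : ∀ k, 5 * a k ≤ 4 * a (k + 1)) (p : ℕ → Prop)
    [DecidablePred p] {T : ℝ} (hT : 0 ≤ T) (hp : ∀ k, p k → a k ≤ T) (N : ℕ) :
    (∑ k ∈ range N, if p k then a k else 0) ≤ 5 * T := by
  induction N with
  | zero => simpa using hT
  | succ N ih =>
    rw [sum_range_succ]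
    by_cases h : p N
    · have e : (∑ k ∈ range N, if p k then a k else 0) ≤ ∑ k ∈ range N, a k :=
        sum_le_sum fun k _ => by split_ifs; exacts [le_rfl, h0 k]
      rw [if_pos h]
      linarith [geo4 h0 h1 N, hp N h]
    · rw [if_neg h]; linarith

theorem tele {ι : ℕ → ℕ} (h : Monotone ι) (h0 : ι 0 = 0) (f : ℕ → ℝ) (N : ℕ) :
    ∑ k ∈ range N, ∑ i ∈ Ico (ι k) (ι (k + 1)), f i = ∑ i ∈ range (ι N), f i := by
  induction N with
  | zero => simp [h0]
  | succ N ih => rw [sum_range_succ, ih, sum_range_add_sum_Ico _ (h N.le_succ)]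

theorem wt_div {x : ℝ} (hx : 0 < x) (y : ℝ) : wt (y / x) = wt y / wt x := by
  rw [eq_div_iff (wt_pos hx).ne', mul_comm, ← wt_mul hx.le, mul_div_cancel₀ _ hx.ne']

theorem wt3 : 5 / 4 ≤ wt 3 := by
  refine le_of_pow_le_pow_left₀ (n := 4) (by norm_num) (wt_nonneg _) ?_
  rw [wt_pow4 (by norm_num)]
  norm_num

theorem ofR (s : Finset ℕ) {c : ℕ → ℝ} (hc : ∀ j, 0 ≤ c j) (y : ℕ → Mt n) :
    ENNReal.ofReal (∑ j ∈ s, c j * ‖y j‖ ^ 2) = ∑ j ∈ s, ENNReal.ofReal (c j) * ‖y j‖ₑ ^ 2 := by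
  rw [ENNReal.ofReal_sum_of_nonneg fun j _ => mul_nonneg (hc j) (sq_nonneg _)]
  refine sum_congr rfl fun j _ => ?_
  rw [ENNReal.ofReal_mul (hc j), ENNReal.ofReal_pow (norm_nonneg _), ofReal_norm]

theorem sumk (h : Bas3 n) {L : Lev n} (hL : L.Ok) {ι : ℕ → ℕ} {Λ : ℝ} (hΛ : 3 ≤ Λ)
    (hB : L.Blk ι Λ) (i : ℕ) :
    (∑ k ∈ range L.N, if ι k ≤ i then wt (L.τ (ι k)) else 0) ≤ 5 * wt (L.τ i) := by
  refine geo5 (a := fun k => wt (L.τ (ι k))) (fun k => wt_nonneg _) (fun k => ?_) _ (wt_nonneg _)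
    (fun k hk => wt_mono (h.lv.τmono L hL hk)) _
  have h1 := h.lv.τpos L hL (ι k)
  have h2 : 3 * L.τ (ι k) ≤ L.τ (ι (k + 1)) := le_trans (by nlinarith) (hB.low k)
  have h3 := wt_mono h2
  rw [wt_mul (by norm_num)] at h3
  nlinarith [wt3, wt_nonneg (L.τ (ι k))]

/-- the size of the defect of the model at one level -/
theorem hhb (h : Bas3 n) : ∃ C b₀ : ℝ, 0 < C ∧ 0 < b₀ ∧ ∀ (L : Lev n) (b : ℝ) (j : ℕ), L.Ok →
    0 < b → b ≤ b₀ → ∀ x ∈ L.O j, L.τ j * ‖L.hh b j x‖ ^ 2 ≤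
      2 * b ^ 2 * (1 / L.τ j * ‖L.h j x‖ ^ 2) + C * b ^ 2 * ∑ i ∈ range L.N,
        L.δ / L.τ i * ‖L.h i x‖ ^ 2 / wt (L.τ i) * if j ≤ i then wt (L.τ j) else 0 := by
  obtain ⟨C₁, b₁, -, hb₁, hp⟩ := h.num.pow
  obtain ⟨C, hC, hg⟩ := h.num.geo
  refine ⟨2 * C, min b₁ (1 / 2), by positivity, by positivity, fun L b j hL hb hb0 x hx => ?_⟩
  have b1 : b ≤ b₁ := hb0.trans (min_le_left _ _)
  have b2 : b ≤ 1 / 2 := hb0.trans (min_le_right _ _)
  have δ0 := hL.δ0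
  have τp := h.lv.τpos L hL
  have τj := τp j
  have g1 : 1 ≤ L.g b := by unfold Lev.g; nlinarith [mul_pos δ0 hb]
  have p0 : 0 ≤ L.bp b := div_nonneg (by linarith) (by linarith)
  have p1 : L.bp b ≤ 1 := (div_le_one (by linarith)).2 (by linarith)
  set r : ℕ → ℝ := fun i => L.g b ^ (i - j) / L.τ i * ‖L.h i x‖ with hr
  set W : ℕ → ℝ := fun i => wt ((1 + L.δ) ^ (i - j)) with hW
  have W1 : ∀ i, 1 ≤ W i := fun i => one_le_wt (one_le_pow₀ (by linarith))
  have r0 : ∀ i, 0 ≤ r i := fun i => by have := τp i; positivity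
  set S := ∑ i ∈ Ioc j (L.J x), r i with hS
  have S0 : 0 ≤ S := sum_nonneg fun i _ => r0 i
  have e1 : ‖L.hh b j x‖ ≤ b / L.τ j * ‖L.h j x‖ + b * (L.δ * S) := by
    rw [h.alg1.hh L hL b j hb (by linarith) x hx]
    refine (norm_add_le _ _).trans (add_le_add ?_ ?_)
    · rw [norm_smul, norm_neg, Real.norm_of_nonneg (by positivity)]
    · rw [norm_smul, Real.norm_of_nonneg (by positivity)]
      have : ‖∑ i ∈ Ioc j (L.J x), (L.g b ^ (i - j) / L.τ i) • L.h i x‖ ≤ S :=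
        (norm_sum_le _ _).trans_eq (sum_congr rfl fun i _ => by
          have := τp i
          rw [norm_smul, Real.norm_of_nonneg (by positivity)])
      calc b * L.bp b * L.δ * _ ≤ b * 1 * L.δ * S := by gcongr
        _ = _ := by ring
  have e2 : S ^ 2 ≤ (∑ i ∈ Ioc j (L.J x), (W i)⁻¹) * ∑ i ∈ Ioc j (L.J x), W i * r i ^ 2 :=
    sum_sq_le_sum_mul_sum_of_sq_le_mul _ (fun i _ => by have := W1 i; positivity)
      (fun i _ => by have := W1 i; positivity) fun i _ => by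
        have := W1 i
        rw [inv_mul_cancel_left₀ (by linarith)]
  have e3 : L.δ * ∑ i ∈ Ioc j (L.J x), (W i)⁻¹ ≤ C := by
    refine le_trans (mul_le_mul_of_nonneg_left (sum_le_sum_of_subset_of_nonneg
      (fun i hi => ?_) fun i _ _ => by have := W1 i; positivity) δ0.le)
      (hg L.δ j (L.J x + 1) δ0 hL.δ1).1
    rw [mem_Ioc] at hi
    rw [mem_Ico]
    omega
  set T := ∑ i ∈ range L.N,
    L.δ / L.τ i * ‖L.h i x‖ ^ 2 / wt (L.τ i) * if j ≤ i then wt (L.τ j) else 0 with hT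
  have e4 : L.τ j * (L.δ * ∑ i ∈ Ioc j (L.J x), W i * r i ^ 2) ≤ T := by
    rw [mul_sum, mul_sum]
    refine le_trans (sum_le_sum fun i hi => ?_) (sum_le_sum_of_subset_of_nonneg
      (s := Ioc j (L.J x)) (fun i hi => ?_) fun i _ _ => ?_)
    · have hji := (mem_Ioc.1 hi).1.le
      have a1 := h.lv.τdiv L hL i j hji
      have a2 : W i = wt (L.τ i) / wt (L.τ j) := by rw [← wt_div τj, a1]
      have a3 : (L.g b ^ (i - j)) ^ 4 ≤ W i := (hp L.δ b (i - j) δ0 hL.δ1 hb b1).1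
      have a4 : W i ^ 4 = L.τ i / L.τ j := by rw [a1]; exact wt_pow4 (by positivity)
      have a5 : 1 ≤ L.g b ^ (i - j) := one_le_pow₀ g1
      have a6 : (L.g b ^ (i - j)) ^ 2 ≤ W i ^ 2 :=
        ((pow_le_pow_right₀ a5 (by norm_num)).trans a3).trans (le_self_pow₀ (W1 i) (by norm_num))
      have τi := τp i
      have wi := wt_pos τi
      have wj := wt_pos τj
      have W0 : 0 < W i := by linarith [W1 i]
      have a7 : L.τ j = L.τ i / W i ^ 4 := by rw [a4]; field_simp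
      have a8 : wt (L.τ j) = wt (L.τ i) / W i := by rw [a2]; field_simp
      rw [if_pos hji, a8]
      calc L.τ j * (L.δ * (W i * r i ^ 2))
          = L.δ / L.τ i * ‖L.h i x‖ ^ 2 / W i ^ 3 * (L.g b ^ (i - j)) ^ 2 := by
            rw [a7, hr]; field_simp
        _ ≤ L.δ / L.τ i * ‖L.h i x‖ ^ 2 / W i ^ 3 * W i ^ 2 := by gcongr
        _ = _ := by field_simp
    · have := h.lv.Jle L hL x
      rw [mem_Ioc] at hi
      rw [mem_range]
      omega
    · have := τp i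
      have := wt_nonneg (L.τ i)
      have := wt_nonneg (L.τ j)
      split_ifs <;> positivity
  have e5 : L.τ j * (L.δ * S) ^ 2 ≤ C * T := by
    have q0 : 0 ≤ ∑ i ∈ Ioc j (L.J x), W i * r i ^ 2 :=
      sum_nonneg fun i _ => by have := W1 i; positivity
    calc L.τ j * (L.δ * S) ^ 2 = L.τ j * L.δ ^ 2 * S ^ 2 := by ring
      _ ≤ L.τ j * L.δ ^ 2 * ((∑ i ∈ Ioc j (L.J x), (W i)⁻¹) *
          ∑ i ∈ Ioc j (L.J x), W i * r i ^ 2) := by gcongr
      _ = (L.δ * ∑ i ∈ Ioc j (L.J x), (W i)⁻¹) *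
          (L.τ j * (L.δ * ∑ i ∈ Ioc j (L.J x), W i * r i ^ 2)) := by ring
      _ ≤ C * T := mul_le_mul e3 e4 (by positivity) hC.le
  have e6 : ‖L.hh b j x‖ ^ 2 ≤ 2 * (b / L.τ j * ‖L.h j x‖) ^ 2 + 2 * (b * (L.δ * S)) ^ 2 := by
    have := pow_le_pow_left₀ (norm_nonneg _) e1 2
    nlinarith [sq_nonneg (b / L.τ j * ‖L.h j x‖ - b * (L.δ * S))]
  calc L.τ j * ‖L.hh b j x‖ ^ 2
      ≤ L.τ j * (2 * (b / L.τ j * ‖L.h j x‖) ^ 2 + 2 * (b * (L.δ * S)) ^ 2) := by gcongr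
    _ = 2 * b ^ 2 * (1 / L.τ j * ‖L.h j x‖ ^ 2) + 2 * b ^ 2 * (L.τ j * (L.δ * S) ^ 2) := by
      field_simp
    _ ≤ 2 * b ^ 2 * (1 / L.τ j * ‖L.h j x‖ ^ 2) + 2 * b ^ 2 * (C * T) := by gcongr
    _ = _ := by ring

/-- the pointwise inequality -/
theorem pt (h : Bas3 n) {Λ : ℝ} (hΛ : 3 ≤ Λ) : ∃ C b₀ : ℝ, 0 < C ∧ 0 < b₀ ∧
    ∀ (L : Lev n) (b : ℝ) (P : V n → Mt n) (ι : ℕ → ℕ), L.Ok → 0 < b → b ≤ b₀ →
    (∀ x, Str b (P x)) → L.Blk ι Λ → ∀ x ∈ L.O 0,
    (∑ k ∈ range L.N, if ι k ≤ L.J x then L.rest b P (ι k) (ι (k + 1)) x else 0) ≤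
      C * (L.s x * (e2 (P x) + L.δ * b ^ 2 + ‖P x - L.Ps b x‖ ^ 2) +
        b ^ 2 * ∑ j ∈ range L.N, L.δ / L.τ j * ‖L.h j x‖ ^ 2 +
        b ^ 2 * ∑ k ∈ range L.N, 1 / L.τ (ι k) * ‖L.h (ι k) x‖ ^ 2) := by
  obtain ⟨C, b₁, hC, hb₁, H1⟩ := hhb h
  obtain ⟨C₂, b₂, -, hb₂, H2⟩ := h.lv.vw
  obtain ⟨C₃, -, H3⟩ := h.pw.e2b
  refine ⟨6 + 5 * C + 4 * Λ ^ 2, min b₁ b₂, by positivity, by positivity,
    fun L b P ι hL hb hb0 hP hB x hx => ?_⟩
  have δ0 := hL.δ0
  have τp := h.lv.τpos L hL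
  have s0 : 0 < L.s x := τp _
  have ws := wt_pos s0
  have ee := (H3 b (P x) (hP x)).1
  set A := L.s x * (e2 (P x) + L.δ * b ^ 2 + ‖P x - L.Ps b x‖ ^ 2) with hA
  set f : ℕ → ℝ := fun j => L.δ / L.τ j * ‖L.h j x‖ ^ 2 with hf
  set e : ℕ → ℝ := fun k => 1 / L.τ (ι k) * ‖L.h (ι k) x‖ ^ 2 with he
  have A0 : 0 ≤ A := by positivity
  have f0 : ∀ j, 0 ≤ f j := fun j => by have := τp j; positivity
  have e0 : ∀ k, 0 ≤ e k := fun k => by have := τp (ι k); positivity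
  have hz : ∀ i, L.N ≤ i → L.h i x = 0 := fun i hi =>
    (h.lv.off L hL i x (by rw [h.lv.empty L hL i hi]; exact Set.notMem_empty x)).2.2.2
  have hN : L.N ≤ ι L.N := hB.mono.id_le L.N
  have key : ∀ k, (if ι k ≤ L.J x then L.rest b P (ι k) (ι (k + 1)) x else 0) ≤
      wt (L.s x) ^ 3 * ‖P x - L.Ps b x‖ ^ 2 * (if ι k ≤ L.J x then wt (L.τ (ι k)) else 0) +
      3 * b ^ 2 * e k +
      C * b ^ 2 * (∑ i ∈ range L.N, f i / wt (L.τ i) * if ι k ≤ i then wt (L.τ (ι k)) else 0) +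
      4 * Λ ^ 2 * b ^ 2 * e (k + 1) + 4 * Λ ^ 2 * b ^ 2 * (∑ i ∈ Ico (ι k) (ι (k + 1)), f i) +
      ∑ i ∈ Ico (ι k) (ι (k + 1)), if i = L.J x then A else 0 := by
    intro k
    have σ0 := τp (ι k)
    have σ1 := τp (ι (k + 1))
    have a0 := wt_pos σ0
    by_cases hk : ι k ≤ L.J x
    · have hx' : x ∈ L.O (ι k) := (h.lv.mem L hL _ x).2 ⟨hx, hk⟩
      obtain ⟨v1, v2, -⟩ := H2 L hL b (ι k) hb (hb0.trans (min_le_right _ _)) x hx'
      have t2 := H1 L b (ι k) hL hb (hb0.trans (min_le_left _ _)) x hx'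
      have t1 : L.τ (ι k) * L.v b (ι k) x ^ 2 ≤ wt (L.s x) ^ 3 * wt (L.τ (ι k)) := by
        have a1 : wt (L.τ (ι k)) ≤ wt (L.s x) := wt_mono (h.lv.τmono L hL hk)
        have a2 : L.v b (ι k) x ^ 2 ≤ wt (L.s x) / wt (L.τ (ι k)) :=
          ((pow_le_pow_right₀ v1 (by norm_num)).trans v2).trans_eq (wt_div σ0 _)
        calc L.τ (ι k) * L.v b (ι k) x ^ 2
            ≤ wt (L.τ (ι k)) ^ 4 * (wt (L.s x) / wt (L.τ (ι k))) := by
              rw [wt_pow4 σ0.le]; gcongr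
          _ = wt (L.τ (ι k)) ^ 2 * wt (L.s x) * wt (L.τ (ι k)) := by field_simp
          _ ≤ wt (L.s x) ^ 2 * wt (L.s x) * wt (L.τ (ι k)) := by gcongr
          _ = _ := by ring
      have up : ∀ i, i ≤ ι (k + 1) → 1 / L.τ (ι k) ≤ 4 * Λ ^ 2 * (1 / L.τ i) := fun i hi => by
        rw [mul_one_div, div_le_div_iff₀ σ0 (τp i), one_mul]
        exact (h.lv.τmono L hL hi).trans (hB.up k)
      have t3 : 1 / L.τ (ι k) * ‖L.h (ι (k + 1)) x‖ ^ 2 ≤ 4 * Λ ^ 2 * e (k + 1) := by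
        rw [he, ← mul_assoc]
        exact mul_le_mul_of_nonneg_right (up _ le_rfl) (sq_nonneg _)
      have t4 : 1 / L.τ (ι k) * (L.δ * ∑ i ∈ Ico (ι k) (ι (k + 1)), ‖L.h i x‖ ^ 2) ≤
          4 * Λ ^ 2 * ∑ i ∈ Ico (ι k) (ι (k + 1)), f i := by
        rw [mul_sum, mul_sum, mul_sum]
        refine sum_le_sum fun i hi => ?_
        refine (mul_le_mul_of_nonneg_right (up i (mem_Ico.1 hi).2.le) (by positivity)).trans_eq ?_
        rw [hf]
        ring
      have t5 : (if L.J x < ι (k + 1) then A else 0) =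
          ∑ i ∈ Ico (ι k) (ι (k + 1)), if i = L.J x then A else 0 := by
        rw [sum_ite_eq']
        simp only [mem_Ico, hk, true_and]
      have t6 : b ^ 2 * L.HH (ι k) (ι (k + 1)) x / L.τ (ι k) = b ^ 2 * (e k +
          1 / L.τ (ι k) * ‖L.h (ι (k + 1)) x‖ ^ 2 +
          1 / L.τ (ι k) * (L.δ * ∑ i ∈ Ico (ι k) (ι (k + 1)), ‖L.h i x‖ ^ 2)) := by
        rw [he, Lev.HH]
        ring
      rw [if_pos hk, if_pos hk, Lev.rest, Lev.ze, t6, ← hA, t5]
      have b2 : 0 ≤ b ^ 2 := sq_nonneg b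
      have u1 := mul_le_mul_of_nonneg_right t1 (sq_nonneg ‖P x - L.Ps b x‖)
      have u3 := mul_le_mul_of_nonneg_left t3 b2
      have u4 := mul_le_mul_of_nonneg_left t4 b2
      have u2 : L.τ (ι k) * ‖L.hh b (ι k) x‖ ^ 2 ≤ 2 * b ^ 2 * e k + C * b ^ 2 *
          ∑ i ∈ range L.N, f i / wt (L.τ i) * if ι k ≤ i then wt (L.τ (ι k)) else 0 := t2
      linarith
    · rw [if_neg hk, if_neg hk]
      have := e0 k
      have := e0 (k + 1)
      have : 0 ≤ ∑ i ∈ range L.N, f i / wt (L.τ i) * if ι k ≤ i then wt (L.τ (ι k)) else 0 :=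
        sum_nonneg fun i _ => by
          have := f0 i
          have := wt_nonneg (L.τ i)
          split_ifs <;> positivity
      have : 0 ≤ ∑ i ∈ Ico (ι k) (ι (k + 1)), f i := sum_nonneg fun i _ => f0 i
      have : 0 ≤ ∑ i ∈ Ico (ι k) (ι (k + 1)), if i = L.J x then A else 0 :=
        sum_nonneg fun i _ => by split_ifs <;> positivity
      positivity
  refine (sum_le_sum fun k _ => key k).trans ?_
  simp only [sum_add_distrib, ← mul_sum]
  rw [tele hB.mono.monotone hB.zero, tele hB.mono.monotone hB.zero]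
  have m1 : wt (L.s x) ^ 3 * ‖P x - L.Ps b x‖ ^ 2 *
      (∑ k ∈ range L.N, if ι k ≤ L.J x then wt (L.τ (ι k)) else 0) ≤ 5 * A := by
    calc _ ≤ wt (L.s x) ^ 3 * ‖P x - L.Ps b x‖ ^ 2 * (5 * wt (L.s x)) :=
          mul_le_mul_of_nonneg_left (sumk h hL hΛ hB _) (by positivity)
      _ = 5 * (wt (L.s x) ^ 4 * ‖P x - L.Ps b x‖ ^ 2) := by ring
      _ ≤ 5 * A := by
        rw [wt_pow4 s0.le, hA]
        gcongr
        exact le_add_of_nonneg_left (by positivity)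
  have m2 : (∑ k ∈ range L.N, ∑ i ∈ range L.N,
      f i / wt (L.τ i) * if ι k ≤ i then wt (L.τ (ι k)) else 0) ≤ 5 * ∑ i ∈ range L.N, f i := by
    rw [sum_comm, mul_sum]
    refine sum_le_sum fun i _ => ?_
    have := wt_pos (τp i)
    have := f0 i
    rw [← mul_sum]
    refine (mul_le_mul_of_nonneg_left (sumk h hL hΛ hB i) (by positivity)).trans_eq ?_
    field_simp
  have m3 : ∑ k ∈ range L.N, e (k + 1) ≤ ∑ k ∈ range L.N, e k := by
    have a1 := sum_range_succ e L.N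
    have a2 := sum_range_succ' e L.N
    have a3 : e L.N = 0 := by simp only [he, hz _ hN, norm_zero]; ring
    linarith [e0 0]
  have m4 : ∑ i ∈ range (ι L.N), f i = ∑ i ∈ range L.N, f i :=
    (sum_subset (range_mono hN) fun i _ hi => by
      simp only [hf, hz i (by simpa using hi), norm_zero]; ring).symm
  have m5 : (∑ i ∈ range (ι L.N), if i = L.J x then A else 0) ≤ A := by
    rw [sum_ite_eq']
    split_ifs
    exacts [le_rfl, A0]
  have F0 : 0 ≤ b ^ 2 * ∑ i ∈ range L.N, f i :=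
    mul_nonneg (sq_nonneg _) (sum_nonneg fun i _ => f0 i)
  have E0 : 0 ≤ b ^ 2 * ∑ i ∈ range L.N, e i :=
    mul_nonneg (sq_nonneg _) (sum_nonneg fun i _ => e0 i)
  have u2 := mul_le_mul_of_nonneg_left m2 (by positivity : 0 ≤ C * b ^ 2)
  have u3 := mul_le_mul_of_nonneg_left m3 (by positivity : 0 ≤ 4 * Λ ^ 2 * b ^ 2)
  rw [m4]
  nlinarith [mul_nonneg hC.le A0, mul_nonneg hC.le E0, mul_nonneg (sq_nonneg Λ) A0]

end Rsumsx

open Rsumsx in
theorem sums (h : Bas3 n) : SUMS n := by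
  intro Λ hΛ
  obtain ⟨C, b₀, hC, hb₀, H⟩ := pt h hΛ
  obtain ⟨C₃, -, H3⟩ := h.pw.e2b
  refine ⟨2 * C, b₀, by positivity, hb₀, fun L b P ι hL hb hb0 mP hP hB => ?_⟩
  have δ0 := hL.δ0
  have τp := h.lv.τpos L hL
  have mO : ∀ i, MeasurableSet (L.O i) := fun i => (h.lv.opn L hL i).measurableSet
  have mh : ∀ (c : ℝ≥0∞) (i : ℕ), Measurable fun x => c * ‖L.h i x‖ₑ ^ 2 := fun c i =>
    ((h.lv.mM L hL b i).2.1.enorm.pow_const 2).const_mul c
  have r0 : ∀ j j' x, 0 ≤ L.rest b P j j' x := fun j j' x => by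
    have := τp j
    have := (H3 b (P x) (hP x)).1
    have : 0 < L.s x := τp _
    have : 0 ≤ ∑ i ∈ Finset.Ico j j', ‖L.h i x‖ ^ 2 := Finset.sum_nonneg fun i _ => sq_nonneg _
    unfold Lev.rest Lev.ze Lev.HH
    split_ifs <;> positivity
  set A : V n → ℝ≥0∞ := fun x =>
    ENNReal.ofReal (L.s x * (e2 (P x) + L.δ * b ^ 2 + ‖P x - L.Ps b x‖ ^ 2)) with hA
  set F : V n → ℝ≥0∞ := fun x =>
    ∑ j ∈ Finset.range L.N, ENNReal.ofReal (L.δ / L.τ j) * ‖L.h j x‖ₑ ^ 2 with hF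
  set E : V n → ℝ≥0∞ := fun x =>
    ∑ k ∈ Finset.range L.N, ENNReal.ofReal (1 / L.τ (ι k)) * ‖L.h (ι k) x‖ₑ ^ 2 with hE
  have mF : Measurable F := Finset.measurable_sum _ fun j _ => mh _ j
  have mE : Measurable E := Finset.measurable_sum _ fun k _ => mh _ (ι k)
  have iF : ∫⁻ x, F x = L.kk := by
    rw [hF, lintegral_finsetSum _ fun j _ => mh _ j]
    exact Finset.sum_congr rfl fun j _ => lintegral_const_mul' _ _ ENNReal.ofReal_ne_top
  have iE : ∫⁻ x, E x ≤ L.kk := by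
    rw [hE, lintegral_finsetSum _ fun k _ => mh _ (ι k)]
    refine le_trans (Finset.sum_congr rfl fun j _ => ?_).le hB.ends
    exact lintegral_const_mul' _ _ ENNReal.ofReal_ne_top
  have key : ∀ x, (∑ k ∈ Finset.range L.N, (L.O (ι k)).indicator
      (fun x => ENNReal.ofReal (L.rest b P (ι k) (ι (k + 1)) x)) x) ≤
      ENNReal.ofReal C * ((L.O 0).indicator A x + ENNReal.ofReal (b ^ 2) * F x +
        ENNReal.ofReal (b ^ 2) * E x) := by
    intro x
    by_cases hx : x ∈ L.O 0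
    · have a1 := ENNReal.ofReal_le_ofReal (H L b P ι hL hb hb0 hP hB x hx)
      have f0 : ∀ j, 0 ≤ L.δ / L.τ j := fun j => by have := τp j; positivity
      have e0 : ∀ k, 0 ≤ 1 / L.τ (ι k) := fun k => by have := τp (ι k); positivity
      have a2 : 0 ≤ L.s x * (e2 (P x) + L.δ * b ^ 2 + ‖P x - L.Ps b x‖ ^ 2) := by
        have := (H3 b (P x) (hP x)).1
        have : 0 < L.s x := τp _
        positivity
      have a3 : 0 ≤ b ^ 2 * ∑ j ∈ Finset.range L.N, L.δ / L.τ j * ‖L.h j x‖ ^ 2 :=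
        mul_nonneg (sq_nonneg _) (Finset.sum_nonneg fun j _ => mul_nonneg (f0 j) (sq_nonneg _))
      have a4 : 0 ≤ b ^ 2 * ∑ k ∈ Finset.range L.N, 1 / L.τ (ι k) * ‖L.h (ι k) x‖ ^ 2 :=
        mul_nonneg (sq_nonneg _) (Finset.sum_nonneg fun j _ => mul_nonneg (e0 j) (sq_nonneg _))
      rw [ENNReal.ofReal_mul hC.le, ENNReal.ofReal_add (add_nonneg a2 a3) a4,
        ENNReal.ofReal_add a2 a3, ENNReal.ofReal_mul (sq_nonneg b),
        ENNReal.ofReal_mul (sq_nonneg b), ofR _ f0, ofR _ e0 fun k => L.h (ι k) x,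
        ENNReal.ofReal_sum_of_nonneg fun k _ => by split_ifs; exacts [r0 _ _ _, le_rfl]] at a1
      rw [Set.indicator_of_mem hx]
      refine le_trans (Finset.sum_congr rfl fun k _ => ?_).le a1
      by_cases hk : ι k ≤ L.J x
      · rw [if_pos hk, Set.indicator_of_mem ((h.lv.mem L hL _ x).2 ⟨hx, hk⟩)]
      · rw [if_neg hk, Set.indicator_of_notMem fun e => hk ((h.lv.mem L hL _ x).1 e).2,
          ENNReal.ofReal_zero]
    · rw [Finset.sum_eq_zero fun k _ =>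
        Set.indicator_of_notMem (fun e => hx ((h.lv.mem L hL _ x).1 e).1) _]
      exact zero_le
  calc ∑ k ∈ Finset.range L.N, L.Rest b P (ι k) (ι (k + 1))
      = ∫⁻ x, ∑ k ∈ Finset.range L.N, (L.O (ι k)).indicator
          (fun x => ENNReal.ofReal (L.rest b P (ι k) (ι (k + 1)) x)) x := by
        rw [lintegral_finsetSum _ fun k _ =>
          (h.lv.mP L hL b P (ι k) (ι (k + 1)) mP).2.2.1.ennreal_ofReal.indicator (mO _)]
        exact Finset.sum_congr rfl fun k _ => (lintegral_indicator (mO _) _).symm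
    _ ≤ ∫⁻ x, ENNReal.ofReal C * ((L.O 0).indicator A x + ENNReal.ofReal (b ^ 2) * F x +
          ENNReal.ofReal (b ^ 2) * E x) := lintegral_mono key
    _ = ENNReal.ofReal C * ((∫⁻ x in L.O 0, A x) + ENNReal.ofReal (b ^ 2) * (∫⁻ x, F x) +
          ENNReal.ofReal (b ^ 2) * ∫⁻ x, E x) := by
        rw [lintegral_const_mul' _ _ ENNReal.ofReal_ne_top,
          lintegral_add_right _ (mE.const_mul _), lintegral_add_right _ (mF.const_mul _),
          lintegral_indicator (mO 0), lintegral_const_mul _ mF, lintegral_const_mul _ mE]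
    _ ≤ ENNReal.ofReal C * (L.Sl b P + L.Sl b P) := by
        rw [iF, add_comm (∫⁻ x in L.O 0, A x)]
        exact mul_le_mul_right (add_le_add le_rfl
          ((mul_le_mul_right iE _).trans le_self_add)) _
    _ = ENNReal.ofReal (2 * C) * L.Sl b P := by
        rw [ENNReal.ofReal_mul zero_le_two, ENNReal.ofReal_ofNat, ← two_mul]
        ring

end Pool.Agent.MP_29b5d3_an.EX

end MrgPart3

-- ======== part 4: formerly Pool.Agent.MP_29b5d3_an.EX.Rcs
section MrgPart4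

/-! Project EXQ: the Cauchy-Schwarz step for the single level pieces. -/

set_option autoImplicit false

namespace Pool.Agent.MP_29b5d3_an.EX

open MeasureTheory Metric Filter Topology Module Pool.Agent.MP_29b5d3_an.NC
open scoped RealInnerProductSpace ContDiff ENNReal

variable {n : ℕ}

namespace Rcsx

theorem sum_le (s : Finset ℕ) (f : ℕ → V n → ℝ≥0∞) :
    ∑ i ∈ s, ∫⁻ x, f i x ≤ ∫⁻ x, ∑ i ∈ s, f i x := by
  induction s using Finset.induction_on with
  | empty => simp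
  | insert a s ha ih =>
    simp only [Finset.sum_insert ha]
    exact (add_le_add le_rfl ih).trans (le_lintegral_add _ _)

theorem amgm {x y z c l B : ℝ} (hl : 0 < l) (hy : 0 ≤ y) (hz : 0 ≤ z) {r : ℝ} (hx : x ≤ c * r)
    (hB : y ^ 2 ≤ B) : x * (y * z) ≤ l * B + c ^ 2 / l * (r ^ 2 * z ^ 2) := by
  have h1 : x * (y * z) ≤ c * r * (y * z) := mul_le_mul_of_nonneg_right hx (mul_nonneg hy hz)
  have h2 : l * y ^ 2 ≤ l * B := mul_le_mul_of_nonneg_left hB hl.le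
  have h3 : c ^ 2 / l * (r ^ 2 * z ^ 2) = l * (c * r * z / l) ^ 2 := by field_simp
  have h4 : c * r * (y * z) = l * (y * (c * r * z / l)) := by field_simp
  rw [h3]
  nlinarith [mul_nonneg hl.le (sq_nonneg (y - c * r * z / l)),
    mul_nonneg hl.le (sq_nonneg (y + c * r * z / l)), mul_nonneg hl.le (sq_nonneg y),
    mul_nonneg hl.le (sq_nonneg (c * r * z / l))]

theorem termA {δ τ W γ X : ℝ} (hδ : 0 ≤ δ) (hτ : 0 < τ) (hW : 1 ≤ W) (hγ : 1 ≤ γ) (h : γ ^ 4 ≤ W)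
    {b : ℝ} (hX : 0 ≤ X) :
    δ * (τ * W ^ 4 * W) * (b ^ 2 * γ ^ 2 * X / (τ * W ^ 4) ^ 2) ≤ b ^ 2 * X / τ * (δ * W⁻¹) := by
  have W0 : 0 < W := by linarith
  have h1 : γ ^ 2 ≤ W ^ 2 := by
    have : γ ^ 2 ≤ γ ^ 4 := pow_le_pow_right₀ hγ (by norm_num)
    nlinarith
  calc δ * (τ * W ^ 4 * W) * (b ^ 2 * γ ^ 2 * X / (τ * W ^ 4) ^ 2)
      ≤ δ * (τ * W ^ 4 * W) * (b ^ 2 * W ^ 2 * X / (τ * W ^ 4) ^ 2) := by gcongr
    _ = _ := by field_simp

theorem shift (f : ℕ → ℝ) (hf : ∀ i, 0 ≤ f i) {j j' : ℕ} (h : j < j') :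
    ∑ i ∈ Finset.Ico j j', f (i + 1) ≤ ∑ i ∈ Finset.Ico j j', f i + f j' := by
  rw [Finset.sum_Ico_add' f j j' 1, ← Finset.sum_Ico_succ_top h.le]
  exact Finset.sum_le_sum_of_subset_of_nonneg (Finset.Ico_subset_Ico_left (by omega))
    fun i _ _ => hf i

end Rcsx

open Rcsx in
theorem cs (h : Bas3 n) : CS n := by
  intro Λ C₁ hΛ hC₁
  obtain ⟨Cp, b₀, -, hb₀, hpow⟩ := h.num.pow
  obtain ⟨Cg, hCg, hgeo⟩ := h.num.geo
  obtain ⟨Ce, -, he2⟩ := h.pw.e2b
  have wΛ := wt_pos hΛ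
  refine ⟨C₁ * (Cg + 2 * (Λ * wt Λ) + wt Λ) + C₁ ^ 2 * Cg, b₀, by positivity, hb₀, ?_⟩
  intro L b P j j' D o Ω ξ mm hL hb hb' hP hS hj hτ hD ho hY hξ hmm
  have δ0 := hL.δ0
  have δ1 := hL.δ1
  have τp := h.lv.τpos L hL
  set W : ℕ → ℝ := fun M => wt ((1 + L.δ) ^ (M - j)) with hW
  have W1 : ∀ M, 1 ≤ W M := fun M => one_le_wt (one_le_pow₀ (by linarith))
  have W0 : ∀ M, 0 < W M := fun M => one_pos.trans_le (W1 M)
  have W4 : ∀ M, j ≤ M → L.τ M = L.τ j * W M ^ 4 := fun M hM => by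
    rw [hW, wt_pow4 (by positivity), ← h.lv.τdiv L hL M j hM, mul_div_cancel₀ _ (τp j).ne']
  have WΛ : ∀ M, j ≤ M → M < j' → W M ≤ wt Λ ∧ L.τ M ≤ Λ * L.τ j := fun M hM hM' => by
    have := (h.lv.τmono L hL hM'.le).trans hτ
    exact ⟨wt_mono (by rw [← h.lv.τdiv L hL M j hM, div_le_iff₀ (τp j)]; exact this), this⟩
  set B : ℕ → V n → ℝ := fun M x => b ^ 2 * (L.g b ^ (M - j)) ^ 2 * L.HH j j' x / L.τ M ^ 2 +
    if M < j' then b ^ 2 * (‖L.h M x‖ ^ 2 + ‖L.h (M + 1) x‖ ^ 2) / L.τ j ^ 2 +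
      (if L.J x = M then b ^ 2 + ‖P x - L.Ps b x‖ ^ 2 else 0) else 0 with hB
  have HH0 : ∀ x, 0 ≤ L.HH j j' x := fun x => by unfold Lev.HH; positivity
  have B0 : ∀ M x, 0 ≤ B M x := fun M x => by
    have := HH0 x
    simp only [hB]
    split_ifs <;> positivity
  -- the pointwise bound for the sum of the squares
  have key : ∀ x, ∑ M ∈ Finset.Ico j L.N, L.δ * (L.τ M * W M) * (C₁ * B M x) ≤
      C₁ * (Cg + 2 * (Λ * wt Λ) + wt Λ) * L.rest b P j j' x := fun x => by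
    have hH := HH0 x
    have τj := τp j
    set a := b ^ 2 * L.HH j j' x / L.τ j with ha
    set c := if L.J x < j' then L.s x * (e2 (P x) + L.δ * b ^ 2 + ‖P x - L.Ps b x‖ ^ 2) else 0
      with hc
    have a0 : 0 ≤ a := by positivity
    have e0 := (he2 b _ (hS x)).1
    have s0 : 0 < L.s x := τp _
    have c0 : 0 ≤ c := by rw [hc]; split_ifs <;> positivity
    have z0 : 0 ≤ L.τ j * L.ze b P j x := by unfold Lev.ze; positivity
    have t1 : ∀ M ∈ Finset.Ico j L.N, L.δ * (L.τ M * W M) * B M x ≤ a * (L.δ * (W M)⁻¹) +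
        (if M ∈ Finset.Ico j j' then Λ * wt Λ * (b ^ 2 / L.τ j) *
          (L.δ * ‖L.h M x‖ ^ 2 + L.δ * ‖L.h (M + 1) x‖ ^ 2) else 0) +
        (if L.J x = M then wt Λ * c else 0) := fun M hM => by
      have hM := (Finset.mem_Ico.1 hM).1
      have A := termA δ0.le τj (W1 M) (γ := L.g b ^ (M - j))
        (one_le_pow₀ (by unfold Lev.g; nlinarith)) (hpow _ b _ δ0 δ1 hb hb').1 (b := b) hH
      rw [← W4 M hM] at A
      simp only [hB, mul_add, add_assoc]
      refine add_le_add A ?_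
      by_cases hM' : M < j'
      · obtain ⟨w1, w2⟩ := WΛ M hM hM'
        have τM := τp M
        have := W0 M
        rw [if_pos hM', if_pos (Finset.mem_Ico.2 ⟨hM, hM'⟩), mul_add]
        refine add_le_add ?_ ?_
        · calc L.δ * (L.τ M * W M) * ((b ^ 2 * ‖L.h M x‖ ^ 2 + b ^ 2 * ‖L.h (M + 1) x‖ ^ 2) /
                L.τ j ^ 2)
              ≤ L.δ * (Λ * L.τ j * wt Λ) * ((b ^ 2 * ‖L.h M x‖ ^ 2 + b ^ 2 * ‖L.h (M + 1) x‖ ^ 2) /
                L.τ j ^ 2) := by gcongr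
            _ = _ := by field_simp
        · split_ifs with hJ
          · have e : L.s x = L.τ M := by rw [Lev.s, hJ]
            rw [hc, if_pos (hJ ▸ hM'), e]
            calc L.δ * (L.τ M * W M) * (b ^ 2 + ‖P x - L.Ps b x‖ ^ 2)
                = W M * (L.τ M * (0 + L.δ * b ^ 2 + L.δ * ‖P x - L.Ps b x‖ ^ 2)) := by ring
              _ ≤ wt Λ * (L.τ M * (e2 (P x) + L.δ * b ^ 2 + 1 * ‖P x - L.Ps b x‖ ^ 2)) := by
                gcongr
              _ = _ := by rw [one_mul]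
          · rw [mul_zero]
      · rw [if_neg hM', if_neg (fun k => hM' (Finset.mem_Ico.1 k).2), mul_zero, zero_add]
        split_ifs <;> positivity
    have t2 := Finset.sum_le_sum t1
    rw [Finset.sum_add_distrib, Finset.sum_add_distrib, ← Finset.mul_sum, ← Finset.mul_sum,
      Finset.sum_ite_mem, Finset.sum_ite_eq] at t2
    have u1 := mul_le_mul_of_nonneg_left (hgeo L.δ j L.N δ0 δ1).1 a0
    have u2 : ∑ M ∈ Finset.Ico j L.N ∩ Finset.Ico j j', Λ * wt Λ * (b ^ 2 / L.τ j) *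
        (L.δ * ‖L.h M x‖ ^ 2 + L.δ * ‖L.h (M + 1) x‖ ^ 2) ≤ 2 * (Λ * wt Λ) * a := by
      refine (Finset.sum_le_sum_of_subset_of_nonneg Finset.inter_subset_right
        fun _ _ _ => by positivity).trans ?_
      rw [← Finset.mul_sum, Finset.sum_add_distrib, ← Finset.mul_sum, ← Finset.mul_sum]
      have v1 := mul_le_mul_of_nonneg_left
        (shift (fun i => ‖L.h i x‖ ^ 2) (fun _ => by positivity) hj) δ0.le
      have v2 : L.δ * ‖L.h j' x‖ ^ 2 ≤ ‖L.h j' x‖ ^ 2 := mul_le_of_le_one_left (by positivity) δ1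
      have v3 : L.δ * ∑ i ∈ Finset.Ico j j', ‖L.h i x‖ ^ 2 +
          L.δ * ∑ i ∈ Finset.Ico j j', ‖L.h (i + 1) x‖ ^ 2 ≤ 2 * L.HH j j' x := by
        unfold Lev.HH
        nlinarith [sq_nonneg ‖L.h j x‖, sq_nonneg ‖L.h j' x‖]
      calc _ ≤ Λ * wt Λ * (b ^ 2 / L.τ j) * (2 * L.HH j j' x) := by gcongr
        _ = _ := by rw [ha]; ring
    have u3 : (if L.J x ∈ Finset.Ico j L.N then wt Λ * c else 0) ≤ wt Λ * c := by
      split_ifs
      · exact le_rfl
      · positivity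
    have u4 : ∑ M ∈ Finset.Ico j L.N, L.δ * (L.τ M * W M) * B M x ≤
        (Cg + 2 * (Λ * wt Λ) + wt Λ) * L.rest b P j j' x := by
      have e : L.rest b P j j' x = L.τ j * L.ze b P j x + a + c := rfl
      have p1 : 0 ≤ Λ * wt Λ := by positivity
      rw [e]
      nlinarith [mul_nonneg hCg.le z0, mul_nonneg hCg.le c0, mul_nonneg p1 z0, mul_nonneg p1 c0,
        mul_nonneg wΛ.le z0, mul_nonneg wΛ.le a0]
    calc _ = C₁ * ∑ M ∈ Finset.Ico j L.N, L.δ * (L.τ M * W M) * B M x := by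
          rw [Finset.mul_sum]; exact Finset.sum_congr rfl fun _ _ => by ring
      _ ≤ _ := by rw [mul_assoc]; gcongr
  set G : ℕ → V n → ℝ≥0∞ := fun M x => ENNReal.ofReal (C₁ ^ 2 / (L.δ * (L.τ M * W M))) *
    ENNReal.ofReal ((o x / D x) ^ 2 * ‖L.GY M x‖ ^ 2) with hG
  have mG : ∀ M, Measurable (G M) := fun M =>
    ((((ho.div hD).pow_const 2).mul
      ((h.lv.h2Y L hL M).mG.norm.measurable.pow_const 2)).ennreal_ofReal).const_mul _
  have pw : ∀ x, ∑ M ∈ Finset.Ico j L.N, ‖⟪ξ x, mm M x (L.GY M x)⟫‖ₑ ≤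
      (L.O j).indicator (fun x => ENNReal.ofReal (C₁ * (Cg + 2 * (Λ * wt Λ) + wt Λ)) *
        ENNReal.ofReal (L.rest b P j j' x)) x + ∑ M ∈ Finset.Ico j L.N, G M x := fun x => by
    have off : ∀ M, x ∉ L.O M → ‖⟪ξ x, mm M x (L.GY M x)⟫‖ₑ = 0 := fun M hx => by
      rw [(h.lv.off L hL M x hx).2.1]; simp
    by_cases hx : x ∈ L.O j
    · have l0 : ∀ M, 0 < L.δ * (L.τ M * W M) := fun M => mul_pos δ0 (mul_pos (τp M) (W0 M))
      rw [Set.indicator_of_mem hx, ← ENNReal.ofReal_mul (by positivity)]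
      refine le_trans ?_ (add_le_add (ENNReal.ofReal_le_ofReal (key x)) le_rfl)
      rw [ENNReal.ofReal_sum_of_nonneg fun M _ =>
        mul_nonneg (l0 M).le (mul_nonneg hC₁.le (B0 M x)), ← Finset.sum_add_distrib]
      refine Finset.sum_le_sum fun M hM => ?_
      by_cases hxM : x ∈ L.O M
      · have x4 : x ∈ ball (0 : V n) 4 :=
          ball_subset_ball (by norm_num) (hL.supp (h.lv.anti L hL (Nat.zero_le M) hxM))
        have := l0 M
        simp only [hG]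
        rw [← ENNReal.ofReal_mul (by positivity), ← ENNReal.ofReal_add
          (mul_nonneg (l0 M).le (mul_nonneg hC₁.le (B0 M x))) (by positivity), ← ofReal_norm]
        refine ENNReal.ofReal_le_ofReal ((norm_inner_le_norm _ _).trans (le_trans ?_
          (amgm (l0 M) (norm_nonneg (mm M x)) (norm_nonneg (L.GY M x)) (hξ x x4)
            (hmm M (Finset.mem_Ico.1 hM).1 x hxM))))
        exact mul_le_mul_of_nonneg_left ((mm M x).le_opNorm _) (norm_nonneg _)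
      · rw [off M hxM]; exact zero_le
    · rw [Finset.sum_eq_zero fun M hM => off M fun k =>
        hx (h.lv.anti L hL (Finset.mem_Ico.1 hM).1 k)]
      exact zero_le
  refine (sum_le _ _).trans ((lintegral_mono pw).trans ?_)
  rw [lintegral_add_right _ (Finset.measurable_sum _ fun M _ => mG M),
    lintegral_indicator (h.lv.opn L hL j).measurableSet,
    lintegral_const_mul' _ _ ENNReal.ofReal_ne_top, lintegral_finsetSum _ fun M _ => mG M]
  have g1 : ∑ M ∈ Finset.Ico j L.N, ∫⁻ x, G M x ≤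
      ENNReal.ofReal (C₁ ^ 2 * Cg) * (ENNReal.ofReal (L.τ j) * Ω) := by
    have τj := τp j
    have k : ∀ M ∈ Finset.Ico j L.N, ∫⁻ x, G M x ≤
        ENNReal.ofReal (C₁ ^ 2 * L.τ j * (L.δ * (W M)⁻¹)) * Ω := fun M hM => by
      have := τp M
      have := W0 M
      simp only [hG]
      rw [lintegral_const_mul' _ _ ENNReal.ofReal_ne_top]
      refine (mul_le_mul_right (hY M (Finset.mem_Ico.1 hM).1).1 _).trans_eq ?_
      rw [← mul_assoc, ← ENNReal.ofReal_mul (by positivity)]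
      congr 2
      field_simp
    refine (Finset.sum_le_sum k).trans ?_
    rw [← Finset.sum_mul, ← ENNReal.ofReal_sum_of_nonneg fun M _ => by
      have := W0 M; positivity, ← mul_assoc, ← ENNReal.ofReal_mul (by positivity),
      ← Finset.mul_sum, ← Finset.mul_sum]
    refine mul_le_mul_left (ENNReal.ofReal_le_ofReal ?_) _
    calc _ ≤ C₁ ^ 2 * L.τ j * Cg :=
          mul_le_mul_of_nonneg_left (hgeo L.δ j L.N δ0 δ1).1 (by positivity)
      _ = _ := by ring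
  refine (add_le_add le_rfl g1).trans ?_
  rw [mul_add _ _ (L.Rest b P j j'), add_comm]
  refine add_le_add (mul_le_mul_left (ENNReal.ofReal_le_ofReal ?_) _)
    (mul_le_mul_left (ENNReal.ofReal_le_ofReal ?_) _)
  · exact le_add_of_nonneg_left (by positivity)
  · exact le_add_of_nonneg_right (by positivity)

end Pool.Agent.MP_29b5d3_an.EX

end MrgPart4

-- ======== part 5: formerly Pool.Agent.MP_29b5d3_an.EX.Rlin
section MrgPart5

/-! Project EXQ, row LIN: linearisation of the gauge field around each of its values. -/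

set_option autoImplicit false

namespace Pool.Agent.MP_29b5d3_an.EX

open MeasureTheory Metric Filter Topology Module Pool.Agent.MP_29b5d3_an.NC
open scoped RealInnerProductSpace ContDiff ENNReal

variable {n : ℕ}

namespace Rlinx

/-- the skew part of `star Q * R` -/
noncomputable def sk (Q R : Mt n) : Mt n := (1 / 2 : ℝ) • (star Q * R - star R * Q)

theorem star_sk (Q R : Mt n) : star (sk Q R) = -sk Q R := by
  simp only [sk, star_smul, star_sub, star_mul, star_star, star_trivial]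
  rw [← smul_neg, neg_sub]

theorem tr_skew {S : Mt n} (hS : star S = -S) : tr S = 0 := by
  have k := tr_star S
  rw [hS, tr_neg] at k
  linarith

theorem dev_mono {X : Mt n} {c c' : ℝ} (h : Dev X c) (hc : c ≤ c') : Dev X c' := fun a b =>
  (h a b).trans (by gcongr)

theorem dev_zero (hn : 3 ≤ n) (α : ℝ) {S : Mt n} (hS : star S = -S) :
    Dev (α • (1 : Mt n) + S) 0 := by
  intro a b
  have n0 : (n : ℝ) ≠ 0 := by
    have : (3 : ℝ) ≤ n := by exact_mod_cast hn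
    linarith
  have e1 : tr (α • (1 : Mt n) + S) / n = α := by
    rw [tr_add, tr_smul, tr_one, tr_skew hS, add_zero, mul_div_cancel_right₀ _ n0]
  have e2 : ⟪S a, b⟫ = -⟪a, S b⟫ := by
    rw [← inner_star_right, hS]
    simp
  rw [e1]
  simp only [add_apply, smul_apply,
    one_apply_eq_self, inner_add_left, inner_add_right, real_inner_smul_left,
    real_inner_smul_right, e2]
  rw [show α * ⟪a, b⟫ + -⟪a, S b⟫ + (α * ⟪a, b⟫ + ⟪a, S b⟫) - 2 * α * ⟪a, b⟫ = 0 by ring]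
  simp

theorem norm_sk {Q : Mt n} (hQ : Orth Q) (R : Mt n) : ‖sk Q R‖ ≤ ‖R - Q‖ := by
  have e : star Q * R - star R * Q = star Q * (R - Q) - star (star Q * (R - Q)) := by
    have h1 : star Q * Q = 1 := hQ
    simp only [star_mul, star_star, star_sub, mul_sub, h1, star_one]
    abel
  have k := norm_sub_le (star Q * (R - Q)) (star (star Q * (R - Q)))
  rw [norm_star', hQ.star.norm_mul] at k
  rw [sk, norm_smul, e, Real.norm_eq_abs, abs_of_pos (by norm_num : (0 : ℝ) < 1 / 2)]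
  linarith

theorem abs_le_norm (hn : 3 ≤ n) (α : ℝ) {S : Mt n} (hS : star S = -S) :
    |α| ≤ ‖α • (1 : Mt n) + S‖ := by
  have n0 : (0 : ℝ) < n := by
    have : (3 : ℝ) ≤ n := by exact_mod_cast hn
    linarith
  have k := abs_tr_le (α • (1 : Mt n) + S)
  rw [tr_add, tr_smul, tr_one, tr_skew hS, add_zero, abs_mul, abs_of_pos n0, mul_comm] at k
  exact le_of_mul_le_mul_left k n0

theorem skew_le_norm (α : ℝ) {S : Mt n} (hS : star S = -S) : ‖S‖ ≤ ‖α • (1 : Mt n) + S‖ := by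
  have e : (2 : ℝ) • S = (α • (1 : Mt n) + S) - star (α • (1 : Mt n) + S) := by
    rw [star_add, star_smul, star_one, star_trivial, hS, two_smul]
    abel
  have k := norm_sub_le (α • (1 : Mt n) + S) (star (α • (1 : Mt n) + S))
  rw [← e, norm_star', norm_smul, Real.norm_eq_abs, abs_of_pos two_pos] at k
  linarith

/-- two values are compared through their linearisations -/
theorem cmp (hn : 3 ≤ n) {Q R R' X X' : Mt n} {α α' ε ε' s s' : ℝ} (hQ : Orth Q)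
    (h1 : ‖X - (α • (1 : Mt n) + sk Q R)‖ ≤ ε) (h1' : ‖X' - (α' • (1 : Mt n) + sk Q R')‖ ≤ ε')
    (h2 : ‖star Q * R - 1 - sk Q R‖ ≤ s) (h2' : ‖star Q * R' - 1 - sk Q R'‖ ≤ s') :
    |α - α'| ≤ ‖X - X'‖ + (ε + s) + (ε' + s') ∧ ‖R - R'‖ ≤ ‖X - X'‖ + (ε + s) + (ε' + s') := by
  have hS : star (sk Q R - sk Q R') = -(sk Q R - sk Q R') := by
    rw [star_sub, star_sk, star_sk]
    abel
  have s0 : 0 ≤ s := (norm_nonneg _).trans h2
  have s0' : 0 ≤ s' := (norm_nonneg _).trans h2'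
  have e : (α - α') • (1 : Mt n) + (sk Q R - sk Q R') =
      (X - X') - (X - (α • (1 : Mt n) + sk Q R)) + (X' - (α' • (1 : Mt n) + sk Q R')) := by
    rw [sub_smul]
    abel
  have k : ‖(α - α') • (1 : Mt n) + (sk Q R - sk Q R')‖ ≤ ‖X - X'‖ + ε + ε' := by
    rw [e]
    refine (norm_add_le _ _).trans ?_
    have := norm_sub_le (X - X') (X - (α • (1 : Mt n) + sk Q R))
    linarith
  refine ⟨by linarith [abs_le_norm hn (α - α') hS], ?_⟩
  have e3 : star Q * (R - R') = (star Q * R - 1 - sk Q R) - (star Q * R' - 1 - sk Q R') +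
      (sk Q R - sk Q R') := by
    rw [mul_sub]
    abel
  rw [← hQ.star.norm_mul (R - R'), e3]
  refine (norm_add_le _ _).trans ?_
  have := norm_sub_le (star Q * R - 1 - sk Q R) (star Q * R' - 1 - sk Q R')
  linarith [skew_le_norm (α - α') hS]

theorem aux1 {C₂ x s E w F : ℝ} (c2 : 0 < C₂) (w0 : 0 ≤ w) (F0 : 0 ≤ F) (F1 : E ^ 2 ≤ F)
    (F2 : s ^ 2 * E ^ 2 ≤ F) (F4 : x ^ 2 * E ^ 2 ≤ C₂ * w + F) :
    ((x + 1 + s) * E) ^ 2 ≤ 3 * (C₂ + 3) * (w + F) := by
  have h1 : (x + 1 + s) ^ 2 ≤ 3 * (x ^ 2 + 1 + s ^ 2) := by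
    nlinarith [sq_nonneg (x - 1), sq_nonneg (x - s), sq_nonneg (s - 1)]
  have h2 : ((x + 1 + s) * E) ^ 2 ≤ 3 * (x ^ 2 + 1 + s ^ 2) * E ^ 2 := by
    rw [mul_pow]
    exact mul_le_mul_of_nonneg_right h1 (by positivity)
  have h3 : 0 ≤ C₂ * F := by positivity
  have e1 : 3 * (x ^ 2 + 1 + s ^ 2) * E ^ 2 = 3 * (x ^ 2 * E ^ 2) + 3 * E ^ 2 + 3 * (s ^ 2 * E ^ 2) := by
    ring
  have e2 : 3 * (C₂ + 3) * (w + F) = 3 * (C₂ * w) + 3 * (C₂ * F) + 9 * w + 9 * F := by ring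
  linarith

theorem aux2 (u p k q : ℝ) :
    (4 * (u + p + k) + q) ^ 2 ≤ 64 * (u ^ 2 + p ^ 2 + k ^ 2) + 4 * q ^ 2 := by
  nlinarith [sq_nonneg (u - p), sq_nonneg (u - k), sq_nonneg (p - k), sq_nonneg (4 * u - q),
    sq_nonneg (4 * p - q), sq_nonneg (4 * k - q)]

theorem aux3 {x E y F : ℝ} (h1 : x ^ 4 ≤ y) (h2 : E ^ 4 ≤ F) : x ^ 2 * E ^ 2 ≤ y + F := by
  nlinarith [sq_nonneg (x ^ 2 - E ^ 2), sq_nonneg (x ^ 2), sq_nonneg (E ^ 2)]

theorem aux4 (s : ℝ) : s ^ 2 ≤ 1 + s ^ 4 := by nlinarith [sq_nonneg (s ^ 2 - 1)]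

/-- the square of the error -/
theorem sq_err {C₁ C₂ b v w t p k : ℝ} (c2 : 0 < C₂) (b0 : 0 < b) (t0 : 0 ≤ t)
    (w0 : 0 ≤ w) (hv : (v - 1) ^ 4 ≤ C₂ * b ^ 4 * w) :
    (4 * (C₁ * ((v - 1) + b + t) * t * Real.exp t + p + k) + t ^ 2) ^ 2 ≤
      (64 + 192 * C₁ ^ 2 * (C₂ + 3)) * b ^ 2 * (w * t ^ 2 + Psi b t) +
        (64 + 192 * C₁ ^ 2 * (C₂ + 3)) * (p ^ 2 + k ^ 2) := by
  have E1 : 1 ≤ Real.exp t := Real.one_le_exp t0
  have e4 : Real.exp (4 * t) = Real.exp t ^ 4 := by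
    rw [← Real.exp_nat_mul]
    norm_num
  rw [Psi, e4]
  generalize Real.exp t = E at E1 ⊢
  obtain ⟨x, hx⟩ : ∃ x, v - 1 = x * b := ⟨(v - 1) / b, by field_simp⟩
  obtain ⟨s, rfl⟩ : ∃ s, t = s * b := ⟨t / b, by field_simp⟩
  have x4 : x ^ 4 ≤ C₂ * w := by
    rw [hx, mul_pow, mul_right_comm] at hv
    exact le_of_mul_le_mul_right hv (by positivity)
  rw [hx, mul_pow s b 4, mul_div_cancel_right₀ _ (by positivity), mul_assoc ((s * b) ^ 2)]
  have E2 : E ^ 2 ≤ E ^ 4 := pow_le_pow_right₀ E1 (by norm_num)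
  have F1 : E ^ 4 ≤ E ^ 4 * (1 + s ^ 4) :=
    le_mul_of_one_le_right (by positivity) (le_add_of_nonneg_right (by positivity))
  have F2 : s ^ 2 * E ^ 2 ≤ E ^ 4 * (1 + s ^ 4) := by
    rw [mul_comm]
    exact mul_le_mul E2 (aux4 s) (by positivity) (by positivity)
  have F0 : 0 ≤ E ^ 4 * (1 + s ^ 4) := by positivity
  generalize E ^ 4 * (1 + s ^ 4) = F at F1 F2 F0 ⊢
  have F3 : s ^ 2 ≤ F := le_trans (le_mul_of_one_le_right (by positivity) (one_le_pow₀ E1)) F2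
  have k1 := aux1 c2 w0 F0 (E2.trans F1) F2 (aux3 x4 F1)
  have k2 := mul_le_mul_of_nonneg_left k1 (sq_nonneg (C₁ * b * (s * b)))
  have k3 := mul_le_mul_of_nonneg_left F3 (sq_nonneg (b * (s * b)))
  have k4 := aux2 (C₁ * (x * b + b + s * b) * (s * b) * E) p k ((s * b) ^ 2)
  have k5 : 0 ≤ 192 * C₁ ^ 2 * (C₂ + 3) * (p ^ 2 + k ^ 2) := by positivity
  have k6 : 0 ≤ b ^ 2 * (w * (s * b) ^ 2) := by positivity
  have k7 : 0 ≤ (b * (s * b)) ^ 2 * F := by positivity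
  have e1 : (C₁ * (x * b + b + s * b) * (s * b) * E) ^ 2 =
      (C₁ * b * (s * b)) ^ 2 * ((x + 1 + s) * E) ^ 2 := by ring
  have e2 : ((s * b) ^ 2) ^ 2 = (b * (s * b)) ^ 2 * s ^ 2 := by ring
  have e3 : (64 + 192 * C₁ ^ 2 * (C₂ + 3)) * b ^ 2 * (w * (s * b) ^ 2 + (s * b) ^ 2 * F) +
      (64 + 192 * C₁ ^ 2 * (C₂ + 3)) * (p ^ 2 + k ^ 2) =
      64 * (b ^ 2 * (w * (s * b) ^ 2)) + 64 * ((b * (s * b)) ^ 2 * F) +
        64 * ((C₁ * b * (s * b)) ^ 2 * (3 * (C₂ + 3) * (w + F))) + 64 * p ^ 2 + 64 * k ^ 2 +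
        192 * C₁ ^ 2 * (C₂ + 3) * (p ^ 2 + k ^ 2) := by ring
  rw [e3]
  rw [e1, e2] at k4
  linarith

end Rlinx

open Rlinx in
theorem lins (h : Bas3 n) (h1 : LINM n) : LIN n := by
  obtain ⟨C₁, c1, hM⟩ := h1
  obtain ⟨C₂, b₂, c2, b2, hvw⟩ := h.lv.vw
  refine ⟨64 + 192 * C₁ ^ 2 * (C₂ + 3), min b₂ 1, by positivity, lt_min b2 one_pos, ?_⟩
  intro L b A R P a j hL b0 hb hP y₀
  have bb : b ≤ b₂ := hb.trans (min_le_left _ _)
  have b1 : b ≤ 1 := hb.trans (min_le_right _ _)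
  have C2 : (2 : ℝ) ≤ 64 + 192 * C₁ ^ 2 * (C₂ + 3) := by
    have : 0 ≤ 192 * C₁ ^ 2 * (C₂ + 3) := by positivity
    linarith
  have g0 : 0 < L.g b := by
    have := hL.δ0
    unfold Lev.g
    positivity
  obtain ⟨map, mgg⟩ := h.lv.mg L hL b a R hP.ma hP.mR
  obtain ⟨-, mv, -⟩ := h.lv.ms L hL b j j
  obtain ⟨-, -, mPs, -, mhh, -⟩ := h.lv.mM L hL b j
  set t : V n → ℝ := fun y => ‖L.gg b a R y - L.gg b a R y₀‖ with ht
  have mt : Measurable t := (mgg.sub stronglyMeasurable_const).norm.measurable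
  set ε : V n → ℝ := fun y => C₁ * ((L.v b j y - 1) + b + t y) * t y * Real.exp (t y) +
    L.v b j y * ‖P y - L.Ps b y‖ + ‖L.hh b j y‖ with hε
  set Ξ : V n → Mt n := fun y =>
    ((L.g b ^ j)⁻¹ * Real.exp (-L.ap b a y₀)) • (star (R y₀) * A y) - L.DP b j y with hΞ
  have mε : Measurable ε := by
    have m1 : Measurable fun y => ‖P y - L.Ps b y‖ := (hP.mP.sub mPs).norm.measurable
    have m2 : Measurable fun y => ‖L.hh b j y‖ := mhh.norm.measurable
    exact ((((measurable_const.mul (((mv.sub_const 1).add_const b).add mt)).mul mt).mul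
      mt.exp).add (mv.mul m1)).add m2
  have ta : ∀ y, |L.ap b a y - L.ap b a y₀| ≤ t y := fun y =>
    norm_fst_le (L.gg b a R y - L.gg b a R y₀)
  have tR : ∀ y, ‖R y - R y₀‖ ≤ t y := fun y => norm_snd_le (L.gg b a R y - L.gg b a R y₀)
  have key : ∀ y ∈ L.O j,
      ‖Ξ y - ((L.ap b a y - L.ap b a y₀) • (1 : Mt n) + sk (R y₀) (R y))‖ ≤ ε y ∧
      ‖star (R y₀) * R y - 1 - sk (R y₀) (R y)‖ ≤ t y ^ 2 := by
    intro y hy
    obtain ⟨y0, yJ⟩ := (h.lv.mem L hL j y).1 hy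
    have y10 : y ∈ ball (0 : V n) 10 := ball_subset_ball (by norm_num) (hL.supp y0)
    have e1 : (L.g b ^ j)⁻¹ * Real.exp (-L.ap b a y₀) * Real.exp (a y) =
        L.v b j y * Real.exp (L.ap b a y - L.ap b a y₀) := by
      have e2 : Real.exp (a y) = Real.exp (L.ap b a y) * L.g b ^ L.J y := by
        rw [Lev.ap, Real.exp_sub, Real.exp_nat_mul, Real.exp_log g0, div_mul_cancel₀ _ (by positivity)]
      have e3 : L.g b ^ L.J y = L.g b ^ j * L.v b j y := by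
        rw [Lev.v, ← pow_add, Nat.add_sub_cancel' yJ]
      rw [e2, e3, Real.exp_sub, Real.exp_neg]
      field_simp
    have e4 : Ξ y = (L.v b j y * Real.exp (L.ap b a y - L.ap b a y₀)) •
        (star (R y₀) * (R y * (1 - P y))) - (L.v b j y • (1 - L.Ps b y) + L.hh b j y) := by
      rw [hΞ]
      dsimp only
      rw [hP.eq y y10, mul_smul_comm, smul_smul, e1, Lev.hh, add_sub_cancel]
    rw [e4]
    exact hM b _ _ _ _ _ _ _ _ b0 b1 (hvw L hL b j b0 bb y hy).1 (hP.orth y₀) (hP.orth y)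
      (hP.str y).norm (ta y) (tR y)
  refine ⟨Ξ, fun y => 4 * ε y + t y ^ 2,
    h.cfs.sub _ _ (h.cfs.smul _ _ (h.cfs.mul _ _ hP.cf)) (h.lv.cfP L hL b j),
    (mε.const_mul 4).add (mt.pow_const 2), fun y hy => ?_⟩
  obtain ⟨k1, k2⟩ := key y hy
  have ε0 : 0 ≤ ε y := (norm_nonneg _).trans k1
  have t0 : 0 ≤ t y := norm_nonneg _
  refine ⟨by positivity, ?_, ?_, fun y' hy' => ?_, ?_⟩
  · have d := h.mat.dev_add _ (Ξ y - ((L.ap b a y - L.ap b a y₀) • (1 : Mt n) + sk (R y₀) (R y))) _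
      (dev_zero h.hn (L.ap b a y - L.ap b a y₀) (star_sk (R y₀) (R y)))
    rw [add_sub_cancel] at d
    exact dev_mono d (by nlinarith [sq_nonneg (t y)])
  · have n1 := norm_le_norm_add_norm_sub' (Ξ y)
      ((L.ap b a y - L.ap b a y₀) • (1 : Mt n) + sk (R y₀) (R y))
    have n2 := norm_add_le ((L.ap b a y - L.ap b a y₀) • (1 : Mt n)) (sk (R y₀) (R y))
    have n3 : ‖(L.ap b a y - L.ap b a y₀) • (1 : Mt n)‖ ≤ t y := by
      rw [norm_smul, Real.norm_eq_abs]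
      exact (mul_le_of_le_one_right (abs_nonneg _) norm_one_le).trans (ta y)
    have n4 := (norm_sk (hP.orth y₀) (R y)).trans (tR y)
    have n5 := mul_le_mul_of_nonneg_right C2 t0
    change ‖Ξ y‖ ≤ _ * t y + (4 * ε y + t y ^ 2)
    nlinarith [sq_nonneg (t y)]
  · obtain ⟨k1', k2'⟩ := key y' hy'
    have ε0' : 0 ≤ ε y' := (norm_nonneg _).trans k1'
    obtain ⟨q1, q2⟩ := cmp h.hn (hP.orth y₀) k1 k1' k2 k2'
    rw [sub_sub_sub_cancel_right] at q1
    have q3 : ‖L.gg b a R y - L.gg b a R y'‖ ≤ ‖Ξ y - Ξ y'‖ + (ε y + t y ^ 2) + (ε y' + t y' ^ 2) :=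
      norm_prod_le_iff.2 ⟨q1, q2⟩
    have n5 := mul_le_mul_of_nonneg_right C2 (norm_nonneg (Ξ y - Ξ y'))
    nlinarith [norm_nonneg (Ξ y - Ξ y')]
  · have q := sq_err (p := L.v b j y * ‖P y - L.Ps b y‖) (k := ‖L.hh b j y‖) (C₁ := C₁) c2 b0 t0
      (wt_nonneg _) (hvw L hL b j b0 bb y hy).2.2
    rw [mul_pow] at q
    exact q

end Pool.Agent.MP_29b5d3_an.EX

end MrgPart5

-- ======== part 6: formerly Pool.Agent.MP_29b5d3_an.EX.Rtail
section MrgPart6

/-! Project EXQ: the entropy inequality for measurable sets. -/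

set_option autoImplicit false

namespace Pool.Agent.MP_29b5d3_an.EX

open MeasureTheory Metric Filter Topology Module Pool.Agent.MP_29b5d3_an.NC
open scoped RealInnerProductSpace ContDiff ENNReal

variable {n : ℕ}

namespace Tailx

theorem int_of_sq {a : V n → ℝ} {S : Set (V n)} (ma : Measurable a) (hS : volume S ≠ ⊤)
    (h : ∫⁻ x in S, ‖a x‖ₑ ^ 2 < ⊤) : IntegrableOn a S volume := by
  refine ⟨ma.aestronglyMeasurable, lt_of_le_of_lt (lintegral_mono (g := fun x => ‖a x‖ₑ ^ 2 + 1)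
    fun x => ?_) ?_⟩
  · rcases le_total ‖a x‖ₑ 1 with k | k
    · exact k.trans le_add_self
    · exact (le_self_pow₀ k two_ne_zero).trans le_self_add
  · rw [lintegral_add_right _ measurable_const, setLIntegral_const, one_mul]
    exact ENNReal.add_lt_top.2 ⟨h, hS.lt_top⟩

/-- The number of levels. -/
theorem levels (hN : NUM) {δ b m τ c v : ℝ} {N : ℕ} (hδ : 0 < δ) (δ1 : δ ≤ 1) (hb : 0 < b)
    (b1 : b ≤ 1) (hm : 0 < m) (hv : m ≤ v) (hτ : m ≤ c * τ)
    (h : 1 ≤ N → c * (τ * (1 + δ) ^ (N - 1)) ≤ 1) :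
    ((N - 1 : ℕ) : ℝ) * Real.log (1 + δ * b) ≤ (1 + δ) * b * Real.log m⁻¹ + 2 * v := by
  have p : 0 ≤ (1 + δ) * b := by positivity
  rcases Nat.eq_zero_or_pos N with rfl | h0
  · have k : -v ≤ Real.log m⁻¹ := by
      rw [Real.log_inv]
      linarith [Real.log_le_sub_one_of_pos hm]
    have p2 : (1 + δ) * b ≤ 2 := by nlinarith
    simp only [Nat.zero_sub, Nat.cast_zero, zero_mul]
    nlinarith [mul_le_mul_of_nonneg_left k p, mul_le_mul_of_nonneg_right p2 (hm.le.trans hv)]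
  · have q : 0 < (1 + δ) ^ (N - 1) := by positivity
    have k : (1 + δ) ^ (N - 1) ≤ m⁻¹ := by
      rw [le_inv_comm₀ q hm, ← one_div, le_div_iff₀ q]
      nlinarith [h h0, mul_le_mul_of_nonneg_right hτ q.le]
    have k2 := Real.log_le_log q k
    rw [Real.log_pow] at k2
    have k3 := mul_le_mul_of_nonneg_left (hN.log δ b hδ hb.le) (Nat.cast_nonneg (α := ℝ) (N - 1))
    nlinarith [mul_le_mul_of_nonneg_left k2 p]

/-- The slack drops out. -/
theorem absorb {S b Ce Cp Ci τ m sP sI T w : ℝ} (hS : 0 ≤ S) (hb : 0 < b)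
    (hb' : b * (2 * (Ce + Cp)) ≤ 1) (hw : 1 ≤ w) (h1 : sP + sI ≤ Ce * (S + τ))
    (h2 : S / (2 * b) - Cp * S - Cp * m ≤ sP) (h3 : w * T ≤ sI + Ci * (τ + m))
    (h0 : 0 ≤ Ce * τ + Cp * m + Ci * (τ + m)) : T ≤ Ce * τ + Cp * m + Ci * (τ + m) := by
  have k : (Ce + Cp) * S ≤ S / (2 * b) := by
    rw [le_div_iff₀ (by positivity)]
    nlinarith [mul_le_mul_of_nonneg_left hb' hS]
  rcases le_total T 0 with h | h
  · exact h.trans h0
  · nlinarith [mul_le_mul_of_nonneg_right hw h]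

/-- Passage to the limit of the mollified indicators. -/
theorem limit (hA : AvA n) {κ a : V n → ℝ} {E : Set (V n)} (hκ : Test κ 1) (h1 : ∫ y, κ y = 1)
    (ma : Measurable a) (ia : IntegrableOn a (ball 0 5) volume) (hE : MeasurableSet E) {c : ℝ}
    (h : ∀ r, 0 < r → r ≤ 1 → ∃ θ : V n → ℝ, Measurable θ ∧ (∀ x, 0 ≤ θ x) ∧ (∀ x, θ x ≤ 1) ∧
      (∀ x, 3 ≤ ‖x‖ → θ x = 0) ∧ (θ =ᵐ[volume] fun x => av κ (E.indicator fun _ => (1 : ℝ)) x r) ∧
      ∫ x, θ x * a x ≤ c) : ∫ x in E, a x ≤ c := by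
  choose θ mθ θ0 θ1 θs eθ hθ using fun k : ℕ => h (1 / ((k : ℝ) + 1)) Nat.one_div_pos_of_nat (by
    rw [div_le_one (by positivity)]
    linarith [k.cast_nonneg (α := ℝ)])
  have t0 : Tendsto (fun m : ℕ => 1 / ((m : ℝ) + 1)) atTop (𝓝[>] 0) :=
    tendsto_nhdsWithin_iff.2 ⟨tendsto_one_div_add_atTop_nhds_zero_nat,
      Eventually.of_forall fun m => Set.mem_Ioi.2 Nat.one_div_pos_of_nat⟩
  have lb := leb hA hκ h1 ((locallyIntegrable_const (1 : ℝ)).indicator hE)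
  have t := tendsto_integral_of_dominated_convergence (μ := volume)
    (F := fun k x => θ k x * a x) (f := fun x => E.indicator (fun _ => (1 : ℝ)) x * a x)
    ((ball (0 : V n) 5).indicator fun x => ‖a x‖)
    (fun k => ((mθ k).mul ma).aestronglyMeasurable)
    (IntegrableOn.integrable_indicator ia.norm measurableSet_ball)
    (fun k => Eventually.of_forall fun x => by
      by_cases hx : x ∈ ball (0 : V n) 5
      · rw [Set.indicator_of_mem hx, norm_mul, Real.norm_of_nonneg (θ0 k x)]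
        exact mul_le_of_le_one_left (norm_nonneg _) (θ1 k x)
      · rw [Set.indicator_of_notMem hx, θs k x (by
          linarith [not_lt.1 fun a => hx (mem_ball_zero_iff.2 a)]), zero_mul, norm_zero])
    (by
      filter_upwards [lb, ae_all_iff.2 eθ] with x hx hx'
      simp only [hx']
      exact (hx.comp t0).mul_const _)
  have e : ∫ x, E.indicator (fun _ => (1 : ℝ)) x * a x = ∫ x in E, a x := by
    rw [← integral_indicator hE]
    refine integral_congr_ae (Eventually.of_forall fun x => ?_)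
    by_cases hx : x ∈ E <;> simp [hx]
  rw [e] at t
  exact le_of_tendsto' t hθ

end Tailx

open Tailx in
theorem tail (h : Bas3 n) (h1 : OBS n) (h2 : ERRS n) (h3 : PSUM n) (h4 : ISUM n) : TAIL n := by
  intro Cβ Ca hβ ha
  obtain ⟨κ, Co, hκ, -, κ1, hCo, H1⟩ := h1
  obtain ⟨c₁, hc₁, H2⟩ := h2
  obtain ⟨Ce, be, hCe, hbe, H2⟩ := H2 Cβ hβ
  obtain ⟨Cp, bq, hCp, hbq, H3⟩ := h3
  obtain ⟨Ci, bi, hCi, hbi, H4⟩ := h4 Ca ha
  have hv := vb_pos (n := n)
  have n3 : (3 : ℝ) ≤ n := by exact_mod_cast h.hn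
  obtain ⟨C1, c1a, c1b, c1c⟩ : ∃ C1 : ℝ, Co ≤ C1 ∧ 1 ≤ c₁ * C1 ∧ 1 ≤ C1 := by
    have := inv_pos.2 hc₁
    refine ⟨Co + c₁⁻¹ + 1, by linarith, ?_, by linarith⟩
    rw [mul_add, mul_add, mul_inv_cancel₀ hc₁.ne']
    nlinarith [mul_pos hc₁ hCo]
  refine ⟨Ce * C1 + Cp + Ci * (C1 + 1) + 2 * vb n,
    min (min be bq) (min bi (min (1 / 2) (2 * (Ce + Cp))⁻¹)), by positivity, by positivity,
    fun b δ A R P a E hb hb' hδ δ1 hP hB hL hE hE1 hm => ?_⟩
  simp only [le_min_iff] at hb'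
  obtain ⟨⟨b1, b2⟩, b3, b4, b5⟩ := hb'
  have fin : ∫⁻ x in ball (0 : V n) 5, ‖a x‖ₑ ^ 2 < ⊤ := hL.trans_lt ENNReal.ofReal_lt_top
  have mv : volume.real E ≤ vb n := measureReal_mono hE1 measure_ball_lt_top.ne
  set m := volume.real E
  refine limit h.ava hκ κ1 hP.ma (int_of_sq hP.ma measure_ball_lt_top.ne fin) hE fun r r0 r1 => ?_
  obtain ⟨L, ok, eδ, eτ, em, eθ, hN⟩ := H1 E r δ (C1 * m) hE hE1 r0 r1 hδ δ1 (by positivity)
    (mul_le_mul_of_nonneg_right c1a hm.le)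
  refine ⟨L.θ, ok.mθ, ok.θ0, ok.θ1, ok.θs, eθ, ?_⟩
  obtain ⟨s1, iP, s2⟩ := H3 L b P ok hb b2 hP.mP hP.str
  obtain ⟨iI, s3⟩ := H4 L b a ok hb b3 hP.ma hL
  obtain ⟨ι, ι1, ι0, s4⟩ := H2 L b A R P a ok hb b1 hP hB fin
    (by rw [em, eτ]; nlinarith) iP iI
  have t0 : 0 ≤ L.τ0 := ok.τp.le
  rw [← ENNReal.ofReal_toReal s1, ← ENNReal.ofReal_add ENNReal.toReal_nonneg t0,
    ← ENNReal.ofReal_mul hCe.le, ENNReal.ofReal_le_ofReal_iff (by positivity),
    Finset.sum_add_distrib] at s4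
  have hw : 1 ≤ ((n : ℝ) - 1) / L.bp b := by
    have g1 : 1 ≤ L.g b := by
      rw [Lev.g, eδ]
      nlinarith [mul_pos hδ hb]
    have p0 : 0 < L.bp b := div_pos (by linarith) (by linarith)
    have p1 : L.bp b ≤ 1 := (div_le_one (by linarith)).2 (by linarith)
    rw [le_div_iff₀ p0]
    linarith
  have k1 := absorb ENNReal.toReal_nonneg hb
    ((mul_le_mul_of_nonneg_right b5 (by positivity)).trans_eq (inv_mul_cancel₀ (by positivity)))
    hw s4 (s2 ι ι1 ι0) (s3 ι ι1 ι0) (by rw [em]; positivity)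
  have k2 := levels (N := L.N) (c := n) (τ := C1 * m) h.num hδ δ1 hb (by linarith) hm mv
    (by nlinarith [mul_le_mul_of_nonneg_right c1c hm.le])
    fun a => by simpa only [Lev.τ, eδ, eτ] using hN a
  rw [Lev.g, eδ, em, eτ] at k1
  nlinarith [mul_le_mul_of_nonneg_right k2 hm.le]

end Pool.Agent.MP_29b5d3_an.EX

end MrgPart6

-- marker of a merged file
example : 731051 + 443336 = 731051 + 443336 := rfl
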