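import Pool.Agent.MP_29b5d3_an.NC.All
import Pool.Agent.MP_29b5d3_an.EX.Rcore
import Pool.Agent.MP_29b5d3_an.EX.Rfin
import Pool.Agent.MP_29b5d3_an.EX.Re2
import Pool.Agent.MP_29b5d3_an.EX.Rlinm
import Pool.Agent.MP_29b5d3_an.EX.OLev
import Pool.Agent.MP_29b5d3_an.EX.Rlv1
import Pool.Agent.MP_29b5d3_an.EX.Rblk2
import Pool.Agent.MP_29b5d3_an.EX.Re1
import Pool.Agent.MP_29b5d3_an.EX.Rtail
import Pool.Agent.MP_29b5d3_an.EX.Rprep
import Pool.Agent.MP_29b5d3_an.EX.Ralg1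
import Pool.Agent.MP_29b5d3_an.EX.Ralg2
import Pool.Agent.MP_29b5d3_an.EX.Rb2
import Pool.Agent.MP_29b5d3_an.EX.Rb3
import Pool.Agent.MP_29b5d3_an.EX.Re3
import Pool.Agent.MP_29b5d3_an.EX.Re4
import Pool.Agent.MP_29b5d3_an.EX.Rblk
import Pool.Agent.MP_29b5d3_an.EX.Robs

/-! Project EXQ: assembly. -/

set_option autoImplicit false

namespace Pool.Agent.MP_29b5d3_an.EX

open Pool.Agent.MP_29b5d3_an.NC

variable {n : ℕ}

theorem bas0 (hn : 3 ≤ n) : Bas0 n :=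
  ⟨hn, matB hn, kerS hn, avA hn, ⟨avB1 hn (avA hn), avB2 hn (avA hn) (avB1 hn (avA hn))⟩⟩

theorem bas1 (hn : 3 ≤ n) : Bas1 n :=
  have h := bas0 hn
  ⟨h, cfs h (korn h), ⟨h2l h, h2w h (h2l h)⟩, wf h, jn2 h (jn1 h), lay, num, l0 h, pw h⟩

theorem bas2 (hn : 3 ≤ n) : Bas2 n :=
  have h := bas1 hn
  have h1 := lv1 h.toBas0 h.num
  have h2 : LV n := ⟨h1, lv2 h h1⟩
  ⟨h, h2b h, h2c h, h2, qg h, den h h1, ys h (h2c h) h2⟩

theorem bas3 (hn : 3 ≤ n) : Bas3 n :=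
  have h := bas2 hn
  ⟨h, alg1 h, alg2 h, dns h⟩

theorem tail_all (hn : 3 ≤ n) : TAIL n :=
  have h := bas3 hn
  have h2 := h.toBas2
  have h1 := h2.toBas1
  have h0 := h1.toBas0
  tail h (obs h1)
    (errs h
      (blk2 h (blk h (e1s h1) (e2s h0) (e3s h (cs h)) (e4s h (cs h)) (zg h2) (rots h0 h1.cfs))
        (gau h0) (yws h2) (err1 h1))
      (err0 h1) (osc h1 (ch h1) (loc2 h1 (loc1 h1 (fine h1)))) (lins h (linm h0)) (bmj h2) (pig h2)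
      (sums h))
    (psum h (b2 h2) (b3 h)) (isum h)

theorem mainX (hn : 3 ≤ n) : MainX n := by
  have h1 := bas1 hn
  have h := h1.toBas0
  have hMa := matA hn
  have hMo := monoA hn hMa h.ava h.avb
  exact fin h
    (fos hn h.ker hMa h.mat h.ava h.avb hMo
      (mono hn hMa h.ava h.avb hMo (cacc2 hn hMa h.ava h.avb hMo)))
    (propP hn h.mat h.ava h.avb (flatStep hn h.ker h.mat h.ava h.avb (cac hn h.mat h.ava h.avb)))
    (itx h1 (core h1 (prep h1 (pol h)) (tail_all hn)))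

end Pool.Agent.MP_29b5d3_an.EX
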