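import Mathlib.Algebra.Order.Chebyshev
import Pool.Agent.MP_29b5d3_an.EX.Rblk2

/-! Project EXQ: the model and the sums inside one block. -/

set_option autoImplicit false

namespace Pool.Agent.MP_29b5d3_an.EX

open Finset Pool.Agent.MP_29b5d3_an.NC

variable {n : ℕ}

namespace Alg1x

theorem abel (c : ℕ → ℝ) (h : ℕ → Mt n) {j M : ℕ} (e : j ≤ M) :
    ∑ i ∈ Ico j M, c i • (h (i + 1) - h i) =
      c M • h M - c j • h j + ∑ i ∈ Ioc j M, (c (i - 1) - c i) • h i := by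
  induction M, e using Nat.le_induction with
  | base => simp
  | succ M e ih =>
    rw [sum_Ico_succ_top e, sum_Ioc_succ_top e, ih, Nat.add_sub_cancel]
    module

theorem abelN (a : ℕ → ℝ) (h : ℕ → Mt n) {j M : ℕ} {A δ : ℝ} (e : j ≤ M) (hA : 0 ≤ A) (hδ : 0 ≤ δ)
    (h1 : ∀ i, j ≤ i → i < M → |a i| ≤ A) (h2 : ∀ i, j ≤ i → i + 1 < M → |a i - a (i + 1)| ≤ A * δ) :
    ‖∑ i ∈ Ico j M, a i • (h (i + 1) - h i)‖ ≤ A * (‖h M‖ + ‖h j‖ + δ * ∑ i ∈ Ico j M, ‖h i‖) := by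
  have k : ∀ m, j ≤ m → m < M → ‖∑ i ∈ Ico j (m + 1), a i • (h (i + 1) - h i) - a m • h (m + 1)‖ ≤
      A * (‖h j‖ + δ * ∑ i ∈ Ico j (m + 1), ‖h i‖) := fun m e => by
    induction m, e using Nat.le_induction with
    | base =>
      intro e
      have : a j • (h (j + 1) - h j) - a j • h (j + 1) = (-a j) • h j := by module
      rw [Nat.Ico_succ_singleton, sum_singleton, sum_singleton, this, norm_smul, Real.norm_eq_abs,
        abs_neg]
      exact mul_le_mul (h1 j le_rfl e) (le_add_of_nonneg_right (by positivity)) (norm_nonneg _) hA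
    | succ m e ih =>
      intro e'
      have e1 : j ≤ m + 1 := by omega
      have i1 := ih (by omega)
      have i2 : ‖(a m - a (m + 1)) • h (m + 1)‖ ≤ A * δ * ‖h (m + 1)‖ := by
        rw [norm_smul, Real.norm_eq_abs]
        exact mul_le_mul_of_nonneg_right (h2 m e e') (norm_nonneg _)
      rw [sum_Ico_succ_top e1, sum_Ico_succ_top e1 fun i => ‖h i‖]
      refine le_trans (le_of_eq (congrArg _ ?_)) ((norm_add_le _ _).trans
        ((add_le_add i1 i2).trans_eq (by ring)))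
      module
  rcases e.eq_or_lt with rfl | e
  · simp only [Ico_self, sum_empty, norm_zero]
    positivity
  obtain ⟨m, rfl⟩ : ∃ m, M = m + 1 := ⟨M - 1, by omega⟩
  have i2 : ‖a m • h (m + 1)‖ ≤ A * ‖h (m + 1)‖ := by
    rw [norm_smul, Real.norm_eq_abs]
    exact mul_le_mul_of_nonneg_right (h1 m (by omega) (by omega)) (norm_nonneg _)
  refine le_trans (le_of_eq (congrArg _ (sub_add_cancel _ _).symm)) ((norm_add_le _ _).trans
    ((add_le_add (k m (by omega) (by omega)) i2).trans_eq (by ring)))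

theorem cut {E : Type} [AddCommMonoid E] (f : ℕ → E) (j j' M : ℕ) (h : ∀ i, j' ≤ i → f i = 0) :
    ∑ i ∈ Ico j M, f i = ∑ i ∈ Ico j (min M j'), f i :=
  (sum_subset (Ico_subset_Ico_right (min_le_left _ _)) fun i h1 h2 => h i (by
    simp only [mem_Ico] at h1 h2
    omega)).symm

theorem geo (t : ℝ) {j M : ℕ} (e : j ≤ M) :
    ∑ i ∈ Ico j M, t * (1 + t) ^ (i - j) = (1 + t) ^ (M - j) - 1 := by
  induction M, e using Nat.le_induction with
  | base => simp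
  | succ M e ih =>
    rw [sum_Ico_succ_top e, ih, Nat.succ_sub e, pow_succ]
    ring

variable (lv : LV1 n) {L : Lev n} (hL : L.Ok) {b Λ : ℝ} {j j' M : ℕ} {x : V n}
include lv hL

theorem below (c : ℕ → ℝ) (e : M ≤ L.J x) : ∑ i ∈ Ico j M, c i • L.DY i x =
    (∑ i ∈ Ico j M, c i * (L.δ * L.τ i)) • (1 : Mt n) +
      ∑ i ∈ Ico j M, c i • (L.h (i + 1) x - L.h i x) := by
  rw [sum_smul, ← sum_add_distrib]
  refine sum_congr rfl fun i hi => ?_
  rw [lv.DYlt L hL i x ((mem_Ico.1 hi).2.trans_le e)]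
  module

theorem out (i : ℕ) (e : L.J x < i) : x ∉ L.O i := fun h => e.not_ge ((lv.mem L hL i x).1 h).2

theorem total (c : ℕ → ℝ) (hx : x ∈ L.O j) : ∑ i ∈ Ico j L.N, c i • L.DY i x =
    (∑ i ∈ Ico j (L.J x), c i * (L.δ * L.τ i)) • (1 : Mt n) +
      ∑ i ∈ Ico j (L.J x + 1), c i • (L.h (i + 1) x - L.h i x) +
        c (L.J x) • (L.H x - L.s x • (1 : Mt n)) := by
  obtain ⟨h0, hj⟩ := (lv.mem L hL j x).1 hx
  have hN : j < L.N := not_le.1 fun e => by simp [lv.empty L hL j e] at hx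
  have := lv.Jle L hL x
  rw [cut _ j (L.J x + 1) L.N fun i e => by rw [(lv.off L hL i x (out lv hL i e)).2.2.1, smul_zero],
    min_eq_right (by omega), sum_Ico_succ_top hj, sum_Ico_succ_top hj, below lv hL c le_rfl,
    lv.DYeq L hL x h0, (lv.off L hL _ x (out lv hL _ (Nat.lt_succ_self _))).2.2.2]
  module

theorem casum (e : j ≤ M) :
    ∑ i ∈ Ico j M, L.ca b j i * (L.δ * L.τ i) = L.g b ^ (M - j) - 1 := by
  rw [Lev.g, ← geo _ e]
  refine sum_congr rfl fun i _ => ?_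
  have := (lv.τpos L hL i).ne'
  rw [Lev.ca, Lev.g]
  field_simp

omit lv in
theorem g1 (h0 : 0 < b) : 1 ≤ L.g b := le_add_of_nonneg_right (mul_pos hL.δ0 h0).le

omit lv in
theorem gq (h1 : b < 1) : L.g b ≤ 1 + L.δ := by
  have := hL.δ0
  rw [Lev.g]
  nlinarith

omit lv hL in
theorem tsucc (i : ℕ) : L.τ (i + 1) = L.τ i * (1 + L.δ) := by rw [Lev.τ, Lev.τ, pow_succ, mul_assoc]

theorem lam (e : j < j') (h : L.τ j' ≤ Λ * L.τ j) : (1 + L.δ) ^ (j' - j) ≤ Λ ∧ 1 ≤ Λ ∧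
    L.δ * ((j' - j : ℕ) : ℝ) ≤ Λ := by
  have d := hL.δ0
  have a : (1 + L.δ) ^ (j' - j) ≤ Λ := by
    rw [← lv.τdiv L hL j' j e.le]
    exact (div_le_iff₀ (lv.τpos L hL j)).2 h
  have := one_add_mul_le_pow (a := L.δ) (by linarith) (j' - j)
  have p : 0 ≤ ((j' - j : ℕ) : ℝ) * L.δ := by positivity
  exact ⟨a, by linarith, by linarith⟩

theorem cs (e : j < j') (h : L.τ j' ≤ Λ * L.τ j) (hM : M ≤ j') :
    (L.δ * ∑ i ∈ Ico j M, ‖L.h i x‖) ^ 2 ≤ Λ * (L.δ * ∑ i ∈ Ico j j', ‖L.h i x‖ ^ 2) := by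
  have d := hL.δ0
  have a := sq_sum_le_card_mul_sum_sq (s := Ico j j') (f := fun i => ‖L.h i x‖)
  rw [Nat.card_Ico] at a
  calc _ ≤ (L.δ * ∑ i ∈ Ico j j', ‖L.h i x‖) ^ 2 := by gcongr
    _ ≤ L.δ * ((j' - j : ℕ) : ℝ) * (L.δ * ∑ i ∈ Ico j j', ‖L.h i x‖ ^ 2) := by
      rw [mul_pow]
      exact (mul_le_mul_of_nonneg_left a (sq_nonneg _)).trans_eq (by ring)
    _ ≤ _ := mul_le_mul_of_nonneg_right (lam lv hL e h).2.2 (by positivity)

omit lv in
theorem cb01 (h0 : 0 < b) (i : ℕ) : 0 ≤ L.cb b j j' i ∧ L.cb b j j' i ≤ 1 := by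
  have := one_le_pow₀ (n := i - j) (g1 hL h0)
  unfold Lev.cb
  split_ifs
  exacts [⟨by positivity, inv_le_one_of_one_le₀ this⟩, ⟨le_rfl, zero_le_one⟩]

theorem cbN (h0 : 0 < b) (h1 : b < 1) (e : j < j') (h : L.τ j' ≤ Λ * L.τ j) (hM : j ≤ M) :
    ‖∑ i ∈ Ico j M, L.cb b j j' i • (L.h (i + 1) x - L.h i x)‖ ^ 2 ≤
      4 * Λ ^ 3 * (L.HH j j' x + if M < j' then ‖L.h M x‖ ^ 2 else 0) := by
  have d := hL.δ0
  have g := g1 hL h0
  have l := (lam lv hL e h).2.1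
  rw [cut _ j j' M fun i e => by rw [Lev.cb, if_neg e.not_gt, zero_smul]]
  have a := abelN (L.cb b j j') (fun i => L.h i x) (le_min hM e.le) zero_le_one d.le
    (fun i _ _ => by rw [abs_of_nonneg (cb01 hL h0 i).1]; exact (cb01 hL h0 i).2)
    fun i i1 i2 => by
      have i3 : i + 1 < j' := i2.trans_le (min_le_right _ _)
      have k := cb01 (j := j) (j' := j') hL h0 (i + 1)
      have : L.cb b j j' i - L.cb b j j' (i + 1) = L.δ * (b * L.cb b j j' (i + 1)) := by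
        have : L.g b ≠ 0 := by positivity
        rw [Lev.cb, Lev.cb, if_pos i3, if_pos (by omega), Nat.succ_sub i1, pow_succ]
        field_simp
        rw [Lev.g]
        ring
      rw [this, abs_of_nonneg (mul_nonneg d.le (mul_nonneg h0.le k.1)), one_mul]
      exact mul_le_of_le_one_right d.le (mul_le_one₀ h1.le k.1 k.2)
  have c := cs (x := x) lv hL e h (min_le_right M j')
  have m : ‖L.h (min M j') x‖ ^ 2 ≤ ‖L.h j' x‖ ^ 2 + if M < j' then ‖L.h M x‖ ^ 2 else 0 := by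
    split_ifs with t
    · rw [min_eq_left t.le]
      exact le_add_of_nonneg_left (sq_nonneg _)
    · rw [min_eq_right (not_lt.1 t), add_zero]
  have z : 0 ≤ if M < j' then ‖L.h M x‖ ^ 2 else 0 := by positivity
  have l3 : Λ ≤ Λ ^ 3 := le_self_pow₀ l (by norm_num)
  have s : 0 ≤ L.δ * ∑ i ∈ Ico j j', ‖L.h i x‖ ^ 2 := by positivity
  refine (pow_le_pow_left₀ (norm_nonneg _) a 2).trans ?_
  rw [Lev.HH, one_mul]
  generalize L.δ * ∑ i ∈ Ico j (min M j'), ‖L.h i x‖ = S at *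
  generalize L.δ * ∑ i ∈ Ico j j', ‖L.h i x‖ ^ 2 = T at *
  generalize (if M < j' then ‖L.h M x‖ ^ 2 else 0) = w at *
  generalize ‖L.h (min M j') x‖ = u at *
  have := mul_le_mul_of_nonneg_right l3 s
  have := mul_le_mul_of_nonneg_right (l.trans l3)
    (show 0 ≤ ‖L.h j x‖ ^ 2 + ‖L.h j' x‖ ^ 2 + w by positivity)
  nlinarith [sq_nonneg (u - S), sq_nonneg (u - ‖L.h j x‖), sq_nonneg (S - ‖L.h j x‖),
    sq_nonneg u, sq_nonneg S, sq_nonneg ‖L.h j x‖]

theorem caN (h0 : 0 < b) (h1 : b < 1) (e : j < j') (h : L.τ j' ≤ Λ * L.τ j) (hM : j ≤ M)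
    (hM' : M < j') : ‖∑ i ∈ Ico j M, L.ca b j i • (L.h (i + 1) x - L.h i x)‖ ^ 2 ≤
      4 * Λ ^ 3 * b ^ 2 * (L.HH j j' x + ‖L.h M x‖ ^ 2) / L.τ j ^ 2 := by
  have d := hL.δ0
  have g := g1 hL h0
  have l := (lam lv hL e h).2.1
  have tj := lv.τpos L hL j
  have k : ∀ i, j ≤ i → 0 ≤ L.ca b j i ∧ L.ca b j i ≤ b / L.τ j := fun i i1 => by
    have ti := lv.τpos L hL i
    have := pow_le_pow_left₀ (by positivity) (gq hL h1) (i - j)
    rw [← lv.τdiv L hL i j i1, le_div_iff₀ tj] at this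
    rw [Lev.ca, div_le_div_iff₀ ti tj, mul_assoc]
    exact ⟨by positivity, mul_le_mul_of_nonneg_left this h0.le⟩
  have a := abelN (L.ca b j) (fun i => L.h i x) (A := b / L.τ j) hM (by positivity) d.le
    (fun i i1 _ => by rw [abs_of_nonneg (k i i1).1]; exact (k i i1).2)
    fun i i1 _ => by
      have ti := (lv.τpos L hL i).ne'
      have p : 0 ≤ (1 - b) / (1 + L.δ) := div_nonneg (by linarith) (by positivity)
      have p' : (1 - b) / (1 + L.δ) ≤ 1 := (div_le_one (by positivity)).2 (by linarith)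
      have : L.ca b j i - L.ca b j (i + 1) = L.ca b j i * (L.δ * ((1 - b) / (1 + L.δ))) := by
        rw [Lev.ca, Lev.ca, tsucc, Nat.succ_sub i1, pow_succ]
        field_simp
        rw [Lev.g]
        ring
      rw [this, abs_of_nonneg (mul_nonneg (k i i1).1 (mul_nonneg d.le p))]
      exact mul_le_mul (k i i1).2 (mul_le_of_le_one_right d.le p') (mul_nonneg d.le p)
        (by positivity)
  have c := cs (x := x) lv hL e h hM'.le
  have l3 : Λ ≤ Λ ^ 3 := le_self_pow₀ l (by norm_num)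
  have s : 0 ≤ L.δ * ∑ i ∈ Ico j j', ‖L.h i x‖ ^ 2 := by positivity
  refine (pow_le_pow_left₀ (norm_nonneg _) a 2).trans ?_
  rw [Lev.HH, mul_pow, show ∀ y, 4 * Λ ^ 3 * b ^ 2 * y / L.τ j ^ 2 =
    (b / L.τ j) ^ 2 * (4 * Λ ^ 3 * y) from fun y => by ring]
  refine mul_le_mul_of_nonneg_left ?_ (sq_nonneg _)
  generalize L.δ * ∑ i ∈ Ico j M, ‖L.h i x‖ = S at *
  generalize L.δ * ∑ i ∈ Ico j j', ‖L.h i x‖ ^ 2 = T at *
  generalize ‖L.h M x‖ = u at *
  have := mul_le_mul_of_nonneg_right l3 s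
  have := mul_le_mul_of_nonneg_right (l.trans l3)
    (show 0 ≤ ‖L.h j x‖ ^ 2 + ‖L.h j' x‖ ^ 2 + u ^ 2 by positivity)
  nlinarith [sq_nonneg (u - S), sq_nonneg (u - ‖L.h j x‖), sq_nonneg (S - ‖L.h j x‖),
    sq_nonneg u, sq_nonneg S, sq_nonneg ‖L.h j x‖, sq_nonneg ‖L.h j' x‖]

theorem beN (h0 : 0 < b) (e : j < j') (h : L.τ j' ≤ Λ * L.τ j) :
    0 ≤ L.be b j j' M ∧ L.be b j j' M ≤ 4 * Λ ^ 3 * L.τ j := by
  have d := hL.δ0
  obtain ⟨-, l, l'⟩ := lam lv hL e h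
  have tj := lv.τpos L hL j
  refine ⟨sum_nonneg fun i _ => mul_nonneg (cb01 hL h0 i).1 (mul_pos d (lv.τpos L hL i)).le, ?_⟩
  rw [Lev.be, cut _ j j' M fun i e => by rw [Lev.cb, if_neg e.not_gt, zero_mul]]
  refine (sum_le_card_nsmul _ _ (L.δ * (Λ * L.τ j)) fun i hi => ?_).trans ?_
  · have := (lv.τmono L hL ((mem_Ico.1 hi).2.le.trans (min_le_right _ _))).trans h
    exact (mul_le_of_le_one_left (mul_pos d (lv.τpos L hL i)).le (cb01 hL h0 i).2).trans
      (mul_le_mul_of_nonneg_left this d.le)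
  rw [nsmul_eq_mul, Nat.card_Ico]
  have c : ((min M j' - j : ℕ) : ℝ) ≤ ((j' - j : ℕ) : ℝ) := Nat.cast_le.2 (by omega)
  calc _ ≤ ((j' - j : ℕ) : ℝ) * (L.δ * (Λ * L.τ j)) := by gcongr
    _ = L.δ * ((j' - j : ℕ) : ℝ) * Λ * L.τ j := by ring
    _ ≤ Λ * Λ * L.τ j := by gcongr
    _ ≤ _ := mul_le_mul_of_nonneg_right
        (by nlinarith [mul_pos (one_pos.trans_le l) (one_pos.trans_le l)]) tj.le

end Alg1x

open Alg1x in
theorem alg1 (h : Bas2 n) : ALG1 n := by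
  have lv := h.lv.toLV1
  refine ⟨fun L hL b j h0 h1 x hx => ?_, fun Λ hΛ => ⟨4 * Λ ^ 3, by positivity,
    fun L hL b j j' M h0 h1 e t hM => ?_⟩, fun Λ hΛ => ⟨4 * Λ ^ 3, by positivity,
    fun L hL b j j' h0 h1 e t x hx => ?_⟩⟩
  · have hj := ((lv.mem L hL j x).1 hx).2
    have g := g1 hL h0
    have d := hL.δ0
    have s : L.s x ≠ 0 := (lv.τpos L hL _).ne'
    have z := (lv.off L hL _ x (out lv hL _ (Nat.lt_succ_self (L.J x)))).2.2.2
    have e1 : ∑ i ∈ Ioc j (L.J x), (L.ca b j (i - 1) - L.ca b j i) • L.h i x =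
        (b * L.bp b * L.δ) • ∑ i ∈ Ioc j (L.J x), (L.g b ^ (i - j) / L.τ i) • L.h i x := by
      rw [smul_sum]
      refine sum_congr rfl fun i hi => ?_
      obtain ⟨i, rfl⟩ : ∃ m, i = m + 1 := ⟨i - 1, by have := (mem_Ioc.1 hi).1; omega⟩
      have ti := (lv.τpos L hL i).ne'
      rw [smul_smul, Nat.add_sub_cancel, Lev.ca, Lev.ca, Lev.bp, tsucc,
        Nat.succ_sub (Nat.le_of_lt_succ (mem_Ioc.1 hi).1), pow_succ]
      congr 1
      field_simp
      rw [Lev.g]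
      ring
    have e2 : L.ca b j (L.J x) = L.v b j x * b * (L.s x)⁻¹ := by
      rw [Lev.ca, Lev.v, Lev.s]
      ring
    have e3 : L.ca b j j = b / L.τ j := by simp [Lev.ca]
    have e4 : (L.v b j x * b * (L.s x)⁻¹) • L.s x • (1 : Mt n) = (L.v b j x * b) • (1 : Mt n) := by
      rw [smul_smul, inv_mul_cancel_right₀ s]
    rw [Lev.hh, Lev.DP, total lv hL _ hx, sum_Ico_succ_top hj, abel _ (fun i => L.h i x) hj,
      casum lv hL hj, e1, z, e3, e2, smul_sub _ (L.H x), e4, Lev.Ps, ← Lev.v]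
    module
  · obtain ⟨a, l, l'⟩ := lam lv hL e t
    have l3 : Λ ≤ 4 * Λ ^ 3 := by linarith [le_self_pow₀ l (show 3 ≠ 0 by norm_num)]
    have d := hL.δ0
    have g := g1 hL h0
    refine ⟨(beN lv hL h0 e t).1, (beN lv hL h0 e t).2, l'.trans l3, fun m => ?_, fun x hx => ?_⟩
    · exact ((pow_le_pow_left₀ (by positivity) (gq hL h1) _).trans
        (pow_le_pow_right₀ (by linarith) (by omega))).trans (a.trans l3)
    have hJ := ((lv.mem L hL M x).1 hx).2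
    rw [below lv hL _ hJ, below lv hL _ hJ, casum lv hL hM, add_sub_cancel_left, ← Lev.be,
      add_sub_cancel_left]
    exact ⟨caN lv hL h0 h1 e t hM, cbN lv hL h0 h1 e t hM⟩
  have hj := ((lv.mem L hL j x).1 hx).2
  have z := (lv.off L hL _ x (out lv hL _ (Nat.lt_succ_self (L.J x)))).2.2.2
  have s := fun i => lv.hsym L hL i x
  refine ⟨L.v b j x • ∑ i ∈ Ico j (L.J x + 1), L.cb b j j' i • (L.h (i + 1) x - L.h i x), ?_, ?_,
    ?_, ?_⟩
  · simp only [star_smul, star_sum, star_sub, star_trivial, (s _).1]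
  · simp only [tr_smul, tr_sum, tr_sub, (s _).2, sub_zero, mul_zero, sum_const_zero]
  · have := cbN (x := x) lv hL h0 h1 e t (hj.trans (Nat.le_succ _))
    rw [z, norm_zero, zero_pow two_ne_zero, ite_self, add_zero] at this
    rw [norm_smul, mul_pow, Real.norm_eq_abs, sq_abs]
    exact (mul_le_mul_of_nonneg_left this (sq_nonneg _)).trans_eq (by ring)
  · have g := g1 hL h0
    have : (if L.J x < j' then (1 : ℝ) else 0) = L.v b j x * L.cb b j j' (L.J x) := by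
      rw [Lev.v, Lev.cb]
      split_ifs
      · rw [mul_inv_cancel₀ (by positivity)]
      · rw [mul_zero]
    rw [this, Lev.DZ, total lv hL _ hx, ← Lev.be]
    module

end Pool.Agent.MP_29b5d3_an.EX
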